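import Pool.Agent.OS.Stmts

set_option autoImplicit false

open Filter Topology
open scoped InnerProductSpace

namespace Pool.Agent.OS

universe u

namespace Avg

variable {H : Type u} [NormedAddCommGroup H] [InnerProductSpace ℂ H] [CompleteSpace H]

/-- parallelogram estimate -/
theorem par (a b : H) (q p : ℝ) (ha : ‖a‖ ^ 2 ≤ p) (hb : ‖b‖ ^ 2 ≤ p)
    (hm : q ≤ ‖(1 / 2 : ℝ) • a + (1 / 2 : ℝ) • b‖ ^ 2) : ‖a - b‖ ^ 2 ≤ 4 * p - 4 * q := by
  have h1 := parallelogram_law_with_norm ℂ a b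
  have h2 : (1 / 2 : ℝ) • a + (1 / 2 : ℝ) • b = (1 / 2 : ℝ) • (a + b) := by rw [smul_add]
  rw [h2, norm_smul, mul_pow] at hm
  norm_num at hm
  nlinarith

/-- the abstract minimal point of a directed family of closed convex sets -/
theorem abs_min {Λ : Type*} [Nonempty Λ] (K : Λ → Set H) (hcl : ∀ l, IsClosed (K l))
    (hcv : ∀ l, Convex ℝ (K l)) (C : ℝ) (hne : ∀ l, ∃ ξ ∈ K l, ‖ξ‖ ≤ C)
    (hdir : ∀ l l', ∃ m, K m ⊆ K l ∧ K m ⊆ K l') :
    ∃ ζ : H, (∀ l, ζ ∈ K l) ∧ ∀ η > 0, ∃ l, ∀ ξ ∈ K l, ‖ζ‖ ^ 2 - η ≤ ‖ξ‖ ^ 2 := by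
  classical
  -- the minimal squared norms
  let D : Λ → ℝ := fun l => sInf ((fun ξ : H => ‖ξ‖ ^ 2) '' (K l))
  have hbd : ∀ l, BddBelow ((fun ξ : H => ‖ξ‖ ^ 2) '' (K l)) := fun l =>
    ⟨0, by rintro _ ⟨ξ, -, rfl⟩; positivity⟩
  have hnon : ∀ l, ((fun ξ : H => ‖ξ‖ ^ 2) '' (K l)).Nonempty := fun l => by
    obtain ⟨ξ, hξ, -⟩ := hne l
    exact ⟨_, ξ, hξ, rfl⟩
  have hDle : ∀ l, ∀ ξ ∈ K l, D l ≤ ‖ξ‖ ^ 2 := fun l ξ hξ => csInf_le (hbd l) ⟨ξ, hξ, rfl⟩
  have hDex : ∀ l, ∀ ε > 0, ∃ ξ ∈ K l, ‖ξ‖ ^ 2 < D l + ε := by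
    intro l ε hε
    obtain ⟨_, ⟨ξ, hξ, rfl⟩, h⟩ := exists_lt_of_csInf_lt (hnon l) (lt_add_of_pos_right (D l) hε)
    exact ⟨ξ, hξ, h⟩
  have hDmono : ∀ l m, K m ⊆ K l → D l ≤ D m := fun l m h =>
    csInf_le_csInf (hbd l) (hnon m) (Set.image_mono h)
  have hC0 : 0 ≤ C := by
    obtain ⟨ξ, -, h⟩ := hne (Classical.arbitrary Λ)
    exact (norm_nonneg _).trans h
  have hDC : ∀ l, D l ≤ C ^ 2 := by
    intro l
    obtain ⟨ξ, hξ, h⟩ := hne l
    exact (hDle l ξ hξ).trans (pow_le_pow_left₀ (norm_nonneg _) h 2)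
  let s : ℝ := ⨆ l, D l
  have hbdA : BddAbove (Set.range D) := ⟨C ^ 2, by rintro _ ⟨l, rfl⟩; exact hDC l⟩
  have hDs : ∀ l, D l ≤ s := fun l => le_ciSup hbdA l
  have hsex : ∀ ε > 0, ∃ l, s - ε < D l := fun ε hε =>
    exists_lt_of_lt_ciSup (sub_lt_self s hε)
  -- two points with small norms in sets with large minimal norm
  have key : ∀ l, ∀ ε > 0, s - ε < D l → ∀ a ∈ K l, ∀ b ∈ K l, ‖a‖ ^ 2 ≤ s + ε →
      ‖b‖ ^ 2 ≤ s + ε → ‖a - b‖ ^ 2 ≤ 8 * ε := by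
    intro l ε _ hl a ha b hb hna hnb
    have h1 : (1 / 2 : ℝ) • a + (1 / 2 : ℝ) • b ∈ K l :=
      (hcv l) ha hb (by norm_num) (by norm_num) (by norm_num)
    have h2 := par a b (s - ε) (s + ε) hna hnb (hl.le.trans (hDle l _ h1))
    linarith
  -- the sequence
  choose L hL using fun n : ℕ => hsex (1 / ((n : ℝ) + 1)) (by positivity)
  choose M hM using hdir
  let l' : ℕ → Λ := fun n => Nat.rec (L 0) (fun n p => M p (L (n + 1))) n
  have hl'0 : ∀ n, K (l' (n + 1)) ⊆ K (l' n) := fun n => (hM (l' n) (L (n + 1))).1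
  have hl'L : ∀ n, K (l' n) ⊆ K (L n) := by
    intro n
    cases n with
    | zero => exact subset_rfl
    | succ n => exact (hM (l' n) (L (n + 1))).2
  have hl'anti : ∀ n m, n ≤ m → K (l' m) ⊆ K (l' n) := by
    intro n m h
    induction m, h using Nat.le_induction with
    | base => exact subset_rfl
    | succ m _ ih => exact (hl'0 m).trans ih
  have hl'D : ∀ n : ℕ, s - 1 / ((n : ℝ) + 1) < D (l' n) := fun n =>
    (hL n).trans_le (hDmono _ _ (hl'L n))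
  choose ζ hζ hζn using fun n : ℕ => hDex (l' n) (1 / ((n : ℝ) + 1)) (by positivity)
  have hζn' : ∀ n : ℕ, ‖ζ n‖ ^ 2 ≤ s + 1 / ((n : ℝ) + 1) := fun n =>
    (hζn n).le.trans (by linarith [hDs (l' n)])
  have hmono1 : ∀ n m : ℕ, n ≤ m → 1 / ((m : ℝ) + 1) ≤ 1 / ((n : ℝ) + 1) := by
    intro n m h
    apply one_div_le_one_div_of_le (by positivity)
    have : (n : ℝ) ≤ m := by exact_mod_cast h
    linarith
  have hcau : CauchySeq ζ := by
    apply Metric.cauchySeq_iff'.2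
    intro ε hε
    obtain ⟨N, hN⟩ := exists_nat_one_div_lt (show (0 : ℝ) < ε ^ 2 / 8 by positivity)
    refine ⟨N, fun n hn => ?_⟩
    have h1 := key (l' N) (1 / ((N : ℝ) + 1)) (by positivity) (hl'D N) (ζ n)
      (hl'anti N n hn (hζ n)) (ζ N) (hζ N)
      ((hζn' n).trans (by linarith [hmono1 N n hn])) (hζn' N)
    rw [dist_eq_norm]
    have h2 : ‖ζ n - ζ N‖ ^ 2 < ε ^ 2 := by linarith
    exact lt_of_pow_lt_pow_left₀ 2 hε.le h2
  obtain ⟨z, hz⟩ := cauchySeq_tendsto_of_complete hcau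
  have hzn : ‖z‖ ^ 2 ≤ s := by
    have h1 : Tendsto (fun n => ‖ζ n‖ ^ 2) atTop (𝓝 (‖z‖ ^ 2)) := (hz.norm).pow 2
    have h2 : Tendsto (fun n : ℕ => s + 1 / ((n : ℝ) + 1)) atTop (𝓝 (s + 0)) :=
      tendsto_const_nhds.add tendsto_one_div_add_atTop_nhds_zero_nat
    rw [add_zero] at h2
    exact le_of_tendsto_of_tendsto' h1 h2 hζn'
  have hzl' : ∀ n, z ∈ K (l' n) := fun n =>
    (hcl (l' n)).mem_of_tendsto hz (eventually_atTop.2 ⟨n, fun m hm => hl'anti n m hm (hζ m)⟩)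
  refine ⟨z, ?_, ?_⟩
  · -- z lies in every K l
    intro l
    choose ζ' hζ' hζn'' using fun n : ℕ => hDex (M l (l' n)) (1 / ((n : ℝ) + 1)) (by positivity)
    have h1 : ∀ n : ℕ, ‖ζ' n - z‖ ^ 2 ≤ 8 * (1 / ((n : ℝ) + 1)) := by
      intro n
      apply key (l' n) (1 / ((n : ℝ) + 1)) (by positivity) (hl'D n) _
        ((hM l (l' n)).2 (hζ' n)) _ (hzl' n)
      · exact (hζn'' n).le.trans (by linarith [hDs (M l (l' n))])
      · have : (0 : ℝ) ≤ 1 / ((n : ℝ) + 1) := by positivity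
        linarith
    have h2 : Tendsto ζ' atTop (𝓝 z) := by
      rw [tendsto_iff_norm_sub_tendsto_zero]
      have h3 : Tendsto (fun n : ℕ => Real.sqrt (8 * (1 / ((n : ℝ) + 1)))) atTop (𝓝 0) := by
        have h4 : Tendsto (fun n : ℕ => 8 * (1 / ((n : ℝ) + 1))) atTop (𝓝 (8 * 0)) :=
          tendsto_one_div_add_atTop_nhds_zero_nat.const_mul 8
        have h5 := (Real.continuous_sqrt.tendsto _).comp h4
        rw [mul_zero, Real.sqrt_zero] at h5
        exact h5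
      refine squeeze_zero (fun n => norm_nonneg _) (fun n => ?_) h3
      exact Real.le_sqrt_of_sq_le (h1 n)
    exact (hcl l).mem_of_tendsto h2 (Eventually.of_forall (fun n => (hM l (l' n)).1 (hζ' n)))
  · intro η hη
    obtain ⟨l, hl⟩ := hsex η hη
    refine ⟨l, fun ξ hξ => ?_⟩
    have := hDle l ξ hξ
    linarith

theorem norm_unit_le {w : H →L[ℂ] H} (hw : w ∈ unitary (H →L[ℂ] H)) : ‖w‖ ≤ 1 := by
  refine ContinuousLinearMap.opNorm_le_bound _ zero_le_one (fun ξ => ?_)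
  rw [one_mul]
  exact (Unitary.norm_map ⟨w, hw⟩ ξ).le

/-- multiplying by a unitary of `S` on the right does not change the 2-norm -/
theorem norm_mul_unit (T : TVN H) (z u : H →L[ℂ] H) (hz : z ∈ T.S) (hu : u ∈ T.S)
    (hu' : u ∈ unitary (H →L[ℂ] H)) : ‖(z * u) T.Ω‖ = ‖z T.Ω‖ := by
  have e1 : ∀ y : H →L[ℂ] H, ‖y T.Ω‖ ^ 2 = (⟪T.Ω, (star y * y) T.Ω⟫_ℂ).re := by
    intro y
    have : ⟪T.Ω, (star y * y) T.Ω⟫_ℂ = ⟪y T.Ω, y T.Ω⟫_ℂ := by
      rw [mul_apply_eq_comp, ContinuousLinearMap.star_eq_adjoint,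
        ContinuousLinearMap.adjoint_inner_right]
    rw [this]
    exact (inner_self_eq_norm_sq (𝕜 := ℂ) (y T.Ω)).symm
  have h1 := T.trace (star (z * u) * z) (mul_mem (star_mem (mul_mem hz hu)) hz) u hu
  have h2 : ‖(z * u) T.Ω‖ ^ 2 = ‖z T.Ω‖ ^ 2 := by
    rw [e1, e1]
    have h3 : (star (z * u) * (z * u)) T.Ω = (star (z * u) * z) (u T.Ω) := by
      rw [← mul_apply_eq_comp, mul_assoc]
    have h4 : u ((star (z * u) * z) T.Ω) = (star z * z) T.Ω := by
      rw [← mul_apply_eq_comp, star_mul, ← mul_assoc, ← mul_assoc,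
        Unitary.mul_star_self_of_mem hu', one_mul]
    rw [h3, h1, h4]
  exact (sq_eq_sq₀ (norm_nonneg _) (norm_nonneg _)).1 h2

end Avg

theorem avg_proof : Stmt_Avg.{u} := by
  intro H _ _ _ T Λ _ V hV h1V hdir hmul x hx
  -- the sets of operators
  let B : Λ → Set (H →L[ℂ] H) := fun l => {y | ∃ w ∈ V l, y = w * x * star w}
  let ev : (H →L[ℂ] H) →ₗ[ℝ] H :=
    { toFun := fun y => y T.Ω
      map_add' := fun _ _ => rfl
      map_smul' := fun _ _ => rfl }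
  have hev : ∀ y, ev y = y T.Ω := fun _ => rfl
  have himg : ∀ l, {ξ : H | ∃ w ∈ V l, ξ = (w * x * star w) T.Ω} = ev '' (B l) := by
    intro l
    ext ξ
    constructor
    · rintro ⟨w, hw, rfl⟩
      exact ⟨_, ⟨w, hw, rfl⟩, rfl⟩
    · rintro ⟨_, ⟨w, hw, rfl⟩, rfl⟩
      exact ⟨w, hw, rfl⟩
  have hcvx : ∀ l, convexHull ℝ {ξ : H | ∃ w ∈ V l, ξ = (w * x * star w) T.Ω} =
      ev '' (convexHull ℝ (B l)) := by
    intro l
    rw [himg, ev.image_convexHull]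
  -- elements of the hull
  have hhull : ∀ l, ∀ y ∈ convexHull ℝ (B l), y ∈ T.S ∧ ‖y‖ ≤ ‖x‖ := by
    intro l y hy
    have h1 : convexHull ℝ (B l) ⊆ {y | y ∈ T.S ∧ ‖y‖ ≤ ‖x‖} := by
      apply convexHull_min
      · rintro _ ⟨w, hw, rfl⟩
        obtain ⟨hwS, hwU⟩ := hV l w hw
        refine ⟨mul_mem (mul_mem hwS hx) (star_mem hwS), ?_⟩
        have hw1 : ‖w‖ ≤ 1 := Avg.norm_unit_le hwU
        have hw2 : ‖star w‖ ≤ 1 := by rw [norm_star]; exact hw1
        calc ‖w * x * star w‖ ≤ ‖w * x‖ * ‖star w‖ := norm_mul_le _ _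
          _ ≤ (‖w‖ * ‖x‖) * ‖star w‖ := by gcongr; exact norm_mul_le _ _
          _ ≤ (1 * ‖x‖) * 1 := by gcongr
          _ = ‖x‖ := by ring
      · intro a ha b hb s t hs ht hst
        refine ⟨add_mem ?_ ?_, ?_⟩
        · have := SMulMemClass.smul_mem (s : ℂ) ha.1
          exact this
        · have := SMulMemClass.smul_mem (t : ℂ) hb.1
          exact this
        · calc ‖s • a + t • b‖ ≤ ‖s • a‖ + ‖t • b‖ := norm_add_le _ _
            _ = s * ‖a‖ + t * ‖b‖ := by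
                rw [norm_smul, norm_smul, Real.norm_of_nonneg hs, Real.norm_of_nonneg ht]
            _ ≤ s * ‖x‖ + t * ‖x‖ := by
                gcongr
                · exact ha.2
                · exact hb.2
            _ = ‖x‖ := by rw [← add_mul, hst, one_mul]
    exact h1 hy
  let K : Λ → Set H := fun l => closure (convexHull ℝ {ξ : H | ∃ w ∈ V l, ξ = (w * x * star w) T.Ω})
  have hKmono : ∀ l m, V m ⊆ V l → K m ⊆ K l := by
    intro l m h
    apply closure_mono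
    apply convexHull_mono
    rintro ξ ⟨w, hw, rfl⟩
    exact ⟨w, h hw, rfl⟩
  obtain ⟨ζ, hζ, hmin⟩ := Avg.abs_min K (fun l => isClosed_closure)
    (fun l => (convex_convexHull ℝ _).closure) ‖x T.Ω‖
    (fun l => ⟨x T.Ω, subset_closure (subset_convexHull ℝ _ ⟨1, h1V l, by simp⟩), le_rfl⟩)
    (fun l l' => by
      obtain ⟨m, h1, h2⟩ := hdir l l'
      exact ⟨m, hKmono l m h1, hKmono l' m h2⟩)
  -- sequences in the hull
  have hseq : ∀ l, ∀ ξ ∈ K l, ∃ y : ℕ → H →L[ℂ] H, (∀ n, y n ∈ convexHull ℝ (B l)) ∧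
      Tendsto (fun n => y n T.Ω) atTop (𝓝 ξ) := by
    intro l ξ hξ
    obtain ⟨u, hu, hu'⟩ := mem_closure_iff_seq_limit.1 hξ
    rw [hcvx l] at hu
    choose y hy hy' using hu
    exact ⟨y, hy, by simpa only [← hev, hy'] using hu'⟩
  -- ζ = k Ω
  obtain ⟨k, hkS, hkn, hkζ⟩ : ∃ k ∈ T.S, ‖k‖ ≤ ‖x‖ ∧ k T.Ω = ζ := by
    obtain ⟨y, hy, hyl⟩ := hseq (Classical.arbitrary Λ) ζ (hζ _)
    have hyS := fun n => hhull _ (y n) (hy n)
    rcases eq_or_lt_of_le (norm_nonneg x) with hx0 | hx0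
    · refine ⟨0, zero_mem _, by rw [norm_zero]; exact hx0.le, ?_⟩
      have h1 : ∀ n, y n = 0 := by
        intro n
        have := (hyS n).2
        rw [← hx0] at this
        exact norm_le_zero_iff.1 this
      simp only [h1] at hyl
      rw [_root_.zero_apply] at hyl ⊢
      exact tendsto_nhds_unique tendsto_const_nhds hyl
    · obtain ⟨z, hz, hz1, hzl⟩ := T.complete (fun n => ((‖x‖⁻¹ : ℝ) : ℂ) • y n)
        (fun n => SMulMemClass.smul_mem _ (hyS n).1)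
        (fun n => by
          rw [norm_smul, Complex.norm_real, Real.norm_of_nonneg (by positivity)]
          rw [inv_mul_le_iff₀ hx0, mul_one]
          exact (hyS n).2)
        (by
          have h1 : Tendsto (fun n => (((‖x‖⁻¹ : ℝ) : ℂ) • y n) T.Ω) atTop
              (𝓝 (((‖x‖⁻¹ : ℝ) : ℂ) • ζ)) := by
            simp only [_root_.smul_apply]
            exact hyl.const_smul _
          exact h1.cauchySeq)
      have h2 : z T.Ω = ((‖x‖⁻¹ : ℝ) : ℂ) • ζ := by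
        have h1 : Tendsto (fun n => (((‖x‖⁻¹ : ℝ) : ℂ) • y n) T.Ω) atTop
            (𝓝 (((‖x‖⁻¹ : ℝ) : ℂ) • ζ)) := by
          simp only [_root_.smul_apply]
          exact hyl.const_smul _
        exact tendsto_nhds_unique hzl h1
      refine ⟨((‖x‖ : ℝ) : ℂ) • z, SMulMemClass.smul_mem _ hz, ?_, ?_⟩
      · rw [norm_smul, Complex.norm_real, Real.norm_of_nonneg hx0.le]
        calc ‖x‖ * ‖z‖ ≤ ‖x‖ * 1 := by gcongr
          _ = ‖x‖ := mul_one _
      · rw [_root_.smul_apply, h2, smul_smul, ← Complex.ofReal_mul,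
          mul_inv_cancel₀ hx0.ne', Complex.ofReal_one, one_smul]
  refine ⟨k, hkS, hkn, fun l => by rw [hkζ]; exact hζ l, ?_⟩
  intro δ hδ
  obtain ⟨l, hl⟩ := hmin (δ ^ 2 / 4) (by positivity)
  obtain ⟨m, hm⟩ := hmul l
  refine ⟨m, fun w hw => ?_⟩
  obtain ⟨hwS, hwU⟩ := hV m w hw
  -- w k w* Ω lies in K l
  have hmem : (w * k * star w) T.Ω ∈ K l := by
    obtain ⟨y, hy, hyl⟩ := hseq m ζ (hζ m)
    have h1 : ∀ n, (w * y n * star w) T.Ω ∈ K l := by
      intro n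
      apply subset_closure
      rw [hcvx l]
      refine ⟨w * y n * star w, ?_, rfl⟩
      let c : (H →L[ℂ] H) →ₗ[ℝ] (H →L[ℂ] H) :=
        { toFun := fun y => w * y * star w
          map_add' := fun a b => by simp only [mul_add, add_mul]
          map_smul' := fun r a => by
            simp only [mul_smul_comm, smul_mul_assoc, RingHom.id_apply] }
      have h2 : c '' (convexHull ℝ (B m)) ⊆ convexHull ℝ (B l) := by
        rw [c.image_convexHull]
        apply convexHull_mono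
        rintro _ ⟨_, ⟨v, hv, rfl⟩, rfl⟩
        refine ⟨w * v, hm w hw v hv, ?_⟩
        change w * (v * x * star v) * star w = _
        rw [star_mul]
        simp only [mul_assoc]
      exact h2 ⟨y n, hy n, rfl⟩
    have h3 : Tendsto (fun n => (w * y n * star w) T.Ω) atTop (𝓝 ((w * k * star w) T.Ω)) := by
      rw [tendsto_iff_norm_sub_tendsto_zero]
      have h4 : Tendsto (fun n => ‖y n T.Ω - ζ‖) atTop (𝓝 0) :=
        tendsto_iff_norm_sub_tendsto_zero.1 hyl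
      refine squeeze_zero (fun n => norm_nonneg _) (fun n => ?_) h4
      have h5 : (w * y n * star w) T.Ω - (w * k * star w) T.Ω =
          w (((y n - k) * star w) T.Ω) := by
        simp only [mul_apply_eq_comp, _root_.sub_apply, map_sub]
      have h6 : ‖w‖ ≤ 1 := Avg.norm_unit_le hwU
      rw [h5]
      calc ‖w (((y n - k) * star w) T.Ω)‖ ≤ ‖w‖ * ‖((y n - k) * star w) T.Ω‖ := w.le_opNorm _
        _ ≤ 1 * ‖((y n - k) * star w) T.Ω‖ := by gcongr
        _ = ‖(y n - k) T.Ω‖ := by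
            rw [one_mul]
            exact Avg.norm_mul_unit T _ _ (sub_mem (hhull _ _ (hy n)).1 hkS) (star_mem hwS)
              (Unitary.star_mem hwU)
        _ = ‖y n T.Ω - ζ‖ := by rw [_root_.sub_apply, hkζ]
    exact isClosed_closure.mem_of_tendsto h3 (Eventually.of_forall h1)
  have hζl : k T.Ω ∈ K l := by rw [hkζ]; exact hζ l
  -- norms
  have hn1 : ‖(w * k * star w) T.Ω‖ = ‖k T.Ω‖ := by
    rw [Avg.norm_mul_unit T _ _ (mul_mem hwS hkS) (star_mem hwS) (Unitary.star_mem hwU)]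
    rw [mul_apply_eq_comp]
    exact Unitary.norm_map ⟨w, hwU⟩ _
  have hmid : (1 / 2 : ℝ) • ((w * k * star w) T.Ω) + (1 / 2 : ℝ) • (k T.Ω) ∈ K l :=
    ((convex_convexHull ℝ _).closure) hmem hζl (by norm_num) (by norm_num) (by norm_num)
  have h7 := Avg.par _ _ (‖k T.Ω‖ ^ 2 - δ ^ 2 / 4) (‖k T.Ω‖ ^ 2) (by rw [hn1]) le_rfl
    (by
      have := hl _ hmid
      rwa [← hkζ] at this)
  have h8 : (w * k - k * w) = (w * k * star w - k) * w := by
    rw [sub_mul, mul_assoc (w * k), Unitary.star_mul_self_of_mem hwU, mul_one]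
  rw [h8, Avg.norm_mul_unit T _ _ (sub_mem (mul_mem (mul_mem hwS hkS)
    (star_mem hwS)) hkS) hwS hwU, _root_.sub_apply]
  have h9 : ‖(w * k * star w) T.Ω - k T.Ω‖ ^ 2 ≤ δ ^ 2 := by linarith
  exact le_of_sq_le_sq h9 hδ.le

end Pool.Agent.OS
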