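import Mathlib

set_option autoImplicit false

/-!
# Tracial von Neumann algebras, intrinsically: the structure `TVN` and the basic vocabulary
-/

open Filter Topology
open scoped InnerProductSpace

namespace Pool.Agent.OS

universe u

/-- A finite von Neumann algebra with a trace vector, described intrinsically: a norm closed
`*`-subalgebra `S` of `B(H)` with a separating unit vector `Ω` whose vector state is a trace on
`S`, such that the unit ball of `S` is complete in the 2-norm `‖x Ω‖`. -/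
structure TVN (H : Type u) [NormedAddCommGroup H] [InnerProductSpace ℂ H] [CompleteSpace H] where
  S : StarSubalgebra ℂ (H →L[ℂ] H)
  Ω : H
  norm_Ω : ‖Ω‖ = 1
  closed : IsClosed (S : Set (H →L[ℂ] H))
  trace : ∀ x ∈ S, ∀ y ∈ S, ⟪Ω, x (y Ω)⟫_ℂ = ⟪Ω, y (x Ω)⟫_ℂ
  sep : ∀ x ∈ S, x Ω = 0 → x = 0
  complete : ∀ x : ℕ → (H →L[ℂ] H), (∀ n, x n ∈ S) → (∀ n, ‖x n‖ ≤ 1) →
    CauchySeq (fun n => x n Ω) →
    ∃ y ∈ S, ‖y‖ ≤ 1 ∧ Tendsto (fun n => x n Ω) atTop (𝓝 (y Ω))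

variable {H : Type u} [NormedAddCommGroup H] [InnerProductSpace ℂ H] [CompleteSpace H]

/-- the trace -/
noncomputable def TVN.tr (T : TVN H) (x : H →L[ℂ] H) : ℂ := ⟪T.Ω, x T.Ω⟫_ℂ

/-- `S` has no minimal projections. -/
def TVN.NoMin (T : TVN H) : Prop :=
  ∀ p ∈ T.S, IsStarProjection p → p ≠ 0 →
    ∃ q ∈ T.S, IsStarProjection q ∧ q ≠ 0 ∧ q ≠ p ∧ q * p = q

/-- `S` is a factor. -/
def TVN.Factor (T : TVN H) : Prop :=
  ∀ x ∈ T.S, (∀ y ∈ T.S, x * y = y * x) → ∃ c : ℂ, x = c • (1 : H →L[ℂ] H)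

/-- A partition of the projection `p` into finitely many mutually orthogonal projections of
`S`. -/
structure TVN.IsPartOf (T : TVN H) (p : H →L[ℂ] H) {k : ℕ} (q : Fin k → H →L[ℂ] H) : Prop where
  mem : ∀ j, q j ∈ T.S
  proj : ∀ j, IsStarProjection (q j)
  orth : ∀ i j, i ≠ j → q i * q j = 0
  sum : ∑ j, q j = p

/-- `p` commutes up to `ε` in 2-norm with the elements of the finite set `F` which lie in `N`. -/
def TVN.Near (T : TVN H) (N : Set (H →L[ℂ] H)) (F : Finset (H →L[ℂ] H)) (ε : ℝ)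
    (p : H →L[ℂ] H) : Prop :=
  ∀ x ∈ F, x ∈ N → ‖(x * p - p * x) T.Ω‖ ≤ ε

/-- The unitaries of `S` which are `Near`. -/
def TVN.UN (T : TVN H) (N : Set (H →L[ℂ] H)) (F : Finset (H →L[ℂ] H)) (ε : ℝ) :
    Set (H →L[ℂ] H) :=
  {w | w ∈ T.S ∧ w ∈ unitary (H →L[ℂ] H) ∧ T.Near N F ε w}

/-- `P0 = Q' ∩ S` where `Q = N' ∩ S^U`: the elements of `S` which almost commute with all unitaries
which almost commute with `N`. -/
def TVN.P0 (T : TVN H) (N : Set (H →L[ℂ] H)) : Set (H →L[ℂ] H) :=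
  {a | a ∈ T.S ∧ ∀ δ > 0, ∃ (F : Finset (H →L[ℂ] H)) (ε : ℝ), 0 < ε ∧
    ∀ w ∈ T.UN N F ε, ‖(w * a - a * w) T.Ω‖ ≤ δ}

/-- The standing assumption on the set `N`: contained in `S`, closed under `star`. -/
structure TVN.IsSub (T : TVN H) (N : Set (H →L[ℂ] H)) : Prop where
  sub : ∀ x ∈ N, x ∈ T.S
  star : ∀ x ∈ N, star x ∈ N

/-- Trivial relative commutant. -/
def TVN.TrivComm (T : TVN H) (N : Set (H →L[ℂ] H)) : Prop :=
  ∀ y ∈ T.S, (∀ x ∈ N, x * y = y * x) → ∃ c : ℂ, y = c • (1 : H →L[ℂ] H)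

/-- There are almost commuting projections of arbitrarily small trace under `e` (with traces
bounded below). -/
def TVN.SmallProj (T : TVN H) (N : Set (H →L[ℂ] H)) (e : H →L[ℂ] H) : Prop :=
  ∀ η > 0, ∃ c > 0, ∀ (F : Finset (H →L[ℂ] H)) (ε : ℝ), 0 < ε →
    ∃ p ∈ T.S, IsStarProjection p ∧ p * e = p ∧ c ≤ ‖p T.Ω‖ ^ 2 ∧ ‖p T.Ω‖ ^ 2 ≤ η ∧
      T.Near N F ε p

/-- Conclusion of the core theorem, for the corner of `e`: finite families in `N` cut by `e` can be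
perturbed by arbitrarily little in 2-norm so that they commute with partitions of `e` into
projections of arbitrarily small trace. -/
def TVN.Concl (T : TVN H) (N : Set (H →L[ℂ] H)) (e : H →L[ℂ] H) : Prop :=
  ∀ (r : ℕ) (x : Fin r → H →L[ℂ] H), (∀ i, x i ∈ N) → ∀ δ > 0,
    ∃ x' : Fin r → H →L[ℂ] H, (∀ i, x' i ∈ T.S) ∧ (∀ i, e * x' i = x' i) ∧
      (∀ i, x' i * e = x' i) ∧ (∀ i, ‖(x' i - x i * e) T.Ω‖ ≤ δ) ∧
      ∀ η > 0, ∃ (k : ℕ) (q : Fin k → H →L[ℂ] H), T.IsPartOf e q ∧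
        (∀ j, ‖q j T.Ω‖ ^ 2 ≤ η) ∧ ∀ i j, x' i * q j = q j * x' i

/-- Case B: there are projections in `P0` which almost commute with `N`, of trace about
`t ∈ (0,1)`. -/
def TVN.BExist (T : TVN H) (N : Set (H →L[ℂ] H)) : Prop :=
  ∃ t : ℝ, 0 < t ∧ t < 1 ∧ ∀ (F : Finset (H →L[ℂ] H)) (ε : ℝ), 0 < ε →
    ∃ e, e ∈ T.P0 N ∧ IsStarProjection e ∧ T.Near N F ε e ∧ |‖e T.Ω‖ ^ 2 - t| ≤ ε

/-- Case A, first half: almost commuting partitions with almost equal traces are almost conjugate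
by almost commuting unitaries. -/
def TVN.AConj (T : TVN H) (N : Set (H →L[ℂ] H)) : Prop :=
  ∀ (k : ℕ) (t : Fin k → ℝ) (F : Finset (H →L[ℂ] H)) (ε : ℝ), 0 < ε → ∀ δ > 0,
    ∃ (F₁ : Finset (H →L[ℂ] H)) (ε₁ : ℝ), 0 < ε₁ ∧
      ∀ p p' : Fin k → H →L[ℂ] H, T.IsPartOf 1 p → T.IsPartOf 1 p' →
        (∀ j, |‖p j T.Ω‖ ^ 2 - t j| ≤ ε₁) → (∀ j, |‖p' j T.Ω‖ ^ 2 - t j| ≤ ε₁) →
        (∀ j, T.Near N F₁ ε₁ (p j)) → (∀ j, T.Near N F₁ ε₁ (p' j)) →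
        ∃ w ∈ T.UN N F ε, ∀ j, ‖(star w * p' j * w - p j) T.Ω‖ ≤ δ

/-- Case A, second half: nested partitions. -/
def TVN.AExist (T : TVN H) (N : Set (H →L[ℂ] H)) : Prop :=
  ∃ (k : ℕ → ℕ) (t : (n : ℕ) → Fin (k n) → ℝ) (par : (n : ℕ) → Fin (k (n + 1)) → Fin (k n)),
    (∀ n j, t n j ≤ 1 / (n + 1 : ℝ)) ∧
    (∀ n j, ∑ i ∈ Finset.univ.filter (fun i => par n i = j), t (n + 1) i = t n j) ∧
    ∀ (n : ℕ) (F : Finset (H →L[ℂ] H)) (ε : ℝ), 0 < ε →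
      ∃ p : Fin (k n) → H →L[ℂ] H, T.IsPartOf 1 p ∧ (∀ j, |‖p j T.Ω‖ ^ 2 - t n j| ≤ ε) ∧
        ∀ j, T.Near N F ε (p j)

/-- Bounded families in `S`. -/
def TVN.Bd (T : TVN H) {Λ : Type u} (a : Λ → H →L[ℂ] H) : Prop :=
  (∀ l, a l ∈ T.S) ∧ ∃ C : ℝ, ∀ l, ‖a l‖ ≤ C

/-- An ultraproduct package: the tracial ultrapower of `T` along the ultrafilter `U`. -/
structure UPack (T : TVN H) (Λ : Type u) (U : Ultrafilter Λ) where
  L : Type u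
  nacg : NormedAddCommGroup L
  ips : InnerProductSpace ℂ L
  cs : CompleteSpace L
  That : TVN L
  π : (Λ → H →L[ℂ] H) → (L →L[ℂ] L)
  map_add : ∀ a b, T.Bd a → T.Bd b → π (a + b) = π a + π b
  map_mul : ∀ a b, T.Bd a → T.Bd b → π (a * b) = π a * π b
  map_smul : ∀ (c : ℂ) a, T.Bd a → π (c • a) = c • π a
  map_star : ∀ a, T.Bd a → π (star a) = star (π a)
  map_one : π 1 = 1
  mem : ∀ a, T.Bd a → π a ∈ That.S
  lift : ∀ X ∈ That.S, ∃ a : Λ → H →L[ℂ] H, (∀ l, a l ∈ T.S) ∧ (∀ l, ‖a l‖ ≤ ‖X‖) ∧ π a = X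
  norm_tendsto : ∀ a, T.Bd a → Tendsto (fun l => ‖a l T.Ω‖) U (𝓝 ‖π a That.Ω‖)

attribute [instance] UPack.nacg UPack.ips UPack.cs

end Pool.Agent.OS
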