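import Pool.Agent.OS.Defs
import Pool.Agent.OS.TVN

set_option autoImplicit false

/-!
# Module statements for MP_7c16f6_an (paper proof: /team-store/MP_7c16f6_PROOF.md)
Prove `theorem x_proof : Stmt_X.{u}` in `Pool/Agent/OS/X.lean`; other `Stmt_*` may be taken as
hypotheses.
-/

open Filter Topology
open scoped InnerProductSpace

namespace Pool.Agent.OS

universe u

section

/-- the elements of `P0` form a `TVN` -/
def Stmt_P0 : Prop :=
  ∀ (H : Type u) [NormedAddCommGroup H] [InnerProductSpace ℂ H] [CompleteSpace H]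
    (T : TVN H) (N : Set (H →L[ℂ] H)), T.IsSub N →
    ∃ T₀ : TVN H, T₀.Ω = T.Ω ∧ ∀ a, a ∈ T₀.S ↔ a ∈ T.P0 N

/-- spectral projections -/
def Stmt_Spec : Prop :=
  ∀ (H : Type u) [NormedAddCommGroup H] [InnerProductSpace ℂ H] [CompleteSpace H]
    (T : TVN H) (a : H →L[ℂ] H), a ∈ T.S → IsSelfAdjoint a → ∀ s : ℝ,
    ∃ q ∈ T.S, IsStarProjection q ∧
      (∀ g : ℝ → ℝ, Continuous g → (∀ x, s < x → g x = 0) → cfc g a * q = 0) ∧
      (∀ g : ℝ → ℝ, Continuous g → (∀ x, x ≤ s → g x = 0) → cfc g a * q = cfc g a) ∧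
      (∀ y ∈ T.S, y * a = a * y → y * q = q * y) ∧
      (0 ≤ s → ∀ y ∈ T.S, a * y = 0 → q * y = 0)

/-- a nonscalar algebra has a nontrivial projection -/
def Stmt_NonscalarProj : Prop :=
  ∀ (H : Type u) [NormedAddCommGroup H] [InnerProductSpace ℂ H] [CompleteSpace H]
    (T : TVN H), (∃ x ∈ T.S, ∀ c : ℂ, x ≠ c • (1 : H →L[ℂ] H)) →
    ∃ q ∈ T.S, IsStarProjection q ∧ q ≠ 0 ∧ q ≠ 1

/-- almost idempotent self-adjoint elements are near projections -/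
def Stmt_NearProj : Prop :=
  ∀ (H : Type u) [NormedAddCommGroup H] [InnerProductSpace ℂ H] [CompleteSpace H]
    (T : TVN H) (b : H →L[ℂ] H), b ∈ T.S → IsSelfAdjoint b →
    ∃ e ∈ T.S, IsStarProjection e ∧ ‖(e - b) T.Ω‖ ≤ 2 * ‖(b * b - b) T.Ω‖ ∧
      (∀ y ∈ T.S, y * b = b * y → y * e = e * y) ∧ (∀ y ∈ T.S, b * y = 0 → e * y = 0)

/-- self-adjoint elements are norm limits of linear combinations of projections -/
def Stmt_SpanProj : Prop :=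
  ∀ (H : Type u) [NormedAddCommGroup H] [InnerProductSpace ℂ H] [CompleteSpace H]
    (T : TVN H) (a : H →L[ℂ] H), a ∈ T.S → IsSelfAdjoint a → ∀ ε > 0,
    ∃ (k : ℕ) (c : Fin k → ℝ) (q : Fin k → H →L[ℂ] H),
      (∀ i, q i ∈ T.S ∧ IsStarProjection (q i)) ∧ ‖a - ∑ i, (c i : ℂ) • q i‖ ≤ ε

/-- partial isometries -/
def Stmt_PIso : Prop :=
  ∀ (H : Type u) [NormedAddCommGroup H] [InnerProductSpace ℂ H] [CompleteSpace H]
    (T : TVN H) (e f x : H →L[ℂ] H), e ∈ T.S → f ∈ T.S → x ∈ T.S → IsStarProjection e →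
    IsStarProjection f → e * x * f ≠ 0 →
    ∃ v ∈ T.S, v ≠ 0 ∧ IsStarProjection (star v * v) ∧ IsStarProjection (v * star v) ∧
      (star v * v) * f = star v * v ∧ (v * star v) * e = v * star v

/-- averaging: minimal norm elements in hulls of conjugates -/
def Stmt_Avg : Prop :=
  ∀ (H : Type u) [NormedAddCommGroup H] [InnerProductSpace ℂ H] [CompleteSpace H]
    (T : TVN H) (Λ : Type u) [Nonempty Λ] (V : Λ → Set (H →L[ℂ] H)),
    (∀ l, ∀ w ∈ V l, w ∈ T.S ∧ w ∈ unitary (H →L[ℂ] H)) → (∀ l, 1 ∈ V l) →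
    (∀ l l', ∃ m, V m ⊆ V l ∧ V m ⊆ V l') →
    (∀ l, ∃ m, ∀ v ∈ V m, ∀ w ∈ V m, v * w ∈ V l) →
    ∀ x ∈ T.S, ∃ k ∈ T.S, ‖k‖ ≤ ‖x‖ ∧
      (∀ l, k T.Ω ∈ closure (convexHull ℝ {ξ : H | ∃ w ∈ V l, ξ = (w * x * star w) T.Ω})) ∧
      ∀ δ > 0, ∃ l, ∀ w ∈ V l, ‖(w * k - k * w) T.Ω‖ ≤ δ

/-- comparison in factors -/
def Stmt_Compare : Prop :=
  ∀ (H : Type u) [NormedAddCommGroup H] [InnerProductSpace ℂ H] [CompleteSpace H]
    (T : TVN H), T.Factor → ∀ e ∈ T.S, ∀ f ∈ T.S, IsStarProjection e → IsStarProjection f →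
    ‖e T.Ω‖ = ‖f T.Ω‖ → ∃ v ∈ T.S, star v * v = e ∧ v * star v = f

/-- partitions with equal traces are unitarily conjugate in a factor -/
def Stmt_PartConj : Prop :=
  ∀ (H : Type u) [NormedAddCommGroup H] [InnerProductSpace ℂ H] [CompleteSpace H]
    (T : TVN H), T.Factor → ∀ (k : ℕ) (p p' : Fin k → H →L[ℂ] H), T.IsPartOf 1 p →
    T.IsPartOf 1 p' → (∀ j, ‖p j T.Ω‖ = ‖p' j T.Ω‖) →
    ∃ w ∈ T.S, w ∈ unitary (H →L[ℂ] H) ∧ ∀ j, star w * p' j * w = p j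

/-- almost unitary contractions are near unitaries -/
def Stmt_UnitNear : Prop :=
  ∀ (H : Type u) [NormedAddCommGroup H] [InnerProductSpace ℂ H] [CompleteSpace H]
    (T : TVN H), T.Factor → ∀ x ∈ T.S, ‖x‖ ≤ 1 →
    ∃ w ∈ T.S, w ∈ unitary (H →L[ℂ] H) ∧ ‖(w - x) T.Ω‖ ≤ 4 * ‖(star x * x - 1) T.Ω‖

/-- division of projections -/
def Stmt_Divide : Prop :=
  ∀ (H : Type u) [NormedAddCommGroup H] [InnerProductSpace ℂ H] [CompleteSpace H]
    (T : TVN H), T.NoMin → ∀ p ∈ T.S, IsStarProjection p → ∀ η > 0,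
    ∃ (k : ℕ) (q : Fin k → H →L[ℂ] H), T.IsPartOf p q ∧ ∀ j, ‖q j T.Ω‖ ^ 2 ≤ η

/-- converse: partitions with arbitrarily small traces exclude minimal projections -/
def Stmt_PartNoMin : Prop :=
  ∀ (H : Type u) [NormedAddCommGroup H] [InnerProductSpace ℂ H] [CompleteSpace H]
    (T : TVN H), (∀ η > 0, ∃ (k : ℕ) (q : Fin k → H →L[ℂ] H), T.IsPartOf 1 q ∧
      ∀ j, ‖q j T.Ω‖ ^ 2 ≤ η) → T.NoMin

/-- existence of the tracial ultrapower -/
def Stmt_Ultra : Prop :=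
  ∀ (H : Type u) [NormedAddCommGroup H] [InnerProductSpace ℂ H] [CompleteSpace H]
    (T : TVN H) (Λ : Type u) (U : Ultrafilter Λ), Nonempty (UPack T Λ U)

/-- lifting partitions -/
def Stmt_PartLift : Prop :=
  ∀ (H : Type u) [NormedAddCommGroup H] [InnerProductSpace ℂ H] [CompleteSpace H]
    (T : TVN H) (Λ : Type u) (U : Ultrafilter Λ) (P : UPack T Λ U) (k : ℕ)
    (Q : Fin k → P.L →L[ℂ] P.L), P.That.IsPartOf 1 Q →
    ∃ q : Λ → Fin k → H →L[ℂ] H, (∀ l, T.IsPartOf 1 (q l)) ∧ ∀ j, P.π (fun l => q l j) = Q j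

/-- lifting unitaries -/
def Stmt_UniLift : Prop :=
  ∀ (H : Type u) [NormedAddCommGroup H] [InnerProductSpace ℂ H] [CompleteSpace H]
    (T : TVN H) (Λ : Type u) (U : Ultrafilter Λ) (P : UPack T Λ U), T.Factor →
    ∀ W ∈ P.That.S, W ∈ unitary (P.L →L[ℂ] P.L) →
    ∃ w : Λ → H →L[ℂ] H, (∀ l, w l ∈ T.S ∧ w l ∈ unitary (H →L[ℂ] H)) ∧ P.π w = W

end

section Q

variable {H : Type u} [NormedAddCommGroup H] [InnerProductSpace ℂ H] [CompleteSpace H]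

/-- `Q = N' ∩ S^U` -/
def QSet {T : TVN H} {Λ : Type u} {U : Ultrafilter Λ} (P : UPack T Λ U)
    (N : Set (H →L[ℂ] H)) : Set (P.L →L[ℂ] P.L) :=
  {X | X ∈ P.That.S ∧ ∀ x ∈ N, P.π (fun _ => x) * X = X * P.π (fun _ => x)}

/-- the centre of `Q` is trivial -/
def QTriv {T : TVN H} {Λ : Type u} {U : Ultrafilter Λ} (P : UPack T Λ U)
    (N : Set (H →L[ℂ] H)) : Prop :=
  ∀ X ∈ QSet P N, (∀ Y ∈ QSet P N, X * Y = Y * X) → ∃ c : ℂ, X = c • (1 : P.L →L[ℂ] P.L)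

end Q

section

/-- nontrivial centre of `Q` gives case B -/
def Stmt_QB : Prop :=
  ∀ (H : Type u) [NormedAddCommGroup H] [InnerProductSpace ℂ H] [CompleteSpace H]
    (T : TVN H) (N : Set (H →L[ℂ] H)), T.IsSub N →
    ∀ (U : Ultrafilter (Finset (H →L[ℂ] H) × ℕ)),
    (U : Filter (Finset (H →L[ℂ] H) × ℕ)) ≤ atTop →
    ∀ P : UPack T (Finset (H →L[ℂ] H) × ℕ) U, ¬ QTriv P N → T.BExist N

/-- trivial centre of `Q` gives conjugacy -/
def Stmt_QA : Prop :=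
  ∀ (H : Type u) [NormedAddCommGroup H] [InnerProductSpace ℂ H] [CompleteSpace H]
    (T : TVN H) (N : Set (H →L[ℂ] H)), T.IsSub N → T.TrivComm N →
    ∀ (U : Ultrafilter (Finset (H →L[ℂ] H) × ℕ)),
    (U : Filter (Finset (H →L[ℂ] H) × ℕ)) ≤ atTop →
    ∀ P : UPack T (Finset (H →L[ℂ] H) × ℕ) U, QTriv P N → T.AConj N

/-- trivial centre of `Q` and small projections give nested partitions -/
def Stmt_QE : Prop :=
  ∀ (H : Type u) [NormedAddCommGroup H] [InnerProductSpace ℂ H] [CompleteSpace H]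
    (T : TVN H) (N : Set (H →L[ℂ] H)), T.IsSub N → T.SmallProj N 1 →
    ∀ (U : Ultrafilter (Finset (H →L[ℂ] H) × ℕ)),
    (U : Filter (Finset (H →L[ℂ] H) × ℕ)) ≤ atTop →
    ∀ P : UPack T (Finset (H →L[ℂ] H) × ℕ) U, QTriv P N → T.AExist N

/-- Elliott intertwining -/
def Stmt_Inter : Prop :=
  ∀ (H : Type u) [NormedAddCommGroup H] [InnerProductSpace ℂ H] [CompleteSpace H]
    (T : TVN H) (N : Set (H →L[ℂ] H)), T.IsSub N → T.AConj N → T.AExist N → T.Concl N 1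

/-- asymptotic independence -/
def Stmt_Indep : Prop :=
  ∀ (H : Type u) [NormedAddCommGroup H] [InnerProductSpace ℂ H] [CompleteSpace H]
    (T : TVN H) (N : Set (H →L[ℂ] H)), T.IsSub N → T.TrivComm N →
    ∀ a ∈ T.S, ∀ δ > 0, ∃ (F : Finset (H →L[ℂ] H)) (ε : ℝ), 0 < ε ∧
      ∀ p ∈ T.S, IsStarProjection p → T.Near N F ε p → ‖T.tr (p * a) - T.tr p * T.tr a‖ ≤ δ

/-- the tower of commuting projections -/
def Stmt_Tower : Prop :=
  ∀ (H : Type u) [NormedAddCommGroup H] [InnerProductSpace ℂ H] [CompleteSpace H]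
    (T : TVN H) (N : Set (H →L[ℂ] H)), T.IsSub N → T.TrivComm N → T.BExist N → T.Concl N 1

/-- core theorem -/
def Stmt_Core : Prop :=
  ∀ (H : Type u) [NormedAddCommGroup H] [InnerProductSpace ℂ H] [CompleteSpace H]
    (T : TVN H) (N : Set (H →L[ℂ] H)), T.IsSub N → T.TrivComm N → T.SmallProj N 1 → T.Concl N 1

/-- corners -/
def Stmt_Corner : Prop :=
  ∀ (H : Type u) [NormedAddCommGroup H] [InnerProductSpace ℂ H] [CompleteSpace H]
    (T : TVN H) (e : H →L[ℂ] H), e ∈ T.S → IsStarProjection e → e ≠ 0 →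
    ∃ (K : Type u) (_ : NormedAddCommGroup K) (_ : InnerProductSpace ℂ K) (_ : CompleteSpace K)
      (T' : TVN K) (V : K →L[ℂ] H),
      (ContinuousLinearMap.adjoint V) ∘L V = 1 ∧ V ∘L (ContinuousLinearMap.adjoint V) = e ∧
      (∀ y : K →L[ℂ] K, y ∈ T'.S ↔ V ∘L y ∘L (ContinuousLinearMap.adjoint V) ∈ T.S) ∧
      V T'.Ω = ((‖e T.Ω‖⁻¹ : ℝ) : ℂ) • (e T.Ω)

/-- the core theorem in the corner of a minimal projection of the relative commutant -/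
def Stmt_CornerCore : Prop :=
  ∀ (H : Type u) [NormedAddCommGroup H] [InnerProductSpace ℂ H] [CompleteSpace H]
    (T : TVN H) (N : Set (H →L[ℂ] H)), T.IsSub N →
    ∀ e ∈ T.S, IsStarProjection e → e ≠ 0 → (∀ x ∈ N, x * e = e * x) →
    (∀ q ∈ T.S, IsStarProjection q → (∀ x ∈ N, x * q = q * x) → q * e = q → q = 0 ∨ q = e) →
    T.SmallProj N e → T.Concl N e

/-- the core theorem without the assumption on the relative commutant -/
def Stmt_General : Prop :=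
  ∀ (H : Type u) [NormedAddCommGroup H] [InnerProductSpace ℂ H] [CompleteSpace H]
    (T : TVN H) (N : Set (H →L[ℂ] H)), T.IsSub N → T.NoMin →
    (∀ e ∈ T.S, IsStarProjection e → e ≠ 0 → (∀ x ∈ N, x * e = e * x) → T.SmallProj N e) →
    T.Concl N 1

/-- a `II_1` factor in standard form is a `TVN` -/
def Stmt_OfVN : Prop :=
  ∀ (H : Type u) [NormedAddCommGroup H] [InnerProductSpace ℂ H] [CompleteSpace H]
    (M : VonNeumannAlgebra H) (Ω : H), IsII1 M Ω →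
    ∀ P : VonNeumannAlgebra H, P ≤ M → ∃ T : TVN H, T.Ω = Ω ∧ ∀ x, x ∈ T.S ↔ x ∈ P

/-- from diffuse relative commutants in the ultrapower to small almost commuting projections -/
def Stmt_Diff : Prop :=
  ∀ (H : Type u) [NormedAddCommGroup H] [InnerProductSpace ℂ H] [CompleteSpace H]
    (M N : VonNeumannAlgebra H) (Ω : H), IsII1 M Ω → N ≤ M →
    ∀ T : TVN H, T.Ω = Ω → (∀ x, x ∈ T.S ↔ x ∈ M) →
    ∀ ω : Ultrafilter ℕ, DiffuseUltra ω Ω M N →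
    ∀ e ∈ T.S, IsStarProjection e → e ≠ 0 → (∀ x ∈ N, x * e = e * x) →
    T.SmallProj (N : Set (H →L[ℂ] H)) e

/-- bounded functionals for the 1-norm come from the algebra -/
def Stmt_Riesz : Prop :=
  ∀ (H : Type u) [NormedAddCommGroup H] [InnerProductSpace ℂ H] [CompleteSpace H]
    (T : TVN H) (f : (H →L[ℂ] H) →ₗ[ℂ] ℂ) (C : ℝ), 0 ≤ C →
    (∀ b ∈ T.S, ∀ c ∈ T.S, ‖f (b * c)‖ ≤ C * ‖b T.Ω‖ * ‖c T.Ω‖) →
    ∃ x ∈ T.S, ‖x‖ ≤ C ∧ ∀ y ∈ T.S, f y = T.tr (y * x)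

/-- Tomiyama: norm one projections are positive conditional expectations -/
def Stmt_Tom : Prop :=
  ∀ (H : Type u) [NormedAddCommGroup H] [InnerProductSpace ℂ H] [CompleteSpace H]
    (T : TVN H) (E : (H →L[ℂ] H) →ₗ[ℂ] (H →L[ℂ] H)), (∀ x, ‖E x‖ ≤ ‖x‖) → (∀ x, E x ∈ T.S) →
    (∀ x ∈ T.S, E x = x) →
    (∀ x ∈ T.S, ∀ y, E (x * y) = x * E y ∧ E (y * x) = E y * x) ∧
    ∀ y, (E (star y * y)).IsPositive

/-- the amplification: `B(L²P)` acts on `B(L²M)` -/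
def Stmt_Amp : Prop :=
  ∀ (H : Type u) [NormedAddCommGroup H] [InnerProductSpace ℂ H] [CompleteSpace H]
    (M : VonNeumannAlgebra H) (Ω : H), IsII1 M Ω → ∀ P : VonNeumannAlgebra H, P ≤ M →
    ∃ Φ : (H →L[ℂ] H) →ₗ[ℂ] (H →L[ℂ] H),
      (∀ x ∈ P, ∀ y, Φ (x * y) = x * Φ y ∧ Φ (y * x) = Φ y * x) ∧
      (∀ y, (Φ (star y * y)).IsPositive) ∧
      ∀ m ∈ M, Φ m ∈ P ∧ ⟪Ω, Φ m Ω⟫_ℂ = ⟪Ω, m Ω⟫_ℂ

end

section

variable {H : Type u} [NormedAddCommGroup H] [InnerProductSpace ℂ H] [CompleteSpace H]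

/-- `φ` is a state on `B(H)`, central for `N`, whose restriction to `M` is the trace. -/
structure IsHyper (M N : VonNeumannAlgebra H) (Ω : H) (φ : (H →L[ℂ] H) →ₗ[ℂ] ℂ) : Prop where
  pos : ∀ y, 0 ≤ (φ (star y * y)).re ∧ (φ (star y * y)).im = 0
  trace : ∀ x ∈ M, φ x = ⟪Ω, x Ω⟫_ℂ
  central : ∀ x ∈ N, ∀ y, φ (x * y) = φ (y * x)

end

section

/-- injective subalgebras have hypertraces -/
def Stmt_J1 : Prop :=
  ∀ (H : Type u) [NormedAddCommGroup H] [InnerProductSpace ℂ H] [CompleteSpace H]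
    (M P : VonNeumannAlgebra H) (Ω : H), IsII1 M Ω → P ≤ M → Injective P →
    ∃ φ : (H →L[ℂ] H) →ₗ[ℂ] ℂ, IsHyper M P Ω φ

/-- hypertraces give injectivity -/
def Stmt_J3 : Prop :=
  ∀ (H : Type u) [NormedAddCommGroup H] [InnerProductSpace ℂ H] [CompleteSpace H]
    (M N : VonNeumannAlgebra H) (Ω : H), IsII1 M Ω → N ≤ M →
    (∃ φ : (H →L[ℂ] H) →ₗ[ℂ] ℂ, IsHyper M N Ω φ) → Injective N

/-- noninjectivity is stable under 2-norm perturbations of finite families -/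
def Stmt_Perturb : Prop :=
  ∀ (H : Type u) [NormedAddCommGroup H] [InnerProductSpace ℂ H] [CompleteSpace H]
    (M N : VonNeumannAlgebra H) (Ω : H), IsII1 M Ω → N ≤ M → ¬ Injective N →
    ∃ (r : ℕ) (x : Fin r → H →L[ℂ] H), (∀ i, x i ∈ N) ∧ ∃ δ > 0,
      ∀ x' : Fin r → H →L[ℂ] H, (∀ i, ‖(x' i - x i) Ω‖ ≤ δ) →
      ∀ P : VonNeumannAlgebra H, P ≤ M → (∀ i, x' i ∈ P) → ¬ Injective P

end

end Pool.Agent.OS
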