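import Pool.Agent.OS.Basic
import Pool.Agent.OS.Stmts

set_option autoImplicit false

/-!
# Comparison of projections in factors
-/

open Filter Topology
open scoped InnerProductSpace

namespace Pool.Agent.OS

universe u

namespace Compare

variable {H : Type u} [NormedAddCommGroup H] [InnerProductSpace ℂ H] [CompleteSpace H]

/-! ### projections -/

section Alg

variable {A : Type*} [Ring A] [StarRing A]

theorem le_symm {e p : A} (he : IsStarProjection e) (hp : IsStarProjection p)
    (h : p * e = p) : e * p = p := by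
  have := congrArg star h
  rwa [star_mul, he.isSelfAdjoint.star_eq, hp.isSelfAdjoint.star_eq] at this

theorem sub_proj {e p : A} (he : IsStarProjection e) (hp : IsStarProjection p)
    (h : p * e = p) : IsStarProjection (e - p) := by
  have h' : e * p = p := le_symm he hp h
  refine ⟨?_, he.isSelfAdjoint.sub hp.isSelfAdjoint⟩
  rw [IsIdempotentElem, sub_mul, mul_sub, mul_sub, he.isIdempotentElem.eq,
    hp.isIdempotentElem.eq, h, h']
  abel

theorem add_proj {e p : A} (he : IsStarProjection e) (hp : IsStarProjection p)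
    (h : p * e = 0) : IsStarProjection (e + p) := by
  have h' : e * p = 0 := by
    have := congrArg star h
    rwa [star_mul, he.isSelfAdjoint.star_eq, hp.isSelfAdjoint.star_eq, star_zero] at this
  refine ⟨?_, he.isSelfAdjoint.add hp.isSelfAdjoint⟩
  rw [IsIdempotentElem, add_mul, mul_add, mul_add, he.isIdempotentElem.eq,
    hp.isIdempotentElem.eq, h, h']
  abel

theorem compl_mul {e p : A} (he : IsStarProjection e)
    (h : p * e = p) : p * (1 - e) = 0 := by
  have _ := he
  rw [mul_sub, mul_one, h, sub_self]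

end Alg

/-- a partial isometry -/
theorem piso_mul {v : H →L[ℂ] H} (h : IsStarProjection (star v * v)) : v * (star v * v) = v := by
  have h1 : star (v * (star v * v) - v) * (v * (star v * v) - v) = 0 := by
    have h2 := h.isIdempotentElem.eq
    have h3 : star (v * (star v * v) - v) = (star v * v) * star v - star v := by
      simp [star_sub, star_mul, mul_assoc]
    rw [h3]
    have : ((star v * v) * star v - star v) * (v * (star v * v) - v) =
        (star v * v) * (star v * v) * (star v * v) - (star v * v) * (star v * v)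
          - (star v * v) * (star v * v) + star v * v := by noncomm_ring
    rw [this, h2, h2]
    abel
  have := CStarRing.star_mul_self_eq_zero_iff (v * (star v * v) - v)
  exact sub_eq_zero.1 (this.1 h1)

theorem piso_norm {v : H →L[ℂ] H} (h : IsStarProjection (star v * v)) : ‖v‖ ≤ 1 := by
  have h1 : ‖star v * v‖ = ‖v‖ * ‖v‖ := CStarRing.norm_star_mul_self
  have h2 : ‖star v * v‖ ≤ 1 := h.norm_le
  nlinarith [norm_nonneg v]

theorem piso_star {v : H →L[ℂ] H} (h : IsStarProjection (star v * v)) :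
    IsStarProjection (v * star v) := by
  refine ⟨?_, ?_⟩
  · rw [IsIdempotentElem]
    have h1 : v * star v * (v * star v) = (v * (star v * v)) * star v := by noncomm_ring
    rw [h1, piso_mul h]
  · rw [IsSelfAdjoint, star_mul, star_star]

theorem norm_sub_proj (T : TVN H) {e p : H →L[ℂ] H} (he : IsStarProjection e)
    (hp : IsStarProjection p) (h : p * e = p) :
    ‖(e - p) T.Ω‖ ^ 2 = ‖e T.Ω‖ ^ 2 - ‖p T.Ω‖ ^ 2 := by
  have h1 := T.tr_proj (sub_proj he hp h)
  rw [T.tr_sub, T.tr_proj he, T.tr_proj hp] at h1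
  exact_mod_cast h1.symm

theorem norm_piso (T : TVN H) {v : H →L[ℂ] H} (h : IsStarProjection (star v * v)) :
    ‖(star v * v) T.Ω‖ ^ 2 = ‖v T.Ω‖ ^ 2 := by
  have h1 := T.tr_proj h
  rw [T.tr_star_mul_self] at h1
  exact_mod_cast h1.symm

theorem norm_piso' (T : TVN H) {v : H →L[ℂ] H} (hv : v ∈ T.S)
    (h : IsStarProjection (star v * v)) :
    ‖(v * star v) T.Ω‖ ^ 2 = ‖v T.Ω‖ ^ 2 := by
  have h1 := T.tr_proj (piso_star h)
  rw [T.tr_mul_comm hv (star_mem hv), T.tr_star_mul_self] at h1
  exact_mod_cast h1.symm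

/-! ### central averages -/

theorem comm_of_unitary (T : TVN H) {k : H →L[ℂ] H}
    (h : ∀ w ∈ T.S, w ∈ unitary (H →L[ℂ] H) → w * k = k * w) : ∀ y ∈ T.S, y * k = k * y := by
  intro y hy
  have : IsClosed (T.S : Set (H →L[ℂ] H)) := T.closed
  have hspan := CStarAlgebra.span_unitary (T.S)
  have hmem : (⟨y, hy⟩ : T.S) ∈ Submodule.span ℂ (unitary T.S : Set T.S) := by
    rw [hspan]; exact Submodule.mem_top
  refine Submodule.span_induction (p := fun (z : T.S) _ => (z : H →L[ℂ] H) * k = k * z)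
    ?_ ?_ ?_ ?_ hmem
  · intro z hz
    refine h z z.2 ?_
    have hz' := Unitary.mem_iff.1 hz
    rw [Unitary.mem_iff]
    refine ⟨?_, ?_⟩
    · have := congrArg Subtype.val hz'.1
      simpa using this
    · have := congrArg Subtype.val hz'.2
      simpa using this
  · simp
  · intro a b _ _ ha hb
    simp only [AddMemClass.coe_add, add_mul, mul_add, ha, hb]
  · intro c a _ ha
    have : ((c • a : T.S) : H →L[ℂ] H) = c • (a : H →L[ℂ] H) := rfl
    rw [this, smul_mul_assoc, ha, mul_smul_comm]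

/-- nonzero projections of a factor are connected -/
theorem connect (hAvg : Stmt_Avg.{u}) (T : TVN H) (hT : T.Factor) {e f : H →L[ℂ] H}
    (he : e ∈ T.S) (hf : f ∈ T.S) (hfp : IsStarProjection f)
    (he0 : e ≠ 0) (hf0 : f ≠ 0) : ∃ x ∈ T.S, e * x * f ≠ 0 := by
  by_contra hcon
  push Not at hcon
  set V : PUnit.{u + 1} → Set (H →L[ℂ] H) := fun _ => {w | w ∈ T.S ∧ w ∈ unitary (H →L[ℂ] H)}
    with hV
  obtain ⟨k, hk, -, hull, hcomm⟩ := hAvg H T PUnit.{u + 1} V (fun _ w hw => hw)
    (fun _ => ⟨one_mem _, one_mem _⟩) (fun _ _ => ⟨PUnit.unit, fun _ h => h, fun _ h => h⟩)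
    (fun _ => ⟨PUnit.unit, fun v hv w hw => ⟨mul_mem hv.1 hw.1, mul_mem hv.2 hw.2⟩⟩) f hf
  have hcen : ∀ w ∈ T.S, w ∈ unitary (H →L[ℂ] H) → w * k = k * w := by
    intro w hw hu
    refine T.eq_of_norm_sub (mul_mem hw hk) (mul_mem hk hw) ?_
    refine le_antisymm (le_of_forall_pos_le_add fun δ hδ => ?_) (norm_nonneg _)
    obtain ⟨l, hl⟩ := hcomm δ hδ
    simpa using hl w ⟨hw, hu⟩
  obtain ⟨c, hc⟩ := hT k hk (fun y hy => (comm_of_unitary T hcen y hy).symm)
  -- e k = 0
  have h1 : (e * k) T.Ω = 0 := by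
    have hcl : IsClosed {ξ : H | e ξ = 0} := isClosed_eq e.continuous continuous_const
    have hcv : Convex ℝ {ξ : H | e ξ = 0} := by
      intro a ha b hb s t _ _ _
      have ha' : e a = 0 := ha
      have hb' : e b = 0 := hb
      change e (s • a + t • b) = 0
      have e1 : e (s • a) = s • e a := by
        simp
      have e2 : e (t • b) = t • e b := by
        simp
      rw [map_add, e1, e2, ha', hb']
      simp
    have hsub : {ξ : H | ∃ w ∈ V PUnit.unit, ξ = (w * f * star w) T.Ω} ⊆ {ξ : H | e ξ = 0} := by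
      rintro ξ ⟨w, hw, rfl⟩
      change e ((w * f * star w) T.Ω) = 0
      have : e ((w * f * star w) T.Ω) = (e * w * f) (star w T.Ω) := rfl
      rw [this, hcon w hw.1]
      rfl
    exact closure_minimal (convexHull_min hsub hcv) hcl (hull PUnit.unit)
  have h2 : e * k = 0 := T.sep _ (mul_mem he hk) h1
  have hc0 : c = 0 := by
    rw [hc, mul_smul_comm, mul_one] at h2
    exact (smul_eq_zero.1 h2).resolve_right he0
  -- the trace of k is the trace of f
  have h3 : ⟪T.Ω, k T.Ω⟫_ℂ = T.tr f := by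
    have hcl : IsClosed {ξ : H | ⟪T.Ω, ξ⟫_ℂ = T.tr f} := isClosed_eq (by fun_prop) continuous_const
    have hcv : Convex ℝ {ξ : H | ⟪T.Ω, ξ⟫_ℂ = T.tr f} := by
      intro a ha b hb s t _ _ hst
      have ha' : ⟪T.Ω, a⟫_ℂ = T.tr f := ha
      have hb' : ⟪T.Ω, b⟫_ℂ = T.tr f := hb
      change ⟪T.Ω, s • a + t • b⟫_ℂ = T.tr f
      rw [inner_add_right, inner_smul_right_eq_smul, inner_smul_right_eq_smul, ha', hb',
        ← add_smul, hst, one_smul]
    have hsub : {ξ : H | ∃ w ∈ V PUnit.unit, ξ = (w * f * star w) T.Ω} ⊆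
        {ξ : H | ⟪T.Ω, ξ⟫_ℂ = T.tr f} := by
      rintro ξ ⟨w, hw, rfl⟩
      change T.tr (w * f * star w) = T.tr f
      rw [T.tr_mul_comm (mul_mem hw.1 hf) (star_mem hw.1), ← mul_assoc,
        (Unitary.mem_iff.1 hw.2).1, one_mul]
    exact closure_minimal (convexHull_min hsub hcv) hcl (hull PUnit.unit)
  rw [hc, hc0, T.tr_proj hfp] at h3
  simp only [zero_smul, _root_.zero_apply, inner_zero_right] at h3
  have h4 : ‖f T.Ω‖ ^ 2 = 0 := by exact_mod_cast h3.symm
  have h5 : f T.Ω = 0 := by
    rw [← norm_eq_zero]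
    exact pow_eq_zero_iff (two_ne_zero) |>.1 h4
  exact hf0 (T.sep f hf h5)

/-! ### exhaustion -/

/-- A greedy chain. -/
theorem exhaust {X : Type*} (R : X → X → Prop) (μ : X → ℝ) {C : ℝ} (hμ : ∀ x, μ x ≤ C)
    (hR : ∀ x, R x x) (x₀ : X) :
    ∃ s : ℕ → X, s 0 = x₀ ∧ (∀ n, R (s n) (s (n + 1))) ∧
      ∀ n y, R (s n) y → μ y - μ (s n) ≤ 2 * (μ (s (n + 1)) - μ (s n)) := by
  have hne : ∀ x, ∃ z, R x z ∧ ∀ y, R x y → μ y - μ x ≤ 2 * (μ z - μ x) := by
    intro x
    set S : Set ℝ := {t | ∃ y, R x y ∧ t = μ y - μ x} with hS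
    have hbdd : BddAbove S := ⟨C - μ x, by rintro t ⟨y, -, rfl⟩; linarith [hμ y]⟩
    have hSne : S.Nonempty := ⟨0, x, hR x, by simp⟩
    have hs0 : 0 ≤ sSup S := le_csSup hbdd ⟨x, hR x, by simp⟩
    rcases hs0.eq_or_lt with h | h
    · refine ⟨x, hR x, fun y hy => ?_⟩
      have := le_csSup hbdd ⟨y, hy, rfl⟩
      rw [← h] at this
      linarith
    · obtain ⟨t, ⟨z, hz, rfl⟩, ht⟩ := exists_lt_of_lt_csSup hSne (show sSup S / 2 < sSup S by linarith)
      refine ⟨z, hz, fun y hy => ?_⟩
      have := le_csSup hbdd ⟨y, hy, rfl⟩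
      linarith
  choose nx hnx1 hnx2 using hne
  refine ⟨fun n => Nat.rec x₀ (fun _ x => nx x) n, rfl, fun n => hnx1 _, fun n y hy => hnx2 _ y hy⟩

theorem exhaust_chain {X : Type*} {R : X → X → Prop} (hR : ∀ x, R x x)
    (htr : ∀ x y z, R x y → R y z → R x z) {s : ℕ → X} (hs : ∀ n, R (s n) (s (n + 1))) :
    ∀ n m, n ≤ m → R (s n) (s m) := by
  intro n m h
  induction h with
  | refl => exact hR _
  | step _ ih => exact htr _ _ _ ih (hs _)

/-- the increments tend to zero, hence an element above the chain is maximal -/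
theorem exhaust_max {X : Type*} {R : X → X → Prop} {μ : X → ℝ} {C : ℝ} (hμ : ∀ x, μ x ≤ C)
    (hm : ∀ x y, R x y → μ x ≤ μ y)
    (htr : ∀ x y z, R x y → R y z → R x z) {s : ℕ → X} (hs : ∀ n, R (s n) (s (n + 1)))
    (hs2 : ∀ n y, R (s n) y → μ y - μ (s n) ≤ 2 * (μ (s (n + 1)) - μ (s n))) {v : X}
    (hv : ∀ n, R (s n) v) {y : X} (hy : R v y) : μ y ≤ μ v := by
  have hmono : Monotone (fun n => μ (s n)) := monotone_nat_of_le_succ fun n => hm _ _ (hs n)
  have hbdd : BddAbove (Set.range fun n => μ (s n)) := ⟨C, by rintro _ ⟨n, rfl⟩; exact hμ _⟩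
  have hlim := tendsto_atTop_ciSup hmono hbdd
  have hlim' := (tendsto_add_atTop_iff_nat 1).2 hlim
  have h0 : Tendsto (fun n => μ (s n) + 2 * (μ (s (n + 1)) - μ (s n))) atTop
      (𝓝 ((⨆ n, μ (s n)) + 2 * ((⨆ n, μ (s n)) - ⨆ n, μ (s n)))) :=
    hlim.add ((hlim'.sub hlim).const_mul 2)
  have h1 : μ y ≤ (⨆ n, μ (s n)) + 2 * ((⨆ n, μ (s n)) - ⨆ n, μ (s n)) := by
    refine ge_of_tendsto' h0 fun n => ?_
    have := hs2 n y (htr _ _ _ (hv n) hy)
    linarith
  have h2 : (⨆ n, μ (s n)) ≤ μ v := ciSup_le fun n => hm _ _ (hv n)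
  linarith

omit [InnerProductSpace ℂ H] [CompleteSpace H] in
theorem cauchy_of_incr {s : ℕ → H} {μ : ℕ → ℝ} {C : ℝ} (hμ : ∀ n, μ n ≤ C)
    (h : ∀ n m, n ≤ m → ‖s m - s n‖ ^ 2 = μ m - μ n) : CauchySeq s := by
  have hmono : Monotone μ := fun n m hnm => by
    have := h n m hnm
    nlinarith [sq_nonneg ‖s m - s n‖]
  have hbdd : BddAbove (Set.range μ) := ⟨C, by rintro _ ⟨n, rfl⟩; exact hμ _⟩
  have hlim := tendsto_atTop_ciSup hmono hbdd
  refine cauchySeq_of_le_tendsto_0' (fun n => Real.sqrt ((⨆ n, μ n) - μ n)) (fun n m hnm => ?_) ?_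
  · rw [dist_comm, dist_eq_norm]
    refine Real.le_sqrt_of_sq_le ?_
    rw [h n m hnm]
    have := le_ciSup hbdd m
    linarith
  · have h1 : Tendsto (fun n => (⨆ n, μ n) - μ n) atTop (𝓝 0) := by
      simpa using (tendsto_const_nhds (x := ⨆ n, μ n)).sub hlim
    have h2 := (Real.continuous_sqrt.tendsto 0).comp h1
    rw [Real.sqrt_zero] at h2
    exact h2

/-! ### extensions of partial isometries -/

theorem ext_le {v w : H →L[ℂ] H} (hv : IsStarProjection (star v * v))
    (hw : IsStarProjection (star w * w)) (h : w * (star v * v) = v) :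
    (star w * w) * (star v * v) = star v * v := by
  set p := star v * v with hp
  set q := star w * w with hq
  have hps : star p = p := hv.isSelfAdjoint.star_eq
  have hpq : p * q * p = p := by
    have h1 : star (w * p) * (w * p) = p * q * p := by
      rw [star_mul, hps, hq]; noncomm_ring
    rw [← h1, h]
  have hqs : star q = q := hw.isSelfAdjoint.star_eq
  have h2 : star (q * p - p) * (q * p - p) = 0 := by
    have h3 : star (q * p - p) = p * q - p := by rw [star_sub, star_mul, hps, hqs]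
    rw [h3]
    have h4 : (p * q - p) * (q * p - p) = p * (q * q) * p - p * q * p - p * q * p + p * p := by
      noncomm_ring
    have hqq : q * q = q := hw.isIdempotentElem.eq
    have hpp : p * p = p := hv.isIdempotentElem.eq
    rw [h4, hqq, hpq, hpp]
    abel
  exact sub_eq_zero.1 ((CStarRing.star_mul_self_eq_zero_iff _).1 h2)

theorem ext_norm (T : TVN H) {v w : H →L[ℂ] H} (hv : IsStarProjection (star v * v))
    (hw : IsStarProjection (star w * w)) (h : w * (star v * v) = v) :
    ‖w T.Ω - v T.Ω‖ ^ 2 = ‖w T.Ω‖ ^ 2 - ‖v T.Ω‖ ^ 2 := by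
  have h1 := ext_le hv hw h
  have h2 : (star v * v) * (star w * w) = star v * v := by
    have := congrArg star h1
    rwa [star_mul, hv.isSelfAdjoint.star_eq, hw.isSelfAdjoint.star_eq] at this
  have e1 : star w * v = star v * v := by
    rw [← h1]
    have : star w * w * (star v * v) = star w * (w * (star v * v)) := by noncomm_ring
    rw [this, h]
  have e2 : star v * w = star v * v := by
    have := congrArg star e1
    rwa [star_mul, star_star, star_mul, star_star] at this
  have h3 : star (w - v) * (w - v) = star w * w - star v * v := by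
    rw [star_sub, sub_mul, mul_sub, mul_sub, e1, e2]
    abel
  have h4 := T.tr_star_mul_self (w - v)
  rw [h3, T.tr_sub, T.tr_star_mul_self, T.tr_star_mul_self] at h4
  have h5 : ‖w T.Ω‖ ^ 2 - ‖v T.Ω‖ ^ 2 = ‖(w - v) T.Ω‖ ^ 2 := by exact_mod_cast h4
  rw [h5]
  simp

theorem ext_trans {v w z : H →L[ℂ] H} (hv : IsStarProjection (star v * v))
    (hw : IsStarProjection (star w * w)) (h : w * (star v * v) = v)
    (h' : z * (star w * w) = w) : z * (star v * v) = v := by
  have h1 := ext_le hv hw h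
  rw [← h1, ← mul_assoc, h', h]

end Compare

open Compare in
theorem compare_proof (hAvg : Stmt_Avg.{u}) (hPIso : Stmt_PIso.{u}) : Stmt_Compare.{u} := by
  intro H _ _ _ T hT e he f hf hep hfp hef
  let X : Type u := {v : H →L[ℂ] H // v ∈ T.S ∧ IsStarProjection (star v * v) ∧ v * e = v ∧
    f * v = v}
  let R : X → X → Prop := fun v w => w.1 * (star v.1 * v.1) = v.1
  let μ : X → ℝ := fun v => ‖v.1 T.Ω‖ ^ 2
  have hle1 : ∀ v : X, ‖v.1‖ ≤ 1 := fun v => piso_norm v.2.2.1
  have hμ : ∀ v : X, μ v ≤ 1 := fun v => by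
    have h1 : ‖v.1 T.Ω‖ ≤ 1 := (T.norm_le v.1).trans (hle1 v)
    change ‖v.1 T.Ω‖ ^ 2 ≤ 1
    nlinarith [norm_nonneg (v.1 T.Ω)]
  have hR : ∀ v : X, R v v := fun v => piso_mul v.2.2.1
  have htr : ∀ x y z : X, R x y → R y z → R x z := fun x y z h1 h2 =>
    ext_trans x.2.2.1 y.2.2.1 h1 h2
  have hm : ∀ x y : X, R x y → μ x ≤ μ y := fun x y h => by
    have := ext_norm T x.2.2.1 y.2.2.1 h
    have h2 : 0 ≤ ‖y.1 T.Ω - x.1 T.Ω‖ ^ 2 := sq_nonneg _
    change ‖x.1 T.Ω‖ ^ 2 ≤ ‖y.1 T.Ω‖ ^ 2
    linarith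
  obtain ⟨s, -, hs1, hs2⟩ := exhaust R μ hμ hR
    (⟨0, zero_mem _, by simp, by simp, by simp⟩ : X)
  have hch := exhaust_chain hR htr hs1
  have hc : CauchySeq (fun n => (s n).1 T.Ω) := by
    refine cauchy_of_incr (μ := fun n => μ (s n)) (C := 1) (fun n => hμ _) (fun n m hnm => ?_)
    exact ext_norm T (s n).2.2.1 (s m).2.2.1 (hch n m hnm)
  obtain ⟨V, hV, hV1, hVt⟩ := T.complete' (fun n => (s n).2.1) (fun n => hle1 (s n)) hc
  -- the limit
  have hmulr : ∀ (a b : H →L[ℂ] H) (_ : a ∈ T.S) (_ : b ∈ T.S) (n₀ : ℕ),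
      (∀ m, n₀ ≤ m → (s m).1 * a = b) → V * a = b := by
    intro a b ha hb n₀ hn
    refine T.eq_of_apply (mul_mem hV ha) hb ?_
    have h1 : Tendsto (fun n => ((s n).1 * a) T.Ω) atTop (𝓝 ((V * a) T.Ω)) :=
      T.tendsto_mul (fun n => (s n).2.1) (fun _ => ha) hV ha (fun n => hle1 (s n)) hVt
        tendsto_const_nhds
    refine tendsto_nhds_unique h1 (tendsto_const_nhds.congr' ?_)
    filter_upwards [eventually_ge_atTop n₀] with m hm
    rw [hn m hm]
  have hVs : Tendsto (fun n => (star (s n).1 * (s n).1) T.Ω) atTop (𝓝 ((star V * V) T.Ω)) :=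
    T.tendsto_mul (fun n => star_mem (s n).2.1) (fun n => (s n).2.1) (star_mem hV) hV
      (fun n => by rw [norm_star]; exact hle1 (s n)) (T.tendsto_star (fun n => (s n).2.1) hV hVt) hVt
  have hVproj : IsStarProjection (star V * V) :=
    T.proj_of_tendsto (fun n => mul_mem (star_mem (s n).2.1) (s n).2.1) (fun n => (s n).2.2.1)
      (mul_mem (star_mem hV) hV) hVs
  have hVe : V * e = V := by
    refine T.eq_of_apply (mul_mem hV he) hV ?_
    have h1 : Tendsto (fun n => ((s n).1 * e) T.Ω) atTop (𝓝 ((V * e) T.Ω)) :=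
      T.tendsto_mul (fun n => (s n).2.1) (fun _ => he) hV he (fun n => hle1 (s n)) hVt
        tendsto_const_nhds
    refine tendsto_nhds_unique h1 (hVt.congr fun n => ?_)
    rw [(s n).2.2.2.1]
  have hVf : f * V = V := by
    refine T.eq_of_apply (mul_mem hf hV) hV ?_
    have h1 : Tendsto (fun n => (f * (s n).1) T.Ω) atTop (𝓝 ((f * V) T.Ω)) :=
      T.tendsto_mul (fun _ => hf) (fun n => (s n).2.1) hf hV (fun n => le_rfl)
        tendsto_const_nhds hVt
    refine tendsto_nhds_unique h1 (hVt.congr fun n => ?_)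
    rw [(s n).2.2.2.2]
  let v : X := ⟨V, hV, hVproj, hVe, hVf⟩
  have hvR : ∀ n, R (s n) v := fun n =>
    hmulr _ _ (mul_mem (star_mem (s n).2.1) (s n).2.1) (s n).2.1 n (fun m hm => hch n m hm)
  have hmax : ∀ y : X, R v y → μ y ≤ μ v := fun y hy =>
    exhaust_max hμ hm htr hs1 hs2 hvR hy
  -- projections of V
  have hp1 : (star V * V) * e = star V * V := by rw [mul_assoc, hVe]
  have hq1 : (V * star V) * f = V * star V := by
    have := congrArg star hVf
    rw [star_mul, hfp.isSelfAdjoint.star_eq] at this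
    rw [mul_assoc, this]
  have hqproj := piso_star hVproj
  have t1 := norm_sub_proj T hep hVproj hp1
  have t2 := norm_sub_proj T hfp hqproj hq1
  rw [norm_piso T hVproj] at t1
  rw [norm_piso' T hV hVproj] at t2
  have he' : e - star V * V ∈ T.S := sub_mem he (mul_mem (star_mem hV) hV)
  have hf' : f - V * star V ∈ T.S := sub_mem hf (mul_mem hV (star_mem hV))
  have key : e - star V * V = 0 := by
    by_contra hne
    have hne1 : (e - star V * V) T.Ω ≠ 0 := fun h => hne (T.sep _ he' h)
    have hne2 : f - V * star V ≠ 0 := by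
      intro h0
      rw [h0] at t2
      simp only [_root_.zero_apply, norm_zero] at t2
      have : ‖(e - star V * V) T.Ω‖ ^ 2 = 0 := by
        rw [t1, hef]; linarith
      exact hne1 (norm_eq_zero.1 (pow_eq_zero_iff two_ne_zero |>.1 this))
    have hep' := sub_proj hep hVproj hp1
    have hfp' := sub_proj hfp hqproj hq1
    obtain ⟨x, hx, hx0⟩ := connect hAvg T hT hf' he' hep' hne2 hne
    obtain ⟨w, hw, hw0, hw1, hw2, hw3, hw4⟩ := hPIso H T _ _ x hf' he' hx hfp' hep' hx0
    -- w : e' → f'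
    have hwe : w * (e - star V * V) = w := by
      have h1 := piso_mul hw1
      rw [← h1, mul_assoc, hw3]
    have hwf : (f - V * star V) * w = w := by
      have h1 : (f - V * star V) * (w * star w) = w * star w := le_symm hfp' hw2 hw4
      have h2 : w * star w * w = w := by rw [mul_assoc]; exact piso_mul hw1
      calc (f - V * star V) * w = (f - V * star V) * (w * star w * w) := by rw [h2]
        _ = (f - V * star V) * (w * star w) * w := by noncomm_ring
        _ = w := by rw [h1, h2]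
    have hVV : V * (e - star V * V) = 0 := by
      rw [mul_sub, hVe, piso_mul hVproj, sub_self]
    have hVf' : star V * (f - V * star V) = 0 := by
      have h1 : star V * f = star V := by
        have := congrArg star hVf
        rwa [star_mul, hfp.isSelfAdjoint.star_eq] at this
      have h2 : star V * (V * star V) = star V := by
        have := congrArg star (piso_mul hVproj)
        simpa [star_mul, mul_assoc] using this
      rw [mul_sub, h1, h2, sub_self]
    have hVw : star V * w = 0 := by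
      rw [← hwf, ← mul_assoc, hVf', zero_mul]
    have hwV : star w * V = 0 := by
      have := congrArg star hVw
      simpa [star_mul] using this
    have hwVV : w * (star V * V) = 0 := by
      rw [← hwe, mul_assoc, sub_mul, hVproj.isIdempotentElem.eq]
      have : e * (star V * V) = star V * V := le_symm hep hVproj hp1
      rw [this, sub_self, mul_zero]
    have hsum : star (V + w) * (V + w) = star V * V + star w * w := by
      rw [star_add, add_mul, mul_add, mul_add, hVw, hwV]
      abel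
    have horth : (star w * w) * (star V * V) = 0 := by
      rw [mul_assoc, hwVV, mul_zero]
    have hproj : IsStarProjection (star (V + w) * (V + w)) := by
      rw [hsum]; exact add_proj hVproj hw1 horth
    have hee : (e - star V * V) * e = e - star V * V := by
      rw [sub_mul, hep.isIdempotentElem.eq, hp1]
    have hff : f * (f - V * star V) = f - V * star V := by
      rw [mul_sub, hfp.isIdempotentElem.eq, le_symm hfp hqproj hq1]
    let y : X := ⟨V + w, add_mem hV hw, hproj, by
      have h1 : w * e = w := by rw [← hwe, mul_assoc, hee]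
      rw [add_mul, hVe, h1], by
      have h1 : f * w = w := by rw [← hwf, ← mul_assoc, hff]
      rw [mul_add, hVf, h1]⟩
    have hRy : R v y := by
      change (V + w) * (star V * V) = V
      rw [add_mul, hwVV, add_zero, piso_mul hVproj]
    have h1 := hmax y hRy
    have h2 := ext_norm T hVproj hproj hRy
    have h3 : ‖w T.Ω‖ ^ 2 ≤ 0 := by
      have h4 : (V + w) T.Ω - V T.Ω = w T.Ω := by simp
      rw [h4] at h2
      have h5 : ‖(V + w) T.Ω‖ ^ 2 ≤ ‖V T.Ω‖ ^ 2 := h1
      linarith
    have h4 : w T.Ω = 0 := by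
      have h5 : ‖w T.Ω‖ ^ 2 = 0 := le_antisymm h3 (sq_nonneg _)
      exact norm_eq_zero.1 (pow_eq_zero_iff two_ne_zero |>.1 h5)
    exact hw0 (T.sep w hw h4)
  refine ⟨V, hV, (sub_eq_zero.1 key).symm, ?_⟩
  have h1 : ‖(f - V * star V) T.Ω‖ ^ 2 = 0 := by
    rw [key] at t1
    simp only [_root_.zero_apply, norm_zero] at t1
    rw [t2, ← hef]; linarith
  have h2 : f - V * star V = 0 :=
    T.sep _ hf' (norm_eq_zero.1 (pow_eq_zero_iff two_ne_zero |>.1 h1))
  exact (sub_eq_zero.1 h2).symm

end Pool.Agent.OS
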