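import Pool.Agent.OS.Basic
import Pool.Agent.OS.Stmts

set_option autoImplicit false

/-!
# Module Core: the core theorem, assembled from the two cases
-/

open Filter Topology
open scoped InnerProductSpace

namespace Pool.Agent.OS

universe u

theorem core_proof (hQB : Stmt_QB.{u}) (hQA : Stmt_QA.{u}) (hQE : Stmt_QE.{u})
    (hInter : Stmt_Inter.{u}) (hTower : Stmt_Tower.{u}) (hUltra : Stmt_Ultra.{u}) :
    Stmt_Core.{u} := by
  intro H _ _ _ T N hN hT hS
  classical
  obtain ⟨P⟩ := hUltra H T (Finset (H →L[ℂ] H) × ℕ) (Ultrafilter.of atTop)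
  have hU := Ultrafilter.of_le (atTop : Filter (Finset (H →L[ℂ] H) × ℕ))
  by_cases h : QTriv P N
  · exact hInter H T N hN (hQA H T N hN hT _ hU P h) (hQE H T N hN hS _ hU P h)
  · exact hTower H T N hN hT (hQB H T N hN _ hU P h)

end Pool.Agent.OS
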