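import Pool.Agent.OS.TVN

set_option autoImplicit false

/-!
# Basic lemmas on `TVN`
-/

open Filter Topology
open scoped InnerProductSpace

namespace Pool.Agent.OS

universe u

variable {H : Type u} [NormedAddCommGroup H] [InnerProductSpace ℂ H] [CompleteSpace H]

namespace TVN

variable (T : TVN H)

lemma norm_mul_le (x y : H →L[ℂ] H) : ‖(x * y) T.Ω‖ ≤ ‖x‖ * ‖y T.Ω‖ := x.le_opNorm _

lemma norm_le (x : H →L[ℂ] H) : ‖x T.Ω‖ ≤ ‖x‖ := by
  simpa [T.norm_Ω] using x.le_opNorm T.Ω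

lemma tr_mul_comm {x y : H →L[ℂ] H} (hx : x ∈ T.S) (hy : y ∈ T.S) :
    T.tr (x * y) = T.tr (y * x) := T.trace x hx y hy

lemma tr_add (x y : H →L[ℂ] H) : T.tr (x + y) = T.tr x + T.tr y := by
  simp [tr]

lemma tr_sub (x y : H →L[ℂ] H) : T.tr (x - y) = T.tr x - T.tr y := by
  simp [tr]

lemma tr_smul (c : ℂ) (x : H →L[ℂ] H) : T.tr (c • x) = c * T.tr x := by
  simp [tr]

lemma tr_one : T.tr 1 = 1 := by
  simp [tr, inner_self_eq_norm_sq_to_K, T.norm_Ω]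

lemma tr_sum {k : ℕ} (x : Fin k → H →L[ℂ] H) : T.tr (∑ i, x i) = ∑ i, T.tr (x i) := by
  simp [tr]

lemma tr_star_mul (x y : H →L[ℂ] H) : T.tr (star x * y) = ⟪x T.Ω, y T.Ω⟫_ℂ := by
  have h : (star x * y) T.Ω = ContinuousLinearMap.adjoint x (y T.Ω) := rfl
  rw [tr, h, ContinuousLinearMap.adjoint_inner_right]

lemma tr_star_mul_self (x : H →L[ℂ] H) : T.tr (star x * x) = ((‖x T.Ω‖ ^ 2 : ℝ) : ℂ) := by
  rw [tr_star_mul, inner_self_eq_norm_sq_to_K]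
  norm_cast

lemma norm_tr_le (x : H →L[ℂ] H) : ‖T.tr x‖ ≤ ‖x T.Ω‖ := by
  simpa [tr, T.norm_Ω] using norm_inner_le_norm (𝕜 := ℂ) T.Ω (x T.Ω)

/-- for a projection the trace is the square of the 2-norm -/
lemma tr_proj {p : H →L[ℂ] H} (hp : IsStarProjection p) : T.tr p = ((‖p T.Ω‖ ^ 2 : ℝ) : ℂ) := by
  rw [← tr_star_mul_self, hp.isSelfAdjoint.star_eq, hp.isIdempotentElem.eq]

lemma norm_star {x : H →L[ℂ] H} (hx : x ∈ T.S) : ‖(star x) T.Ω‖ = ‖x T.Ω‖ := by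
  have h1 := T.tr_star_mul_self x
  have h2 := T.tr_star_mul_self (star x)
  rw [star_star, T.tr_mul_comm hx (star_mem hx), h1] at h2
  have h3 : ‖x T.Ω‖ ^ 2 = ‖(star x) T.Ω‖ ^ 2 := by exact_mod_cast h2
  exact ((sq_eq_sq₀ (norm_nonneg _) (norm_nonneg _)).1 h3).symm

lemma norm_mul_right {x y : H →L[ℂ] H} (hx : x ∈ T.S) (hy : y ∈ T.S) :
    ‖(x * y) T.Ω‖ ≤ ‖y‖ * ‖x T.Ω‖ := by
  rw [← T.norm_star (mul_mem hx hy), star_mul]
  calc _ ≤ ‖star y‖ * ‖(star x) T.Ω‖ := T.norm_mul_le _ _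
    _ = ‖y‖ * ‖x T.Ω‖ := by rw [_root_.norm_star, T.norm_star hx]

lemma norm_mul_unitary {x w : H →L[ℂ] H} (hx : x ∈ T.S) (hw : w ∈ T.S)
    (hu : w ∈ unitary (H →L[ℂ] H)) : ‖(x * w) T.Ω‖ = ‖x T.Ω‖ := by
  have h1 := T.tr_star_mul_self (x * w)
  have h2 := T.tr_star_mul_self x
  have h3 : T.tr (star (x * w) * (x * w)) = T.tr (star x * x) := by
    have e1 : star (x * w) * (x * w) = star w * (star x * x * w) := by
      simp [star_mul, mul_assoc]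
    rw [e1, T.tr_mul_comm (star_mem hw) (mul_mem (mul_mem (star_mem hx) hx) hw), mul_assoc,
      (Unitary.mem_iff.1 hu).2, mul_one]
  rw [h1, h2] at h3
  have h4 : ‖(x * w) T.Ω‖ ^ 2 = ‖x T.Ω‖ ^ 2 := by exact_mod_cast h3
  exact (sq_eq_sq₀ (norm_nonneg _) (norm_nonneg _)).1 h4

lemma norm_unitary_mul {x w : H →L[ℂ] H} (hu : w ∈ unitary (H →L[ℂ] H)) :
    ‖(w * x) T.Ω‖ = ‖x T.Ω‖ := by
  have h1 := T.tr_star_mul_self (w * x)
  have h2 := T.tr_star_mul_self x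
  have e1 : star (w * x) * (w * x) = star x * x := by
    have : star (w * x) * (w * x) = star x * ((star w * w) * x) := by simp [star_mul, mul_assoc]
    rw [this, (Unitary.mem_iff.1 hu).1, one_mul]
  rw [e1, h2] at h1
  have h4 : ‖x T.Ω‖ ^ 2 = ‖(w * x) T.Ω‖ ^ 2 := by exact_mod_cast h1
  exact ((sq_eq_sq₀ (norm_nonneg _) (norm_nonneg _)).1 h4).symm

lemma norm_conj {x w : H →L[ℂ] H} (hx : x ∈ T.S) (hw : w ∈ T.S)
    (hu : w ∈ unitary (H →L[ℂ] H)) : ‖(w * x * star w) T.Ω‖ = ‖x T.Ω‖ := by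
  rw [T.norm_mul_unitary (mul_mem hw hx) (star_mem hw) (Unitary.star_mem hu),
    T.norm_unitary_mul hu]

lemma norm_conj' {x w : H →L[ℂ] H} (hx : x ∈ T.S) (hw : w ∈ T.S)
    (hu : w ∈ unitary (H →L[ℂ] H)) : ‖(star w * x * w) T.Ω‖ = ‖x T.Ω‖ := by
  rw [T.norm_mul_unitary (mul_mem (star_mem hw) hx) hw hu,
    T.norm_unitary_mul (Unitary.star_mem hu)]

lemma eq_of_apply {x y : H →L[ℂ] H} (hx : x ∈ T.S) (hy : y ∈ T.S) (h : x T.Ω = y T.Ω) : x = y := by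
  have := T.sep (x - y) (sub_mem hx hy) (by simp [h])
  exact sub_eq_zero.1 this

lemma eq_of_norm_sub {x y : H →L[ℂ] H} (hx : x ∈ T.S) (hy : y ∈ T.S) (h : ‖(x - y) T.Ω‖ = 0) :
    x = y := by
  have := T.sep (x - y) (sub_mem hx hy) (norm_eq_zero.1 h)
  exact sub_eq_zero.1 this

/-- completeness of balls of arbitrary radius -/
lemma complete' {x : ℕ → H →L[ℂ] H} {C : ℝ} (hx : ∀ n, x n ∈ T.S) (hC : ∀ n, ‖x n‖ ≤ C)
    (hc : CauchySeq (fun n => x n T.Ω)) :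
    ∃ y ∈ T.S, ‖y‖ ≤ C ∧ Tendsto (fun n => x n T.Ω) atTop (𝓝 (y T.Ω)) := by
  have hC0 : 0 ≤ C := (norm_nonneg _).trans (hC 0)
  rcases hC0.eq_or_lt with h0 | h0
  · have hz : ∀ n, x n = 0 := fun n => norm_le_zero_iff.1 ((hC n).trans h0.symm.le)
    refine ⟨0, zero_mem _, by simp [← h0], ?_⟩
    simp [hz]
  · obtain ⟨y, hy, hy1, hy2⟩ := T.complete (fun n => ((C⁻¹ : ℝ) : ℂ) • x n)
      (fun n => SMulMemClass.smul_mem _ (hx n))
      (fun n => by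
        rw [norm_smul, Complex.norm_real, Real.norm_eq_abs, abs_of_pos (inv_pos.2 h0),
          inv_mul_le_iff₀ h0]
        simpa using hC n)
      (by
        have : (fun n => (((C⁻¹ : ℝ) : ℂ) • x n) T.Ω) = fun n => ((C⁻¹ : ℝ) : ℂ) • (x n T.Ω) := by
          ext n; simp
        rw [this]
        exact (uniformContinuous_const_smul ((C⁻¹ : ℝ) : ℂ)).comp_cauchySeq hc)
    refine ⟨((C : ℝ) : ℂ) • y, SMulMemClass.smul_mem _ hy, ?_, ?_⟩
    · rw [norm_smul, Complex.norm_real, Real.norm_eq_abs, abs_of_pos h0]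
      nlinarith
    · have h3 := hy2.const_smul ((C : ℝ) : ℂ)
      have h4 : (fun n => ((C : ℝ) : ℂ) • ((((C⁻¹ : ℝ) : ℂ) • x n) T.Ω)) = fun n => x n T.Ω := by
        ext n
        rw [_root_.smul_apply, smul_smul, ← Complex.ofReal_mul,
          mul_inv_cancel₀ h0.ne', Complex.ofReal_one, one_smul]
      rw [h4] at h3
      simpa using h3

/-- 2-norm limits of bounded sequences (over any filter) can be multiplied -/
lemma tendsto_mul {ι : Type*} {l : Filter ι} {x y : ι → H →L[ℂ] H} {x₀ y₀ : H →L[ℂ] H} {C : ℝ}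
    (hx : ∀ i, x i ∈ T.S) (_hy : ∀ i, y i ∈ T.S) (hx₀ : x₀ ∈ T.S) (hy₀ : y₀ ∈ T.S)
    (hC : ∀ i, ‖x i‖ ≤ C)
    (h1 : Tendsto (fun i => x i T.Ω) l (𝓝 (x₀ T.Ω)))
    (h2 : Tendsto (fun i => y i T.Ω) l (𝓝 (y₀ T.Ω))) :
    Tendsto (fun i => (x i * y i) T.Ω) l (𝓝 ((x₀ * y₀) T.Ω)) := by
  rw [tendsto_iff_norm_sub_tendsto_zero] at h1 h2 ⊢
  have hb : ∀ i, ‖(x i * y i) T.Ω - (x₀ * y₀) T.Ω‖ ≤
      C * ‖y i T.Ω - y₀ T.Ω‖ + ‖y₀‖ * ‖x i T.Ω - x₀ T.Ω‖ := by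
    intro i
    have e : (x i * y i) T.Ω - (x₀ * y₀) T.Ω = (x i * (y i - y₀)) T.Ω + ((x i - x₀) * y₀) T.Ω := by
      simp
    rw [e]
    refine (norm_add_le _ _).trans (add_le_add ?_ ?_)
    · refine (T.norm_mul_le _ _).trans ?_
      simpa using mul_le_mul_of_nonneg_right (hC i) (norm_nonneg _)
    · simpa using T.norm_mul_right (sub_mem (hx i) hx₀) hy₀
  refine squeeze_zero (fun i => norm_nonneg _) hb ?_
  simpa using (h2.const_mul C).add (h1.const_mul ‖y₀‖)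

/-- 2-norm limits can be starred -/
lemma tendsto_star {ι : Type*} {l : Filter ι} {x : ι → H →L[ℂ] H} {x₀ : H →L[ℂ] H}
    (hx : ∀ i, x i ∈ T.S) (hx₀ : x₀ ∈ T.S)
    (h1 : Tendsto (fun i => x i T.Ω) l (𝓝 (x₀ T.Ω))) :
    Tendsto (fun i => (star (x i)) T.Ω) l (𝓝 ((star x₀) T.Ω)) := by
  rw [tendsto_iff_norm_sub_tendsto_zero] at h1 ⊢
  refine h1.congr fun i => ?_
  have := T.norm_star (sub_mem (hx i) hx₀)
  simpa [star_sub] using this.symm

/-- closed convexity of balls: if `x n → y` in 2-norm with `‖x n‖ ≤ C` then `‖y‖ ≤ C` -/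
lemma norm_le_of_tendsto {x : ℕ → H →L[ℂ] H} {y : H →L[ℂ] H} {C : ℝ} (hx : ∀ n, x n ∈ T.S)
    (hC : ∀ n, ‖x n‖ ≤ C) (hy : y ∈ T.S) (h : Tendsto (fun n => x n T.Ω) atTop (𝓝 (y T.Ω))) :
    ‖y‖ ≤ C := by
  obtain ⟨z, hz, hzC, hz2⟩ := T.complete' hx hC h.cauchySeq
  have : z = y := T.eq_of_apply hz hy (tendsto_nhds_unique hz2 h)
  exact this ▸ hzC

/-- 2-norm limits of projections are projections -/
lemma proj_of_tendsto {ι : Type*} {l : Filter ι} [l.NeBot] {x : ι → H →L[ℂ] H} {y : H →L[ℂ] H}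
    (hx : ∀ n, x n ∈ T.S) (hp : ∀ n, IsStarProjection (x n)) (hy : y ∈ T.S)
    (h : Tendsto (fun n => x n T.Ω) l (𝓝 (y T.Ω))) : IsStarProjection y := by
  have hC : ∀ n, ‖x n‖ ≤ 1 := fun n => (hp n).norm_le
  have h1 := T.tendsto_mul hx hx hy hy hC h h
  have h2 := T.tendsto_star hx hy h
  refine ⟨?_, ?_⟩
  · refine T.eq_of_apply (mul_mem hy hy) hy (tendsto_nhds_unique (h1.congr fun n => ?_) h)
    rw [(hp n).isIdempotentElem.eq]
  · refine T.eq_of_apply (star_mem hy) hy (tendsto_nhds_unique (h2.congr fun n => ?_) h)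
    rw [(hp n).isSelfAdjoint.star_eq]

/-- trace of a subprojection and Pythagoras: `‖p Ω‖² = ∑ ‖q_j Ω‖²` -/
lemma IsPartOf.trace_sum {T : TVN H} {p : H →L[ℂ] H} {k : ℕ} {q : Fin k → H →L[ℂ] H}
    (h : T.IsPartOf p q) (hp : IsStarProjection p) :
    ‖p T.Ω‖ ^ 2 = ∑ j, ‖q j T.Ω‖ ^ 2 := by
  have h1 : T.tr p = ∑ j, T.tr (q j) := by rw [← h.sum, tr_sum]
  rw [T.tr_proj hp] at h1
  simp_rw [fun j => T.tr_proj (h.proj j)] at h1
  exact_mod_cast h1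

lemma IsPartOf.mul_right {T : TVN H} {p : H →L[ℂ] H} {k : ℕ} {q : Fin k → H →L[ℂ] H}
    (h : T.IsPartOf p q) (j : Fin k) : q j * p = q j := by
  rw [← h.sum, Finset.mul_sum, Finset.sum_eq_single j]
  · exact (h.proj j).isIdempotentElem.eq
  · intro i _ hi
    exact h.orth j i (Ne.symm hi)
  · simp

lemma IsPartOf.mul_left {T : TVN H} {p : H →L[ℂ] H} {k : ℕ} {q : Fin k → H →L[ℂ] H}
    (h : T.IsPartOf p q) (j : Fin k) : p * q j = q j := by
  rw [← h.sum, Finset.sum_mul, Finset.sum_eq_single j]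
  · exact (h.proj j).isIdempotentElem.eq
  · intro i _ hi
    exact h.orth i j hi
  · simp

lemma Near.mono {T : TVN H} {N : Set (H →L[ℂ] H)} {F F' : Finset (H →L[ℂ] H)} {ε ε' : ℝ}
    {p : H →L[ℂ] H} (h : T.Near N F ε p) (hF : F' ⊆ F) (hε : ε ≤ ε') : T.Near N F' ε' p :=
  fun x hx hN => (h x (hF hx) hN).trans hε

lemma Near.sum {T : TVN H} {N : Set (H →L[ℂ] H)} {F : Finset (H →L[ℂ] H)} {ε : ℝ} {ι : Type*}
    {s : Finset ι} {p : ι → H →L[ℂ] H} (h : ∀ i ∈ s, T.Near N F ε (p i)) :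
    T.Near N F (s.card * ε) (∑ i ∈ s, p i) := by
  intro x hx hN
  have e : (x * ∑ i ∈ s, p i - (∑ i ∈ s, p i) * x) T.Ω = ∑ i ∈ s, (x * p i - p i * x) T.Ω := by
    rw [Finset.mul_sum, Finset.sum_mul, ← Finset.sum_sub_distrib, _root_.sum_apply]
  rw [e]
  refine (norm_sum_le _ _).trans ?_
  refine (Finset.sum_le_card_nsmul _ _ ε fun i hi => h i hi x hx hN).trans ?_
  simp

/-- `‖[w x w*...]‖`: a conjugated form of the commutator estimate -/
lemma norm_conj_sub {x w : H →L[ℂ] H}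
    (hu : w ∈ unitary (H →L[ℂ] H)) :
    ‖(star w * x * w - x) T.Ω‖ = ‖(x * w - w * x) T.Ω‖ := by
  have e : star w * x * w - x = star w * (x * w - w * x) := by
    rw [mul_sub, ← mul_assoc, ← mul_assoc, (Unitary.mem_iff.1 hu).1, one_mul]
  rw [e, T.norm_unitary_mul (Unitary.star_mem hu)]

lemma norm_comm_star {x w : H →L[ℂ] H} (hx : x ∈ T.S) (hw : w ∈ T.S)
    (hu : w ∈ unitary (H →L[ℂ] H)) :
    ‖(x * star w - star w * x) T.Ω‖ = ‖(x * w - w * x) T.Ω‖ := by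
  have e : x * star w - star w * x = star w * (w * x - x * w) * star w := by
    rw [mul_sub, sub_mul]
    rw [← mul_assoc, (Unitary.mem_iff.1 hu).1, one_mul, mul_assoc (star w), mul_assoc x,
      (Unitary.mem_iff.1 hu).2, mul_one]
  have h1 : w * x - x * w ∈ T.S := sub_mem (mul_mem hw hx) (mul_mem hx hw)
  rw [e, T.norm_mul_unitary (mul_mem (star_mem hw) h1) (star_mem hw) (Unitary.star_mem hu),
    T.norm_unitary_mul (Unitary.star_mem hu)]
  rw [← norm_neg]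
  simp

lemma UN_star {N : Set (H →L[ℂ] H)} (hN : T.IsSub N) {F : Finset (H →L[ℂ] H)} {ε : ℝ}
    {w : H →L[ℂ] H} (hw : w ∈ T.UN N F ε) : star w ∈ T.UN N F ε :=
  ⟨star_mem hw.1, Unitary.star_mem hw.2.1, fun x hx hxN => by
    rw [T.norm_comm_star (hN.sub x hxN) hw.1 hw.2.1]
    exact hw.2.2 x hx hxN⟩

lemma UN_mul {N : Set (H →L[ℂ] H)} (hN : T.IsSub N) {F : Finset (H →L[ℂ] H)} {ε ε' : ℝ}
    {v w : H →L[ℂ] H} (hv : v ∈ T.UN N F ε) (hw : w ∈ T.UN N F ε') :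
    v * w ∈ T.UN N F (ε + ε') :=
  ⟨mul_mem hv.1 hw.1, mul_mem hv.2.1 hw.2.1, fun x hx hxN => by
    have hxS := hN.sub x hxN
    have e : x * (v * w) - v * w * x = (x * v - v * x) * w + v * (x * w - w * x) := by
      noncomm_ring
    rw [e, _root_.add_apply]
    refine (norm_add_le _ _).trans (add_le_add ?_ ?_)
    · rw [T.norm_mul_unitary (sub_mem (mul_mem hxS hv.1) (mul_mem hv.1 hxS)) hw.1 hw.2.1]
      exact hv.2.2 x hx hxN
    · rw [T.norm_unitary_mul hv.2.1]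
      exact hw.2.2 x hx hxN⟩

lemma one_mem_UN {N : Set (H →L[ℂ] H)} {F : Finset (H →L[ℂ] H)} {ε : ℝ} (hε : 0 ≤ ε) :
    1 ∈ T.UN N F ε :=
  ⟨one_mem _, one_mem _, fun x _ _ => by simpa using hε⟩

/-- the symmetry of an almost commuting projection -/
lemma symm_mem_UN {N : Set (H →L[ℂ] H)} {F : Finset (H →L[ℂ] H)} {ε : ℝ} {p : H →L[ℂ] H}
    (hp : p ∈ T.S) (hpp : IsStarProjection p) (h : T.Near N F ε p) :
    (2 : ℂ) • p - 1 ∈ T.UN N F (2 * ε) := by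
  refine ⟨sub_mem (SMulMemClass.smul_mem _ hp) (one_mem _), ?_, fun x hx hxN => ?_⟩
  · have hs : star ((2 : ℂ) • p - 1) = (2 : ℂ) • p - 1 := by
      simp [star_sub, star_smul, hpp.isSelfAdjoint.star_eq]
    have hsq : ((2 : ℂ) • p - 1) * ((2 : ℂ) • p - 1) = 1 := by
      have := hpp.isIdempotentElem.eq
      simp only [mul_sub, sub_mul, smul_mul_smul_comm, this, mul_one, one_mul]
      module
    rw [Unitary.mem_iff, hs]
    exact ⟨hsq, hsq⟩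
  · have e : x * ((2 : ℂ) • p - 1) - ((2 : ℂ) • p - 1) * x = (2 : ℂ) • (x * p - p * x) := by
      simp only [mul_sub, sub_mul, mul_smul_comm, smul_mul_assoc, mul_one, one_mul]
      module
    rw [e, _root_.smul_apply, norm_smul]
    simpa using h x hx hxN

/-- relative commutants -/
def relComm (X : Set (H →L[ℂ] H)) (hXS : ∀ x ∈ X, x ∈ T.S) (hX : ∀ x ∈ X, star x ∈ X) :
    TVN H where
  S :=
    { carrier := {a | a ∈ T.S ∧ ∀ x ∈ X, x * a = a * x}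
      mul_mem' := fun {a b} ha hb => ⟨mul_mem ha.1 hb.1, fun x hx => by
        rw [← mul_assoc, ha.2 x hx, mul_assoc, hb.2 x hx, mul_assoc]⟩
      one_mem' := ⟨one_mem _, fun x _ => by simp⟩
      add_mem' := fun {a b} ha hb => ⟨add_mem ha.1 hb.1, fun x hx => by
        rw [mul_add, add_mul, ha.2 x hx, hb.2 x hx]⟩
      zero_mem' := ⟨zero_mem _, fun x _ => by simp⟩
      algebraMap_mem' := fun r => ⟨algebraMap_mem _ r, fun x _ => by
        rw [Algebra.algebraMap_eq_smul_one]; simp⟩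
      star_mem' := fun {a} ha => ⟨star_mem ha.1, fun x hx => by
        have h := ha.2 (star x) (hX x hx)
        have := congrArg star h
        simpa [star_mul] using this.symm⟩ }
  Ω := T.Ω
  norm_Ω := T.norm_Ω
  closed := by
    have h : {a : H →L[ℂ] H | a ∈ T.S ∧ ∀ x ∈ X, x * a = a * x} =
        (T.S : Set (H →L[ℂ] H)) ∩ ⋂ x ∈ X, {a | x * a = a * x} := by
      ext a; simp
    change IsClosed {a : H →L[ℂ] H | a ∈ T.S ∧ ∀ x ∈ X, x * a = a * x}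
    rw [h]
    refine T.closed.inter (isClosed_biInter fun x _ => ?_)
    exact isClosed_eq (by fun_prop) (by fun_prop)
  trace := fun x hx y hy => T.trace x hx.1 y hy.1
  sep := fun x hx h => T.sep x hx.1 h
  complete := by
    intro x hx h1 hc
    obtain ⟨y, hy, hy1, hy2⟩ := T.complete x (fun n => (hx n).1) h1 hc
    refine ⟨y, ⟨hy, fun z hz => ?_⟩, hy1, hy2⟩
    have hzS := hXS z hz
    have e1 : Tendsto (fun n => (z * x n) T.Ω) atTop (𝓝 ((z * y) T.Ω)) :=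
      T.tendsto_mul (fun _ => hzS) (fun n => (hx n).1) hzS hy (fun _ => le_rfl)
        tendsto_const_nhds hy2
    have e2 : Tendsto (fun n => (x n * z) T.Ω) atTop (𝓝 ((y * z) T.Ω)) :=
      T.tendsto_mul (fun n => (hx n).1) (fun _ => hzS) hy hzS h1 hy2 tendsto_const_nhds
    refine T.eq_of_apply (mul_mem hzS hy) (mul_mem hy hzS) (tendsto_nhds_unique e1 ?_)
    refine e2.congr fun n => ?_
    rw [(hx n).2 z hz]

@[simp] lemma relComm_Ω (X : Set (H →L[ℂ] H)) (hXS hX) : (T.relComm X hXS hX).Ω = T.Ω := rfl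

lemma mem_relComm {X : Set (H →L[ℂ] H)} {hXS hX} {a : H →L[ℂ] H} :
    a ∈ (T.relComm X hXS hX).S ↔ a ∈ T.S ∧ ∀ x ∈ X, x * a = a * x := Iff.rfl

end TVN

end Pool.Agent.OS
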