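import Pool.Agent.OS.Stmts
import Pool.Agent.OS.Basic

set_option autoImplicit false

/-!
# Corners of tracial von Neumann algebras
-/

open Filter Topology
open scoped InnerProductSpace

namespace Pool.Agent.OS

universe u

namespace Corner

section cm

variable {H : Type u} [NormedAddCommGroup H] [InnerProductSpace ℂ H] [CompleteSpace H]
variable {K : Type u} [NormedAddCommGroup K] [InnerProductSpace ℂ K] [CompleteSpace K]

/-- `y ↦ V y V*` -/
noncomputable def cm (V : K →L[ℂ] H) (y : K →L[ℂ] K) : H →L[ℂ] H :=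
  V ∘L y ∘L (ContinuousLinearMap.adjoint V)

variable {V : K →L[ℂ] H}

lemma adj_V (hV : (ContinuousLinearMap.adjoint V) ∘L V = 1) (ξ : K) :
    ContinuousLinearMap.adjoint V (V ξ) = ξ := by
  have := congrArg (fun f : K →L[ℂ] K => f ξ) hV
  simpa using this

lemma cm_apply (y : K →L[ℂ] K) (ξ : H) :
    cm V y ξ = V (y (ContinuousLinearMap.adjoint V ξ)) := rfl

lemma cm_apply_V (hV : (ContinuousLinearMap.adjoint V) ∘L V = 1) (y : K →L[ℂ] K) (ξ : K) :
    cm V y (V ξ) = V (y ξ) := by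
  rw [cm_apply, adj_V hV]

lemma norm_V (hV : (ContinuousLinearMap.adjoint V) ∘L V = 1) (ξ : K) : ‖V ξ‖ = ‖ξ‖ := by
  have h : ⟪V ξ, V ξ⟫_ℂ = ⟪ξ, ξ⟫_ℂ := by
    rw [← ContinuousLinearMap.adjoint_inner_right, adj_V hV]
  rw [inner_self_eq_norm_sq_to_K, inner_self_eq_norm_sq_to_K] at h
  have h2 : ‖V ξ‖ ^ 2 = ‖ξ‖ ^ 2 := by exact_mod_cast h
  exact (sq_eq_sq₀ (norm_nonneg _) (norm_nonneg _)).1 h2

lemma inner_V (hV : (ContinuousLinearMap.adjoint V) ∘L V = 1) (ξ η : K) :
    ⟪V ξ, V η⟫_ℂ = ⟪ξ, η⟫_ℂ := by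
  rw [← ContinuousLinearMap.adjoint_inner_right, adj_V hV]

lemma cm_mul (hV : (ContinuousLinearMap.adjoint V) ∘L V = 1) (x y : K →L[ℂ] K) :
    cm V (x * y) = cm V x * cm V y := by
  ext ξ
  change V (x (y (ContinuousLinearMap.adjoint V ξ))) =
    cm V x (V (y (ContinuousLinearMap.adjoint V ξ)))
  rw [cm_apply_V hV]

lemma cm_one : cm V 1 = V ∘L ContinuousLinearMap.adjoint V := by
  ext ξ; rfl

lemma cm_add (x y : K →L[ℂ] K) : cm V (x + y) = cm V x + cm V y := by
  ext ξ; simp [cm_apply]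

lemma cm_sub (x y : K →L[ℂ] K) : cm V (x - y) = cm V x - cm V y := by
  ext ξ; simp [cm_apply]

lemma cm_zero : cm V (0 : K →L[ℂ] K) = 0 := by
  ext ξ; simp [cm_apply]

lemma cm_smul (c : ℂ) (x : K →L[ℂ] K) : cm V (c • x) = c • cm V x := by
  ext ξ; simp [cm_apply]

lemma cm_sum {ι : Type*} (s : Finset ι) (x : ι → K →L[ℂ] K) :
    cm V (∑ i ∈ s, x i) = ∑ i ∈ s, cm V (x i) := by
  classical
  induction s using Finset.induction_on with
  | empty => simp [cm_zero]
  | insert a s ha ih => rw [Finset.sum_insert ha, Finset.sum_insert ha, cm_add, ih]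

lemma cm_star (x : K →L[ℂ] K) : cm V (star x) = star (cm V x) := by
  simp only [cm, ContinuousLinearMap.star_eq_adjoint, ContinuousLinearMap.adjoint_comp,
    ContinuousLinearMap.adjoint_adjoint]
  rfl

lemma cm_inj (hV : (ContinuousLinearMap.adjoint V) ∘L V = 1) {x y : K →L[ℂ] K}
    (h : cm V x = cm V y) : x = y := by
  ext ξ
  have h1 := congrArg (fun f : H →L[ℂ] H => f (V ξ)) h
  simp only [cm_apply_V hV] at h1
  have h2 := congrArg (ContinuousLinearMap.adjoint V) h1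
  rwa [adj_V hV, adj_V hV] at h2

lemma norm_adj_V_le (hV : (ContinuousLinearMap.adjoint V) ∘L V = 1) :
    ‖ContinuousLinearMap.adjoint V‖ ≤ 1 := by
  rw [LinearIsometryEquiv.norm_map]
  exact V.opNorm_le_bound zero_le_one fun ξ => by rw [norm_V hV, one_mul]

lemma norm_adj_apply_le (hV : (ContinuousLinearMap.adjoint V) ∘L V = 1) (ξ : H) :
    ‖ContinuousLinearMap.adjoint V ξ‖ ≤ ‖ξ‖ := by
  simpa using (ContinuousLinearMap.adjoint V).le_of_opNorm_le (norm_adj_V_le hV) ξ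

lemma norm_cm_le (hV : (ContinuousLinearMap.adjoint V) ∘L V = 1) (y : K →L[ℂ] K) :
    ‖cm V y‖ ≤ ‖y‖ := by
  refine (cm V y).opNorm_le_bound (norm_nonneg _) fun ξ => ?_
  rw [cm_apply, norm_V hV]
  exact (y.le_opNorm _).trans
    (mul_le_mul_of_nonneg_left (norm_adj_apply_le hV ξ) (norm_nonneg _))

/-- `x ↦ V* x V` -/
noncomputable def dn (V : K →L[ℂ] H) (x : H →L[ℂ] H) : K →L[ℂ] K :=
  (ContinuousLinearMap.adjoint V) ∘L x ∘L V

lemma dn_apply (x : H →L[ℂ] H) (ξ : K) :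
    dn V x ξ = ContinuousLinearMap.adjoint V (x (V ξ)) := rfl

lemma norm_dn_le (hV : (ContinuousLinearMap.adjoint V) ∘L V = 1) (x : H →L[ℂ] H) :
    ‖dn V x‖ ≤ ‖x‖ := by
  refine (dn V x).opNorm_le_bound (norm_nonneg _) fun ξ => ?_
  rw [dn_apply]
  refine (norm_adj_apply_le hV _).trans ?_
  simpa [norm_V hV] using x.le_opNorm (V ξ)

lemma dn_star (x : H →L[ℂ] H) : dn V (star x) = star (dn V x) := by
  simp only [dn, ContinuousLinearMap.star_eq_adjoint, ContinuousLinearMap.adjoint_comp,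
    ContinuousLinearMap.adjoint_adjoint]
  rfl

lemma cm_dn {e : H →L[ℂ] H} (he : V ∘L ContinuousLinearMap.adjoint V = e) (x : H →L[ℂ] H) :
    cm V (dn V x) = e * x * e := by
  rw [← he]; ext ξ; rfl

lemma dn_cm (hV : (ContinuousLinearMap.adjoint V) ∘L V = 1) (y : K →L[ℂ] K) :
    dn V (cm V y) = y := by
  ext ξ
  rw [dn_apply, cm_apply_V hV, adj_V hV]

lemma cm_mul_e {e : H →L[ℂ] H} (hV : (ContinuousLinearMap.adjoint V) ∘L V = 1)
    (he : V ∘L ContinuousLinearMap.adjoint V = e) (y : K →L[ℂ] K) : cm V y * e = cm V y := by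
  rw [← he, ← cm_one, ← cm_mul hV, mul_one]

lemma e_mul_cm {e : H →L[ℂ] H} (hV : (ContinuousLinearMap.adjoint V) ∘L V = 1)
    (he : V ∘L ContinuousLinearMap.adjoint V = e) (y : K →L[ℂ] K) : e * cm V y = cm V y := by
  rw [← he, ← cm_one, ← cm_mul hV, one_mul]

end cm

section corner

variable {H : Type u} [NormedAddCommGroup H] [InnerProductSpace ℂ H] [CompleteSpace H]
variable {K : Type u} [NormedAddCommGroup K] [InnerProductSpace ℂ K] [CompleteSpace K]

/-- the corner, realized through an isometry -/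
noncomputable def mk (T : TVN H) (e : H →L[ℂ] H) (he : e ∈ T.S) (hp : IsStarProjection e)
    (he0 : e ≠ 0) (V : K →L[ℂ] H) (hV : (ContinuousLinearMap.adjoint V) ∘L V = 1)
    (hVe : V ∘L ContinuousLinearMap.adjoint V = e) (Ω' : K)
    (hΩ : V Ω' = ((‖e T.Ω‖⁻¹ : ℝ) : ℂ) • (e T.Ω)) : TVN K where
  S :=
    { carrier := {y | cm V y ∈ T.S}
      mul_mem' := fun {a b} ha hb => by
        change cm V (a * b) ∈ T.S
        rw [cm_mul hV]; exact mul_mem ha hb
      one_mem' := by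
        change cm V 1 ∈ T.S
        rw [cm_one, hVe]; exact he
      add_mem' := fun {a b} ha hb => by
        change cm V (a + b) ∈ T.S
        rw [cm_add]; exact add_mem ha hb
      zero_mem' := by
        change cm V 0 ∈ T.S
        rw [cm_zero]; exact zero_mem _
      algebraMap_mem' := fun r => by
        change cm V _ ∈ T.S
        rw [Algebra.algebraMap_eq_smul_one, cm_smul, cm_one, hVe]
        exact SMulMemClass.smul_mem _ he
      star_mem' := fun {a} ha => by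
        change cm V (star a) ∈ T.S
        rw [cm_star]; exact star_mem ha }
  Ω := Ω'
  norm_Ω := by
    have hn : ‖e T.Ω‖ ≠ 0 := fun h => he0 (T.sep e he (norm_eq_zero.1 h))
    rw [← norm_V hV, hΩ, norm_smul, Complex.norm_real, norm_inv, norm_norm, inv_mul_cancel₀ hn]
  closed := by
    change IsClosed {y : K →L[ℂ] K | cm V y ∈ T.S}
    refine T.closed.preimage ?_
    unfold cm
    fun_prop
  trace := by
    intro x hx y hy
    change cm V x ∈ T.S at hx
    change cm V y ∈ T.S at hy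
    have key : ∀ a b : K →L[ℂ] K, cm V a ∈ T.S → cm V b ∈ T.S →
        ⟪Ω', a (b Ω')⟫_ℂ = ((‖e T.Ω‖⁻¹ : ℝ) : ℂ) * ((‖e T.Ω‖⁻¹ : ℝ) : ℂ) *
          ⟪T.Ω, cm V a (cm V b T.Ω)⟫_ℂ := by
      intro a b ha hb
      rw [← inner_V hV, ← cm_apply_V hV, ← cm_apply_V hV, hΩ]
      have h1 : cm V a (cm V b (((‖e T.Ω‖⁻¹ : ℝ) : ℂ) • (e T.Ω))) =
          ((‖e T.Ω‖⁻¹ : ℝ) : ℂ) • (cm V a * (cm V b * e)) T.Ω := by
        simp
      rw [h1, cm_mul_e hV hVe, inner_smul_left, inner_smul_right, Complex.conj_ofReal]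
      have h2 : ⟪e T.Ω, (cm V a * cm V b) T.Ω⟫_ℂ = ⟪T.Ω, (e * (cm V a * cm V b)) T.Ω⟫_ℂ := by
        have : (e * (cm V a * cm V b)) T.Ω =
            ContinuousLinearMap.adjoint e ((cm V a * cm V b) T.Ω) := by
          rw [← ContinuousLinearMap.star_eq_adjoint, hp.isSelfAdjoint.star_eq]; rfl
        rw [this, ContinuousLinearMap.adjoint_inner_right]
      rw [h2, ← mul_assoc e, e_mul_cm hV hVe, mul_assoc]
      rfl
    rw [key x y hx hy, key y x hy hx, T.trace _ hx _ hy]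
  sep := by
    intro x hx h
    change cm V x ∈ T.S at hx
    have hn : ‖e T.Ω‖ ≠ 0 := fun h => he0 (T.sep e he (norm_eq_zero.1 h))
    have h1 : cm V x (V Ω') = 0 := by rw [cm_apply_V hV, h, map_zero]
    rw [hΩ, map_smul, smul_eq_zero] at h1
    have h2 : (cm V x * e) T.Ω = 0 := by
      rcases h1 with h1 | h1
      · exact absurd (Complex.ofReal_eq_zero.1 h1) (inv_ne_zero hn)
      · exact h1
    rw [cm_mul_e hV hVe] at h2
    have h3 := T.sep _ hx h2
    exact cm_inj hV (h3.trans cm_zero.symm)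
  complete := by
    intro x hx hx1 hc
    have hn : ‖e T.Ω‖ ≠ 0 := fun h => he0 (T.sep e he (norm_eq_zero.1 h))
    have hx' : ∀ n, cm V (x n) ∈ T.S := hx
    have e1 : ∀ n, cm V (x n) T.Ω = ((‖e T.Ω‖ : ℝ) : ℂ) • V (x n Ω') := by
      intro n
      rw [← cm_apply_V hV, hΩ, map_smul, smul_smul, ← Complex.ofReal_mul, mul_inv_cancel₀ hn,
        Complex.ofReal_one, one_smul]
      change _ = (cm V (x n) * e) T.Ω
      rw [cm_mul_e hV hVe]
    have hcc : CauchySeq (fun n => cm V (x n) T.Ω) := by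
      simp_rw [e1]
      have h1 : UniformContinuous (fun ξ : K => ((‖e T.Ω‖ : ℝ) : ℂ) • V ξ) :=
        ((((‖e T.Ω‖ : ℝ) : ℂ)) • V).uniformContinuous
      exact h1.comp_cauchySeq hc
    obtain ⟨y, hy, hy1, hy2⟩ := T.complete (fun n => cm V (x n)) hx'
      (fun n => (norm_cm_le hV _).trans (hx1 n)) hcc
    -- y = e * y * e
    have hye : e * y * e = y := by
      have l1 : Tendsto (fun n => (e * cm V (x n) * e) T.Ω) atTop (𝓝 ((e * y * e) T.Ω)) := by
        have a1 := T.tendsto_mul (l := atTop) (x := fun _ : ℕ => e) (y := fun n => cm V (x n))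
          (x₀ := e) (y₀ := y) (C := ‖e‖) (fun _ => he) hx' he hy (fun _ => le_rfl)
          tendsto_const_nhds hy2
        refine T.tendsto_mul (l := atTop) (x := fun n : ℕ => e * cm V (x n)) (y := fun _ => e)
          (x₀ := e * y) (y₀ := e) (C := 1) (fun n => mul_mem he (hx' n)) (fun _ => he)
          (mul_mem he hy) he (fun n => ?_) a1 tendsto_const_nhds
        rw [e_mul_cm hV hVe]
        exact (norm_cm_le hV _).trans (hx1 n)
      refine T.eq_of_apply (mul_mem (mul_mem he hy) he) hy (tendsto_nhds_unique l1 ?_)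
      refine hy2.congr fun n => ?_
      rw [e_mul_cm hV hVe, cm_mul_e hV hVe]
    refine ⟨dn V y, ?_, (norm_dn_le hV y).trans hy1, ?_⟩
    · change cm V (dn V y) ∈ T.S
      rw [cm_dn hVe, hye]; exact hy
    · have h3 : ∀ a : K →L[ℂ] K, a Ω' = ((‖e T.Ω‖⁻¹ : ℝ) : ℂ) •
          ContinuousLinearMap.adjoint V (cm V a T.Ω) := by
        intro a
        have h4 : cm V a T.Ω = (cm V a * e) T.Ω := by rw [cm_mul_e hV hVe]
        have h5 : ((‖e T.Ω‖⁻¹ : ℝ) : ℂ) • cm V a T.Ω = V (a Ω') := by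
          rw [h4, ← cm_apply_V hV, hΩ, map_smul]; rfl
        rw [← map_smul, h5, adj_V hV]
      have h6 : cm V (dn V y) = y := by rw [cm_dn hVe, hye]
      rw [h3 (dn V y), h6]
      simp_rw [h3 (x _)]
      exact (((ContinuousLinearMap.adjoint V).continuous.tendsto _).comp hy2).const_smul _

end corner

end Corner

open Corner in
theorem corner_proof : Stmt_Corner.{u} := by
  intro H _ _ _ T e he hp he0
  let K : Submodule ℂ H := LinearMap.ker ((1 - e : H →L[ℂ] H) : H →ₗ[ℂ] H)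
  have hKc : IsClosed (K : Set H) := (1 - e : H →L[ℂ] H).isClosed_ker
  have : CompleteSpace K := hKc.completeSpace_coe
  have hmem : ∀ x : H, x ∈ K ↔ e x = x := by
    intro x
    change (1 - e : H →L[ℂ] H) x = 0 ↔ _
    rw [_root_.sub_apply, sub_eq_zero]
    exact eq_comm
  have hee : ∀ x, e (e x) = e x := fun x =>
    congrArg (fun f : H →L[ℂ] H => f x) hp.isIdempotentElem.eq
  have heK : ∀ x, e x ∈ K := fun x => (hmem _).2 (hee x)
  let V : K →L[ℂ] H := K.subtypeL
  have hadj : ∀ x : H, ContinuousLinearMap.adjoint V x = ⟨e x, heK x⟩ := by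
    intro x
    refine ext_inner_left ℂ fun k => ?_
    rw [ContinuousLinearMap.adjoint_inner_right]
    change ⟪(k : H), x⟫_ℂ = ⟪(k : H), e x⟫_ℂ
    have h1 : e (k : H) = k := (hmem _).1 k.2
    conv_lhs => rw [← h1]
    rw [← ContinuousLinearMap.adjoint_inner_right, ← ContinuousLinearMap.star_eq_adjoint,
      hp.isSelfAdjoint.star_eq]
  have hV : (ContinuousLinearMap.adjoint V) ∘L V = 1 := by
    ext k
    change ((ContinuousLinearMap.adjoint V (V k) : K) : H) = k
    rw [hadj]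
    exact (hmem _).1 k.2
  have hVe : V ∘L (ContinuousLinearMap.adjoint V) = e := by
    ext x
    change ((ContinuousLinearMap.adjoint V x : K) : H) = e x
    rw [hadj]
  let Ω' : K := ((‖e T.Ω‖⁻¹ : ℝ) : ℂ) • ⟨e T.Ω, heK T.Ω⟩
  have hΩ : V Ω' = ((‖e T.Ω‖⁻¹ : ℝ) : ℂ) • (e T.Ω) := rfl
  exact ⟨K, inferInstance, inferInstance, inferInstance, Corner.mk T e he hp he0 V hV hVe Ω' hΩ,
    V, hV, hVe, fun y => Iff.rfl, hΩ⟩

end Pool.Agent.OS
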