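import Pool.Agent.OS.Corner

set_option autoImplicit false

/-!
# The core theorem in a corner
-/

open Filter Topology
open scoped InnerProductSpace

namespace Pool.Agent.OS

universe u

namespace CornerCore

open Corner

variable {H : Type u} [NormedAddCommGroup H] [InnerProductSpace ℂ H] [CompleteSpace H]
variable {K : Type u} [NormedAddCommGroup K] [InnerProductSpace ℂ K] [CompleteSpace K]
variable {T : TVN H} {T' : TVN K} {V : K →L[ℂ] H} {e : H →L[ℂ] H}

lemma norm_Ω' (hV : (ContinuousLinearMap.adjoint V) ∘L V = 1)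
    (hVe : V ∘L ContinuousLinearMap.adjoint V = e)
    (hΩ : V T'.Ω = ((‖e T.Ω‖⁻¹ : ℝ) : ℂ) • (e T.Ω)) (y : K →L[ℂ] K) :
    ‖y T'.Ω‖ = ‖e T.Ω‖⁻¹ * ‖cm V y T.Ω‖ := by
  rw [← norm_V hV, ← cm_apply_V hV, hΩ, map_smul, norm_smul, Complex.norm_real, norm_inv,
    norm_norm]
  have h : cm V y (e T.Ω) = cm V y T.Ω := by
    have := cm_mul_e hV hVe y
    exact congrArg (fun f : H →L[ℂ] H => f T.Ω) this
  rw [h]

lemma cm_proj (hV : (ContinuousLinearMap.adjoint V) ∘L V = 1) {q : K →L[ℂ] K}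
    (hq : IsStarProjection q) : IsStarProjection (cm V q) := by
  refine ⟨?_, ?_⟩
  · change cm V q * cm V q = cm V q
    rw [← cm_mul hV, hq.isIdempotentElem.eq]
  · change star (cm V q) = cm V q
    rw [← cm_star, hq.isSelfAdjoint.star_eq]

lemma dn_proj (hV : (ContinuousLinearMap.adjoint V) ∘L V = 1) {p : H →L[ℂ] H}
    (hp : IsStarProjection p) (h : cm V (dn V p) = p) : IsStarProjection (dn V p) := by
  refine ⟨?_, ?_⟩
  · change dn V p * dn V p = dn V p
    refine cm_inj hV ?_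
    rw [cm_mul hV, h, hp.isIdempotentElem.eq]
  · change star (dn V p) = dn V p
    rw [← dn_star, hp.isSelfAdjoint.star_eq]

/-- the compressed set -/
def N' (V : K →L[ℂ] H) (N : Set (H →L[ℂ] H)) : Set (K →L[ℂ] K) := {y | ∃ x ∈ N, dn V x = y}

end CornerCore

open Corner CornerCore in
theorem cornerCore_proof (hCorner : Stmt_Corner.{u}) (hCore : Stmt_Core.{u})
    (hNS : Stmt_NonscalarProj.{u}) : Stmt_CornerCore.{u} := by
  intro H _ _ _ T N hN e he hp he0 hcomm hmin hsp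
  obtain ⟨K, _, _, _, T', V, hV, hVe, hmem, hΩ⟩ := hCorner H T e he hp he0
  have hc0 : ‖e T.Ω‖ ≠ 0 := fun h => he0 (T.sep e he (norm_eq_zero.1 h))
  have hc : 0 < ‖e T.Ω‖ := lt_of_le_of_ne (norm_nonneg _) hc0.symm
  have hmem' : ∀ y : K →L[ℂ] K, y ∈ T'.S ↔ cm V y ∈ T.S := hmem
  have hnorm := norm_Ω' (T := T) (T' := T') hV hVe hΩ
  have hee : e * e = e := hp.isIdempotentElem.eq
  -- the elements of `N` in the corner
  have hx1 : ∀ x ∈ N, cm V (dn V x) = x * e := by
    intro x hx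
    rw [cm_dn hVe, mul_assoc, hcomm x hx, ← mul_assoc, hee]
  have hx2 : ∀ x ∈ N, cm V (dn V x) = e * x := by
    intro x hx
    rw [hx1 x hx, hcomm x hx]
  have hsub : T'.IsSub (N' V N) := by
    refine ⟨?_, ?_⟩
    · rintro y ⟨x, hx, rfl⟩
      rw [hmem', hx1 x hx]
      exact mul_mem (hN.sub x hx) he
    · rintro y ⟨x, hx, rfl⟩
      exact ⟨star x, hN.star x hx, dn_star x⟩
  have htriv : T'.TrivComm (N' V N) := by
    intro y hy hyc
    by_contra hcon
    push Not at hcon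
    obtain ⟨q, hq, hqp, hq0, hq1⟩ := hNS K (T'.relComm (N' V N) hsub.sub hsub.star)
      ⟨y, ⟨hy, hyc⟩, hcon⟩
    have hqS : cm V q ∈ T.S := (hmem' q).1 hq.1
    have hqc : ∀ x ∈ N, x * cm V q = cm V q * x := by
      intro x hx
      calc x * cm V q = x * (e * cm V q) := by rw [e_mul_cm hV hVe]
        _ = cm V (dn V x) * cm V q := by rw [hx1 x hx, mul_assoc]
        _ = cm V q * cm V (dn V x) := by
          rw [← cm_mul hV, hq.2 _ ⟨x, hx, rfl⟩, cm_mul hV]
        _ = cm V q * e * x := by rw [hx2 x hx, mul_assoc]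
        _ = cm V q * x := by rw [cm_mul_e hV hVe]
    rcases hmin (cm V q) hqS (cm_proj hV hqp) hqc (cm_mul_e hV hVe q) with h | h
    · exact hq0 (cm_inj hV (h.trans cm_zero.symm))
    · refine hq1 (cm_inj hV (h.trans ?_))
      rw [cm_one, hVe]
  have hsp' : T'.SmallProj (N' V N) 1 := by
    classical
    intro η hη
    obtain ⟨c, hc', h⟩ := hsp (η * ‖e T.Ω‖ ^ 2) (by positivity)
    refine ⟨c * (‖e T.Ω‖⁻¹) ^ 2, by positivity, fun F' ε hε => ?_⟩
    let g : (K →L[ℂ] K) → (H →L[ℂ] H) := fun y => if hy : y ∈ N' V N then hy.choose else 0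
    obtain ⟨p, hpS, hpp, hpe, hpc, hpη, hpn⟩ := h (F'.image g) (ε * ‖e T.Ω‖) (by positivity)
    have hep : e * p = p := by
      have := congrArg star hpe
      rwa [star_mul, hp.isSelfAdjoint.star_eq, hpp.isSelfAdjoint.star_eq] at this
    have hcd : cm V (dn V p) = p := by rw [cm_dn hVe, hep, hpe]
    have hn2 : ‖dn V p T'.Ω‖ ^ 2 = ‖p T.Ω‖ ^ 2 * (‖e T.Ω‖⁻¹) ^ 2 := by
      rw [hnorm, hcd]; ring
    refine ⟨dn V p, (hmem' _).2 (hcd.symm ▸ hpS), dn_proj hV hpp hcd, mul_one _, ?_, ?_, ?_⟩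
    · rw [hn2]
      exact mul_le_mul_of_nonneg_right hpc (by positivity)
    · rw [hn2]
      calc ‖p T.Ω‖ ^ 2 * (‖e T.Ω‖⁻¹) ^ 2 ≤ (η * ‖e T.Ω‖ ^ 2) * (‖e T.Ω‖⁻¹) ^ 2 :=
            mul_le_mul_of_nonneg_right hpη (by positivity)
        _ = η := by field_simp
    · intro y hy hyN
      have hgN : g y ∈ N ∧ dn V (g y) = y := by
        have : g y = hyN.choose := by simp only [g]; rw [dif_pos hyN]
        rw [this]
        exact ⟨hyN.choose_spec.1, hyN.choose_spec.2⟩
      have h1 := hpn (g y) (Finset.mem_image_of_mem g hy) hgN.1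
      have h2 : cm V (y * dn V p - dn V p * y) = g y * p - p * g y := by
        rw [cm_sub, cm_mul hV, cm_mul hV, hcd]
        have e1 : cm V y * p = g y * p := by
          have : cm V y = g y * e := by rw [← hgN.2, hx1 _ hgN.1, hgN.2]
          rw [this, mul_assoc, hep]
        have e2 : p * cm V y = p * g y := by
          have : cm V y = e * g y := by rw [← hgN.2, hx2 _ hgN.1, hgN.2]
          rw [this, ← mul_assoc, hpe]
        rw [e1, e2]
      rw [hnorm, h2, inv_mul_le_iff₀ hc, mul_comm]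
      exact h1
  have hconcl := hCore K T' (N' V N) hsub htriv hsp'
  intro r x hx δ hδ
  obtain ⟨x', hx'S, _, _, hx'd, hx'q⟩ := hconcl r (fun i => dn V (x i))
    (fun i => ⟨x i, hx i, rfl⟩) (‖e T.Ω‖⁻¹ * δ) (by positivity)
  refine ⟨fun i => cm V (x' i), fun i => (hmem' _).1 (hx'S i), fun i => e_mul_cm hV hVe _,
    fun i => cm_mul_e hV hVe _, fun i => ?_, fun η hη => ?_⟩
  · have h1 := hx'd i
    rw [mul_one, hnorm, cm_sub, hx1 _ (hx i)] at h1
    exact le_of_mul_le_mul_left h1 (by positivity)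
  · obtain ⟨k, q, hq, hqη, hqc⟩ := hx'q (η * (‖e T.Ω‖⁻¹) ^ 2) (by positivity)
    refine ⟨k, fun j => cm V (q j), ⟨fun j => (hmem' _).1 (hq.mem j),
      fun j => cm_proj hV (hq.proj j), fun i j hij => ?_, ?_⟩, fun j => ?_, fun i j => ?_⟩
    · rw [← cm_mul hV, hq.orth i j hij, cm_zero]
    · rw [← cm_sum, hq.sum, cm_one, hVe]
    · have h1 := hqη j
      rw [hnorm, mul_pow, mul_comm] at h1
      exact le_of_mul_le_mul_right h1 (by positivity)
    · rw [← cm_mul hV, hqc i j, cm_mul hV]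

end Pool.Agent.OS
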