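import Pool.Agent.OS.Stmts
import Pool.Agent.OS.Basic

set_option autoImplicit false

/-!
# Diff: a diffuse relative commutant in the ultrapower gives small almost commuting projections
-/

open Filter Topology
open scoped InnerProductSpace

namespace Pool.Agent.OS

universe u

namespace Diff

variable {H : Type u} [NormedAddCommGroup H] [InnerProductSpace ℂ H] [CompleteSpace H]

/-- bounded sequences of `T.S` -/
def BS (T : TVN H) (a : ℕ → H →L[ℂ] H) : Prop :=
  (∀ n, a n ∈ T.S) ∧ ∃ C : ℝ, ∀ n, ‖a n‖ ≤ C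

variable {T : TVN H} {ω : Ultrafilter ℕ} {a a' b b' c : ℕ → H →L[ℂ] H}

lemma BS.add (ha : BS T a) (hb : BS T b) : BS T (fun n => a n + b n) := by
  obtain ⟨h1, C, hC⟩ := ha
  obtain ⟨h2, D, hD⟩ := hb
  exact ⟨fun n => add_mem (h1 n) (h2 n), C + D, fun n =>
    (norm_add_le _ _).trans (add_le_add (hC n) (hD n))⟩

lemma BS.sub (ha : BS T a) (hb : BS T b) : BS T (fun n => a n - b n) := by
  obtain ⟨h1, C, hC⟩ := ha
  obtain ⟨h2, D, hD⟩ := hb
  exact ⟨fun n => sub_mem (h1 n) (h2 n), C + D, fun n =>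
    (norm_sub_le _ _).trans (add_le_add (hC n) (hD n))⟩

lemma BS.mul (ha : BS T a) (hb : BS T b) : BS T (fun n => a n * b n) := by
  obtain ⟨h1, C, hC⟩ := ha
  obtain ⟨h2, D, hD⟩ := hb
  refine ⟨fun n => mul_mem (h1 n) (h2 n), C * D, fun n => (norm_mul_le _ _).trans ?_⟩
  exact mul_le_mul (hC n) (hD n) (norm_nonneg _) ((norm_nonneg _).trans (hC n))

lemma BS.star (ha : BS T a) : BS T (fun n => star (a n)) := by
  obtain ⟨h1, C, hC⟩ := ha
  refine ⟨fun n => star_mem (h1 n), C, fun n => ?_⟩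
  rw [_root_.norm_star]
  exact hC n

lemma BS.smul (z : ℂ) (ha : BS T a) : BS T (fun n => z • a n) := by
  obtain ⟨h1, C, hC⟩ := ha
  refine ⟨fun n => SMulMemClass.smul_mem _ (h1 n), ‖z‖ * C, fun n => ?_⟩
  rw [norm_smul]
  exact mul_le_mul_of_nonneg_left (hC n) (norm_nonneg _)

lemma BS.const {x : H →L[ℂ] H} (hx : x ∈ T.S) : BS T (fun _ => x) :=
  ⟨fun _ => hx, ‖x‖, fun _ => le_rfl⟩

lemma E.refl (a : ℕ → H →L[ℂ] H) : EqU ω T.Ω a a := by
  unfold EqU
  simp

lemma E.symm (h : EqU ω T.Ω a b) : EqU ω T.Ω b a := by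
  unfold EqU at h ⊢
  refine h.congr fun n => ?_
  rw [← norm_neg]
  congr 1
  simp

lemma E.trans (h : EqU ω T.Ω a b) (h' : EqU ω T.Ω b c) : EqU ω T.Ω a c := by
  unfold EqU at h h' ⊢
  refine squeeze_zero (fun n => norm_nonneg _) (fun n => ?_) (by simpa using h.add h')
  have : (a n - c n) T.Ω = (a n - b n) T.Ω + (b n - c n) T.Ω := by
    simp
  rw [this]
  exact norm_add_le _ _

lemma E.add (h : EqU ω T.Ω a a') (h' : EqU ω T.Ω b b') :
    EqU ω T.Ω (fun n => a n + b n) (fun n => a' n + b' n) := by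
  unfold EqU at h h' ⊢
  refine squeeze_zero (fun n => norm_nonneg _) (fun n => ?_) (by simpa using h.add h')
  have : (a n + b n - (a' n + b' n)) T.Ω = (a n - a' n) T.Ω + (b n - b' n) T.Ω := by
    simp only [sub_apply, add_apply]
    abel
  rw [this]
  exact norm_add_le _ _

lemma E.sub (h : EqU ω T.Ω a a') (h' : EqU ω T.Ω b b') :
    EqU ω T.Ω (fun n => a n - b n) (fun n => a' n - b' n) := by
  unfold EqU at h h' ⊢
  refine squeeze_zero (fun n => norm_nonneg _) (fun n => ?_) (by simpa using h.add h')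
  have : (a n - b n - (a' n - b' n)) T.Ω = (a n - a' n) T.Ω - (b n - b' n) T.Ω := by
    simp only [sub_apply]
    abel
  rw [this]
  exact norm_sub_le _ _

lemma E.smul (z : ℂ) (h : EqU ω T.Ω a a') :
    EqU ω T.Ω (fun n => z • a n) (fun n => z • a' n) := by
  unfold EqU at h ⊢
  refine squeeze_zero (fun n => norm_nonneg _) (fun n => ?_) (by simpa using h.const_mul ‖z‖)
  have : (z • a n - z • a' n) T.Ω = z • (a n - a' n) T.Ω := by
    simp only [sub_apply, smul_apply, smul_sub]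
  rw [this, norm_smul, sub_apply]

lemma E.star (ha : BS T a) (hb : BS T b) (h : EqU ω T.Ω a b) :
    EqU ω T.Ω (fun n => star (a n)) (fun n => star (b n)) := by
  unfold EqU at h ⊢
  refine h.congr fun n => ?_
  rw [← star_sub, T.norm_star (sub_mem (ha.1 n) (hb.1 n))]

lemma E.mul (ha : BS T a) (ha' : BS T a') (hb : BS T b) (_hb' : BS T b')
    (h : EqU ω T.Ω a a') (h' : EqU ω T.Ω b b') :
    EqU ω T.Ω (fun n => a n * b n) (fun n => a' n * b' n) := by
  unfold EqU at h h' ⊢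
  obtain ⟨D, hD⟩ := hb.2
  obtain ⟨C, hC⟩ := ha'.2
  refine squeeze_zero (fun n => norm_nonneg _) (fun n => ?_)
    (by simpa using (h.const_mul D).add (h'.const_mul C))
  have : (a n * b n - a' n * b' n) T.Ω = ((a n - a' n) * b n) T.Ω + (a' n * (b n - b' n)) T.Ω := by
    simp
  rw [this]
  refine (norm_add_le _ _).trans (add_le_add ?_ ?_)
  · refine (T.norm_mul_right (sub_mem (ha.1 n) (ha'.1 n)) (hb.1 n)).trans ?_
    exact mul_le_mul_of_nonneg_right (hD n) (norm_nonneg _)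
  · refine (T.norm_mul_le _ _).trans ?_
    exact mul_le_mul_of_nonneg_right (hC n) (norm_nonneg _)

/-- the limit of the square of the 2-norm exists -/
lemma exists_lim (ha : BS T a) (ω : Ultrafilter ℕ) :
    ∃ t : ℝ, 0 ≤ t ∧ Tendsto (fun n => ‖a n T.Ω‖ ^ 2) ω (𝓝 t) := by
  obtain ⟨C, hC⟩ := ha.2
  have hmem : ∀ n, ‖a n T.Ω‖ ^ 2 ∈ Set.Icc (0 : ℝ) (C ^ 2) := fun n =>
    ⟨by positivity, pow_le_pow_left₀ (norm_nonneg _) ((T.norm_le _).trans (hC n)) 2⟩
  obtain ⟨t, ht, hle⟩ := (isCompact_Icc (a := (0 : ℝ)) (b := C ^ 2)).ultrafilter_le_nhds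
    (ω.map fun n => ‖a n T.Ω‖ ^ 2) (by
      rw [Filter.le_principal_iff]
      exact Filter.mem_map.2 (Filter.univ_mem' hmem))
  exact ⟨t, ht.1, hle⟩

lemma lim_pos {t : ℝ} (ht : Tendsto (fun n => ‖a n T.Ω‖ ^ 2) ω (𝓝 t)) (h0 : 0 ≤ t)
    (h : ¬ EqU ω T.Ω a 0) : 0 < t := by
  rcases h0.eq_or_lt with h1 | h1
  · exfalso
    apply h
    unfold EqU
    rw [← h1] at ht
    have h2 := (Real.continuous_sqrt.tendsto 0).comp ht
    rw [Real.sqrt_zero] at h2
    refine h2.congr fun n => ?_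
    simp [Real.sqrt_sq]
  · exact h1

lemma lim_congr {t : ℝ} (hab : EqU ω T.Ω a b) (hb : BS T b)
    (ht : Tendsto (fun n => ‖a n T.Ω‖ ^ 2) ω (𝓝 t)) :
    Tendsto (fun n => ‖b n T.Ω‖ ^ 2) ω (𝓝 t) := by
  obtain ⟨C, hC⟩ := hb.2
  have hCn : ∀ n, ‖b n T.Ω‖ ≤ C := fun n => (T.norm_le _).trans (hC n)
  have h1 : Tendsto (fun n => ‖a n T.Ω‖ - ‖b n T.Ω‖) ω (𝓝 0) := by
    refine squeeze_zero_norm (fun n => ?_) hab
    have := abs_norm_sub_norm_le (a n T.Ω) (b n T.Ω)
    simpa using this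
  have h2 : Tendsto (fun n => ‖a n T.Ω‖ ^ 2 - ‖b n T.Ω‖ ^ 2) ω (𝓝 0) := by
    have h3 : Tendsto (fun n => |‖a n T.Ω‖ - ‖b n T.Ω‖| ^ 2 +
        2 * C * |‖a n T.Ω‖ - ‖b n T.Ω‖|) ω (𝓝 0) := by
      have h4 := h1.abs
      simpa using (h4.pow 2).add (h4.const_mul (2 * C))
    refine squeeze_zero_norm (fun n => ?_) h3
    rw [Real.norm_eq_abs]
    have e : ‖a n T.Ω‖ ^ 2 - ‖b n T.Ω‖ ^ 2 =
        (‖a n T.Ω‖ - ‖b n T.Ω‖) ^ 2 + 2 * ‖b n T.Ω‖ * (‖a n T.Ω‖ - ‖b n T.Ω‖) := by ring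
    rw [e]
    refine (abs_add_le _ _).trans (add_le_add ?_ ?_)
    · rw [abs_pow]
    · rw [abs_mul, abs_mul, abs_two, abs_of_nonneg (norm_nonneg (b n T.Ω))]
      exact mul_le_mul_of_nonneg_right (by linarith [hCn n]) (abs_nonneg _)
  have := ht.sub h2
  simpa using this

/-- projections of the ultrapower, commuting with `N`, under `e` -/
structure PU (T : TVN H) (ω : Ultrafilter ℕ) (N : Set (H →L[ℂ] H)) (e : H →L[ℂ] H)
    (p : ℕ → H →L[ℂ] H) : Prop where
  bs : BS T p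
  idem : EqU ω T.Ω (fun n => p n * p n) p
  sa : EqU ω T.Ω (fun n => star (p n)) p
  comm : ∀ x ∈ N, EqU ω T.Ω (fun n => x * p n) (fun n => p n * x)
  under : EqU ω T.Ω (fun n => p n * e) p

/-- halving -/
lemma halve {N : Set (H →L[ℂ] H)} {e : H →L[ℂ] H} (he : e ∈ T.S)
    {p : ℕ → H →L[ℂ] H}
    (hp : PU T ω N e p) {t : ℝ} (ht : Tendsto (fun n => ‖p n T.Ω‖ ^ 2) ω (𝓝 t))
    {q : ℕ → H →L[ℂ] H} (hqb : BS T q) (hqi : EqU ω T.Ω (fun n => q n * q n) q)
    (hqs : EqU ω T.Ω (fun n => star (q n)) q)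
    (hqc : ∀ x ∈ N, EqU ω T.Ω (fun n => x * q n) (fun n => q n * x))
    (hq0 : ¬ EqU ω T.Ω q 0) (hqp : ¬ EqU ω T.Ω q p)
    (hq : EqU ω T.Ω (fun n => q n * p n) q) :
    ∃ p' : ℕ → H →L[ℂ] H, PU T ω N e p' ∧ ∃ t' : ℝ, 0 < t' ∧ t' ≤ t / 2 ∧
      Tendsto (fun n => ‖p' n T.Ω‖ ^ 2) ω (𝓝 t') := by
  have hpb := hp.bs
  have heb : BS T (fun _ => e) := BS.const he
  -- `q` lies under `e`
  have hqe : EqU ω T.Ω (fun n => q n * e) q := by
    have h1 : EqU ω T.Ω (fun n => q n * e) (fun n => (q n * p n) * e) :=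
      E.mul hqb (hqb.mul hpb) heb heb (E.symm hq) (E.refl _)
    have h2 : EqU ω T.Ω (fun n => (q n * p n) * e) (fun n => q n * p n) := by
      have := E.mul hqb hqb (hpb.mul heb) hpb (E.refl q) hp.under
      simpa only [mul_assoc] using this
    exact E.trans h1 (E.trans h2 hq)
  have Q : PU T ω N e q := ⟨hqb, hqi, hqs, hqc, hqe⟩
  -- `p q = q`
  have hpq : EqU ω T.Ω (fun n => p n * q n) q := by
    have h1 := E.star (hqb.mul hpb) hqb hq
    have h2 : EqU ω T.Ω (fun n => star (q n * p n)) (fun n => p n * q n) := by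
      have := E.mul hpb.star hpb hqb.star hqb hp.sa hqs
      simpa only [star_mul] using this
    exact E.trans (E.symm h2) (E.trans h1 hqs)
  have hrb : BS T (fun n => p n - q n) := hpb.sub hqb
  have hqr : EqU ω T.Ω (fun n => star (q n) * (p n - q n)) 0 := by
    have h1 : EqU ω T.Ω (fun n => star (q n) * (p n - q n)) (fun n => q n * (p n - q n)) :=
      E.mul hqb.star hqb hrb hrb hqs (E.refl _)
    have h2 : EqU ω T.Ω (fun n => q n * (p n - q n)) (fun n => q n - q n) := by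
      have := E.sub hq hqi
      simpa only [mul_sub] using this
    have h3 := E.trans h1 h2
    have e3 : (fun n => q n - q n) = (0 : ℕ → H →L[ℂ] H) := by
      ext n; simp
    rwa [e3] at h3
  have R : PU T ω N e (fun n => p n - q n) := by
    refine ⟨hrb, ?_, ?_, fun x hx => ?_, ?_⟩
    · have h1 := E.sub (E.sub hp.idem hpq) (E.sub hq hqi)
      have e1 : (fun n => (p n - q n) * (p n - q n)) =
          fun n => p n * p n - p n * q n - (q n * p n - q n * q n) := by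
        funext n; noncomm_ring
      have e2 : (fun n => p n - q n - (q n - q n)) = fun n => p n - q n := by
        funext n; simp
      rw [e1]
      rw [e2] at h1
      exact h1
    · have h1 := E.sub hp.sa hqs
      simpa only [star_sub] using h1
    · have h1 := E.sub (hp.comm x hx) (hqc x hx)
      simpa only [mul_sub, sub_mul] using h1
    · have h1 := E.sub hp.under hqe
      simpa only [sub_mul] using h1
  obtain ⟨s, hs0, hs⟩ := exists_lim hqb ω
  obtain ⟨r, hr0, hr⟩ := exists_lim hrb ω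
  have hspos : 0 < s := lim_pos hs hs0 hq0
  have hrpos : 0 < r := by
    refine lim_pos hr hr0 fun h => hqp ?_
    unfold EqU at h ⊢
    refine h.congr fun n => ?_
    rw [← norm_neg]
    congr 1
    simp
  -- the sum
  have hsum : s + r = t := by
    have h1 : Tendsto (fun n => ‖p n T.Ω‖ ^ 2 - (‖q n T.Ω‖ ^ 2 + ‖(p n - q n) T.Ω‖ ^ 2)) ω
        (𝓝 0) := by
      have h2 : Tendsto (fun n => 2 * ‖(star (q n) * (p n - q n)) T.Ω‖) ω (𝓝 0) := by
        have h3 : Tendsto (fun n => ‖(star (q n) * (p n - q n)) T.Ω‖) ω (𝓝 0) := by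
          refine hqr.congr fun n => ?_
          simp
        simpa using h3.const_mul 2
      refine squeeze_zero_norm (fun n => ?_) h2
      have h4 := norm_add_sq (𝕜 := ℂ) (q n T.Ω) ((p n - q n) T.Ω)
      have e4 : q n T.Ω + (p n - q n) T.Ω = p n T.Ω := by simp
      rw [e4, ← T.tr_star_mul] at h4
      rw [h4]
      have h5 : RCLike.re (T.tr (star (q n) * (p n - q n))) ≤
          ‖(star (q n) * (p n - q n)) T.Ω‖ := (RCLike.re_le_norm _).trans (T.norm_tr_le _)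
      have h6 : |RCLike.re (T.tr (star (q n) * (p n - q n)))| ≤
          ‖(star (q n) * (p n - q n)) T.Ω‖ := (RCLike.abs_re_le_norm _).trans (T.norm_tr_le _)
      have e7 : ‖q n T.Ω‖ ^ 2 + 2 * RCLike.re (T.tr (star (q n) * (p n - q n))) +
          ‖(p n - q n) T.Ω‖ ^ 2 - (‖q n T.Ω‖ ^ 2 + ‖(p n - q n) T.Ω‖ ^ 2) =
          2 * RCLike.re (T.tr (star (q n) * (p n - q n))) := by ring
      rw [e7, Real.norm_eq_abs, abs_mul, abs_two]
      linarith
    have h8 := tendsto_nhds_unique h1 (ht.sub (hs.add hr))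
    linarith
  by_cases hle : s ≤ r
  · exact ⟨q, Q, s, hspos, by linarith, hs⟩
  · exact ⟨_, R, r, hrpos, by linarith, hr⟩

end Diff

open Diff in
theorem diff_proof (hNear : Stmt_NearProj.{u}) : Stmt_Diff.{u} := by
  intro H _ _ _ M N Ω hM hNM T hTΩ hTS ω hω e he hep he0 hec
  subst hTΩ
  have hN : ∀ x ∈ (N : Set (H →L[ℂ] H)), x ∈ T.S := fun x hx => (hTS x).2 (hNM hx)
  have hBS : ∀ a : ℕ → H →L[ℂ] H, BddSeq M a ↔ BS T a := fun a =>
    ⟨fun h => ⟨fun n => (hTS _).2 (h.1 n), h.2⟩, fun h => ⟨fun n => (hTS _).1 (h.1 n), h.2⟩⟩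
  have hn1 : ‖e‖ ≤ 1 := hep.norm_le
  have main : ∀ m : ℕ, ∃ p : ℕ → H →L[ℂ] H, PU T ω (N : Set (H →L[ℂ] H)) e p ∧
      ∃ t : ℝ, 0 < t ∧ t ≤ (1 / 2) ^ m ∧ Tendsto (fun n => ‖p n T.Ω‖ ^ 2) ω (𝓝 t) := by
    intro m
    induction m with
    | zero =>
      refine ⟨fun _ => e, ⟨BS.const he, ?_, ?_, ?_, ?_⟩, ‖e T.Ω‖ ^ 2, ?_, ?_,
        tendsto_const_nhds⟩
      · simp only [hep.isIdempotentElem.eq]; exact E.refl _
      · simp only [hep.isSelfAdjoint.star_eq]; exact E.refl _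
      · intro x hx
        simp only [hec x hx]; exact E.refl _
      · simp only [hep.isIdempotentElem.eq]; exact E.refl _
      · have : e T.Ω ≠ 0 := fun h => he0 (T.sep e he h)
        positivity
      · rw [pow_zero]
        exact pow_le_one₀ (norm_nonneg _) ((T.norm_le e).trans hn1)
    | succ m ih =>
      obtain ⟨p, hp, t, ht0, htm, ht⟩ := ih
      have hp0 : ¬ EqU ω T.Ω p 0 := by
        intro h
        have h2 : Tendsto (fun n => ‖p n T.Ω‖ ^ 2) ω (𝓝 0) := by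
          have : Tendsto (fun n => ‖p n T.Ω‖) ω (𝓝 0) := by
            refine h.congr fun n => ?_
            simp
          simpa using this.pow 2
        have := tendsto_nhds_unique ht h2
        linarith
      obtain ⟨q, hq, hq0, hqp, hqq⟩ := hω p ⟨(hBS p).2 hp.bs, hp.idem, hp.sa, hp.comm⟩ hp0
      obtain ⟨p', hp', t', h1, h2, h3⟩ := halve he hp ht ((hBS q).1 hq.1) hq.2.1 hq.2.2.1
        hq.2.2.2 hq0 hqp hqq
      refine ⟨p', hp', t', h1, ?_, h3⟩
      rw [pow_succ]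
      linarith
  intro η hη
  obtain ⟨m, hm⟩ := exists_pow_lt_of_lt_one hη (by norm_num : (1 / 2 : ℝ) < 1)
  obtain ⟨p, hp, t, ht0, htm, ht⟩ := main m
  have htη : t < η := lt_of_le_of_lt htm hm
  refine ⟨t / 2, by positivity, fun F ε hε => ?_⟩
  -- the self-adjoint representative
  set b : ℕ → H →L[ℂ] H := fun n => e * ((1 / 2 : ℂ) • (p n + star (p n))) * e with hb
  have heb : BS T (fun _ => e) := BS.const he
  have hpb := hp.bs
  have hb1 : BS T (fun n => (1 / 2 : ℂ) • (p n + star (p n))) := (hpb.add hpb.star).smul _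
  have hbb : BS T b := (heb.mul hb1).mul heb
  have hep' : EqU ω T.Ω (fun n => e * p n) p := by
    have h1 := E.star (hpb.mul heb) hpb hp.under
    have h2 : EqU ω T.Ω (fun n => e * p n) (fun n => e * star (p n)) :=
      E.mul heb heb hpb hpb.star (E.refl _) (E.symm hp.sa)
    have h3 : EqU ω T.Ω (fun n => e * star (p n)) (fun n => star (p n)) := by
      have e1 : (fun n => star (p n * e)) = fun n => e * star (p n) := by
        funext n
        rw [star_mul, hep.isSelfAdjoint.star_eq]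
      rwa [e1] at h1
    exact E.trans h2 (E.trans h3 hp.sa)
  have hbp : EqU ω T.Ω b p := by
    have h1 : EqU ω T.Ω (fun n => (1 / 2 : ℂ) • (p n + star (p n))) p := by
      have h2 := E.smul (1 / 2 : ℂ) (E.add (E.refl p) hp.sa)
      have e2 : (fun n => (1 / 2 : ℂ) • (p n + p n)) = p := by
        funext n
        rw [← two_smul ℂ (p n), smul_smul]
        norm_num
      rwa [e2] at h2
    have h3 : EqU ω T.Ω (fun n => e * ((1 / 2 : ℂ) • (p n + star (p n)))) (fun n => e * p n) :=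
      E.mul heb heb hb1 hpb (E.refl _) h1
    have h4 := E.trans h3 hep'
    have h5 : EqU ω T.Ω b (fun n => p n * e) := E.mul (heb.mul hb1) hpb heb heb h4 (E.refl _)
    exact E.trans h5 hp.under
  have hbsa : ∀ n, IsSelfAdjoint (b n) := by
    intro n
    change star (b n) = b n
    simp only [hb, star_mul, star_smul, star_add, star_star, hep.isSelfAdjoint.star_eq]
    rw [mul_assoc, add_comm (star (p n))]
    congr 3
    simp
  choose r hrS hrp hrn hrc hr0 using fun n => hNear H T (b n) (hbb.1 n) (hbsa n)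
  have hrb : BS T r := ⟨hrS, 1, fun n => (hrp n).norm_le⟩
  have hrbE : EqU ω T.Ω r b := by
    have h1 : EqU ω T.Ω (fun n => b n * b n) b :=
      E.trans (E.mul hbb hpb hbb hpb hbp hbp) (E.trans hp.idem (E.symm hbp))
    unfold EqU at h1 ⊢
    exact squeeze_zero (fun n => norm_nonneg _) hrn (by simpa using h1.const_mul 2)
  have hrpE : EqU ω T.Ω r p := E.trans hrbE hbp
  have hlim : Tendsto (fun n => ‖r n T.Ω‖ ^ 2) ω (𝓝 t) := lim_congr (E.symm hrpE) hrb ht
  have ev1 : ∀ᶠ n in (ω : Filter ℕ), t / 2 < ‖r n T.Ω‖ ^ 2 :=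
    hlim.eventually (lt_mem_nhds (by linarith))
  have ev2 : ∀ᶠ n in (ω : Filter ℕ), ‖r n T.Ω‖ ^ 2 < η :=
    hlim.eventually (gt_mem_nhds htη)
  have ev3 : ∀ x ∈ F, ∀ᶠ n in (ω : Filter ℕ), x ∈ (N : Set (H →L[ℂ] H)) →
      ‖(x * r n - r n * x) T.Ω‖ ≤ ε := by
    intro x _
    by_cases hx : x ∈ (N : Set (H →L[ℂ] H))
    · have hxb : BS T (fun _ => x) := BS.const (hN x hx)
      have h1 : EqU ω T.Ω (fun n => x * r n) (fun n => r n * x) :=
        E.trans (E.mul hxb hxb hrb hpb (E.refl _) hrpE)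
          (E.trans (hp.comm x hx) (E.mul hpb hrb hxb hxb (E.symm hrpE) (E.refl _)))
      have h2 : ∀ᶠ n in (ω : Filter ℕ), ‖(x * r n - r n * x) T.Ω‖ < ε :=
        h1.eventually (gt_mem_nhds hε)
      exact h2.mono fun n hn _ => hn.le
    · exact Filter.Eventually.of_forall fun n h => absurd h hx
  have ev4 : ∀ᶠ n in (ω : Filter ℕ), ∀ x ∈ F, x ∈ (N : Set (H →L[ℂ] H)) →
      ‖(x * r n - r n * x) T.Ω‖ ≤ ε := (Filter.eventually_all_finset F).2 ev3
  obtain ⟨n, h1, h2, h3⟩ := (ev1.and (ev2.and ev4)).exists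
  refine ⟨r n, hrS n, hrp n, ?_, h1.le, h2.le, h3⟩
  have h4 := hr0 n (1 - e) (sub_mem (one_mem _) he) (by
    simp only [hb]
    rw [mul_assoc, mul_sub, mul_one, hep.isIdempotentElem.eq, sub_self, mul_zero])
  rw [mul_sub, mul_one, sub_eq_zero] at h4
  exact h4.symm

end Pool.Agent.OS
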