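import Pool.Agent.OS.Stmts
import Pool.Agent.OS.Basic

set_option autoImplicit false

/-!
# Exhaustion of projections, and division of projections into small pieces

`exhaust` is the general exhaustion principle: if every nonzero subprojection of `p` has a nonzero subprojection in
`A`, then `p` is, up to a projection of small trace, a finite orthogonal sum of projections in `A`.
-/

open Filter Topology
open scoped InnerProductSpace

namespace Pool.Agent.OS

universe u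

namespace Divide

variable {H : Type u} [NormedAddCommGroup H] [InnerProductSpace ℂ H] [CompleteSpace H]

theorem mul_comm_of_le {q r : H →L[ℂ] H} (hq : IsStarProjection q) (hr : IsStarProjection r) (h : q * r = q) :
    r * q = q := by
  have := congrArg star h
  rwa [star_mul, hq.isSelfAdjoint.star_eq, hr.isSelfAdjoint.star_eq] at this

/-- Pythagoras for a subprojection. -/
theorem pyth (T : TVN H) {q r : H →L[ℂ] H} (hq : IsStarProjection q) (hr : IsStarProjection r) (h : q * r = q) :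
    ‖(r - q) T.Ω‖ ^ 2 = ‖r T.Ω‖ ^ 2 - ‖q T.Ω‖ ^ 2 := by
  have hs : IsStarProjection (r - q) := hq.sub_of_mul_eq_left hr h
  have h1 := T.tr_proj hs
  rw [T.tr_sub, T.tr_proj hr, T.tr_proj hq] at h1
  have : ‖r T.Ω‖ ^ 2 - ‖q T.Ω‖ ^ 2 = ‖(r - q) T.Ω‖ ^ 2 := by exact_mod_cast h1
  exact this.symm

theorem norm_pos (T : TVN H) {q : H →L[ℂ] H} (hq : q ∈ T.S) (h0 : q ≠ 0) : 0 < ‖q T.Ω‖ := by
  rw [norm_pos_iff]
  intro h
  exact h0 (T.sep q hq h)

/-- A projection of `S` under `p`. -/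
structure Sub (T : TVN H) (p r : H →L[ℂ] H) : Prop where
  mem : r ∈ T.S
  proj : IsStarProjection r
  le : r * p = r

theorem Sub.sub {T : TVN H} {p r q : H →L[ℂ] H} (h : Sub T p r) (hq : q ∈ T.S) (hqp : IsStarProjection q)
    (hqr : q * r = q) : Sub T p (r - q) := by
  refine ⟨sub_mem h.mem hq, hqp.sub_of_mul_eq_left h.proj hqr, ?_⟩
  have : q * p = q := by
    calc q * p = q * r * p := by rw [hqr]
      _ = q * (r * p) := mul_assoc _ _ _
      _ = q := by rw [h.le, hqr]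
  rw [sub_mul, h.le, this]

/-- A subprojection in `A` (or `0`) which is at least half as large as possible. -/
theorem step (T : TVN H) (A : Set (H →L[ℂ] H)) (r : H →L[ℂ] H) :
    ∃ q ∈ T.S, IsStarProjection q ∧ q * r = q ∧ (q ∈ A ∨ q = 0) ∧
      ∀ q' ∈ T.S, IsStarProjection q' → q' * r = q' → q' ∈ A → ‖q' T.Ω‖ ^ 2 ≤ 2 * ‖q T.Ω‖ ^ 2 := by
  set V : Set ℝ := {v | ∃ q ∈ T.S, IsStarProjection q ∧ q * r = q ∧ (q ∈ A ∨ q = 0) ∧ v = ‖q T.Ω‖ ^ 2} with hV
  have h0 : (0 : ℝ) ∈ V := ⟨0, zero_mem _, .zero _, by simp, Or.inr rfl, by simp⟩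
  have hb : BddAbove V := by
    refine ⟨1, ?_⟩
    rintro v ⟨q, hq, hqp, -, -, rfl⟩
    have h1 : ‖q T.Ω‖ ≤ 1 := (T.norm_le q).trans hqp.norm_le
    nlinarith [norm_nonneg (q T.Ω)]
  have hs0 : 0 ≤ sSup V := le_csSup hb h0
  rcases hs0.eq_or_lt with hs | hs
  · refine ⟨0, zero_mem _, .zero _, by simp, Or.inr rfl, fun q' h1 h2 h3 h4 => ?_⟩
    have : ‖q' T.Ω‖ ^ 2 ≤ sSup V := le_csSup hb ⟨q', h1, h2, h3, Or.inl h4, rfl⟩
    rw [← hs] at this
    simpa using this
  · obtain ⟨v, ⟨q, hq, hqp, hqr, hqA, rfl⟩, hv⟩ := exists_lt_of_lt_csSup ⟨0, h0⟩ (half_lt_self hs)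
    refine ⟨q, hq, hqp, hqr, hqA, fun q' h1 h2 h3 h4 => ?_⟩
    have : ‖q' T.Ω‖ ^ 2 ≤ sSup V := le_csSup hb ⟨q', h1, h2, h3, Or.inl h4, rfl⟩
    linarith

/-- The exhaustion principle. -/
theorem exhaust (T : TVN H) (A : Set (H →L[ℂ] H)) (p : H →L[ℂ] H) (hp : p ∈ T.S) (hpp : IsStarProjection p)
    (hA : ∀ r ∈ T.S, IsStarProjection r → r ≠ 0 → r * p = r →
      ∃ q ∈ T.S, IsStarProjection q ∧ q ≠ 0 ∧ q * r = q ∧ q ∈ A) (δ : ℝ) (hδ : 0 < δ) :
    ∃ (k : ℕ) (q : Fin (k + 1) → H →L[ℂ] H), T.IsPartOf p q ∧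
      (∀ j : Fin k, q j.castSucc ∈ A ∨ q j.castSucc = 0) ∧ ‖q (Fin.last k) T.Ω‖ ^ 2 ≤ δ := by
  choose Q hQS hQp hQr hQA hQm using fun r : H →L[ℂ] H => step T A r
  -- the decreasing sequence
  let R : ℕ → H →L[ℂ] H := fun n => Nat.rec p (fun _ r => r - Q r) n
  have R0 : R 0 = p := rfl
  have R1 : ∀ n, R (n + 1) = R n - Q (R n) := fun n => rfl
  have hR : ∀ n, Sub T p (R n) := by
    intro n
    induction n with
    | zero => exact ⟨hp, hpp, hpp.isIdempotentElem.eq⟩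
    | succ n ih => rw [R1]; exact ih.sub (hQS _) (hQp _) (hQr _)
  have hQR : ∀ n, R n * Q (R n) = Q (R n) := fun n => mul_comm_of_le (hQp _) (hR n).proj (hQr _)
  have hdec1 : ∀ n, R (n + 1) * R n = R (n + 1) := by
    intro n
    rw [R1, sub_mul, hQr, (hR n).proj.isIdempotentElem.eq]
  have hdec : ∀ n m, R (n + m) * R n = R (n + m) := by
    intro n m
    induction m with
    | zero => exact (hR n).proj.isIdempotentElem.eq
    | succ m ih =>
      calc R (n + (m + 1)) * R n = R (n + m + 1) * R (n + m) * R n := by rw [hdec1]; rfl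
        _ = R (n + m + 1) * (R (n + m) * R n) := mul_assoc _ _ _
        _ = R (n + (m + 1)) := by rw [ih, hdec1]; rfl
  have hdec' : ∀ n m, n ≤ m → R m * R n = R m := by
    intro n m h
    obtain ⟨k, rfl⟩ := Nat.exists_eq_add_of_le h
    exact hdec n k
  -- orthogonality
  have horth : ∀ n, Q (R n) * R (n + 1) = 0 := by
    intro n
    rw [R1, mul_sub, hQr, (hQp _).isIdempotentElem.eq, sub_self]
  have horth2 : ∀ n m, n < m → Q (R n) * R m = 0 := by
    intro n m h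
    have h1 : R (n + 1) * R m = R m := mul_comm_of_le (hR m).proj (hR (n + 1)).proj (hdec' _ _ h)
    rw [← h1, ← mul_assoc, horth, zero_mul]
  have horth3 : ∀ n m, n < m → Q (R n) * Q (R m) = 0 := by
    intro n m h
    rw [← hQR m, ← mul_assoc, horth2 n m h, zero_mul]
  have horth3' : ∀ n m, n < m → Q (R m) * Q (R n) = 0 := by
    intro n m h
    have := congrArg star (horth3 n m h)
    rwa [star_mul, (hQp _).isSelfAdjoint.star_eq, (hQp _).isSelfAdjoint.star_eq, star_zero] at this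
  have horth2' : ∀ n m, n < m → R m * Q (R n) = 0 := by
    intro n m h
    have := congrArg star (horth2 n m h)
    rwa [star_mul, (hQp _).isSelfAdjoint.star_eq, (hR _).proj.isSelfAdjoint.star_eq, star_zero] at this
  -- sizes
  have hsize : ∀ n, ‖R (n + 1) T.Ω‖ ^ 2 = ‖R n T.Ω‖ ^ 2 - ‖Q (R n) T.Ω‖ ^ 2 := by
    intro n
    rw [R1]
    exact pyth T (hQp _) (hR n).proj (hQr _)
  have hanti : Antitone fun n => ‖R n T.Ω‖ ^ 2 := antitone_nat_of_succ_le fun n => by
    rw [hsize]; nlinarith [sq_nonneg ‖Q (R n) T.Ω‖]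
  have hbdd : BddBelow (Set.range fun n => ‖R n T.Ω‖ ^ 2) := ⟨0, by rintro _ ⟨n, rfl⟩; positivity⟩
  have hlim := tendsto_atTop_ciInf hanti hbdd
  set a := ⨅ n, ‖R n T.Ω‖ ^ 2 with ha
  have hQ0 : Tendsto (fun n => ‖Q (R n) T.Ω‖ ^ 2) atTop (𝓝 0) := by
    have h1 := hlim.sub ((tendsto_add_atTop_iff_nat 1).2 hlim)
    rw [sub_self] at h1
    refine h1.congr fun n => ?_
    simp only [hsize]
    ring
  have hcauchy : CauchySeq (fun n => R n T.Ω) := by
    rw [Metric.cauchySeq_iff']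
    intro ε hε
    obtain ⟨N, hN⟩ := Metric.cauchySeq_iff'.1 hlim.cauchySeq (ε ^ 2) (by positivity)
    refine ⟨N, fun n hn => ?_⟩
    have h1 := hN n hn
    rw [Real.dist_eq] at h1
    have h2 := pyth T (hR n).proj (hR N).proj (hdec' N n hn)
    have h3 : ‖R N T.Ω - R n T.Ω‖ ^ 2 < ε ^ 2 := by
      have e : R N T.Ω - R n T.Ω = (R N - R n) T.Ω := rfl
      rw [e, h2]
      rw [abs_sub_comm] at h1
      exact (le_abs_self _).trans_lt h1
    rw [dist_comm, dist_eq_norm]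
    exact lt_of_pow_lt_pow_left₀ 2 hε.le h3
  obtain ⟨ρ, hρS, -, hρ⟩ := T.complete R (fun n => (hR n).mem) (fun n => (hR n).proj.norm_le) hcauchy
  have hρp : IsStarProjection ρ := T.proj_of_tendsto (fun n => (hR n).mem) (fun n => (hR n).proj) hρS hρ
  have hρR : ∀ n, ρ * R n = ρ := by
    intro n
    have h1 : Tendsto (fun m => (R m * R n) T.Ω) atTop (𝓝 ((ρ * R n) T.Ω)) :=
      T.tendsto_mul (fun m => (hR m).mem) (fun _ => (hR n).mem) hρS (hR n).mem (fun m => (hR m).proj.norm_le) hρ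
        tendsto_const_nhds
    refine T.eq_of_apply (mul_mem hρS (hR n).mem) hρS (tendsto_nhds_unique h1 (hρ.congr' ?_))
    filter_upwards [eventually_ge_atTop n] with m hm
    rw [hdec' n m hm]
  have hρ0 : ρ = 0 := by
    by_contra hne
    obtain ⟨q, hq, hqp, hq0, hqρ, hqA⟩ := hA ρ hρS hρp hne (by rw [← R0]; exact hρR 0)
    have h1 : ∀ n, ‖q T.Ω‖ ^ 2 ≤ 2 * ‖Q (R n) T.Ω‖ ^ 2 := by
      intro n
      refine hQm (R n) q hq hqp ?_ hqA
      calc q * R n = q * ρ * R n := by rw [hqρ]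
        _ = q * (ρ * R n) := mul_assoc _ _ _
        _ = q := by rw [hρR, hqρ]
    have h2 : ‖q T.Ω‖ ^ 2 ≤ 2 * 0 := ge_of_tendsto' (hQ0.const_mul 2) h1
    have h3 := norm_pos T hq hq0
    nlinarith [pow_pos h3 2]
  have hR0 : Tendsto (fun n => ‖R n T.Ω‖ ^ 2) atTop (𝓝 0) := by
    have := (hρ.norm).pow 2
    simpa [hρ0] using this
  obtain ⟨k, hk⟩ := (hR0.eventually (gt_mem_nhds hδ)).exists
  -- the partition
  have hsum : ∀ n, ∑ i ∈ Finset.range n, Q (R i) + R n = p := by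
    intro n
    induction n with
    | zero => simp [R0]
    | succ n ih => rw [Finset.sum_range_succ, R1, ← ih]; abel
  let q : Fin (k + 1) → H →L[ℂ] H := fun j => if (j : ℕ) < k then Q (R j) else R k
  have hq1 : ∀ j : Fin k, q j.castSucc = Q (R j) := fun j => by simp [q]
  have hq2 : q (Fin.last k) = R k := by simp [q]
  refine ⟨k, q, ⟨?_, ?_, ?_, ?_⟩, ?_, ?_⟩
  · intro j
    by_cases h : (j : ℕ) < k
    · simp only [q, h, if_true]; exact hQS _
    · simp only [q, h, if_false]; exact (hR k).mem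
  · intro j
    by_cases h : (j : ℕ) < k
    · simp only [q, h, if_true]; exact hQp _
    · simp only [q, h, if_false]; exact (hR k).proj
  · intro i j hij
    have hij' : (i : ℕ) ≠ j := fun h => hij (Fin.ext h)
    by_cases hi : (i : ℕ) < k <;> by_cases hj : (j : ℕ) < k
    · simp only [q, hi, hj, if_true]
      rcases lt_or_gt_of_ne hij' with h | h
      · exact horth3 _ _ h
      · exact horth3' _ _ h
    · simp only [q, hi, hj, if_true, if_false]
      exact horth2 _ _ hi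
    · simp only [q, hi, hj, if_true, if_false]
      exact horth2' _ _ hj
    · exfalso; have := i.2; have := j.2; omega
  · rw [Fin.sum_univ_castSucc, hq2]
    simp only [hq1]
    rw [← hsum k, Finset.sum_range]
  · intro j
    rw [hq1]
    exact hQA _
  · rw [hq2]; exact hk.le

/-- Small subprojections. -/
theorem small (T : TVN H) (hT : T.NoMin) {r : H →L[ℂ] H} (hr : r ∈ T.S) (hrp : IsStarProjection r) (hr0 : r ≠ 0)
    {η : ℝ} (hη : 0 < η) : ∃ q ∈ T.S, IsStarProjection q ∧ q ≠ 0 ∧ q * r = q ∧ ‖q T.Ω‖ ^ 2 ≤ η := by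
  have key : ∀ n : ℕ, ∃ q ∈ T.S, IsStarProjection q ∧ q ≠ 0 ∧ q * r = q ∧ ‖q T.Ω‖ ^ 2 ≤ (1 / 2) ^ n := by
    intro n
    induction n with
    | zero =>
      refine ⟨r, hr, hrp, hr0, hrp.isIdempotentElem.eq, ?_⟩
      have h1 : ‖r T.Ω‖ ≤ 1 := (T.norm_le r).trans hrp.norm_le
      simp only [pow_zero]
      nlinarith [norm_nonneg (r T.Ω)]
    | succ n ih =>
      obtain ⟨q, hq, hqp, hq0, hqr, hqn⟩ := ih
      obtain ⟨s, hs, hsp, hs0, hsq, hsm⟩ := hT q hq hqp hq0
      have h1 := pyth T hsp hqp hsm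
      have hsr : s * r = s := by
        calc s * r = s * q * r := by rw [hsm]
          _ = s * (q * r) := mul_assoc _ _ _
          _ = s := by rw [hqr, hsm]
      rcases le_total (‖s T.Ω‖ ^ 2) (‖(q - s) T.Ω‖ ^ 2) with h | h
      · refine ⟨s, hs, hsp, hs0, hsr, ?_⟩
        rw [pow_succ (1 / 2 : ℝ)]; linarith
      · refine ⟨q - s, sub_mem hq hs, hsp.sub_of_mul_eq_left hqp hsm, sub_ne_zero.2 (Ne.symm hsq), ?_, ?_⟩
        · rw [sub_mul, hqr, hsr]
        · rw [pow_succ (1 / 2 : ℝ)]; linarith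
  obtain ⟨n, hn⟩ := exists_pow_lt_of_lt_one hη (by norm_num : (1 / 2 : ℝ) < 1)
  obtain ⟨q, h1, h2, h3, h4, h5⟩ := key n
  exact ⟨q, h1, h2, h3, h4, h5.trans hn.le⟩

end Divide

open Divide in
theorem divide_proof : Stmt_Divide.{u} := by
  intro H _ _ _ T hT p hp hpp η hη
  obtain ⟨k, q, hq, h1, h2⟩ := exhaust T {q | ‖q T.Ω‖ ^ 2 ≤ η} p hp hpp
    (fun r hr hrp hr0 _ => by
      obtain ⟨q, a1, a2, a3, a4, a5⟩ := small T hT hr hrp hr0 hη
      exact ⟨q, a1, a2, a3, a4, a5⟩) η hη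
  refine ⟨k + 1, q, hq, fun j => ?_⟩
  refine Fin.lastCases h2 (fun j => ?_) j
  rcases h1 j with h | h
  · exact h
  · rw [h]; simp; exact hη.le

end Pool.Agent.OS
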