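import Pool.Agent.OS.Divide

set_option autoImplicit false

/-!
# The core theorem without the assumption on the relative commutant
-/

open Filter Topology
open scoped InnerProductSpace

namespace Pool.Agent.OS

universe u

namespace General

variable {H : Type u} [NormedAddCommGroup H] [InnerProductSpace ℂ H] [CompleteSpace H]

theorem append {T : TVN H} {e₁ e₂ : H →L[ℂ] H} {k₁ k₂ : ℕ} {q₁ : Fin k₁ → H →L[ℂ] H} {q₂ : Fin k₂ → H →L[ℂ] H}
    (h₁ : T.IsPartOf e₁ q₁) (h₂ : T.IsPartOf e₂ q₂) (h : e₁ * e₂ = 0) (h' : e₂ * e₁ = 0) :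
    T.IsPartOf (e₁ + e₂) (Fin.append q₁ q₂) := by
  have o1 : ∀ i j, q₁ i * q₂ j = 0 := by
    intro i j
    calc q₁ i * q₂ j = (q₁ i * e₁) * (e₂ * q₂ j) := by rw [h₁.mul_right, h₂.mul_left]
      _ = q₁ i * (e₁ * e₂) * q₂ j := by simp only [mul_assoc]
      _ = 0 := by rw [h]; simp
  have o2 : ∀ i j, q₂ i * q₁ j = 0 := by
    intro i j
    calc q₂ i * q₁ j = (q₂ i * e₂) * (e₁ * q₁ j) := by rw [h₂.mul_right, h₁.mul_left]
      _ = q₂ i * (e₂ * e₁) * q₁ j := by simp only [mul_assoc]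
      _ = 0 := by rw [h']; simp
  refine ⟨?_, ?_, ?_, ?_⟩
  · intro j
    refine Fin.addCases (fun j => ?_) (fun j => ?_) j
    · rw [Fin.append_left]; exact h₁.mem j
    · rw [Fin.append_right]; exact h₂.mem j
  · intro j
    refine Fin.addCases (fun j => ?_) (fun j => ?_) j
    · rw [Fin.append_left]; exact h₁.proj j
    · rw [Fin.append_right]; exact h₂.proj j
  · intro i j
    refine Fin.addCases (fun i => ?_) (fun i => ?_) i <;> refine Fin.addCases (fun j => ?_) (fun j => ?_) j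
    · intro hij
      rw [Fin.append_left, Fin.append_left]
      exact h₁.orth i j fun h => hij (by rw [h])
    · intro _
      rw [Fin.append_left, Fin.append_right]
      exact o1 i j
    · intro _
      rw [Fin.append_left, Fin.append_right]
      exact o2 i j
    · intro hij
      rw [Fin.append_right, Fin.append_right]
      exact h₂.orth i j fun h => hij (by rw [h])
  · rw [Fin.sum_univ_add]
    simp only [Fin.append_left, Fin.append_right]
    rw [h₁.sum, h₂.sum]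

theorem forall_append {α : Type*} {P : α → Prop} {k₁ k₂ : ℕ} {q₁ : Fin k₁ → α} {q₂ : Fin k₂ → α}
    (h₁ : ∀ j, P (q₁ j)) (h₂ : ∀ j, P (q₂ j)) : ∀ j, P (Fin.append q₁ q₂ j) := by
  intro j
  refine Fin.addCases (fun j => ?_) (fun j => ?_) j
  · rw [Fin.append_left]; exact h₁ j
  · rw [Fin.append_right]; exact h₂ j

theorem concl_zero (T : TVN H) (N : Set (H →L[ℂ] H)) : T.Concl N 0 := by
  intro r x hx δ hδ
  refine ⟨fun _ => 0, fun _ => zero_mem _, fun _ => by simp, fun _ => by simp, fun i => by simp; exact hδ.le,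
    fun η hη => ⟨0, fun j => j.elim0, ⟨fun j => j.elim0, fun j => j.elim0, fun j => j.elim0, by simp⟩,
      fun j => j.elim0, fun _ j => j.elim0⟩⟩

theorem concl_add (T : TVN H) (N : Set (H →L[ℂ] H)) {e₁ e₂ : H →L[ℂ] H} (h : e₁ * e₂ = 0) (h' : e₂ * e₁ = 0)
    (h₁ : T.Concl N e₁) (h₂ : T.Concl N e₂) : T.Concl N (e₁ + e₂) := by
  intro r x hx δ hδ
  obtain ⟨x₁, a1, a2, a3, a4, a5⟩ := h₁ r x hx (δ / 2) (by positivity)
  obtain ⟨x₂, b1, b2, b3, b4, b5⟩ := h₂ r x hx (δ / 2) (by positivity)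
  have c12 : ∀ i, e₁ * x₂ i = 0 := fun i => by rw [← b2 i, ← mul_assoc, h, zero_mul]
  have c21 : ∀ i, e₂ * x₁ i = 0 := fun i => by rw [← a2 i, ← mul_assoc, h', zero_mul]
  have d12 : ∀ i, x₁ i * e₂ = 0 := fun i => by rw [← a3 i, mul_assoc, h, mul_zero]
  have d21 : ∀ i, x₂ i * e₁ = 0 := fun i => by rw [← b3 i, mul_assoc, h', mul_zero]
  refine ⟨fun i => x₁ i + x₂ i, fun i => add_mem (a1 i) (b1 i), ?_, ?_, ?_, ?_⟩
  · intro i
    rw [mul_add, add_mul, add_mul, a2, b2, c12, c21]; simp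
  · intro i
    rw [mul_add, add_mul, add_mul, a3, b3, d12, d21]; simp
  · intro i
    have e : (x₁ i + x₂ i - x i * (e₁ + e₂)) = (x₁ i - x i * e₁) + (x₂ i - x i * e₂) := by
      rw [mul_add]; abel
    rw [e, _root_.add_apply]
    refine (norm_add_le _ _).trans ?_
    linarith [a4 i, b4 i]
  · intro η hη
    obtain ⟨k₁, q₁, p1, s1, m1⟩ := a5 η hη
    obtain ⟨k₂, q₂, p2, s2, m2⟩ := b5 η hη
    refine ⟨k₁ + k₂, Fin.append q₁ q₂, append p1 p2 h h',
      forall_append (P := fun q : H →L[ℂ] H => ‖q T.Ω‖ ^ 2 ≤ η) s1 s2, fun i => ?_⟩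
    refine forall_append (P := fun q : H →L[ℂ] H => (x₁ i + x₂ i) * q = q * (x₁ i + x₂ i)) (fun j => ?_) (fun j => ?_)
    · have f1 : x₂ i * q₁ j = 0 := by rw [← p1.mul_left j, ← mul_assoc, d21, zero_mul]
      have f2 : q₁ j * x₂ i = 0 := by rw [← p1.mul_right j, mul_assoc, c12, mul_zero]
      rw [add_mul, mul_add, f1, f2, m1 i j]
    · have f1 : x₁ i * q₂ j = 0 := by rw [← p2.mul_left j, ← mul_assoc, d12, zero_mul]
      have f2 : q₂ j * x₁ i = 0 := by rw [← p2.mul_right j, mul_assoc, c21, mul_zero]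
      rw [add_mul, mul_add, f1, f2, m2 i j]

theorem concl_sum (T : TVN H) (N : Set (H →L[ℂ] H)) {k : ℕ} (q : ℕ → H →L[ℂ] H)
    (ho : ∀ i j, i < k → j < k → i ≠ j → q i * q j = 0) (hq : ∀ i, i < k → T.Concl N (q i)) :
    T.Concl N (∑ i ∈ Finset.range k, q i) := by
  induction k with
  | zero => simpa using concl_zero T N
  | succ k ih =>
    rw [Finset.sum_range_succ]
    refine concl_add T N ?_ ?_ (ih (fun i j hi hj => ho i j (by omega) (by omega)) fun i hi => hq i (by omega))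
      (hq k (by omega))
    · rw [Finset.sum_mul]
      refine Finset.sum_eq_zero fun i hi => ?_
      have := Finset.mem_range.1 hi
      exact ho i k (by omega) (by omega) (by omega)
    · rw [Finset.mul_sum]
      refine Finset.sum_eq_zero fun i hi => ?_
      have := Finset.mem_range.1 hi
      exact ho k i (by omega) (by omega) (by omega)

/-- Small subprojections, if there are no minimal projections under `e`. -/
theorem small (T : TVN H) {e : H →L[ℂ] H}
    (hT : ∀ p ∈ T.S, IsStarProjection p → p ≠ 0 → p * e = p →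
      ∃ q ∈ T.S, IsStarProjection q ∧ q ≠ 0 ∧ q ≠ p ∧ q * p = q)
    {r : H →L[ℂ] H} (hr : r ∈ T.S) (hrp : IsStarProjection r) (hr0 : r ≠ 0) (hre : r * e = r)
    {η : ℝ} (hη : 0 < η) : ∃ q ∈ T.S, IsStarProjection q ∧ q ≠ 0 ∧ q * r = q ∧ ‖q T.Ω‖ ^ 2 ≤ η := by
  have key : ∀ n : ℕ, ∃ q ∈ T.S, IsStarProjection q ∧ q ≠ 0 ∧ q * r = q ∧ ‖q T.Ω‖ ^ 2 ≤ (1 / 2) ^ n := by
    intro n
    induction n with
    | zero =>
      refine ⟨r, hr, hrp, hr0, hrp.isIdempotentElem.eq, ?_⟩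
      have h1 : ‖r T.Ω‖ ≤ 1 := (T.norm_le r).trans hrp.norm_le
      simp only [pow_zero]
      nlinarith [norm_nonneg (r T.Ω)]
    | succ n ih =>
      obtain ⟨q, hq, hqp, hq0, hqr, hqn⟩ := ih
      have hqe : q * e = q := by
        calc q * e = q * r * e := by rw [hqr]
          _ = q * (r * e) := mul_assoc _ _ _
          _ = q := by rw [hre, hqr]
      obtain ⟨s, hs, hsp, hs0, hsq, hsm⟩ := hT q hq hqp hq0 hqe
      have h1 := Divide.pyth T hsp hqp hsm
      have hsr : s * r = s := by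
        calc s * r = s * q * r := by rw [hsm]
          _ = s * (q * r) := mul_assoc _ _ _
          _ = s := by rw [hqr, hsm]
      rcases le_total (‖s T.Ω‖ ^ 2) (‖(q - s) T.Ω‖ ^ 2) with h | h
      · refine ⟨s, hs, hsp, hs0, hsr, ?_⟩
        rw [pow_succ (1 / 2 : ℝ)]; linarith
      · refine ⟨q - s, sub_mem hq hs, hsp.sub_of_mul_eq_left hqp hsm, sub_ne_zero.2 (Ne.symm hsq), ?_, ?_⟩
        · rw [sub_mul, hqr, hsr]
        · rw [pow_succ (1 / 2 : ℝ)]; linarith
  obtain ⟨n, hn⟩ := exists_pow_lt_of_lt_one hη (by norm_num : (1 / 2 : ℝ) < 1)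
  obtain ⟨q, h1, h2, h3, h4, h5⟩ := key n
  exact ⟨q, h1, h2, h3, h4, h5.trans hn.le⟩

/-- If the relative commutant has no minimal projections under `e`, then `Concl N e`. -/
theorem concl_diffuse (T : TVN H) {N : Set (H →L[ℂ] H)} (hN : T.IsSub N) {e : H →L[ℂ] H} (he : e ∈ T.S)
    (hep : IsStarProjection e) (heN : ∀ x ∈ N, x * e = e * x)
    (hmin : ∀ p ∈ T.S, IsStarProjection p → (∀ x ∈ N, x * p = p * x) → p ≠ 0 → p * e = p →
      ∃ q ∈ T.S, IsStarProjection q ∧ (∀ x ∈ N, x * q = q * x) ∧ q ≠ 0 ∧ q ≠ p ∧ q * p = q) : T.Concl N e := by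
  intro r x hx δ hδ
  refine ⟨fun i => x i * e, fun i => mul_mem (hN.sub _ (hx i)) he, ?_, ?_, ?_, ?_⟩
  · intro i
    rw [← mul_assoc, ← heN _ (hx i), mul_assoc, hep.isIdempotentElem.eq]
  · intro i
    rw [mul_assoc, hep.isIdempotentElem.eq]
  · intro i
    simp; exact hδ.le
  · intro η hη
    let D := T.relComm N hN.sub hN.star
    have hD : ∀ p ∈ D.S, IsStarProjection p → p ≠ 0 → p * e = p →
        ∃ q ∈ D.S, IsStarProjection q ∧ q ≠ 0 ∧ q ≠ p ∧ q * p = q := by
      intro p hp hpp hp0 hpe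
      obtain ⟨q, a1, a2, a3, a4, a5, a6⟩ := hmin p hp.1 hpp hp.2 hp0 hpe
      exact ⟨q, ⟨a1, a3⟩, a2, a4, a5, a6⟩
    obtain ⟨k, q, hq, h1, h2⟩ := Divide.exhaust D {q | ‖q D.Ω‖ ^ 2 ≤ η} e ⟨he, heN⟩ hep
      (fun r hr hrp hr0 hre => by
        obtain ⟨q, a1, a2, a3, a4, a5⟩ := small D hD hr hrp hr0 hre hη
        exact ⟨q, a1, a2, a3, a4, a5⟩) η hη
    refine ⟨k + 1, q, ⟨fun j => (hq.mem j).1, hq.proj, hq.orth, hq.sum⟩, fun j => ?_, fun i j => ?_⟩
    · refine Fin.lastCases h2 (fun j => ?_) j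
      rcases h1 j with h | h
      · exact h
      · rw [h]; simp; exact hη.le
    · have e1 : e * q j = q j := hq.mul_left j
      have e2 : q j * e = q j := hq.mul_right j
      have e3 := (hq.mem j).2 _ (hx i)
      calc x i * e * q j = x i * (e * q j) := mul_assoc _ _ _
        _ = x i * q j := by rw [e1]
        _ = x i * (q j * e) := by rw [e2]
        _ = x i * q j * e := (mul_assoc _ _ _).symm
        _ = q j * x i * e := by rw [e3]
        _ = q j * (x i * e) := mul_assoc _ _ _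

end General

open General in
theorem general_proof (hCC : Stmt_CornerCore.{u}) : Stmt_General.{u} := by
  intro H _ _ _ T N hN hT hSP
  -- every nonzero projection of the relative commutant has a nonzero good subprojection
  let D := T.relComm N hN.sub hN.star
  have hgood : ∀ r ∈ D.S, IsStarProjection r → r ≠ 0 → r * 1 = r →
      ∃ q ∈ D.S, IsStarProjection q ∧ q ≠ 0 ∧ q * r = q ∧ q ∈ {q | T.Concl N q} := by
    intro r hr hrp hr0 _
    by_cases hmin : ∀ p ∈ T.S, IsStarProjection p → (∀ x ∈ N, x * p = p * x) → p ≠ 0 → p * r = p →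
      ∃ q ∈ T.S, IsStarProjection q ∧ (∀ x ∈ N, x * q = q * x) ∧ q ≠ 0 ∧ q ≠ p ∧ q * p = q
    · exact ⟨r, hr, hrp, hr0, hrp.isIdempotentElem.eq, concl_diffuse T hN hr.1 hrp hr.2 hmin⟩
    · push Not at hmin
      obtain ⟨p, hp, hpp, hpN, hp0, hpr, hpm⟩ := hmin
      refine ⟨p, ⟨hp, hpN⟩, hpp, hp0, hpr, ?_⟩
      refine hCC H T N hN p hp hpp hp0 hpN (fun q hq hqp hqN hqe => ?_) (hSP p hp hpp hp0 hpN)
      by_contra hcon
      push Not at hcon
      exact hpm q hq hqp hqN hcon.1 hcon.2 hqe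
  intro r x hx δ hδ
  -- a bound for the norms
  obtain ⟨C, hC0, hC⟩ : ∃ C : ℝ, 0 < C ∧ ∀ i, ‖x i‖ ≤ C := by
    refine ⟨∑ i, ‖x i‖ + 1, by positivity, fun i => ?_⟩
    have := Finset.single_le_sum (f := fun i => ‖x i‖) (fun j _ => norm_nonneg _) (Finset.mem_univ i)
    linarith
  have hδ' : 0 < (δ / (2 * C)) ^ 2 := by positivity
  obtain ⟨k, q, hq, h1, h2⟩ := Divide.exhaust D {q | T.Concl N q} 1 (one_mem _) (.one _) hgood
    ((δ / (2 * C)) ^ 2) hδ'
  set f := q (Fin.last k) with hf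
  have hfp : IsStarProjection f := hq.proj _
  have hfS : f ∈ T.S := (hq.mem _).1
  have hef : (1 - f) * f = 0 := hfp.one_sub_mul_self
  have hfe : f * (1 - f) = 0 := hfp.mul_one_sub_self
  have hsum : ∑ j : Fin k, q j.castSucc = 1 - f := by
    have := hq.sum
    rw [Fin.sum_univ_castSucc] at this
    rw [← this, hf]; abel
  have he : T.Concl N (1 - f) := by
    let q' : ℕ → H →L[ℂ] H := fun i => if h : i < k then q (Fin.castSucc ⟨i, h⟩) else 0
    have e1 : ∑ i ∈ Finset.range k, q' i = 1 - f := by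
      rw [← hsum, Finset.sum_range]
      refine Finset.sum_congr rfl fun i _ => ?_
      have : q' i = q (Fin.castSucc ⟨i, i.2⟩) := dif_pos i.2
      rw [this]
    rw [← e1]
    refine concl_sum T N q' (fun i j hi hj hij => ?_) (fun i hi => ?_)
    · simp only [q', hi, hj, dif_pos]
      exact hq.orth _ _ fun h => hij (by simpa using h)
    · simp only [q', hi, dif_pos]
      rcases h1 ⟨i, hi⟩ with h | h
      · exact h
      · rw [h]; exact concl_zero T N
  obtain ⟨x', a1, a2, a3, a4, a5⟩ := he r x hx (δ / 2) (by positivity)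
  refine ⟨x', a1, fun i => by simp, fun i => by simp, fun i => ?_, fun η hη => ?_⟩
  · have e : x' i - x i * 1 = (x' i - x i * (1 - f)) - x i * f := by
      rw [mul_sub]; abel
    rw [e, _root_.sub_apply]
    refine (norm_sub_le _ _).trans ?_
    have n1 : ‖(x i * f) T.Ω‖ ≤ C * ‖f T.Ω‖ :=
      (T.norm_mul_le _ _).trans (mul_le_mul_of_nonneg_right (hC i) (norm_nonneg _))
    have n2 : ‖f T.Ω‖ ≤ δ / (2 * C) := by
      have : ‖f T.Ω‖ ^ 2 ≤ (δ / (2 * C)) ^ 2 := h2
      exact (pow_le_pow_iff_left₀ (norm_nonneg _) (by positivity) two_ne_zero).1 this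
    have n3 : C * ‖f T.Ω‖ ≤ δ / 2 := by
      calc C * ‖f T.Ω‖ ≤ C * (δ / (2 * C)) := mul_le_mul_of_nonneg_left n2 hC0.le
        _ = δ / 2 := by field_simp
    linarith [a4 i]
  · obtain ⟨k₁, q₁, p1, s1, m1⟩ := a5 η hη
    obtain ⟨k₂, q₂, p2, s2⟩ := divide_proof H T hT f hfS hfp η hη
    refine ⟨k₁ + k₂, Fin.append q₁ q₂, ?_, forall_append (P := fun q : H →L[ℂ] H => ‖q T.Ω‖ ^ 2 ≤ η) s1 s2, fun i => ?_⟩
    · have := append p1 p2 hef hfe
      rwa [sub_add_cancel] at this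
    · refine forall_append (P := fun q : H →L[ℂ] H => x' i * q = q * x' i) (fun j => m1 i j) (fun j => ?_)
      have f1 : x' i * q₂ j = 0 := by
        rw [← p2.mul_left j, ← a3 i, mul_assoc, ← mul_assoc (1 - f), hef, zero_mul, mul_zero]
      have f2 : q₂ j * x' i = 0 := by
        rw [← p2.mul_right j, ← a2 i, mul_assoc, ← mul_assoc f, hfe, zero_mul, mul_zero]
      rw [f1, f2]

end Pool.Agent.OS
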