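import Pool.Agent.OS.Stmts
import Pool.Agent.OS.Basic

set_option autoImplicit false

open Filter Topology
open scoped InnerProductSpace

namespace Pool.Agent.OS

universe u

namespace Indep

variable {H : Type u} [NormedAddCommGroup H] [InnerProductSpace ℂ H] [CompleteSpace H]

/-- `y` almost commutes with the projections which almost commute with `N` -/
def GP (T : TVN H) (N : Set (H →L[ℂ] H)) (y : H →L[ℂ] H) : Prop :=
  ∀ d > 0, ∃ (F : Finset (H →L[ℂ] H)) (ε : ℝ), 0 < ε ∧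
    ∀ p ∈ T.S, IsStarProjection p → T.Near N F ε p → ‖(y * p - p * y) T.Ω‖ ≤ d

/-- combination of two `Near` conditions -/
lemma near_union {T : TVN H} {N : Set (H →L[ℂ] H)} {F F' : Finset (H →L[ℂ] H)} {ε ε' : ℝ}
    {p : H →L[ℂ] H} [DecidableEq (H →L[ℂ] H)] (h : T.Near N (F ∪ F') (min ε ε') p) :
    T.Near N F ε p ∧ T.Near N F' ε' p :=
  ⟨TVN.Near.mono h Finset.subset_union_left (min_le_left _ _),
    TVN.Near.mono h Finset.subset_union_right (min_le_right _ _)⟩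

/-- a convexity principle: two conditions can be met at once -/
lemma two {T : TVN H} {N : Set (H →L[ℂ] H)} {P Q : (H →L[ℂ] H) → Prop}
    (h1 : ∃ (F : Finset (H →L[ℂ] H)) (ε : ℝ), 0 < ε ∧
      ∀ p ∈ T.S, IsStarProjection p → T.Near N F ε p → P p)
    (h2 : ∃ (F : Finset (H →L[ℂ] H)) (ε : ℝ), 0 < ε ∧
      ∀ p ∈ T.S, IsStarProjection p → T.Near N F ε p → Q p) :
    ∃ (F : Finset (H →L[ℂ] H)) (ε : ℝ), 0 < ε ∧
      ∀ p ∈ T.S, IsStarProjection p → T.Near N F ε p → P p ∧ Q p := by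
  classical
  obtain ⟨F, ε, hε, h⟩ := h1
  obtain ⟨F', ε', hε', h'⟩ := h2
  refine ⟨F ∪ F', min ε ε', lt_min hε hε', fun p hp hpp hn => ?_⟩
  obtain ⟨a, b⟩ := near_union hn
  exact ⟨h p hp hpp a, h' p hp hpp b⟩

lemma mono' {T : TVN H} {N : Set (H →L[ℂ] H)} {P Q : (H →L[ℂ] H) → Prop}
    (h1 : ∃ (F : Finset (H →L[ℂ] H)) (ε : ℝ), 0 < ε ∧
      ∀ p ∈ T.S, IsStarProjection p → T.Near N F ε p → P p)
    (h2 : ∀ p ∈ T.S, IsStarProjection p → P p → Q p) :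
    ∃ (F : Finset (H →L[ℂ] H)) (ε : ℝ), 0 < ε ∧
      ∀ p ∈ T.S, IsStarProjection p → T.Near N F ε p → Q p := by
  obtain ⟨F, ε, hε, h⟩ := h1
  exact ⟨F, ε, hε, fun p hp hpp hn => h2 p hp hpp (h p hp hpp hn)⟩

lemma gp_add {T : TVN H} {N : Set (H →L[ℂ] H)} {y z : H →L[ℂ] H} (hy : GP T N y)
    (hz : GP T N z) : GP T N (y + z) := by
  intro d hd
  refine mono' (two (hy (d / 2) (half_pos hd)) (hz (d / 2) (half_pos hd))) fun p hp hpp h => ?_
  have e : ((y + z) * p - p * (y + z)) T.Ω =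
      (y * p - p * y) T.Ω + (z * p - p * z) T.Ω := by
    rw [← _root_.add_apply]
    congr 1
    noncomm_ring
  rw [e]
  linarith [norm_add_le ((y * p - p * y) T.Ω) ((z * p - p * z) T.Ω), h.1, h.2]

lemma gp_mul {T : TVN H} {N : Set (H →L[ℂ] H)} {y z : H →L[ℂ] H} (hyS : y ∈ T.S)
    (hzS : z ∈ T.S) (hy : GP T N y) (hz : GP T N z) : GP T N (y * z) := by
  intro d hd
  have h1 : 0 < ‖y‖ + 1 := by positivity
  have h2 : 0 < ‖z‖ + 1 := by positivity
  refine mono' (two (hy (d / 2 / (‖z‖ + 1)) (by positivity))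
    (hz (d / 2 / (‖y‖ + 1)) (by positivity))) fun p hp hpp h => ?_
  have e : ((y * z) * p - p * (y * z)) T.Ω =
      (y * (z * p - p * z)) T.Ω + ((y * p - p * y) * z) T.Ω := by
    rw [← _root_.add_apply]
    congr 1
    noncomm_ring
  rw [e]
  have a1 := T.norm_mul_le y (z * p - p * z)
  have a2 := T.norm_mul_right (sub_mem (mul_mem hyS hp) (mul_mem hp hyS)) hzS
  have b1 : ‖y‖ * ‖(z * p - p * z) T.Ω‖ ≤ d / 2 := by
    calc _ ≤ (‖y‖ + 1) * (d / 2 / (‖y‖ + 1)) :=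
          mul_le_mul (by linarith) h.2 (norm_nonneg _) h1.le
      _ = d / 2 := by field_simp
  have b2 : ‖z‖ * ‖(y * p - p * y) T.Ω‖ ≤ d / 2 := by
    calc _ ≤ (‖z‖ + 1) * (d / 2 / (‖z‖ + 1)) :=
          mul_le_mul (by linarith) h.1 (norm_nonneg _) h2.le
      _ = d / 2 := by field_simp
  linarith [norm_add_le ((y * (z * p - p * z)) T.Ω) (((y * p - p * y) * z) T.Ω)]

lemma gp_star {T : TVN H} {N : Set (H →L[ℂ] H)} {y : H →L[ℂ] H} (hyS : y ∈ T.S)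
    (hy : GP T N y) : GP T N (star y) := by
  intro d hd
  refine mono' (hy d hd) fun p hp hpp h => ?_
  have e : star y * p - p * star y = star (p * y - y * p) := by
    rw [star_sub, star_mul, star_mul, hpp.isSelfAdjoint.star_eq]
  rw [e, T.norm_star (sub_mem (mul_mem hp hyS) (mul_mem hyS hp)), ← neg_sub (y * p),
    _root_.neg_apply, norm_neg]
  exact h

lemma gp_scalar {T : TVN H} {N : Set (H →L[ℂ] H)} (c : ℂ) :
    GP T N (algebraMap ℂ (H →L[ℂ] H) c) := by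
  intro d hd
  refine ⟨∅, 1, one_pos, fun p hp hpp h => ?_⟩
  rw [Algebra.algebraMap_eq_smul_one]
  simpa using hd.le

lemma gp_mem {T : TVN H} {N : Set (H →L[ℂ] H)} {y : H →L[ℂ] H} (hy : y ∈ N) : GP T N y := by
  intro d hd
  exact ⟨{y}, d, hd, fun p hp hpp h => h y (by simp) hy⟩

lemma gp_closed {T : TVN H} {N : Set (H →L[ℂ] H)} {y : H →L[ℂ] H}
    (h : ∀ η > 0, ∃ z ∈ T.S, GP T N z ∧ ‖y - z‖ ≤ η) : GP T N y := by
  intro d hd
  obtain ⟨z, hzS, hz, hyz⟩ := h (d / 4) (by positivity)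
  refine mono' (hz (d / 2) (half_pos hd)) fun p hp hpp h => ?_
  have e : (y * p - p * y) T.Ω =
      (z * p - p * z) T.Ω + (((y - z) * p) T.Ω - (p * (y - z)) T.Ω) := by
    rw [← _root_.sub_apply, ← _root_.add_apply]
    congr 1
    noncomm_ring
  rw [e]
  have hp1 : ‖p‖ ≤ 1 := hpp.norm_le
  have hpO : ‖p T.Ω‖ ≤ 1 := (T.norm_le p).trans hp1
  have a1 : ‖((y - z) * p) T.Ω‖ ≤ d / 4 := by
    refine (T.norm_mul_le _ _).trans ?_
    calc _ ≤ (d / 4) * 1 := mul_le_mul hyz hpO (norm_nonneg _) (by positivity)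
      _ = d / 4 := mul_one _
  have a2 : ‖(p * (y - z)) T.Ω‖ ≤ d / 4 := by
    refine (T.norm_mul_le _ _).trans ?_
    calc _ ≤ 1 * (d / 4) := mul_le_mul hp1 ((T.norm_le _).trans hyz) (norm_nonneg _) one_pos.le
      _ = d / 4 := one_mul _
  have := norm_add_le ((z * p - p * z) T.Ω) (((y - z) * p) T.Ω - (p * (y - z)) T.Ω)
  have := norm_sub_le (((y - z) * p) T.Ω) ((p * (y - z)) T.Ω)
  linarith

/-- the `C*`-algebra of the elements almost commuting with the almost commuting projections -/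
def G (T : TVN H) (N : Set (H →L[ℂ] H)) : StarSubalgebra ℂ (H →L[ℂ] H) where
  carrier := {y | y ∈ T.S ∧ GP T N y}
  mul_mem' := fun {a b} ha hb => ⟨mul_mem ha.1 hb.1, gp_mul ha.1 hb.1 ha.2 hb.2⟩
  one_mem' := ⟨one_mem _, by simpa using gp_scalar (T := T) (N := N) 1⟩
  add_mem' := fun {a b} ha hb => ⟨add_mem ha.1 hb.1, gp_add ha.2 hb.2⟩
  zero_mem' := ⟨zero_mem _, by simpa using gp_scalar (T := T) (N := N) 0⟩
  algebraMap_mem' := fun r => ⟨algebraMap_mem _ r, gp_scalar r⟩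
  star_mem' := fun {a} ha => ⟨star_mem ha.1, gp_star ha.1 ha.2⟩

lemma mem_G {T : TVN H} {N : Set (H →L[ℂ] H)} {y : H →L[ℂ] H} :
    y ∈ G T N ↔ y ∈ T.S ∧ GP T N y := Iff.rfl

lemma G_closed (T : TVN H) (N : Set (H →L[ℂ] H)) : IsClosed (G T N : Set (H →L[ℂ] H)) := by
  refine isClosed_of_closure_subset fun y hy => ?_
  have hyS : y ∈ T.S := by
    have : closure (G T N : Set (H →L[ℂ] H)) ⊆ closure (T.S : Set (H →L[ℂ] H)) :=
      closure_mono fun z hz => hz.1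
    have h2 := this hy
    rwa [T.closed.closure_eq] at h2
  refine ⟨hyS, gp_closed fun η hη => ?_⟩
  obtain ⟨z, hz, hd⟩ := Metric.mem_closure_iff.1 hy η hη
  exact ⟨z, hz.1, hz.2, by rw [← dist_eq_norm]; exact hd.le⟩

/-- an element commuting with the unitaries of a closed `*`-subalgebra commutes with it -/
lemma comm_of_unitary (A : StarSubalgebra ℂ (H →L[ℂ] H)) (hA : IsClosed (A : Set (H →L[ℂ] H)))
    (k : H →L[ℂ] H) (h : ∀ w ∈ A, w ∈ unitary (H →L[ℂ] H) → w * k = k * w) :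
    ∀ x ∈ A, x * k = k * x := by
  have : IsClosed (A : Set (H →L[ℂ] H)) := hA
  intro x hx
  have hs : (⟨x, hx⟩ : A) ∈ Submodule.span ℂ (unitary A : Set A) := by
    rw [CStarAlgebra.span_unitary]
    trivial
  have key : ∀ z : A, z ∈ Submodule.span ℂ (unitary A : Set A) →
      (z : H →L[ℂ] H) * k = k * (z : H →L[ℂ] H) := by
    intro z hz
    induction hz using Submodule.span_induction with
    | mem w hw =>
      refine h w w.2 ?_
      rw [SetLike.mem_coe, Unitary.mem_iff] at hw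
      rw [Unitary.mem_iff]
      exact ⟨by simpa using congrArg (Subtype.val) hw.1, by simpa using congrArg (Subtype.val) hw.2⟩
    | zero => simp
    | add a b _ _ ha hb => simp [add_mul, mul_add, ha, hb]
    | smul c a _ ha => simp [ha]
  exact key ⟨x, hx⟩ hs

/-- the vectors which compute `tr (p a)` asymptotically -/
def AP (T : TVN H) (N : Set (H →L[ℂ] H)) (a : H →L[ℂ] H) (ξ : H) : Prop :=
  ∀ d > 0, ∃ (F : Finset (H →L[ℂ] H)) (ε : ℝ), 0 < ε ∧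
    ∀ p ∈ T.S, IsStarProjection p → T.Near N F ε p → ‖T.tr (p * a) - ⟪p T.Ω, ξ⟫_ℂ‖ ≤ d

lemma ap_conj {T : TVN H} {N : Set (H →L[ℂ] H)} {a w : H →L[ℂ] H} (ha : a ∈ T.S)
    (hw : w ∈ G T N) (hu : w ∈ unitary (H →L[ℂ] H)) : AP T N a ((w * a * star w) T.Ω) := by
  intro d hd
  have h1 : 0 < ‖a‖ + 1 := by positivity
  refine mono' (hw.2 (d / (‖a‖ + 1)) (by positivity)) fun p hp hpp h => ?_
  have hwS := hw.1
  have e1 : ⟪p T.Ω, (w * a * star w) T.Ω⟫_ℂ = T.tr (star w * p * w * a) := by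
    rw [← T.tr_star_mul, hpp.isSelfAdjoint.star_eq]
    have : p * (w * a * star w) = (p * w * a) * star w := by simp [mul_assoc]
    rw [this, T.tr_mul_comm (mul_mem (mul_mem hp hwS) ha) (star_mem hwS)]
    simp [mul_assoc]
  rw [e1, ← T.tr_sub, ← sub_mul]
  have hS : p - star w * p * w ∈ T.S :=
    sub_mem hp (mul_mem (mul_mem (star_mem hwS) hp) hwS)
  refine (T.norm_tr_le _).trans ((T.norm_mul_right hS ha).trans ?_)
  have e2 : ‖(p - star w * p * w) T.Ω‖ = ‖(w * p - p * w) T.Ω‖ := by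
    have := T.norm_conj_sub (x := p) hu
    rw [← neg_sub (star w * p * w) p, _root_.neg_apply, norm_neg, this,
      ← neg_sub (w * p), _root_.neg_apply, norm_neg]
  rw [e2]
  calc ‖a‖ * ‖(w * p - p * w) T.Ω‖ ≤ (‖a‖ + 1) * (d / (‖a‖ + 1)) :=
        mul_le_mul (by linarith) h (norm_nonneg _) h1.le
    _ = d := by field_simp

lemma ap_convex (T : TVN H) (N : Set (H →L[ℂ] H)) (a : H →L[ℂ] H) :
    Convex ℝ {ξ | AP T N a ξ} := by
  intro ξ hξ ζ hζ s t hs ht hst d hd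
  refine mono' (two (hξ d hd) (hζ d hd)) fun p hp hpp h => ?_
  have e : T.tr (p * a) - ⟪p T.Ω, s • ξ + t • ζ⟫_ℂ =
      (s : ℂ) * (T.tr (p * a) - ⟪p T.Ω, ξ⟫_ℂ) + (t : ℂ) * (T.tr (p * a) - ⟪p T.Ω, ζ⟫_ℂ) := by
    have e1 : ⟪p T.Ω, s • ξ + t • ζ⟫_ℂ = (s : ℂ) * ⟪p T.Ω, ξ⟫_ℂ + (t : ℂ) * ⟪p T.Ω, ζ⟫_ℂ := by
      rw [inner_add_right]
      congr 1
      · rw [← Complex.coe_smul, inner_smul_right]
      · rw [← Complex.coe_smul, inner_smul_right]
    have e2 : (s : ℂ) + (t : ℂ) = 1 := by exact_mod_cast hst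
    rw [e1]
    linear_combination (-T.tr (p * a)) * e2
  rw [e]
  refine (norm_add_le _ _).trans ?_
  rw [norm_mul, norm_mul, Complex.norm_real, Complex.norm_real, Real.norm_eq_abs,
    Real.norm_eq_abs, abs_of_nonneg hs, abs_of_nonneg ht]
  have a1 := mul_le_mul_of_nonneg_left h.1 hs
  have a2 := mul_le_mul_of_nonneg_left h.2 ht
  have a3 : s * d + t * d = d := by rw [← add_mul, hst, one_mul]
  linarith

lemma ap_closed (T : TVN H) (N : Set (H →L[ℂ] H)) (a : H →L[ℂ] H) :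
    IsClosed {ξ | AP T N a ξ} := by
  refine isClosed_of_closure_subset fun ξ hξ d hd => ?_
  obtain ⟨ζ, hζ, hdist⟩ := Metric.mem_closure_iff.1 hξ (d / 2) (half_pos hd)
  refine mono' (hζ (d / 2) (half_pos hd)) fun p hp hpp h => ?_
  have e : T.tr (p * a) - ⟪p T.Ω, ξ⟫_ℂ =
      (T.tr (p * a) - ⟪p T.Ω, ζ⟫_ℂ) - ⟪p T.Ω, ξ - ζ⟫_ℂ := by
    rw [inner_sub_right]
    ring
  rw [e]
  have a1 : ‖⟪p T.Ω, ξ - ζ⟫_ℂ‖ ≤ d / 2 := by
    refine (norm_inner_le_norm _ _).trans ?_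
    have : ‖ξ - ζ‖ ≤ d / 2 := by rw [← dist_eq_norm]; exact hdist.le
    calc _ ≤ 1 * (d / 2) :=
          mul_le_mul ((T.norm_le p).trans hpp.norm_le) this (norm_nonneg _) one_pos.le
      _ = d / 2 := one_mul _
  linarith [norm_sub_le (T.tr (p * a) - ⟪p T.Ω, ζ⟫_ℂ) ⟪p T.Ω, ξ - ζ⟫_ℂ]

end Indep

open Indep in
theorem indep_proof (hAvg : Stmt_Avg.{u}) : Stmt_Indep.{u} := by
  intro H _ _ _ T N hN hT a ha δ hδ
  let V : PUnit.{u + 1} → Set (H →L[ℂ] H) := fun _ => {w | w ∈ G T N ∧ w ∈ unitary (H →L[ℂ] H)}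
  obtain ⟨k, hkS, -, hk, hkc⟩ := hAvg H T PUnit.{u + 1} V
    (fun _ w hw => ⟨hw.1.1, hw.2⟩) (fun _ => ⟨one_mem _, one_mem _⟩)
    (fun _ _ => ⟨PUnit.unit, subset_rfl, subset_rfl⟩)
    (fun _ => ⟨PUnit.unit, fun v hv w hw => ⟨mul_mem hv.1 hw.1, mul_mem hv.2 hw.2⟩⟩) a ha
  have hcomm : ∀ w ∈ G T N, w ∈ unitary (H →L[ℂ] H) → w * k = k * w := by
    intro w hw hu
    refine T.eq_of_norm_sub (mul_mem hw.1 hkS) (mul_mem hkS hw.1) ?_
    refine le_antisymm (le_of_forall_pos_le_add fun e he => ?_) (norm_nonneg _)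
    obtain ⟨_, hl⟩ := hkc e he
    simpa using hl w ⟨hw, hu⟩
  have hcomm2 := comm_of_unitary (G T N) (G_closed T N) k hcomm
  obtain ⟨c, hc⟩ := hT k hkS fun x hx => hcomm2 x ⟨hN.sub x hx, gp_mem hx⟩
  -- `c` is the trace
  have hcl := hk PUnit.unit
  have htr : ⟪T.Ω, k T.Ω⟫_ℂ = T.tr a := by
    have hset : {ξ : H | ∃ w ∈ V PUnit.unit, ξ = (w * a * star w) T.Ω} ⊆
        {ξ : H | ⟪T.Ω, ξ⟫_ℂ = T.tr a} := by
      rintro _ ⟨w, hw, rfl⟩
      change T.tr (w * a * star w) = T.tr a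
      rw [T.tr_mul_comm (mul_mem hw.1.1 ha) (star_mem hw.1.1), ← mul_assoc,
        (Unitary.mem_iff.1 hw.2).1, one_mul]
    have hconv : Convex ℝ {ξ : H | ⟪T.Ω, ξ⟫_ℂ = T.tr a} := by
      intro ξ hξ ζ hζ s t hs ht hst
      change ⟪T.Ω, s • ξ + t • ζ⟫_ℂ = T.tr a
      have e2 : (s : ℂ) + (t : ℂ) = 1 := by exact_mod_cast hst
      have h1 : ⟪T.Ω, ξ⟫_ℂ = T.tr a := hξ
      have h2 : ⟪T.Ω, ζ⟫_ℂ = T.tr a := hζ
      rw [inner_add_right, ← Complex.coe_smul, ← Complex.coe_smul, inner_smul_right,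
        inner_smul_right, h1, h2, ← add_mul, e2, one_mul]
    have hclo : IsClosed {ξ : H | ⟪T.Ω, ξ⟫_ℂ = T.tr a} :=
      isClosed_eq (by fun_prop) continuous_const
    exact closure_minimal (convexHull_min hset hconv) hclo hcl
  have hctr : c = T.tr a := by
    rw [← htr, hc]
    have := T.tr_one
    simp only [TVN.tr, one_apply_eq_self] at this
    rw [_root_.smul_apply, one_apply_eq_self, inner_smul_right, this, mul_one]
  -- `k Ω` computes `tr (p a)`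
  have hAP : AP T N a (k T.Ω) := by
    have hset : {ξ : H | ∃ w ∈ V PUnit.unit, ξ = (w * a * star w) T.Ω} ⊆ {ξ | AP T N a ξ} := by
      rintro _ ⟨w, hw, rfl⟩
      exact ap_conj ha hw.1 hw.2
    exact closure_minimal (convexHull_min hset (ap_convex T N a)) (ap_closed T N a) hcl
  obtain ⟨F, ε, hε, h⟩ := hAP δ hδ
  refine ⟨F, ε, hε, fun p hp hpp hn => ?_⟩
  have h1 := h p hp hpp hn
  have e : ⟪p T.Ω, k T.Ω⟫_ℂ = T.tr p * T.tr a := by
    rw [← T.tr_star_mul, hpp.isSelfAdjoint.star_eq, hc, mul_smul_comm, mul_one, T.tr_smul, hctr,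
      mul_comm]
  rwa [e] at h1

end Pool.Agent.OS

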