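import Pool.Agent.OS.Stmts

set_option autoImplicit false

/-!
# Elliott intertwining (module Inter of MP_7c16f6_an)
-/

open Filter Topology
open scoped InnerProductSpace

namespace Pool.Agent.OS

universe u

namespace Inter

variable {H : Type u} [NormedAddCommGroup H] [InnerProductSpace ℂ H] [CompleteSpace H]
  {T : TVN H}

lemma norm_star_Om {x : H →L[ℂ] H} (hx : x ∈ T.S) : ‖(star x) T.Ω‖ = ‖x T.Ω‖ := by
  have h : ⟪(star x) T.Ω, (star x) T.Ω⟫_ℂ = ⟪x T.Ω, x T.Ω⟫_ℂ := by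
    have h1 : ⟪(star x) T.Ω, (star x) T.Ω⟫_ℂ = ⟪T.Ω, x ((star x) T.Ω)⟫_ℂ := by
      rw [ContinuousLinearMap.star_eq_adjoint, ContinuousLinearMap.adjoint_inner_left]
    have h2 : ⟪x T.Ω, x T.Ω⟫_ℂ = ⟪T.Ω, (star x) (x T.Ω)⟫_ℂ := by
      rw [ContinuousLinearMap.star_eq_adjoint, ContinuousLinearMap.adjoint_inner_right]
    rw [h1, h2]
    exact T.trace x hx (star x) (star_mem hx)
  have h' : ‖(star x) T.Ω‖ ^ 2 = ‖x T.Ω‖ ^ 2 := by
    rw [← inner_self_eq_norm_sq (𝕜 := ℂ) ((star x) T.Ω),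
      ← inner_self_eq_norm_sq (𝕜 := ℂ) (x T.Ω), h]
  exact (sq_eq_sq₀ (norm_nonneg _) (norm_nonneg _)).1 h'

lemma norm_mul_Om_le (x y : H →L[ℂ] H) : ‖(x * y) T.Ω‖ ≤ ‖x‖ * ‖y T.Ω‖ := x.le_opNorm _

lemma norm_mul_Om_le' {x y : H →L[ℂ] H} (hx : x ∈ T.S) (hy : y ∈ T.S) :
    ‖(x * y) T.Ω‖ ≤ ‖y‖ * ‖x T.Ω‖ := by
  rw [← norm_star_Om (mul_mem hx hy), star_mul]
  calc ‖(star y * star x) T.Ω‖ ≤ ‖star y‖ * ‖(star x) T.Ω‖ := norm_mul_Om_le _ _
    _ = ‖y‖ * ‖x T.Ω‖ := by rw [norm_star, norm_star_Om hx]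

lemma norm_unitary_mul {w : H →L[ℂ] H} (x : H →L[ℂ] H) (hw : w ∈ unitary (H →L[ℂ] H)) :
    ‖(w * x) T.Ω‖ = ‖x T.Ω‖ :=
  ContinuousLinearMap.norm_map_of_mem_unitary hw _

lemma norm_mul_unitary {w x : H →L[ℂ] H} (hw : w ∈ unitary (H →L[ℂ] H)) (hwS : w ∈ T.S)
    (hx : x ∈ T.S) : ‖(x * w) T.Ω‖ = ‖x T.Ω‖ := by
  rw [← norm_star_Om (mul_mem hx hwS), star_mul,
    norm_unitary_mul _ (Unitary.star_mem hw), norm_star_Om hx]

lemma norm_conj {w x : H →L[ℂ] H} (hw : w ∈ unitary (H →L[ℂ] H)) (hwS : w ∈ T.S)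
    (hx : x ∈ T.S) : ‖(star w * x * w) T.Ω‖ = ‖x T.Ω‖ := by
  rw [norm_mul_unitary hw hwS (mul_mem (star_mem hwS) hx),
    norm_unitary_mul _ (Unitary.star_mem hw)]

lemma exists_lim {x : ℕ → H →L[ℂ] H} (hx : ∀ n, x n ∈ T.S) {C : ℝ} (hC : 0 < C)
    (hb : ∀ n, ‖x n‖ ≤ C) (hc : CauchySeq (fun n => x n T.Ω)) :
    ∃ y ∈ T.S, ‖y‖ ≤ C ∧ Tendsto (fun n => x n T.Ω) atTop (𝓝 (y T.Ω)) := by
  have hC' : (C : ℂ) ≠ 0 := by exact_mod_cast hC.ne'
  have hnC : ‖(C : ℂ)‖ = C := by simp [abs_of_pos hC]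
  obtain ⟨y, hy, hy1, hyt⟩ := T.complete (fun n => ((C : ℂ)⁻¹) • x n)
    (fun n => T.S.smul_mem (hx n) _)
    (fun n => by
      rw [norm_smul, norm_inv, hnC, inv_mul_le_iff₀ hC, mul_one]
      exact hb n)
    (by
      have := (uniformContinuous_const_smul ((C : ℂ)⁻¹)).comp_cauchySeq hc
      exact this)
  refine ⟨(C : ℂ) • y, T.S.smul_mem hy _, ?_, ?_⟩
  · rw [norm_smul, hnC]
    calc C * ‖y‖ ≤ C * 1 := mul_le_mul_of_nonneg_left hy1 hC.le
      _ = C := mul_one C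
  · have h2 := hyt.const_smul (C : ℂ)
    have h3 : (fun n => (C : ℂ) • (((C : ℂ)⁻¹) • x n) T.Ω) = fun n => x n T.Ω := by
      funext n
      rw [smul_apply, smul_smul, mul_inv_cancel₀ hC', one_smul]
    rw [h3] at h2
    exact h2

lemma tendsto_mul {x y : ℕ → H →L[ℂ] H} {a b : H →L[ℂ] H} (hx : ∀ n, x n ∈ T.S)
    (ha : a ∈ T.S) (hb : b ∈ T.S) {C : ℝ} (hC : ∀ n, ‖x n‖ ≤ C)
    (h1 : Tendsto (fun n => x n T.Ω) atTop (𝓝 (a T.Ω)))
    (h2 : Tendsto (fun n => y n T.Ω) atTop (𝓝 (b T.Ω))) :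
    Tendsto (fun n => (x n * y n) T.Ω) atTop (𝓝 ((a * b) T.Ω)) := by
  rw [tendsto_iff_norm_sub_tendsto_zero] at h1 h2 ⊢
  have h3 : Tendsto (fun n => C * ‖y n T.Ω - b T.Ω‖ + ‖b‖ * ‖x n T.Ω - a T.Ω‖) atTop
      (𝓝 (C * 0 + ‖b‖ * 0)) := (h2.const_mul C).add (h1.const_mul ‖b‖)
  rw [mul_zero, mul_zero, add_zero] at h3
  refine squeeze_zero (fun n => norm_nonneg _) (fun n => ?_) h3
  have h4 : (x n * y n) T.Ω - (a * b) T.Ω = x n (y n T.Ω - b T.Ω) + ((x n - a) * b) T.Ω := by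
    change x n (y n T.Ω) - a (b T.Ω) = x n (y n T.Ω - b T.Ω) + (x n (b T.Ω) - a (b T.Ω))
    rw [map_sub]
    abel
  rw [h4]
  refine (norm_add_le _ _).trans (add_le_add ?_ ?_)
  · exact ((x n).le_opNorm _).trans (mul_le_mul_of_nonneg_right (hC n) (norm_nonneg _))
  · have := norm_mul_Om_le' (T := T) (sub_mem (hx n) ha) hb
    rw [sub_apply (x n) a] at this
    exact this

lemma tendsto_star {x : ℕ → H →L[ℂ] H} {a : H →L[ℂ] H} (hx : ∀ n, x n ∈ T.S)
    (ha : a ∈ T.S) (h1 : Tendsto (fun n => x n T.Ω) atTop (𝓝 (a T.Ω))) :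
    Tendsto (fun n => (star (x n)) T.Ω) atTop (𝓝 ((star a) T.Ω)) := by
  rw [tendsto_iff_norm_sub_tendsto_zero] at h1 ⊢
  refine h1.congr fun n => ?_
  have h2 := norm_star_Om (T := T) (sub_mem (hx n) ha)
  rw [star_sub, sub_apply, sub_apply] at h2
  exact h2.symm

lemma eq_of_Om {x y : H →L[ℂ] H} (hx : x ∈ T.S) (hy : y ∈ T.S) (h : x T.Ω = y T.Ω) : x = y := by
  have := T.sep (x - y) (sub_mem hx hy) (by rw [sub_apply, h, sub_self])
  exact sub_eq_zero.1 this

lemma proj_norm_le {p : H →L[ℂ] H} (hp : IsStarProjection p) : ‖p‖ ≤ 1 := by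
  have h1 : ‖star p * p‖ = ‖p‖ * ‖p‖ := CStarRing.norm_star_mul_self
  have h2 : star p * p = p := by
    rw [hp.isSelfAdjoint.star_eq, hp.isIdempotentElem.eq]
  rw [h2] at h1
  nlinarith [norm_nonneg p]

/-- coarsening of a partition along a map -/
def coarse {a b : ℕ} (f : Fin a → Fin b) (p : Fin a → H →L[ℂ] H) (j : Fin b) : H →L[ℂ] H :=
  ∑ i ∈ Finset.univ.filter (fun i => f i = j), p i

lemma coarse_comp {a b c : ℕ} (f : Fin b → Fin c) (g : Fin a → Fin b)
    (p : Fin a → H →L[ℂ] H) : coarse (fun i => f (g i)) p = coarse f (coarse g p) := by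
  funext j
  unfold coarse
  rw [← Finset.sum_fiberwise_of_maps_to (s := Finset.univ.filter (fun i => f (g i) = j))
    (t := Finset.univ.filter (fun l => f l = j)) (g := g)]
  · refine Finset.sum_congr rfl fun l hl => ?_
    rw [Finset.filter_filter]
    refine Finset.sum_congr ?_ fun _ _ => rfl
    ext i
    simp only [Finset.mem_filter, Finset.mem_univ, true_and] at hl ⊢
    constructor
    · exact fun h => h.2
    · exact fun h => ⟨by rw [h]; exact hl, h⟩
  · intro i hi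
    simpa using hi

lemma coarse_part {a b : ℕ} (f : Fin a → Fin b) {e : H →L[ℂ] H} {p : Fin a → H →L[ℂ] H}
    (hp : T.IsPartOf e p) : T.IsPartOf e (coarse f p) := by
  refine ⟨fun j => sum_mem fun i _ => hp.mem i, fun j => ⟨?_, ?_⟩, fun j j' hjj => ?_, ?_⟩
  · unfold IsIdempotentElem coarse
    rw [Finset.sum_mul]
    refine Finset.sum_congr rfl fun i hi => ?_
    rw [Finset.mul_sum, Finset.sum_eq_single i]
    · exact (hp.proj i).isIdempotentElem
    · exact fun i' _ hii => hp.orth i i' hii.symm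
    · exact fun h => absurd hi h
  · unfold IsSelfAdjoint coarse
    rw [star_sum]
    exact Finset.sum_congr rfl fun i _ => (hp.proj i).isSelfAdjoint
  · unfold coarse
    rw [Finset.sum_mul]
    refine Finset.sum_eq_zero fun i hi => ?_
    rw [Finset.mul_sum]
    refine Finset.sum_eq_zero fun i' hi' => hp.orth i i' ?_
    rintro rfl
    simp only [Finset.mem_filter, Finset.mem_univ, true_and] at hi hi'
    exact hjj (hi.symm.trans hi')
  · rw [← hp.sum]
    unfold coarse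
    exact Finset.sum_fiberwise _ _ _

lemma tr_proj {p : H →L[ℂ] H} (hp : IsStarProjection p) :
    ‖p T.Ω‖ ^ 2 = (⟪T.Ω, p T.Ω⟫_ℂ).re := by
  have h1 : ⟪p T.Ω, p T.Ω⟫_ℂ = ⟪T.Ω, p T.Ω⟫_ℂ := by
    have h2 : ⟪T.Ω, p T.Ω⟫_ℂ = ⟪T.Ω, (star p) (p T.Ω)⟫_ℂ := by
      rw [hp.isSelfAdjoint.star_eq]
      have h3 : p (p T.Ω) = (p * p) T.Ω := rfl
      rw [h3, hp.isIdempotentElem.eq]
    rw [h2, ContinuousLinearMap.star_eq_adjoint, ContinuousLinearMap.adjoint_inner_right]
  rw [← h1, ← inner_self_eq_norm_sq (𝕜 := ℂ) (p T.Ω)]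
  rfl

lemma coarse_tr {a b : ℕ} (f : Fin a → Fin b) {e : H →L[ℂ] H} {p : Fin a → H →L[ℂ] H}
    (hp : T.IsPartOf e p) (j : Fin b) :
    ‖coarse f p j T.Ω‖ ^ 2 = ∑ i ∈ Finset.univ.filter (fun i => f i = j), ‖p i T.Ω‖ ^ 2 := by
  rw [tr_proj ((coarse_part f hp).proj j)]
  unfold coarse
  rw [sum_apply, inner_sum, Complex.re_sum]
  exact Finset.sum_congr rfl fun i _ => (tr_proj (hp.proj i)).symm

lemma coarse_comm {a b : ℕ} (f : Fin a → Fin b) (p : Fin a → H →L[ℂ] H) (x : H →L[ℂ] H)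
    {c : ℝ} (hc : 0 ≤ c) (h : ∀ i, ‖(x * p i - p i * x) T.Ω‖ ≤ c) (j : Fin b) :
    ‖(x * coarse f p j - coarse f p j * x) T.Ω‖ ≤ (a + 1 : ℝ) * c := by
  unfold coarse
  rw [Finset.mul_sum, Finset.sum_mul, ← Finset.sum_sub_distrib, sum_apply]
  refine (norm_sum_le _ _).trans ?_
  refine (Finset.sum_le_card_nsmul _ _ c fun i _ => h i).trans ?_
  rw [nsmul_eq_mul]
  refine mul_le_mul_of_nonneg_right ?_ hc
  have h1 : (Finset.univ.filter (fun i => f i = j)).card ≤ a := by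
    refine (Finset.card_filter_le _ _).trans ?_
    simp
  have h2 : ((Finset.univ.filter (fun i => f i = j)).card : ℝ) ≤ a := by exact_mod_cast h1
  linarith

/-- data of the construction -/
structure Data (T : TVN H) (r : ℕ) (x : Fin r → H →L[ℂ] H) (δ : ℝ) (k : ℕ → ℕ)
    (par : (n : ℕ) → Fin (k (n + 1)) → Fin (k n)) (p : (n : ℕ) → Fin (k n) → H →L[ℂ] H)
    (w : ℕ → H →L[ℂ] H) : Prop where
  hδ : 0 < δ
  xS : ∀ i, x i ∈ T.S
  part : ∀ n, T.IsPartOf 1 (p n)
  tr : ∀ n j, ‖p n j T.Ω‖ ^ 2 ≤ 2 / (n + 1 : ℝ)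
  comm : ∀ n j i, ‖(x i * p n j - p n j * x i) T.Ω‖ ≤ 1 / (n + 1 : ℝ) / (k n + 1 : ℝ)
  wS : ∀ n, w n ∈ T.S
  wU : ∀ n, w n ∈ unitary (H →L[ℂ] H)
  xw : ∀ n i, ‖(x i * w n - w n * x i) T.Ω‖ ≤ δ / 2 / 2 / 2 ^ n
  cw : ∀ n j, ‖(star (w n) * coarse (par n) (p (n + 1)) j * w n - p n j) T.Ω‖ ≤
    δ / 2 / 2 / 2 ^ n / (k n + 1 : ℝ)

/-- product of the unitaries -/
noncomputable def uu (w : ℕ → H →L[ℂ] H) : ℕ → H →L[ℂ] H
  | 0 => 1
  | n + 1 => w n * uu w n

/-- composed coarsening map from level `m + d` to level `m` -/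
def anc (k : ℕ → ℕ) (par : (n : ℕ) → Fin (k (n + 1)) → Fin (k n)) (m : ℕ) :
    (d : ℕ) → Fin (k (m + d)) → Fin (k m)
  | 0 => fun i => i
  | d + 1 => fun i => anc k par m d (par (m + d) i)

section

variable {r : ℕ} {x : Fin r → H →L[ℂ] H} {δ : ℝ} {k : ℕ → ℕ}
    {par : (n : ℕ) → Fin (k (n + 1)) → Fin (k n)} {p : (n : ℕ) → Fin (k n) → H →L[ℂ] H}
    {w : ℕ → H →L[ℂ] H} (D : Data T r x δ k par p w)

include D

lemma uS (n : ℕ) : uu w n ∈ T.S := by
  induction n with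
  | zero => exact one_mem _
  | succ n ih => exact mul_mem (D.wS n) ih

lemma uU (n : ℕ) : uu w n ∈ unitary (H →L[ℂ] H) := by
  induction n with
  | zero => exact one_mem _
  | succ n ih => exact mul_mem (D.wU n) ih

lemma uconj (n : ℕ) (a b : H →L[ℂ] H) :
    (star (uu w n) * a * uu w n) * (star (uu w n) * b * uu w n) =
      star (uu w n) * (a * b) * uu w n := by
  have h : uu w n * star (uu w n) = 1 := Unitary.mul_star_self_of_mem (uU D n)
  calc (star (uu w n) * a * uu w n) * (star (uu w n) * b * uu w n)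
      = star (uu w n) * a * (uu w n * star (uu w n)) * b * uu w n := by
        simp only [mul_assoc]
    _ = star (uu w n) * (a * b) * uu w n := by
        rw [h, mul_one]; simp only [mul_assoc]

lemma conj_mem {a : H →L[ℂ] H} (n : ℕ) (ha : a ∈ T.S) : star (uu w n) * a * uu w n ∈ T.S :=
  mul_mem (mul_mem (star_mem (uS D n)) ha) (uS D n)

lemma conj_norm {a : H →L[ℂ] H} (n : ℕ) (ha : a ∈ T.S) :
    ‖(star (uu w n) * a * uu w n) T.Ω‖ = ‖a T.Ω‖ := norm_conj (uU D n) (uS D n) ha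

lemma conj_opnorm (a : H →L[ℂ] H) (n : ℕ) : ‖star (uu w n) * a * uu w n‖ ≤ ‖a‖ := by
  rw [CStarRing.norm_mul_mem_unitary _ (uU D n),
    CStarRing.norm_mem_unitary_mul _ (Unitary.star_mem (uU D n))]

lemma X_step (i : Fin r) (n : ℕ) :
    ‖(star (uu w (n + 1)) * x i * uu w (n + 1)) T.Ω - (star (uu w n) * x i * uu w n) T.Ω‖ ≤
      δ / 2 / 2 / 2 ^ n := by
  have h : star (w n) * w n = 1 := Unitary.star_mul_self_of_mem (D.wU n)
  have e : star (uu w (n + 1)) * x i * uu w (n + 1) - star (uu w n) * x i * uu w n =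
      star (uu w n) * (star (w n) * (x i * w n - w n * x i)) * uu w n := by
    have e1 : uu w (n + 1) = w n * uu w n := rfl
    rw [e1, star_mul, mul_sub, ← mul_assoc (star (w n)) (w n) (x i), h, one_mul]
    simp only [mul_sub, sub_mul, mul_assoc]
  rw [← sub_apply, e, conj_norm D n (mul_mem (star_mem (D.wS n)) (sub_mem
    (mul_mem (D.xS i) (D.wS n)) (mul_mem (D.wS n) (D.xS i)))),
    norm_unitary_mul _ (Unitary.star_mem (D.wU n))]
  exact D.xw n i

/-- the projections of level `m` seen at stage `m + d` -/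
lemma D_step (m d : ℕ) (j : Fin (k m)) :
    ‖(star (uu w (m + (d + 1))) * coarse (anc k par m (d + 1)) (p (m + (d + 1))) j *
        uu w (m + (d + 1))) T.Ω -
      (star (uu w (m + d)) * coarse (anc k par m d) (p (m + d)) j * uu w (m + d)) T.Ω‖ ≤
      δ / 2 / 2 / 2 ^ (m + d) := by
  have e2 : coarse (anc k par m (d + 1)) (p (m + (d + 1))) =
      coarse (anc k par m d) (coarse (par (m + d)) (p (m + (d + 1)))) :=
    coarse_comp (anc k par m d) (par (m + d)) _
  have e1 : uu w (m + (d + 1)) = w (m + d) * uu w (m + d) := rfl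
  rw [e2]
  generalize hq : coarse (par (m + d)) (p (m + (d + 1))) = q
  have hcw : ∀ i, ‖(star (w (m + d)) * q i * w (m + d) - p (m + d) i) T.Ω‖ ≤
      δ / 2 / 2 / 2 ^ (m + d) / (k (m + d) + 1 : ℝ) := by
    rw [← hq]; exact D.cw (m + d)
  have hqS : ∀ i, q i ∈ T.S := by
    rw [← hq]; exact (coarse_part _ (D.part (m + (d + 1)))).mem
  have e3 : star (uu w (m + (d + 1))) * coarse (anc k par m d) q j * uu w (m + (d + 1)) -
      star (uu w (m + d)) * coarse (anc k par m d) (p (m + d)) j * uu w (m + d) =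
      star (uu w (m + d)) * (∑ i ∈ Finset.univ.filter (fun i => anc k par m d i = j),
        (star (w (m + d)) * q i * w (m + d) - p (m + d) i)) * uu w (m + d) := by
    rw [e1, star_mul, Finset.sum_sub_distrib]
    unfold coarse
    simp only [mul_sub, sub_mul, mul_assoc, Finset.mul_sum, Finset.sum_mul]
  have hmem : ∀ i, (star (w (m + d)) * q i * w (m + d) - p (m + d) i) ∈ T.S := fun i =>
    sub_mem (mul_mem (mul_mem (star_mem (D.wS _)) (hqS i)) (D.wS _)) ((D.part _).mem i)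
  rw [← sub_apply, e3, conj_norm D _ (sum_mem fun i _ => hmem i), sum_apply]
  have hc : 0 ≤ δ / 2 / 2 / 2 ^ (m + d) / (k (m + d) + 1 : ℝ) := by
    have := D.hδ
    positivity
  calc ‖∑ i ∈ Finset.univ.filter (fun i => anc k par m d i = j),
        (star (w (m + d)) * q i * w (m + d) - p (m + d) i) T.Ω‖
      ≤ ∑ i ∈ Finset.univ.filter (fun i => anc k par m d i = j),
        ‖(star (w (m + d)) * q i * w (m + d) - p (m + d) i) T.Ω‖ := norm_sum_le _ _
    _ ≤ (Finset.univ.filter (fun i => anc k par m d i = j)).card •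
        (δ / 2 / 2 / 2 ^ (m + d) / (k (m + d) + 1 : ℝ)) :=
        Finset.sum_le_card_nsmul _ _ _ fun i _ => hcw i
    _ ≤ (k (m + d) + 1 : ℝ) * (δ / 2 / 2 / 2 ^ (m + d) / (k (m + d) + 1 : ℝ)) := by
        rw [nsmul_eq_mul]
        refine mul_le_mul_of_nonneg_right ?_ hc
        have h1 : (Finset.univ.filter (fun i => anc k par m d i = j)).card ≤ k (m + d) := by
          refine (Finset.card_filter_le _ _).trans ?_
          simp
        have h2 : ((Finset.univ.filter (fun i => anc k par m d i = j)).card : ℝ) ≤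
            k (m + d) := by exact_mod_cast h1
        linarith
    _ = δ / 2 / 2 / 2 ^ (m + d) := by
        rw [mul_div_cancel₀]
        positivity

lemma X_lim (i : Fin r) : ∃ y ∈ T.S, ‖(y - x i) T.Ω‖ ≤ δ / 2 ∧
    Tendsto (fun n => (star (uu w n) * x i * uu w n) T.Ω) atTop (𝓝 (y T.Ω)) := by
  have hd : ∀ n, dist ((star (uu w n) * x i * uu w n) T.Ω)
      ((star (uu w (n + 1)) * x i * uu w (n + 1)) T.Ω) ≤ δ / 2 / 2 / 2 ^ n := by
    intro n
    rw [dist_comm, dist_eq_norm]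
    exact X_step D i n
  have hc := cauchySeq_of_le_geometric_two hd
  obtain ⟨y, hy, -, hyt⟩ := exists_lim (fun n => conj_mem D n (D.xS i))
    (C := ‖x i‖ + 1) (by positivity)
    (fun n => (conj_opnorm D (x i) n).trans (by linarith)) hc
  refine ⟨y, hy, ?_, hyt⟩
  have h := dist_le_of_le_geometric_two_of_tendsto₀ hd hyt
  rw [dist_comm, dist_eq_norm] at h
  have e : (star (uu w 0) * x i * uu w 0) = x i := by
    change star (1 : H →L[ℂ] H) * x i * 1 = x i
    simp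
  rw [e] at h
  rw [sub_apply]
  exact h

lemma D_lim (m : ℕ) (j : Fin (k m)) : ∃ q ∈ T.S, IsStarProjection q ∧
    ‖(q - star (uu w m) * p m j * uu w m) T.Ω‖ ≤ δ / 2 / 2 ^ m ∧
    Tendsto (fun d => (star (uu w (m + d)) * coarse (anc k par m d) (p (m + d)) j *
      uu w (m + d)) T.Ω) atTop (𝓝 (q T.Ω)) := by
  have hpart := fun d => coarse_part (anc k par m d) (D.part (m + d))
  have hd : ∀ d, dist ((star (uu w (m + d)) * coarse (anc k par m d) (p (m + d)) j *
      uu w (m + d)) T.Ω)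
      ((star (uu w (m + (d + 1))) * coarse (anc k par m (d + 1)) (p (m + (d + 1))) j *
        uu w (m + (d + 1))) T.Ω) ≤ δ / 2 / 2 ^ m / 2 / 2 ^ d := by
    intro d
    rw [dist_comm, dist_eq_norm]
    refine (D_step D m d j).trans (le_of_eq ?_)
    rw [pow_add]
    field_simp
  have hc := cauchySeq_of_le_geometric_two hd
  have hS := fun d => conj_mem D (m + d) ((hpart d).mem j)
  have hn : ∀ d, ‖star (uu w (m + d)) * coarse (anc k par m d) (p (m + d)) j *
      uu w (m + d)‖ ≤ 1 := fun d =>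
    (conj_opnorm D _ _).trans (proj_norm_le ((hpart d).proj j))
  obtain ⟨q, hq, -, hqt⟩ := exists_lim hS one_pos hn hc
  refine ⟨q, hq, ⟨?_, ?_⟩, ?_, hqt⟩
  · refine eq_of_Om (mul_mem hq hq) hq ?_
    refine tendsto_nhds_unique (tendsto_mul hS hq hq hn hqt hqt) ?_
    refine hqt.congr fun d => ?_
    rw [uconj D, ((hpart d).proj j).isIdempotentElem.eq]
  · refine eq_of_Om (star_mem hq) hq ?_
    refine tendsto_nhds_unique (tendsto_star hS hq hqt) ?_
    refine hqt.congr fun d => ?_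
    rw [star_mul, star_mul, star_star, ((hpart d).proj j).isSelfAdjoint.star_eq, mul_assoc]
  · have h := dist_le_of_le_geometric_two_of_tendsto₀ hd hqt
    rw [dist_comm, dist_eq_norm] at h
    have e : coarse (anc k par m 0) (p (m + 0)) j = p m j := by
      change ∑ i ∈ Finset.univ.filter (fun i : Fin (k m) => i = j), p m i = p m j
      rw [Finset.sum_eq_single j]
      · intro i hi hij
        exact absurd (Finset.mem_filter.1 hi).2 hij
      · intro h
        exact absurd (Finset.mem_filter.2 ⟨Finset.mem_univ j, rfl⟩ :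
          j ∈ Finset.univ.filter (fun i : Fin (k m) => i = j)) h
    rw [e] at h
    rw [sub_apply]
    exact h

lemma final : ∃ x' : Fin r → H →L[ℂ] H, (∀ i, x' i ∈ T.S) ∧
      (∀ i, ‖(x' i - x i) T.Ω‖ ≤ δ / 2) ∧
      ∀ η > 0, ∃ (l : ℕ) (q : Fin l → H →L[ℂ] H), T.IsPartOf 1 q ∧
        (∀ j, ‖q j T.Ω‖ ^ 2 ≤ η) ∧ ∀ i j, x' i * q j = q j * x' i := by
  choose x' hx'S hx' hx't using X_lim D
  refine ⟨x', hx'S, hx', fun η hη => ?_⟩
  -- choose the level
  have hlim : Tendsto (fun m : ℕ => (√(2 / (m + 1 : ℝ)) + δ / 2 / 2 ^ m) ^ 2) atTop (𝓝 0) := by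
    have h1 : Tendsto (fun m : ℕ => (2 / (m + 1 : ℝ))) atTop (𝓝 0) :=
      (tendsto_const_div_atTop_nhds_zero_nat (2 : ℝ)).comp (tendsto_add_atTop_nat 1) |>.congr
        (fun m => by simp)
    have h2 : Tendsto (fun m : ℕ => √(2 / (m + 1 : ℝ))) atTop (𝓝 0) := by
      have := (Real.continuous_sqrt.tendsto 0).comp h1
      rw [Real.sqrt_zero] at this
      exact this
    have h3 : Tendsto (fun m : ℕ => δ / 2 / 2 ^ m) atTop (𝓝 0) := by
      have h4 : Tendsto (fun m : ℕ => δ / 2 * (1 / 2 : ℝ) ^ m) atTop (𝓝 (δ / 2 * 0)) :=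
        (tendsto_pow_atTop_nhds_zero_of_lt_one (by norm_num) (by norm_num)).const_mul _
      rw [mul_zero] at h4
      refine h4.congr fun m => ?_
      rw [one_div, inv_pow]
      rfl
    have h5 := (h2.add h3).pow 2
    simpa using h5
  obtain ⟨m, hm⟩ := (hlim.eventually (gt_mem_nhds hη)).exists
  choose q hqS hqP hq hqt using D_lim D m
  have hpart := fun d => coarse_part (anc k par m d) (D.part (m + d))
  have hS := fun j d => conj_mem D (m + d) ((hpart d).mem j)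
  have hn : ∀ j d, ‖star (uu w (m + d)) * coarse (anc k par m d) (p (m + d)) j *
      uu w (m + d)‖ ≤ 1 := fun j d =>
    (conj_opnorm D _ _).trans (proj_norm_le ((hpart d).proj j))
  refine ⟨k m, q, ⟨hqS, hqP, fun i j hij => ?_, ?_⟩, fun j => ?_, fun i j => ?_⟩
  · refine eq_of_Om (mul_mem (hqS i) (hqS j)) (zero_mem _) ?_
    refine tendsto_nhds_unique (tendsto_mul (hS i) (hqS i) (hqS j) (hn i) (hqt i) (hqt j)) ?_
    refine tendsto_const_nhds.congr fun d => ?_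
    rw [uconj D, (hpart d).orth i j hij, mul_zero, zero_mul]
  · refine eq_of_Om (sum_mem fun j _ => hqS j) (one_mem _) ?_
    have h1 := tendsto_finsetSum (Finset.univ : Finset (Fin (k m))) fun j _ => hqt j
    rw [sum_apply]
    refine tendsto_nhds_unique h1 ?_
    refine tendsto_const_nhds.congr fun d => ?_
    rw [← sum_apply, ← Finset.sum_mul, ← Finset.mul_sum, (hpart d).sum, mul_one,
      Unitary.star_mul_self_of_mem (uU D _)]
  · refine le_trans ?_ hm.le
    have h1 : ‖q j T.Ω‖ ≤ √(2 / (m + 1 : ℝ)) + δ / 2 / 2 ^ m := by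
      have h2 : ‖(star (uu w m) * p m j * uu w m) T.Ω‖ ≤ √(2 / (m + 1 : ℝ)) := by
        rw [conj_norm D m ((D.part m).mem j)]
        exact Real.le_sqrt_of_sq_le (D.tr m j)
      have h3 := hq j
      rw [sub_apply] at h3
      have h4 := norm_le_norm_add_norm_sub' (q j T.Ω) ((star (uu w m) * p m j * uu w m) T.Ω)
      linarith
    exact pow_le_pow_left₀ (norm_nonneg _) h1 2
  · refine eq_of_Om (mul_mem (hx'S i) (hqS j)) (mul_mem (hqS j) (hx'S i)) ?_
    have hxt : Tendsto (fun d => (star (uu w (m + d)) * x i * uu w (m + d)) T.Ω) atTop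
        (𝓝 (x' i T.Ω)) := (hx't i).comp (tendsto_add_atTop_nat m |>.congr fun d => by
          rw [add_comm])
    have h1 := tendsto_mul (fun d => conj_mem D (m + d) (D.xS i)) (hx'S i) (hqS j)
      (fun d => conj_opnorm D (x i) (m + d)) hxt (hqt j)
    have h2 := tendsto_mul (hS j) (hqS j) (hx'S i) (hn j) (hqt j) hxt
    have h3 := h1.sub h2
    have h4 : Tendsto (fun d : ℕ => 1 / ((d : ℝ) + 1)) atTop (𝓝 0) :=
      tendsto_one_div_add_atTop_nhds_zero_nat
    have h5 := tendsto_nhds_unique h3 (squeeze_zero_norm (a := fun d : ℕ => 1 / ((d : ℝ) + 1))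
      (fun d => ?_) h4)
    · exact sub_eq_zero.1 h5
    · rw [← sub_apply, uconj D, uconj D, ← sub_mul, ← mul_sub,
        conj_norm D _ (sub_mem (mul_mem (D.xS i) ((hpart d).mem j))
          (mul_mem ((hpart d).mem j) (D.xS i)))]
      have hc : (0 : ℝ) ≤ 1 / (((m + d : ℕ) : ℝ) + 1) / ((k (m + d) : ℝ) + 1) := by positivity
      refine (coarse_comm (anc k par m d) (p (m + d)) (x i) hc
        (fun l => D.comm (m + d) l i) j).trans ?_
      rw [mul_div_cancel₀ _ (by positivity)]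
      refine one_div_le_one_div_of_le (by positivity) ?_
      push_cast
      linarith [(Nat.cast_nonneg m : (0 : ℝ) ≤ m)]

end

end Inter

theorem inter_proof : Stmt_Inter.{u} := by
  intro H _ _ _ T N hN hA ⟨k, t, par, ht, hpar, hex⟩ r x hx δ hδ
  classical
  let F₀ : Finset (H →L[ℂ] H) := Finset.univ.image x
  have hF₀ : ∀ i, x i ∈ F₀ := fun i => Finset.mem_image_of_mem _ (Finset.mem_univ i)
  choose F₁ ε₁ hε₁ hconj using fun n : ℕ =>
    hA (k n) (t n) F₀ (δ / 2 / 2 / 2 ^ n) (by positivity)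
      (δ / 2 / 2 / 2 ^ n / (k n + 1 : ℝ)) (by positivity)
  let ε' : ℕ → ℝ := fun n => min (min (ε₁ n) (ε₁ (n - 1))) (1 / (n + 1 : ℝ)) / (k n + 1 : ℝ)
  have hε' : ∀ n, 0 < ε' n := fun n =>
    div_pos (lt_min (lt_min (hε₁ _) (hε₁ _)) (by positivity)) (by positivity)
  have hk1 : ∀ n, ε' n * (k n + 1 : ℝ) = min (min (ε₁ n) (ε₁ (n - 1))) (1 / (n + 1 : ℝ)) :=
    fun n => div_mul_cancel₀ _ (by positivity)
  have hle : ∀ n, ε' n ≤ ε' n * (k n + 1 : ℝ) := fun n => by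
    have : (0 : ℝ) ≤ ε' n * k n := mul_nonneg (hε' n).le (Nat.cast_nonneg _)
    linarith
  have ha : ∀ n, ε' n * (k n + 1 : ℝ) ≤ ε₁ n := fun n => by
    rw [hk1]; exact (min_le_left _ _).trans (min_le_left _ _)
  have hb : ∀ n, ε' n * (k n + 1 : ℝ) ≤ ε₁ (n - 1) := fun n => by
    rw [hk1]; exact (min_le_left _ _).trans (min_le_right _ _)
  have hc : ∀ n, ε' n * (k n + 1 : ℝ) ≤ 1 / (n + 1 : ℝ) := fun n => by
    rw [hk1]; exact min_le_right _ _
  choose p hpart htr hnear using fun n : ℕ =>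
    hex n (F₁ n ∪ F₁ (n - 1) ∪ F₀) (ε' n) (hε' n)
  have hw : ∀ n, ∃ w ∈ T.UN N F₀ (δ / 2 / 2 / 2 ^ n), ∀ j,
      ‖(star w * Inter.coarse (par n) (p (n + 1)) j * w - p n j) T.Ω‖ ≤
        δ / 2 / 2 / 2 ^ n / (k n + 1 : ℝ) := by
    intro n
    refine hconj n (p n) (Inter.coarse (par n) (p (n + 1))) (hpart n)
      (Inter.coarse_part _ (hpart (n + 1))) (fun j => (htr n j).trans ((hle n).trans (ha n)))
      (fun j => ?_) (fun j y hy hyN => (hnear n j y ?_ hyN).trans ((hle n).trans (ha n)))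
      (fun j y hy hyN => ?_)
    · rw [Inter.coarse_tr _ (hpart (n + 1)), ← hpar n j, ← Finset.sum_sub_distrib]
      refine (Finset.abs_sum_le_sum_abs _ _).trans ?_
      refine (Finset.sum_le_card_nsmul _ _ (ε' (n + 1)) fun i _ => htr (n + 1) i).trans ?_
      rw [nsmul_eq_mul]
      have h1 : (Finset.univ.filter (fun i => par n i = j)).card ≤ k (n + 1) := by
        refine (Finset.card_filter_le _ _).trans ?_
        simp
      have h2 : ((Finset.univ.filter (fun i => par n i = j)).card : ℝ) ≤ k (n + 1) := by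
        exact_mod_cast h1
      have h3 := hb (n + 1)
      have h4 := hε' (n + 1)
      simp only [Nat.add_sub_cancel] at h3
      refine le_trans ?_ h3
      rw [mul_comm]
      exact mul_le_mul_of_nonneg_left (by linarith) h4.le
    · exact Finset.mem_union_left _ (Finset.mem_union_left _ hy)
    · have h3 := hb (n + 1)
      simp only [Nat.add_sub_cancel] at h3
      refine (Inter.coarse_comm (par n) (p (n + 1)) y (hε' (n + 1)).le (fun i =>
        hnear (n + 1) i y ?_ hyN) j).trans ?_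
      · refine Finset.mem_union_left _ (Finset.mem_union_right _ ?_)
        simpa using hy
      · rw [mul_comm]; exact h3
  choose w hw1 hw2 using hw
  have D : Inter.Data T r x δ k par p w := by
    refine ⟨hδ, fun i => hN.sub _ (hx i), hpart, fun n j => ?_, fun n j i => ?_,
      fun n => (hw1 n).1, fun n => (hw1 n).2.1, fun n i => (hw1 n).2.2 _ (hF₀ i) (hx i), hw2⟩
    · have h1 := (abs_le.1 (htr n j)).2
      have h2 := ht n j
      have h3 := (hle n).trans (hc n)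
      have h4 : (2 : ℝ) / (n + 1 : ℝ) = 1 / (n + 1 : ℝ) + 1 / (n + 1 : ℝ) := by ring
      rw [h4]
      linarith
    · refine (hnear n j (x i) (Finset.mem_union_right _ (hF₀ i)) (hx i)).trans ?_
      rw [le_div_iff₀ (by positivity)]
      exact hc n
  obtain ⟨x', h1, h2, h3⟩ := Inter.final D
  refine ⟨x', h1, fun i => one_mul _, fun i => mul_one _, fun i => ?_, h3⟩
  rw [mul_one]
  exact (h2 i).trans (by linarith)

end Pool.Agent.OS
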