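import Pool.Agent.OS.Hyper

set_option autoImplicit false

/-!
# Injective subalgebras have hypertraces (MP_7c16f6_an, module J1)
-/

open Filter Topology
open scoped InnerProductSpace

namespace Pool.Agent.OS

universe u

theorem j1_proof (hT : Stmt_Tom.{u}) (hA : Stmt_Amp.{u}) (hO : Stmt_OfVN.{u}) :
    Stmt_J1.{u} := by
  intro H _ _ _ M P Ω hM hPM ⟨E, hE1, hE2, hE3⟩
  obtain ⟨T, hTΩ, hTS⟩ := hO H M Ω hM P hPM
  obtain ⟨hb, hp⟩ := hT H T E hE1 (fun x => (hTS _).2 (hE2 x))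
    (fun x hx => hE3 x ((hTS x).1 hx))
  obtain ⟨Φ, hΦ1, hΦ2, hΦ3⟩ := hA H M Ω hM P hPM
  have hpos : ∀ A : H →L[ℂ] H, A.IsPositive → (E A).IsPositive := by
    intro A hA
    obtain ⟨R, hR⟩ := CStarAlgebra.nonneg_iff_eq_star_mul_self.1
      ((ContinuousLinearMap.nonneg_iff_isPositive A).2 hA)
    rw [hR]
    exact hp R
  let φ : (H →L[ℂ] H) →ₗ[ℂ] ℂ :=
    { toFun := fun A => ⟪Ω, (E (Φ A)) Ω⟫_ℂ
      map_add' := fun A B => by
        rw [map_add, map_add, add_apply, inner_add_right]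
      map_smul' := fun c A => by
        rw [map_smul, map_smul, smul_apply, inner_smul_right, RingHom.id_apply, smul_eq_mul] }
  have hφ : ∀ A, φ A = ⟪Ω, (E (Φ A)) Ω⟫_ℂ := fun A => rfl
  refine ⟨φ, ⟨fun y => ?_, fun x hx => ?_, fun x hx y => ?_⟩⟩
  · rw [hφ]
    have h1 := (hpos _ (hΦ2 y)).inner_nonneg_right Ω
    have h2 := Complex.le_def.1 h1
    exact ⟨by simpa using h2.1, by simpa using h2.2.symm⟩
  · rw [hφ, hE3 _ (hΦ3 x hx).1]
    exact (hΦ3 x hx).2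
  · rw [hφ, hφ, (hΦ1 x hx y).1, (hΦ1 x hx y).2, (hb x ((hTS x).2 hx) _).1,
      (hb x ((hTS x).2 hx) _).2]
    exact hM.trace x (hPM hx) _ (hPM (hE2 _))

end Pool.Agent.OS
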