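import Pool.Agent.OS.Hyper

set_option autoImplicit false

/-!
# Hypertraces give injectivity (MP_7c16f6_an, module J3)
-/

open Filter Topology
open scoped InnerProductSpace

namespace Pool.Agent.OS

universe u

theorem j3_proof (hR : Stmt_Riesz.{u}) (hO : Stmt_OfVN.{u}) : Stmt_J3.{u} := by
  intro H _ _ _ M N Ω hM hNM ⟨φ, hφ⟩
  obtain ⟨T, hTΩ, hTS⟩ := hO H M Ω hM N hNM
  have key : ∀ A : H →L[ℂ] H, ∃ x : H →L[ℂ] H, x ∈ N ∧ ‖x‖ ≤ ‖A‖ ∧
      ∀ y ∈ N, φ (y * A) = ⟪Ω, (y * x) Ω⟫_ℂ := by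
    intro A
    let f : (H →L[ℂ] H) →ₗ[ℂ] ℂ := φ.comp (LinearMap.mulRight ℂ A)
    obtain ⟨x, hx, hxn, hxf⟩ := hR H T f ‖A‖ (norm_nonneg _) (fun b hb c hc => by
      have h1 := Hyper.mul_le hM hNM hφ ((hTS b).1 hb) ((hTS c).1 hc) A
      rw [hTΩ]
      exact h1)
    refine ⟨x, (hTS x).1 hx, hxn, fun y hy => ?_⟩
    have h1 := hxf y ((hTS y).2 hy)
    rw [TVN.tr, hTΩ] at h1
    exact h1
  have uniq : ∀ x ∈ N, ∀ x' ∈ N, (∀ y ∈ N, ⟪Ω, (y * x) Ω⟫_ℂ = ⟪Ω, (y * x') Ω⟫_ℂ) → x = x' := by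
    intro x hx x' hx' h
    have hd : x - x' ∈ N := sub_mem hx hx'
    have h1 := h (star (x - x')) (star_mem hd)
    have h2 := Hyper.tr_star_self (Ω := Ω) (x - x')
    have h3 : star (x - x') * (x - x') = star (x - x') * x - star (x - x') * x' := mul_sub _ _ _
    rw [h3, sub_apply, inner_sub_right, h1, sub_self] at h2
    have h4 : ‖(x - x') Ω‖ = 0 := by
      have h5 : ‖(x - x') Ω‖ ^ 2 = 0 := by exact_mod_cast h2.symm
      exact pow_eq_zero_iff (two_ne_zero) |>.1 h5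
    have h5 : (x - x') T.Ω = 0 := by rw [hTΩ]; exact norm_eq_zero.1 h4
    exact sub_eq_zero.1 (T.sep _ ((hTS _).2 hd) h5)
  choose E hE1 hE2 hE3 using key
  refine ⟨{ toFun := E
            map_add' := fun A B => ?_
            map_smul' := fun c A => ?_ }, hE2, hE1, fun x hx => ?_⟩
  · refine uniq _ (hE1 _) _ (add_mem (hE1 _) (hE1 _)) fun y hy => ?_
    rw [← hE3 _ y hy, mul_add, map_add, hE3 _ y hy, hE3 _ y hy, mul_add, add_apply,
      inner_add_right]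
  · refine uniq _ (hE1 _) _ ?_ fun y hy => ?_
    · exact N.toStarSubalgebra.smul_mem (hE1 A) c
    · rw [← hE3 _ y hy, mul_smul_comm, map_smul, hE3 _ y hy, RingHom.id_apply, mul_smul_comm,
        smul_apply, inner_smul_right, smul_eq_mul]
  · refine uniq _ (hE1 _) _ hx fun y hy => ?_
    rw [← hE3 _ y hy, hφ.trace _ (hNM (mul_mem hy hx))]

end Pool.Agent.OS
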