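import Pool.Agent.OS.Basic
import Pool.Agent.OS.Stmts

set_option autoImplicit false

/-!
# Module Main: the final theorem from Perturb, General, OfVN, Diff and PartNoMin
-/

open Filter Topology
open scoped InnerProductSpace

namespace Pool.Agent.OS

universe u

namespace Main

variable {H : Type u} [NormedAddCommGroup H] [InnerProductSpace ℂ H] [CompleteSpace H]

lemma star_mem_centralizer {X : Set (H →L[ℂ] H)} (hX : ∀ x ∈ X, star x ∈ X) :
    ∀ a ∈ Set.centralizer X, star a ∈ Set.centralizer X := by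
  intro a ha x hx
  have h := congrArg star (ha (star x) (hX x hx))
  simpa [star_mul] using h.symm

/-- the von Neumann algebra generated by a star closed set -/
noncomputable def gen (X : Set (H →L[ℂ] H)) (hX : ∀ x ∈ X, star x ∈ X) :
    VonNeumannAlgebra H where
  carrier := Set.centralizer (Set.centralizer X)
  mul_mem' := fun {a b} ha hb => Set.mul_mem_centralizer ha hb
  one_mem' := Set.one_mem_centralizer
  add_mem' := fun {a b} ha hb => Set.add_mem_centralizer ha hb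
  zero_mem' := Set.zero_mem_centralizer
  algebraMap_mem' := fun r => by
    intro x _
    exact (Algebra.commutes r x).symm
  star_mem' := fun {a} ha => star_mem_centralizer (star_mem_centralizer hX) a ha
  centralizer_centralizer' := Set.centralizer_centralizer_centralizer _

lemma mem_gen {X : Set (H →L[ℂ] H)} {hX : ∀ x ∈ X, star x ∈ X} {a : H →L[ℂ] H} :
    a ∈ gen X hX ↔ a ∈ Set.centralizer (Set.centralizer X) := Iff.rfl

lemma subset_gen {X : Set (H →L[ℂ] H)} {hX : ∀ x ∈ X, star x ∈ X} {a : H →L[ℂ] H}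
    (ha : a ∈ X) : a ∈ gen X hX :=
  Set.subset_centralizer_centralizer ha

lemma gen_le {X : Set (H →L[ℂ] H)} {hX : ∀ x ∈ X, star x ∈ X} {M : VonNeumannAlgebra H}
    (h : ∀ x ∈ X, x ∈ M) : gen X hX ≤ M := by
  intro a ha
  have h1 : a ∈ Set.centralizer (Set.centralizer (M : Set (H →L[ℂ] H))) :=
    Set.centralizer_subset (Set.centralizer_subset (fun x hx => h x hx)) ha
  rw [M.centralizer_centralizer] at h1
  exact h1

end Main

open Main

theorem main_proof (hPerturb : Stmt_Perturb.{u}) (hGeneral : Stmt_General.{u})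
    (hOfVN : Stmt_OfVN.{u}) (hDiff : Stmt_Diff.{u}) (hPartNoMin : Stmt_PartNoMin.{u}) :
    Stmt_Main.{u} := by
  intro H _ _ _ M Ω hM hSolid ω hω N hNM hNinj hDU
  obtain ⟨r, x, hx, δ, hδ, hpert⟩ := hPerturb H M N Ω hM hNM hNinj
  obtain ⟨T, hTΩ, hTS⟩ := hOfVN H M Ω hM M le_rfl
  have hsmall := hDiff H M N Ω hM hNM T hTΩ hTS ω hDU
  have hNoMin : T.NoMin := by
    intro p hp hpp hp0
    obtain ⟨q, hq, h1, h2, h3, h4⟩ := hM.no_min p ((hTS p).1 hp) hpp hp0
    exact ⟨q, (hTS q).2 hq, h1, h2, h3, h4⟩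
  have hSub : T.IsSub (N : Set (H →L[ℂ] H)) :=
    ⟨fun x hx => (hTS x).2 (hNM hx), fun x hx => star_mem (S := VonNeumannAlgebra H) hx⟩
  obtain ⟨x', hx'S, -, -, hx'δ, hpart⟩ := hGeneral H T N hSub hNoMin hsmall r x hx δ hδ
  rw [hTΩ] at hx'δ
  -- the algebra generated by the `x' i`
  set X : Set (H →L[ℂ] H) := {a | ∃ i, a = x' i ∨ a = star (x' i)} with hXdef
  have hX : ∀ a ∈ X, star a ∈ X := by
    rintro a ⟨i, rfl | rfl⟩
    · exact ⟨i, Or.inr rfl⟩
    · exact ⟨i, Or.inl (star_star _)⟩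
  have hXM : ∀ a ∈ X, a ∈ M := by
    rintro a ⟨i, rfl | rfl⟩
    · exact (hTS _).1 (hx'S i)
    · exact star_mem ((hTS _).1 (hx'S i))
  have hPM : gen X hX ≤ M := gen_le hXM
  have hPinj : ¬ Injective (gen X hX) := hpert x' (by
    intro i
    simpa using (by simpa [mul_one] using hx'δ i : ‖(x' i - x i) Ω‖ ≤ δ))
    (gen X hX) hPM (fun i => subset_gen ⟨i, Or.inl rfl⟩)
  refine hSolid (gen X hX) hPM hPinj ?_
  -- the relative commutant is diffuse
  have hPS : ∀ a ∈ (gen X hX : Set (H →L[ℂ] H)), a ∈ T.S := fun a ha => (hTS a).2 (hPM ha)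
  have hPstar : ∀ a ∈ (gen X hX : Set (H →L[ℂ] H)), star a ∈ (gen X hX : Set (H →L[ℂ] H)) :=
    fun a ha => star_mem (S := VonNeumannAlgebra H) ha
  have hNM' : (T.relComm (gen X hX : Set (H →L[ℂ] H)) hPS hPstar).NoMin := by
    refine hPartNoMin H _ ?_
    intro η hη
    obtain ⟨k, q, hq, hqη, hcomm⟩ := hpart η hη
    refine ⟨k, q, ⟨?_, hq.proj, hq.orth, hq.sum⟩, hqη⟩
    intro j
    rw [TVN.mem_relComm]
    refine ⟨hq.mem j, ?_⟩
    intro a ha
    have hqX : q j ∈ Set.centralizer X := by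
      rintro a ⟨i, rfl | rfl⟩
      · exact hcomm i j
      · have h := congrArg star (hcomm i j)
        simpa [star_mul, (hq.proj j).isSelfAdjoint.star_eq] using h.symm
    exact (ha (q j) hqX).symm
  intro p hp hpp hpc hp0
  obtain ⟨q, hq, h1, h2, h3, h4⟩ := hNM' p ⟨(hTS p).2 hp, hpc⟩ hpp hp0
  exact ⟨q, (hTS q).1 hq.1, h1, hq.2, h2, h3, h4⟩

end Pool.Agent.OS
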