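import Pool.Agent.OS.Stmts
import Pool.Agent.OS.Basic

set_option autoImplicit false

/-!
# NearProj: almost idempotent self-adjoint elements are near projections
-/

open Filter Topology
open scoped InnerProductSpace

namespace Pool.Agent.OS

universe u

namespace NearProj

/-- `1 / max t (1/2)` -/
noncomputable def k1 (t : ℝ) : ℝ := 1 / max t (1 / 2)

/-- `1 / max (1-t) (1/2)` -/
noncomputable def k2 (t : ℝ) : ℝ := 1 / max (1 - t) (1 / 2)

lemma k1_cont : Continuous k1 := by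
  unfold k1
  refine continuous_const.div (continuous_id.max continuous_const) fun t => ?_
  have : (1 : ℝ) / 2 ≤ max t (1 / 2) := le_max_right _ _
  intro h
  rw [h] at this
  norm_num at this

lemma k2_cont : Continuous k2 := by
  unfold k2
  refine continuous_const.div ((continuous_const.sub continuous_id).max continuous_const)
    fun t => ?_
  have : (1 : ℝ) / 2 ≤ max (1 - t) (1 / 2) := le_max_right _ _
  intro h
  rw [h] at this
  norm_num at this

lemma k1_le (t : ℝ) : ‖k1 t‖ ≤ 2 := by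
  unfold k1
  have h : (1 : ℝ) / 2 ≤ max t (1 / 2) := le_max_right _ _
  have h0 : (0 : ℝ) < max t (1 / 2) := by linarith
  rw [Real.norm_eq_abs, abs_of_pos (by positivity), div_le_iff₀ h0]
  linarith

lemma k2_le (t : ℝ) : ‖k2 t‖ ≤ 2 := by
  unfold k2
  have h : (1 : ℝ) / 2 ≤ max (1 - t) (1 / 2) := le_max_right _ _
  have h0 : (0 : ℝ) < max (1 - t) (1 / 2) := by linarith
  rw [Real.norm_eq_abs, abs_of_pos (by positivity), div_le_iff₀ h0]
  linarith

/-- vanishes for `t > 1/2` -/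
noncomputable def g1 (t : ℝ) : ℝ := (1 - t) + k1 t * (t * t - t)

/-- vanishes for `t ≤ 1/2` -/
noncomputable def g2 (t : ℝ) : ℝ := t + k2 t * (t * t - t)

lemma g1_zero (t : ℝ) (ht : 1 / 2 < t) : g1 t = 0 := by
  unfold g1 k1
  rw [max_eq_left ht.le]
  have : t ≠ 0 := by linarith
  field_simp
  ring

lemma g2_zero (t : ℝ) (ht : t ≤ 1 / 2) : g2 t = 0 := by
  unfold g2 k2
  rw [max_eq_left (by linarith)]
  have : 1 - t ≠ 0 := by linarith
  field_simp
  ring

lemma g1_cont : Continuous g1 := by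
  unfold g1
  have := k1_cont
  fun_prop

lemma g2_cont : Continuous g2 := by
  unfold g2
  have := k2_cont
  fun_prop

variable {H : Type u} [NormedAddCommGroup H] [InnerProductSpace ℂ H] [CompleteSpace H]

lemma cfc_g1 (b : H →L[ℂ] H) (hb : IsSelfAdjoint b) :
    cfc g1 b = (1 - b) + cfc k1 b * (b * b - b) := by
  have hk := k1_cont
  have e : g1 = fun t => ((1 : ℝ) - t) + k1 t * (t * t - t) := rfl
  rw [e, cfc_add .., cfc_mul .., cfc_sub .., cfc_sub .., cfc_mul .., cfc_id' ℝ b, cfc_const_one ℝ b]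

lemma cfc_g2 (b : H →L[ℂ] H) (hb : IsSelfAdjoint b) :
    cfc g2 b = b + cfc k2 b * (b * b - b) := by
  have hk := k2_cont
  have e : g2 = fun t => t + k2 t * (t * t - t) := rfl
  rw [e, cfc_add .., cfc_mul .., cfc_sub .., cfc_mul .., cfc_id' ℝ b]

end NearProj

theorem nearProj_proof (hSpec : Stmt_Spec.{u}) : Stmt_NearProj.{u} := by
  intro H _ _ _ T b hbS hb
  obtain ⟨q, hq, hqp, h1, h2, h3, h4⟩ := hSpec H T b hbS hb (1 / 2)
  refine ⟨q, hq, hqp, ?_, h3, h4 (by norm_num)⟩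
  have hk1 := NearProj.k1_cont
  have hk2 := NearProj.k2_cont
  have a1 := h1 NearProj.g1 NearProj.g1_cont NearProj.g1_zero
  have a2 := h2 NearProj.g2 NearProj.g2_cont NearProj.g2_zero
  rw [NearProj.cfc_g1 b hb] at a1
  rw [NearProj.cfc_g2 b hb] at a2
  have hcomm : b * q = q * b := h3 b hbS rfl
  set A := cfc NearProj.k1 b with hA
  set B := cfc NearProj.k2 b with hB
  set z := b * b - b with hz
  have hAn : ‖A‖ ≤ 2 := norm_cfc_le (by norm_num) fun x _ => NearProj.k1_le x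
  have hBn : ‖B‖ ≤ 2 := norm_cfc_le (by norm_num) fun x _ => NearProj.k2_le x
  have hzq : z * q = q * z := by
    rw [hz, sub_mul, mul_sub, mul_assoc, hcomm, ← mul_assoc, hcomm, mul_assoc]
  -- first identity
  have e1 : q - b * q = - (A * (q * z)) := by
    have : (1 - b) * q + A * (z * q) = 0 := by
      rw [← mul_assoc, ← add_mul]
      exact a1
    rw [hzq, sub_mul, one_mul] at this
    exact eq_neg_of_add_eq_zero_left this
  have e2 : b - b * q = - (B * ((1 - q) * z)) := by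
    have : (b + B * z) - (b + B * z) * q = 0 := by rw [a2, sub_self]
    have h5 : B * ((1 - q) * z) = B * z - B * z * q := by
      rw [sub_mul, one_mul, mul_sub, mul_assoc, hzq]
    rw [h5]
    rw [add_mul] at this
    rw [← sub_eq_zero, ← this]
    abel
  have hqi : q * q = q := hqp.isIdempotentElem.eq
  have hqs : star q = q := hqp.isSelfAdjoint.star_eq
  -- orthogonality
  have key : ∀ x y : H →L[ℂ] H, ‖(q * x - (1 - q) * y) T.Ω‖ ^ 2 =
      ‖(q * x) T.Ω‖ ^ 2 + ‖((1 - q) * y) T.Ω‖ ^ 2 := by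
    intro x y
    have horth : ⟪(q * x) T.Ω, ((1 - q) * y) T.Ω⟫_ℂ = 0 := by
      rw [← T.tr_star_mul]
      have : star (q * x) * ((1 - q) * y) = 0 := by
        rw [star_mul, hqs, mul_assoc, ← mul_assoc q, mul_sub, mul_one, hqi, sub_self, zero_mul,
          mul_zero]
      rw [this]
      simp [TVN.tr]
    have := norm_sub_sq (𝕜 := ℂ) ((q * x) T.Ω) (((1 - q) * y) T.Ω)
    rw [horth] at this
    have e : (q * x - (1 - q) * y) T.Ω = (q * x) T.Ω - ((1 - q) * y) T.Ω := by
      rw [_root_.sub_apply]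
    rw [e, this]
    simp
  -- q - b = q(1-b) - (1-q) b
  have f1 : q * (1 - b) = q - b * q := by rw [mul_sub, mul_one, hcomm]
  have f2 : (1 - q) * b = b - b * q := by rw [sub_mul, one_mul, hcomm]
  have f3 : q - b = q * (1 - b) - (1 - q) * b := by
    rw [f1, f2]; abel
  have f4 : ‖(q - b) T.Ω‖ ^ 2 = ‖(q * (1 - b)) T.Ω‖ ^ 2 + ‖((1 - q) * b) T.Ω‖ ^ 2 := by
    rw [← key (1 - b) b, ← f3]
  have f5 : ‖(q * (1 - b)) T.Ω‖ ≤ 2 * ‖(q * z) T.Ω‖ := by
    rw [f1, e1]
    have : (-(A * (q * z))) T.Ω = - ((A * (q * z)) T.Ω) := by simp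
    rw [this, norm_neg]
    exact (T.norm_mul_le _ _).trans (mul_le_mul_of_nonneg_right hAn (norm_nonneg _))
  have f6 : ‖((1 - q) * b) T.Ω‖ ≤ 2 * ‖((1 - q) * z) T.Ω‖ := by
    rw [f2, e2]
    have : (-(B * ((1 - q) * z))) T.Ω = - ((B * ((1 - q) * z)) T.Ω) := by simp
    rw [this, norm_neg]
    exact (T.norm_mul_le _ _).trans (mul_le_mul_of_nonneg_right hBn (norm_nonneg _))
  have f7 : ‖z T.Ω‖ ^ 2 = ‖(q * z) T.Ω‖ ^ 2 + ‖((1 - q) * z) T.Ω‖ ^ 2 := by
    have h8 := key z (-z)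
    have e : q * z - (1 - q) * (-z) = z := by
      rw [mul_neg, sub_neg_eq_add, sub_mul, one_mul]; abel
    rw [e] at h8
    rw [h8]
    congr 2
    have : ((1 - q) * (-z)) T.Ω = - (((1 - q) * z) T.Ω) := by simp
    rw [this, norm_neg]
  have f8 : ‖(q - b) T.Ω‖ ^ 2 ≤ (2 * ‖z T.Ω‖) ^ 2 := by
    rw [f4, mul_pow, f7]
    have g1 := pow_le_pow_left₀ (norm_nonneg _) f5 2
    have g2 := pow_le_pow_left₀ (norm_nonneg _) f6 2
    rw [mul_pow] at g1 g2
    nlinarith
  exact (pow_le_pow_iff_left₀ (norm_nonneg _) (by positivity) (by norm_num)).1 f8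

end Pool.Agent.OS
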