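import Pool.Agent.OS.Stmts
import Pool.Agent.OS.Basic

set_option autoImplicit false

/-!
# NonscalarProj: a nonscalar algebra has a nontrivial projection
-/

open Filter Topology
open scoped InnerProductSpace

namespace Pool.Agent.OS

universe u

namespace NonscalarProj

variable {H : Type u} [NormedAddCommGroup H] [InnerProductSpace ℂ H] [CompleteSpace H]

lemma sa_case (hSpec : Stmt_Spec.{u}) (T : TVN H) (a : H →L[ℂ] H) (ha : a ∈ T.S)
    (hsa : IsSelfAdjoint a) (hns : ∀ c : ℂ, a ≠ c • (1 : H →L[ℂ] H)) :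
    ∃ q ∈ T.S, IsStarProjection q ∧ q ≠ 0 ∧ q ≠ 1 := by
  have hnt : Nontrivial H := ⟨T.Ω, 0, fun h => by
    have h1 := T.norm_Ω
    rw [h, norm_zero] at h1
    exact zero_ne_one h1⟩
  -- two points of the spectrum
  obtain ⟨α, hα⟩ : (spectrum ℝ a).Nonempty :=
    ContinuousFunctionalCalculus.spectrum_nonempty a hsa
  have h2 : ∃ β ∈ spectrum ℝ a, β ≠ α := by
    by_contra hcon
    push Not at hcon
    apply hns (α : ℂ)
    have h3 : cfc (fun t : ℝ => t) a = cfc (fun _ : ℝ => α) a := by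
      apply cfc_congr
      intro t ht
      exact hcon t ht
    rw [cfc_id' ℝ a hsa, cfc_const α a hsa, Algebra.algebraMap_eq_smul_one] at h3
    rw [h3]
    ext x
    simp
  obtain ⟨β, hβ, hne⟩ := h2
  -- order them
  obtain ⟨l, hl, r, hr, hlr⟩ : ∃ l ∈ spectrum ℝ a, ∃ r ∈ spectrum ℝ a, l < r := by
    rcases lt_or_gt_of_ne hne with h | h
    · exact ⟨β, hβ, α, hα, h⟩
    · exact ⟨α, hα, β, hβ, h⟩
  set s : ℝ := (l + r) / 2 with hs
  obtain ⟨q, hqS, hqP, hq1, hq2, -, -⟩ := hSpec H T a ha hsa s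
  have hne0 : ∀ (g : ℝ → ℝ) (_ : Continuous g) (t : ℝ), t ∈ spectrum ℝ a → g t ≠ 0 → cfc g a ≠ 0 := by
    intro g hg t ht hgt h0
    have h3 := cfc_map_spectrum (R := ℝ) g a hsa hg.continuousOn
    rw [h0, spectrum.zero_eq] at h3
    have h4 : g t ∈ g '' spectrum ℝ a := ⟨t, ht, rfl⟩
    rw [← h3] at h4
    exact hgt h4
  refine ⟨q, hqS, hqP, ?_, ?_⟩
  · intro h0
    have hg : Continuous (fun t : ℝ => max (t - s) 0) := by fun_prop
    have h1 := hq2 _ hg (fun t ht => max_eq_right (by linarith))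
    rw [h0, mul_zero] at h1
    refine hne0 _ hg r hr ?_ h1.symm
    show max (r - s) 0 ≠ 0
    rw [max_eq_left (by rw [hs]; linarith)]
    rw [hs]
    intro h; linarith
  · intro h0
    have hg : Continuous (fun t : ℝ => max (s - t) 0) := by fun_prop
    have h1 := hq1 _ hg (fun t ht => max_eq_right (by linarith))
    rw [h0, mul_one] at h1
    refine hne0 _ hg l hl ?_ h1
    show max (s - l) 0 ≠ 0
    rw [max_eq_left (by rw [hs]; linarith)]
    rw [hs]
    intro h; linarith

end NonscalarProj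

open NonscalarProj in
theorem nonscalarProj_proof (hSpec : Stmt_Spec.{u}) : Stmt_NonscalarProj.{u} := by
  intro H _ _ _ T hx
  obtain ⟨x, hxS, hx⟩ := hx
  have hstar : star x ∈ T.S := star_mem hxS
  -- real and imaginary parts
  set a : H →L[ℂ] H := (2⁻¹ : ℂ) • (x + star x) with ha
  set b : H →L[ℂ] H := (2⁻¹ * Complex.I : ℂ) • (star x - x) with hb
  have haS : a ∈ T.S := T.S.smul_mem (T.S.add_mem hxS hstar) _
  have hbS : b ∈ T.S := T.S.smul_mem (T.S.sub_mem hstar hxS) _
  have hasa : IsSelfAdjoint a := by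
    rw [IsSelfAdjoint, ha, star_smul, star_add, star_star, add_comm]
    simp
  have hbsa : IsSelfAdjoint b := by
    rw [IsSelfAdjoint, hb, star_smul, star_sub, star_star]
    simp only [star_mul', RCLike.star_def, Complex.conj_I, map_inv₀, Complex.conj_ofNat]
    rw [← neg_sub (star x) x, smul_neg, ← neg_smul]
    congr 1
    ring
  have hxab : x = a + Complex.I • b := by
    rw [ha, hb, smul_smul]
    have : Complex.I * (2⁻¹ * Complex.I) = -2⁻¹ := by
      rw [mul_left_comm, Complex.I_mul_I]; ring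
    rw [this, neg_smul, smul_add, smul_sub]
    have h2 : x = (2⁻¹ : ℂ) • x + (2⁻¹ : ℂ) • x := by
      rw [← add_smul]
      norm_num
    nth_rewrite 1 [h2]
    abel
  by_cases h1 : ∃ c : ℂ, a = c • (1 : H →L[ℂ] H)
  · by_cases h2 : ∃ c : ℂ, b = c • (1 : H →L[ℂ] H)
    · obtain ⟨c, hc⟩ := h1
      obtain ⟨d, hd⟩ := h2
      exfalso
      apply hx (c + Complex.I * d)
      rw [hxab, hc, hd, smul_smul, add_smul]
    · push Not at h2
      exact sa_case hSpec T b hbS hbsa h2
  · push Not at h1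
    exact sa_case hSpec T a haS hasa h1

end Pool.Agent.OS
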