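import Pool.Agent.OS.Stmts
import Pool.Agent.OS.Basic

set_option autoImplicit false

/-!
# A `II_1` factor in standard form, and its von Neumann subalgebras, are `TVN`s
-/

open Filter Topology
open scoped InnerProductSpace

namespace Pool.Agent.OS

universe u

namespace OfVN

variable {H : Type u} [NormedAddCommGroup H] [InnerProductSpace ℂ H] [CompleteSpace H]

theorem inner_star_apply (x : H →L[ℂ] H) (ξ η : H) : ⟪ξ, (star x) η⟫_ℂ = ⟪x ξ, η⟫_ℂ := by
  rw [ContinuousLinearMap.star_eq_adjoint, ContinuousLinearMap.adjoint_inner_right]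

/-- the 2-norm and the trace -/
theorem norm_star_vec {M : VonNeumannAlgebra H} {Ω : H} (h : IsII1 M Ω) {x : H →L[ℂ] H} (hx : x ∈ M) :
    ‖(star x) Ω‖ = ‖x Ω‖ := by
  have h1 : ⟪Ω, (star x) (x Ω)⟫_ℂ = ((‖x Ω‖ ^ 2 : ℝ) : ℂ) := by
    rw [inner_star_apply, inner_self_eq_norm_sq_to_K]; norm_cast
  have h2 : ⟪Ω, x ((star x) Ω)⟫_ℂ = ((‖(star x) Ω‖ ^ 2 : ℝ) : ℂ) := by
    have e := inner_star_apply (star x) Ω ((star x) Ω)
    rw [star_star] at e
    rw [e, inner_self_eq_norm_sq_to_K]; norm_cast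
  have h3 := h.trace (star x) (star_mem hx) x hx
  rw [h1, h2] at h3
  have h4 : ‖x Ω‖ ^ 2 = ‖(star x) Ω‖ ^ 2 := by exact_mod_cast h3
  exact ((sq_eq_sq₀ (norm_nonneg _) (norm_nonneg _)).1 h4).symm

/-- `‖z y Ω‖ ≤ ‖y‖ ‖z Ω‖`. -/
theorem norm_mul_vec {M : VonNeumannAlgebra H} {Ω : H} (h : IsII1 M Ω) {z y : H →L[ℂ] H} (hz : z ∈ M)
    (hy : y ∈ M) : ‖z (y Ω)‖ ≤ ‖y‖ * ‖z Ω‖ := by
  have h1 : ‖(z * y) Ω‖ = ‖(star (z * y)) Ω‖ := (norm_star_vec h (mul_mem hz hy)).symm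
  have h2 : (star (z * y)) Ω = (star y) ((star z) Ω) := by rw [star_mul]; rfl
  have h3 : z (y Ω) = (z * y) Ω := rfl
  rw [h3, h1, h2]
  calc _ ≤ ‖star y‖ * ‖(star z) Ω‖ := (star y).le_opNorm _
    _ = ‖y‖ * ‖z Ω‖ := by rw [_root_.norm_star, norm_star_vec h hz]

theorem exists_limit {M P : VonNeumannAlgebra H} {Ω : H} (h : IsII1 M Ω) (hPM : P ≤ M)
    (x : ℕ → H →L[ℂ] H) (hx : ∀ n, x n ∈ P) (h1 : ∀ n, ‖x n‖ ≤ 1) (hc : CauchySeq (fun n => x n Ω)) :
    ∃ y ∈ P, ‖y‖ ≤ 1 ∧ Tendsto (fun n => x n Ω) atTop (𝓝 (y Ω)) := by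
  -- pointwise Cauchy
  have hC : ∀ ξ : H, CauchySeq (fun n => x n ξ) := by
    intro ξ
    rw [Metric.cauchySeq_iff']
    intro ε hε
    obtain ⟨η, ⟨y, hy, rfl⟩, hη⟩ : ∃ η ∈ {ξ : H | ∃ x ∈ M, ξ = x Ω}, dist ξ η < ε / 4 :=
      Metric.dense_iff.1 h.cyclic ξ (ε / 4) (by positivity) |>.imp fun η hη => ⟨hη.2, by
        have := hη.1
        rw [Metric.mem_ball, dist_comm] at this
        exact this⟩
    obtain ⟨N, hN⟩ := Metric.cauchySeq_iff'.1 hc (ε / (4 * (‖y‖ + 1))) (by positivity)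
    refine ⟨N, fun n hn => ?_⟩
    have e1 : x n ξ - x N ξ = x n (ξ - y Ω) - x N (ξ - y Ω) + (x n - x N) (y Ω) := by
      have e0 : (x n - x N) (y Ω) = x n (y Ω) - x N (y Ω) := rfl
      rw [e0, map_sub, map_sub]
      abel
    rw [dist_eq_norm, e1]
    have e2 : ‖x n (ξ - y Ω)‖ ≤ ε / 4 := by
      refine ((x n).le_opNorm _).trans ?_
      rw [← dist_eq_norm]
      nlinarith [h1 n, norm_nonneg (x n), dist_nonneg (x := ξ) (y := y Ω)]
    have e3 : ‖x N (ξ - y Ω)‖ ≤ ε / 4 := by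
      refine ((x N).le_opNorm _).trans ?_
      rw [← dist_eq_norm]
      nlinarith [h1 N, norm_nonneg (x N), dist_nonneg (x := ξ) (y := y Ω)]
    have e4 : ‖(x n - x N) (y Ω)‖ ≤ ε / 4 := by
      have f1 := norm_mul_vec h (sub_mem (hPM (hx n)) (hPM (hx N))) hy
      have f2 := hN n hn
      rw [dist_eq_norm] at f2
      have f3 : (x n - x N) Ω = x n Ω - x N Ω := rfl
      rw [f3] at f1
      refine f1.trans ?_
      calc ‖y‖ * ‖x n Ω - x N Ω‖ ≤ ‖y‖ * (ε / (4 * (‖y‖ + 1))) :=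
            mul_le_mul_of_nonneg_left f2.le (norm_nonneg _)
        _ ≤ (‖y‖ + 1) * (ε / (4 * (‖y‖ + 1))) := by
            refine mul_le_mul_of_nonneg_right (by linarith) (by positivity)
        _ = ε / 4 := by
            have : ‖y‖ + 1 ≠ 0 := by positivity
            field_simp
    calc _ ≤ ‖x n (ξ - y Ω) - x N (ξ - y Ω)‖ + ‖(x n - x N) (y Ω)‖ := norm_add_le _ _
      _ ≤ ‖x n (ξ - y Ω)‖ + ‖x N (ξ - y Ω)‖ + ‖(x n - x N) (y Ω)‖ := by
          gcongr; exact norm_sub_le _ _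
      _ < ε := by linarith
  choose f hf using fun ξ => cauchySeq_tendsto_of_complete (hC ξ)
  have hf' : Tendsto (fun n ξ => x n ξ) atTop (𝓝 f) := tendsto_pi_nhds.2 hf
  set y : H →L[ℂ] H := continuousLinearMapOfTendsto x hf' with hy
  have hyf : ∀ ξ, y ξ = f ξ := fun ξ => rfl
  refine ⟨y, ?_, ?_, ?_⟩
  · rw [← VonNeumannAlgebra.commutant_commutant P, VonNeumannAlgebra.mem_commutant_iff]
    intro g hg
    have hg' := VonNeumannAlgebra.mem_commutant_iff.1 hg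
    ext ξ
    have t1 : Tendsto (fun n => g (x n ξ)) atTop (𝓝 (g (f ξ))) := (g.continuous.tendsto _).comp (hf ξ)
    have t2 : Tendsto (fun n => x n (g ξ)) atTop (𝓝 (f (g ξ))) := hf (g ξ)
    have t3 : (fun n => g (x n ξ)) = fun n => x n (g ξ) := by
      funext n
      have := hg' (x n) (hx n)
      exact (congrArg (fun L : H →L[ℂ] H => L ξ) this).symm
    rw [t3] at t1
    exact tendsto_nhds_unique t1 t2
  · refine ContinuousLinearMap.opNorm_le_bound _ zero_le_one fun ξ => ?_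
    rw [hyf, one_mul]
    refine le_of_tendsto (hf ξ).norm (Eventually.of_forall fun n => ?_)
    calc ‖x n ξ‖ ≤ ‖x n‖ * ‖ξ‖ := (x n).le_opNorm _
      _ ≤ 1 * ‖ξ‖ := mul_le_mul_of_nonneg_right (h1 n) (norm_nonneg _)
      _ = ‖ξ‖ := one_mul _
  · exact hf Ω

end OfVN

open OfVN in
theorem ofVN_proof : Stmt_OfVN.{u} := by
  intro H _ _ _ M Ω h P hPM
  refine ⟨{ S := P.toStarSubalgebra, Ω := Ω, norm_Ω := h.norm_Ω, closed := ?_, trace := ?_, sep := ?_,
            complete := ?_ }, rfl, fun x => Iff.rfl⟩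
  · have := VonNeumannAlgebra.centralizer_centralizer P
    change IsClosed (P : Set (H →L[ℂ] H))
    rw [← this]
    exact Set.isClosed_centralizer _
  · intro x hx y hy
    exact h.trace x (hPM hx) y (hPM hy)
  · intro x hx h0
    have hxM : x ∈ M := hPM hx
    have key : ∀ y ∈ M, x (y Ω) = 0 := by
      intro y hy
      have := norm_mul_vec h hxM hy
      rw [h0, norm_zero, mul_zero] at this
      exact norm_le_zero_iff.1 this
    have : (x : H → H) = fun _ => 0 := by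
      refine Continuous.ext_on h.cyclic x.continuous continuous_const ?_
      rintro ξ ⟨y, hy, rfl⟩
      exact key y hy
    ext ξ
    exact congrFun this ξ
  · intro x hx h1 hc
    exact exists_limit h hPM x hx h1 hc

end Pool.Agent.OS
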