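import Pool.Agent.OS.Stmts
import Pool.Agent.OS.Basic

set_option autoImplicit false

/-!
# The elements of `P0` form a `TVN`
-/

open Filter Topology
open scoped InnerProductSpace

namespace Pool.Agent.OS

universe u

namespace P0

variable {H : Type u} [NormedAddCommGroup H] [InnerProductSpace ℂ H] [CompleteSpace H]

lemma UN_mono {T : TVN H} {N : Set (H →L[ℂ] H)} {F F' : Finset (H →L[ℂ] H)} {ε ε' : ℝ}
    (hF : F' ⊆ F) (hε : ε ≤ ε') : T.UN N F ε ⊆ T.UN N F' ε' :=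
  fun _ hw => ⟨hw.1, hw.2.1, hw.2.2.mono hF hε⟩

/-- An element which is a 2-norm limit of elements of `P0` is in `P0`. -/
lemma mem_of_approx {T : TVN H} {N : Set (H →L[ℂ] H)} {y : H →L[ℂ] H} (hy : y ∈ T.S)
    (h : ∀ δ > 0, ∃ a ∈ T.P0 N, ‖(y - a) T.Ω‖ ≤ δ) : y ∈ T.P0 N := by
  refine ⟨hy, fun δ hδ => ?_⟩
  obtain ⟨a, ha, had⟩ := h (δ / 3) (by positivity)
  obtain ⟨F, ε, hε, hF⟩ := ha.2 (δ / 3) (by positivity)
  refine ⟨F, ε, hε, fun w hw => ?_⟩
  have e : w * y - y * w = w * (y - a) + (w * a - a * w) - (y - a) * w := by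
    noncomm_ring
  have hya : y - a ∈ T.S := sub_mem hy ha.1
  rw [e]
  have h1 : ‖(w * (y - a)) T.Ω‖ = ‖(y - a) T.Ω‖ := T.norm_unitary_mul hw.2.1
  have h2 : ‖((y - a) * w) T.Ω‖ = ‖(y - a) T.Ω‖ := T.norm_mul_unitary hya hw.1 hw.2.1
  have h3 := hF w hw
  calc ‖(w * (y - a) + (w * a - a * w) - (y - a) * w) T.Ω‖
      = ‖(w * (y - a)) T.Ω + (w * a - a * w) T.Ω - ((y - a) * w) T.Ω‖ := rfl
    _ ≤ ‖(w * (y - a)) T.Ω + (w * a - a * w) T.Ω‖ + ‖((y - a) * w) T.Ω‖ := norm_sub_le _ _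
    _ ≤ ‖(w * (y - a)) T.Ω‖ + ‖(w * a - a * w) T.Ω‖ + ‖((y - a) * w) T.Ω‖ := by
        gcongr
        exact norm_add_le _ _
    _ ≤ δ := by rw [h1, h2]; linarith

end P0

open P0 in
theorem p0_proof : Stmt_P0.{u} := by
  intro H _ _ _ T N hN
  refine ⟨{
    S :=
      { carrier := T.P0 N
        mul_mem' := ?_
        one_mem' := ?_
        add_mem' := ?_
        zero_mem' := ?_
        algebraMap_mem' := ?_
        star_mem' := ?_ }
    Ω := T.Ω
    norm_Ω := T.norm_Ω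
    closed := ?_
    trace := ?_
    sep := ?_
    complete := ?_ }, rfl, fun a => Iff.rfl⟩
  · -- mul
    intro a b ha hb
    refine ⟨mul_mem ha.1 hb.1, fun δ hδ => ?_⟩
    have hb0 : 0 ≤ ‖b‖ := norm_nonneg b
    have ha0 : 0 ≤ ‖a‖ := norm_nonneg a
    obtain ⟨F, ε, hε, hF⟩ := ha.2 (δ / (2 * (‖b‖ + 1))) (by positivity)
    obtain ⟨F', ε', hε', hF'⟩ := hb.2 (δ / (2 * (‖a‖ + 1))) (by positivity)
    classical
    refine ⟨F ∪ F', min ε ε', lt_min hε hε', fun w hw => ?_⟩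
    have h1 := hF w (UN_mono Finset.subset_union_left (min_le_left _ _) hw)
    have h2 := hF' w (UN_mono Finset.subset_union_right (min_le_right _ _) hw)
    have e : w * (a * b) - a * b * w = (w * a - a * w) * b + a * (w * b - b * w) := by
      noncomm_ring
    have hwa : w * a - a * w ∈ T.S := sub_mem (mul_mem hw.1 ha.1) (mul_mem ha.1 hw.1)
    rw [e]
    have k1 : ‖((w * a - a * w) * b) T.Ω‖ ≤ ‖b‖ * (δ / (2 * (‖b‖ + 1))) :=
      (T.norm_mul_right hwa hb.1).trans (mul_le_mul_of_nonneg_left h1 hb0)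
    have k2 : ‖(a * (w * b - b * w)) T.Ω‖ ≤ ‖a‖ * (δ / (2 * (‖a‖ + 1))) :=
      (T.norm_mul_le _ _).trans (mul_le_mul_of_nonneg_left h2 ha0)
    have k3 : ∀ t : ℝ, 0 ≤ t → t * (δ / (2 * (t + 1))) ≤ δ / 2 := by
      intro t ht
      rw [mul_div_assoc', div_le_div_iff₀ (by positivity) (by norm_num)]
      nlinarith
    calc ‖((w * a - a * w) * b + a * (w * b - b * w)) T.Ω‖
        ≤ ‖((w * a - a * w) * b) T.Ω‖ + ‖(a * (w * b - b * w)) T.Ω‖ := norm_add_le _ _
      _ ≤ δ / 2 + δ / 2 := add_le_add (k1.trans (k3 _ hb0)) (k2.trans (k3 _ ha0))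
      _ = δ := by ring
  · -- one
    refine ⟨one_mem _, fun δ hδ => ⟨∅, 1, one_pos, fun w _ => ?_⟩⟩
    simpa using hδ.le
  · -- add
    intro a b ha hb
    refine ⟨add_mem ha.1 hb.1, fun δ hδ => ?_⟩
    obtain ⟨F, ε, hε, hF⟩ := ha.2 (δ / 2) (by positivity)
    obtain ⟨F', ε', hε', hF'⟩ := hb.2 (δ / 2) (by positivity)
    classical
    refine ⟨F ∪ F', min ε ε', lt_min hε hε', fun w hw => ?_⟩
    have h1 := hF w (UN_mono Finset.subset_union_left (min_le_left _ _) hw)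
    have h2 := hF' w (UN_mono Finset.subset_union_right (min_le_right _ _) hw)
    have e : w * (a + b) - (a + b) * w = (w * a - a * w) + (w * b - b * w) := by
      noncomm_ring
    rw [e]
    calc ‖((w * a - a * w) + (w * b - b * w)) T.Ω‖
        ≤ ‖(w * a - a * w) T.Ω‖ + ‖(w * b - b * w) T.Ω‖ := norm_add_le _ _
      _ ≤ δ / 2 + δ / 2 := add_le_add h1 h2
      _ = δ := by ring
  · -- zero
    refine ⟨zero_mem _, fun δ hδ => ⟨∅, 1, one_pos, fun w _ => ?_⟩⟩
    simpa using hδ.le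
  · -- algebraMap
    intro r
    refine ⟨algebraMap_mem _ r, fun δ hδ => ⟨∅, 1, one_pos, fun w _ => ?_⟩⟩
    have e : w * algebraMap ℂ (H →L[ℂ] H) r - algebraMap ℂ (H →L[ℂ] H) r * w = 0 := by
      rw [Algebra.commutes, sub_self]
    rw [e]
    simpa using hδ.le
  · -- star
    intro a ha
    refine ⟨star_mem ha.1, fun δ hδ => ?_⟩
    obtain ⟨F, ε, hε, hF⟩ := ha.2 δ hδ
    refine ⟨F, ε, hε, fun w hw => ?_⟩
    have h1 := hF (star w) (T.UN_star hN hw)
    have hs : star w * a - a * star w ∈ T.S :=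
      sub_mem (mul_mem (star_mem hw.1) ha.1) (mul_mem ha.1 (star_mem hw.1))
    have h2 := T.norm_star hs
    have e : star (star w * a - a * star w) = -(w * star a - star a * w) := by
      simp [star_sub, star_mul]
    rw [e, _root_.neg_apply, norm_neg] at h2
    rw [h2]
    exact h1
  · -- closed
    change IsClosed (T.P0 N)
    refine isClosed_of_closure_subset fun y hy => ?_
    have hyS : y ∈ T.S := by
      have : closure (T.P0 N) ⊆ (T.S : Set (H →L[ℂ] H)) :=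
        closure_minimal (fun a ha => ha.1) T.closed
      exact this hy
    refine mem_of_approx hyS fun δ hδ => ?_
    obtain ⟨a, ha, had⟩ := Metric.mem_closure_iff.1 hy δ hδ
    refine ⟨a, ha, (T.norm_le _).trans ?_⟩
    rw [← dist_eq_norm]
    exact had.le
  · -- trace
    intro x hx y hy
    exact T.trace x hx.1 y hy.1
  · -- sep
    intro x hx h
    exact T.sep x hx.1 h
  · -- complete
    intro x hx h1 hc
    obtain ⟨y, hy, hy1, hy2⟩ := T.complete x (fun n => (hx n).1) h1 hc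
    refine ⟨y, mem_of_approx hy fun δ hδ => ?_, hy1, hy2⟩
    rw [Metric.tendsto_atTop] at hy2
    obtain ⟨n, hn⟩ := hy2 δ hδ
    refine ⟨x n, hx n, ?_⟩
    have := hn n le_rfl
    rw [dist_comm, dist_eq_norm] at this
    simpa using this.le

end Pool.Agent.OS
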