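import Pool.Agent.OS.Stmts
import Pool.Agent.OS.Basic

/-!
# Partial isometries (`Stmt_PIso`)
-/

set_option autoImplicit false

open Filter Topology
open scoped InnerProductSpace

namespace Pool.Agent.OS

universe u

namespace PIso

variable {H : Type u} [NormedAddCommGroup H] [InnerProductSpace ℂ H] [CompleteSpace H]

/-- functional calculus stays in `S` -/
theorem cfc_mem_S (T : TVN H) (g : ℝ → ℝ) {a : H →L[ℂ] H} (ha : a ∈ T.S) : cfc g a ∈ T.S := by
  have := T.closed
  exact cfc_mem (𝕜' := ℂ) (s := T.S) g ha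

/-- positive elements: a nonzero spectral projection -/
theorem spec_ne (hSpec : Stmt_Spec.{u}) (T : TVN H) (b : H →L[ℂ] H) (hb : b ∈ T.S)
    (hb0 : 0 ≤ b) (hbne : b ≠ 0) {s : ℝ} (hs0 : 0 < s) (hs : s < ‖b‖) :
    ∃ q ∈ T.S, IsStarProjection q ∧ q ≠ 0 ∧
      (∀ g : ℝ → ℝ, Continuous g → (∀ x, s < x → g x = 0) → cfc g b * q = 0) ∧
      (∀ g : ℝ → ℝ, Continuous g → (∀ x, x ≤ s → g x = 0) → cfc g b * q = cfc g b) ∧
      (∀ y ∈ T.S, y * b = b * y → y * q = q * y) ∧
      (∀ y ∈ T.S, b * y = 0 → q * y = 0) := by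
  have hsa : IsSelfAdjoint b := IsSelfAdjoint.of_nonneg hb0
  obtain ⟨q, hq, hqp, h1, h2, h3, h4⟩ := hSpec H T b hb hsa s
  have hnt : Nontrivial (H →L[ℂ] H) := ⟨b, 0, hbne⟩
  refine ⟨q, hq, hqp, ?_, h1, h2, h3, h4 hs0.le⟩
  intro hq0
  have hg : Continuous (fun t : ℝ => max 0 (t - s)) := by fun_prop
  have h5 := h2 (fun t => max 0 (t - s)) hg (by intro x hx; exact max_eq_left (by linarith))
  rw [hq0, mul_zero] at h5
  have h6 : ‖b‖ ∈ spectrum ℝ b := CStarAlgebra.norm_mem_spectrum_of_nonneg hb0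
  have h7 := norm_apply_le_norm_cfc (fun t : ℝ => max 0 (t - s)) b h6
  rw [← h5, norm_zero] at h7
  have h8 : max 0 (‖b‖ - s) = ‖b‖ - s := max_eq_right (by linarith)
  simp only [h8, Real.norm_eq_abs] at h7
  have := abs_pos.2 (show ‖b‖ - s ≠ 0 by linarith)
  linarith

end PIso

theorem pIso_proof (hSpec : Stmt_Spec.{u}) : Stmt_PIso.{u} := by
  intro H _ _ _ T e f x he hf hx hep hfp hne
  obtain ⟨v0, hv0⟩ : ∃ v0, v0 = e * x * f := ⟨_, rfl⟩
  have hv0S : v0 ∈ T.S := by rw [hv0]; exact mul_mem (mul_mem he hx) hf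
  have hv0ne : v0 ≠ 0 := by rw [hv0]; exact hne
  have hev : e * v0 = v0 := by
    rw [hv0, ← mul_assoc, ← mul_assoc, hep.isIdempotentElem.eq]
  have hvf : v0 * f = v0 := by
    rw [hv0, mul_assoc, hfp.isIdempotentElem.eq]
  obtain ⟨b, hbdef⟩ : ∃ b, b = star v0 * v0 := ⟨_, rfl⟩
  have hbS : b ∈ T.S := by rw [hbdef]; exact mul_mem (star_mem hv0S) hv0S
  have hb0 : 0 ≤ b := by rw [hbdef]; exact star_mul_self_nonneg v0
  have hbn : ‖b‖ = ‖v0‖ * ‖v0‖ := by rw [hbdef]; exact CStarRing.norm_star_mul_self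
  have hbpos : 0 < ‖b‖ := by
    rw [hbn]; exact mul_pos (norm_pos_iff.2 hv0ne) (norm_pos_iff.2 hv0ne)
  have hbne : b ≠ 0 := norm_pos_iff.1 hbpos
  have hsa : IsSelfAdjoint b := IsSelfAdjoint.of_nonneg hb0
  obtain ⟨s, hsdef⟩ : ∃ s, s = ‖b‖ / 2 := ⟨_, rfl⟩
  have hs0 : 0 < s := by rw [hsdef]; linarith
  have hs1 : s < ‖b‖ := by rw [hsdef]; linarith
  obtain ⟨q, hq, hqp, hqne, h1, h2, h3, h4⟩ := PIso.spec_ne hSpec T b hbS hb0 hbne hs0 hs1
  have hqq := hqp.isIdempotentElem.eq
  have hqs := hqp.isSelfAdjoint.star_eq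
  let kf : ℝ → ℝ := fun t => 1 / Real.sqrt (max t s)
  have hmax : ∀ t : ℝ, 0 < max t s := fun t => lt_of_lt_of_le hs0 (le_max_right _ _)
  have hkc : Continuous kf := by
    apply Continuous.div continuous_const
    · exact Real.continuous_sqrt.comp (continuous_id.max continuous_const)
    · intro t; exact (Real.sqrt_pos.2 (hmax t)).ne'
  obtain ⟨c, hcdef⟩ : ∃ c, c = cfc kf b := ⟨_, rfl⟩
  have hcS : c ∈ T.S := by rw [hcdef]; exact PIso.cfc_mem_S T kf hbS
  have hcs : star c = c := by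
    rw [hcdef]; exact (cfc_predicate kf b : IsSelfAdjoint (cfc kf b)).star_eq
  -- the product `c b c`
  have hcbc : c * b * c = cfc (fun t : ℝ => t / max t s) b := by
    have e1 : b = cfc (fun t : ℝ => t) b := (cfc_id' ℝ b).symm
    rw [hcdef]
    conv_lhs => rw [mul_assoc]; enter [2]; rw [show b * cfc kf b = cfc (fun t : ℝ => t) b *
      cfc kf b by rw [← e1]]
    rw [← cfc_mul (fun t : ℝ => t) kf b continuous_id.continuousOn hkc.continuousOn,
      ← cfc_mul kf (fun t : ℝ => t * kf t) b hkc.continuousOn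
        (continuous_id.mul hkc).continuousOn]
    apply cfc_congr
    intro t _
    simp only [kf]
    have h5 := Real.mul_self_sqrt (hmax t).le
    have h6 := (Real.sqrt_pos.2 (hmax t)).ne'
    rw [div_mul_eq_mul_div, one_mul, mul_one_div, div_div, h5]
  have hmc : Continuous (fun t : ℝ => t / max t s) := by
    apply Continuous.div continuous_id (continuous_id.max continuous_const)
    intro t; exact (hmax t).ne'
  have hq1 : cfc (fun t : ℝ => t / max t s) b * q = q := by
    have h5 := h1 (fun t : ℝ => 1 - t / max t s) (continuous_const.sub hmc) (by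
      intro t ht
      rw [max_eq_left ht.le, div_self (by linarith), sub_self])
    rw [cfc_sub (fun _ : ℝ => (1 : ℝ)) (fun t : ℝ => t / max t s) b
      continuous_const.continuousOn hmc.continuousOn, cfc_const_one ℝ b, sub_mul, one_mul,
      sub_eq_zero] at h5
    exact h5.symm
  let v := v0 * c * q
  have hvS : v ∈ T.S := mul_mem (mul_mem hv0S hcS) hq
  have hvv : star v * v = q := by
    have e1 : star v * v = q * (c * b * c * q) := by
      simp only [v, star_mul, hqs, hcs, hbdef, mul_assoc]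
    rw [e1, hcbc, hq1, hqq]
  have hvq : v * q = v := by simp only [v]; rw [mul_assoc, hqq]
  have hevv : e * v = v := by
    simp only [v]
    rw [← mul_assoc, ← mul_assoc, hev]
  refine ⟨v, hvS, ?_, ?_, ?_, ?_, ?_⟩
  · intro hv
    rw [hv, mul_zero] at hvv
    exact hqne hvv.symm
  · rw [hvv]; exact hqp
  · refine ⟨?_, ?_⟩
    · change v * star v * (v * star v) = v * star v
      rw [mul_assoc, ← mul_assoc (star v), hvv, ← mul_assoc, hvq]
    · change star (v * star v) = v * star v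
      rw [star_mul, star_star]
  · rw [hvv]
    have h5 := h4 (1 - f) (sub_mem (one_mem _) hf) (by
      rw [mul_sub, mul_one, hbdef, mul_assoc, hvf, sub_self])
    rw [mul_sub, mul_one, sub_eq_zero] at h5
    exact h5.symm
  · rw [mul_assoc]
    have h5 : star v * e = star v := by
      have := congrArg star hevv
      rwa [star_mul, hep.isSelfAdjoint.star_eq] at this
    rw [h5]

end Pool.Agent.OS
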