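import Pool.Agent.OS.Stmts
import Pool.Agent.OS.Basic

set_option autoImplicit false

/-!
# Lifting partitions to the algebra (module PartLift of MP_7c16f6_an)
-/

open Filter Topology
open scoped InnerProductSpace

namespace Pool.Agent.OS.PartLift

universe u

section Bd

variable {H : Type u} [NormedAddCommGroup H] [InnerProductSpace ℂ H] [CompleteSpace H]
  {T : TVN H} {Λ : Type u}

lemma bd_add {a b : Λ → H →L[ℂ] H} (ha : T.Bd a) (hb : T.Bd b) : T.Bd (a + b) := by
  obtain ⟨ha, C, hC⟩ := ha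
  obtain ⟨hb, D, hD⟩ := hb
  exact ⟨fun l => add_mem (ha l) (hb l), C + D, fun l =>
    (norm_add_le _ _).trans (add_le_add (hC l) (hD l))⟩

lemma bd_mul {a b : Λ → H →L[ℂ] H} (ha : T.Bd a) (hb : T.Bd b) : T.Bd (a * b) := by
  obtain ⟨ha, C, hC⟩ := ha
  obtain ⟨hb, D, hD⟩ := hb
  exact ⟨fun l => mul_mem (ha l) (hb l), C * D, fun l =>
    (norm_mul_le _ _).trans (mul_le_mul (hC l) (hD l) (norm_nonneg _)
      ((norm_nonneg _).trans (hC l)))⟩

lemma bd_smul (c : ℂ) {a : Λ → H →L[ℂ] H} (ha : T.Bd a) : T.Bd (c • a) := by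
  obtain ⟨ha, C, hC⟩ := ha
  refine ⟨fun l => SMulMemClass.smul_mem _ (ha l), ‖c‖ * C, fun l => ?_⟩
  rw [Pi.smul_apply, norm_smul]
  exact mul_le_mul_of_nonneg_left (hC l) (norm_nonneg _)

lemma bd_star {a : Λ → H →L[ℂ] H} (ha : T.Bd a) : T.Bd (star a) := by
  obtain ⟨ha, C, hC⟩ := ha
  refine ⟨fun l => star_mem (ha l), C, fun l => ?_⟩
  rw [Pi.star_apply, norm_star]
  exact hC l

lemma bd_one : T.Bd (1 : Λ → H →L[ℂ] H) :=
  ⟨fun _ => one_mem _, ‖(1 : H →L[ℂ] H)‖, fun _ => le_rfl⟩

lemma bd_zero : T.Bd (0 : Λ → H →L[ℂ] H) :=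
  ⟨fun _ => zero_mem _, 0, fun _ => by simp⟩

lemma bd_sub {a b : Λ → H →L[ℂ] H} (ha : T.Bd a) (hb : T.Bd b) : T.Bd (a - b) := by
  have := bd_add ha (bd_smul (-1) hb)
  rwa [neg_one_smul, ← sub_eq_add_neg] at this

lemma bd_proj {a : Λ → H →L[ℂ] H} (ha : ∀ l, a l ∈ T.S) (h : ∀ l, IsStarProjection (a l)) :
    T.Bd a := ⟨ha, 1, fun l => (h l).norm_le⟩

lemma bd_sum {ι : Type*} (s : Finset ι) {a : ι → Λ → H →L[ℂ] H} (h : ∀ i ∈ s, T.Bd (a i)) :
    T.Bd (∑ i ∈ s, a i) := by
  classical
  induction s using Finset.induction_on with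
  | empty => simpa using bd_zero
  | insert i s hi ih =>
    rw [Finset.sum_insert hi]
    exact bd_add (h i (Finset.mem_insert_self _ _))
      (ih fun j hj => h j (Finset.mem_insert_of_mem hj))

variable {U : Ultrafilter Λ} (P : UPack T Λ U)

lemma pi_zero : P.π 0 = 0 := by
  have := P.map_smul 0 1 bd_one
  rwa [zero_smul, zero_smul] at this

lemma pi_sub {a b : Λ → H →L[ℂ] H} (ha : T.Bd a) (hb : T.Bd b) :
    P.π (a - b) = P.π a - P.π b := by
  have := P.map_add a ((-1 : ℂ) • b) ha (bd_smul (-1) hb)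
  rwa [P.map_smul _ _ hb, neg_one_smul, neg_one_smul, ← sub_eq_add_neg, ← sub_eq_add_neg]
    at this

lemma pi_sum {ι : Type*} (s : Finset ι) {a : ι → Λ → H →L[ℂ] H} (h : ∀ i ∈ s, T.Bd (a i)) :
    P.π (∑ i ∈ s, a i) = ∑ i ∈ s, P.π (a i) := by
  classical
  induction s using Finset.induction_on with
  | empty => simpa using pi_zero P
  | insert i s hi ih =>
    rw [Finset.sum_insert hi, Finset.sum_insert hi, P.map_add _ _
      (h i (Finset.mem_insert_self _ _)) (bd_sum s fun j hj => h j (Finset.mem_insert_of_mem hj)),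
      ih fun j hj => h j (Finset.mem_insert_of_mem hj)]

/-- elements with 2-norm tending to zero represent zero -/
lemma pi_eq_zero {a : Λ → H →L[ℂ] H} (ha : T.Bd a)
    (h : Tendsto (fun l => ‖a l T.Ω‖) U (𝓝 0)) : P.π a = 0 := by
  have h1 := tendsto_nhds_unique (P.norm_tendsto a ha) h
  exact P.That.sep _ (P.mem a ha) (norm_eq_zero.1 h1)

/-- elements representing zero have 2-norm tending to zero -/
lemma tendsto_of_pi_eq_zero {a : Λ → H →L[ℂ] H} (ha : T.Bd a) (h : P.π a = 0) :
    Tendsto (fun l => ‖a l T.Ω‖) U (𝓝 0) := by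
  have h1 := P.norm_tendsto a ha
  rwa [h, _root_.zero_apply, norm_zero] at h1

/-- self-adjoint lifts -/
lemma lift_sa {X : P.L →L[ℂ] P.L} (hX : X ∈ P.That.S) (hs : IsSelfAdjoint X) :
    ∃ a : Λ → H →L[ℂ] H, T.Bd a ∧ (∀ l, IsSelfAdjoint (a l)) ∧ P.π a = X := by
  obtain ⟨a, ha, hn, hπ⟩ := P.lift X hX
  have hb : T.Bd a := ⟨ha, ‖X‖, hn⟩
  refine ⟨(1 / 2 : ℂ) • (a + star a), bd_smul _ (bd_add hb (bd_star hb)), fun l => ?_, ?_⟩
  · rw [isSelfAdjoint_iff]
    simp [star_smul, add_comm]
  · rw [P.map_smul _ _ (bd_add hb (bd_star hb)), P.map_add _ _ hb (bd_star hb),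
      P.map_star _ hb, hπ, hs.star_eq, ← two_smul ℂ X, smul_smul]
    norm_num

/-- sums of orthogonal projections are projections -/
lemma proj_sum {k : ℕ} {q : Fin k → H →L[ℂ] H} (hp : ∀ j, IsStarProjection (q j))
    (ho : ∀ i j, i ≠ j → q i * q j = 0) : IsStarProjection (∑ j, q j) := by
  refine ⟨?_, ?_⟩
  · show (∑ j, q j) * (∑ j, q j) = ∑ j, q j
    rw [Finset.sum_mul]
    refine Finset.sum_congr rfl fun i _ => ?_
    rw [Finset.mul_sum, Finset.sum_eq_single i (fun j _ hj => ho i j (Ne.symm hj)) (by simp)]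
    exact (hp i).isIdempotentElem.eq
  · rw [isSelfAdjoint_iff, star_sum]
    exact Finset.sum_congr rfl fun i _ => (hp i).isSelfAdjoint.star_eq

lemma sum_mul_single {k : ℕ} {q : Fin k → H →L[ℂ] H} (hp : ∀ j, IsStarProjection (q j))
    (ho : ∀ i j, i ≠ j → q i * q j = 0) (i : Fin k) : (∑ j, q j) * q i = q i := by
  rw [Finset.sum_mul, Finset.sum_eq_single i (fun j _ hj => ho j i hj) (by simp)]
  exact (hp i).isIdempotentElem.eq

/-- Lifting orthogonal families. -/
lemma lift_family (hNP : Stmt_NearProj.{u}) {H : Type u} [NormedAddCommGroup H]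
    [InnerProductSpace ℂ H] [CompleteSpace H] {T : TVN H} {Λ : Type u} {U : Ultrafilter Λ}
    (P : UPack T Λ U) : ∀ (k : ℕ) (Q : Fin k → P.L →L[ℂ] P.L), (∀ j, Q j ∈ P.That.S) →
    (∀ j, IsStarProjection (Q j)) → (∀ i j, i ≠ j → Q i * Q j = 0) →
    ∃ q : Fin k → Λ → H →L[ℂ] H, (∀ j l, q j l ∈ T.S) ∧ (∀ j l, IsStarProjection (q j l)) ∧
      (∀ l i j, i ≠ j → q i l * q j l = 0) ∧ ∀ j, P.π (q j) = Q j := by
  intro k
  induction k with
  | zero => exact fun Q _ _ _ => ⟨fun j => j.elim0, fun j => j.elim0, fun j => j.elim0,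
      fun _ j => j.elim0, fun j => j.elim0⟩
  | succ k ih =>
    intro Q hQ hQp hQo
    obtain ⟨q, hq, hqp, hqo, hqπ⟩ := ih (fun j => Q j.castSucc) (fun j => hQ _)
      (fun j => hQp _) (fun i j hij => hQo _ _ fun h => hij (Fin.castSucc_injective k h))
    obtain ⟨a, ha, has, haπ⟩ := lift_sa P (hQ (Fin.last k)) (hQp (Fin.last k)).isSelfAdjoint
    have hqb : ∀ j, T.Bd (q j) := fun j => bd_proj (hq j) (hqp j)
    have hsb : T.Bd (1 - ∑ j, q j) := bd_sub bd_one (bd_sum _ fun j _ => hqb j)
    have hbb : T.Bd ((1 - ∑ j, q j) * a * (1 - ∑ j, q j)) := bd_mul (bd_mul hsb ha) hsb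
    set b : Λ → H →L[ℂ] H := (1 - ∑ j, q j) * a * (1 - ∑ j, q j) with hb
    have hbl : ∀ l, b l = (1 - ∑ j, q j l) * a l * (1 - ∑ j, q j l) := by
      intro l
      simp [hb, Finset.sum_apply]
    have hsl : ∀ l, IsSelfAdjoint (1 - ∑ j, q j l) := fun l =>
      (IsSelfAdjoint.one _).sub (proj_sum (fun j => hqp j l) (hqo l)).isSelfAdjoint
    have hbs : ∀ l, IsSelfAdjoint (b l) := by
      intro l
      rw [hbl, isSelfAdjoint_iff, star_mul, star_mul, (hsl l).star_eq, (has l).star_eq,
        mul_assoc]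
    have hbq : ∀ l j, b l * q j l = 0 := by
      intro l j
      have h : (1 - ∑ j, q j l) * q j l = 0 := by
        rw [sub_mul, one_mul, sum_mul_single (fun j => hqp j l) (hqo l) j, sub_self]
      rw [hbl, mul_assoc, h, mul_zero]
    have hbπ : P.π b = Q (Fin.last k) := by
      have h1 : P.π (1 - ∑ j, q j) = 1 - ∑ j : Fin k, Q j.castSucc := by
        rw [pi_sub P bd_one (bd_sum _ fun j _ => hqb j), P.map_one, pi_sum P _ fun j _ => hqb j]
        simp only [hqπ]
      have h2 : (1 - ∑ j : Fin k, Q j.castSucc) * Q (Fin.last k) = Q (Fin.last k) := by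
        rw [sub_mul, one_mul, Finset.sum_mul,
          Finset.sum_eq_zero fun j _ => hQo _ _ (Fin.castSucc_lt_last j).ne, sub_zero]
      have h3 : Q (Fin.last k) * (1 - ∑ j : Fin k, Q j.castSucc) = Q (Fin.last k) := by
        rw [mul_sub, mul_one, Finset.mul_sum,
          Finset.sum_eq_zero fun j _ => hQo _ _ (Fin.castSucc_lt_last j).ne', sub_zero]
      rw [hb, P.map_mul _ _ (bd_mul hsb ha) hsb, P.map_mul _ _ hsb ha, h1, haπ, h2, h3]
    have hbS : ∀ l, b l ∈ T.S := hbb.1
    choose e heS hep hen _ hez using fun l => hNP H T (b l) (hbS l) (hbs l)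
    have heb : T.Bd e := bd_proj heS hep
    have heπ : P.π e = Q (Fin.last k) := by
      have h1 : P.π (b * b - b) = 0 := by
        rw [pi_sub P (bd_mul hbb hbb) hbb, P.map_mul _ _ hbb hbb, hbπ,
          (hQp (Fin.last k)).isIdempotentElem.eq, sub_self]
      have h2 := tendsto_of_pi_eq_zero P (bd_sub (bd_mul hbb hbb) hbb) h1
      have h3 : Tendsto (fun l => ‖(e - b) l T.Ω‖) U (𝓝 0) := by
        refine squeeze_zero (fun l => norm_nonneg _) (fun l => hen l) ?_
        simpa using h2.const_mul 2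
      have h4 := pi_eq_zero P (bd_sub heb hbb) h3
      rw [pi_sub P heb hbb, sub_eq_zero] at h4
      rw [h4, hbπ]
    have heq : ∀ l j, e l * q j l = 0 := fun l j => hez l (q j l) (hq j l) (hbq l j)
    have hqe : ∀ l j, q j l * e l = 0 := by
      intro l j
      have := congrArg star (heq l j)
      rwa [star_mul, (hep l).isSelfAdjoint.star_eq, (hqp j l).isSelfAdjoint.star_eq,
        star_zero] at this
    refine ⟨Fin.snoc (α := fun _ => Λ → H →L[ℂ] H) q e, ?_, ?_, ?_, ?_⟩
    · intro j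
      refine Fin.lastCases ?_ (fun j => ?_) j
      · simpa using heS
      · simpa using hq j
    · intro j
      refine Fin.lastCases ?_ (fun j => ?_) j
      · simpa using hep
      · simpa using hqp j
    · intro l i j
      refine Fin.lastCases ?_ (fun i => ?_) i
      · refine Fin.lastCases ?_ (fun j => ?_) j
        · exact fun h => absurd rfl h
        · intro _
          simpa using heq l j
      · refine Fin.lastCases ?_ (fun j => ?_) j
        · intro _
          simpa using hqe l i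
        · intro h
          simpa using hqo l i j fun h' => h (by rw [h'])
    · intro j
      refine Fin.lastCases ?_ (fun j => ?_) j
      · simpa using heπ
      · simpa using hqπ j

end Bd

end Pool.Agent.OS.PartLift

namespace Pool.Agent.OS

universe u

theorem partLift_proof (hNP : Stmt_NearProj.{u}) : Stmt_PartLift.{u} := by
  intro H _ _ _ T Λ U P k Q hQ
  rcases k with _ | k
  · exfalso
    have h := hQ.sum
    rw [Finset.univ_eq_empty, Finset.sum_empty] at h
    have h2 := P.That.norm_Ω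
    have h3 : P.That.Ω = 0 := by
      have := congrArg (fun x : P.L →L[ℂ] P.L => x P.That.Ω) h
      simpa using this.symm
    rw [h3, norm_zero] at h2
    exact zero_ne_one h2
  · obtain ⟨q, hq, hqp, hqo, hqπ⟩ := PartLift.lift_family hNP P k (fun j => Q j.castSucc)
      (fun j => hQ.mem _) (fun j => hQ.proj _)
      (fun i j hij => hQ.orth _ _ fun h => hij (Fin.castSucc_injective k h))
    have hps : ∀ l, IsStarProjection (∑ j, q j l) := fun l =>
      PartLift.proj_sum (fun j => hqp j l) (hqo l)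
    have hqb : ∀ j, T.Bd (q j) := fun j => PartLift.bd_proj (hq j) (hqp j)
    refine ⟨fun l => Fin.snoc (α := fun _ => H →L[ℂ] H) (fun j => q j l) (1 - ∑ j, q j l),
      fun l => ⟨?_, ?_, ?_, ?_⟩, ?_⟩
    · intro j
      refine Fin.lastCases ?_ (fun j => ?_) j
      · simpa using sub_mem (one_mem T.S) (sum_mem fun j _ => hq j l)
      · simpa using hq j l
    · intro j
      refine Fin.lastCases ?_ (fun j => ?_) j
      · simpa using (hps l).one_sub
      · simpa using hqp j l
    · intro i j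
      refine Fin.lastCases ?_ (fun i => ?_) i
      · refine Fin.lastCases ?_ (fun j => ?_) j
        · exact fun h => absurd rfl h
        · intro _
          beta_reduce
          rw [Fin.snoc_last, Fin.snoc_castSucc, sub_mul, one_mul,
            PartLift.sum_mul_single (fun j => hqp j l) (hqo l) j, sub_self]
      · refine Fin.lastCases ?_ (fun j => ?_) j
        · intro _
          beta_reduce
          rw [Fin.snoc_last, Fin.snoc_castSucc, mul_sub, mul_one, Finset.mul_sum,
            Finset.sum_eq_single i (fun j _ hj => hqo l i j (Ne.symm hj)) (by simp),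
            (hqp i l).isIdempotentElem.eq, sub_self]
        · intro h
          simpa using hqo l i j fun h' => h (by rw [h'])
    · rw [Fin.sum_univ_castSucc]
      simp
    · intro j
      refine Fin.lastCases ?_ (fun j => ?_) j
      · have h1 : (fun l => (Fin.snoc (α := fun _ => H →L[ℂ] H) (fun j => q j l)
            (1 - ∑ j, q j l) : Fin (k + 1) → H →L[ℂ] H) (Fin.last k)) = 1 - ∑ j, q j := by
          funext l
          simp [Finset.sum_apply]
        rw [h1, PartLift.pi_sub P PartLift.bd_one (PartLift.bd_sum _ fun j _ => hqb j),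
          P.map_one, PartLift.pi_sum P _ fun j _ => hqb j]
        have h2 := hQ.sum
        rw [Fin.sum_univ_castSucc] at h2
        simp only [hqπ]
        rw [← h2, add_sub_cancel_left]
      · simpa using hqπ j

end Pool.Agent.OS
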