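import Pool.Agent.OS.PIso

/-!
# Small partitions exclude minimal projections (`Stmt_PartNoMin`)
-/

set_option autoImplicit false

open Filter Topology
open scoped InnerProductSpace

namespace Pool.Agent.OS

universe u

theorem partNoMin_proof (hSpec : Stmt_Spec.{u}) : Stmt_PartNoMin.{u} := by
  intro H _ _ _ T hpart p hp hpp hpne
  by_contra hcon
  push Not at hcon
  have hpΩ : p T.Ω ≠ 0 := fun h => hpne (T.sep p hp h)
  have htp : 0 < ‖p T.Ω‖ ^ 2 := pow_pos (norm_pos_iff.2 hpΩ) 2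
  obtain ⟨k, q, hq, hqη⟩ := hpart (‖p T.Ω‖ ^ 2 / 2) (by linarith)
  -- some `q j * p` is not zero
  obtain ⟨j, hj⟩ : ∃ j, q j * p ≠ 0 := by
    by_contra h
    push Not at h
    apply hpne
    have h1 : (∑ j, q j) * p = 0 := by
      rw [Finset.sum_mul]; exact Finset.sum_eq_zero (fun j _ => h j)
    rwa [hq.sum, one_mul] at h1
  obtain ⟨x, hx⟩ : ∃ x, x = q j * p := ⟨_, rfl⟩
  have hxS : x ∈ T.S := by rw [hx]; exact mul_mem (hq.mem j) hp
  have hxne : x ≠ 0 := by rw [hx]; exact hj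
  obtain ⟨a, ha⟩ : ∃ a, a = star x * x := ⟨_, rfl⟩
  have haS : a ∈ T.S := by rw [ha]; exact mul_mem (star_mem hxS) hxS
  have ha0 : 0 ≤ a := by rw [ha]; exact star_mul_self_nonneg x
  have hc : ‖a‖ = ‖x‖ * ‖x‖ := by rw [ha]; exact CStarRing.norm_star_mul_self
  have hcpos : 0 < ‖a‖ := by
    rw [hc]; exact mul_pos (norm_pos_iff.2 hxne) (norm_pos_iff.2 hxne)
  have hane : a ≠ 0 := norm_pos_iff.1 hcpos
  have hsa : IsSelfAdjoint a := IsSelfAdjoint.of_nonneg ha0
  have hxp : x * p = x := by rw [hx, mul_assoc, hpp.isIdempotentElem.eq]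
  have hap : a * p = a := by rw [ha, mul_assoc, hxp]
  obtain ⟨s, hs⟩ : ∃ s, s = 3 / 4 * ‖a‖ := ⟨_, rfl⟩
  have hs0 : 0 < s := by rw [hs]; linarith
  have hs1 : s < ‖a‖ := by rw [hs]; linarith
  obtain ⟨r, hr, hrp, hrne, h1, h2, _, h4⟩ := PIso.spec_ne hSpec T a haS ha0 hane hs0 hs1
  have hrp1 : r * p = r := by
    have h5 := h4 (1 - p) (sub_mem (one_mem _) hp) (by rw [mul_sub, mul_one, hap, sub_self])
    rw [mul_sub, mul_one, sub_eq_zero] at h5
    exact h5.symm
  have hreq : r = p := by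
    by_contra hne
    exact hcon r hr hrp hrne hne hrp1
  have g1 := h1 (fun t => max 0 (s - t)) (by fun_prop)
    (by intro t ht; exact max_eq_left (by linarith))
  have g2 := h2 (fun t => max 0 (t - s)) (by fun_prop)
    (by intro t ht; exact max_eq_left (by linarith))
  rw [hreq] at g1 g2
  obtain ⟨P, hP⟩ : ∃ P, P = cfc (fun t : ℝ => max 0 (t - s)) a := ⟨_, rfl⟩
  have hP0 : 0 ≤ P := by
    rw [hP]; exact cfc_nonneg (fun t _ => le_max_left _ _)
  have hdec : a = (s : ℂ) • p + P := by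
    have e1 : cfc (fun t : ℝ => max 0 (t - s)) a - cfc (fun t : ℝ => max 0 (s - t)) a =
        a - (algebraMap ℝ (H →L[ℂ] H) s) := by
      rw [← cfc_sub (fun t : ℝ => max 0 (t - s)) (fun t : ℝ => max 0 (s - t)) a
        (by fun_prop) (by fun_prop)]
      have e2 : cfc (fun t : ℝ => max 0 (t - s) - max 0 (s - t)) a =
          cfc (fun t : ℝ => t - s) a := by
        apply cfc_congr
        intro t _
        simp only
        rcases le_total t s with h | h
        · rw [max_eq_left (by linarith), max_eq_right (by linarith)]; ring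
        · rw [max_eq_right (by linarith), max_eq_left (by linarith)]; ring
      rw [e2, cfc_sub (fun t : ℝ => t) (fun _ => s) a (by fun_prop) (by fun_prop),
        cfc_id' ℝ a, cfc_const s a]
    have e3 := congrArg (fun y => y * p) e1
    simp only [sub_mul] at e3
    rw [g2, g1, hap, sub_zero, ← hP] at e3
    have e4 : (algebraMap ℝ (H →L[ℂ] H) s) * p = (s : ℂ) • p := by
      rw [Algebra.algebraMap_eq_smul_one, smul_mul_assoc, one_mul]
      rfl
    rw [e4] at e3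
    rw [e3]; abel
  -- traces
  have t1 : T.tr a = ((‖x T.Ω‖ ^ 2 : ℝ) : ℂ) := by rw [ha]; exact T.tr_star_mul_self x
  have t2 : T.tr a = (s : ℂ) * ((‖p T.Ω‖ ^ 2 : ℝ) : ℂ) + T.tr P := by
    rw [hdec, T.tr_add, T.tr_smul, T.tr_proj hpp]
  have t3 : 0 ≤ (T.tr P).re := by
    have := (ContinuousLinearMap.nonneg_iff_isPositive P).1 hP0
    exact this.re_inner_nonneg_right T.Ω
  have t4 : s * ‖p T.Ω‖ ^ 2 ≤ ‖x T.Ω‖ ^ 2 := by
    have h5 := congrArg Complex.re (t1.symm.trans t2)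
    rw [Complex.add_re, ← Complex.ofReal_mul, Complex.ofReal_re, Complex.ofReal_re] at h5
    linarith
  have t5 : ‖x T.Ω‖ ≤ ‖x‖ * ‖q j T.Ω‖ := by
    rw [← T.norm_star hxS]
    have e1 : star x = star x * q j := by
      rw [hx, star_mul, (hq.proj j).isSelfAdjoint.star_eq, mul_assoc,
        (hq.proj j).isIdempotentElem.eq]
    rw [e1]
    refine (T.norm_mul_le _ _).trans ?_
    rw [_root_.norm_star]
  have t6 : ‖x T.Ω‖ ^ 2 ≤ ‖a‖ * ‖q j T.Ω‖ ^ 2 := by
    rw [hc]
    have := mul_self_le_mul_self (norm_nonneg _) t5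
    nlinarith
  have t7 := hqη j
  have t8 : ‖a‖ * ‖q j T.Ω‖ ^ 2 ≤ ‖a‖ * (‖p T.Ω‖ ^ 2 / 2) :=
    mul_le_mul_of_nonneg_left t7 hcpos.le
  rw [hs] at t4
  have t9 : 0 < ‖a‖ * ‖p T.Ω‖ ^ 2 := mul_pos hcpos htp
  nlinarith

end Pool.Agent.OS
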