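import Pool.Agent.OS.Hyper

set_option autoImplicit false

/-!
# Noninjectivity is stable under perturbations of finite families (MP_7c16f6_an, module Perturb)
-/

open Filter Topology
open scoped InnerProductSpace

namespace Pool.Agent.OS

universe u

theorem perturb_proof (h1 : Stmt_J1.{u}) (h3 : Stmt_J3.{u}) : Stmt_Perturb.{u} := by
  classical
  intro H _ _ _ M N Ω hM hNM hN
  by_contra hcon
  push Not at hcon
  apply hN
  apply h3 H M N Ω hM hNM
  have hφ : ∀ l : Finset {x : H →L[ℂ] H // x ∈ N} × ℕ, ∃ φ : (H →L[ℂ] H) →ₗ[ℂ] ℂ,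
      Hyper.Pos φ ∧ (∀ x ∈ M, φ x = ⟪Ω, x Ω⟫_ℂ) ∧
      ∀ x ∈ l.1, ∀ A, ‖φ (x.1 * A) - φ (A * x.1)‖ ≤ 2 * ‖A‖ * (1 / ((l.2 : ℝ) + 1)) := by
    rintro ⟨F, k⟩
    obtain ⟨x', hx', P, hPM, hxP, hPinj⟩ := hcon F.card (fun i => (F.equivFin.symm i).1.1)
      (fun i => (F.equivFin.symm i).1.2) (1 / ((k : ℝ) + 1)) (by positivity)
    obtain ⟨φ, hφ⟩ := h1 H M P Ω hM hPM hPinj
    refine ⟨φ, hφ.pos, hφ.trace, fun x hx A => ?_⟩
    have hd : ‖(x' (F.equivFin ⟨x, hx⟩) - x.1) Ω‖ ≤ 1 / ((k : ℝ) + 1) := by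
      have h := hx' (F.equivFin ⟨x, hx⟩)
      rwa [Equiv.symm_apply_apply] at h
    set y := x' (F.equivFin ⟨x, hx⟩) with hy
    have hyP : y ∈ P := hxP _
    have hzM : y - x.1 ∈ M := sub_mem (hPM hyP) (hNM x.2)
    have hc := hφ.central y hyP A
    have e1 : φ (x.1 * A) - φ (A * x.1) = φ (A * (y - x.1)) - φ ((y - x.1) * A) := by
      rw [mul_sub, sub_mul, map_sub, map_sub, hc]
      ring
    rw [e1]
    have h4 := Hyper.left_le hM hφ hzM A
    have h5 := Hyper.right_le hM hφ hzM A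
    calc ‖φ (A * (y - x.1)) - φ ((y - x.1) * A)‖
        ≤ ‖φ (A * (y - x.1))‖ + ‖φ ((y - x.1) * A)‖ := norm_sub_le _ _
      _ ≤ ‖A‖ * ‖(y - x.1) Ω‖ + ‖(y - x.1) Ω‖ * ‖A‖ := add_le_add h5 h4
      _ = 2 * ‖A‖ * ‖(y - x.1) Ω‖ := by ring
      _ ≤ 2 * ‖A‖ * (1 / ((k : ℝ) + 1)) := by gcongr
  choose φ hφ1 hφ2 hφ3 using hφ
  have hone : ∀ l, φ l 1 = 1 := fun l => by
    rw [hφ2 l 1 (one_mem M)]
    simp [hM.norm_Ω, inner_self_eq_norm_sq_to_K]
  let U : Ultrafilter (Finset {x : H →L[ℂ] H // x ∈ N} × ℕ) := Ultrafilter.of atTop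
  have hU : (U : Filter (Finset {x : H →L[ℂ] H // x ∈ N} × ℕ)) ≤ atTop := Ultrafilter.of_le _
  have hlim : ∀ A : H →L[ℂ] H, ∃ z : ℂ, Tendsto (fun l => φ l A) U (𝓝 z) := by
    intro A
    have hc : IsCompact (Metric.closedBall (0 : ℂ) ‖A‖) := isCompact_closedBall _ _
    obtain ⟨z, -, hz⟩ := hc.ultrafilter_le_nhds (U.map fun l => φ l A) (by
      rw [Ultrafilter.coe_map, le_principal_iff, mem_map]
      refine univ_mem' fun l => ?_
      change φ l A ∈ Metric.closedBall (0 : ℂ) ‖A‖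
      rw [mem_closedBall_zero_iff]
      exact (hφ1 l).norm_le (hone l) A)
    exact ⟨z, hz⟩
  choose ψ hψ using hlim
  refine ⟨{ toFun := ψ
            map_add' := fun A B => ?_
            map_smul' := fun c A => ?_ }, ⟨fun y => ?_, fun x hx => ?_, fun x hx A => ?_⟩⟩
  · refine tendsto_nhds_unique (hψ (A + B)) ?_
    have h := (hψ A).add (hψ B)
    refine h.congr fun l => ?_
    rw [map_add]
  · refine tendsto_nhds_unique (hψ (c • A)) ?_
    have h := (hψ A).const_mul c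
    refine h.congr fun l => ?_
    rw [map_smul, smul_eq_mul]
  · change 0 ≤ (ψ (star y * y)).re ∧ (ψ (star y * y)).im = 0
    constructor
    · refine ge_of_tendsto' ((Complex.continuous_re.tendsto _).comp (hψ (star y * y))) fun l => ?_
      exact (hφ1 l y).1
    · refine tendsto_nhds_unique ((Complex.continuous_im.tendsto _).comp (hψ (star y * y))) ?_
      refine tendsto_const_nhds.congr fun l => ?_
      exact (hφ1 l y).2.symm
  · change ψ x = _
    refine tendsto_nhds_unique (hψ x) ?_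
    refine tendsto_const_nhds.congr fun l => ?_
    rw [hφ2 l x hx]
  · change ψ (x * A) = ψ (A * x)
    have h1 : Tendsto (fun l => φ l (x * A) - φ l (A * x)) U (𝓝 (ψ (x * A) - ψ (A * x))) :=
      (hψ (x * A)).sub (hψ (A * x))
    have h2 : Tendsto (fun l => φ l (x * A) - φ l (A * x)) U (𝓝 0) := by
      rw [tendsto_zero_iff_norm_tendsto_zero]
      have h3 : Tendsto (fun l : Finset {x : H →L[ℂ] H // x ∈ N} × ℕ =>
          2 * ‖A‖ * (1 / ((l.2 : ℝ) + 1))) U (𝓝 0) := by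
        have h4 : Tendsto (fun l : Finset {x : H →L[ℂ] H // x ∈ N} × ℕ => l.2) atTop atTop :=
          tendsto_atTop_atTop.2 fun b => ⟨(∅, b), fun a ha => ha.2⟩
        have h5 : Tendsto (fun l : Finset {x : H →L[ℂ] H // x ∈ N} × ℕ =>
            1 / ((l.2 : ℝ) + 1)) U (𝓝 0) :=
          (tendsto_one_div_add_atTop_nhds_zero_nat.comp h4).mono_left hU
        have h6 := h5.const_mul (2 * ‖A‖)
        rwa [mul_zero] at h6
      refine squeeze_zero' (Eventually.of_forall fun l => norm_nonneg _) ?_ h3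
      have h7 : ∀ᶠ l : Finset {x : H →L[ℂ] H // x ∈ N} × ℕ in atTop, ({⟨x, hx⟩}, 0) ≤ l :=
        eventually_ge_atTop _
      refine (h7.filter_mono hU).mono fun l hl => ?_
      exact hφ3 l ⟨x, hx⟩ (hl.1 (Finset.mem_singleton_self _)) A
    exact sub_eq_zero.1 (tendsto_nhds_unique h1 h2)

end Pool.Agent.OS
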