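import Mathlib
import Pool.Agent.OS.Basic
import Pool.Agent.OS.Stmts

set_option autoImplicit false

/-!
# QA: trivial centre of `Q` gives conjugacy of almost commuting partitions
-/

open Filter Topology
open scoped InnerProductSpace

namespace Pool.Agent.OS

universe u

namespace QA

variable {H : Type u} [NormedAddCommGroup H] [InnerProductSpace ℂ H] [CompleteSpace H]
variable {T : TVN H} {Λ : Type u} {U : Ultrafilter Λ}

lemma bd_add {a b : Λ → H →L[ℂ] H} (ha : T.Bd a) (hb : T.Bd b) : T.Bd (a + b) := by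
  obtain ⟨C, hC⟩ := ha.2
  obtain ⟨D, hD⟩ := hb.2
  exact ⟨fun l => add_mem (ha.1 l) (hb.1 l), C + D, fun l =>
    (norm_add_le _ _).trans (add_le_add (hC l) (hD l))⟩

lemma bd_smul (c : ℂ) {a : Λ → H →L[ℂ] H} (ha : T.Bd a) : T.Bd (c • a) := by
  obtain ⟨C, hC⟩ := ha.2
  exact ⟨fun l => SMulMemClass.smul_mem _ (ha.1 l), ‖c‖ * C, fun l => by
    rw [Pi.smul_apply, norm_smul]
    exact mul_le_mul_of_nonneg_left (hC l) (norm_nonneg _)⟩

lemma bd_mul {a b : Λ → H →L[ℂ] H} (ha : T.Bd a) (hb : T.Bd b) : T.Bd (a * b) := by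
  obtain ⟨C, hC⟩ := ha.2
  obtain ⟨D, hD⟩ := hb.2
  exact ⟨fun l => mul_mem (ha.1 l) (hb.1 l), C * D, fun l =>
    (norm_mul_le _ _).trans (mul_le_mul (hC l) (hD l) (norm_nonneg _)
      ((norm_nonneg _).trans (hC l)))⟩

lemma bd_star {a : Λ → H →L[ℂ] H} (ha : T.Bd a) : T.Bd (star a) := by
  obtain ⟨C, hC⟩ := ha.2
  exact ⟨fun l => star_mem (ha.1 l), C, fun l => by
    rw [Pi.star_apply, norm_star]; exact hC l⟩

lemma bd_const {x : H →L[ℂ] H} (hx : x ∈ T.S) : T.Bd (fun _ : Λ => x) :=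
  ⟨fun _ => hx, ‖x‖, fun _ => le_rfl⟩

lemma bd_zero : T.Bd (0 : Λ → H →L[ℂ] H) := ⟨fun _ => zero_mem _, 0, fun _ => by simp⟩

lemma bd_sub {a b : Λ → H →L[ℂ] H} (ha : T.Bd a) (hb : T.Bd b) : T.Bd (a - b) := by
  have h : a - b = a + (-1 : ℂ) • b := by rw [neg_one_smul, sub_eq_add_neg]
  rw [h]
  exact bd_add ha (bd_smul _ hb)

lemma bd_proj {p : Λ → H →L[ℂ] H} (hp : ∀ l, p l ∈ T.S) (hpp : ∀ l, IsStarProjection (p l)) :
    T.Bd p := ⟨hp, 1, fun l => (hpp l).norm_le⟩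

lemma bd_unitary {p : Λ → H →L[ℂ] H} (hp : ∀ l, p l ∈ T.S ∧ p l ∈ unitary (H →L[ℂ] H)) :
    T.Bd p := ⟨fun l => (hp l).1, 1, fun l => by
      rcases subsingleton_or_nontrivial (H →L[ℂ] H) with h1 | h1
      · rw [Subsingleton.elim (p l) 0, norm_zero]; exact zero_le_one
      · exact (CStarRing.norm_of_mem_unitary (hp l).2).le⟩

variable (P : UPack T Λ U)

lemma map_zero : P.π 0 = 0 := by
  have := P.map_smul (0 : ℂ) 0 bd_zero
  rw [zero_smul, zero_smul] at this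
  exact this

lemma map_sub {a b : Λ → H →L[ℂ] H} (ha : T.Bd a) (hb : T.Bd b) :
    P.π (a - b) = P.π a - P.π b := by
  have h : a - b = a + (-1 : ℂ) • b := by rw [neg_one_smul, sub_eq_add_neg]
  rw [h, P.map_add _ _ ha (bd_smul _ hb), P.map_smul _ _ hb, neg_one_smul, sub_eq_add_neg]

lemma map_sum {k : ℕ} {a : Fin k → Λ → H →L[ℂ] H} (ha : ∀ j, T.Bd (a j)) (s : Finset (Fin k)) :
    T.Bd (∑ j ∈ s, a j) ∧ P.π (∑ j ∈ s, a j) = ∑ j ∈ s, P.π (a j) := by
  classical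
  induction s using Finset.induction_on with
  | empty => exact ⟨by rw [Finset.sum_empty]; exact bd_zero, by
      rw [Finset.sum_empty, Finset.sum_empty]; exact map_zero P⟩
  | insert j s hj ih =>
    rw [Finset.sum_insert hj, Finset.sum_insert hj]
    exact ⟨bd_add (ha j) ih.1, by rw [P.map_add _ _ (ha j) ih.1, ih.2]⟩

/-- if the 2-norm of the difference of two families tends to zero, their classes agree -/
lemma eq_of_tendsto {a b : Λ → H →L[ℂ] H} (ha : T.Bd a) (hb : T.Bd b)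
    (h : Tendsto (fun l => ‖(a l - b l) T.Ω‖) U (𝓝 0)) : P.π a = P.π b := by
  have h1 := P.norm_tendsto (a - b) (bd_sub ha hb)
  have h2 : ‖P.π (a - b) P.That.Ω‖ = 0 := tendsto_nhds_unique h1 h
  rw [map_sub P ha hb] at h2
  exact P.That.eq_of_norm_sub (P.mem _ ha) (P.mem _ hb) h2

lemma tendsto_of_eq {a b : Λ → H →L[ℂ] H} (ha : T.Bd a) (hb : T.Bd b)
    (h : P.π a = P.π b) : Tendsto (fun l => ‖(a l - b l) T.Ω‖) U (𝓝 0) := by
  have h1 := P.norm_tendsto (a - b) (bd_sub ha hb)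
  rw [map_sub P ha hb, h, sub_self] at h1
  simpa using h1

lemma isPart {k : ℕ} {p : Λ → Fin k → H →L[ℂ] H} (hp : ∀ l, T.IsPartOf 1 (p l)) :
    P.That.IsPartOf 1 (fun j => P.π (fun l => p l j)) := by
  have hB : ∀ j, T.Bd (fun l => p l j) := fun j =>
    bd_proj (fun l => (hp l).mem j) fun l => (hp l).proj j
  refine ⟨fun j => P.mem _ (hB j), fun j => ⟨?_, ?_⟩, fun i j hij => ?_, ?_⟩
  · have : (fun l => p l j) * (fun l => p l j) = fun l => p l j := by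
      funext l; exact ((hp l).proj j).isIdempotentElem.eq
    rw [IsIdempotentElem, ← P.map_mul _ _ (hB j) (hB j), this]
  · have : star (fun l => p l j) = fun l => p l j := by
      funext l; exact ((hp l).proj j).isSelfAdjoint.star_eq
    rw [IsSelfAdjoint, ← P.map_star _ (hB j), this]
  · have : (fun l => p l i) * (fun l => p l j) = 0 := by
      funext l; exact (hp l).orth i j hij
    rw [← P.map_mul _ _ (hB i) (hB j), this, map_zero]
  · have h1 := (map_sum P hB Finset.univ).2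
    have h2 : (∑ j, fun l => p l j) = 1 := by
      funext l
      rw [Finset.sum_apply]
      exact (hp l).sum
    rw [h2, P.map_one] at h1
    exact h1.symm

end QA

theorem qA_proof (hPC : Stmt_PartConj.{u}) (hUL : Stmt_UniLift.{u}) : Stmt_QA.{u} := by
  classical
  intro H _ _ _ T N hN hTriv U hU P hQ k t F ε hε δ hδ
  by_contra hcon
  push Not at hcon
  have hcon' : ∀ l : Finset (H →L[ℂ] H) × ℕ, ∃ p p' : Fin k → H →L[ℂ] H, T.IsPartOf 1 p ∧
      T.IsPartOf 1 p' ∧ (∀ j, |‖p j T.Ω‖ ^ 2 - t j| ≤ 1 / ((l.2 : ℝ) + 1)) ∧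
      (∀ j, |‖p' j T.Ω‖ ^ 2 - t j| ≤ 1 / ((l.2 : ℝ) + 1)) ∧
      (∀ j, T.Near N l.1 (1 / ((l.2 : ℝ) + 1)) (p j)) ∧
      (∀ j, T.Near N l.1 (1 / ((l.2 : ℝ) + 1)) (p' j)) ∧
      ∀ w ∈ T.UN N F ε, ∃ j, δ < ‖(star w * p' j * w - p j) T.Ω‖ :=
    fun l => hcon l.1 _ (by positivity)
  choose p p' hp hp' ht ht' hn hn' hw using hcon'
  have hB : ∀ j, T.Bd (fun l => p l j) := fun j =>
    QA.bd_proj (fun l => (hp l).mem j) fun l => (hp l).proj j
  have hB' : ∀ j, T.Bd (fun l => p' l j) := fun j =>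
    QA.bd_proj (fun l => (hp' l).mem j) fun l => (hp' l).proj j
  -- the index tends to infinity
  have hinf : Tendsto (fun l : Finset (H →L[ℂ] H) × ℕ => 1 / ((l.2 : ℝ) + 1)) U (𝓝 0) := by
    have h1 : Tendsto (fun l : Finset (H →L[ℂ] H) × ℕ => l.2) atTop atTop := by
      rw [tendsto_atTop]
      intro b
      filter_upwards [eventually_ge_atTop ((∅ : Finset (H →L[ℂ] H)), b)] with l hl
      exact hl.2
    exact (tendsto_one_div_add_atTop_nhds_zero_nat.comp h1).mono_left hU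
  -- limit of almost commuting projections
  have hcomm : ∀ q : (Finset (H →L[ℂ] H) × ℕ) → H →L[ℂ] H, T.Bd q →
      (∀ l, T.Near N l.1 (1 / ((l.2 : ℝ) + 1)) (q l)) → P.π q ∈ QSet P N := by
    intro q hq hqn
    refine ⟨P.mem _ hq, fun x hx => ?_⟩
    have hxB : T.Bd (fun _ : Finset (H →L[ℂ] H) × ℕ => x) := QA.bd_const (hN.sub x hx)
    rw [← P.map_mul _ _ hxB hq, ← P.map_mul _ _ hq hxB]
    refine QA.eq_of_tendsto P (QA.bd_mul hxB hq) (QA.bd_mul hq hxB) ?_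
    refine squeeze_zero' (Eventually.of_forall fun l => norm_nonneg _) ?_ hinf
    have h1 : ∀ᶠ l : Finset (H →L[ℂ] H) × ℕ in U, ({x}, 0) ≤ l := hU (eventually_ge_atTop _)
    filter_upwards [h1] with l hl
    exact hqn l x (hl.1 (Finset.mem_singleton_self x)) hx
  have htr : ∀ q : (Finset (H →L[ℂ] H) × ℕ) → H →L[ℂ] H, T.Bd q → ∀ s : ℝ,
      (∀ l, |‖q l T.Ω‖ ^ 2 - s| ≤ 1 / ((l.2 : ℝ) + 1)) → ‖P.π q P.That.Ω‖ ^ 2 = s := by
    intro q hq s hs
    have h1 := (P.norm_tendsto q hq).pow 2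
    have h2 : Tendsto (fun l => ‖q l T.Ω‖ ^ 2) U (𝓝 s) := by
      rw [tendsto_iff_norm_sub_tendsto_zero]
      exact squeeze_zero (fun l => norm_nonneg _) (fun l => by
        rw [Real.norm_eq_abs]; exact hs l) hinf
    exact tendsto_nhds_unique h1 h2
  -- the relative commutant
  set X : Set (P.L →L[ℂ] P.L) := {Y | ∃ x ∈ N, Y = P.π (fun _ => x)} with hX
  have hXS : ∀ Y ∈ X, Y ∈ P.That.S := by
    rintro Y ⟨x, hx, rfl⟩
    exact P.mem _ (QA.bd_const (hN.sub x hx))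
  have hXs : ∀ Y ∈ X, star Y ∈ X := by
    rintro Y ⟨x, hx, rfl⟩
    refine ⟨star x, hN.star x hx, ?_⟩
    rw [← P.map_star _ (QA.bd_const (hN.sub x hx))]
    rfl
  set Q := P.That.relComm X hXS hXs with hQdef
  have hmem : ∀ Y, Y ∈ Q.S ↔ Y ∈ QSet P N := by
    intro Y
    rw [hQdef, TVN.mem_relComm]
    constructor
    · rintro ⟨h1, h2⟩
      exact ⟨h1, fun x hx => h2 _ ⟨x, hx, rfl⟩⟩
    · rintro ⟨h1, h2⟩
      refine ⟨h1, ?_⟩
      rintro _ ⟨x, hx, rfl⟩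
      exact h2 x hx
  have hQF : Q.Factor := by
    intro Y hY hc
    exact hQ Y ((hmem Y).1 hY) fun Z hZ => hc Z ((hmem Z).2 hZ)
  have hTF : T.Factor := by
    intro Y hY hc
    exact hTriv Y hY fun x hx => (hc x (hN.sub x hx)).symm
  have hpartQ : ∀ q : (Finset (H →L[ℂ] H) × ℕ) → Fin k → H →L[ℂ] H, (∀ l, T.IsPartOf 1 (q l)) →
      (∀ l j, T.Near N l.1 (1 / ((l.2 : ℝ) + 1)) (q l j)) →
      Q.IsPartOf 1 (fun j => P.π (fun l => q l j)) := by
    intro q hq hqn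
    have h1 := QA.isPart P hq
    refine ⟨fun j => (hmem _).2 (hcomm _ ?_ fun l => hqn l j), h1.proj, h1.orth, h1.sum⟩
    exact QA.bd_proj (fun l => (hq l).mem j) fun l => (hq l).proj j
  obtain ⟨W, hWQ, hWu, hW⟩ := hPC P.L Q hQF k _ _ (hpartQ p hp hn) (hpartQ p' hp' hn') (by
    intro j
    have h1 := htr _ (hB j) (t j) fun l => ht l j
    have h2 := htr _ (hB' j) (t j) fun l => ht' l j
    have h3 : ‖P.π (fun l => p l j) P.That.Ω‖ ^ 2 = ‖P.π (fun l => p' l j) P.That.Ω‖ ^ 2 := by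
      rw [h1, h2]
    exact (sq_eq_sq₀ (norm_nonneg _) (norm_nonneg _)).1 h3)
  obtain ⟨w, hwS, hwW⟩ := hUL H T _ U P hTF W ((hmem W).1 hWQ).1 hWu
  have hwB : T.Bd w := QA.bd_unitary hwS
  have e1 : ∀ᶠ l in (U : Filter (Finset (H →L[ℂ] H) × ℕ)), T.Near N F ε (w l) := by
    have h1 : ∀ x ∈ F, ∀ᶠ l in (U : Filter (Finset (H →L[ℂ] H) × ℕ)),
        x ∈ N → ‖(x * w l - w l * x) T.Ω‖ ≤ ε := by
      intro x _
      by_cases hx : x ∈ N
      · have hxB : T.Bd (fun _ : Finset (H →L[ℂ] H) × ℕ => x) := QA.bd_const (hN.sub x hx)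
        have h2 := QA.tendsto_of_eq P (QA.bd_mul hxB hwB) (QA.bd_mul hwB hxB) (by
          rw [P.map_mul _ _ hxB hwB, P.map_mul _ _ hwB hxB, hwW]
          exact ((hmem W).1 hWQ).2 x hx)
        filter_upwards [h2.eventually (gt_mem_nhds hε)] with l hl _
        exact le_of_lt hl
      · exact Eventually.of_forall fun l h => absurd h hx
    have h2 := (Finset.eventually_all F).2 h1
    filter_upwards [h2] with l hl x hx hxN
    exact hl x hx hxN
  have e2 : ∀ᶠ l in (U : Filter (Finset (H →L[ℂ] H) × ℕ)),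
      ∀ j, ‖(star (w l) * p' l j * w l - p l j) T.Ω‖ ≤ δ := by
    rw [eventually_all]
    intro j
    have h2 := QA.tendsto_of_eq P (QA.bd_mul (QA.bd_mul (QA.bd_star hwB) (hB' j)) hwB) (hB j) (by
      rw [P.map_mul _ _ (QA.bd_mul (QA.bd_star hwB) (hB' j)) hwB,
        P.map_mul _ _ (QA.bd_star hwB) (hB' j), P.map_star _ hwB, hwW]
      exact hW j)
    filter_upwards [h2.eventually (gt_mem_nhds hδ)] with l hl
    exact le_of_lt hl
  obtain ⟨l, h1, h2⟩ := (e1.and e2).exists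
  obtain ⟨j, hj⟩ := hw l (w l) ⟨(hwS l).1, (hwS l).2, h1⟩
  exact absurd (h2 j) (not_le.2 hj)

end Pool.Agent.OS
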