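import Pool.Agent.OS.Basic
import Pool.Agent.OS.Stmts

set_option autoImplicit false
set_option linter.unusedSectionVars false

/-!
# QB: a nontrivial centre of `Q = N' ∩ S^U` gives projections in `P0` almost commuting with `N`
-/

open Filter Topology
open scoped InnerProductSpace

namespace Pool.Agent.OS.QB

universe u

variable {H : Type u} [NormedAddCommGroup H] [InnerProductSpace ℂ H] [CompleteSpace H]

section Ultra

variable {T : TVN H} {Λ : Type u} {U : Ultrafilter Λ} (P : UPack T Λ U)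

lemma bd_const {x : H →L[ℂ] H} (hx : x ∈ T.S) : T.Bd (fun _ : Λ => x) :=
  ⟨fun _ => hx, ‖x‖, fun _ => le_rfl⟩

lemma bd_mul {a b : Λ → H →L[ℂ] H} (ha : T.Bd a) (hb : T.Bd b) : T.Bd (a * b) := by
  obtain ⟨ha, C, hC⟩ := ha
  obtain ⟨hb, D, hD⟩ := hb
  refine ⟨fun l => mul_mem (ha l) (hb l), C * D, fun l => ?_⟩
  refine (ContinuousLinearMap.opNorm_comp_le (a l) (b l)).trans ?_
  exact mul_le_mul (hC l) (hD l) (norm_nonneg _) ((norm_nonneg _).trans (hC l))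

lemma bd_smul {a : Λ → H →L[ℂ] H} (c : ℂ) (ha : T.Bd a) : T.Bd (c • a) := by
  obtain ⟨ha, C, hC⟩ := ha
  refine ⟨fun l => SMulMemClass.smul_mem _ (ha l), ‖c‖ * C, fun l => ?_⟩
  rw [Pi.smul_apply, norm_smul]
  exact mul_le_mul_of_nonneg_left (hC l) (norm_nonneg _)

lemma bd_add {a b : Λ → H →L[ℂ] H} (ha : T.Bd a) (hb : T.Bd b) : T.Bd (a + b) := by
  obtain ⟨ha, C, hC⟩ := ha
  obtain ⟨hb, D, hD⟩ := hb
  exact ⟨fun l => add_mem (ha l) (hb l), C + D, fun l =>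
    (norm_add_le _ _).trans (add_le_add (hC l) (hD l))⟩

lemma pi_sub {a b : Λ → H →L[ℂ] H} (ha : T.Bd a) (hb : T.Bd b) :
    P.π (a + (-1 : ℂ) • b) = P.π a - P.π b := by
  rw [P.map_add _ _ ha (bd_smul _ hb), P.map_smul _ _ hb]
  simp [sub_eq_add_neg]

/-- commutators in the ultrapower -/
lemma comm_tendsto {a b : Λ → H →L[ℂ] H} (ha : T.Bd a) (hb : T.Bd b) :
    Tendsto (fun l => ‖(a l * b l - b l * a l) T.Ω‖) U
      (𝓝 ‖(P.π a * P.π b - P.π b * P.π a) P.That.Ω‖) := by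
  have h := P.norm_tendsto _ (bd_add (bd_mul ha hb) (bd_smul (-1 : ℂ) (bd_mul hb ha)))
  rw [pi_sub P (bd_mul ha hb) (bd_mul hb ha), P.map_mul _ _ ha hb, P.map_mul _ _ hb ha] at h
  refine h.congr fun l => ?_
  have : (a * b + (-1 : ℂ) • (b * a)) l = a l * b l - b l * a l := by
    simp [sub_eq_add_neg]
  rw [this]

lemma comm_eq {a b : Λ → H →L[ℂ] H} (ha : T.Bd a) (hb : T.Bd b)
    (h : Tendsto (fun l => ‖(a l * b l - b l * a l) T.Ω‖) U (𝓝 0)) :
    P.π a * P.π b = P.π b * P.π a := by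
  have h1 := tendsto_nhds_unique (comm_tendsto P ha hb) h
  exact P.That.eq_of_norm_sub (mul_mem (P.mem a ha) (P.mem b hb))
    (mul_mem (P.mem b hb) (P.mem a ha)) h1

lemma norm_unitary_le {w : H →L[ℂ] H} (hw : w ∈ unitary (H →L[ℂ] H)) : ‖w‖ ≤ 1 := by
  refine ContinuousLinearMap.opNorm_le_bound _ zero_le_one fun x => ?_
  rw [one_mul]
  have h1 : ⟪w x, w x⟫_ℂ = ⟪x, x⟫_ℂ := by
    rw [← ContinuousLinearMap.adjoint_inner_right]
    have : ContinuousLinearMap.adjoint w (w x) = (star w * w) x := rfl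
    rw [this, (Unitary.mem_iff.1 hw).1]
    rfl
  rw [inner_self_eq_norm_sq_to_K, inner_self_eq_norm_sq_to_K] at h1
  have h2 : ‖w x‖ ^ 2 = ‖x‖ ^ 2 := by exact_mod_cast h1
  exact ((sq_eq_sq₀ (norm_nonneg _) (norm_nonneg _)).1 h2).le

end Ultra

section Claim

variable {T : TVN H} {N : Set (H →L[ℂ] H)} {U : Ultrafilter (Finset (H →L[ℂ] H) × ℕ)}
  (P : UPack T (Finset (H →L[ℂ] H) × ℕ) U)

/-- eventually in `U`, `x` belongs to the finite set -/
lemma ev_mem (hU : (U : Filter (Finset (H →L[ℂ] H) × ℕ)) ≤ atTop) (x : H →L[ℂ] H) :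
    ∀ᶠ l in (U : Filter (Finset (H →L[ℂ] H) × ℕ)), x ∈ l.1 := by
  refine hU ?_
  filter_upwards [eventually_ge_atTop (({x} : Finset (H →L[ℂ] H)), 0)] with l hl
  exact hl.1 (Finset.mem_singleton_self x)

lemma ev_small (hU : (U : Filter (Finset (H →L[ℂ] H) × ℕ)) ≤ atTop) {η : ℝ} (hη : 0 < η) :
    ∀ᶠ l in (U : Filter (Finset (H →L[ℂ] H) × ℕ)), 1 / ((l.2 : ℝ) + 1) ≤ η := by
  obtain ⟨k, hk⟩ := exists_nat_one_div_lt hη
  refine hU ?_
  filter_upwards [eventually_ge_atTop ((∅ : Finset (H →L[ℂ] H)), k)] with l hl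
  have h1 : (k : ℝ) ≤ l.2 := by exact_mod_cast hl.2
  have h2 : (0 : ℝ) < (k : ℝ) + 1 := by positivity
  exact (one_div_le_one_div_of_le h2 (by linarith)).trans hk.le

/-- the claim in the proof of QB -/
lemma claim (hN : T.IsSub N) (hU : (U : Filter (Finset (H →L[ℂ] H) × ℕ)) ≤ atTop)
    (p : Finset (H →L[ℂ] H) × ℕ → H →L[ℂ] H) (hp : T.Bd p)
    (hcen : ∀ W ∈ QSet P N, P.π p * W = W * P.π p) {δ : ℝ} (hδ : 0 < δ) :
    ∀ᶠ l in (U : Filter (Finset (H →L[ℂ] H) × ℕ)),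
      ∃ (F₁ : Finset (H →L[ℂ] H)) (ε₁ : ℝ), 0 < ε₁ ∧
        ∀ w ∈ T.UN N F₁ ε₁, ‖(w * p l - p l * w) T.Ω‖ ≤ δ := by
  classical
  by_contra hcon
  have hcon := U.eventually_not.2 hcon
  have hch : ∀ l : Finset (H →L[ℂ] H) × ℕ, ∃ w ∈ T.UN N l.1 (1 / ((l.2 : ℝ) + 1)),
      ((¬ ∃ (F₁ : Finset (H →L[ℂ] H)) (ε₁ : ℝ), 0 < ε₁ ∧
        ∀ w ∈ T.UN N F₁ ε₁, ‖(w * p l - p l * w) T.Ω‖ ≤ δ) →
        δ ≤ ‖(w * p l - p l * w) T.Ω‖) := by
    intro l
    have hpos : (0 : ℝ) < 1 / ((l.2 : ℝ) + 1) := by positivity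
    by_cases h : ∃ (F₁ : Finset (H →L[ℂ] H)) (ε₁ : ℝ), 0 < ε₁ ∧
        ∀ w ∈ T.UN N F₁ ε₁, ‖(w * p l - p l * w) T.Ω‖ ≤ δ
    · exact ⟨1, T.one_mem_UN hpos.le, fun h' => absurd h h'⟩
    · have h2 := h
      push Not at h2
      obtain ⟨w, hw, hw2⟩ := h2 l.1 _ hpos
      exact ⟨w, hw, fun _ => hw2.le⟩
  choose w hw hw2 using hch
  have hwb : T.Bd w := ⟨fun l => (hw l).1, 1, fun l => norm_unitary_le (hw l).2.1⟩
  have hWQ : P.π w ∈ QSet P N := by
    refine ⟨P.mem w hwb, fun x hx => ?_⟩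
    refine comm_eq P (bd_const (hN.sub x hx)) hwb ?_
    rw [Metric.tendsto_nhds]
    intro η hη
    filter_upwards [ev_mem hU x, ev_small hU (half_pos hη)] with l h1 h2
    rw [Real.dist_eq, sub_zero, abs_of_nonneg (norm_nonneg _)]
    have := (hw l).2.2 x h1 hx
    linarith
  have h1 := comm_tendsto P hwb hp
  rw [hcen _ hWQ, sub_self] at h1
  have h2 : ‖(0 : P.L →L[ℂ] P.L) P.That.Ω‖ = 0 := by simp
  rw [h2] at h1
  have h3 : ∀ᶠ l in (U : Filter (Finset (H →L[ℂ] H) × ℕ)),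
      ‖(w l * p l - p l * w l) T.Ω‖ < δ := h1.eventually_lt_const hδ
  obtain ⟨l, hl1, hl2⟩ := (hcon.and h3).exists
  exact absurd (hw2 l hl1) (not_le.2 hl2)

end Claim

section Average

variable (T : TVN H) {N : Set (H →L[ℂ] H)}

/-- averaging an almost central projection into `P0` -/
lemma average (hAvg : Stmt_Avg.{u}) (hN : T.IsSub N) {p : H →L[ℂ] H} (hp : p ∈ T.S)
    (hpp : IsStarProjection p) {δ : ℝ} (_hδ : 0 < δ) (F₁ : Finset (H →L[ℂ] H)) {ε₁ : ℝ}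
    (hε₁ : 0 < ε₁) (hw : ∀ w ∈ T.UN N F₁ ε₁, ‖(w * p - p * w) T.Ω‖ ≤ δ) :
    ∃ a ∈ T.P0 N, ‖a‖ ≤ 1 ∧ ‖(a - p) T.Ω‖ ≤ δ := by
  classical
  obtain ⟨a, haS, han, hacl, hacomm⟩ := hAvg H T (Finset (H →L[ℂ] H) × ℕ)
    (fun l => T.UN N (F₁ ∪ l.1) (ε₁ / ((l.2 : ℝ) + 1)))
    (fun l w hw => ⟨hw.1, hw.2.1⟩)
    (fun l => T.one_mem_UN (by positivity))
    (by
      intro l l'
      refine ⟨(l.1 ∪ l'.1, max l.2 l'.2), ?_, ?_⟩
      · intro w hw
        refine ⟨hw.1, hw.2.1, hw.2.2.mono ?_ ?_⟩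
        · exact Finset.union_subset_union_right Finset.subset_union_left
        · have h1 : ((l.2 : ℝ)) ≤ ((max l.2 l'.2 : ℕ) : ℝ) := by
            exact_mod_cast le_max_left _ _
          exact div_le_div_of_nonneg_left hε₁.le (by positivity) (by linarith)
      · intro w hw
        refine ⟨hw.1, hw.2.1, hw.2.2.mono ?_ ?_⟩
        · exact Finset.union_subset_union_right Finset.subset_union_right
        · have h1 : ((l'.2 : ℝ)) ≤ ((max l.2 l'.2 : ℕ) : ℝ) := by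
            exact_mod_cast le_max_right _ _
          exact div_le_div_of_nonneg_left hε₁.le (by positivity) (by linarith))
    (by
      intro l
      refine ⟨(l.1, 2 * l.2 + 1), fun v hv w hw => ?_⟩
      have h := T.UN_mul hN hv hw
      refine ⟨h.1, h.2.1, h.2.2.mono subset_rfl ?_⟩
      have h1 : (((2 * l.2 + 1 : ℕ) : ℝ) + 1) = 2 * ((l.2 : ℝ) + 1) := by push_cast; ring
      have h2 : (0 : ℝ) < (l.2 : ℝ) + 1 := by positivity
      have h3 : ε₁ / (((2 * l.2 + 1 : ℕ) : ℝ) + 1) + ε₁ / (((2 * l.2 + 1 : ℕ) : ℝ) + 1) =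
          ε₁ / ((l.2 : ℝ) + 1) := by
        rw [h1]; field_simp; ring
      exact h3.le)
    p hp
  refine ⟨a, ⟨haS, fun δ' hδ' => ?_⟩, han.trans hpp.norm_le, ?_⟩
  · obtain ⟨l, hl⟩ := hacomm δ' hδ'
    exact ⟨F₁ ∪ l.1, ε₁ / ((l.2 : ℝ) + 1), by positivity, hl⟩
  · have h1 := hacl (∅, 0)
    have h2 : closure (convexHull ℝ {ξ : H | ∃ w ∈ T.UN N (F₁ ∪ (∅ : Finset (H →L[ℂ] H)))
        (ε₁ / (((0 : ℕ) : ℝ) + 1)), ξ = (w * p * star w) T.Ω}) ⊆
        Metric.closedBall (p T.Ω) δ := by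
      refine closure_minimal (convexHull_min ?_ (convex_closedBall _ _)) Metric.isClosed_closedBall
      rintro ξ ⟨w, hwU, rfl⟩
      have hwU' : w ∈ T.UN N F₁ ε₁ := by
        refine ⟨hwU.1, hwU.2.1, hwU.2.2.mono ?_ ?_⟩
        · exact Finset.subset_union_left
        · simp
      rw [Metric.mem_closedBall, dist_eq_norm]
      have e1 : (w * p * star w) T.Ω - p T.Ω = ((w * p - p * w) * star w) T.Ω := by
        have : (w * p - p * w) * star w = w * p * star w - p := by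
          rw [sub_mul, mul_assoc p w, (Unitary.mem_iff.1 hwU.2.1).2, mul_one]
        rw [this]; rfl
      rw [e1, T.norm_mul_unitary (sub_mem (mul_mem hwU.1 hp) (mul_mem hp hwU.1))
        (star_mem hwU.1) (Unitary.star_mem hwU.2.1)]
      exact hw w hwU'
    have h3 := h2 h1
    rw [Metric.mem_closedBall, dist_eq_norm] at h3
    exact h3

/-- from an almost central projection to a projection of `P0` -/
lemma toProj (hAvg : Stmt_Avg.{u}) (hP0 : Stmt_P0.{u}) (hNP : Stmt_NearProj.{u})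
    (hN : T.IsSub N) {p : H →L[ℂ] H} (hp : p ∈ T.S)
    (hpp : IsStarProjection p) {δ : ℝ} (hδ : 0 < δ) (F₁ : Finset (H →L[ℂ] H)) {ε₁ : ℝ}
    (hε₁ : 0 < ε₁) (hw : ∀ w ∈ T.UN N F₁ ε₁, ‖(w * p - p * w) T.Ω‖ ≤ δ) :
    ∃ e ∈ T.P0 N, IsStarProjection e ∧ ‖(e - p) T.Ω‖ ≤ 7 * δ := by
  obtain ⟨a, haP, han, hap⟩ := average T hAvg hN hp hpp hδ F₁ hε₁ hw
  obtain ⟨T₀, hΩ, hT₀⟩ := hP0 H T N hN
  have haT : a ∈ T₀.S := (hT₀ a).2 haP
  have haS : a ∈ T.S := haP.1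
  set b : H →L[ℂ] H := (2⁻¹ : ℂ) • (a + star a) with hb
  have hbT : b ∈ T₀.S := SMulMemClass.smul_mem _ (add_mem haT (star_mem haT))
  have hbS : b ∈ T.S := ((hT₀ b).1 hbT).1
  have hbsa : IsSelfAdjoint b := by
    rw [IsSelfAdjoint, hb, star_smul, star_add, star_star, add_comm (star a) a]
    congr 1
    simp
  have hbn : ‖b‖ ≤ 1 := by
    rw [hb, norm_smul]
    have h1 : ‖a + star a‖ ≤ 2 := by
      refine (norm_add_le _ _).trans ?_
      rw [norm_star]; linarith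
    have h2 : ‖(2⁻¹ : ℂ)‖ = 2⁻¹ := by simp
    rw [h2]; linarith
  have hbp : ‖(b - p) T.Ω‖ ≤ δ := by
    have e1 : b - p = (2⁻¹ : ℂ) • ((a - p) + star (a - p)) := by
      rw [hb, star_sub, hpp.isSelfAdjoint.star_eq]
      module
    rw [e1, _root_.smul_apply, norm_smul, _root_.add_apply]
    have h1 : ‖(a - p) T.Ω + (star (a - p)) T.Ω‖ ≤ δ + δ := by
      refine (norm_add_le _ _).trans (add_le_add hap ?_)
      rw [T.norm_star (sub_mem haS hp)]; exact hap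
    have h2 : ‖(2⁻¹ : ℂ)‖ = 2⁻¹ := by simp
    rw [h2]; linarith
  have hbb : ‖(b * b - b) T.Ω‖ ≤ 3 * δ := by
    have e1 : b * b - b = ((b - p) * b + p * (b - p)) + (p - b) := by
      have := hpp.isIdempotentElem.eq
      rw [sub_mul, mul_sub, this]; abel
    rw [e1, _root_.add_apply, _root_.add_apply]
    have h1 : ‖((b - p) * b) T.Ω‖ ≤ δ := by
      refine (T.norm_mul_right (sub_mem hbS hp) hbS).trans ?_
      nlinarith [norm_nonneg b, norm_nonneg ((b - p) T.Ω)]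
    have h2 : ‖(p * (b - p)) T.Ω‖ ≤ δ := by
      refine (T.norm_mul_le _ _).trans ?_
      have := hpp.norm_le
      nlinarith [norm_nonneg p, norm_nonneg ((b - p) T.Ω)]
    have h3 : ‖(p - b) T.Ω‖ ≤ δ := by
      have : p - b = -(b - p) := by abel
      rw [this, _root_.neg_apply, norm_neg]; exact hbp
    have h4 := norm_add_le (((b - p) * b) T.Ω + (p * (b - p)) T.Ω) ((p - b) T.Ω)
    have h5 := norm_add_le (((b - p) * b) T.Ω) ((p * (b - p)) T.Ω)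
    linarith
  obtain ⟨e, heT, hep, heb, -, -⟩ := hNP H T₀ b hbT hbsa
  rw [hΩ] at heb
  refine ⟨e, (hT₀ e).1 heT, hep, ?_⟩
  have e2 : (e - p) T.Ω = (e - b) T.Ω + (b - p) T.Ω := by simp
  rw [e2]
  refine (norm_add_le _ _).trans ?_
  linarith

end Average

end Pool.Agent.OS.QB

namespace Pool.Agent.OS

universe u

open QB

theorem qB_proof (hNS : Stmt_NonscalarProj.{u}) (hPL : Stmt_PartLift.{u}) (hAvg : Stmt_Avg.{u})
    (hP0 : Stmt_P0.{u}) (hNP : Stmt_NearProj.{u}) : Stmt_QB.{u} := by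
  intro H _ _ _ T N hN U hU P hQ
  classical
  -- the centre of `Q`
  set A : Set (P.L →L[ℂ] P.L) := {Y | ∃ x ∈ N, Y = P.π (fun _ => x)} with hA
  have hAS : ∀ Y ∈ A, Y ∈ P.That.S := by
    rintro Y ⟨x, hx, rfl⟩
    exact P.mem _ (bd_const (hN.sub x hx))
  have hstarpi : ∀ x ∈ N, star (P.π (fun _ => x)) = P.π (fun _ => star x) := by
    intro x hx
    have := P.map_star _ (bd_const (Λ := Finset (H →L[ℂ] H) × ℕ) (hN.sub x hx))
    rw [← this]; rfl
  have hXS : ∀ Y ∈ A ∪ QSet P N, Y ∈ P.That.S := by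
    rintro Y (hY | hY)
    · exact hAS Y hY
    · exact hY.1
  have hXstar : ∀ Y ∈ A ∪ QSet P N, star Y ∈ A ∪ QSet P N := by
    rintro Y (⟨x, hx, rfl⟩ | hY)
    · left
      exact ⟨star x, hN.star x hx, hstarpi x hx⟩
    · right
      refine ⟨star_mem hY.1, fun x hx => ?_⟩
      have h1 := hY.2 (star x) (hN.star x hx)
      have h2 := congrArg star h1
      rw [star_mul, star_mul, ← hstarpi x hx, star_star] at h2
      exact h2.symm
  obtain ⟨z, hz, hzp, hz0, hz1⟩ := hNS P.L (P.That.relComm (A ∪ QSet P N) hXS hXstar) (by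
    have h := hQ
    rw [QTriv] at h
    push Not at h
    obtain ⟨X, hX, hXc, hXn⟩ := h
    refine ⟨X, P.That.mem_relComm.2 ⟨hX.1, ?_⟩, hXn⟩
    rintro Y (⟨x, hx, rfl⟩ | hY)
    · exact hX.2 x hx
    · exact (hXc Y hY).symm)
  rw [P.That.mem_relComm] at hz
  obtain ⟨hzS, hzX⟩ := hz
  have hz1p : IsStarProjection (1 - z) := hzp.one_sub
  -- the trace of `z`
  have hpyth : ‖z P.That.Ω‖ ^ 2 + ‖(1 - z) P.That.Ω‖ ^ 2 = 1 := by
    have h1 := P.That.tr_proj hzp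
    have h2 := P.That.tr_proj hz1p
    have h3 : P.That.tr (1 - z) = 1 - P.That.tr z := by rw [P.That.tr_sub, P.That.tr_one]
    rw [h1, h2] at h3
    have h4 : ‖(1 - z) P.That.Ω‖ ^ 2 = 1 - ‖z P.That.Ω‖ ^ 2 := by exact_mod_cast h3
    linarith
  have ht0 : 0 < ‖z P.That.Ω‖ ^ 2 := by
    have : z P.That.Ω ≠ 0 := fun h => hz0 (P.That.sep z hzS h)
    exact pow_pos (norm_pos_iff.2 this) 2
  have ht1 : 0 < ‖(1 - z) P.That.Ω‖ ^ 2 := by
    have : (1 - z) P.That.Ω ≠ 0 := fun h => hz1 (by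
      have := P.That.sep (1 - z) (sub_mem (one_mem _) hzS) h
      exact (sub_eq_zero.1 this).symm)
    exact pow_pos (norm_pos_iff.2 this) 2
  refine ⟨‖z P.That.Ω‖ ^ 2, ht0, by linarith, ?_⟩
  intro F ε hε
  -- lift
  have hpart : P.That.IsPartOf 1 ![z, 1 - z] := by
    have hzz := hzp.isIdempotentElem.eq
    refine ⟨?_, ?_, ?_, ?_⟩
    · intro j
      fin_cases j
      · exact hzS
      · exact sub_mem (one_mem _) hzS
    · intro j
      fin_cases j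
      · exact hzp
      · exact hz1p
    · intro i j hij
      fin_cases i <;> fin_cases j
      · exact absurd rfl hij
      · simp [mul_sub, hzz]
      · simp [sub_mul, hzz]
      · exact absurd rfl hij
    · simp [Fin.sum_univ_two]
  obtain ⟨q, hq, hqπ⟩ := hPL H T (Finset (H →L[ℂ] H) × ℕ) U P 2 ![z, 1 - z] hpart
  set p : Finset (H →L[ℂ] H) × ℕ → H →L[ℂ] H := fun l => q l 0 with hpdef
  have hpπ : P.π p = z := by
    have := hqπ 0
    simpa using this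
  have hpS : ∀ l, p l ∈ T.S := fun l => (hq l).mem 0
  have hpp : ∀ l, IsStarProjection (p l) := fun l => (hq l).proj 0
  have hpb : T.Bd p := ⟨hpS, 1, fun l => (hpp l).norm_le⟩
  -- the constants
  set M : ℝ := 1 + ∑ x ∈ F, ‖x‖ with hM
  have hsum0 : 0 ≤ ∑ x ∈ F, ‖x‖ := Finset.sum_nonneg fun x _ => norm_nonneg x
  have hM1 : 1 ≤ M := by linarith
  have hxM : ∀ x ∈ F, ‖x‖ ≤ M := by
    intro x hx
    have := Finset.single_le_sum (f := fun x : H →L[ℂ] H => ‖x‖) (fun y _ => norm_nonneg y) hx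
    linarith
  set δ : ℝ := ε / (28 * M) with hδ
  have hδ0 : 0 < δ := by positivity
  have hδM : 14 * δ * M = ε / 2 := by rw [hδ]; field_simp; ring
  have hcen : ∀ W ∈ QSet P N, P.π p * W = W * P.π p := by
    intro W hW
    rw [hpπ]
    exact (hzX W (Or.inr hW)).symm
  have ev1 := claim P hN hU p hpb hcen hδ0
  have ev2 : ∀ᶠ l in (U : Filter (Finset (H →L[ℂ] H) × ℕ)),
      |‖p l T.Ω‖ ^ 2 - ‖z P.That.Ω‖ ^ 2| < ε / 2 := by
    have h1 := (P.norm_tendsto p hpb).pow 2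
    rw [hpπ] at h1
    have h2 := (Metric.tendsto_nhds.1 h1) (ε / 2) (half_pos hε)
    simpa only [Real.dist_eq] using h2
  have ev3 : ∀ᶠ l in (U : Filter (Finset (H →L[ℂ] H) × ℕ)),
      ∀ x ∈ F, x ∈ N → ‖(x * p l - p l * x) T.Ω‖ ≤ ε / 2 := by
    rw [Filter.eventually_all_finset]
    intro x _
    by_cases hx : x ∈ N
    · have h1 := comm_tendsto P (bd_const (hN.sub x hx)) hpb
      rw [hpπ, hzX _ (Or.inl ⟨x, hx, rfl⟩), sub_self] at h1
      have h2 : ‖(0 : P.L →L[ℂ] P.L) P.That.Ω‖ = 0 := by simp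
      rw [h2] at h1
      filter_upwards [h1.eventually_lt_const (half_pos hε)] with l hl _
      exact hl.le
    · exact Filter.Eventually.of_forall fun l h => absurd h hx
  obtain ⟨l, ⟨⟨F₁, ε₁, hε₁, hw⟩, h2⟩, h3⟩ := ((ev1.and ev2).and ev3).exists
  obtain ⟨e, he, hep, hedist⟩ := toProj T hAvg hP0 hNP hN (hpS l) (hpp l) hδ0 F₁ hε₁ hw
  have heS : e ∈ T.S := he.1
  have hsub : e - p l ∈ T.S := sub_mem heS (hpS l)
  refine ⟨e, he, hep, ?_, ?_⟩
  · intro x hx hxN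
    have hxS := hN.sub x hxN
    have e1 : x * e - e * x = (x * p l - p l * x) + (x * (e - p l) - (e - p l) * x) := by
      noncomm_ring
    rw [e1, _root_.add_apply]
    have h4 : ‖(x * (e - p l) - (e - p l) * x) T.Ω‖ ≤ 2 * (M * (7 * δ)) := by
      rw [_root_.sub_apply]
      refine (norm_sub_le _ _).trans ?_
      have h5 : ‖(x * (e - p l)) T.Ω‖ ≤ M * (7 * δ) :=
        (T.norm_mul_le _ _).trans (mul_le_mul (hxM x hx) hedist (norm_nonneg _) (by linarith))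
      have h6 : ‖((e - p l) * x) T.Ω‖ ≤ M * (7 * δ) :=
        (T.norm_mul_right hsub hxS).trans
          (mul_le_mul (hxM x hx) hedist (norm_nonneg _) (by linarith))
      linarith
    refine (norm_add_le _ _).trans ?_
    have h7 := h3 x hx hxN
    have h8 : 2 * (M * (7 * δ)) = ε / 2 := by rw [← hδM]; ring
    linarith
  · have h4 : |‖e T.Ω‖ ^ 2 - ‖p l T.Ω‖ ^ 2| ≤ 14 * δ := by
      have h5 : |‖e T.Ω‖ - ‖p l T.Ω‖| ≤ 7 * δ := by
        have := abs_norm_sub_norm_le (e T.Ω) (p l T.Ω)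
        refine this.trans ?_
        have : e T.Ω - p l T.Ω = (e - p l) T.Ω := rfl
        rw [this]; exact hedist
      have h6 : ‖e T.Ω‖ ≤ 1 := (T.norm_le e).trans hep.norm_le
      have h7 : ‖p l T.Ω‖ ≤ 1 := (T.norm_le _).trans (hpp l).norm_le
      have h8 : ‖e T.Ω‖ ^ 2 - ‖p l T.Ω‖ ^ 2 =
          (‖e T.Ω‖ - ‖p l T.Ω‖) * (‖e T.Ω‖ + ‖p l T.Ω‖) := by ring
      rw [h8, abs_mul, abs_of_nonneg (add_nonneg (norm_nonneg _) (norm_nonneg _))]
      have h9 : 0 ≤ |‖e T.Ω‖ - ‖p l T.Ω‖| := abs_nonneg _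
      nlinarith [norm_nonneg (e T.Ω), norm_nonneg (p l T.Ω)]
    have h5 : 14 * δ ≤ ε / 2 := by
      rw [← hδM]; nlinarith
    have h6 := abs_sub_le (‖e T.Ω‖ ^ 2) (‖p l T.Ω‖ ^ 2) (‖z P.That.Ω‖ ^ 2)
    linarith

end Pool.Agent.OS
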