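import Pool.Agent.OS.Compare
import Pool.Agent.OS.QA
import Pool.Agent.OS.QB

set_option autoImplicit false

/-!
# QE: nested partitions in the relative commutant `Q` and their lifts
-/

open Filter Topology
open scoped InnerProductSpace

namespace Pool.Agent.OS

universe u

namespace QE

variable {H : Type u} [NormedAddCommGroup H] [InnerProductSpace ℂ H] [CompleteSpace H]

/-- refinement of a partition -/
theorem refine_part (hDiv : Stmt_Divide.{u}) (T : TVN H) (hT : T.NoMin) {k : ℕ}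
    {q : Fin k → H →L[ℂ] H} (hq : T.IsPartOf 1 q) {η : ℝ} (hη : 0 < η) :
    ∃ (k' : ℕ) (q' : Fin k' → H →L[ℂ] H) (par : Fin k' → Fin k), T.IsPartOf 1 q' ∧
      (∀ i, ‖q' i T.Ω‖ ^ 2 ≤ η) ∧
      ∀ j, ∑ i ∈ Finset.univ.filter (fun i => par i = j), q' i = q j := by
  have h1 : ∀ j, ∃ (m : ℕ) (r : Fin m → H →L[ℂ] H), T.IsPartOf (q j) r ∧
      ∀ i, ‖r i T.Ω‖ ^ 2 ≤ η := fun j => hDiv H T hT (q j) (hq.mem j) (hq.proj j) η hη
  choose m r hr hrη using h1
  let E : (Σ j : Fin k, Fin (m j)) ≃ Fin (Fintype.card (Σ j : Fin k, Fin (m j))) :=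
    Fintype.equivFin _
  let R : (Σ j : Fin k, Fin (m j)) → H →L[ℂ] H := fun a => r a.1 a.2
  have hsum : ∀ j, ∑ a ∈ Finset.univ.filter (fun a : (Σ j : Fin k, Fin (m j)) => a.1 = j), R a =
      q j := by
    intro j
    rw [← (hr j).sum]
    rw [Finset.sum_filter, Fintype.sum_sigma]
    rw [Finset.sum_eq_single j]
    · simp [R]
    · intro b _ hb
      simp [hb]
    · simp
  refine ⟨_, fun i => R (E.symm i), fun i => (E.symm i).1, ⟨fun i => (hr _).mem _,
    fun i => (hr _).proj _, fun i i' hii' => ?_, ?_⟩, fun i => hrη _ _, fun j => ?_⟩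
  · have hne : E.symm i ≠ E.symm i' := fun h => hii' (E.symm.injective h)
    generalize E.symm i = a at hne ⊢
    generalize E.symm i' = b at hne ⊢
    obtain ⟨j, a⟩ := a
    obtain ⟨j', b⟩ := b
    change r j a * r j' b = 0
    by_cases hj : j = j'
    · subst hj
      exact (hr j).orth a b (fun h => hne (by rw [h]))
    · rw [← (hr j).mul_right a, ← (hr j').mul_left b, mul_assoc, ← mul_assoc (q j),
        hq.orth j j' hj, zero_mul, mul_zero]
  · rw [Equiv.sum_comp E.symm R, Fintype.sum_sigma]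
    have : ∀ j, ∑ y, R ⟨j, y⟩ = q j := fun j => (hr j).sum
    rw [Finset.sum_congr rfl fun j _ => this j]
    exact hq.sum
  · rw [← hsum j, Finset.sum_filter, Finset.sum_filter]
    exact Equiv.sum_comp E.symm (fun a => if a.1 = j then R a else 0)

/-- nested partitions -/
theorem nested (hDiv : Stmt_Divide.{u}) (T : TVN H) (hT : T.NoMin) :
    ∃ (k : ℕ → ℕ) (q : (n : ℕ) → Fin (k n) → H →L[ℂ] H)
      (par : (n : ℕ) → Fin (k (n + 1)) → Fin (k n)),
      (∀ n, T.IsPartOf 1 (q n)) ∧ (∀ n j, ‖q n j T.Ω‖ ^ 2 ≤ 1 / (n + 1 : ℝ)) ∧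
      ∀ n j, ∑ i ∈ Finset.univ.filter (fun i => par n i = j), q (n + 1) i = q n j := by
  let St : Type u := Σ k : ℕ, {q : Fin k → H →L[ℂ] H // T.IsPartOf 1 q}
  have hstep : ∀ (n : ℕ) (s : St), ∃ (s' : St) (par : Fin s'.1 → Fin s.1),
      (∀ i, ‖s'.2.1 i T.Ω‖ ^ 2 ≤ 1 / ((n + 1 : ℕ) + 1 : ℝ)) ∧
      ∀ j, ∑ i ∈ Finset.univ.filter (fun i => par i = j), s'.2.1 i = s.2.1 j := by
    intro n s
    obtain ⟨k', q', par, h1, h2, h3⟩ := refine_part hDiv T hT s.2.2
      (η := 1 / ((n + 1 : ℕ) + 1 : ℝ)) (by positivity)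
    exact ⟨⟨k', q', h1⟩, par, h2, h3⟩
  choose nx par hnx1 hnx2 using hstep
  have h0 : T.IsPartOf 1 (fun _ : Fin 1 => (1 : H →L[ℂ] H)) :=
    ⟨fun _ => one_mem _, fun _ => .one _, fun i j hij => absurd (Subsingleton.elim i j) hij,
      by simp⟩
  let s : ℕ → St := fun n => Nat.rec ⟨1, _, h0⟩ (fun n s => nx n s) n
  have hs : ∀ n, s (n + 1) = nx n (s n) := fun n => rfl
  refine ⟨fun n => (s n).1, fun n => (s n).2.1, fun n => par n (s n), fun n => (s n).2.2,
    fun n => ?_, fun n j => hnx2 n (s n) j⟩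
  cases n with
  | zero =>
    intro j
    change ‖(1 : H →L[ℂ] H) T.Ω‖ ^ 2 ≤ _
    simp [T.norm_Ω]
  | succ n => exact hnx1 n (s n)

end QE

open QE in
theorem qE_proof (hAvg : Stmt_Avg.{u}) (hPIso : Stmt_PIso.{u}) (hDiv : Stmt_Divide.{u})
    (hPL : Stmt_PartLift.{u}) : Stmt_QE.{u} := by
  intro H _ _ _ T N hN hsm U hU P hQ
  -- the algebra Q
  have hc : ∀ x ∈ N, T.Bd (fun _ : Finset (H →L[ℂ] H) × ℕ => x) := fun x hx =>
    QB.bd_const (hN.sub x hx)
  let X : Set (P.L →L[ℂ] P.L) := {y | ∃ x ∈ N, y = P.π (fun _ => x)}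
  have hXS : ∀ y ∈ X, y ∈ P.That.S := by
    rintro y ⟨x, hx, rfl⟩
    exact P.mem _ (hc x hx)
  have hXs : ∀ y ∈ X, star y ∈ X := by
    rintro y ⟨x, hx, rfl⟩
    exact ⟨star x, hN.star x hx, by rw [← P.map_star _ (hc x hx)]; rfl⟩
  let Q : TVN P.L := P.That.relComm X hXS hXs
  have hQmem : ∀ Y, Y ∈ Q.S ↔ Y ∈ QSet P N := by
    intro Y
    constructor
    · intro h
      exact ⟨h.1, fun x hx => h.2 _ ⟨x, hx, rfl⟩⟩
    · intro h
      refine ⟨h.1, ?_⟩
      rintro y ⟨x, hx, rfl⟩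
      exact h.2 x hx
  have hQF : Q.Factor := by
    intro Y hY hcomm
    exact hQ Y ((hQmem Y).1 hY) fun Z hZ => hcomm Z ((hQmem Z).2 hZ)
  -- small projections of Q
  have hsmall : ∀ η > 0, ∃ r ∈ Q.S, IsStarProjection r ∧ r ≠ 0 ∧ ‖r Q.Ω‖ ^ 2 ≤ η := by
    intro η hη
    obtain ⟨c, hc0, hcF⟩ := hsm η hη
    have h1 : ∀ l : Finset (H →L[ℂ] H) × ℕ, ∃ p ∈ T.S, IsStarProjection p ∧ p * 1 = p ∧
        c ≤ ‖p T.Ω‖ ^ 2 ∧ ‖p T.Ω‖ ^ 2 ≤ η ∧ T.Near N l.1 (1 / ((l.2 : ℝ) + 1)) p :=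
      fun l => hcF l.1 _ (by positivity)
    choose e he hep _ he1 he2 he3 using h1
    have hbd : T.Bd e := QA.bd_proj he hep
    have hproj : IsStarProjection (P.π e) := by
      refine ⟨?_, ?_⟩
      · have : e * e = e := by funext l; exact (hep l).isIdempotentElem.eq
        rw [IsIdempotentElem, ← P.map_mul _ _ hbd hbd, this]
      · have : star e = e := by funext l; exact (hep l).isSelfAdjoint.star_eq
        rw [IsSelfAdjoint, ← P.map_star _ hbd, this]
    have hnt : Tendsto (fun l => ‖e l T.Ω‖ ^ 2) U (𝓝 (‖P.π e P.That.Ω‖ ^ 2)) :=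
      (P.norm_tendsto e hbd).pow 2
    refine ⟨P.π e, ?_, hproj, ?_, le_of_tendsto' hnt he2⟩
    · rw [hQmem]
      refine ⟨P.mem e hbd, fun x hx => ?_⟩
      refine QB.comm_eq P (hc x hx) hbd ?_
      refine Metric.tendsto_nhds.2 fun δ hδ => ?_
      filter_upwards [QB.ev_mem hU x, QB.ev_small hU (half_pos hδ)] with l hl1 hl2
      have := he3 l x hl1 hx
      rw [Real.dist_eq, sub_zero, abs_norm]
      linarith
    · intro h0
      have h2 : c ≤ ‖P.π e P.That.Ω‖ ^ 2 := ge_of_tendsto' hnt he1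
      rw [h0] at h2
      simp only [_root_.zero_apply, norm_zero] at h2
      norm_num at h2
      linarith
  have hQN : Q.NoMin := by
    intro p hp hpp hp0
    have hpos : 0 < ‖p Q.Ω‖ ^ 2 := by
      have : p Q.Ω ≠ 0 := fun h => hp0 (Q.sep p hp h)
      have := norm_pos_iff.2 this
      positivity
    obtain ⟨r, hr, hrp, hr0, hrη⟩ := hsmall (‖p Q.Ω‖ ^ 2 / 2) (by linarith)
    obtain ⟨x, hx, hx0⟩ := Compare.connect hAvg Q hQF hp hr hrp hp0 hr0
    obtain ⟨v, hv, hv0, hv1, hv2, hv3, hv4⟩ := hPIso P.L Q p r x hp hr hx hpp hrp hx0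
    refine ⟨v * star v, mul_mem hv (star_mem hv), hv2, ?_, ?_, hv4⟩
    · intro h
      have h1 := Compare.norm_piso' Q hv hv1
      rw [h] at h1
      simp only [_root_.zero_apply, norm_zero] at h1
      have h2 : ‖v Q.Ω‖ ^ 2 = 0 := by rw [← h1]; norm_num
      exact hv0 (Q.sep v hv (norm_eq_zero.1 (pow_eq_zero_iff two_ne_zero |>.1 h2)))
    · intro h
      have h1 := Compare.norm_piso' Q hv hv1
      have h2 := Compare.norm_piso Q hv1
      have h3 := Compare.norm_sub_proj Q hrp hv1 hv3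
      have h4 : 0 ≤ ‖(r - star v * v) Q.Ω‖ ^ 2 := sq_nonneg _
      rw [h] at h1
      linarith
  obtain ⟨k, q, par, hq, hqt, hqs⟩ := nested hDiv Q hQN
  refine ⟨k, fun n j => ‖q n j Q.Ω‖ ^ 2, par, hqt, fun n j => ?_, fun n F ε hε => ?_⟩
  · have h1 : Q.tr (q n j) = ∑ i ∈ Finset.univ.filter (fun i => par n i = j),
        Q.tr (q (n + 1) i) := by
      rw [← hqs n j]
      simp [TVN.tr]
    rw [Q.tr_proj ((hq n).proj j)] at h1
    simp_rw [fun i => Q.tr_proj ((hq (n + 1)).proj i)] at h1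
    exact_mod_cast h1.symm
  · have hpart : P.That.IsPartOf 1 (q n) :=
      ⟨fun j => ((hq n).mem j).1, (hq n).proj, (hq n).orth, (hq n).sum⟩
    obtain ⟨p, hp, hpπ⟩ := hPL H T _ U P (k n) (q n) hpart
    have hpbd : ∀ j, T.Bd (fun l => p l j) := fun j =>
      QA.bd_proj (fun l => (hp l).mem j) fun l => (hp l).proj j
    have h1 : ∀ j, ∀ᶠ l in (U : Filter (Finset (H →L[ℂ] H) × ℕ)),
        |‖p l j T.Ω‖ ^ 2 - ‖q n j Q.Ω‖ ^ 2| ≤ ε := by
      intro j
      have h2 : Tendsto (fun l => ‖p l j T.Ω‖ ^ 2) U (𝓝 (‖q n j P.That.Ω‖ ^ 2)) := by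
        have := (P.norm_tendsto _ (hpbd j)).pow 2
        rwa [hpπ j] at this
      have h3 := (Metric.tendsto_nhds.1 h2) ε hε
      filter_upwards [h3] with l hl
      rw [Real.dist_eq] at hl
      exact hl.le
    have h2 : ∀ j, ∀ᶠ l in (U : Filter (Finset (H →L[ℂ] H) × ℕ)), T.Near N F ε (p l j) := by
      intro j
      have h3 : ∀ x ∈ F, ∀ᶠ l in (U : Filter (Finset (H →L[ℂ] H) × ℕ)), x ∈ N →
          ‖(x * p l j - p l j * x) T.Ω‖ ≤ ε := by
        intro x _
        by_cases hxN : x ∈ N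
        · have h4 := QB.comm_tendsto P (hc x hxN) (hpbd j)
          have h5 : P.π (fun _ => x) * P.π (fun l => p l j) - P.π (fun l => p l j) *
              P.π (fun _ => x) = 0 := by
            rw [hpπ j, ((hQmem _).1 ((hq n).mem j)).2 x hxN, sub_self]
          rw [h5] at h4
          simp only [_root_.zero_apply, norm_zero] at h4
          filter_upwards [(Metric.tendsto_nhds.1 h4) ε hε] with l hl _
          rw [Real.dist_eq, sub_zero, abs_norm] at hl
          exact hl.le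
        · exact Eventually.of_forall fun l h => absurd h hxN
      have h4 := (Finset.eventually_all F).2 h3
      filter_upwards [h4] with l hl
      exact fun x hx hxN => hl x hx hxN
    obtain ⟨l, hl1, hl2⟩ := ((eventually_all.2 h1).and (eventually_all.2 h2)).exists
    exact ⟨p l, hp l, hl1, hl2⟩

end Pool.Agent.OS
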