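import Pool.Agent.OS.Stmts
import Pool.Agent.OS.Basic

set_option autoImplicit false

/-!
# Riesz: functionals bounded for the 1-norm come from the algebra
-/

open Filter Topology
open scoped InnerProductSpace

namespace Pool.Agent.OS

universe u

namespace Riesz

variable {H : Type u} [NormedAddCommGroup H] [InnerProductSpace ℂ H] [CompleteSpace H]

/-- `(max t 0 + ε)^(1/4)` -/
noncomputable def sf (ε : ℝ) (t : ℝ) : ℝ := Real.sqrt (Real.sqrt (max t 0 + ε))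

theorem sf_pos (ε : ℝ) (hε : 0 < ε) (t : ℝ) : 0 < sf ε t := by
  unfold sf
  apply Real.sqrt_pos.mpr
  apply Real.sqrt_pos.mpr
  have := le_max_right t 0
  linarith

theorem sf_sq (ε : ℝ) (t : ℝ) : sf ε t * sf ε t = Real.sqrt (max t 0 + ε) := by
  unfold sf
  exact Real.mul_self_sqrt (Real.sqrt_nonneg _)

theorem sf_four (ε : ℝ) (hε : 0 < ε) (t : ℝ) (ht : 0 ≤ t) :
    (sf ε t * sf ε t) * (sf ε t * sf ε t) = t + ε := by
  rw [sf_sq, Real.mul_self_sqrt, max_eq_left ht]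
  have := le_max_right t 0
  linarith

theorem sf_cont (ε : ℝ) : Continuous (sf ε) := by
  unfold sf
  fun_prop

theorem sf_inv_cont (ε : ℝ) (hε : 0 < ε) : Continuous (fun t => (sf ε t)⁻¹) :=
  (sf_cont ε).inv₀ (fun t => (sf_pos ε hε t).ne')

theorem cfc_part (T : TVN H) (y : H →L[ℂ] H) (hy : y ∈ T.S) (ε : ℝ) (hε : 0 < ε) :
    ∃ a ∈ T.S, ∃ a' ∈ T.S, IsSelfAdjoint a ∧ IsSelfAdjoint a' ∧ a' * a = 1 ∧
      a * a = a' * (star y * y) * a' + (ε : ℂ) • (a' * a') ∧ ‖(ε : ℂ) • (a' * a')‖ ≤ Real.sqrt ε ∧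
      ‖y * (a' * a')‖ ≤ 1 := by
  set h := star y * y with hh
  have hS : h ∈ T.S := mul_mem (star_mem hy) hy
  have hsa : IsSelfAdjoint h := IsSelfAdjoint.star_mul_self y
  have hsp : ∀ t ∈ spectrum ℝ h, 0 ≤ t := spectrum_star_mul_self_nonneg
  have : IsClosed (T.S : Set (H →L[ℂ] H)) := T.closed
  have hc1 : ContinuousOn (sf ε) (spectrum ℝ h) := (sf_cont ε).continuousOn
  have hc2 : ContinuousOn (fun t => (sf ε t)⁻¹) (spectrum ℝ h) := (sf_inv_cont ε hε).continuousOn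
  have hc3 : ContinuousOn (fun t : ℝ => t) (spectrum ℝ h) := continuous_id.continuousOn
  have hc4 : ContinuousOn (fun t => (sf ε t)⁻¹ * (sf ε t)⁻¹) (spectrum ℝ h) := hc2.mul hc2
  have e2 : cfc (fun t => (sf ε t)⁻¹) h * cfc (fun t => (sf ε t)⁻¹) h
      = cfc (fun t => (sf ε t)⁻¹ * (sf ε t)⁻¹) h := (cfc_mul _ _ h hc2 hc2).symm
  have e3 : h = cfc (fun t : ℝ => t) h := (cfc_id' ℝ h).symm
  have e5 : (ε : ℂ) • (cfc (fun t => (sf ε t)⁻¹) h * cfc (fun t => (sf ε t)⁻¹) h)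
      = cfc (fun t => ε * ((sf ε t)⁻¹ * (sf ε t)⁻¹)) h := by
    rw [e2, cfc_const_mul ε (fun t => (sf ε t)⁻¹ * (sf ε t)⁻¹) h hc4]
    exact (Complex.coe_smul _ _)
  refine ⟨cfc (sf ε) h, cfc_mem _ hS, cfc (fun t => (sf ε t)⁻¹) h, cfc_mem _ hS,
    cfc_predicate _ _, cfc_predicate _ _, ?_, ?_, ?_, ?_⟩
  · rw [← cfc_mul _ _ h hc2 hc1]
    have : cfc (fun t => (sf ε t)⁻¹ * sf ε t) h = cfc (fun _ : ℝ => (1 : ℝ)) h := by
      apply cfc_congr
      intro t _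
      exact inv_mul_cancel₀ (sf_pos ε hε t).ne'
    rw [this, cfc_const_one ℝ h]
  · have e6 : cfc (fun t => (sf ε t)⁻¹) h * h * cfc (fun t => (sf ε t)⁻¹) h
        = cfc (fun t => (sf ε t)⁻¹ * t * (sf ε t)⁻¹) h := by
      rw [cfc_mul (fun t => (sf ε t)⁻¹ * t) (fun t => (sf ε t)⁻¹) h (hc2.mul hc3) hc2,
        cfc_mul (fun t => (sf ε t)⁻¹) (fun t => t) h hc2 hc3, cfc_id' ℝ h]
    have e7 := cfc_add (R := ℝ) h (fun t => (sf ε t)⁻¹ * t * (sf ε t)⁻¹)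
      (fun t => ε * ((sf ε t)⁻¹ * (sf ε t)⁻¹)) ((hc2.mul hc3).mul hc2) (continuousOn_const.mul hc4)
    rw [e6, e5, ← cfc_mul _ _ h hc1 hc1, ← e7]
    apply cfc_congr
    intro t ht
    have h4 := sf_four ε hε t (hsp t ht)
    have h5 := sf_pos ε hε t
    simp only
    field_simp
    linarith
  · rw [e5]
    apply norm_cfc_le (Real.sqrt_nonneg _)
    intro t ht
    have h4 := sf_four ε hε t (hsp t ht)
    have h5 := sf_pos ε hε t
    rw [Real.norm_eq_abs, abs_of_pos (by positivity), ← mul_inv, sf_sq]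
    have h6 : Real.sqrt ε ≤ Real.sqrt (max t 0 + ε) := by
      apply Real.sqrt_le_sqrt
      have := le_max_right t 0
      linarith
    have h7 : 0 < Real.sqrt ε := Real.sqrt_pos.mpr hε
    rw [mul_inv_le_iff₀ (lt_of_lt_of_le h7 h6)]
    calc ε = Real.sqrt ε * Real.sqrt ε := (Real.mul_self_sqrt hε.le).symm
      _ ≤ _ := by gcongr
  · have e7 : ‖y * (cfc (fun t => (sf ε t)⁻¹) h * cfc (fun t => (sf ε t)⁻¹) h)‖ ^ 2 ≤ 1 := by
      rw [sq, ← CStarRing.norm_star_mul_self, e2]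
      have e8 : star (y * cfc (fun t => (sf ε t)⁻¹ * (sf ε t)⁻¹) h)
          * (y * cfc (fun t => (sf ε t)⁻¹ * (sf ε t)⁻¹) h)
          = cfc (fun t => ((sf ε t)⁻¹ * (sf ε t)⁻¹) * t * ((sf ε t)⁻¹ * (sf ε t)⁻¹)) h := by
        rw [cfc_mul (fun t => ((sf ε t)⁻¹ * (sf ε t)⁻¹) * t) _ h (hc4.mul hc3) hc4,
          cfc_mul (fun t => ((sf ε t)⁻¹ * (sf ε t)⁻¹)) (fun t => t) h hc4 hc3, cfc_id' ℝ h,
          star_mul, (cfc_predicate (fun t => (sf ε t)⁻¹ * (sf ε t)⁻¹) h : IsSelfAdjoint _).star_eq]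
        rw [hh]
        simp only [mul_assoc]
      rw [e8]
      apply norm_cfc_le zero_le_one
      intro t ht
      have h3 := hsp t ht
      have h4 := sf_four ε hε t h3
      have h5 := sf_pos ε hε t
      rw [Real.norm_eq_abs, abs_of_nonneg (by positivity)]
      have h6 : (sf ε t)⁻¹ * (sf ε t)⁻¹ * t * ((sf ε t)⁻¹ * (sf ε t)⁻¹) = t / (t + ε) := by
        rw [← h4]
        field_simp
      rw [h6, div_le_one (by linarith)]
      linarith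
    have e9 := norm_nonneg (y * (cfc (fun t => (sf ε t)⁻¹) h * cfc (fun t => (sf ε t)⁻¹) h))
    nlinarith

/-- the key inequality -/
theorem key (T : TVN H) (f : (H →L[ℂ] H) →ₗ[ℂ] ℂ) (C : ℝ) (hC : 0 ≤ C)
    (hf : ∀ b ∈ T.S, ∀ c ∈ T.S, ‖f (b * c)‖ ≤ C * ‖b T.Ω‖ * ‖c T.Ω‖)
    (y : H →L[ℂ] H) (hy : y ∈ T.S) (ε : ℝ) (hε : 0 < ε) :
    ∃ z ∈ T.S, ‖z‖ ≤ C ∧ (f y).re ≤ (⟪z T.Ω, y T.Ω⟫_ℂ).re + C * Real.sqrt ε := by
  obtain ⟨a, ha, a', ha', hsa, hsa', h1, h2, h3, h4⟩ := cfc_part T y hy ε hε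
  refine ⟨(C : ℂ) • (y * (a' * a')), SMulMemClass.smul_mem _ (mul_mem hy (mul_mem ha' ha')), ?_, ?_⟩
  · rw [norm_smul, Complex.norm_real, Real.norm_eq_abs, abs_of_nonneg hC]
    calc C * ‖y * (a' * a')‖ ≤ C * 1 := by gcongr
      _ = C := mul_one C
  set β : ℝ := ‖(y * a') T.Ω‖ ^ 2 with hβ
  have hβ0 : 0 ≤ β := by positivity
  have k1 : T.tr (a' * (star y * y) * a') = (β : ℂ) := by
    rw [hβ, ← T.tr_star_mul_self, star_mul, hsa'.star_eq]
    simp only [mul_assoc]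
  have k2 : ⟪(((C : ℂ) • (y * (a' * a'))) T.Ω), y T.Ω⟫_ℂ = (C * β : ℝ) := by
    rw [← T.tr_star_mul, star_smul, smul_mul_assoc, T.tr_smul, star_mul, star_mul, hsa'.star_eq]
    have : a' * a' * star y * y = a' * (a' * (star y * y)) := by simp only [mul_assoc]
    rw [this, T.tr_mul_comm ha' (mul_mem ha' (mul_mem (star_mem hy) hy)), k1]
    simp
  have k3 : ‖a T.Ω‖ ^ 2 ≤ β + Real.sqrt ε := by
    have e1 := T.tr_star_mul_self a
    rw [hsa.star_eq, h2, T.tr_add, k1] at e1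
    have e2 : ‖T.tr ((ε : ℂ) • (a' * a'))‖ ≤ Real.sqrt ε :=
      le_trans (T.norm_tr_le _) (le_trans (T.norm_le _) h3)
    have e3 : T.tr ((ε : ℂ) • (a' * a')) = ((‖a T.Ω‖ ^ 2 - β : ℝ) : ℂ) := by
      rw [Complex.ofReal_sub, ← e1]
      ring
    rw [e3, Complex.norm_real, Real.norm_eq_abs] at e2
    have := (abs_le.mp e2).2
    linarith
  have k4 : ‖f y‖ ≤ C * (β + Real.sqrt ε) := by
    have e1 : y = (y * a') * a := by rw [mul_assoc, h1, mul_one]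
    have e2 := hf (y * a') (mul_mem hy ha') a ha
    rw [← e1] at e2
    have e3 : ‖(y * a') T.Ω‖ * ‖a T.Ω‖ ≤ β + Real.sqrt ε := by
      have e4 : 0 ≤ Real.sqrt ε := Real.sqrt_nonneg _
      have e5 := sq_nonneg (‖(y * a') T.Ω‖ - ‖a T.Ω‖)
      nlinarith
    calc ‖f y‖ ≤ C * ‖(y * a') T.Ω‖ * ‖a T.Ω‖ := e2
      _ = C * (‖(y * a') T.Ω‖ * ‖a T.Ω‖) := by ring
      _ ≤ C * (β + Real.sqrt ε) := by gcongr
  rw [k2, Complex.ofReal_re]
  calc (f y).re ≤ ‖f y‖ := Complex.re_le_norm _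
    _ ≤ C * (β + Real.sqrt ε) := k4
    _ = _ := by ring

/-- evaluation at the trace vector -/
noncomputable def ev (T : TVN H) : Subalgebra.toSubmodule T.S.toSubalgebra →ₗ[ℂ] H :=
  (ContinuousLinearMap.apply ℂ H T.Ω).toLinearMap.comp
    (Subalgebra.toSubmodule T.S.toSubalgebra).subtype

/-- the orbit of the trace vector as a submodule -/
noncomputable def orb (T : TVN H) : Submodule ℂ H := LinearMap.range (ev T)

theorem mem_orb (T : TVN H) (ξ : H) : ξ ∈ orb T ↔ ∃ y ∈ T.S, y T.Ω = ξ := by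
  unfold orb
  rw [LinearMap.mem_range]
  constructor
  · rintro ⟨y, hy⟩
    exact ⟨y.1, y.2, hy⟩
  · rintro ⟨y, hy, h⟩
    exact ⟨⟨y, hy⟩, h⟩

/-- existence of the Riesz vector in the closure of the orbit -/
theorem vec (T : TVN H) (f : (H →L[ℂ] H) →ₗ[ℂ] ℂ) (C : ℝ) (hC : 0 ≤ C)
    (hf : ∀ y ∈ T.S, ‖f y‖ ≤ C * ‖y T.Ω‖) :
    ∃ η ∈ (orb T).topologicalClosure, ∀ y ∈ T.S, f y = ⟪η, y T.Ω⟫_ℂ := by
  -- the linear functional on the orbit
  have hA : Function.Injective (ev T) := by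
    intro x y h
    apply Subtype.ext
    exact T.eq_of_apply x.2 y.2 h
  let e : Subalgebra.toSubmodule T.S.toSubalgebra ≃ₗ[ℂ] orb T := LinearEquiv.ofInjective (ev T) hA
  let g : orb T →ₗ[ℂ] ℂ :=
    (f.comp (Subalgebra.toSubmodule T.S.toSubalgebra).subtype).comp e.symm.toLinearMap
  have hg : ∀ y (hy : y ∈ T.S), g ⟨y T.Ω, (mem_orb T _).mpr ⟨y, hy, rfl⟩⟩ = f y := by
    intro y hy
    have h1 : e ⟨y, hy⟩ = ⟨y T.Ω, (mem_orb T _).mpr ⟨y, hy, rfl⟩⟩ := by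
      apply Subtype.ext
      rfl
    have h2 : e.symm ⟨y T.Ω, (mem_orb T _).mpr ⟨y, hy, rfl⟩⟩ = ⟨y, hy⟩ := by
      rw [← h1, LinearEquiv.symm_apply_apply]
    change f ((e.symm ⟨y T.Ω, (mem_orb T _).mpr ⟨y, hy, rfl⟩⟩ : _)) = f y
    rw [h2]
  have hbd : ∀ ξ : orb T, ‖g ξ‖ ≤ C * ‖ξ‖ := by
    rintro ⟨ξ, hξ⟩
    obtain ⟨y, hy, rfl⟩ := (mem_orb T ξ).mp hξ
    rw [hg y hy]
    exact hf y hy
  let G : StrongDual ℂ (orb T) := g.mkContinuous C hbd
  obtain ⟨G', hG', _⟩ := exists_extension_norm_eq (orb T) G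
  let η := (InnerProductSpace.toDual ℂ H).symm G'
  have hη : ∀ ξ, ⟪η, ξ⟫_ℂ = G' ξ := fun ξ => InnerProductSpace.toDual_symm_apply
  haveI : CompleteSpace (orb T).topologicalClosure :=
    (Submodule.isClosed_topologicalClosure _).completeSpace_coe
  refine ⟨(orb T).topologicalClosure.starProjection η, Submodule.starProjection_apply_mem _ _, ?_⟩
  intro y hy
  have hm : y T.Ω ∈ (orb T).topologicalClosure :=
    Submodule.le_topologicalClosure _ ((mem_orb T _).mpr ⟨y, hy, rfl⟩)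
  rw [Submodule.inner_starProjection_left_eq_right, Submodule.starProjection_eq_self_iff.mpr hm,
    hη]
  have := hG' ⟨y T.Ω, (mem_orb T _).mpr ⟨y, hy, rfl⟩⟩
  rw [this]
  change f y = g _
  rw [hg y hy]

/-- the ball is closed -/
theorem ball_closed (T : TVN H) (C : ℝ) :
    IsClosed {ξ : H | ∃ z ∈ T.S, ‖z‖ ≤ C ∧ ξ = z T.Ω} := by
  rw [← isSeqClosed_iff_isClosed]
  intro u ξ hu hξ
  choose z hz hzC hzu using hu
  have hu' : u = fun n => z n T.Ω := funext hzu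
  rw [hu'] at hξ
  obtain ⟨y, hy, hyC, hlim⟩ := T.complete' hz hzC hξ.cauchySeq
  exact ⟨y, hy, hyC, tendsto_nhds_unique hξ hlim⟩

theorem ball_convex (T : TVN H) (C : ℝ) :
    Convex ℝ {ξ : H | ∃ z ∈ T.S, ‖z‖ ≤ C ∧ ξ = z T.Ω} := by
  rintro ξ ⟨z, hz, hzC, rfl⟩ ζ ⟨w, hw, hwC, rfl⟩ a b ha hb hab
  refine ⟨(a : ℂ) • z + (b : ℂ) • w, add_mem (SMulMemClass.smul_mem _ hz)
    (SMulMemClass.smul_mem _ hw), ?_, ?_⟩
  · calc ‖(a : ℂ) • z + (b : ℂ) • w‖ ≤ ‖(a : ℂ) • z‖ + ‖(b : ℂ) • w‖ := norm_add_le _ _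
      _ = a * ‖z‖ + b * ‖w‖ := by
          rw [norm_smul, norm_smul, Complex.norm_real, Complex.norm_real, Real.norm_eq_abs,
            Real.norm_eq_abs, abs_of_nonneg ha, abs_of_nonneg hb]
      _ ≤ a * C + b * C := by gcongr
      _ = C := by rw [← add_mul, hab, one_mul]
  · simp

end Riesz

open Riesz in
theorem riesz_proof : Stmt_Riesz.{u} := by
  intro H _ _ _ T f C hC hf
  have hf1 : ∀ y ∈ T.S, ‖f y‖ ≤ C * ‖y T.Ω‖ := by
    intro y hy
    have := hf 1 (one_mem _) y hy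
    rw [one_mul, one_apply_eq_self, T.norm_Ω, mul_one] at this
    exact this
  obtain ⟨η, hη, hfη⟩ := vec T f C hC hf1
  set K : Set H := {ξ : H | ∃ z ∈ T.S, ‖z‖ ≤ C ∧ ξ = z T.Ω} with hK
  have hKne : K.Nonempty := ⟨0, 0, zero_mem _, by simpa using hC, by simp⟩
  letI : InnerProductSpace ℝ H := InnerProductSpace.rclikeToReal ℂ H
  obtain ⟨k, hk, hmin⟩ := exists_norm_eq_iInf_of_complete_convex hKne
    (ball_closed T C).isComplete (ball_convex T C) η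
  rw [norm_eq_iInf_iff_real_inner_le_zero (ball_convex T C) hk] at hmin
  by_cases hx : η = k
  · obtain ⟨z, hz, hzC, rfl⟩ := hk
    refine ⟨star z, star_mem hz, by rw [norm_star]; exact hzC, ?_⟩
    intro y hy
    rw [hfη y hy, hx, ← T.tr_star_mul, T.tr_mul_comm (star_mem hz) hy]
  · exfalso
    set ξ := η - k with hξ
    have hξ0 : 0 < ‖ξ‖ := norm_pos_iff.mpr (sub_ne_zero.mpr hx)
    have hξmem : ξ ∈ (orb T).topologicalClosure := by
      obtain ⟨z, hz, _, rfl⟩ := hk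
      exact sub_mem hη (Submodule.le_topologicalClosure _ ((mem_orb T _).mpr ⟨z, hz, rfl⟩))
    have hre : ∀ w ∈ K, (⟪ξ, w - k⟫_ℂ).re ≤ 0 := hmin
    set γ : ℝ := ‖ξ‖ ^ 2 with hγ
    have hγ0 : 0 < γ := by positivity
    -- approximate ξ by an element of the orbit
    set δ : ℝ := γ / (4 * (C + ‖η‖ + 1)) with hδ
    have hδ0 : 0 < δ := by positivity
    have hcl : ξ ∈ closure (orb T : Set H) := hξmem
    rw [Metric.mem_closure_iff] at hcl
    obtain ⟨ζ, hζ, hdist⟩ := hcl δ hδ0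
    obtain ⟨y, hy, rfl⟩ := (mem_orb T ζ).mp hζ
    rw [dist_eq_norm] at hdist
    -- the key inequality
    set ε : ℝ := (γ / (4 * (C + 1))) ^ 2 with hε
    have hε0 : 0 < ε := by positivity
    obtain ⟨z, hz, hzC, hzy⟩ := key T f C hC hf y hy ε hε0
    have hsq : Real.sqrt ε = γ / (4 * (C + 1)) := Real.sqrt_sq (by positivity)
    rw [hsq, hfη y hy] at hzy
    have hzK : z T.Ω ∈ K := ⟨z, hz, hzC, rfl⟩
    have hznorm : ‖z T.Ω‖ ≤ C := (T.norm_le z).trans hzC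
    -- compare
    have c1 : |(⟪η, y T.Ω⟫_ℂ).re - (⟪η, ξ⟫_ℂ).re| ≤ ‖η‖ * δ := by
      rw [← Complex.sub_re, ← inner_sub_right]
      refine (Complex.abs_re_le_norm _).trans ((norm_inner_le_norm _ _).trans ?_)
      gcongr
      rw [norm_sub_rev]
      exact hdist.le
    have c2 : |(⟪z T.Ω, y T.Ω⟫_ℂ).re - (⟪z T.Ω, ξ⟫_ℂ).re| ≤ C * δ := by
      rw [← Complex.sub_re, ← inner_sub_right]
      refine (Complex.abs_re_le_norm _).trans ((norm_inner_le_norm _ _).trans ?_)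
      rw [norm_sub_rev]
      exact mul_le_mul hznorm hdist.le (norm_nonneg _) hC
    have c3 := hre _ hzK
    have c4 : (⟪η, ξ⟫_ℂ).re = (⟪k, ξ⟫_ℂ).re + γ := by
      have : η = k + ξ := by rw [hξ]; abel
      conv_lhs => rw [this]
      rw [inner_add_left, Complex.add_re, hγ, inner_self_eq_norm_sq_to_K]
      norm_cast
    have c5 : (⟪ξ, z T.Ω⟫_ℂ).re - (⟪ξ, k⟫_ℂ).re ≤ 0 := by
      rw [← Complex.sub_re, ← inner_sub_right]
      exact c3
    have c6 : ∀ v : H, (⟪ξ, v⟫_ℂ).re = (⟪v, ξ⟫_ℂ).re := by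
      intro v
      rw [← inner_conj_symm, Complex.conj_re]
    rw [c6, c6] at c5
    have d1 := (abs_le.mp c1).1
    have d2 := (abs_le.mp c2).2
    have d3 : (C + ‖η‖) * δ ≤ γ / 4 := by
      rw [hδ, mul_div_assoc', div_le_div_iff₀ (by positivity) (by norm_num)]
      have := norm_nonneg η
      nlinarith
    have d4 : C * (γ / (4 * (C + 1))) ≤ γ / 4 := by
      rw [mul_div_assoc', div_le_div_iff₀ (by positivity) (by norm_num)]
      nlinarith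
    nlinarith

end Pool.Agent.OS
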