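import Pool.Agent.OS.Stmts
import Pool.Agent.OS.Basic

set_option autoImplicit false

/-!
# SpanProj: self-adjoint elements are norm limits of linear combinations of projections
-/

open Filter Topology
open scoped InnerProductSpace

namespace Pool.Agent.OS

universe u

namespace SpanProj

/-- the clamp function -/
noncomputable def hh (s m t : ℝ) : ℝ := min (max (t - s) 0) m

lemma hh_cont (s m : ℝ) : Continuous (hh s m) := by
  unfold hh; fun_prop

lemma hh_low {s m t : ℝ} (hm : 0 ≤ m) (ht : t ≤ s) : hh s m t = 0 := by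
  unfold hh
  rw [max_eq_right (by linarith), min_eq_left hm]

lemma hh_high {s m t : ℝ} (ht : s + m ≤ t) : hh s m t = m := by
  unfold hh
  rw [min_eq_right]
  exact le_max_of_le_left (by linarith)

lemma hh_nonneg {s m t : ℝ} (hm : 0 ≤ m) : 0 ≤ hh s m t := le_min (le_max_right _ _) hm

lemma hh_le {s m t : ℝ} : hh s m t ≤ m := min_le_right _ _

lemma hh_sum (s m t : ℝ) (hm : 0 ≤ m) (k : ℕ) :
    ∑ j ∈ Finset.range k, hh (s + j * m) m t = min (max (t - s) 0) (k * m) := by
  induction k with
  | zero => simp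
  | succ k ih =>
    rw [Finset.sum_range_succ, ih]
    have hkm : 0 ≤ (k : ℝ) * m := by positivity
    unfold hh
    push_cast
    rcases le_total (t - s) ((k : ℝ) * m) with h1 | h1
    · rw [max_eq_right (a := t - (s + k * m)) (by linarith), min_eq_left hm, add_zero,
        min_eq_left (max_le h1 hkm), min_eq_left (max_le (by nlinarith) (by nlinarith))]
    · have h2 : max (t - s) 0 = t - s := max_eq_left (by linarith)
      rw [h2, min_eq_right h1, max_eq_left (a := t - (s + k * m)) (by linarith)]
      rcases le_total (t - (s + k * m)) m with h3 | h3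
      · rw [min_eq_left h3, min_eq_left (by nlinarith)]; ring
      · rw [min_eq_right h3, min_eq_right (by nlinarith)]; ring

end SpanProj

open SpanProj in
open scoped Function in
theorem spanProj_proof (hSpec : Stmt_Spec.{u}) : Stmt_SpanProj.{u} := by
  intro H _ _ _ T a ha hsa ε hε
  have hnt : Nontrivial H := ⟨T.Ω, 0, fun h => by
    have h1 := T.norm_Ω
    rw [h, norm_zero] at h1
    exact zero_ne_one h1⟩
  choose q hqS hqP hq1 hq2 hq3 hq4 using hSpec H T a ha hsa
  set C : ℝ := ‖a‖ + 1 with hC
  have hC0 : 0 < C := by positivity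
  obtain ⟨n, hn⟩ := exists_nat_gt (2 * C / ε)
  have hn0 : (0 : ℝ) < n := lt_trans (by positivity) hn
  set m : ℝ := 2 * C / n with hm
  have hm0 : 0 < m := by positivity
  have hmε : m ≤ ε := by
    rw [hm, div_le_iff₀ hn0]
    rw [div_lt_iff₀ hε] at hn
    linarith
  have hnm : (n : ℝ) * m = 2 * C := by rw [hm]; field_simp
  set s : ℕ → ℝ := fun j => -C + j * m with hs
  have hspec : ∀ t ∈ spectrum ℝ a, |t| ≤ ‖a‖ := by
    intro t ht
    have := spectrum.norm_le_norm_of_mem ht
    rwa [Real.norm_eq_abs] at this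
  -- decomposition of `a`
  have hdec : a + (C : ℂ) • (1 : H →L[ℂ] H) = ∑ j ∈ Finset.range n, cfc (hh (s j) m) a := by
    rw [← cfc_sum (fun j => hh (s j) m) a (Finset.range n) (fun i _ => (hh_cont _ _).continuousOn)]
    have h1 : cfc (∑ i ∈ Finset.range n, fun x => hh (s i) m x) a = cfc (fun t : ℝ => t + C) a := by
      apply cfc_congr
      intro t ht
      have h2 := hspec t ht
      rw [abs_le] at h2
      simp only [Finset.sum_apply]
      have h3 := hh_sum (-C) m t hm0.le n
      simp only [hs]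
      rw [h3, hnm, max_eq_left (by linarith), min_eq_left (by linarith)]
      ring
    have h4 : cfc (fun t : ℝ => t + C) a = a + (C : ℂ) • (1 : H →L[ℂ] H) := by
      have h5 := cfc_add_const (R := ℝ) C (fun t : ℝ => t) a (by fun_prop) hsa
      rw [h5, cfc_id' ℝ a hsa]
      rw [Algebra.algebraMap_eq_smul_one]
      congr 1
    rw [← h4, ← h1]
  -- the pieces
  set d : ℕ → (H →L[ℂ] H) := fun j => (m : ℂ) • q (s j) - cfc (hh (s j) m) a with hd
  have hhq : ∀ j, cfc (hh (s j) m) a * q (s j) = cfc (hh (s j) m) a := fun j =>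
    hq2 (s j) _ (hh_cont _ _) (fun t ht => hh_low hm0.le ht)
  have hgcfc : ∀ j, cfc (fun t => m - hh (s j) m t) a = (m : ℂ) • (1 : H →L[ℂ] H) - cfc (hh (s j) m) a := by
    intro j
    rw [cfc_sub (fun _ => m) (hh (s j) m) a (by fun_prop) (hh_cont _ _).continuousOn, cfc_const m a hsa]
    rw [Algebra.algebraMap_eq_smul_one]
    congr 1
  have hdj : ∀ j, d j = cfc (fun t => m - hh (s j) m t) a * q (s j) := by
    intro j
    rw [hgcfc, sub_mul, hhq, smul_mul_assoc, one_mul]
  have hcomm : ∀ i, a * q (s i) = q (s i) * a := fun i => hq3 (s i) a ha rfl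
  have hqq : ∀ i j, q (s i) * q (s j) = q (s j) * q (s i) := by
    intro i j
    exact hq3 (s j) (q (s i)) (hqS _) (hcomm i).symm
  have hzero : ∀ i j, i < j → cfc (fun t => m - hh (s i) m t) a * q (s j) = 0 := by
    intro i j hij
    refine hq1 (s j) _ (by have := hh_cont (s i) m; fun_prop) (fun t ht => ?_)
    have h1 : s i + m ≤ s j := by
      simp only [hs]
      have : ((i : ℝ) + 1) ≤ j := by exact_mod_cast hij
      nlinarith
    rw [hh_high (by linarith), sub_self]
  have hdsa : ∀ j, IsSelfAdjoint (d j) := by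
    intro j
    simp only [hd]
    refine IsSelfAdjoint.sub ?_ (cfc_predicate _ _)
    rw [IsSelfAdjoint, star_smul, (hqP (s j)).isSelfAdjoint.star_eq]
    simp
  have hdd : ∀ i j, i < j → d i * d j = 0 := by
    intro i j hij
    have e1 : d j = q (s j) * d j := by
      have h1 : d j = star (d j) := (hdsa j).star_eq.symm
      have h2 : d j * q (s j) = d j := by
        rw [hdj, mul_assoc, (hqP (s j)).isIdempotentElem.eq]
      calc d j = star (d j) := h1
        _ = star (d j * q (s j)) := by rw [h2]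
        _ = q (s j) * d j := by rw [star_mul, (hqP (s j)).isSelfAdjoint.star_eq, (hdsa j).star_eq]
    rw [e1, hdj i, ← mul_assoc, mul_assoc _ (q (s i)) (q (s j)), hqq i j, ← mul_assoc, hzero i j hij,
      zero_mul, zero_mul]
  have hpair : Pairwise ((· * · = 0) on d) := by
    intro i j hij
    rcases lt_or_gt_of_ne hij with h | h
    · exact hdd i j h
    · have h1 := hdd j i h
      have h2 : star (d j * d i) = 0 := by rw [h1, star_zero]
      rw [star_mul, (hdsa i).star_eq, (hdsa j).star_eq] at h2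
      exact h2
  have hdn : ∀ j, ‖d j‖ ≤ m := by
    intro j
    rw [hdj]
    have h1 : ‖cfc (fun t => m - hh (s j) m t) a‖ ≤ m := by
      apply norm_cfc_le hm0.le
      intro t _
      rw [Real.norm_eq_abs, abs_of_nonneg (by linarith [hh_le (s := s j) (m := m) (t := t)])]
      linarith [hh_nonneg (s := s j) (m := m) (t := t) hm0.le]
    have h2 : ‖q (s j)‖ ≤ 1 := (hqP (s j)).norm_le
    calc ‖cfc (fun t => m - hh (s j) m t) a * q (s j)‖
        ≤ ‖cfc (fun t => m - hh (s j) m t) a‖ * ‖q (s j)‖ := norm_mul_le _ _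
      _ ≤ m * 1 := mul_le_mul h1 h2 (norm_nonneg _) hm0.le
      _ = m := mul_one m
  have hsum : ‖∑ j ∈ Finset.range n, d j‖ ≤ m := by
    have h1 := IsSelfAdjoint.nnnorm_sum_eq_sup (Finset.range n) (fun i _ => hdsa i) hpair
    have h2 : (Finset.range n).sup (fun i => ‖d i‖₊) ≤ ⟨m, hm0.le⟩ := by
      apply Finset.sup_le
      intro j _
      exact hdn j
    rw [← h1] at h2
    exact h2
  refine ⟨n + 1, Fin.cons (-C) (fun _ => m), Fin.cons 1 (fun j => q (s j)), ?_, ?_⟩
  · intro i
    refine Fin.cases ?_ (fun j => ?_) i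
    · exact ⟨T.S.one_mem, IsStarProjection.one _⟩
    · exact ⟨hqS _, hqP _⟩
  · rw [Fin.sum_univ_succ]
    simp only [Fin.cons_zero, Fin.cons_succ]
    have h1 : a - (((-C : ℝ) : ℂ) • (1 : H →L[ℂ] H) + ∑ x : Fin n, (m : ℂ) • q (s x)) =
        - ∑ j ∈ Finset.range n, d j := by
      rw [Fin.sum_univ_eq_sum_range (fun j => (m : ℂ) • q (s j)) n]
      simp only [hd]
      rw [Finset.sum_sub_distrib, ← hdec]
      push_cast
      rw [neg_smul]
      abel
    rw [h1, norm_neg]
    exact hsum.trans hmε

end Pool.Agent.OS
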