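import Pool.Agent.OS.Stmts

set_option autoImplicit false

/-!
# Module Spec: spectral projections in a `TVN`
-/

open Filter Topology
open scoped InnerProductSpace

namespace Pool.Agent.OS.Spec

universe u

variable {H : Type u} [NormedAddCommGroup H] [InnerProductSpace ℂ H] [CompleteSpace H]

/-- `‖x* Ω‖ = ‖x Ω‖` -/
theorem norm_star (T : TVN H) {x : H →L[ℂ] H} (hx : x ∈ T.S) : ‖star x T.Ω‖ = ‖x T.Ω‖ := by
  have h1 : ⟪star x T.Ω, star x T.Ω⟫_ℂ = ⟪T.Ω, x (star x T.Ω)⟫_ℂ := by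
    rw [ContinuousLinearMap.star_eq_adjoint, ContinuousLinearMap.adjoint_inner_left]
  have h2 : ⟪x T.Ω, x T.Ω⟫_ℂ = ⟪T.Ω, star x (x T.Ω)⟫_ℂ := by
    rw [ContinuousLinearMap.star_eq_adjoint, ContinuousLinearMap.adjoint_inner_right]
  have h3 := T.trace x hx (star x) (star_mem hx)
  have h4 := inner_self_eq_norm_sq_to_K (𝕜 := ℂ) (star x T.Ω)
  have h4' := inner_self_eq_norm_sq_to_K (𝕜 := ℂ) (x T.Ω)
  rw [h1, h3, ← h2, h4'] at h4
  have h5 : ‖star x T.Ω‖ ^ 2 = ‖x T.Ω‖ ^ 2 := by exact_mod_cast h4.symm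
  exact (sq_eq_sq₀ (norm_nonneg _) (norm_nonneg _)).1 h5

/-- `‖x y Ω‖ ≤ ‖y‖ ‖x Ω‖` -/
theorem norm_mul_le (T : TVN H) {x y : H →L[ℂ] H} (hx : x ∈ T.S) (hy : y ∈ T.S) :
    ‖(x * y) T.Ω‖ ≤ ‖y‖ * ‖x T.Ω‖ := by
  rw [← norm_star T (mul_mem hx hy), star_mul, ← norm_star T hx, ← norm_star' y]
  exact (star y).le_opNorm _
where
  norm_star' (y : H →L[ℂ] H) : ‖star y‖ = ‖y‖ := _root_.norm_star y

/-- left multiplication is continuous for the 2-norm -/
theorem tendsto_left (T : TVN H) {x : ℕ → H →L[ℂ] H} {q : H →L[ℂ] H}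
    (h : Tendsto (fun n => x n T.Ω) atTop (𝓝 (q T.Ω))) (y : H →L[ℂ] H) :
    Tendsto (fun n => (y * x n) T.Ω) atTop (𝓝 ((y * q) T.Ω)) :=
  (y.continuous.tendsto _).comp h

/-- right multiplication is continuous for the 2-norm -/
theorem tendsto_right (T : TVN H) {x : ℕ → H →L[ℂ] H} {q : H →L[ℂ] H} (hx : ∀ n, x n ∈ T.S)
    (hq : q ∈ T.S) (h : Tendsto (fun n => x n T.Ω) atTop (𝓝 (q T.Ω))) {y : H →L[ℂ] H}
    (hy : y ∈ T.S) : Tendsto (fun n => (x n * y) T.Ω) atTop (𝓝 ((q * y) T.Ω)) := by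
  rw [tendsto_iff_norm_sub_tendsto_zero] at h ⊢
  refine squeeze_zero (fun _ => norm_nonneg _) (fun n => ?_) (by simpa using h.const_mul ‖y‖)
  have := norm_mul_le T (sub_mem (hx n) hq) hy
  simpa [sub_mul] using this

/-- equality in `S` is detected on `Ω` -/
theorem eq_of (T : TVN H) {x y : H →L[ℂ] H} (hx : x ∈ T.S) (hy : y ∈ T.S)
    (h : x T.Ω = y T.Ω) : x = y :=
  sub_eq_zero.1 (T.sep _ (sub_mem hx hy) (by simp [h]))

/-- the cut-off functions -/
noncomputable def g (s : ℝ) (k : ℕ) (t : ℝ) : ℝ := min 1 (max 0 (2 ^ k * (t - s) - 1))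

theorem g_cont (s : ℝ) (k : ℕ) : Continuous (g s k) := by unfold g; fun_prop

theorem g_nonneg (s : ℝ) (k : ℕ) (t : ℝ) : 0 ≤ g s k t := le_min zero_le_one (le_max_left _ _)

theorem g_le_one (s : ℝ) (k : ℕ) (t : ℝ) : g s k t ≤ 1 := min_le_left _ _

theorem g_eq_zero {s : ℝ} {k : ℕ} {t : ℝ} (h : 2 ^ k * (t - s) ≤ 1) : g s k t = 0 := by
  unfold g
  rw [max_eq_left (by linarith)]
  simp

theorem g_eq_one {s : ℝ} {k : ℕ} {t : ℝ} (h : 2 ≤ 2 ^ k * (t - s)) : g s k t = 1 := by
  unfold g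
  exact min_eq_left (le_max_of_le_right (by linarith))

theorem g_mono {s : ℝ} {k m : ℕ} (hkm : k ≤ m) (t : ℝ) : g s k t ≤ g s m t := by
  rcases le_or_gt (2 ^ k * (t - s)) 1 with h | h
  · rw [g_eq_zero h]; exact g_nonneg _ _ _
  · have hts : 0 < t - s := by
      by_contra hc
      have : (2 : ℝ) ^ k * (t - s) ≤ 0 :=
        mul_nonpos_of_nonneg_of_nonpos (by positivity) (not_lt.1 hc)
      linarith
    unfold g
    have : (2 : ℝ) ^ k * (t - s) ≤ 2 ^ m * (t - s) :=
      mul_le_mul_of_nonneg_right (pow_le_pow_right₀ (by norm_num) hkm) hts.le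
    exact min_le_min_left _ (max_le_max_left _ (by linarith))

theorem g_mul {s : ℝ} {k m : ℕ} (hkm : k < m) (t : ℝ) : g s m t * g s k t = g s k t := by
  rcases le_or_gt (2 ^ k * (t - s)) 1 with h | h
  · rw [g_eq_zero h]; simp
  · have hts : 0 < t - s := by
      by_contra hc
      have : (2 : ℝ) ^ k * (t - s) ≤ 0 :=
        mul_nonpos_of_nonneg_of_nonpos (by positivity) (not_lt.1 hc)
      linarith
    have h2 : (2 : ℝ) ≤ 2 ^ (k + 1) * (t - s) := by
      have : (2 : ℝ) ^ (k + 1) * (t - s) = 2 * (2 ^ k * (t - s)) := by ring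
      linarith
    have h3 : (2 : ℝ) ^ (k + 1) * (t - s) ≤ 2 ^ m * (t - s) :=
      mul_le_mul_of_nonneg_right (pow_le_pow_right₀ (by norm_num) hkm) hts.le
    rw [g_eq_one (h2.trans h3), one_mul]

theorem mem_cfc (T : TVN H) {a : H →L[ℂ] H} (ha : a ∈ T.S) (f : ℝ → ℝ) : cfc f a ∈ T.S := by
  have : IsClosed (T.S : Set (H →L[ℂ] H)) := T.closed
  exact cfc_mem (𝕜' := ℂ) f ha

/-- for self-adjoint `b`, `Re ⟪Ω, b b Ω⟫ = ‖b Ω‖²` -/
theorem re_sq (T : TVN H) {b : H →L[ℂ] H} (hb : IsSelfAdjoint b) :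
    (⟪T.Ω, (b * b) T.Ω⟫_ℂ).re = ‖b T.Ω‖ ^ 2 := by
  have h1 : ⟪T.Ω, (b * b) T.Ω⟫_ℂ = ⟪b T.Ω, b T.Ω⟫_ℂ := by
    rw [mul_apply_eq_comp, ← ContinuousLinearMap.adjoint_inner_left,
      ← ContinuousLinearMap.star_eq_adjoint, hb.star_eq]
  rw [h1, inner_self_eq_norm_sq_to_K (𝕜 := ℂ)]
  norm_cast

end Pool.Agent.OS.Spec

namespace Pool.Agent.OS

open Spec

universe u

theorem spec_proof : Stmt_Spec.{u} := by
  intro H _ _ _ T a ha hsa s
  -- the approximants
  set G : ℕ → H →L[ℂ] H := fun k => cfc (g s k) a with hG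
  have hGS : ∀ k, G k ∈ T.S := fun k => mem_cfc T ha _
  have hGsa : ∀ k, IsSelfAdjoint (G k) := fun k => cfc_predicate _ _
  have hc : ∀ k, ContinuousOn (g s k) (spectrum ℝ a) := fun k => (g_cont s k).continuousOn
  have hGn : ∀ k, ‖G k‖ ≤ 1 := fun k => norm_cfc_le zero_le_one (fun x _ => by
    rw [Real.norm_of_nonneg (g_nonneg s k x)]; exact g_le_one s k x)
  set r : ℕ → ℝ := fun k => (⟪T.Ω, G k T.Ω⟫_ℂ).re with hr
  have key : ∀ k m, k ≤ m → ‖(G m - G k) T.Ω‖ ^ 2 ≤ r m - r k := by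
    intro k m hkm
    set v : ℝ → ℝ := fun t => g s m t - g s k t with hv
    have hvc : Continuous v := (g_cont s m).sub (g_cont s k)
    have hv0 : ∀ t, 0 ≤ v t := fun t => sub_nonneg.2 (g_mono hkm t)
    have hv1 : ∀ t, v t ≤ 1 := fun t => by
      have := g_le_one s m t; have := g_nonneg s k t; simp only [hv]; linarith
    have e1 : G m - G k = cfc v a := (cfc_sub (g s m) (g s k) a (hc m) (hc k)).symm
    have hvsa : IsSelfAdjoint (cfc v a) := cfc_predicate _ _
    set b : H →L[ℂ] H := cfc (fun t => Real.sqrt (v t - v t * v t)) a with hb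
    have hbsa : IsSelfAdjoint b := cfc_predicate _ _
    have hbc : Continuous (fun t => Real.sqrt (v t - v t * v t)) := by fun_prop
    have hbb : b * b = cfc v a - cfc v a * cfc v a := by
      rw [hb, ← cfc_mul _ _ a hbc.continuousOn hbc.continuousOn,
        ← cfc_mul _ _ a hvc.continuousOn hvc.continuousOn,
        ← cfc_sub v (fun x => v x * v x) a hvc.continuousOn (hvc.mul hvc).continuousOn]
      congr 1
      funext t
      rw [Real.mul_self_sqrt]
      have := hv0 t; have := hv1 t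
      nlinarith
    have h1 := re_sq T hbsa
    have h2 := re_sq T hvsa
    have h3 : (⟪T.Ω, (cfc v a) T.Ω⟫_ℂ).re = r m - r k := by
      rw [← e1]; simp [hr]
    rw [e1, ← h2, ← h3]
    have h4 : (⟪T.Ω, (b * b) T.Ω⟫_ℂ).re
        = (⟪T.Ω, (cfc v a) T.Ω⟫_ℂ).re - (⟪T.Ω, (cfc v a * cfc v a) T.Ω⟫_ℂ).re := by
      rw [hbb]; simp
    have h5 : 0 ≤ (⟪T.Ω, (b * b) T.Ω⟫_ℂ).re := by rw [h1]; positivity
    linarith
  have hrm : Monotone r := fun k m hkm => by
    have := key k m hkm
    have h0 : 0 ≤ ‖(G m - G k) T.Ω‖ ^ 2 := by positivity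
    linarith
  have hrb : ∀ k, r k ≤ 1 := by
    intro k
    calc r k ≤ ‖⟪T.Ω, G k T.Ω⟫_ℂ‖ := Complex.re_le_norm _
      _ ≤ ‖T.Ω‖ * ‖G k T.Ω‖ := norm_inner_le_norm _ _
      _ ≤ 1 * 1 := by
        refine mul_le_mul T.norm_Ω.le ?_ (norm_nonneg _) zero_le_one
        calc ‖G k T.Ω‖ ≤ ‖G k‖ * ‖T.Ω‖ := (G k).le_opNorm _
          _ ≤ 1 * 1 := mul_le_mul (hGn k) T.norm_Ω.le (norm_nonneg _) zero_le_one
          _ = 1 := one_mul _
      _ = 1 := one_mul _
  have hrc : CauchySeq r := by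
    have : ∃ l, Tendsto r atTop (𝓝 l) :=
      ⟨_, tendsto_atTop_ciSup hrm ⟨1, by rintro _ ⟨k, rfl⟩; exact hrb k⟩⟩
    exact this.choose_spec.cauchySeq
  have hGc : CauchySeq (fun k => G k T.Ω) := by
    rw [Metric.cauchySeq_iff'] at hrc ⊢
    intro ε hε
    obtain ⟨N, hN⟩ := hrc (ε ^ 2) (by positivity)
    refine ⟨N, fun n hn => ?_⟩
    have h1 := key N n hn
    have h2 := hN n hn
    rw [Real.dist_eq] at h2
    have h3 : ‖(G n - G N) T.Ω‖ ^ 2 < ε ^ 2 := lt_of_le_of_lt (h1.trans (le_abs_self _)) h2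
    rw [dist_eq_norm]
    have h4 := lt_of_pow_lt_pow_left₀ 2 hε.le h3
    simpa using h4
  obtain ⟨q, hqS, hq1, hlim⟩ := T.complete G hGS hGn hGc
  have hmul : ∀ k, G k * q = G k := by
    intro k
    refine eq_of T (mul_mem (hGS k) hqS) (hGS k) ?_
    have h1 := tendsto_left T hlim (G k)
    have h2 : Tendsto (fun n => (G k * G n) T.Ω) atTop (𝓝 (G k T.Ω)) := by
      refine tendsto_const_nhds.congr' ?_
      filter_upwards [eventually_gt_atTop k] with n hn
      have : G k * G n = G k := by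
        simp only [hG]
        rw [← cfc_mul _ _ a (hc k) (hc n)]
        congr 1
        funext t
        rw [mul_comm]; exact g_mul hn t
      rw [this]
    exact tendsto_nhds_unique h1 h2
  have hqq : q * q = q := by
    refine eq_of T (mul_mem hqS hqS) hqS ?_
    have h1 := tendsto_right T hGS hqS hlim hqS
    simp only [hmul] at h1
    exact tendsto_nhds_unique h1 hlim
  have hqsa : star q = q := by
    refine eq_of T (star_mem hqS) hqS ?_
    refine tendsto_nhds_unique (f := fun n => G n T.Ω) (l := atTop) ?_ hlim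
    rw [tendsto_iff_norm_sub_tendsto_zero] at hlim ⊢
    refine hlim.congr (fun n => ?_)
    have h1 : star (G n - q) = G n - star q := by rw [star_sub, (hGsa n).star_eq]
    have h2 := Spec.norm_star T (sub_mem (hGS n) hqS)
    rw [h1] at h2
    simpa using h2.symm
  refine ⟨q, hqS, ⟨hqq, hqsa⟩, ?_, ?_, ?_, ?_⟩
  · intro f hf hf0
    refine eq_of T (mul_mem (mem_cfc T ha f) hqS) (zero_mem _) ?_
    have h1 := tendsto_left T hlim (cfc f a)
    have h2 : ∀ n, cfc f a * G n = 0 := by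
      intro n
      simp only [hG]
      rw [← cfc_mul _ _ a hf.continuousOn (hc n)]
      have : (fun x => f x * g s n x) = fun _ => 0 := by
        funext t
        rcases lt_or_ge s t with h | h
        · rw [hf0 t h, zero_mul]
        · rw [g_eq_zero, mul_zero]
          have : (2 : ℝ) ^ n * (t - s) ≤ 0 :=
            mul_nonpos_of_nonneg_of_nonpos (by positivity) (by linarith)
          linarith
      rw [this]; exact cfc_const_zero ℝ a
    simp only [h2] at h1
    exact tendsto_nhds_unique h1 tendsto_const_nhds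
  · intro f hf hf0
    refine eq_of T (mul_mem (mem_cfc T ha f) hqS) (mem_cfc T ha f) ?_
    have h1 := tendsto_left T hlim (cfc f a)
    refine tendsto_nhds_unique h1 ?_
    rw [Metric.tendsto_atTop]
    intro ε hε
    have hs0 : f s = 0 := hf0 s le_rfl
    have hfs : ContinuousAt f s := hf.continuousAt
    obtain ⟨δ, hδ, hfδ⟩ := Metric.continuousAt_iff.1 hfs (ε / 2) (half_pos hε)
    obtain ⟨N, hN⟩ := exists_pow_lt_of_lt_one (show 0 < δ / 2 by positivity)
      (show (1 / 2 : ℝ) < 1 by norm_num)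
    refine ⟨N, fun n hn => ?_⟩
    have hn2 : (1 / 2 : ℝ) ^ n < δ / 2 :=
      lt_of_le_of_lt (pow_le_pow_of_le_one (by norm_num) (by norm_num) hn) hN
    have hbd : ‖cfc f a * G n - cfc f a‖ ≤ ε / 2 := by
      have e : cfc f a * G n - cfc f a = cfc (fun t => f t * g s n t - f t) a := by
        simp only [hG]
        rw [← cfc_mul _ _ a hf.continuousOn (hc n),
          ← cfc_sub (fun x => f x * g s n x) f a (hf.mul (g_cont s n)).continuousOn
            hf.continuousOn]
      rw [e]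
      refine norm_cfc_le (by positivity) (fun t _ => ?_)
      rcases le_or_gt 2 (2 ^ n * (t - s)) with h | h
      · rw [g_eq_one h]; simp; positivity
      · rcases le_or_gt t s with h' | h'
        · rw [hf0 t h']; simp; positivity
        · have hts : dist t s < δ := by
            rw [Real.dist_eq, abs_of_pos (by linarith)]
            have : t - s < 2 * (1 / 2 : ℝ) ^ n := by
              have h2 : (2 : ℝ) ^ n * (1 / 2 : ℝ) ^ n = 1 := by
                rw [← mul_pow]; norm_num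
              have h3 : 0 < (1 / 2 : ℝ) ^ n := by positivity
              calc t - s = (2 ^ n * (t - s)) * (1 / 2 : ℝ) ^ n := by
                    rw [mul_comm ((2 : ℝ) ^ n) (t - s), mul_assoc, h2, mul_one]
                _ < 2 * (1 / 2 : ℝ) ^ n := mul_lt_mul_of_pos_right h h3
            linarith
          have h3 := hfδ hts
          rw [hs0, dist_zero_right] at h3
          have h4 : ‖f t * g s n t - f t‖ = ‖f t‖ * ‖1 - g s n t‖ := by
            rw [← norm_mul, ← norm_neg]; congr 1; ring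
          rw [h4]
          have h5 : ‖1 - g s n t‖ ≤ 1 := by
            have := g_nonneg s n t; have := g_le_one s n t
            rw [Real.norm_of_nonneg (by linarith)]; linarith
          calc ‖f t‖ * ‖1 - g s n t‖ ≤ ‖f t‖ * 1 :=
                mul_le_mul_of_nonneg_left h5 (norm_nonneg _)
            _ ≤ ε / 2 := by linarith
    rw [dist_eq_norm]
    calc ‖(cfc f a * G n) T.Ω - cfc f a T.Ω‖ = ‖(cfc f a * G n - cfc f a) T.Ω‖ := by simp
      _ ≤ ‖cfc f a * G n - cfc f a‖ * ‖T.Ω‖ := ContinuousLinearMap.le_opNorm _ _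
      _ ≤ ε / 2 * 1 := mul_le_mul hbd T.norm_Ω.le (norm_nonneg _) (by positivity)
      _ < ε := by linarith
  · intro y hy hya
    refine eq_of T (mul_mem hy hqS) (mul_mem hqS hy) ?_
    have h1 := tendsto_left T hlim y
    have h2 := tendsto_right T hGS hqS hlim hy
    have h3 : ∀ n, y * G n = G n * y := fun n =>
      ((show Commute a y from hya.symm).cfc_real (g s n)).eq.symm
    simp only [h3] at h1
    exact tendsto_nhds_unique h1 h2
  · intro hs y hy hay
    refine eq_of T (mul_mem hqS hy) (zero_mem _) ?_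
    have h2 := tendsto_right T hGS hqS hlim hy
    have h3 : ∀ n, G n * y = 0 := by
      intro n
      have hpos : ∀ t : ℝ, 0 < max t ((1 / 2 : ℝ) ^ n) :=
        fun t => lt_max_of_lt_right (by positivity)
      have hh : Continuous (fun t : ℝ => g s n t / max t ((1 / 2 : ℝ) ^ n)) := by
        refine (g_cont s n).div (by fun_prop) (fun t => (hpos t).ne')
      have e : G n = cfc (fun t => g s n t / max t ((1 / 2 : ℝ) ^ n)) a * a := by
        have : cfc (fun t => g s n t / max t ((1 / 2 : ℝ) ^ n)) a * a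
            = cfc (fun t => g s n t / max t ((1 / 2 : ℝ) ^ n)) a * cfc (fun t : ℝ => t) a := by
          rw [cfc_id' ℝ a]
        rw [this, ← cfc_mul _ (fun t : ℝ => t) a hh.continuousOn continuous_id'.continuousOn]
        simp only [hG]
        congr 1
        funext t
        rcases le_or_gt ((1 / 2 : ℝ) ^ n) t with h | h
        · rw [max_eq_left h, div_mul_cancel₀]
          exact (lt_of_lt_of_le (by positivity) h).ne'
        · rw [g_eq_zero]
          · simp
          · have h2 : (2 : ℝ) ^ n * (1 / 2 : ℝ) ^ n = 1 := by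
              rw [← mul_pow]; norm_num
            have h3 : (2 : ℝ) ^ n * (t - s) ≤ 2 ^ n * (1 / 2 : ℝ) ^ n :=
              mul_le_mul_of_nonneg_left (by linarith) (by positivity)
            linarith
      rw [e, mul_assoc, hay, mul_zero]
    simp only [h3] at h2
    exact tendsto_nhds_unique h2 tendsto_const_nhds

end Pool.Agent.OS
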