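import Pool.Agent.OS.Basic
import Pool.Agent.OS.Stmts

set_option autoImplicit false

/-!
# Tomiyama's theorem: norm one projections are positive conditional expectations
-/

open Filter Topology
open scoped InnerProductSpace

namespace Pool.Agent.OS

universe u

namespace Tom

variable {H : Type u} [NormedAddCommGroup H] [InnerProductSpace ℂ H] [CompleteSpace H]

/-- `‖b + i n‖² ≤ ‖b‖² + n²` for self-adjoint `b` -/
theorem norm_add_I {b : H →L[ℂ] H} (hb : IsSelfAdjoint b) (n : ℝ) :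
    ‖b + (Complex.I * n) • (1 : H →L[ℂ] H)‖ ^ 2 ≤ ‖b‖ ^ 2 + n ^ 2 := by
  have h1 : star (b + (Complex.I * n) • (1 : H →L[ℂ] H)) * (b + (Complex.I * n) • 1) =
      b * b + ((n : ℂ) ^ 2) • (1 : H →L[ℂ] H) := by
    have hs : star (b + (Complex.I * n) • (1 : H →L[ℂ] H)) = b - (Complex.I * n) • 1 := by
      rw [star_add, hb.star_eq, star_smul, star_one]
      simp [sub_eq_add_neg]
    rw [hs]
    simp only [sub_mul, mul_add, smul_mul_assoc, mul_smul_comm, one_mul, mul_one, smul_sub,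
      smul_smul]
    have : Complex.I * (n : ℂ) * (Complex.I * n) = - (n : ℂ) ^ 2 := by
      linear_combination (n : ℂ) ^ 2 * Complex.I_mul_I
    rw [this, neg_smul]
    abel
  have h2 : ‖b + (Complex.I * n) • (1 : H →L[ℂ] H)‖ ^ 2 =
      ‖b * b + ((n : ℂ) ^ 2) • (1 : H →L[ℂ] H)‖ := by
    rw [← h1, CStarRing.norm_star_mul_self, sq]
  rw [h2]
  refine (norm_add_le _ _).trans (add_le_add ?_ ?_)
  · rw [sq]; exact norm_mul_le _ _
  · rw [norm_smul]
    have h3 : ‖(1 : H →L[ℂ] H)‖ ≤ 1 := ContinuousLinearMap.norm_id_le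
    have h4 : ‖((n : ℂ) ^ 2)‖ = n ^ 2 := by
      rw [norm_pow, Complex.norm_real, Real.norm_eq_abs, sq_abs]
    rw [h4]
    nlinarith [sq_nonneg n]

variable {T : TVN H} {E : (H →L[ℂ] H) →ₗ[ℂ] (H →L[ℂ] H)}

theorem real_of_sa (hE : ∀ x, ‖E x‖ ≤ ‖x‖) (h1 : E 1 = 1) {b : H →L[ℂ] H}
    (hb : IsSelfAdjoint b) (ξ : H) : (⟪E b ξ, ξ⟫_ℂ).im = 0 := by
  have key : ∀ n : ℝ, (⟪E b ξ, ξ⟫_ℂ).im * (2 * n) * ‖ξ‖ ^ 2 ≤ ‖b‖ ^ 2 * ‖ξ‖ ^ 4 := by
    intro n
    -- use b - i n because the inner product is conjugate linear in the first variable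
    have h2 : ⟪E (b + (Complex.I * ((-n : ℝ) : ℂ)) • 1) ξ, ξ⟫_ℂ =
        ⟪E b ξ, ξ⟫_ℂ + Complex.I * n * (‖ξ‖ ^ 2 : ℝ) := by
      rw [map_add, map_smul, h1]
      simp only [_root_.add_apply, _root_.smul_apply, inner_add_left, inner_smul_left,
        ContinuousLinearMap.one_apply, inner_self_eq_norm_sq_to_K]
      simp
    have h3 : ‖⟪E (b + (Complex.I * ((-n : ℝ) : ℂ)) • 1) ξ, ξ⟫_ℂ‖ ≤
        ‖b + (Complex.I * ((-n : ℝ) : ℂ)) • (1 : H →L[ℂ] H)‖ * ‖ξ‖ ^ 2 := by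
      refine (norm_inner_le_norm _ _).trans ?_
      have h4 := (E (b + (Complex.I * ((-n : ℝ) : ℂ)) • 1)).le_opNorm ξ
      have h5 := hE (b + (Complex.I * ((-n : ℝ) : ℂ)) • 1)
      have h6 : 0 ≤ ‖ξ‖ := norm_nonneg _
      calc ‖E (b + (Complex.I * ((-n : ℝ) : ℂ)) • 1) ξ‖ * ‖ξ‖
          ≤ (‖E (b + (Complex.I * ((-n : ℝ) : ℂ)) • 1)‖ * ‖ξ‖) * ‖ξ‖ :=
            mul_le_mul_of_nonneg_right h4 h6
        _ ≤ (‖b + (Complex.I * ((-n : ℝ) : ℂ)) • (1 : H →L[ℂ] H)‖ * ‖ξ‖) * ‖ξ‖ :=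
            mul_le_mul_of_nonneg_right (mul_le_mul_of_nonneg_right h5 h6) h6
        _ = _ := by ring
    rw [h2] at h3
    have h7 := norm_add_I hb (-n)
    have h8 : ‖⟪E b ξ, ξ⟫_ℂ + Complex.I * n * (‖ξ‖ ^ 2 : ℝ)‖ ^ 2 ≤
        (‖b‖ ^ 2 + n ^ 2) * ‖ξ‖ ^ 4 := by
      have h9 : ‖⟪E b ξ, ξ⟫_ℂ + Complex.I * n * (‖ξ‖ ^ 2 : ℝ)‖ ^ 2 ≤
          (‖b + (Complex.I * ((-n : ℝ) : ℂ)) • (1 : H →L[ℂ] H)‖ * ‖ξ‖ ^ 2) ^ 2 :=
        pow_le_pow_left₀ (norm_nonneg _) h3 2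
      refine h9.trans ?_
      rw [mul_pow, ← pow_mul]
      refine mul_le_mul_of_nonneg_right ?_ (by positivity)
      simpa using h7
    have h10 : ‖⟪E b ξ, ξ⟫_ℂ + Complex.I * n * (‖ξ‖ ^ 2 : ℝ)‖ ^ 2 =
        (⟪E b ξ, ξ⟫_ℂ).re ^ 2 + ((⟪E b ξ, ξ⟫_ℂ).im + n * ‖ξ‖ ^ 2) ^ 2 := by
      rw [Complex.sq_norm, Complex.normSq_apply]
      simp only [Complex.add_re, Complex.add_im, Complex.mul_re, Complex.mul_im, Complex.I_re,
        Complex.I_im, Complex.ofReal_re, Complex.ofReal_im]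
      ring
    rw [h10] at h8
    nlinarith [sq_nonneg (⟪E b ξ, ξ⟫_ℂ).re, sq_nonneg (⟪E b ξ, ξ⟫_ℂ).im]
  by_contra hne
  rcases eq_or_ne ξ 0 with h0 | h0
  · exact hne (by simp [h0])
  · have hpos : 0 < ‖ξ‖ := norm_pos_iff.2 h0
    set β := (⟪E b ξ, ξ⟫_ℂ).im with hβ
    have h2 := key ((‖b‖ ^ 2 * ‖ξ‖ ^ 2 + 1) / β)
    have h3 : β * (2 * ((‖b‖ ^ 2 * ‖ξ‖ ^ 2 + 1) / β)) * ‖ξ‖ ^ 2 =
        2 * (‖b‖ ^ 2 * ‖ξ‖ ^ 2 + 1) * ‖ξ‖ ^ 2 := by
      field_simp
    rw [h3] at h2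
    have h4 : 0 < ‖ξ‖ ^ 2 := by positivity
    have h5 : 0 ≤ ‖b‖ ^ 2 * ‖ξ‖ ^ 4 := by positivity
    nlinarith

theorem norm_sub_pos (y : H →L[ℂ] H) :
    ‖((‖y‖ ^ 2 : ℝ) : ℂ) • (1 : H →L[ℂ] H) - star y * y‖ ≤ ‖y‖ ^ 2 := by
  -- the numerical range of the self-adjoint operator lies in `[0, ‖y‖²]`
  have hsa : IsSelfAdjoint (((‖y‖ ^ 2 : ℝ) : ℂ) • (1 : H →L[ℂ] H) - star y * y) := by
    refine IsSelfAdjoint.sub ?_ (IsSelfAdjoint.star_mul_self y)
    rw [IsSelfAdjoint, star_smul, star_one]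
    simp
  have hpos : 0 ≤ ((‖y‖ ^ 2 : ℝ) : ℂ) • (1 : H →L[ℂ] H) - star y * y := by
    rw [ContinuousLinearMap.nonneg_iff_isPositive, ContinuousLinearMap.isPositive_iff_complex]
    intro ξ
    have e1 : ⟪(((‖y‖ ^ 2 : ℝ) : ℂ) • (1 : H →L[ℂ] H) - star y * y) ξ, ξ⟫_ℂ =
        (((‖y‖ ^ 2 * ‖ξ‖ ^ 2 - ‖y ξ‖ ^ 2 : ℝ)) : ℂ) := by
      have e2 : (star y * y) ξ = ContinuousLinearMap.adjoint y (y ξ) := rfl
      rw [_root_.sub_apply, inner_sub_left, e2, ContinuousLinearMap.adjoint_inner_left,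
        inner_self_eq_norm_sq_to_K, _root_.smul_apply, inner_smul_left,
        ContinuousLinearMap.one_apply, inner_self_eq_norm_sq_to_K]
      simp
    rw [e1]
    have h2 : ‖y ξ‖ ^ 2 ≤ ‖y‖ ^ 2 * ‖ξ‖ ^ 2 := by
      rw [← mul_pow]
      exact pow_le_pow_left₀ (norm_nonneg _) (y.le_opNorm ξ) 2
    refine ⟨by rw [RCLike.re_to_complex, Complex.ofReal_re], ?_⟩
    change 0 ≤ (((‖y‖ ^ 2 * ‖ξ‖ ^ 2 - ‖y ξ‖ ^ 2 : ℝ)) : ℂ).re
    rw [Complex.ofReal_re]
    linarith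
  have hle : ((‖y‖ ^ 2 : ℝ) : ℂ) • (1 : H →L[ℂ] H) - star y * y ≤
      ((‖y‖ ^ 2 : ℝ) : ℂ) • (1 : H →L[ℂ] H) := by
    have h0 : 0 ≤ star y * y := star_mul_self_nonneg y
    exact sub_le_self _ h0
  refine (CStarAlgebra.norm_le_norm_of_nonneg_of_le hpos hle).trans ?_
  rw [norm_smul]
  have h3 : ‖(1 : H →L[ℂ] H)‖ ≤ 1 := ContinuousLinearMap.norm_id_le
  have h4 : ‖((‖y‖ ^ 2 : ℝ) : ℂ)‖ = ‖y‖ ^ 2 := by
    rw [Complex.norm_real, Real.norm_eq_abs, abs_of_nonneg (by positivity)]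
  rw [h4]
  nlinarith [sq_nonneg ‖y‖]

theorem positive (hE : ∀ x, ‖E x‖ ≤ ‖x‖) (h1 : E 1 = 1) (y : H →L[ℂ] H) :
    (E (star y * y)).IsPositive := by
  rw [ContinuousLinearMap.isPositive_iff_complex]
  intro ξ
  have him := real_of_sa hE h1 (IsSelfAdjoint.star_mul_self y) ξ
  have hre : 0 ≤ (⟪E (star y * y) ξ, ξ⟫_ℂ).re := by
    have h2 : ⟪E (((‖y‖ ^ 2 : ℝ) : ℂ) • (1 : H →L[ℂ] H) - star y * y) ξ, ξ⟫_ℂ =
        ((‖y‖ ^ 2 * ‖ξ‖ ^ 2 : ℝ) : ℂ) - ⟪E (star y * y) ξ, ξ⟫_ℂ := by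
      rw [map_sub, map_smul, h1, _root_.sub_apply, inner_sub_left, _root_.smul_apply,
        inner_smul_left, ContinuousLinearMap.one_apply, inner_self_eq_norm_sq_to_K]
      simp
    have h3 : ‖⟪E (((‖y‖ ^ 2 : ℝ) : ℂ) • (1 : H →L[ℂ] H) - star y * y) ξ, ξ⟫_ℂ‖ ≤
        ‖y‖ ^ 2 * ‖ξ‖ ^ 2 := by
      refine (norm_inner_le_norm _ _).trans ?_
      have h4 := (E (((‖y‖ ^ 2 : ℝ) : ℂ) • (1 : H →L[ℂ] H) - star y * y)).le_opNorm ξ
      have h5 := (hE (((‖y‖ ^ 2 : ℝ) : ℂ) • (1 : H →L[ℂ] H) - star y * y)).trans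
        (norm_sub_pos y)
      have h6 : 0 ≤ ‖ξ‖ := norm_nonneg _
      nlinarith [mul_le_mul_of_nonneg_right h5 h6]
    have h4 := (Complex.re_le_norm _).trans h3
    rw [h2, Complex.sub_re, Complex.ofReal_re] at h4
    linarith
  refine ⟨?_, hre⟩
  apply Complex.ext
  · simp
  · simp only [RCLike.re_to_complex, Complex.ofReal_im]
    exact him.symm

/-! ### the bimodule property -/

theorem sq_bound {a b : ℝ} (h : ∀ n : ℕ, ((n : ℝ) + 1) ^ 2 * a ≤ b + (n : ℝ) ^ 2 * a)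
    (ha : 0 ≤ a) : a = 0 := by
  by_contra hne
  have hpos : 0 < a := lt_of_le_of_ne ha (Ne.symm hne)
  obtain ⟨n, hn⟩ := exists_nat_gt (b / a)
  have h1 := h n
  rw [div_lt_iff₀ hpos] at hn
  nlinarith

theorem left_zero (hE : ∀ x, ‖E x‖ ≤ ‖x‖) (hS : ∀ x, E x ∈ T.S) (hid : ∀ x ∈ T.S, E x = x)
    {e : H →L[ℂ] H} (he : e ∈ T.S) (hp : IsStarProjection e) (y : H →L[ℂ] H) :
    e * E ((1 - e) * y) = 0 := by
  set w := (1 - e) * y with hw
  set z := e * E w with hz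
  have hzS : z ∈ T.S := mul_mem he (hS w)
  have hee : e * e = e := hp.isIdempotentElem.eq
  have hez : e * z = z := by rw [hz, ← mul_assoc, hee]
  have hwz : star w * z = 0 := by
    rw [hw, star_mul, star_sub, star_one, hp.isSelfAdjoint.star_eq, ← hez]
    have : star y * (1 - e) * (e * z) = star y * (e * z - e * e * z) := by noncomm_ring
    rw [this, hee, sub_self, mul_zero]
  have hzw : star z * w = 0 := by
    have := congrArg star hwz
    simpa [star_mul] using this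
  have key : ∀ n : ℕ, ((n : ℝ) + 1) ^ 2 * ‖z‖ ^ 2 ≤ ‖w‖ ^ 2 + (n : ℝ) ^ 2 * ‖z‖ ^ 2 := by
    intro n
    have h1 : e * E (w + (n : ℂ) • z) = ((n : ℂ) + 1) • z := by
      rw [map_add, map_smul, hid z hzS, mul_add, mul_smul_comm, hez, ← hz]
      module
    have h2 : ‖e * E (w + (n : ℂ) • z)‖ ≤ ‖w + (n : ℂ) • z‖ := by
      refine (norm_mul_le _ _).trans ?_
      have h3 := hp.norm_le
      have h4 := hE (w + (n : ℂ) • z)
      nlinarith [norm_nonneg (E (w + (n : ℂ) • z)), norm_nonneg e]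
    have h5 : ‖w + (n : ℂ) • z‖ ^ 2 ≤ ‖w‖ ^ 2 + (n : ℝ) ^ 2 * ‖z‖ ^ 2 := by
      have h6 : star (w + (n : ℂ) • z) * (w + (n : ℂ) • z) =
          star w * w + ((n : ℂ) ^ 2) • (star z * z) := by
        simp only [star_add, star_smul, add_mul, mul_add, smul_mul_assoc, mul_smul_comm, hwz,
          hzw, smul_zero, add_zero, zero_add, smul_smul]
        simp [sq]
      rw [sq, ← CStarRing.norm_star_mul_self, h6]
      refine (norm_add_le _ _).trans (add_le_add ?_ ?_)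
      · rw [CStarRing.norm_star_mul_self, sq]
      · rw [norm_smul, CStarRing.norm_star_mul_self, norm_pow]
        simp [sq]
    rw [h1, norm_smul] at h2
    have h7 : ‖(n : ℂ) + 1‖ = (n : ℝ) + 1 := by
      have : (n : ℂ) + 1 = (((n : ℝ) + 1 : ℝ) : ℂ) := by push_cast; rfl
      rw [this, Complex.norm_real, Real.norm_eq_abs, abs_of_nonneg (by positivity)]
    rw [h7] at h2
    have h8 : (((n : ℝ) + 1) * ‖z‖) ^ 2 ≤ ‖w + (n : ℂ) • z‖ ^ 2 :=
      pow_le_pow_left₀ (by positivity) h2 2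
    rw [mul_pow] at h8
    exact h8.trans h5
  have h0 := sq_bound key (sq_nonneg _)
  exact norm_eq_zero.1 (pow_eq_zero_iff two_ne_zero |>.1 h0)

theorem right_zero (hE : ∀ x, ‖E x‖ ≤ ‖x‖) (hS : ∀ x, E x ∈ T.S) (hid : ∀ x ∈ T.S, E x = x)
    {e : H →L[ℂ] H} (he : e ∈ T.S) (hp : IsStarProjection e) (y : H →L[ℂ] H) :
    E (y * (1 - e)) * e = 0 := by
  set w := y * (1 - e) with hw
  set z := E w * e with hz
  have hzS : z ∈ T.S := mul_mem (hS w) he
  have hee : e * e = e := hp.isIdempotentElem.eq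
  have hez : z * e = z := by rw [hz, mul_assoc, hee]
  have hwz : w * star z = 0 := by
    have h1 : star z = e * star z := by
      have := congrArg star hez
      rw [star_mul, hp.isSelfAdjoint.star_eq] at this
      exact this.symm
    rw [hw, h1]
    have : y * (1 - e) * (e * star z) = y * (e * star z - e * e * star z) := by noncomm_ring
    rw [this, hee, sub_self, mul_zero]
  have hzw : z * star w = 0 := by
    have := congrArg star hwz
    simpa [star_mul] using this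
  have key : ∀ n : ℕ, ((n : ℝ) + 1) ^ 2 * ‖z‖ ^ 2 ≤ ‖w‖ ^ 2 + (n : ℝ) ^ 2 * ‖z‖ ^ 2 := by
    intro n
    have h1 : E (w + (n : ℂ) • z) * e = ((n : ℂ) + 1) • z := by
      rw [map_add, map_smul, hid z hzS, add_mul, smul_mul_assoc, hez, ← hz]
      module
    have h2 : ‖E (w + (n : ℂ) • z) * e‖ ≤ ‖w + (n : ℂ) • z‖ := by
      refine (norm_mul_le _ _).trans ?_
      have h3 := hp.norm_le
      have h4 := hE (w + (n : ℂ) • z)
      nlinarith [norm_nonneg (E (w + (n : ℂ) • z)), norm_nonneg e]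
    have h5 : ‖w + (n : ℂ) • z‖ ^ 2 ≤ ‖w‖ ^ 2 + (n : ℝ) ^ 2 * ‖z‖ ^ 2 := by
      have h6 : (w + (n : ℂ) • z) * star (w + (n : ℂ) • z) =
          w * star w + ((n : ℂ) ^ 2) • (z * star z) := by
        simp only [star_add, star_smul, add_mul, mul_add, smul_mul_assoc, mul_smul_comm, hwz,
          hzw, smul_zero, add_zero, zero_add, smul_smul]
        simp [sq]
      rw [sq, ← CStarRing.norm_self_mul_star, h6]
      refine (norm_add_le _ _).trans (add_le_add ?_ ?_)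
      · rw [CStarRing.norm_self_mul_star, sq]
      · rw [norm_smul, CStarRing.norm_self_mul_star, norm_pow]
        simp [sq]
    rw [h1, norm_smul] at h2
    have h7 : ‖(n : ℂ) + 1‖ = (n : ℝ) + 1 := by
      have : (n : ℂ) + 1 = (((n : ℝ) + 1 : ℝ) : ℂ) := by push_cast; rfl
      rw [this, Complex.norm_real, Real.norm_eq_abs, abs_of_nonneg (by positivity)]
    rw [h7] at h2
    have h8 : (((n : ℝ) + 1) * ‖z‖) ^ 2 ≤ ‖w + (n : ℂ) • z‖ ^ 2 :=
      pow_le_pow_left₀ (by positivity) h2 2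
    rw [mul_pow] at h8
    exact h8.trans h5
  have h0 := sq_bound key (sq_nonneg _)
  exact norm_eq_zero.1 (pow_eq_zero_iff two_ne_zero |>.1 h0)

theorem proj_left (hE : ∀ x, ‖E x‖ ≤ ‖x‖) (hS : ∀ x, E x ∈ T.S) (hid : ∀ x ∈ T.S, E x = x)
    {e : H →L[ℂ] H} (he : e ∈ T.S) (hp : IsStarProjection e) (y : H →L[ℂ] H) :
    E (e * y) = e * E y := by
  have h1 := left_zero hE hS hid he hp y
  have h2 := left_zero hE hS hid (sub_mem (one_mem _) he) hp.one_sub y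
  rw [sub_sub_cancel] at h2
  rw [sub_mul, one_mul, map_sub, mul_sub] at h1
  rw [sub_mul, one_mul] at h2
  rw [sub_eq_zero.1 h1, ← sub_eq_zero.1 h2]

theorem proj_right (hE : ∀ x, ‖E x‖ ≤ ‖x‖) (hS : ∀ x, E x ∈ T.S) (hid : ∀ x ∈ T.S, E x = x)
    {e : H →L[ℂ] H} (he : e ∈ T.S) (hp : IsStarProjection e) (y : H →L[ℂ] H) :
    E (y * e) = E y * e := by
  have h1 := right_zero hE hS hid he hp y
  have h2 := right_zero hE hS hid (sub_mem (one_mem _) he) hp.one_sub y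
  rw [sub_sub_cancel] at h2
  rw [mul_sub, mul_one, map_sub, sub_mul] at h1
  rw [mul_sub, mul_one] at h2
  rw [sub_eq_zero.1 h1, ← sub_eq_zero.1 h2]

end Tom

open Tom in
theorem tom_proof (hSpan : Stmt_SpanProj.{u}) : Stmt_Tom.{u} := by
  intro H _ _ _ T E hE hS hid
  have h1 : E 1 = 1 := hid 1 (one_mem _)
  refine ⟨?_, fun y => positive hE h1 y⟩
  -- self-adjoint elements
  have hsa : ∀ a ∈ T.S, IsSelfAdjoint a → ∀ y, E (a * y) = a * E y ∧ E (y * a) = E y * a := by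
    intro a ha hsa y
    have hap : ∀ ε > 0, ‖E (a * y) - a * E y‖ ≤ 2 * ε * ‖y‖ ∧
        ‖E (y * a) - E y * a‖ ≤ 2 * ε * ‖y‖ := by
      intro ε hε
      obtain ⟨k, c, q, hq, hn⟩ := hSpan H T a ha hsa ε hε
      set b := ∑ i, (c i : ℂ) • q i with hb
      have hb1 : E (b * y) = b * E y := by
        rw [hb, Finset.sum_mul, Finset.sum_mul, map_sum]
        refine Finset.sum_congr rfl fun i _ => ?_
        rw [smul_mul_assoc, map_smul, proj_left hE hS hid (hq i).1 (hq i).2, smul_mul_assoc]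
      have hb2 : E (y * b) = E y * b := by
        rw [hb, Finset.mul_sum, Finset.mul_sum, map_sum]
        refine Finset.sum_congr rfl fun i _ => ?_
        rw [mul_smul_comm, map_smul, proj_right hE hS hid (hq i).1 (hq i).2, mul_smul_comm]
      have n1 : ‖E y‖ ≤ ‖y‖ := hE y
      constructor
      · have e1 : E (a * y) - a * E y = E ((a - b) * y) - (a - b) * E y := by
          rw [sub_mul, map_sub, hb1, sub_mul]; abel
        rw [e1]
        refine (norm_sub_le _ _).trans ?_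
        have h2 : ‖E ((a - b) * y)‖ ≤ ε * ‖y‖ :=
          (hE _).trans ((norm_mul_le _ _).trans (mul_le_mul_of_nonneg_right hn (norm_nonneg _)))
        have h3 : ‖(a - b) * E y‖ ≤ ε * ‖y‖ :=
          (norm_mul_le _ _).trans (mul_le_mul hn n1 (norm_nonneg _) hε.le)
        linarith
      · have e1 : E (y * a) - E y * a = E (y * (a - b)) - E y * (a - b) := by
          rw [mul_sub, map_sub, hb2, mul_sub]; abel
        rw [e1]
        refine (norm_sub_le _ _).trans ?_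
        have h2 : ‖E (y * (a - b))‖ ≤ ε * ‖y‖ := by
          refine (hE _).trans ((norm_mul_le _ _).trans ?_)
          rw [mul_comm]
          exact mul_le_mul_of_nonneg_right hn (norm_nonneg _)
        have h3 : ‖E y * (a - b)‖ ≤ ε * ‖y‖ := by
          refine (norm_mul_le _ _).trans ?_
          rw [mul_comm]
          exact mul_le_mul hn n1 (norm_nonneg _) hε.le
        linarith
    have hz : ∀ t : ℝ, (∀ ε > 0, t ≤ 2 * ε * ‖y‖) → t ≤ 0 := by
      intro t ht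
      by_contra hpos
      push Not at hpos
      have h2 := ht (t / (4 * (‖y‖ + 1))) (by positivity)
      have h3 : 2 * (t / (4 * (‖y‖ + 1))) * ‖y‖ = t / 2 * (‖y‖ / (‖y‖ + 1)) := by
        field_simp; ring
      have h4 : ‖y‖ / (‖y‖ + 1) ≤ 1 := by
        rw [div_le_one (by positivity)]; linarith
      rw [h3] at h2
      nlinarith
    exact ⟨sub_eq_zero.1 (norm_le_zero_iff.1 (hz _ fun ε hε => (hap ε hε).1)),
      sub_eq_zero.1 (norm_le_zero_iff.1 (hz _ fun ε hε => (hap ε hε).2))⟩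
  intro x hx y
  -- decomposition
  set b : H →L[ℂ] H := (2⁻¹ : ℂ) • (x + star x) with hb
  set c : H →L[ℂ] H := (-(Complex.I / 2) : ℂ) • (x - star x) with hc
  have hxe : x = b + Complex.I • c := by
    rw [hb, hc, smul_smul]
    have : Complex.I * -(Complex.I / 2) = 2⁻¹ := by
      linear_combination (-1 / 2 : ℂ) * Complex.I_mul_I
    rw [this]
    module
  have hbS : b ∈ T.S := SMulMemClass.smul_mem _ (add_mem hx (star_mem hx))
  have hcS : c ∈ T.S := SMulMemClass.smul_mem _ (sub_mem hx (star_mem hx))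
  have hbs : IsSelfAdjoint b := by
    rw [IsSelfAdjoint, hb, star_smul, star_add, star_star, add_comm]
    simp
  have hcs : IsSelfAdjoint c := by
    rw [IsSelfAdjoint, hc, star_smul, star_sub, star_star]
    have : star (-(Complex.I / 2)) = Complex.I / 2 := by
      simp
      ring
    rw [this]
    module
  obtain ⟨b1, b2⟩ := hsa b hbS hbs y
  obtain ⟨c1, c2⟩ := hsa c hcS hcs y
  clear_value b c
  constructor
  · rw [hxe, add_mul, smul_mul_assoc, map_add, map_smul, b1, c1, add_mul, smul_mul_assoc]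
  · rw [hxe, mul_add, mul_smul_comm, map_add, map_smul, b2, c2, mul_add, mul_smul_comm]

end Pool.Agent.OS
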