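import Pool.Agent.OS.Stmts

set_option autoImplicit false

/-!
# Module Tower of MP_7c16f6_an: the tower of commuting projections
-/

open Filter Topology
open scoped InnerProductSpace

set_option linter.unusedSectionVars false

namespace Pool.Agent.OS.Tower

universe u

variable {H : Type u} [NormedAddCommGroup H] [InnerProductSpace ℂ H] [CompleteSpace H]

lemma star_norm (T : TVN H) {x : H →L[ℂ] H} (hx : x ∈ T.S) :
    ‖(star x) T.Ω‖ = ‖x T.Ω‖ := by
  have h0 := T.trace x hx (star x) (star_mem hx)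
  have h1 : ⟪(star x) T.Ω, (star x) T.Ω⟫_ℂ = ⟪x T.Ω, x T.Ω⟫_ℂ := by
    rw [ContinuousLinearMap.star_eq_adjoint] at *
    rw [ContinuousLinearMap.adjoint_inner_left, h0, ContinuousLinearMap.adjoint_inner_right]
  rw [inner_self_eq_norm_sq_to_K, inner_self_eq_norm_sq_to_K] at h1
  have h2 : ‖(star x) T.Ω‖ ^ 2 = ‖x T.Ω‖ ^ 2 := by exact_mod_cast h1
  exact (sq_eq_sq₀ (norm_nonneg _) (norm_nonneg _)).1 h2

lemma norm_mul_left (T : TVN H) (x y : H →L[ℂ] H) :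
    ‖(x * y) T.Ω‖ ≤ ‖x‖ * ‖y T.Ω‖ := x.le_opNorm _

lemma norm_mul_right (T : TVN H) {x y : H →L[ℂ] H} (hx : x ∈ T.S) (hy : y ∈ T.S) :
    ‖(x * y) T.Ω‖ ≤ ‖y‖ * ‖x T.Ω‖ := by
  rw [← star_norm T (mul_mem hx hy), star_mul]
  refine (norm_mul_left T _ _).trans ?_
  rw [norm_star, star_norm T hx]

lemma proj_norm_le {p : H →L[ℂ] H} (hp : IsStarProjection p) : ‖p‖ ≤ 1 := by
  have h1 : star p * p = p := by rw [hp.isSelfAdjoint.star_eq, hp.isIdempotentElem.eq]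
  have h2 : ‖p‖ * ‖p‖ = ‖p‖ := by
    conv_rhs => rw [← h1]
    rw [CStarRing.norm_star_mul_self]
  nlinarith [norm_nonneg p]

/-- pinching -/
def pin {m : ℕ} (a : Fin m → H →L[ℂ] H) (x : H →L[ℂ] H) : H →L[ℂ] H := ∑ j, a j * x * a j

lemma pin_mem {T : TVN H} {m : ℕ} {a : Fin m → H →L[ℂ] H} (ha : ∀ j, a j ∈ T.S)
    {x : H →L[ℂ] H} (hx : x ∈ T.S) : pin a x ∈ T.S :=
  sum_mem fun j _ => mul_mem (mul_mem (ha j) hx) (ha j)

lemma proj_inner {p : H →L[ℂ] H} (hp : IsStarProjection p) (ξ : H) :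
    ⟪ξ, p ξ⟫_ℂ = ((‖p ξ‖ ^ 2 : ℝ) : ℂ) := by
  have h1 : p ξ = p (p ξ) := by
    conv_lhs => rw [← hp.isIdempotentElem.eq]
    rfl
  have h2 : ⟪ξ, p ξ⟫_ℂ = ⟪p ξ, p ξ⟫_ℂ := by
    conv_lhs => rw [h1]
    rw [← ContinuousLinearMap.adjoint_inner_left, ← ContinuousLinearMap.star_eq_adjoint,
      hp.isSelfAdjoint.star_eq]
  rw [h2, inner_self_eq_norm_sq_to_K]
  push_cast
  rfl

lemma pyth {T : TVN H} {m : ℕ} {a : Fin m → H →L[ℂ] H} (ha : T.IsPartOf 1 a) (ξ : H) :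
    ∑ j, ‖a j ξ‖ ^ 2 = ‖ξ‖ ^ 2 := by
  have h1 : ⟪ξ, ξ⟫_ℂ = ∑ j, ((‖a j ξ‖ ^ 2 : ℝ) : ℂ) := by
    conv_lhs => 
      rw [show ⟪ξ, ξ⟫_ℂ = ⟪ξ, (1 : H →L[ℂ] H) ξ⟫_ℂ from rfl, ← ha.sum,
        sum_apply, inner_sum]
    exact Finset.sum_congr rfl fun j _ => proj_inner (ha.proj j) ξ
  rw [inner_self_eq_norm_sq_to_K, ← Complex.ofReal_sum] at h1
  have h2 : ((‖ξ‖ ^ 2 : ℝ) : ℂ) = ((∑ j, ‖a j ξ‖ ^ 2 : ℝ) : ℂ) := by
    rw [← h1]; push_cast; rfl
  exact (Complex.ofReal_injective h2).symm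

lemma mul_pin {T : TVN H} {m : ℕ} {a : Fin m → H →L[ℂ] H} (ha : T.IsPartOf 1 a)
    (x : H →L[ℂ] H) (i : Fin m) : a i * pin a x = a i * x * a i := by
  unfold pin
  rw [Finset.mul_sum, Finset.sum_eq_single i]
  · rw [mul_assoc (a i) x (a i), ← mul_assoc (a i) (a i), (ha.proj i).isIdempotentElem.eq]
  · intro j _ hj
    rw [mul_assoc (a j) x (a j), ← mul_assoc (a i) (a j), ha.orth i j (Ne.symm hj), zero_mul]
  · intro h
    exact absurd (Finset.mem_univ i) h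

lemma pin_mul {T : TVN H} {m : ℕ} {a : Fin m → H →L[ℂ] H} (ha : T.IsPartOf 1 a)
    (x : H →L[ℂ] H) (i : Fin m) : pin a x * a i = a i * x * a i := by
  unfold pin
  rw [Finset.sum_mul, Finset.sum_eq_single i]
  · rw [mul_assoc (a i * x) (a i), (ha.proj i).isIdempotentElem.eq]
  · intro j _ hj
    rw [mul_assoc (a j * x) (a j), ha.orth j i hj, mul_zero]
  · intro h
    exact absurd (Finset.mem_univ i) h

lemma pin_norm {T : TVN H} {m : ℕ} {a : Fin m → H →L[ℂ] H} (ha : T.IsPartOf 1 a)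
    (x : H →L[ℂ] H) : ‖pin a x‖ ≤ ‖x‖ := by
  refine ContinuousLinearMap.opNorm_le_bound _ (norm_nonneg _) fun ξ => ?_
  have h1 : ‖pin a x ξ‖ ^ 2 ≤ (‖x‖ * ‖ξ‖) ^ 2 := by
    rw [← pyth ha, mul_pow, ← pyth ha ξ, Finset.mul_sum]
    refine Finset.sum_le_sum fun j _ => ?_
    rw [← mul_pow]
    refine pow_le_pow_left₀ (norm_nonneg _) ?_ 2
    have h2 : a j (pin a x ξ) = a j (x (a j ξ)) := by
      have := congrArg (fun y : H →L[ℂ] H => y ξ) (mul_pin ha x j)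
      simpa using this
    rw [h2]
    calc ‖a j (x (a j ξ))‖ ≤ ‖a j‖ * ‖x (a j ξ)‖ := (a j).le_opNorm _
      _ ≤ 1 * ‖x (a j ξ)‖ := by
        gcongr
        exact proj_norm_le (ha.proj j)
      _ ≤ ‖x‖ * ‖a j ξ‖ := by rw [one_mul]; exact x.le_opNorm _
  exact (sq_le_sq₀ (norm_nonneg _) (by positivity)).1 h1

lemma exists_pos_le {ι : Type*} [Finite ι] (f : ι → ℝ) (hf : ∀ i, 0 < f i) :
    ∃ ε > 0, ∀ i, ε ≤ f i := by
  rcases isEmpty_or_nonempty ι with h | h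
  · exact ⟨1, one_pos, fun i => (h.false i).elim⟩
  · obtain ⟨i, hi⟩ := Finite.exists_min f
    exact ⟨f i, hf i, hi⟩

lemma near_mono {T : TVN H} {N : Set (H →L[ℂ] H)} {F F' : Finset (H →L[ℂ] H)} {ε ε' : ℝ}
    {p : H →L[ℂ] H} (h : T.Near N F ε p) (hF : F' ⊆ F) (hε : ε ≤ ε') : T.Near N F' ε' p :=
  fun x hx hxN => (h x (hF hx) hxN).trans hε

/-- refinement -/
def Ref {m m' : ℕ} (a : Fin m → H →L[ℂ] H) (a' : Fin m' → H →L[ℂ] H) : Prop :=
  ∀ i, ∃ j, a j * a' i = a' i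

lemma Ref.trans {m m' m'' : ℕ} {a : Fin m → H →L[ℂ] H} {a' : Fin m' → H →L[ℂ] H}
    {a'' : Fin m'' → H →L[ℂ] H} (h : Ref a a') (h' : Ref a' a'') : Ref a a'' := by
  intro i
  obtain ⟨l, hl⟩ := h' i
  obtain ⟨j, hj⟩ := h l
  exact ⟨j, by rw [← hl, ← mul_assoc, hj]⟩

lemma Ref.comm {T : TVN H} {m m' : ℕ} {a : Fin m → H →L[ℂ] H} {a' : Fin m' → H →L[ℂ] H}
    (ha : T.IsPartOf 1 a) (ha' : T.IsPartOf 1 a') (h : Ref a a') (x : H →L[ℂ] H) (j : Fin m) :
    a j * pin a' x = pin a' x * a j := by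
  unfold pin
  rw [Finset.mul_sum, Finset.sum_mul]
  refine Finset.sum_congr rfl fun i _ => ?_
  obtain ⟨l, hl⟩ := h i
  have hl' : a' i * a l = a' i := by
    have := congrArg star hl
    rwa [star_mul, (ha.proj l).isSelfAdjoint.star_eq, (ha'.proj i).isSelfAdjoint.star_eq] at this
  by_cases hjl : j = l
  · subst hjl
    rw [mul_assoc (a' i * x), hl', ← mul_assoc, ← mul_assoc, hl]
  · have h1 : a j * a' i = 0 := by rw [← hl, ← mul_assoc, ha.orth j l hjl, zero_mul]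
    have h2 : a' i * a j = 0 := by
      rw [← hl', mul_assoc, ha.orth l j (Ne.symm hjl), mul_zero]
    rw [mul_assoc (a' i * x), h2, mul_zero, ← mul_assoc, ← mul_assoc, h1, zero_mul, zero_mul]


lemma sum_norm_le {m : ℕ} (f : Fin m → H →L[ℂ] H) (Ω : H) :
    ‖(∑ j, f j) Ω‖ ≤ ∑ j, ‖f j Ω‖ := by
  rw [sum_apply]
  exact norm_sum_le _ _


lemma getE (T : TVN H) (N : Set (H →L[ℂ] H))
    (hInd : ∀ a ∈ T.S, ∀ δ > 0, ∃ (F : Finset (H →L[ℂ] H)) (ε : ℝ), 0 < ε ∧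
      ∀ p ∈ T.S, IsStarProjection p → T.Near N F ε p → ‖T.tr (p * a) - T.tr p * T.tr a‖ ≤ δ)
    (t : ℝ)
    (hB : ∀ (F : Finset (H →L[ℂ] H)) (ε : ℝ), 0 < ε →
      ∃ e, e ∈ T.P0 N ∧ IsStarProjection e ∧ T.Near N F ε e ∧ |‖e T.Ω‖ ^ 2 - t| ≤ ε)
    (r : ℕ) (x : Fin r → H →L[ℂ] H) (hx : ∀ i, x i ∈ N)
    (m : ℕ) (a : Fin m → H →L[ℂ] H) (ha : ∀ j, a j ∈ T.P0 N) (κ : ℝ) (hκ : 0 < κ) :
    ∃ e ∈ T.P0 N, IsStarProjection e ∧ (∀ j, ‖(e * a j - a j * e) T.Ω‖ ≤ κ) ∧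
      (∀ i, ‖(x i * e - e * x i) T.Ω‖ ≤ κ) ∧
      (∀ j, ‖T.tr (e * a j) - T.tr e * T.tr (a j)‖ ≤ κ) ∧ |‖e T.Ω‖ ^ 2 - t| ≤ κ := by
  classical
  have h1 : ∀ j, ∃ (F : Finset (H →L[ℂ] H)) (ε : ℝ), 0 < ε ∧
      ∀ w ∈ T.UN N F ε, ‖(w * a j - a j * w) T.Ω‖ ≤ κ := fun j => (ha j).2 κ hκ
  have h2 : ∀ j, ∃ (F : Finset (H →L[ℂ] H)) (ε : ℝ), 0 < ε ∧
      ∀ p ∈ T.S, IsStarProjection p → T.Near N F ε p →
        ‖T.tr (p * a j) - T.tr p * T.tr (a j)‖ ≤ κ := fun j => hInd (a j) (ha j).1 κ hκ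
  choose F1 e1 he1 hF1 using h1
  choose F2 e2 he2 hF2 using h2
  obtain ⟨c1, hc1, hc1'⟩ := exists_pos_le e1 he1
  obtain ⟨c2, hc2, hc2'⟩ := exists_pos_le e2 he2
  obtain ⟨e, heP, hep, heN, het⟩ := hB
    (Finset.univ.biUnion F1 ∪ Finset.univ.biUnion F2 ∪ Finset.univ.image x)
    (min κ (min (c1 / 2) c2)) (by positivity)
  have heS : e ∈ T.S := heP.1
  refine ⟨e, heP, hep, fun j => ?_, fun i => ?_, fun j => ?_, het.trans (min_le_left _ _)⟩
  · have hw : (2 : ℂ) • e - 1 ∈ T.UN N (F1 j) (e1 j) := by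
      refine ⟨sub_mem (SMulMemClass.smul_mem _ heS) (one_mem _), ?_, ?_⟩
      · have hs : star ((2 : ℂ) • e - 1) = (2 : ℂ) • e - 1 := by
          rw [star_sub, star_smul, star_one, hep.isSelfAdjoint.star_eq]
          simp
        have hm : ((2 : ℂ) • e - 1) * ((2 : ℂ) • e - 1) = 1 := by
          have hee : e * e = e := hep.isIdempotentElem.eq
          simp only [mul_sub, sub_mul, smul_mul_assoc, mul_smul_comm, hee, mul_one, one_mul]
          module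
        rw [Unitary.mem_iff, hs]
        exact ⟨hm, hm⟩
      · intro y hy hyN
        have h3 : ‖(y * e - e * y) T.Ω‖ ≤ min κ (min (c1 / 2) c2) := by
          refine heN y ?_ hyN
          exact Finset.mem_union_left _ (Finset.mem_union_left _
            (Finset.mem_biUnion.2 ⟨j, Finset.mem_univ _, hy⟩))
        have h4 : y * ((2 : ℂ) • e - 1) - ((2 : ℂ) • e - 1) * y = (2 : ℂ) • (y * e - e * y) := by
          simp only [mul_sub, sub_mul, smul_mul_assoc, mul_smul_comm, mul_one, one_mul, smul_sub]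
          abel
        rw [h4]
        change ‖(2 : ℂ) • ((y * e - e * y) T.Ω)‖ ≤ _
        rw [norm_smul]
        have h5 : ‖(2 : ℂ)‖ = 2 := by simp
        rw [h5]
        have h6 := h3.trans ((min_le_right _ _).trans (min_le_left _ _))
        have h7 := hc1' j
        linarith
    have h3 := hF1 j _ hw
    have h4 : ((2 : ℂ) • e - 1) * a j - a j * ((2 : ℂ) • e - 1) = (2 : ℂ) • (e * a j - a j * e) := by
      simp only [mul_sub, sub_mul, smul_mul_assoc, mul_smul_comm, mul_one, one_mul, smul_sub]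
      abel
    rw [h4] at h3
    change ‖(2 : ℂ) • ((e * a j - a j * e) T.Ω)‖ ≤ _ at h3
    rw [norm_smul, show ‖(2 : ℂ)‖ = 2 by simp] at h3
    linarith [norm_nonneg ((e * a j - a j * e) T.Ω)]
  · refine (heN (x i) ?_ (hx i)).trans (min_le_left _ _)
    exact Finset.mem_union_right _ (Finset.mem_image_of_mem _ (Finset.mem_univ _))
  · refine hF2 j e heS hep (near_mono heN ?_ ?_)
    · intro y hy
      exact Finset.mem_union_left _ (Finset.mem_union_right _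
            (Finset.mem_biUnion.2 ⟨j, Finset.mem_univ _, hy⟩))
    · exact (min_le_right _ _).trans ((min_le_right _ _).trans (hc2' j))

lemma getE' (hNP : Stmt_NearProj.{u}) (T : TVN H) (N : Set (H →L[ℂ] H))
    (T₀ : TVN H) (h0Ω : T₀.Ω = T.Ω) (h0 : ∀ a, a ∈ T₀.S ↔ a ∈ T.P0 N)
    (m : ℕ) (a : Fin m → H →L[ℂ] H) (ha : T₀.IsPartOf 1 a) (κ : ℝ)
    (e : H →L[ℂ] H) (he : e ∈ T₀.S) (hep : IsStarProjection e)
    (hea : ∀ j, ‖(e * a j - a j * e) T.Ω‖ ≤ κ) :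
    ∃ e' ∈ T₀.S, IsStarProjection e' ∧ (∀ j, a j * e' = e' * a j) ∧
      ‖(e' - e) T.Ω‖ ≤ 7 * m * κ := by
  have hf : pin a e ∈ T₀.S := pin_mem ha.mem he
  have hfs : IsSelfAdjoint (pin a e) := by
    unfold pin
    rw [isSelfAdjoint_iff, star_sum]
    refine Finset.sum_congr rfl fun j _ => ?_
    rw [star_mul, star_mul, (ha.proj j).isSelfAdjoint.star_eq, hep.isSelfAdjoint.star_eq, mul_assoc]
  obtain ⟨e', he', hp', hd, hc, -⟩ := hNP H T₀ (pin a e) hf hfs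
  refine ⟨e', he', hp', fun j => hc _ (ha.mem j) (by rw [mul_pin ha, pin_mul ha]), ?_⟩
  rw [h0Ω] at hd
  have hfe : ‖(pin a e - e) T.Ω‖ ≤ m * κ := by
    have h1 : pin a e - e = ∑ j, a j * (e * a j - a j * e) := by
      have h2 : ∑ j, a j * e = e := by rw [← Finset.sum_mul, ha.sum, one_mul]
      have h3 : ∑ j, a j * (e * a j - a j * e) = ∑ j, (a j * e * a j - a j * e) := by
        refine Finset.sum_congr rfl fun j _ => ?_
        rw [mul_sub, ← mul_assoc, ← mul_assoc, (ha.proj j).isIdempotentElem.eq]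
      rw [h3, Finset.sum_sub_distrib, h2]
      rfl
    rw [h1]
    refine (sum_norm_le _ _).trans ?_
    calc ∑ j, ‖(a j * (e * a j - a j * e)) T.Ω‖ ≤ ∑ j : Fin m, κ := by
          refine Finset.sum_le_sum fun j _ => ?_
          refine (norm_mul_left T _ _).trans ?_
          calc ‖a j‖ * ‖(e * a j - a j * e) T.Ω‖ ≤ 1 * κ := by
                gcongr
                · exact proj_norm_le (ha.proj j)
                · exact hea j
            _ = κ := one_mul _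
      _ = m * κ := by simp
  have hff : ‖(pin a e * pin a e - pin a e) T.Ω‖ ≤ 3 * (m * κ) := by
    have h1 : pin a e * pin a e - pin a e =
        pin a e * (pin a e - e) + ((pin a e - e) * e + (e - pin a e)) := by
      have hee : e * e = e := hep.isIdempotentElem.eq
      rw [mul_sub, sub_mul, hee]
      abel
    rw [h1]
    have hn : ‖pin a e‖ ≤ 1 := (pin_norm ha e).trans (proj_norm_le hep)
    have h2 : ‖(pin a e * (pin a e - e)) T.Ω‖ ≤ 1 * (m * κ) :=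
      (norm_mul_left T _ _).trans (mul_le_mul hn hfe (norm_nonneg _) zero_le_one)
    have h3 : ‖((pin a e - e) * e) T.Ω‖ ≤ 1 * (m * κ) :=
      (norm_mul_right T ((h0 _).1 (sub_mem hf he)).1 ((h0 _).1 he).1).trans
        (mul_le_mul (proj_norm_le hep) hfe (norm_nonneg _) zero_le_one)
    have h4 : ‖(e - pin a e) T.Ω‖ ≤ m * κ := by
      rw [← neg_sub, neg_apply, norm_neg]
      exact hfe
    calc ‖(pin a e * (pin a e - e) + ((pin a e - e) * e + (e - pin a e))) T.Ω‖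
        ≤ ‖(pin a e * (pin a e - e)) T.Ω‖ + (‖((pin a e - e) * e) T.Ω‖ + ‖(e - pin a e) T.Ω‖) :=
          (norm_add_le _ _).trans (add_le_add le_rfl (norm_add_le _ _))
      _ ≤ 3 * (m * κ) := by linarith
  calc ‖(e' - e) T.Ω‖ = ‖(e' - pin a e) T.Ω + (pin a e - e) T.Ω‖ := by
        congr 1
        simp
    _ ≤ ‖(e' - pin a e) T.Ω‖ + ‖(pin a e - e) T.Ω‖ := norm_add_le _ _
    _ ≤ 7 * m * κ := by linarith

/-- the refined partition -/
noncomputable def refi {m : ℕ} (a : Fin m → H →L[ℂ] H) (e : H →L[ℂ] H) :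
    Fin (m * 2) → H →L[ℂ] H :=
  fun i => a (finProdFinEquiv.symm i).1 * (if (finProdFinEquiv.symm i).2 = 0 then e else 1 - e)

lemma sum_refi {m : ℕ} (g : (H →L[ℂ] H) → (H →L[ℂ] H)) (a : Fin m → H →L[ℂ] H)
    (e : H →L[ℂ] H) :
    ∑ i, g (refi a e i) = ∑ j, (g (a j * e) + g (a j * (1 - e))) := by
  rw [← finProdFinEquiv.sum_comp, Fintype.sum_prod_type]
  refine Finset.sum_congr rfl fun j _ => ?_
  rw [Fin.sum_univ_two]
  simp [refi]

lemma refi_part {T : TVN H} {m : ℕ} {a : Fin m → H →L[ℂ] H} (ha : T.IsPartOf 1 a)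
    {e : H →L[ℂ] H} (he : e ∈ T.S) (hep : IsStarProjection e) (hc : ∀ j, a j * e = e * a j) :
    T.IsPartOf 1 (refi a e) where
  mem := by
    intro i
    unfold refi
    refine mul_mem (ha.mem _) ?_
    split_ifs
    · exact he
    · exact sub_mem (one_mem _) he
  proj := by
    intro i
    unfold refi
    split_ifs
    · exact (ha.proj _).mul hep (hc _)
    · refine (ha.proj _).mul hep.one_sub ?_
      show a _ * (1 - e) = (1 - e) * a _
      rw [mul_sub, sub_mul, hc, mul_one, one_mul]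
  orth := by
    intro i j hij
    have hs : ∀ (b : Fin 2) (l : Fin m), a l * (if b = 0 then e else 1 - e) =
        (if b = 0 then e else 1 - e) * a l := by
      intro b l
      split_ifs
      · exact hc l
      · rw [mul_sub, sub_mul, hc, mul_one, one_mul]
    have hprod : refi a e i * refi a e j =
        (a (finProdFinEquiv.symm i).1 * a (finProdFinEquiv.symm j).1) *
        ((if (finProdFinEquiv.symm i).2 = 0 then e else 1 - e) *
        (if (finProdFinEquiv.symm j).2 = 0 then e else 1 - e)) := by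
      unfold refi
      rw [mul_assoc, ← mul_assoc _ (a (finProdFinEquiv.symm j).1), ← hs]
      simp only [mul_assoc]
    rw [hprod]
    by_cases h1 : (finProdFinEquiv.symm i).1 = (finProdFinEquiv.symm j).1
    · have h2 : (finProdFinEquiv.symm i).2 ≠ (finProdFinEquiv.symm j).2 := by
        intro h2
        exact hij (finProdFinEquiv.symm.injective (Prod.ext h1 h2))
      have hee : e * e = e := hep.isIdempotentElem.eq
      have h3 : ∀ b c : Fin 2, b ≠ c →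
          (if b = 0 then e else 1 - e) * (if c = 0 then e else 1 - e) = 0 := by
        intro b c hbc
        fin_cases b <;> fin_cases c <;> simp_all [mul_sub, sub_mul]
      rw [h3 _ _ h2, mul_zero]
    · rw [ha.orth _ _ h1, zero_mul]
  sum := by
    have := sum_refi id a e
    simp only [id] at this
    have h2 : ∑ j, (a j * e + a j * (1 - e)) = ∑ j, a j := by
      refine Finset.sum_congr rfl fun j _ => ?_
      rw [← mul_add, add_sub_cancel, mul_one]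
    rw [this, h2, ha.sum]


lemma refi_ref {T : TVN H} {m : ℕ} {a : Fin m → H →L[ℂ] H} (ha : T.IsPartOf 1 a)
    (e : H →L[ℂ] H) : Ref a (refi a e) := by
  intro i
  refine ⟨(finProdFinEquiv.symm i).1, ?_⟩
  unfold refi
  rw [← mul_assoc, (ha.proj _).isIdempotentElem.eq]

lemma pin_refi {T : TVN H} {m : ℕ} {a : Fin m → H →L[ℂ] H} (ha : T.IsPartOf 1 a)
    {e : H →L[ℂ] H} (he : e ∈ T.S) (hep : IsStarProjection e) (hc : ∀ j, a j * e = e * a j)
    {x : H →L[ℂ] H} (hx : x ∈ T.S) :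
    ‖(pin (refi a e) x - pin a x) T.Ω‖ ≤ 2 * m * ‖(x * e - e * x) T.Ω‖ := by
  have hee : e * e = e := hep.isIdempotentElem.eq
  have h1 : pin (refi a e) x - pin a x =
      ∑ j, a j * (e * (x * e - e * x) - (x * e - e * x) * e) * a j := by
    have h2 := sum_refi (fun y => y * x * y) a e
    unfold pin
    rw [h2, ← Finset.sum_sub_distrib]
    refine Finset.sum_congr rfl fun j _ => ?_
    have h3 : a j * e * x * (a j * e) = a j * (e * x * e) * a j := by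
      have : a j * e * x * (a j * e) = a j * e * x * (e * a j) := by rw [← hc j]
      rw [this]
      simp only [mul_assoc]
    have hc' : a j * (1 - e) = (1 - e) * a j := by
      rw [mul_sub, sub_mul, hc, mul_one, one_mul]
    have h4 : a j * (1 - e) * x * (a j * (1 - e)) = a j * ((1 - e) * x * (1 - e)) * a j := by
      have : a j * (1 - e) * x * (a j * (1 - e)) = a j * (1 - e) * x * ((1 - e) * a j) := by
        rw [← hc']
      rw [this]
      simp only [mul_assoc]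
    have h5 : e * x * e + (1 - e) * x * (1 - e) - x =
        e * (x * e - e * x) - (x * e - e * x) * e := by
      have h6 : e * (e * x) = e * x := by rw [← mul_assoc, hee]
      simp only [mul_sub, sub_mul, mul_assoc, hee, h6, mul_one, one_mul]
      abel
    rw [h3, h4, ← h5]
    noncomm_ring
  rw [h1]
  refine (sum_norm_le _ _).trans ?_
  have hcS : x * e - e * x ∈ T.S := sub_mem (mul_mem hx he) (mul_mem he hx)
  have hD : e * (x * e - e * x) - (x * e - e * x) * e ∈ T.S :=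
    sub_mem (mul_mem he hcS) (mul_mem hcS he)
  have hDn : ‖(e * (x * e - e * x) - (x * e - e * x) * e) T.Ω‖ ≤
      2 * ‖(x * e - e * x) T.Ω‖ := by
    have h2 : ‖(e * (x * e - e * x)) T.Ω‖ ≤ 1 * ‖(x * e - e * x) T.Ω‖ :=
      (norm_mul_left T _ _).trans (mul_le_mul_of_nonneg_right (proj_norm_le hep) (norm_nonneg _))
    have h3 : ‖((x * e - e * x) * e) T.Ω‖ ≤ 1 * ‖(x * e - e * x) T.Ω‖ :=
      (norm_mul_right T hcS he).trans
        (mul_le_mul_of_nonneg_right (proj_norm_le hep) (norm_nonneg _))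
    calc _ ≤ ‖(e * (x * e - e * x)) T.Ω‖ + ‖((x * e - e * x) * e) T.Ω‖ := norm_sub_le _ _
      _ ≤ _ := by linarith
  calc ∑ j, ‖(a j * (e * (x * e - e * x) - (x * e - e * x) * e) * a j) T.Ω‖
      ≤ ∑ j : Fin m, 2 * ‖(x * e - e * x) T.Ω‖ := by
        refine Finset.sum_le_sum fun j _ => ?_
        refine (norm_mul_right T (mul_mem (ha.mem j) hD) (ha.mem j)).trans ?_
        refine (mul_le_mul_of_nonneg_right (proj_norm_le (ha.proj j)) (norm_nonneg _)).trans ?_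
        rw [one_mul]
        refine (norm_mul_left T _ _).trans ?_
        refine (mul_le_mul_of_nonneg_right (proj_norm_le (ha.proj j)) (norm_nonneg _)).trans ?_
        rw [one_mul]
        exact hDn
    _ = 2 * m * ‖(x * e - e * x) T.Ω‖ := by simp; ring

lemma tr_proj (T : TVN H) {p : H →L[ℂ] H} (hp : IsStarProjection p) :
    T.tr p = ((‖p T.Ω‖ ^ 2 : ℝ) : ℂ) := proj_inner hp T.Ω

lemma proj_sq_le (T : TVN H) {p : H →L[ℂ] H} (hp : IsStarProjection p) :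
    ‖p T.Ω‖ ^ 2 ≤ 1 := by
  have h1 : ‖p T.Ω‖ ≤ 1 := by
    refine (p.le_opNorm _).trans ?_
    rw [T.norm_Ω, mul_one]
    exact proj_norm_le hp
  nlinarith [norm_nonneg (p T.Ω)]

lemma trace_bd (T : TVN H) {a e e' : H →L[ℂ] H} (haS : a ∈ T.S) (ha : IsStarProjection a)
    (heS : e ∈ T.S) (he : IsStarProjection e) (he' : IsStarProjection e')
    (hc : a * e' = e' * a) (t κ σ : ℝ) 
    (h1 : ‖T.tr (e * a) - T.tr e * T.tr a‖ ≤ κ) (h2 : |‖e T.Ω‖ ^ 2 - t| ≤ κ)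
    (h3 : ‖(e' - e) T.Ω‖ ≤ σ) :
    |‖(a * e') T.Ω‖ ^ 2 - t * ‖a T.Ω‖ ^ 2| ≤ σ + 2 * κ ∧
      ‖(a * (1 - e')) T.Ω‖ ^ 2 = ‖a T.Ω‖ ^ 2 - ‖(a * e') T.Ω‖ ^ 2 := by
  have hp1 : IsStarProjection (a * e') := ha.mul he' hc
  have hp2 : IsStarProjection (a * (1 - e')) := by
    refine ha.mul he'.one_sub ?_
    show a * (1 - e') = (1 - e') * a
    rw [mul_sub, sub_mul, hc, mul_one, one_mul]
  constructor
  · have h4 : ‖T.tr (a * e') - T.tr (e * a)‖ ≤ σ := by
      have h5 : T.tr (e * a) = T.tr (a * e) := T.trace e heS a haS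
      rw [h5]
      have h6 : T.tr (a * e') - T.tr (a * e) = ⟪T.Ω, (a * (e' - e)) T.Ω⟫_ℂ := by
        unfold TVN.tr
        rw [mul_sub, sub_apply, inner_sub_right]
      rw [h6]
      refine (norm_inner_le_norm _ _).trans ?_
      rw [T.norm_Ω, one_mul]
      refine (norm_mul_left T _ _).trans ?_
      refine (mul_le_mul_of_nonneg_right (proj_norm_le ha) (norm_nonneg _)).trans ?_
      rw [one_mul]
      exact h3
    have h5 : ‖T.tr (a * e') - T.tr e * T.tr a‖ ≤ σ + κ := by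
      calc _ = ‖(T.tr (a * e') - T.tr (e * a)) + (T.tr (e * a) - T.tr e * T.tr a)‖ := by
            congr 1; ring
        _ ≤ _ := (norm_add_le _ _).trans (add_le_add h4 h1)
    rw [tr_proj T hp1, tr_proj T he, tr_proj T ha, ← Complex.ofReal_mul, ← Complex.ofReal_sub,
      Complex.norm_real, Real.norm_eq_abs] at h5
    have h6 := proj_sq_le T ha
    have h7 : 0 ≤ ‖a T.Ω‖ ^ 2 := by positivity
    rw [abs_le] at h5 h2 ⊢
    constructor <;> nlinarith
  · have h4 : T.tr (a * (1 - e')) = T.tr a - T.tr (a * e') := by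
      unfold TVN.tr
      rw [mul_sub, mul_one, sub_apply, inner_sub_right]
    rw [tr_proj T hp1, tr_proj T hp2, tr_proj T ha, ← Complex.ofReal_sub] at h4
    exact Complex.ofReal_injective h4

lemma step (hNP : Stmt_NearProj.{u}) (T : TVN H) (N : Set (H →L[ℂ] H)) (hN : T.IsSub N)
    (T₀ : TVN H) (h0Ω : T₀.Ω = T.Ω) (h0 : ∀ a, a ∈ T₀.S ↔ a ∈ T.P0 N)
    (hInd : ∀ a ∈ T.S, ∀ δ > 0, ∃ (F : Finset (H →L[ℂ] H)) (ε : ℝ), 0 < ε ∧
      ∀ p ∈ T.S, IsStarProjection p → T.Near N F ε p → ‖T.tr (p * a) - T.tr p * T.tr a‖ ≤ δ)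
    (t : ℝ) (ht0 : 0 < t) (ht1 : t < 1)
    (hB : ∀ (F : Finset (H →L[ℂ] H)) (ε : ℝ), 0 < ε →
      ∃ e, e ∈ T.P0 N ∧ IsStarProjection e ∧ T.Near N F ε e ∧ |‖e T.Ω‖ ^ 2 - t| ≤ ε)
    (r : ℕ) (x : Fin r → H →L[ℂ] H) (hx : ∀ i, x i ∈ N)
    (m : ℕ) (a : Fin m → H →L[ℂ] H) (ha : T₀.IsPartOf 1 a) (M : ℝ) (hM : 0 < M)
    (haM : ∀ j, ‖a j T.Ω‖ ^ 2 ≤ M) (δ : ℝ) (hδ : 0 < δ) :
    ∃ (m' : ℕ) (a' : Fin m' → H →L[ℂ] H), T₀.IsPartOf 1 a' ∧ Ref a a' ∧
      (∀ j, ‖a' j T.Ω‖ ^ 2 ≤ (1 + max t (1 - t)) / 2 * M) ∧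
      ∀ i, ‖(pin a' (x i) - pin a (x i)) T.Ω‖ ≤ δ := by
  have haP : ∀ j, a j ∈ T.P0 N := fun j => (h0 _).1 (ha.mem j)
  have haS : T.IsPartOf 1 a := ⟨fun j => (haP j).1, ha.proj, ha.orth, ha.sum⟩
  obtain ⟨C, hC⟩ : ∃ C : ℝ, ∀ i, ‖x i‖ ≤ C := by
    obtain ⟨C, hC⟩ := (Set.finite_range fun i => ‖x i‖).bddAbove
    exact ⟨C, fun i => hC ⟨i, rfl⟩⟩
  have hg : 0 < (1 - max t (1 - t)) / 2 * M := by
    have : max t (1 - t) < 1 := max_lt ht1 (by linarith)
    have : 0 < (1 - max t (1 - t)) / 2 := by linarith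
    positivity
  obtain ⟨κ, hκ, hκ1, hκ2⟩ : ∃ κ : ℝ, 0 < κ ∧ (7 * m + 2) * κ ≤ (1 - max t (1 - t)) / 2 * M ∧
      2 * m * (1 + 2 * |C| * (7 * m)) * κ ≤ δ := by
    refine ⟨min ((1 - max t (1 - t)) / 2 * M / (7 * m + 2))
      (δ / (2 * m * (1 + 2 * |C| * (7 * m)) + 1)), by positivity, ?_, ?_⟩
    · calc (7 * (m : ℝ) + 2) * _ ≤ (7 * m + 2) * ((1 - max t (1 - t)) / 2 * M / (7 * m + 2)) := by
            gcongr
            exact min_le_left _ _
        _ = _ := by field_simp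
    · calc 2 * (m : ℝ) * (1 + 2 * |C| * (7 * m)) * _
          ≤ (2 * m * (1 + 2 * |C| * (7 * m)) + 1) * (δ / (2 * m * (1 + 2 * |C| * (7 * m)) + 1)) := by
            gcongr
            · linarith
            · exact min_le_right _ _
        _ = δ := by field_simp
  obtain ⟨e, heP, hep, hea, hex, hei, het⟩ := getE T N hInd t hB r x hx m a haP κ hκ
  obtain ⟨e', heS', hep', hc', hd'⟩ := getE' hNP T N T₀ h0Ω h0 m a ha κ e ((h0 _).2 heP) hep hea
  have heS : e' ∈ T.S := ((h0 _).1 heS').1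
  refine ⟨m * 2, refi a e', refi_part ha heS' hep' hc', refi_ref ha e', ?_, fun i => ?_⟩
  · have h1 : ∀ j, ‖(a j * e') T.Ω‖ ^ 2 ≤ (1 + max t (1 - t)) / 2 * M ∧
        ‖(a j * (1 - e')) T.Ω‖ ^ 2 ≤ (1 + max t (1 - t)) / 2 * M := by
      intro j
      obtain ⟨h2, h3⟩ := trace_bd T (haS.mem j) (haS.proj j) heP.1 hep hep' (hc' j) t κ (7 * m * κ)
        (hei j) het hd'
      rw [abs_le] at h2
      have h4 := haM j
      have h5 : t ≤ max t (1 - t) := le_max_left _ _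
      have h6 : 1 - t ≤ max t (1 - t) := le_max_right _ _
      have h7 : 0 ≤ ‖(a j) T.Ω‖ ^ 2 := by positivity
      have h8 : t * ‖(a j) T.Ω‖ ^ 2 ≤ max t (1 - t) * M := by gcongr
      have h9 : (1 - t) * ‖(a j) T.Ω‖ ^ 2 ≤ max t (1 - t) * M := by
        have : 0 ≤ 1 - t := by linarith
        gcongr
      constructor
      · nlinarith
      · nlinarith
    intro i
    unfold refi
    split_ifs
    · exact (h1 _).1
    · exact (h1 _).2
  · refine (pin_refi haS heS hep' hc' (hN.sub _ (hx i))).trans ?_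
    have hxS := hN.sub _ (hx i)
    have h1 : ‖(x i * e' - e' * x i) T.Ω‖ ≤ κ + 2 * |C| * (7 * m * κ) := by
      have h2 : x i * e' - e' * x i = (x i * e - e * x i) + (x i * (e' - e) - (e' - e) * x i) := by
        noncomm_ring
      rw [h2]
      have h3 : ‖(x i * (e' - e)) T.Ω‖ ≤ |C| * (7 * m * κ) := by
        refine (norm_mul_left T _ _).trans ?_
        exact mul_le_mul ((hC i).trans (le_abs_self _)) hd' (norm_nonneg _) (abs_nonneg _)
      have h4 : ‖((e' - e) * x i) T.Ω‖ ≤ |C| * (7 * m * κ) := by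
        refine (norm_mul_right T (sub_mem heS heP.1) hxS).trans ?_
        exact mul_le_mul ((hC i).trans (le_abs_self _)) hd' (norm_nonneg _) (abs_nonneg _)
      calc _ ≤ ‖(x i * e - e * x i) T.Ω‖ +
            (‖(x i * (e' - e)) T.Ω‖ + ‖((e' - e) * x i) T.Ω‖) :=
            (norm_add_le _ _).trans (add_le_add le_rfl (norm_sub_le _ _))
        _ ≤ _ := by linarith [hex i]
    calc 2 * (m : ℝ) * ‖(x i * e' - e' * x i) T.Ω‖ ≤ 2 * m * (κ + 2 * |C| * (7 * m * κ)) := by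
          gcongr
      _ = 2 * m * (1 + 2 * |C| * (7 * m)) * κ := by ring
      _ ≤ δ := hκ2

lemma complete_bdd (T : TVN H) (X : ℕ → H →L[ℂ] H) (hX : ∀ n, X n ∈ T.S) (C : ℝ)
    (hC : ∀ n, ‖X n‖ ≤ C) (hc : CauchySeq fun n => X n T.Ω) :
    ∃ y ∈ T.S, Tendsto (fun n => X n T.Ω) atTop (𝓝 (y T.Ω)) := by
  have hC0 : 0 < |C| + 1 := by positivity
  have hC1 : ‖(((|C| + 1)⁻¹ : ℝ) : ℂ)‖ = (|C| + 1)⁻¹ := by
    rw [Complex.norm_real, Real.norm_eq_abs, abs_of_pos (by positivity)]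
  obtain ⟨y, hy, -, hlim⟩ := T.complete (fun n => (((|C| + 1)⁻¹ : ℝ) : ℂ) • X n)
    (fun n => SMulMemClass.smul_mem _ (hX n)) (fun n => by
      rw [norm_smul, hC1, inv_mul_le_iff₀ hC0, mul_one]
      exact (hC n).trans ((le_abs_self C).trans (by linarith)))
    (by
      have := (uniformContinuous_const_smul (((|C| + 1)⁻¹ : ℝ) : ℂ)).comp_cauchySeq hc
      exact this)
  refine ⟨((|C| + 1 : ℝ) : ℂ) • y, SMulMemClass.smul_mem _ hy, ?_⟩
  have h1 := hlim.const_smul ((|C| + 1 : ℝ) : ℂ)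
  refine (h1.congr fun n => ?_)
  change ((|C| + 1 : ℝ) : ℂ) • ((((|C| + 1)⁻¹ : ℝ) : ℂ) • X n T.Ω) = _
  rw [smul_smul, ← Complex.ofReal_mul, mul_inv_cancel₀ hC0.ne', Complex.ofReal_one, one_smul]

/-- the tower theorem -/
theorem main (hP0 : Stmt_P0.{u}) (hNP : Stmt_NearProj.{u}) (hInd : Stmt_Indep.{u}) :
    Stmt_Tower.{u} := by
  intro H _ _ _ T N hN hTC hBE
  obtain ⟨t, ht0, ht1, hB⟩ := hBE
  obtain ⟨T₀, h0Ω, h0⟩ := hP0 H T N hN
  intro r x hx δ hδ
  have hc1 : (1 + max t (1 - t)) / 2 < 1 := by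
    have : max t (1 - t) < 1 := max_lt ht1 (by linarith)
    linarith
  have hc0 : 0 < (1 + max t (1 - t)) / 2 := by
    have : 0 < max t (1 - t) := lt_max_of_lt_left ht0
    linarith
  generalize hcdef : (1 + max t (1 - t)) / 2 = c at hc0 hc1
  let St := Σ m : ℕ, (Fin m → H →L[ℂ] H)
  let Inv : ℕ → St → Prop := fun k s => T₀.IsPartOf 1 s.2 ∧ ∀ j, ‖s.2 j T.Ω‖ ^ 2 ≤ c ^ k
  let R : ℕ → St → St → Prop := fun k s s' => Ref s.2 s'.2 ∧
    ∀ i, ‖(pin s'.2 (x i) - pin s.2 (x i)) T.Ω‖ ≤ δ / 2 / 2 ^ k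
  have hstep : ∀ k s, ∃ s', Inv k s → Inv (k + 1) s' ∧ R k s s' := by
    intro k s
    by_cases hs : Inv k s
    · obtain ⟨m', a', h1, h2, h3, h4⟩ := step hNP T N hN T₀ h0Ω h0 (hInd H T N hN hTC) t ht0 ht1 hB
        r x hx s.1 s.2 hs.1 (c ^ k) (by positivity) hs.2 (δ / 2 / 2 ^ k) (by positivity)
      refine ⟨⟨m', a'⟩, fun _ => ⟨⟨h1, fun j => ?_⟩, h2, h4⟩⟩
      have := h3 j
      rw [hcdef, ← pow_succ'] at this
      exact this
    · exact ⟨s, fun h => absurd h hs⟩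
  choose nxt hnxt using hstep
  let seq : ℕ → St := fun n => Nat.rec ⟨1, fun _ => 1⟩ (fun k s => nxt k s) n
  have hseq0 : seq 0 = ⟨1, fun _ => 1⟩ := rfl
  have hseqS : ∀ k, seq (k + 1) = nxt k (seq k) := fun k => rfl
  have hInv : ∀ k, Inv k (seq k) := by
    intro k
    induction k with
    | zero =>
      refine ⟨⟨fun j => one_mem _, fun j => IsStarProjection.one _, fun i j hij => ?_, ?_⟩, fun j => ?_⟩
      · exact absurd (Subsingleton.elim (α := Fin 1) i j) hij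
      · show ∑ j : Fin 1, (1 : H →L[ℂ] H) = 1
        simp
      · show ‖(1 : H →L[ℂ] H) T.Ω‖ ^ 2 ≤ c ^ 0
        simp [T.norm_Ω]
    | succ k ih => exact (hnxt k _ ih).1
  have hR : ∀ k, R k (seq k) (seq (k + 1)) := fun k => (hnxt k _ (hInv k)).2
  have hPart : ∀ k, T.IsPartOf 1 (seq k).2 := fun k =>
    ⟨fun j => ((h0 _).1 ((hInv k).1.mem j)).1, (hInv k).1.proj, (hInv k).1.orth, (hInv k).1.sum⟩
  have hRef : ∀ l d, Ref (seq l).2 (seq (l + d)).2 := by
    intro l d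
    induction d with
    | zero => exact fun i => ⟨i, ((hPart l).proj i).isIdempotentElem.eq⟩
    | succ d ih => exact ih.trans (hR (l + d)).1
  have hx0 : ∀ i, pin (seq 0).2 (x i) = x i := by
    intro i
    show ∑ j : Fin 1, (1 : H →L[ℂ] H) * x i * 1 = x i
    simp
  have hXS : ∀ i k, pin (seq k).2 (x i) ∈ T.S := fun i k => pin_mem (hPart k).mem (hN.sub _ (hx i))
  have hdist : ∀ i k, dist ((pin (seq k).2 (x i)) T.Ω) ((pin (seq (k + 1)).2 (x i)) T.Ω) ≤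
      δ / 2 / 2 ^ k := by
    intro i k
    rw [dist_comm, dist_eq_norm]
    exact (hR k).2 i
  have hlim : ∀ i, ∃ y ∈ T.S, Tendsto (fun k => (pin (seq k).2 (x i)) T.Ω) atTop (𝓝 (y T.Ω)) :=
    fun i => complete_bdd T _ (hXS i) ‖x i‖ (fun k => pin_norm (hPart k) _)
      (cauchySeq_of_le_geometric_two (hdist i))
  choose x' hx'S hx'lim using hlim
  refine ⟨x', hx'S, fun i => one_mul _, fun i => mul_one _, fun i => ?_, fun η hη => ?_⟩
  · rw [mul_one]
    have := dist_le_of_le_geometric_two_of_tendsto₀ (hdist i) (hx'lim i)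
    rw [hx0, dist_comm, dist_eq_norm] at this
    exact this
  · obtain ⟨l, hl⟩ := exists_pow_lt_of_lt_one hη hc1
    refine ⟨(seq l).1, (seq l).2, hPart l, fun j => ((hInv l).2 j).trans hl.le, fun i j => ?_⟩
    set q := (seq l).2 j with hq
    have hqS : q ∈ T.S := (hPart l).mem j
    have h1 : Tendsto (fun k => (q * pin (seq k).2 (x i)) T.Ω) atTop (𝓝 ((q * x' i) T.Ω)) :=
      (q.continuous.tendsto _).comp (hx'lim i)
    have h2 : Tendsto (fun k => (pin (seq k).2 (x i) * q) T.Ω) atTop (𝓝 ((x' i * q) T.Ω)) := by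
      rw [tendsto_iff_norm_sub_tendsto_zero]
      refine squeeze_zero (fun _ => norm_nonneg _) (g := fun k =>
        ‖q‖ * ‖(pin (seq k).2 (x i)) T.Ω - (x' i) T.Ω‖) (fun k => ?_) ?_
      · have := norm_mul_right T (sub_mem (hXS i k) (hx'S i)) hqS
        rw [sub_mul] at this
        exact this
      · have := (tendsto_iff_norm_sub_tendsto_zero.1 (hx'lim i)).const_mul ‖q‖
        rwa [mul_zero] at this
    have h3 : (fun k => (q * pin (seq k).2 (x i)) T.Ω) =ᶠ[atTop]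
        (fun k => (pin (seq k).2 (x i) * q) T.Ω) := by
      filter_upwards [eventually_ge_atTop l] with k hk
      obtain ⟨d, rfl⟩ := Nat.exists_eq_add_of_le hk
      rw [(hRef l d).comm (hPart l) (hPart (l + d))]
    have h4 := tendsto_nhds_unique (h1.congr' h3) h2
    have h5 : x' i * q - q * x' i = 0 := by
      refine T.sep _ (sub_mem (mul_mem (hx'S i) hqS) (mul_mem hqS (hx'S i))) ?_
      rw [sub_apply, h4, sub_self]
    exact sub_eq_zero.1 h5

end Pool.Agent.OS.Tower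

namespace Pool.Agent.OS

universe u

theorem tower_proof (hP0 : Stmt_P0.{u}) (hNP : Stmt_NearProj.{u}) (hInd : Stmt_Indep.{u}) :
    Stmt_Tower.{u} := Tower.main hP0 hNP hInd

end Pool.Agent.OS
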