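import Pool.Agent.OS.Stmts

set_option autoImplicit false

/-!
# Existence of the tracial ultrapower (module Ultra)
-/

open Filter Topology UniformSpace
open scoped InnerProductSpace

namespace Pool.Agent.OS.Ultra

universe u

variable {H : Type u} [NormedAddCommGroup H] [InnerProductSpace ℂ H] [CompleteSpace H]

/-- bounded families of elements of `S` form a star subalgebra of the product -/
def BA (T : TVN H) (Λ : Type u) : StarSubalgebra ℂ (Λ → H →L[ℂ] H) where
  carrier := {a | T.Bd a}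
  mul_mem' := by
    rintro a b ⟨ha, C, hC⟩ ⟨hb, D, hD⟩
    refine ⟨fun l => T.S.mul_mem (ha l) (hb l), C * D, fun l => ?_⟩
    refine (norm_mul_le _ _).trans ?_
    exact mul_le_mul (hC l) (hD l) (norm_nonneg _) ((norm_nonneg _).trans (hC l))
  one_mem' := ⟨fun _ => T.S.one_mem, ‖(1 : H →L[ℂ] H)‖, fun _ => le_rfl⟩
  add_mem' := by
    rintro a b ⟨ha, C, hC⟩ ⟨hb, D, hD⟩
    exact ⟨fun l => T.S.add_mem (ha l) (hb l), C + D,
      fun l => (norm_add_le _ _).trans (add_le_add (hC l) (hD l))⟩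
  zero_mem' := ⟨fun _ => T.S.zero_mem, 0, fun _ => by simp⟩
  algebraMap_mem' := fun r => ⟨fun _ => T.S.algebraMap_mem r,
    ‖algebraMap ℂ (H →L[ℂ] H) r‖, fun _ => le_rfl⟩
  star_mem' := by
    rintro a ⟨ha, C, hC⟩
    exact ⟨fun l => star_mem (ha l), C, fun l => by simpa using hC l⟩

theorem mem_BA {T : TVN H} {Λ : Type u} {a : Λ → H →L[ℂ] H} : a ∈ BA T Λ ↔ T.Bd a := Iff.rfl

/-- the pre-Hilbert space of bounded families -/
def Pre (T : TVN H) (Λ : Type u) (_U : Ultrafilter Λ) : Type u := BA T Λ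

variable (T : TVN H) (Λ : Type u) (U : Ultrafilter Λ)

noncomputable instance : AddCommGroup (Pre T Λ U) := inferInstanceAs (AddCommGroup (BA T Λ))
noncomputable instance : Module ℂ (Pre T Λ U) := inferInstanceAs (Module ℂ (BA T Λ))

/-- the identity map, as a linear equivalence -/
noncomputable def toPre : BA T Λ ≃ₗ[ℂ] Pre T Λ U := LinearEquiv.refl ℂ _

/-- the identity map, as a linear equivalence -/
noncomputable def ofPre : Pre T Λ U ≃ₗ[ℂ] BA T Λ := (toPre T Λ U).symm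

variable {T Λ U}

@[simp] theorem toPre_ofPre (a : Pre T Λ U) : toPre T Λ U (ofPre T Λ U a) = a := rfl
@[simp] theorem ofPre_toPre (a : BA T Λ) : ofPre T Λ U (toPre T Λ U a) = a := rfl

/-- the vectors `a_l Ω` -/
def vec (a : BA T Λ) (l : Λ) : H := (a : Λ → H →L[ℂ] H) l T.Ω

@[simp] theorem vec_add (a b : BA T Λ) (l : Λ) : vec (a + b) l = vec a l + vec b l := rfl
@[simp] theorem vec_smul (c : ℂ) (a : BA T Λ) (l : Λ) : vec (c • a) l = c • vec a l := rfl

theorem vec_bdd (a : BA T Λ) : ∃ C : ℝ, ∀ l, ‖vec a l‖ ≤ C := by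
  obtain ⟨⟨a, ha, C, hC⟩, rfl⟩ : ∃ b : BA T Λ, b = a := ⟨a, rfl⟩
  refine ⟨C, fun l => ?_⟩
  have := (a l).le_opNorm T.Ω
  rw [T.norm_Ω, mul_one] at this
  exact this.trans (hC l)

theorem exists_lim {f : Λ → ℂ} {C : ℝ} (h : ∀ l, ‖f l‖ ≤ C) :
    ∃ x, Tendsto f (U : Filter Λ) (𝓝 x) := by
  obtain ⟨x, -, hx⟩ := (isCompact_closedBall (0 : ℂ) C).ultrafilter_le_nhds (U.map f) (by
    rw [le_principal_iff]
    exact Filter.mem_map.2 (Filter.univ_mem' fun l => by simpa using h l))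
  exact ⟨x, hx⟩

/-- the limit inner product -/
noncomputable def ip (U : Ultrafilter Λ) (a b : BA T Λ) : ℂ :=
  limUnder (U : Filter Λ) (fun l => ⟪vec a l, vec b l⟫_ℂ)

theorem ip_tendsto (a b : BA T Λ) :
    Tendsto (fun l => ⟪vec a l, vec b l⟫_ℂ) (U : Filter Λ) (𝓝 (ip U a b)) := by
  apply tendsto_nhds_limUnder
  obtain ⟨C, hC⟩ := vec_bdd a
  obtain ⟨D, hD⟩ := vec_bdd b
  refine exists_lim (C := C * D) fun l => (norm_inner_le_norm _ _).trans ?_
  exact mul_le_mul (hC l) (hD l) (norm_nonneg _) ((norm_nonneg _).trans (hC l))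

/-- the semi-inner product -/
noncomputable abbrev core (T : TVN H) (Λ : Type u) (U : Ultrafilter Λ) :
    PreInnerProductSpace.Core ℂ (Pre T Λ U) where
  inner a b := ip U (ofPre T Λ U a) (ofPre T Λ U b)
  conj_inner_symm a b := by
    have h1 := (ip_tendsto (U := U) (ofPre T Λ U b) (ofPre T Λ U a))
    have h2 := (Complex.continuous_conj.tendsto _).comp h1
    refine tendsto_nhds_unique h2 ?_
    simpa [Function.comp_def] using ip_tendsto (U := U) (ofPre T Λ U a) (ofPre T Λ U b)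
  re_inner_nonneg a := by
    have h1 := (Complex.continuous_re.tendsto _).comp
      (ip_tendsto (U := U) (ofPre T Λ U a) (ofPre T Λ U a))
    refine ge_of_tendsto h1 (Eventually.of_forall fun l => ?_)
    exact inner_self_nonneg (𝕜 := ℂ)
  add_left a b c := by
    have h1 := (ip_tendsto (U := U) (ofPre T Λ U a) (ofPre T Λ U c)).add
      (ip_tendsto (U := U) (ofPre T Λ U b) (ofPre T Λ U c))
    refine tendsto_nhds_unique (ip_tendsto (U := U) _ _) ?_
    simpa [inner_add_left] using h1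
  smul_left a b r := by
    have h1 := (ip_tendsto (U := U) (ofPre T Λ U a) (ofPre T Λ U b)).const_mul
      ((starRingEnd ℂ) r)
    refine tendsto_nhds_unique (ip_tendsto (U := U) _ _) ?_
    simpa [inner_smul_left, mul_comm] using h1

noncomputable instance : SeminormedAddCommGroup (Pre T Λ U) :=
  InnerProductSpace.Core.toSeminormedAddCommGroup (c := core T Λ U)
noncomputable instance : InnerProductSpace ℂ (Pre T Λ U) :=
  InnerProductSpace.ofCore (core T Λ U)

theorem inner_def (a b : Pre T Λ U) :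
    ⟪a, b⟫_ℂ = ip U (ofPre T Λ U a) (ofPre T Λ U b) := rfl

theorem norm_def (a : Pre T Λ U) :
    ‖a‖ = √(ip U (ofPre T Λ U a) (ofPre T Λ U a)).re := rfl

theorem norm_tendsto (a : BA T Λ) :
    Tendsto (fun l => ‖vec a l‖) (U : Filter Λ) (𝓝 ‖toPre T Λ U a‖) := by
  have h1 := (Real.continuous_sqrt.tendsto _).comp ((Complex.continuous_re.tendsto _).comp
      (ip_tendsto (U := U) a a))
  rw [norm_def, ofPre_toPre]
  refine h1.congr fun l => ?_
  simp only [Function.comp_apply]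
  rw [inner_self_eq_norm_sq_to_K]
  norm_cast
  exact Real.sqrt_sq (norm_nonneg _)


theorem inner_tendsto (a b : BA T Λ) :
    Tendsto (fun l => ⟪vec a l, vec b l⟫_ℂ) (U : Filter Λ)
      (𝓝 ⟪toPre T Λ U a, toPre T Λ U b⟫_ℂ) := ip_tendsto a b

/-- the Hilbert space -/
abbrev LL (T : TVN H) (Λ : Type u) (U : Ultrafilter Λ) : Type u := Completion (Pre T Λ U)

/-- left multiplication on the pre-Hilbert space -/
noncomputable def lmul (U : Ultrafilter Λ) (a : BA T Λ) : Pre T Λ U →ₗ[ℂ] Pre T Λ U :=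
  (toPre T Λ U).toLinearMap ∘ₗ LinearMap.mulLeft ℂ a ∘ₗ (ofPre T Λ U).toLinearMap

theorem lmul_apply (a b : BA T Λ) : lmul U a (toPre T Λ U b) = toPre T Λ U (a * b) := rfl

theorem lmul_bound {a : BA T Λ} {C : ℝ} (hC : ∀ l, ‖(a : Λ → H →L[ℂ] H) l‖ ≤ C)
    (x : Pre T Λ U) : ‖lmul U a x‖ ≤ C * ‖x‖ := by
  obtain ⟨b, rfl⟩ : ∃ b, toPre T Λ U b = x := ⟨ofPre T Λ U x, rfl⟩
  rw [lmul_apply]
  refine le_of_tendsto_of_tendsto (norm_tendsto (a * b)) ((norm_tendsto b).const_mul C)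
    (Eventually.of_forall fun l => ?_)
  have h1 : vec (a * b) l = (a : Λ → H →L[ℂ] H) l (vec b l) := rfl
  simp only [h1]
  exact ((a : Λ → H →L[ℂ] H) l).le_of_opNorm_le (hC l) _

theorem bdd (a : BA T Λ) : ∃ C : ℝ, ∀ l, ‖(a : Λ → H →L[ℂ] H) l‖ ≤ C := a.2.2

/-- continuous left multiplication -/
noncomputable def lmulC (U : Ultrafilter Λ) (a : BA T Λ) : Pre T Λ U →L[ℂ] Pre T Λ U :=
  (lmul U a).mkContinuous (bdd a).choose (lmul_bound (bdd a).choose_spec)

theorem lmulC_apply (a b : BA T Λ) : lmulC U a (toPre T Λ U b) = toPre T Λ U (a * b) := rfl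

/-- the representation -/
noncomputable def rho0 (U : Ultrafilter Λ) (a : BA T Λ) : LL T Λ U →L[ℂ] LL T Λ U :=
  (lmulC U a).completion

theorem rho0_coe (a b : BA T Λ) :
    rho0 U a (toPre T Λ U b : LL T Λ U) = (toPre T Λ U (a * b) : Pre T Λ U) := by
  rw [rho0, ContinuousLinearMap.completion_apply_coe, lmulC_apply]

theorem dense_ext {X Y : LL T Λ U →L[ℂ] LL T Λ U}
    (h : ∀ b : BA T Λ, X (toPre T Λ U b : Pre T Λ U) = Y (toPre T Λ U b : Pre T Λ U)) : X = Y := by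
  ext c
  induction c using Completion.induction_on with
  | hp => apply isClosed_eq <;> fun_prop
  | ih c => exact h c

theorem dense_bound {X : LL T Λ U →L[ℂ] LL T Λ U} {C : ℝ} (hC : 0 ≤ C)
    (h : ∀ b : BA T Λ, ‖X (toPre T Λ U b : Pre T Λ U)‖ ≤ C * ‖(toPre T Λ U b : Pre T Λ U)‖) :
    ‖X‖ ≤ C := by
  refine ContinuousLinearMap.opNorm_le_bound _ hC fun c => ?_
  induction c using Completion.induction_on with
  | hp => apply isClosed_le <;> fun_prop
  | ih c => rw [Completion.norm_coe]; exact h c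

theorem rho0_bound {a : BA T Λ} {C : ℝ} (h0 : 0 ≤ C)
    (hC : ∀ l, ‖(a : Λ → H →L[ℂ] H) l‖ ≤ C) : ‖rho0 U a‖ ≤ C := by
  refine dense_bound h0 fun b => ?_
  rw [rho0_coe, Completion.norm_coe]
  exact lmul_bound hC _

/-- the representation as a star homomorphism -/
noncomputable def rho (U : Ultrafilter Λ) : BA T Λ →⋆ₐ[ℂ] (LL T Λ U →L[ℂ] LL T Λ U) where
  toFun := rho0 U
  map_one' := dense_ext fun b => by rw [rho0_coe, one_mul]; rfl
  map_mul' a b := dense_ext fun c => by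
    rw [rho0_coe, mul_assoc, mul_apply_eq_comp, rho0_coe, rho0_coe]
  map_zero' := dense_ext fun b => by rw [rho0_coe, zero_mul, map_zero]; exact Completion.coe_zero
  map_add' a b := dense_ext fun c => by
    rw [rho0_coe, add_mul, map_add, add_apply, rho0_coe, rho0_coe,
      Completion.coe_add]
  commutes' r := dense_ext fun c => by
    rw [rho0_coe, Algebra.algebraMap_eq_smul_one, Algebra.algebraMap_eq_smul_one, smul_mul_assoc,
      one_mul, map_smul, smul_apply, one_apply_eq_self,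
      Completion.coe_smul]
  map_star' a := by
    refine (ContinuousLinearMap.eq_adjoint_iff _ _).mpr fun x y => ?_
    induction x, y using Completion.induction_on₂ with
    | hp => apply isClosed_eq <;> fun_prop
    | ih x y =>
      obtain ⟨b, rfl⟩ : ∃ b, toPre T Λ U b = x := ⟨ofPre T Λ U x, rfl⟩
      obtain ⟨c, rfl⟩ : ∃ c, toPre T Λ U c = y := ⟨ofPre T Λ U y, rfl⟩
      rw [rho0_coe, rho0_coe, Completion.inner_coe, Completion.inner_coe]
      refine tendsto_nhds_unique (inner_tendsto (star a * b) c) ?_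
      refine (inner_tendsto b (a * c)).congr fun l => ?_
      have h1 : vec (star a * b) l = ContinuousLinearMap.adjoint ((a : Λ → H →L[ℂ] H) l)
        (vec b l) := rfl
      have h2 : vec (a * c) l = (a : Λ → H →L[ℂ] H) l (vec c l) := rfl
      rw [h1, h2, ContinuousLinearMap.adjoint_inner_left]

theorem rho_coe (a b : BA T Λ) :
    rho U a (toPre T Λ U b : LL T Λ U) = (toPre T Λ U (a * b) : Pre T Λ U) := rho0_coe a b

theorem rho_bound {a : BA T Λ} {C : ℝ} (h0 : 0 ≤ C)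
    (hC : ∀ l, ‖(a : Λ → H →L[ℂ] H) l‖ ≤ C) : ‖rho U a‖ ≤ C := rho0_bound h0 hC


/-! ### right multiplication -/

theorem tr_star {x : H →L[ℂ] H} (hx : x ∈ T.S) : ‖(star x) T.Ω‖ = ‖x T.Ω‖ := by
  have h1 := T.trace x hx (star x) (star_mem hx)
  have h2 : ⟪T.Ω, x ((star x) T.Ω)⟫_ℂ = ⟪(star x) T.Ω, (star x) T.Ω⟫_ℂ := by
    rw [ContinuousLinearMap.star_eq_adjoint, ContinuousLinearMap.adjoint_inner_left]
  have h3 : ⟪T.Ω, (star x) (x T.Ω)⟫_ℂ = ⟪x T.Ω, x T.Ω⟫_ℂ := by
    rw [ContinuousLinearMap.star_eq_adjoint, ContinuousLinearMap.adjoint_inner_right]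
  rw [h2, h3, inner_self_eq_norm_sq_to_K, inner_self_eq_norm_sq_to_K] at h1
  have h4 : ‖(star x) T.Ω‖ ^ 2 = ‖x T.Ω‖ ^ 2 := by exact_mod_cast h1
  exact (sq_eq_sq₀ (norm_nonneg _) (norm_nonneg _)).1 h4

theorem tr_right {x y : H →L[ℂ] H} (hx : x ∈ T.S) (hy : y ∈ T.S) :
    ‖x (y T.Ω)‖ ≤ ‖y‖ * ‖x T.Ω‖ := by
  have h1 : ‖x (y T.Ω)‖ = ‖(star y) ((star x) T.Ω)‖ := by
    have := tr_star (T := T) (T.S.mul_mem hx hy)
    rw [star_mul] at this
    exact this.symm
  rw [h1]
  refine ((star y).le_opNorm _).trans ?_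
  rw [tr_star hx, norm_star]

/-- the vacuum vector -/
noncomputable def Om (T : TVN H) (Λ : Type u) (U : Ultrafilter Λ) : LL T Λ U :=
  (toPre T Λ U 1 : Pre T Λ U)

theorem rho_Om (a : BA T Λ) : rho U a (Om T Λ U) = (toPre T Λ U a : Pre T Λ U) := by
  rw [Om, rho_coe, mul_one]

theorem rho_norm_tendsto (a : BA T Λ) :
    Tendsto (fun l => ‖vec a l‖) (U : Filter Λ) (𝓝 ‖rho U a (Om T Λ U)‖) := by
  rw [rho_Om, Completion.norm_coe]
  exact norm_tendsto a

theorem Om_norm : ‖Om T Λ U‖ = 1 := by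
  rw [Om, Completion.norm_coe]
  refine tendsto_nhds_unique (norm_tendsto 1) ?_
  have h : ∀ l : Λ, ‖vec (1 : BA T Λ) l‖ = 1 := fun l => T.norm_Ω
  simp only [h]
  exact tendsto_const_nhds

theorem rho_right (a b : BA T Λ) {C : ℝ} (hC : ∀ l, ‖(b : Λ → H →L[ℂ] H) l‖ ≤ C) :
    ‖rho U a (toPre T Λ U b : LL T Λ U)‖ ≤ C * ‖rho U a (Om T Λ U)‖ := by
  rw [rho_coe, Completion.norm_coe]
  refine le_of_tendsto_of_tendsto (norm_tendsto (a * b)) ((rho_norm_tendsto a).const_mul C)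
    (Eventually.of_forall fun l => ?_)
  have h1 : vec (a * b) l = (a : Λ → H →L[ℂ] H) l ((b : Λ → H →L[ℂ] H) l T.Ω) := rfl
  simp only [h1]
  refine (tr_right (a.2.1 l) (b.2.1 l)).trans ?_
  exact mul_le_mul_of_nonneg_right (hC l) (norm_nonneg _)

/-! ### lifting -/

theorem nontriv (T : TVN H) : Nontrivial H :=
  ⟨⟨T.Ω, 0, fun h => by have := T.norm_Ω; rw [h, norm_zero] at this; exact zero_ne_one this⟩⟩

theorem nontrivL (T : TVN H) (Λ : Type u) (U : Ultrafilter Λ) : Nontrivial (LL T Λ U) :=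
  ⟨⟨Om T Λ U, 0, fun h => by
    have := Om_norm (T := T) (Λ := Λ) (U := U); rw [h, norm_zero] at this
    exact zero_ne_one this⟩⟩

theorem spec_bound {K : Type u} [NormedAddCommGroup K] [InnerProductSpace ℂ K] [CompleteSpace K]
    [Nontrivial K] {a : K →L[ℂ] K} {t : ℝ} (ht : t ∈ spectrum ℝ a) : |t| ≤ ‖a‖ := by
  simpa using spectrum.norm_le_norm_of_mem ht

theorem aeval_coe (h : BA T Λ) (p : Polynomial ℝ) (l : Λ) :
    ((Polynomial.aeval h p : BA T Λ) : Λ → H →L[ℂ] H) l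
      = Polynomial.aeval ((h : Λ → H →L[ℂ] H) l) p := by
  induction p using Polynomial.induction_on' with
  | add p q hp hq => simp only [map_add]; rw [← hp, ← hq]; rfl
  | monomial n r =>
    simp only [Polynomial.aeval_monomial]
    rfl

theorem rho_aeval (h : BA T Λ) (p : Polynomial ℝ) :
    rho U (Polynomial.aeval h p) = Polynomial.aeval (rho U h) p := by
  have := Polynomial.aeval_algHom_apply (((rho U : BA T Λ →⋆ₐ[ℂ] _) : BA T Λ →ₐ[ℂ]
    (LL T Λ U →L[ℂ] LL T Λ U)).restrictScalars ℝ) h p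
  exact this.symm

theorem rho_cfc (g : ℝ → ℝ) (hg : Continuous g) (h gh : BA T Λ)
    (hsa : ∀ l, IsSelfAdjoint ((h : Λ → H →L[ℂ] H) l))
    (hgh : ∀ l, (gh : Λ → H →L[ℂ] H) l = cfc g ((h : Λ → H →L[ℂ] H) l)) :
    rho U gh = cfc g (rho U h) := by
  have := nontriv T
  have := nontrivL T Λ U
  obtain ⟨C, hC⟩ := bdd h
  have hsah : IsSelfAdjoint h := by
    apply Subtype.ext
    funext l
    exact hsa l
  have hsar : IsSelfAdjoint (rho U h) := hsah.map (rho U)
  have key : ∀ ε > 0, ‖rho U gh - cfc g (rho U h)‖ ≤ 2 * ε := by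
    intro ε hε
    obtain ⟨p, hp⟩ := exists_polynomial_near_of_continuousOn (-|C|) |C| g hg.continuousOn ε hε
    have hC' : ∀ l, ‖(h : Λ → H →L[ℂ] H) l‖ ≤ |C| := fun l => (hC l).trans (le_abs_self C)
    have hrC : ‖rho U h‖ ≤ |C| := rho_bound (abs_nonneg C) hC'
    have h1 : ‖rho U (gh - Polynomial.aeval h p)‖ ≤ ε := by
      refine rho_bound hε.le fun l => ?_
      have e1 : ((gh - Polynomial.aeval h p : BA T Λ) : Λ → H →L[ℂ] H) l
          = cfc g ((h : Λ → H →L[ℂ] H) l) - Polynomial.aeval ((h : Λ → H →L[ℂ] H) l) p := by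
        rw [← hgh l, ← aeval_coe]; rfl
      rw [e1, ← cfc_polynomial p _ (hsa l), ← cfc_sub _ _ _ hg.continuousOn
        p.continuous.continuousOn]
      refine norm_cfc_le hε.le fun x hx => ?_
      have hx' := (spec_bound hx).trans (hC' l)
      have := hp x (by rw [Set.mem_Icc, ← abs_le]; exact hx')
      rw [Real.norm_eq_abs, abs_sub_comm]
      exact this.le
    have h2 : ‖cfc g (rho U h) - Polynomial.aeval (rho U h) p‖ ≤ ε := by
      rw [← cfc_polynomial p _ hsar, ← cfc_sub _ _ _ hg.continuousOn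
        p.continuous.continuousOn]
      refine norm_cfc_le hε.le fun x hx => ?_
      have hx' := (spec_bound hx).trans hrC
      have := hp x (by rw [Set.mem_Icc, ← abs_le]; exact hx')
      rw [Real.norm_eq_abs, abs_sub_comm]
      exact this.le
    rw [map_sub, rho_aeval] at h1
    calc ‖rho U gh - cfc g (rho U h)‖
        = ‖(rho U gh - Polynomial.aeval (rho U h) p)
            - (cfc g (rho U h) - Polynomial.aeval (rho U h) p)‖ := by congr 1; abel
      _ ≤ ε + ε := (norm_sub_le _ _).trans (add_le_add h1 h2)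
      _ = 2 * ε := by ring
  have h0 : ‖rho U gh - cfc g (rho U h)‖ ≤ 0 := by
    refine le_of_forall_pos_le_add fun ε hε => ?_
    have := key (ε / 2) (half_pos hε)
    linarith
  exact sub_eq_zero.1 (norm_le_zero_iff.1 h0)


/-- the cut-off function -/
noncomputable def cut (c t : ℝ) : ℝ := c / √(max t (c ^ 2))

theorem cut_cont {c : ℝ} (hc : 0 < c) : Continuous (cut c) := by
  unfold cut
  refine continuous_const.div (by fun_prop) fun t => ?_
  exact (Real.sqrt_pos.2 (lt_of_lt_of_le (by positivity) (le_max_right _ _))).ne'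

theorem cut_nonneg {c : ℝ} (hc : 0 < c) (t : ℝ) : 0 ≤ cut c t := by
  unfold cut; positivity

theorem cut_le_one {c : ℝ} (hc : 0 < c) (t : ℝ) : cut c t ≤ 1 := by
  unfold cut
  have h1 : 0 < √(max t (c ^ 2)) :=
    Real.sqrt_pos.2 (lt_of_lt_of_le (by positivity) (le_max_right _ _))
  rw [div_le_one h1]
  exact Real.le_sqrt_of_sq_le (le_max_right _ _)

theorem cut_eq_one {c t : ℝ} (hc : 0 < c) (ht : t ≤ c ^ 2) : cut c t = 1 := by
  unfold cut
  rw [max_eq_right ht, Real.sqrt_sq hc.le, div_self hc.ne']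

theorem cut_mul {c t : ℝ} (hc : 0 < c) (ht : 0 ≤ t) :
    |cut c t * t * cut c t| ≤ c ^ 2 := by
  have h0 : 0 < max t (c ^ 2) := lt_of_lt_of_le (by positivity) (le_max_right _ _)
  have h1 : cut c t * t * cut c t = c ^ 2 * (t / max t (c ^ 2)) := by
    unfold cut
    have h2 : √(max t (c ^ 2)) * √(max t (c ^ 2)) = max t (c ^ 2) := Real.mul_self_sqrt h0.le
    calc c / √(max t (c ^ 2)) * t * (c / √(max t (c ^ 2)))
        = c ^ 2 * (t / (√(max t (c ^ 2)) * √(max t (c ^ 2)))) := by ring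
      _ = _ := by rw [h2]
  rw [h1, abs_of_nonneg (by positivity)]
  refine mul_le_of_le_one_right (by positivity) ?_
  rw [div_le_one h0]
  exact le_max_left _ _

theorem cut_norm {K : Type u} [NormedAddCommGroup K] [InnerProductSpace ℂ K] [CompleteSpace K]
    (a : K →L[ℂ] K) {c : ℝ} (hc : 0 < c) : ‖a * cfc (cut c) (star a * a)‖ ≤ c := by
  have hsa : IsSelfAdjoint (star a * a) := IsSelfAdjoint.star_mul_self a
  have hg := cut_cont hc
  have hgs : IsSelfAdjoint (cfc (cut c) (star a * a)) := cfc_predicate _ _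
  have h1 : star (a * cfc (cut c) (star a * a)) * (a * cfc (cut c) (star a * a))
      = cfc (fun t => cut c t * t * cut c t) (star a * a) := by
    have e1 : cfc (fun t => cut c t * t * cut c t) (star a * a)
        = cfc (cut c) (star a * a) * (star a * a) * cfc (cut c) (star a * a) := by
      rw [cfc_mul (fun t => cut c t * t) (cut c) (star a * a)
        ((hg.mul continuous_id).continuousOn) hg.continuousOn,
        cfc_mul (cut c) (fun t => t) (star a * a) hg.continuousOn continuous_id.continuousOn,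
        cfc_id' ℝ (star a * a)]
    rw [e1, star_mul, hgs.star_eq]
    simp only [mul_assoc]
  have h2 : ‖a * cfc (cut c) (star a * a)‖ * ‖a * cfc (cut c) (star a * a)‖ ≤ c ^ 2 := by
    rw [← CStarRing.norm_star_mul_self, h1]
    refine norm_cfc_le (by positivity) fun t ht => ?_
    have ht0 : 0 ≤ t := spectrum_star_mul_self_nonneg t ht
    rw [Real.norm_eq_abs]
    exact cut_mul hc ht0
  nlinarith [norm_nonneg (a * cfc (cut c) (star a * a))]

theorem lift_norm (a : BA T Λ) : ∃ b : BA T Λ,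
    (∀ l, ‖(b : Λ → H →L[ℂ] H) l‖ ≤ ‖rho U a‖) ∧ rho U b = rho U a := by
  have := nontriv T
  have := nontrivL T Λ U
  rcases eq_or_ne (rho U a) 0 with h0 | h0
  · refine ⟨0, fun l => ?_, by rw [h0, map_zero]⟩
    rw [h0, norm_zero]
    exact (norm_zero (E := H →L[ℂ] H)).le
  have hc : 0 < ‖rho U a‖ := norm_pos_iff.2 h0
  set c := ‖rho U a‖ with hcdef
  have hcl : IsClosed (T.S : Set (H →L[ℂ] H)) := T.closed
  have hG : T.Bd (fun l : Λ => cfc (cut c)
      (star ((a : Λ → H →L[ℂ] H) l) * (a : Λ → H →L[ℂ] H) l)) := by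
    refine ⟨fun l => ?_, 1, fun l => ?_⟩
    · exact cfc_mem (𝕜 := ℝ) (𝕜' := ℂ) (S := StarSubalgebra ℂ (H →L[ℂ] H)) (s := T.S) (cut c)
        (mul_mem (star_mem (a.2.1 l)) (a.2.1 l))
    · refine norm_cfc_le zero_le_one fun t _ => ?_
      rw [Real.norm_eq_abs, abs_of_nonneg (cut_nonneg hc t)]
      exact cut_le_one hc t
  let gh : BA T Λ := ⟨_, hG⟩
  have h1 : rho U gh = cfc (cut c) (rho U (star a * a)) :=
    rho_cfc (cut c) (cut_cont hc) (star a * a) gh
      (fun l => IsSelfAdjoint.star_mul_self ((a : Λ → H →L[ℂ] H) l)) (fun l => rfl)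
  have hsa : IsSelfAdjoint (rho U (star a * a)) := (IsSelfAdjoint.star_mul_self a).map (rho U)
  have h2 : rho U gh = 1 := by
    rw [h1, ← cfc_const_one ℝ (rho U (star a * a)) hsa]
    refine cfc_congr fun t ht => ?_
    refine cut_eq_one hc ?_
    have h3 := (le_abs_self t).trans (spec_bound ht)
    rw [map_mul, map_star, CStarRing.norm_star_mul_self, ← sq] at h3
    exact h3
  refine ⟨a * gh, fun l => ?_, by rw [map_mul, h2, mul_one]⟩
  exact cut_norm ((a : Λ → H →L[ℂ] H) l) hc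

/-! ### completeness -/

theorem complete_aux (a : ℕ → BA T Λ) (h1 : ∀ k l, ‖(a k : Λ → H →L[ℂ] H) l‖ ≤ 1)
    (h2 : ∀ k, ‖rho U (a (k + 1)) (Om T Λ U) - rho U (a k) (Om T Λ U)‖ < 1 / 2 ^ k) :
    ∃ b : BA T Λ, (∀ l, ‖(b : Λ → H →L[ℂ] H) l‖ ≤ 1) ∧
      ∀ k, ‖rho U b (Om T Λ U) - rho U (a k) (Om T Λ U)‖ ≤ 2 / 2 ^ k := by
  classical
  let B : ℕ → Set Λ := fun k => {l | ‖vec (a (k + 1)) l - vec (a k) l‖ < 1 / 2 ^ k}
  have hB : ∀ k, B k ∈ (U : Filter Λ) := by
    intro k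
    have h3 := rho_norm_tendsto (U := U) (a (k + 1) - a k)
    rw [map_sub, sub_apply] at h3
    exact h3.eventually_lt_const (h2 k)
  let G : ℕ → Λ → Prop := fun k l => ∀ j < k, l ∈ B j
  let c : ℕ → Λ → H →L[ℂ] H := fun k => Nat.rec (fun l => (a 0 : Λ → H →L[ℂ] H) l)
    (fun k ck l => if G (k + 1) l then (a (k + 1) : Λ → H →L[ℂ] H) l else ck l) k
  have hc0 : ∀ l, c 0 l = (a 0 : Λ → H →L[ℂ] H) l := fun l => rfl
  have hcs : ∀ k l, c (k + 1) l = if G (k + 1) l then (a (k + 1) : Λ → H →L[ℂ] H) l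
    else c k l := fun k l => rfl
  have hcG : ∀ k l, G k l → c k l = (a k : Λ → H →L[ℂ] H) l := by
    intro k l hG
    cases k with
    | zero => rfl
    | succ k => rw [hcs, if_pos hG]
  have hcS : ∀ k l, c k l ∈ T.S := by
    intro k l
    induction k with
    | zero => exact (a 0).2.1 l
    | succ k ih => rw [hcs]; split_ifs; exacts [(a (k + 1)).2.1 l, ih]
  have hc1 : ∀ k l, ‖c k l‖ ≤ 1 := by
    intro k l
    induction k with
    | zero => exact h1 0 l
    | succ k ih => rw [hcs]; split_ifs; exacts [h1 (k + 1) l, ih]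
  have hd : ∀ l k, dist (c k l T.Ω) (c (k + 1) l T.Ω) ≤ 2 / 2 / 2 ^ k := by
    intro l k
    rw [hcs]
    split_ifs with hG
    · rw [hcG k l fun j hj => hG j (hj.trans (Nat.lt_succ_self k)), dist_eq_norm, norm_sub_rev]
      have h3 : ‖vec (a (k + 1)) l - vec (a k) l‖ < 1 / 2 ^ k := hG k (Nat.lt_succ_self k)
      have h4 : (2 : ℝ) / 2 / 2 ^ k = 1 / 2 ^ k := by norm_num
      rw [h4]
      exact h3.le
    · rw [dist_self]; positivity
  have hlim : ∀ l, ∃ y ∈ T.S, ‖y‖ ≤ 1 ∧ Tendsto (fun k => c k l T.Ω) atTop (𝓝 (y T.Ω)) :=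
    fun l => T.complete (fun k => c k l) (fun k => hcS k l) (fun k => hc1 k l)
      (cauchySeq_of_le_geometric_two (hd l))
  choose y hyS hy1 hy using hlim
  refine ⟨⟨y, hyS, 1, hy1⟩, hy1, fun k => ?_⟩
  have h3 := rho_norm_tendsto (U := U) (⟨y, hyS, 1, hy1⟩ - a k)
  rw [map_sub, sub_apply] at h3
  refine le_of_tendsto h3 ?_
  have h4 : ∀ᶠ l in (U : Filter Λ), G k l := by
    have : (⋂ j ∈ Finset.range k, B j) ∈ (U : Filter Λ) :=
      (Filter.biInter_finset_mem _).2 fun j _ => hB j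
    filter_upwards [this] with l hl j hj
    exact Set.mem_iInter₂.1 hl j (Finset.mem_range.2 hj)
  filter_upwards [h4] with l hl
  have h5 := dist_le_of_le_geometric_two_of_tendsto (hd l) (hy l) k
  rw [hcG k l hl, dist_eq_norm, norm_sub_rev] at h5
  exact h5

theorem complete_rho (X : ℕ → LL T Λ U →L[ℂ] LL T Λ U) (hX : ∀ n, X n ∈ (rho U).range)
    (h1 : ∀ n, ‖X n‖ ≤ 1) (hc : CauchySeq fun n => X n (Om T Λ U)) :
    ∃ y ∈ (rho (T := T) (Λ := Λ) U).range, ‖y‖ ≤ 1 ∧
      Tendsto (fun n => X n (Om T Λ U)) atTop (𝓝 (y (Om T Λ U))) := by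
  obtain ⟨ξ, hξ⟩ := cauchySeq_tendsto_of_complete hc
  have hev : ∀ n : ℕ, ∀ᶠ k in atTop, ‖X k (Om T Λ U) - ξ‖ < 1 / 2 ^ (n + 1) := by
    intro n
    have := (tendsto_iff_norm_sub_tendsto_zero.1 hξ)
    exact this.eventually_lt_const (by positivity)
  obtain ⟨φ, hφ, hφ2⟩ := extraction_forall_of_eventually hev
  have hlift : ∀ k, ∃ b : BA T Λ, (∀ l, ‖(b : Λ → H →L[ℂ] H) l‖ ≤ 1) ∧ rho U b = X (φ k) := by
    intro k
    obtain ⟨a, ha⟩ := hX (φ k)
    obtain ⟨b, hb1, hb2⟩ := lift_norm (U := U) a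
    refine ⟨b, fun l => (hb1 l).trans ?_, hb2.trans ha⟩
    have ha' : rho U a = X (φ k) := ha
    rw [ha']
    exact h1 _
  choose a ha1 ha2 using hlift
  have h2 : ∀ k, ‖rho U (a (k + 1)) (Om T Λ U) - rho U (a k) (Om T Λ U)‖ < 1 / 2 ^ k := by
    intro k
    rw [ha2, ha2]
    have e1 := hφ2 k
    have e2 := hφ2 (k + 1)
    have e3 : X (φ (k + 1)) (Om T Λ U) - X (φ k) (Om T Λ U)
        = (X (φ (k + 1)) (Om T Λ U) - ξ) - (X (φ k) (Om T Λ U) - ξ) := by abel
    rw [e3]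
    refine (norm_sub_le _ _).trans_lt ?_
    have e4 : (1 : ℝ) / 2 ^ (k + 1 + 1) + 1 / 2 ^ (k + 1) ≤ 1 / 2 ^ k := by
      rw [pow_succ, pow_succ]
      have : (0 : ℝ) < 2 ^ k := by positivity
      rw [div_add_div _ _ (by positivity) (by positivity), div_le_div_iff₀ (by positivity) this]
      nlinarith
    linarith
  obtain ⟨b, hb1, hb2⟩ := complete_aux a ha1 h2
  refine ⟨rho U b, ⟨b, rfl⟩, rho_bound zero_le_one hb1, ?_⟩
  have h5 : rho U b (Om T Λ U) = ξ := by
    have e1 : Tendsto (fun k => X (φ k) (Om T Λ U)) atTop (𝓝 ξ) := hξ.comp hφ.tendsto_atTop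
    have e2 : Tendsto (fun k => X (φ k) (Om T Λ U)) atTop (𝓝 (rho U b (Om T Λ U))) := by
      rw [tendsto_iff_norm_sub_tendsto_zero]
      have e3 : Tendsto (fun k : ℕ => (2 : ℝ) / 2 ^ k) atTop (𝓝 0) := by
        have := (tendsto_pow_atTop_nhds_zero_of_lt_one (r := (1 / 2 : ℝ)) (by norm_num)
          (by norm_num)).const_mul 2
        simpa [div_eq_mul_inv] using this
      refine squeeze_zero (fun _ => norm_nonneg _) (fun k => ?_) e3
      rw [norm_sub_rev, ← ha2]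
      exact hb2 k
    exact tendsto_nhds_unique e2 e1
  rw [h5]
  exact hξ

theorem range_closed : IsClosed ((rho (T := T) (Λ := Λ) U).range :
    Set (LL T Λ U →L[ℂ] LL T Λ U)) := by
  refine IsSeqClosed.isClosed fun X Y hX hXY => ?_
  set c := ‖Y‖ + 1 with hc
  have hc0 : 0 < c := by positivity
  have hev : ∀ᶠ n in atTop, ‖X n‖ ≤ c :=
    (hXY.norm.eventually_lt_const (by linarith : ‖Y‖ < c)).mono fun n hn => hn.le
  obtain ⟨N, hN⟩ := eventually_atTop.1 hev
  have hXN : Tendsto (fun n => X (n + N)) atTop (𝓝 Y) := (tendsto_add_atTop_iff_nat N).2 hXY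
  have hsc : Tendsto (fun n => ((c⁻¹ : ℝ) : ℂ) • X (n + N)) atTop (𝓝 (((c⁻¹ : ℝ) : ℂ) • Y)) :=
    hXN.const_smul _
  have hscv : ∀ v, Tendsto (fun n => (((c⁻¹ : ℝ) : ℂ) • X (n + N)) v) atTop
      (𝓝 ((((c⁻¹ : ℝ) : ℂ) • Y) v)) := fun v =>
    ((ContinuousLinearMap.apply ℂ (LL T Λ U) v).continuous.tendsto _).comp hsc
  obtain ⟨y, hy, -, hyt⟩ := complete_rho (fun n => ((c⁻¹ : ℝ) : ℂ) • X (n + N))
    (fun n => SMulMemClass.smul_mem _ (hX _)) (fun n => by
      rw [norm_smul, Complex.norm_real, Real.norm_eq_abs, abs_of_pos (inv_pos.2 hc0)]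
      have := hN (n + N) (Nat.le_add_left _ _)
      rw [inv_mul_le_iff₀ hc0, mul_one]
      exact this) (hscv _).cauchySeq
  have h1 : y (Om T Λ U) = (((c⁻¹ : ℝ) : ℂ) • Y) (Om T Λ U) := tendsto_nhds_unique hyt (hscv _)
  have h2 : ((c⁻¹ : ℝ) : ℂ) • Y = y := by
    refine dense_ext fun b => ?_
    obtain ⟨C, hC⟩ := bdd b
    have e1 := hscv (toPre T Λ U b : Pre T Λ U)
    refine tendsto_nhds_unique e1 ?_
    rw [tendsto_iff_norm_sub_tendsto_zero]
    have e2 : Tendsto (fun n => C * ‖(((c⁻¹ : ℝ) : ℂ) • X (n + N)) (Om T Λ U)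
        - y (Om T Λ U)‖) atTop (𝓝 0) := by
      have := (tendsto_iff_norm_sub_tendsto_zero.1 hyt).const_mul C
      simpa using this
    refine squeeze_zero (fun _ => norm_nonneg _) (fun n => ?_) e2
    obtain ⟨z, hz⟩ : (((c⁻¹ : ℝ) : ℂ) • X (n + N)) - y ∈ (rho (T := T) (Λ := Λ) U).range :=
      sub_mem (SMulMemClass.smul_mem _ (hX _)) hy
    have hz' : rho U z = (((c⁻¹ : ℝ) : ℂ) • X (n + N)) - y := hz
    rw [← sub_apply, ← sub_apply, ← hz']
    exact rho_right z b hC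
  have h3 : Y = (c : ℂ) • y := by
    rw [← h2, smul_smul, ← Complex.ofReal_mul, mul_inv_cancel₀ hc0.ne', Complex.ofReal_one,
      one_smul]
  rw [h3]
  exact SMulMemClass.smul_mem _ hy

/-- the ultrapower -/
noncomputable def hat (T : TVN H) (Λ : Type u) (U : Ultrafilter Λ) : TVN (LL T Λ U) where
  S := (rho U).range
  Ω := Om T Λ U
  norm_Ω := Om_norm
  closed := range_closed
  trace := by
    rintro _ ⟨a, rfl⟩ _ ⟨b, rfl⟩
    have h1 : ∀ a b : BA T Λ, Tendsto (fun l => ⟪T.Ω, (a : Λ → H →L[ℂ] H) l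
        ((b : Λ → H →L[ℂ] H) l T.Ω)⟫_ℂ) (U : Filter Λ)
        (𝓝 ⟪Om T Λ U, rho U a (rho U b (Om T Λ U))⟫_ℂ) := by
      intro a b
      rw [rho_Om, rho_coe, Om, Completion.inner_coe]
      exact inner_tendsto 1 (a * b)
    refine tendsto_nhds_unique (h1 a b) ((h1 b a).congr fun l => ?_)
    exact (T.trace _ (b.2.1 l) _ (a.2.1 l))
  sep := by
    rintro _ ⟨a, rfl⟩ h0
    refine dense_ext fun b => ?_
    obtain ⟨C, hC⟩ := bdd b
    have h1 := rho_right (U := U) a b hC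
    have h0' : rho U a (Om T Λ U) = 0 := h0
    rw [h0', norm_zero, mul_zero] at h1
    have h2 := norm_le_zero_iff.1 h1
    rw [zero_apply]
    exact h2
  complete := complete_rho

open Classical in
/-- the package -/
noncomputable def pack (T : TVN H) (Λ : Type u) (U : Ultrafilter Λ) : UPack T Λ U where
  L := LL T Λ U
  nacg := inferInstance
  ips := inferInstance
  cs := inferInstance
  That := hat T Λ U
  π := fun a => if h : T.Bd a then rho U ⟨a, h⟩ else 0
  map_add := fun a b ha hb => by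
    have hab : T.Bd (a + b) := (BA T Λ).add_mem ha hb
    rw [dif_pos ha, dif_pos hb, dif_pos hab, ← map_add]
    rfl
  map_mul := fun a b ha hb => by
    have hab : T.Bd (a * b) := (BA T Λ).mul_mem ha hb
    rw [dif_pos ha, dif_pos hb, dif_pos hab, ← map_mul]
    rfl
  map_smul := fun c a ha => by
    have hab : T.Bd (c • a) := SMulMemClass.smul_mem (s := BA T Λ) c ha
    rw [dif_pos ha, dif_pos hab, ← map_smul]
    rfl
  map_star := fun a ha => by
    have hab : T.Bd (star a) := star_mem (s := BA T Λ) ha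
    rw [dif_pos ha, dif_pos hab, ← map_star]
    rfl
  map_one := by
    have h1 : T.Bd (1 : Λ → H →L[ℂ] H) := (BA T Λ).one_mem
    rw [dif_pos h1]
    exact map_one (rho U)
  mem := fun a ha => by
    rw [dif_pos ha]
    exact ⟨_, rfl⟩
  lift := by
    rintro _ ⟨a, rfl⟩
    obtain ⟨b, hb1, hb2⟩ := lift_norm (U := U) a
    refine ⟨b, b.2.1, hb1, ?_⟩
    have hb : T.Bd (b : Λ → H →L[ℂ] H) := b.2
    rw [dif_pos hb]
    exact hb2
  norm_tendsto := fun a ha => by
    rw [dif_pos ha]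
    exact rho_norm_tendsto (U := U) ⟨a, ha⟩

end Pool.Agent.OS.Ultra

namespace Pool.Agent.OS

universe u

theorem ultra_proof : Stmt_Ultra.{u} := fun _ _ _ _ T Λ U => ⟨Ultra.pack T Λ U⟩

end Pool.Agent.OS
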