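import Pool.Agent.OS.Basic
import Pool.Agent.OS.Stmts

set_option autoImplicit false

/-!
# Lifting unitaries from the ultrapower
-/

open Filter Topology
open scoped InnerProductSpace

namespace Pool.Agent.OS

universe u

namespace UniLift

lemma norm_one_le' {H : Type u} [NormedAddCommGroup H] [InnerProductSpace ℂ H] :
    ‖(1 : H →L[ℂ] H)‖ ≤ 1 := ContinuousLinearMap.norm_id_le

lemma norm_unitary_le {H : Type u} [NormedAddCommGroup H] [InnerProductSpace ℂ H]
    [CompleteSpace H] {w : H →L[ℂ] H} (hw : w ∈ unitary (H →L[ℂ] H)) : ‖w‖ ≤ 1 := by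
  have h := CStarRing.norm_star_mul_self (x := w)
  rw [(Unitary.mem_iff.1 hw).1] at h
  have h1 : ‖(1 : H →L[ℂ] H)‖ ≤ 1 := norm_one_le'
  nlinarith [norm_nonneg w]

end UniLift

open UniLift in
/-- lifting unitaries -/
theorem uniLift_proof (hN : Stmt_UnitNear.{u}) : Stmt_UniLift.{u} := by
  intro H _ _ _ T Λ U P hT W hW hWu
  obtain ⟨a, haS, han, haW⟩ := P.lift W hW
  have ha1 : ∀ l, ‖a l‖ ≤ 1 := fun l => (han l).trans (norm_unitary_le hWu)
  have hex : ∀ l, ∃ w ∈ T.S, w ∈ unitary (H →L[ℂ] H) ∧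
      ‖(w - a l) T.Ω‖ ≤ 4 * ‖(star (a l) * a l - 1) T.Ω‖ := fun l => hN H T hT (a l) (haS l) (ha1 l)
  choose w hwS hwu hwd using hex
  refine ⟨w, fun l => ⟨hwS l, hwu l⟩, ?_⟩
  have bda : T.Bd a := ⟨haS, 1, ha1⟩
  have bdsa : T.Bd (star a) := ⟨fun l => star_mem (haS l), 1, fun l => by
    rw [Pi.star_apply, norm_star]; exact ha1 l⟩
  have bdn : T.Bd ((-1 : ℂ) • (1 : Λ → H →L[ℂ] H)) :=
    ⟨fun l => by
      rw [Pi.smul_apply, Pi.one_apply]
      exact SMulMemClass.smul_mem _ (one_mem _), 1, fun l => by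
      rw [Pi.smul_apply, norm_smul]
      simpa using norm_one_le'⟩
  have bd1 : T.Bd (1 : Λ → H →L[ℂ] H) := ⟨fun l => one_mem _, 1, fun l => norm_one_le'⟩
  have bdm : T.Bd (star a * a) := ⟨fun l => mul_mem (star_mem (haS l)) (haS l), 1, fun l => by
    refine (norm_mul_le _ _).trans ?_
    rw [Pi.star_apply, norm_star]
    nlinarith [ha1 l, norm_nonneg (a l)]⟩
  have bdd : T.Bd (star a * a + (-1 : ℂ) • (1 : Λ → H →L[ℂ] H)) :=
    ⟨fun l => add_mem (bdm.1 l) (bdn.1 l), 2, fun l => by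
      refine (norm_add_le _ _).trans ?_
      have h1 : ‖(star a * a) l‖ ≤ 1 := by
        refine (norm_mul_le _ _).trans ?_
        rw [Pi.star_apply, norm_star]
        nlinarith [ha1 l, norm_nonneg (a l)]
      have h2 : ‖((-1 : ℂ) • (1 : Λ → H →L[ℂ] H)) l‖ ≤ 1 := by
        rw [Pi.smul_apply, norm_smul]
        simpa using norm_one_le'
      linarith⟩
  have bdw : T.Bd (w + (-1 : ℂ) • a) :=
    ⟨fun l => add_mem (hwS l) (SMulMemClass.smul_mem _ (haS l)), 2, fun l => by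
      refine (norm_add_le _ _).trans ?_
      have h1 := norm_unitary_le (hwu l)
      have h2 : ‖((-1 : ℂ) • a) l‖ ≤ 1 := by
        rw [Pi.smul_apply, norm_smul]
        simpa using ha1 l
      linarith⟩
  have hz : P.π (star a * a + (-1 : ℂ) • (1 : Λ → H →L[ℂ] H)) = 0 := by
    rw [P.map_add _ _ bdm bdn, P.map_mul _ _ bdsa bda, P.map_star _ bda, P.map_smul _ _ bd1,
      P.map_one, haW, (Unitary.mem_iff.1 hWu).1]
    simp
  have ht := P.norm_tendsto _ bdd
  rw [hz] at ht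
  simp only [_root_.zero_apply, norm_zero] at ht
  have ht2 := P.norm_tendsto _ bdw
  have hlim : Tendsto (fun l => ‖(w + (-1 : ℂ) • a) l T.Ω‖) U (𝓝 0) := by
    have ht4 : Tendsto (fun l => 4 * ‖(star a * a + (-1 : ℂ) • (1 : Λ → H →L[ℂ] H)) l T.Ω‖) U
        (𝓝 0) := by
      have := ht.const_mul 4
      rwa [mul_zero] at this
    refine squeeze_zero (fun l => norm_nonneg _) (fun l => ?_) ht4
    have e1 : (w + (-1 : ℂ) • a) l = w l - a l := by
      simp [sub_eq_add_neg]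
    have e2 : (star a * a + (-1 : ℂ) • (1 : Λ → H →L[ℂ] H)) l = star (a l) * a l - 1 := by
      simp [sub_eq_add_neg]
    rw [e1, e2]
    exact hwd l
  have h0 : ‖P.π (w + (-1 : ℂ) • a) P.That.Ω‖ = 0 := tendsto_nhds_unique ht2 hlim
  have h1 : P.π (w + (-1 : ℂ) • a) = 0 :=
    P.That.sep _ (P.mem _ bdw) (norm_eq_zero.1 h0)
  have e : w = a + (w + (-1 : ℂ) • a) := by
    funext l
    simp
  rw [e, P.map_add _ _ bda bdw, h1, haW, add_zero]

end Pool.Agent.OS
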