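import Pool.Agent.OS.Basic
import Pool.Agent.OS.Stmts

set_option autoImplicit false

/-!
# Partitions with equal traces are unitarily conjugate
-/

open Filter Topology
open scoped InnerProductSpace

namespace Pool.Agent.OS

universe u

namespace PartConj

variable {H : Type u} [NormedAddCommGroup H] [InnerProductSpace ℂ H] [CompleteSpace H]

/-- the initial projection of a partial isometry acts on the right -/
lemma mul_init {v e : H →L[ℂ] H} (he : IsStarProjection e) (h : star v * v = e) : v * e = v := by
  have h1 : star (v - v * e) * (v - v * e) = 0 := by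
    have hee := he.isIdempotentElem.eq
    have hes := he.isSelfAdjoint.star_eq
    calc star (v - v * e) * (v - v * e)
        = star v * v - (star v * v) * e - (star e * (star v * v)) +
          star e * (star v * v) * e := by
          rw [star_sub, star_mul]; noncomm_ring
      _ = 0 := by rw [h, hes, hee, hee]; simp
  have h2 := CStarRing.star_mul_self_eq_zero_iff (v - v * e) |>.1 h1
  exact (sub_eq_zero.1 h2).symm

/-- the final projection acts on the left -/
lemma fin_mul {v f : H →L[ℂ] H} (hf : IsStarProjection f) (h : v * star v = f) : f * v = v := by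
  have h1 := mul_init (v := star v) hf (by rw [star_star]; exact h)
  have h2 := congrArg star h1
  rw [star_mul, star_star, hf.isSelfAdjoint.star_eq] at h2
  exact h2

end PartConj

/-- partitions with equal traces are conjugate -/
theorem partConj_proof (hC : Stmt_Compare.{u}) : Stmt_PartConj.{u} := by
  intro H _ _ _ T hT k p p' hp hp' heq
  have hex : ∀ j, ∃ v ∈ T.S, star v * v = p j ∧ v * star v = p' j := fun j =>
    hC H T hT (p j) (hp.mem j) (p' j) (hp'.mem j) (hp.proj j) (hp'.proj j) (heq j)
  choose v hv hv1 hv2 using hex
  have h1 : ∀ j, v j * p j = v j := fun j => PartConj.mul_init (hp.proj j) (hv1 j)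
  have h2 : ∀ j, p' j * v j = v j := fun j => PartConj.fin_mul (hp'.proj j) (hv2 j)
  have h1' : ∀ j, p j * star (v j) = star (v j) := fun j => by
    have := congrArg star (h1 j)
    rwa [star_mul, (hp.proj j).isSelfAdjoint.star_eq] at this
  have h2' : ∀ j, star (v j) * p' j = star (v j) := fun j => by
    have := congrArg star (h2 j)
    rwa [star_mul, (hp'.proj j).isSelfAdjoint.star_eq] at this
  have h3 : ∀ i j, i ≠ j → star (v i) * v j = 0 := fun i j hij => by
    rw [← h2' i, ← h2 j, mul_assoc, ← mul_assoc (p' i), hp'.orth i j hij]
    simp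
  have h4 : ∀ i j, i ≠ j → v i * star (v j) = 0 := fun i j hij => by
    rw [← h1 i, ← h1' j, mul_assoc, ← mul_assoc (p i), hp.orth i j hij]
    simp
  have h5 : ∀ j, p' j * ∑ i, v i = v j := by
    intro j
    rw [Finset.mul_sum, Finset.sum_eq_single j]
    · exact h2 j
    · intro i _ hij
      rw [← h2 i, ← mul_assoc, hp'.orth j i (Ne.symm hij), zero_mul]
    · simp
  have h6 : ∀ j, star (∑ i, v i) * v j = p j := by
    intro j
    rw [star_sum, Finset.sum_mul, Finset.sum_eq_single j]
    · exact hv1 j
    · intro i _ hij
      exact h3 i j hij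
    · simp
  refine ⟨∑ i, v i, sum_mem fun i _ => hv i, ?_, fun j => ?_⟩
  · rw [Unitary.mem_iff]
    constructor
    · rw [Finset.mul_sum]
      simp_rw [h6]
      exact hp.sum
    · rw [star_sum, Finset.sum_mul]
      rw [← hp'.sum]
      apply Finset.sum_congr rfl
      intro i _
      rw [Finset.mul_sum, Finset.sum_eq_single i]
      · exact hv2 i
      · intro j _ hji
        exact h4 i j (Ne.symm hji)
      · simp
  · rw [mul_assoc, h5, h6]

end Pool.Agent.OS
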