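import Pool.Agent.OS.Basic
import Pool.Agent.OS.Stmts
import Pool.Agent.OS.PartConj

set_option autoImplicit false

/-!
# Almost unitary contractions are near unitaries
-/

open Filter Topology
open scoped InnerProductSpace

namespace Pool.Agent.OS

universe u

namespace UnitNear

variable {H : Type u} [NormedAddCommGroup H] [InnerProductSpace ℂ H] [CompleteSpace H]

/-- the function `1 / √(max t 1/4)` -/
noncomputable def kf (t : ℝ) : ℝ := 1 / Real.sqrt (max t (1 / 4))

/-- coefficient on `t > 1/4` -/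
noncomputable def h1 (t : ℝ) : ℝ :=
  1 / (Real.sqrt (max t (1 / 4)) * (1 + Real.sqrt (max t (1 / 4))))

/-- coefficient on `t ≤ 1/4` -/
noncomputable def h2 (t : ℝ) : ℝ := 1 / (1 - min t (1 / 4))

lemma sqrt_ge (t : ℝ) : 1 / 2 ≤ Real.sqrt (max t (1 / 4)) := by
  rw [show (1 / 2 : ℝ) = Real.sqrt (1 / 4) by
    rw [show (1 / 4 : ℝ) = (1 / 2) ^ 2 by norm_num]; rw [Real.sqrt_sq (by norm_num)]]
  exact Real.sqrt_le_sqrt (le_max_right _ _)

lemma sqrt_pos' (t : ℝ) : 0 < Real.sqrt (max t (1 / 4)) := lt_of_lt_of_le (by norm_num) (sqrt_ge t)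

lemma cont_kf : Continuous kf := by
  unfold kf
  refine continuous_const.div ?_ fun t => (sqrt_pos' t).ne'
  fun_prop

lemma cont_h1 : Continuous h1 := by
  unfold h1
  refine continuous_const.div ?_ fun t => ?_
  · fun_prop
  · have := sqrt_pos' t
    positivity

lemma cont_h2 : Continuous h2 := by
  unfold h2
  refine continuous_const.div ?_ fun t => ?_
  · fun_prop
  · have : min t (1 / 4) ≤ 1 / 4 := min_le_right _ _
    linarith

lemma h1_le (t : ℝ) : ‖h1 t‖ ≤ 4 / 3 := by
  have h := sqrt_ge t
  have hp := sqrt_pos' t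
  rw [Real.norm_eq_abs, abs_of_pos (by unfold h1; positivity)]
  unfold h1
  rw [div_le_iff₀ (by positivity)]
  nlinarith

lemma h2_le (t : ℝ) : ‖h2 t‖ ≤ 4 / 3 := by
  have h : min t (1 / 4) ≤ 1 / 4 := min_le_right _ _
  have hp : (0 : ℝ) < 1 - min t (1 / 4) := by linarith
  rw [Real.norm_eq_abs, abs_of_pos (by unfold h2; positivity)]
  unfold h2
  rw [div_le_iff₀ hp]
  linarith

end UnitNear

open UnitNear in
/-- almost unitary contractions are near unitaries -/
theorem unitNear_proof (hS : Stmt_Spec.{u}) (hC : Stmt_Compare.{u}) : Stmt_UnitNear.{u} := by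
  intro H _ _ _ T hT x hx hx1
  set b := star x * x with hb
  have hbS : b ∈ T.S := mul_mem (star_mem hx) hx
  have hbsa : IsSelfAdjoint b := IsSelfAdjoint.star_mul_self x
  obtain ⟨q, hq, hqp, hq1, hq2, hq3, -⟩ := hS H T b hbS hbsa (1 / 4)
  have hqq := hqp.isIdempotentElem.eq
  have hqs := hqp.isSelfAdjoint.star_eq
  have : IsClosed (T.S : Set (H →L[ℂ] H)) := T.closed
  have hkS : cfc kf b ∈ T.S := cfc_mem (𝕜 := ℝ) (𝕜' := ℂ) (s := T.S) kf hbS
  have hbq : b * q = q * b := (hq3 b hbS rfl).symm ▸ rfl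
  have hcomm : ∀ g : ℝ → ℝ, cfc g b * q = q * cfc g b := by
    intro g
    have hgS : cfc g b ∈ T.S := cfc_mem (𝕜 := ℝ) (𝕜' := ℂ) (s := T.S) g hbS
    refine hq3 _ hgS ?_
    have h := cfc_commute_cfc g (fun t : ℝ => t) b
    rw [cfc_id' ℝ b hbsa] at h
    exact h.eq
  have hksa : star (cfc kf b) = cfc kf b := (cfc_predicate kf b : IsSelfAdjoint _).star_eq
  set v := x * (cfc kf b * q) with hv
  have hvS : v ∈ T.S := mul_mem hx (mul_mem hkS hq)
  -- `t k(t)^2 = 1` on `t > 1/4`
  have hone : cfc kf b * b * cfc kf b * q = q := by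
    have e1 : cfc kf b * b * cfc kf b = cfc (fun t => kf t * t * kf t) b := by
      rw [cfc_mul (fun t => kf t * t) kf b (by have := cont_kf; fun_prop)
        (cont_kf.continuousOn), cfc_mul kf (fun t => t) b cont_kf.continuousOn
        continuousOn_id, cfc_id' ℝ b hbsa]
    have h := hq1 (fun t => kf t * t * kf t - 1) (by have := cont_kf; fun_prop) (by
      intro t ht
      have h0 : max t (1 / 4) = t := max_eq_left ht.le
      have ht0 : 0 < t := by linarith
      simp only [kf, h0]
      have hs := Real.sqrt_pos.2 ht0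
      have hs2 := Real.mul_self_sqrt ht0.le
      field_simp
      nlinarith)
    rw [cfc_sub (fun t => kf t * t * kf t) (fun _ => (1 : ℝ)) b (by have := cont_kf; fun_prop)
      continuousOn_const, ← e1, cfc_const_one ℝ b, sub_mul, one_mul, sub_eq_zero] at h
    exact h
  have hvv : star v * v = q := by
    have hvstar : star v = q * cfc kf b * star x := by
      rw [hv]; simp only [star_mul, hqs, hksa]
    calc star v * v = (q * cfc kf b) * (star x * x) * (cfc kf b * q) := by
          rw [hvstar, hv]; simp only [mul_assoc]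
      _ = (q * cfc kf b) * b * (cfc kf b * q) := by rw [hb]
      _ = q * (cfc kf b * b * cfc kf b * q) := by simp only [mul_assoc]
      _ = q := by rw [hone, hqq]
  -- the distance
  have hdist : ‖(v - x) T.Ω‖ ≤ 8 / 3 * ‖(b - 1) T.Ω‖ := by
    have e1 : cfc kf b * q - q = cfc h1 b * (1 - b) * q := by
      have h := hq1 (fun t => (kf t - 1) - h1 t * (1 - t))
        (by have := cont_kf; have := cont_h1; fun_prop) (by
        intro t ht
        have h0 : max t (1 / 4) = t := max_eq_left ht.le
        have ht0 : 0 < t := by linarith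
        simp only [kf, h1, h0]
        have hs := Real.sqrt_pos.2 ht0
        have hs2 := Real.mul_self_sqrt ht0.le
        have hs3 : (0 : ℝ) < 1 + Real.sqrt t := by positivity
        field_simp
        nlinarith)
      rw [cfc_sub (fun t => kf t - 1) (fun t => h1 t * (1 - t)) b
        (by have := cont_kf; fun_prop) (by have := cont_h1; fun_prop),
        cfc_sub kf (fun _ => (1 : ℝ)) b cont_kf.continuousOn continuousOn_const,
        cfc_mul h1 (fun t => 1 - t) b cont_h1.continuousOn (by fun_prop),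
        cfc_sub (fun _ => (1 : ℝ)) (fun t => t) b continuousOn_const continuousOn_id,
        cfc_const_one ℝ b, cfc_id' ℝ b hbsa] at h
      have h' : cfc kf b * q - q - cfc h1 b * (1 - b) * q = 0 := by
        rw [← h]; noncomm_ring
      exact sub_eq_zero.1 h'
    have e2 : 1 - q = cfc h2 b * (1 - b) * (1 - q) := by
      have h := hq2 (fun t => 1 - h2 t * (1 - t)) (by have := cont_h2; fun_prop) (by
        intro t ht
        have h0 : min t (1 / 4) = t := min_eq_left ht
        simp only [h2, h0]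
        have : (1 : ℝ) - t ≠ 0 := by linarith
        field_simp
        ring)
      rw [cfc_sub (fun _ => (1 : ℝ)) (fun t => h2 t * (1 - t)) b continuousOn_const
        (by have := cont_h2; fun_prop),
        cfc_mul h2 (fun t => 1 - t) b cont_h2.continuousOn (by fun_prop),
        cfc_sub (fun _ => (1 : ℝ)) (fun t => t) b continuousOn_const continuousOn_id,
        cfc_const_one ℝ b, cfc_id' ℝ b hbsa] at h
      have h' : (1 - cfc h2 b * (1 - b)) * (1 - q) = 0 := by
        rw [mul_sub, mul_one, h, sub_self]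
      have h'' : (1 - q) - cfc h2 b * (1 - b) * (1 - q) = 0 := by
        rw [← h']; noncomm_ring
      exact sub_eq_zero.1 h''
    have e3 : v - x = x * (cfc h1 b * (q * (1 - b)) - cfc h2 b * ((1 - q) * (1 - b))) := by
      have c1 : (1 - b) * q = q * (1 - b) := by rw [sub_mul, mul_sub, one_mul, mul_one, hbq]
      have c2 : (1 - b) * (1 - q) = (1 - q) * (1 - b) := by
        rw [show (1 - b) * (1 - q) = 1 - q - b + b * q by noncomm_ring, hbq]
        noncomm_ring
      rw [← c1, ← c2, ← mul_assoc, ← mul_assoc, ← e1, ← e2, hv]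
      noncomm_ring
    have n1 : ‖(cfc h1 b * (q * (1 - b))) T.Ω‖ ≤ 4 / 3 * ‖(b - 1) T.Ω‖ := by
      refine (T.norm_mul_le _ _).trans ?_
      refine mul_le_mul (norm_cfc_le (by norm_num) fun t _ => h1_le t) ?_ (norm_nonneg _)
        (by norm_num)
      refine (T.norm_mul_le _ _).trans ?_
      have : ‖(1 - b) T.Ω‖ = ‖(b - 1) T.Ω‖ := by
        rw [← norm_neg]; simp
      rw [this]
      exact mul_le_of_le_one_left (norm_nonneg _) hqp.norm_le
    have n2 : ‖(cfc h2 b * ((1 - q) * (1 - b))) T.Ω‖ ≤ 4 / 3 * ‖(b - 1) T.Ω‖ := by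
      refine (T.norm_mul_le _ _).trans ?_
      refine mul_le_mul (norm_cfc_le (by norm_num) fun t _ => h2_le t) ?_ (norm_nonneg _)
        (by norm_num)
      refine (T.norm_mul_le _ _).trans ?_
      have : ‖(1 - b) T.Ω‖ = ‖(b - 1) T.Ω‖ := by
        rw [← norm_neg]; simp
      rw [this]
      exact mul_le_of_le_one_left (norm_nonneg _) hqp.one_sub.norm_le
    rw [e3]
    refine (T.norm_mul_le _ _).trans ?_
    refine (mul_le_of_le_one_left (norm_nonneg _) hx1).trans ?_
    rw [_root_.sub_apply]
    refine (norm_sub_le _ _).trans ?_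
    linarith
  have hsmall : ‖(1 - q) T.Ω‖ ≤ 4 / 3 * ‖(b - 1) T.Ω‖ := by
    have e2 : 1 - q = cfc h2 b * ((1 - q) * (1 - b)) := by
      have h := hq2 (fun t => 1 - h2 t * (1 - t)) (by have := cont_h2; fun_prop) (by
        intro t ht
        have h0 : min t (1 / 4) = t := min_eq_left ht
        simp only [h2, h0]
        have : (1 : ℝ) - t ≠ 0 := by linarith
        field_simp
        ring)
      rw [cfc_sub (fun _ => (1 : ℝ)) (fun t => h2 t * (1 - t)) b continuousOn_const
        (by have := cont_h2; fun_prop),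
        cfc_mul h2 (fun t => 1 - t) b cont_h2.continuousOn (by fun_prop),
        cfc_sub (fun _ => (1 : ℝ)) (fun t => t) b continuousOn_const continuousOn_id,
        cfc_const_one ℝ b, cfc_id' ℝ b hbsa] at h
      have h' : (1 - cfc h2 b * (1 - b)) * (1 - q) = 0 := by
        rw [mul_sub, mul_one, h, sub_self]
      have h'' : (1 - q) - cfc h2 b * ((1 - b) * (1 - q)) = 0 := by
        rw [← h']; noncomm_ring
      have c1 : (1 - b) * q = q * (1 - b) := by rw [sub_mul, mul_sub, one_mul, mul_one, hbq]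
      have c2 : (1 - b) * (1 - q) = (1 - q) * (1 - b) := by
        rw [show (1 - b) * (1 - q) = 1 - q - b + b * q by noncomm_ring, hbq]
        noncomm_ring
      rw [c2] at h''
      exact sub_eq_zero.1 h''
    rw [e2]
    refine (T.norm_mul_le _ _).trans ?_
    refine mul_le_mul (norm_cfc_le (by norm_num) fun t _ => h2_le t) ?_ (norm_nonneg _)
      (by norm_num)
    refine (T.norm_mul_le _ _).trans ?_
    have : ‖(1 - b) T.Ω‖ = ‖(b - 1) T.Ω‖ := by
      rw [← norm_neg]; simp
    rw [this]
    exact mul_le_of_le_one_left (norm_nonneg _) hqp.one_sub.norm_le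
  -- the complementary partial isometry
  have hvq : v * q = v := PartConj.mul_init hqp hvv
  set f := v * star v with hf
  have hfS : f ∈ T.S := mul_mem hvS (star_mem hvS)
  have hfp : IsStarProjection f := by
    refine ⟨?_, ?_⟩
    · change f * f = f
      rw [hf, mul_assoc, ← mul_assoc (star v), hvv]
      rw [← mul_assoc, hvq]
    · rw [hf]; exact IsSelfAdjoint.mul_star_self v
  have hnorm : ‖(1 - q) T.Ω‖ = ‖(1 - f) T.Ω‖ := by
    have t1 := T.tr_proj hqp.one_sub
    have t2 := T.tr_proj hfp.one_sub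
    have t3 : T.tr q = T.tr f := by rw [← hvv, hf, T.tr_mul_comm (star_mem hvS) hvS]
    rw [T.tr_sub, t3, ← T.tr_sub, t2] at t1
    have t4 : ‖(1 - f) T.Ω‖ ^ 2 = ‖(1 - q) T.Ω‖ ^ 2 := by exact_mod_cast t1
    exact ((sq_eq_sq₀ (norm_nonneg _) (norm_nonneg _)).1 t4).symm
  obtain ⟨v', hv'S, hv'1, hv'2⟩ := hC H T hT (1 - q) (sub_mem (one_mem _) hq) (1 - f)
    (sub_mem (one_mem _) hfS) hqp.one_sub hfp.one_sub hnorm
  have r1 : v' * (1 - q) = v' := PartConj.mul_init hqp.one_sub hv'1
  have r2 : (1 - f) * v' = v' := PartConj.fin_mul hfp.one_sub hv'2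
  have r3 : f * v = v := PartConj.fin_mul hfp hf.symm
  have r4 : star v * f = star v := by
    have := congrArg star r3
    rwa [star_mul, hfp.isSelfAdjoint.star_eq] at this
  have o1 : star v * v' = 0 := by
    rw [← r4, ← r2, mul_assoc, ← mul_assoc f, mul_sub, mul_one, hfp.isIdempotentElem.eq, sub_self]
    simp
  have o2 : v * star v' = 0 := by
    have r5 : (1 - q) * star v' = star v' := by
      have := congrArg star r1
      rwa [star_mul, hqp.one_sub.isSelfAdjoint.star_eq] at this
    rw [← hvq, ← r5, mul_assoc, ← mul_assoc q, mul_sub, mul_one, hqq, sub_self]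
    simp
  have o1' : star v' * v = 0 := by
    have := congrArg star o1
    rwa [star_mul, star_star, star_zero] at this
  have o2' : v' * star v = 0 := by
    have := congrArg star o2
    rwa [star_mul, star_star, star_zero] at this
  refine ⟨v + v', add_mem hvS hv'S, ?_, ?_⟩
  · rw [Unitary.mem_iff]
    constructor
    · rw [star_add, add_mul, mul_add, mul_add, hvv, hv'1, o1, o1']
      simp
    · rw [star_add, add_mul, mul_add, mul_add, hv'2, o2, o2']
      rw [← hf]
      simp
  · have n3 : ‖v' T.Ω‖ = ‖(1 - q) T.Ω‖ := by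
      have t1 := T.tr_star_mul_self v'
      rw [hv'1, T.tr_proj hqp.one_sub] at t1
      have t4 : ‖(1 - q) T.Ω‖ ^ 2 = ‖v' T.Ω‖ ^ 2 := by exact_mod_cast t1
      exact ((sq_eq_sq₀ (norm_nonneg _) (norm_nonneg _)).1 t4).symm
    have e4 : (v + v' - x) T.Ω = (v - x) T.Ω + v' T.Ω := by
      simp only [_root_.add_apply, _root_.sub_apply]
      abel
    rw [e4]
    refine (norm_add_le _ _).trans ?_
    rw [n3]
    linarith

end Pool.Agent.OS
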