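import Pool.Agent.OS.Amp
import Pool.Agent.OS.Avg
import Pool.Agent.OS.Compare
import Pool.Agent.OS.Core
import Pool.Agent.OS.Corner
import Pool.Agent.OS.CornerCore
import Pool.Agent.OS.Diff
import Pool.Agent.OS.Divide
import Pool.Agent.OS.General
import Pool.Agent.OS.Indep
import Pool.Agent.OS.Inter
import Pool.Agent.OS.J1
import Pool.Agent.OS.J3
import Pool.Agent.OS.Main
import Pool.Agent.OS.NearProj
import Pool.Agent.OS.NonscalarProj
import Pool.Agent.OS.OfVN
import Pool.Agent.OS.P0
import Pool.Agent.OS.PIso
import Pool.Agent.OS.PartConj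
import Pool.Agent.OS.PartLift
import Pool.Agent.OS.PartNoMin
import Pool.Agent.OS.Perturb
import Pool.Agent.OS.QA
import Pool.Agent.OS.QB
import Pool.Agent.OS.QE
import Pool.Agent.OS.Riesz
import Pool.Agent.OS.SpanProj
import Pool.Agent.OS.Spec
import Pool.Agent.OS.Tom
import Pool.Agent.OS.Tower
import Pool.Agent.OS.Ultra
import Pool.Agent.OS.UniLift
import Pool.Agent.OS.UnitNear

set_option autoImplicit false

/-!
# All modules combined
-/

namespace Pool.Agent.OS.All

universe u

theorem spec : Stmt_Spec.{u} := spec_proof
theorem avg : Stmt_Avg.{u} := avg_proof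
theorem riesz : Stmt_Riesz.{u} := riesz_proof
theorem ofVN : Stmt_OfVN.{u} := ofVN_proof
theorem divide : Stmt_Divide.{u} := divide_proof
theorem p0 : Stmt_P0.{u} := p0_proof
theorem corner : Stmt_Corner.{u} := corner_proof
theorem inter : Stmt_Inter.{u} := inter_proof
theorem ultra : Stmt_Ultra.{u} := ultra_proof
theorem nearProj : Stmt_NearProj.{u} := nearProj_proof spec
theorem nonscalarProj : Stmt_NonscalarProj.{u} := nonscalarProj_proof spec
theorem spanProj : Stmt_SpanProj.{u} := spanProj_proof spec
theorem pIso : Stmt_PIso.{u} := pIso_proof spec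
theorem compare : Stmt_Compare.{u} := compare_proof avg pIso
theorem partConj : Stmt_PartConj.{u} := partConj_proof compare
theorem unitNear : Stmt_UnitNear.{u} := unitNear_proof spec compare
theorem uniLift : Stmt_UniLift.{u} := uniLift_proof unitNear
theorem partLift : Stmt_PartLift.{u} := partLift_proof nearProj
theorem partNoMin : Stmt_PartNoMin.{u} := partNoMin_proof spec
theorem indep : Stmt_Indep.{u} := indep_proof avg
theorem tower : Stmt_Tower.{u} := tower_proof p0 nearProj indep
theorem qA : Stmt_QA.{u} := qA_proof partConj uniLift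
theorem qB : Stmt_QB.{u} := qB_proof nonscalarProj partLift avg p0 nearProj
theorem qE : Stmt_QE.{u} := qE_proof avg pIso divide partLift
theorem core : Stmt_Core.{u} := core_proof qB qA qE inter tower ultra
theorem cornerCore : Stmt_CornerCore.{u} := cornerCore_proof corner core nonscalarProj
theorem general : Stmt_General.{u} := general_proof cornerCore
theorem diff : Stmt_Diff.{u} := diff_proof nearProj
theorem tom : Stmt_Tom.{u} := tom_proof spanProj
theorem amp : Stmt_Amp.{u} := amp_proof riesz ofVN
theorem j1 : Stmt_J1.{u} := j1_proof tom amp ofVN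
theorem j3 : Stmt_J3.{u} := j3_proof riesz ofVN
theorem perturb : Stmt_Perturb.{u} := perturb_proof j1 j3
theorem main : Stmt_Main.{u} := main_proof perturb general ofVN diff partNoMin

end Pool.Agent.OS.All
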