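import Pool.Agent.OS.Stmts
import Pool.Agent.OS.Basic

set_option autoImplicit false

/-!
# Amp: the amplification
-/

open Filter Topology
open scoped InnerProductSpace

namespace Pool.Agent.OS

universe u

namespace Amp

variable {H : Type u} [NormedAddCommGroup H] [InnerProductSpace ℂ H] [CompleteSpace H]

/-! ### finite sums -/

/-- families of operators `y` whose adjoints have range in `L`, with `∑ y y* ≤ 1` -/
structure Good (P : VonNeumannAlgebra H) (L : Submodule ℂ H) (I : Set (H →L[ℂ] H)) : Prop where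
  comm : ∀ y ∈ I, y ∈ P.commutant
  ran : ∀ y ∈ I, ∀ ξ : H, (star y) ξ ∈ L
  sum : ∀ F : Finset (H →L[ℂ] H), (∀ y ∈ F, y ∈ I) → ∀ ξ : H,
    ∑ y ∈ F, ‖(star y) ξ‖ ^ 2 ≤ ‖ξ‖ ^ 2

theorem star_inner (y : H →L[ℂ] H) (ξ ζ : H) : ⟪(star y) ξ, ζ⟫_ℂ = ⟪ξ, y ζ⟫_ℂ := by
  rw [ContinuousLinearMap.star_eq_adjoint, ContinuousLinearMap.adjoint_inner_left]

theorem inner_star' (y : H →L[ℂ] H) (ξ ζ : H) : ⟪ξ, (star y) ζ⟫_ℂ = ⟪y ξ, ζ⟫_ℂ := by
  rw [ContinuousLinearMap.star_eq_adjoint, ContinuousLinearMap.adjoint_inner_right]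

theorem sum_bound {P : VonNeumannAlgebra H} {L : Submodule ℂ H} {I : Set (H →L[ℂ] H)}
    (hI : Good P L I) (F : Finset I) (u : I → H) :
    ‖∑ y ∈ F, (y : H →L[ℂ] H) (u y)‖ ^ 2 ≤ ∑ y ∈ F, ‖u y‖ ^ 2 := by
  set s := ∑ y ∈ F, (y : H →L[ℂ] H) (u y) with hs
  have h1 : ‖s‖ ^ 2 ≤ ∑ y ∈ F, ‖u y‖ * ‖(star (y : H →L[ℂ] H)) s‖ := by
    have e1 : ((‖s‖ ^ 2 : ℝ) : ℂ) = ∑ y ∈ F, ⟪(star (y : H →L[ℂ] H)) s, u y⟫_ℂ := by
      have : ⟪s, s⟫_ℂ = ∑ y ∈ F, ⟪(star (y : H →L[ℂ] H)) s, u y⟫_ℂ := by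
        conv_lhs => rw [hs]
        rw [← hs, inner_sum]
        apply Finset.sum_congr rfl
        intro y _
        rw [star_inner]
      rw [← this, inner_self_eq_norm_sq_to_K]
      norm_cast
    have e2 : ‖((‖s‖ ^ 2 : ℝ) : ℂ)‖ = ‖s‖ ^ 2 := by
      rw [Complex.norm_real, Real.norm_eq_abs, abs_of_nonneg (by positivity)]
    rw [← e2, e1]
    refine (norm_sum_le _ _).trans (Finset.sum_le_sum ?_)
    intro y _
    refine (norm_inner_le_norm _ _).trans (le_of_eq (mul_comm _ _))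
  have h2 : ∑ y ∈ F, ‖(star (y : H →L[ℂ] H)) s‖ ^ 2 ≤ ‖s‖ ^ 2 := by
    have := hI.sum (F.map (Function.Embedding.subtype _)) (by
      intro y hy
      rw [Finset.mem_map] at hy
      obtain ⟨z, _, rfl⟩ := hy
      exact z.2) s
    rw [Finset.sum_map] at this
    exact this
  have h3 : (∑ y ∈ F, ‖u y‖ * ‖(star (y : H →L[ℂ] H)) s‖) ^ 2
      ≤ (∑ y ∈ F, ‖u y‖ ^ 2) * ∑ y ∈ F, ‖(star (y : H →L[ℂ] H)) s‖ ^ 2 :=
    Finset.sum_mul_sq_le_sq_mul_sq _ _ _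
  have h4 : 0 ≤ ∑ y ∈ F, ‖u y‖ ^ 2 := Finset.sum_nonneg (fun _ _ => by positivity)
  by_cases h0 : ‖s‖ ^ 2 = 0
  · rw [h0]; exact h4
  · have h5 : 0 < ‖s‖ ^ 2 := lt_of_le_of_ne (by positivity) (Ne.symm h0)
    have h6 : (‖s‖ ^ 2) ^ 2 ≤ (∑ y ∈ F, ‖u y‖ ^ 2) * ‖s‖ ^ 2 := by
      calc (‖s‖ ^ 2) ^ 2 ≤ (∑ y ∈ F, ‖u y‖ * ‖(star (y : H →L[ℂ] H)) s‖) ^ 2 :=
            pow_le_pow_left₀ h5.le h1 2
        _ ≤ _ := h3
        _ ≤ _ := by gcongr
    rw [sq (‖s‖ ^ 2)] at h6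
    exact le_of_mul_le_mul_right h6 h5

theorem summable_sq {P : VonNeumannAlgebra H} {L : Submodule ℂ H} {I : Set (H →L[ℂ] H)}
    (hI : Good P L I) (ξ : H) : Summable (fun y : I => ‖(star (y : H →L[ℂ] H)) ξ‖ ^ 2) := by
  apply summable_of_sum_le (c := ‖ξ‖ ^ 2)
  · intro y
    positivity
  · intro F
    have := hI.sum (F.map (Function.Embedding.subtype _)) (by
      intro y hy
      rw [Finset.mem_map] at hy
      obtain ⟨z, _, rfl⟩ := hy
      exact z.2) ξ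
    rw [Finset.sum_map] at this
    exact this

theorem term_le (T y : H →L[ℂ] H) (ξ : H) :
    ‖T ((star y) ξ)‖ ^ 2 ≤ ‖T‖ ^ 2 * ‖(star y) ξ‖ ^ 2 := by
  rw [← mul_pow]
  exact pow_le_pow_left₀ (norm_nonneg _) (T.le_opNorm _) 2

theorem summable_op {P : VonNeumannAlgebra H} {L : Submodule ℂ H} {I : Set (H →L[ℂ] H)}
    (hI : Good P L I) (T : H →L[ℂ] H) (ξ : H) :
    Summable (fun y : I => (y : H →L[ℂ] H) (T ((star (y : H →L[ℂ] H)) ξ))) := by
  rw [summable_iff_vanishing_norm]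
  intro ε hε
  have h1 := (summable_sq hI ξ).mul_left (‖T‖ ^ 2)
  rw [summable_iff_vanishing_norm] at h1
  obtain ⟨s, hs⟩ := h1 (ε ^ 2) (by positivity)
  refine ⟨s, fun t ht => ?_⟩
  have h2 := hs t ht
  rw [Real.norm_eq_abs] at h2
  have h3 := sum_bound hI t (fun y => T ((star (y : H →L[ℂ] H)) ξ))
  have h4 : ∑ y ∈ t, ‖T ((star (y : H →L[ℂ] H)) ξ)‖ ^ 2
      ≤ ∑ y ∈ t, ‖T‖ ^ 2 * ‖(star (y : H →L[ℂ] H)) ξ‖ ^ 2 :=
    Finset.sum_le_sum (fun y _ => term_le T y ξ)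
  have h5 := le_abs_self (∑ y ∈ t, ‖T‖ ^ 2 * ‖(star (y : H →L[ℂ] H)) ξ‖ ^ 2)
  exact lt_of_pow_lt_pow_left₀ 2 hε.le (by linarith)

theorem norm_tsum_le {P : VonNeumannAlgebra H} {L : Submodule ℂ H} {I : Set (H →L[ℂ] H)}
    (hI : Good P L I) (T : H →L[ℂ] H) (ξ : H) :
    ‖∑' y : I, (y : H →L[ℂ] H) (T ((star (y : H →L[ℂ] H)) ξ))‖ ≤ ‖T‖ * ‖ξ‖ := by
  have h1 : Tendsto (fun F : Finset I => ‖∑ y ∈ F, (y : H →L[ℂ] H)
      (T ((star (y : H →L[ℂ] H)) ξ))‖) atTop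
      (𝓝 ‖∑' y : I, (y : H →L[ℂ] H) (T ((star (y : H →L[ℂ] H)) ξ))‖) :=
    (summable_op hI T ξ).hasSum.norm
  apply le_of_tendsto h1
  filter_upwards with F
  have h3 := sum_bound hI F (fun y => T ((star (y : H →L[ℂ] H)) ξ))
  have h4 : ∑ y ∈ F, ‖T ((star (y : H →L[ℂ] H)) ξ)‖ ^ 2
      ≤ ∑ y ∈ F, ‖T‖ ^ 2 * ‖(star (y : H →L[ℂ] H)) ξ‖ ^ 2 :=
    Finset.sum_le_sum (fun y _ => term_le T y ξ)
  have h5 : ∑ y ∈ F, ‖(star (y : H →L[ℂ] H)) ξ‖ ^ 2 ≤ ‖ξ‖ ^ 2 := by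
    have := hI.sum (F.map (Function.Embedding.subtype _)) (by
      intro y hy
      rw [Finset.mem_map] at hy
      obtain ⟨z, _, rfl⟩ := hy
      exact z.2) ξ
    rw [Finset.sum_map] at this
    exact this
  rw [← Finset.mul_sum] at h4
  have h6 : ‖T‖ ^ 2 * ∑ y ∈ F, ‖(star (y : H →L[ℂ] H)) ξ‖ ^ 2 ≤ ‖T‖ ^ 2 * ‖ξ‖ ^ 2 := by gcongr
  have h7 : ‖∑ y ∈ F, (y : H →L[ℂ] H) (T ((star (y : H →L[ℂ] H)) ξ))‖ ^ 2
      ≤ (‖T‖ * ‖ξ‖) ^ 2 := by
    rw [mul_pow]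
    linarith
  exact le_of_sq_le_sq h7 (by positivity)

/-- the operator `∑ y T y*` -/
noncomputable def Psi {P : VonNeumannAlgebra H} {L : Submodule ℂ H} {I : Set (H →L[ℂ] H)}
    (hI : Good P L I) (T : H →L[ℂ] H) : H →L[ℂ] H :=
  LinearMap.mkContinuous
    { toFun := fun ξ => ∑' y : I, (y : H →L[ℂ] H) (T ((star (y : H →L[ℂ] H)) ξ))
      map_add' := by
        intro ξ ζ
        rw [← (summable_op hI T ξ).tsum_add (summable_op hI T ζ)]
        congr 1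
        ext y
        simp only [map_add]
      map_smul' := by
        intro c ξ
        rw [RingHom.id_apply, ← (summable_op hI T ξ).tsum_const_smul c]
        congr 1
        ext y
        simp only [map_smul] }
    ‖T‖ (fun ξ => norm_tsum_le hI T ξ)

theorem Psi_apply {P : VonNeumannAlgebra H} {L : Submodule ℂ H} {I : Set (H →L[ℂ] H)}
    (hI : Good P L I) (T : H →L[ℂ] H) (ξ : H) :
    Psi hI T ξ = ∑' y : I, (y : H →L[ℂ] H) (T ((star (y : H →L[ℂ] H)) ξ)) := rfl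

/-- linear version -/
noncomputable def Phi {P : VonNeumannAlgebra H} {L : Submodule ℂ H} {I : Set (H →L[ℂ] H)}
    (hI : Good P L I) : (H →L[ℂ] H) →ₗ[ℂ] (H →L[ℂ] H) where
  toFun := Psi hI
  map_add' := by
    intro S T
    ext ξ
    rw [_root_.add_apply, Psi_apply, Psi_apply, Psi_apply,
      ← (summable_op hI S ξ).tsum_add (summable_op hI T ξ)]
    congr 1
    ext y
    simp only [_root_.add_apply, map_add]
  map_smul' := by
    intro c T
    ext ξ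
    rw [RingHom.id_apply, _root_.smul_apply, Psi_apply, Psi_apply,
      ← (summable_op hI T ξ).tsum_const_smul c]
    congr 1
    ext y
    simp only [_root_.smul_apply, map_smul]

theorem Phi_apply {P : VonNeumannAlgebra H} {L : Submodule ℂ H} {I : Set (H →L[ℂ] H)}
    (hI : Good P L I) (T : H →L[ℂ] H) (ξ : H) :
    Phi hI T ξ = ∑' y : I, (y : H →L[ℂ] H) (T ((star (y : H →L[ℂ] H)) ξ)) := rfl

theorem Phi_bimod {P : VonNeumannAlgebra H} {L : Submodule ℂ H} {I : Set (H →L[ℂ] H)}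
    (hI : Good P L I) (x : H →L[ℂ] H) (hx : x ∈ P) (T : H →L[ℂ] H) :
    Phi hI (x * T) = x * Phi hI T ∧ Phi hI (T * x) = Phi hI T * x := by
  have hc : ∀ y ∈ I, ∀ ξ, y (x ξ) = x (y ξ) := by
    intro y hy ξ
    have h1 := VonNeumannAlgebra.mem_commutant_iff.mp (hI.comm y hy) x hx
    exact (congrArg (fun S : H →L[ℂ] H => S ξ) h1).symm
  have hc' : ∀ y ∈ I, ∀ ξ, (star y) (x ξ) = x ((star y) ξ) := by
    intro y hy ξ
    have h1 := VonNeumannAlgebra.mem_commutant_iff.mp (star_mem (hI.comm y hy)) x hx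
    exact (congrArg (fun S : H →L[ℂ] H => S ξ) h1).symm
  constructor
  · ext ξ
    rw [mul_apply_eq_comp, Phi_apply, Phi_apply,
      (x : H →L[ℂ] H).map_tsum (summable_op hI T ξ)]
    congr 1
    ext y
    rw [mul_apply_eq_comp, hc y.1 y.2]
  · ext ξ
    rw [mul_apply_eq_comp, Phi_apply, Phi_apply]
    congr 1
    ext y
    rw [mul_apply_eq_comp, hc' y.1 y.2]

theorem Phi_pos {P : VonNeumannAlgebra H} {L : Submodule ℂ H} {I : Set (H →L[ℂ] H)}
    (hI : Good P L I) (T : H →L[ℂ] H) : (Phi hI (star T * T)).IsPositive := by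
  rw [ContinuousLinearMap.isPositive_iff_complex]
  intro ξ
  have h1 : ⟪ξ, Phi hI (star T * T) ξ⟫_ℂ
      = ∑' y : I, ((‖T ((star (y : H →L[ℂ] H)) ξ)‖ ^ 2 : ℝ) : ℂ) := by
    rw [Phi_apply]
    have h2 := (summable_op hI (star T * T) ξ)
    have h3 : ⟪ξ, ∑' y : I, (y : H →L[ℂ] H) ((star T * T) ((star (y : H →L[ℂ] H)) ξ))⟫_ℂ
        = ∑' y : I, ⟪ξ, (y : H →L[ℂ] H) ((star T * T) ((star (y : H →L[ℂ] H)) ξ))⟫_ℂ :=
      (innerSL ℂ ξ).map_tsum h2
    rw [h3]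
    congr 1
    ext y
    rw [← star_inner, mul_apply_eq_comp, inner_star', inner_self_eq_norm_sq_to_K]
    norm_cast
  have h4 : ⟪Phi hI (star T * T) ξ, ξ⟫_ℂ
      = ((∑' y : I, ‖T ((star (y : H →L[ℂ] H)) ξ)‖ ^ 2 : ℝ) : ℂ) := by
    rw [← inner_conj_symm, h1, ← Complex.ofReal_tsum, Complex.conj_ofReal]
  rw [h4]
  refine ⟨by simp, ?_⟩
  have : 0 ≤ ∑' y : I, ‖T ((star (y : H →L[ℂ] H)) ξ)‖ ^ 2 := tsum_nonneg (fun _ => by positivity)
  simpa using this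

theorem inner_Phi_one {P : VonNeumannAlgebra H} {L : Submodule ℂ H} {I : Set (H →L[ℂ] H)}
    (hI : Good P L I) (ξ : H) :
    ⟪ξ, Phi hI 1 ξ⟫_ℂ = ((∑' y : I, ‖(star (y : H →L[ℂ] H)) ξ‖ ^ 2 : ℝ) : ℂ) := by
  rw [Phi_apply]
  have h2 := (summable_op hI 1 ξ)
  have h3 : ⟪ξ, ∑' y : I, (y : H →L[ℂ] H) ((1 : H →L[ℂ] H) ((star (y : H →L[ℂ] H)) ξ))⟫_ℂ
      = ∑' y : I, ⟪ξ, (y : H →L[ℂ] H) ((1 : H →L[ℂ] H) ((star (y : H →L[ℂ] H)) ξ))⟫_ℂ :=
    (innerSL ℂ ξ).map_tsum h2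
  rw [h3, Complex.ofReal_tsum]
  congr 1
  ext y
  rw [← star_inner, one_apply_eq_self, inner_self_eq_norm_sq_to_K]
  norm_cast

/-! ### a maximal family -/

theorem exists_maximal (P : VonNeumannAlgebra H) (L : Submodule ℂ H) :
    ∃ I : Set (H →L[ℂ] H), Good P L I ∧ ∀ J, Good P L J → I ⊆ J → J = I := by
  have h := zorn_subset {I : Set (H →L[ℂ] H) | Good P L I} (by
    intro c hc hchain
    refine ⟨⋃₀ c, ?_, fun s hs => Set.subset_sUnion_of_mem hs⟩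
    refine ⟨?_, ?_, ?_⟩
    · rintro y ⟨s, hs, hy⟩
      exact (hc hs).comm y hy
    · rintro y ⟨s, hs, hy⟩
      exact (hc hs).ran y hy
    · intro F hF ξ
      by_cases hne : c.Nonempty
      · obtain ⟨s, hs, hFs⟩ := DirectedOn.exists_mem_subset_of_finset_subset_biUnion
          (α := H →L[ℂ] H) (ι := Set (H →L[ℂ] H)) (f := id) (c := c) hne
          (by
            intro a ha b hb
            rcases hchain.total ha hb with h | h
            · exact ⟨b, hb, h, subset_rfl⟩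
            · exact ⟨a, ha, subset_rfl, h⟩)
          (s := F) (by
            intro y hy
            obtain ⟨s, hs, hys⟩ := hF y hy
            exact Set.mem_biUnion hs hys)
        exact (hc hs).sum F (fun y hy => hFs hy) ξ
      · rw [Set.not_nonempty_iff_eq_empty] at hne
        have : F = ∅ := by
          rw [Finset.eq_empty_iff_forall_notMem]
          intro y hy
          obtain ⟨s, hs, _⟩ := hF y hy
          rw [hne] at hs
          exact hs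
        rw [this, Finset.sum_empty]
        positivity)
  obtain ⟨I, hI⟩ := h
  refine ⟨I, hI.prop, fun J hJ hIJ => ?_⟩
  exact (hI.eq_of_subset hJ hIJ).symm

/-! ### density of the orbit of the commutant -/

theorem sep_M (M : VonNeumannAlgebra H) (Ω : H) (h : IsII1 M Ω) (x : H →L[ℂ] H) (hx : x ∈ M)
    (h0 : x Ω = 0) : x = 0 := by
  have h1 : ∀ y ∈ M, x (y Ω) = 0 := by
    intro y hy
    have h2 := h.trace (star y * star x * x) (mul_mem (mul_mem (star_mem hy) (star_mem hx)) hx)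
      y hy
    have h3 : (star y * star x * x) Ω = 0 := by
      rw [mul_apply_eq_comp, h0, map_zero]
    rw [h3, map_zero, inner_zero_right] at h2
    have h4 : (star y * star x * x) (y Ω) = (star y) ((star x) (x (y Ω))) := rfl
    rw [h4, inner_star', inner_star'] at h2
    exact inner_self_eq_zero.mp h2
  ext ξ
  have h5 : Set.EqOn (fun ξ => x ξ) (fun _ => (0 : H)) {ξ : H | ∃ y ∈ M, ξ = y Ω} := by
    rintro ξ ⟨y, hy, rfl⟩
    exact h1 y hy
  have h6 := Continuous.ext_on h.cyclic x.continuous continuous_const h5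
  exact congrFun h6 ξ

/-- orbit of a vector under a von Neumann algebra -/
noncomputable def orb (P : VonNeumannAlgebra H) (Ω : H) : Submodule ℂ H :=
  LinearMap.range ((ContinuousLinearMap.apply ℂ H Ω).toLinearMap.comp
    (Subalgebra.toSubmodule P.toStarSubalgebra.toSubalgebra).subtype)

theorem mem_orb (P : VonNeumannAlgebra H) (Ω : H) (ξ : H) : ξ ∈ orb P Ω ↔ ∃ y ∈ P, y Ω = ξ := by
  unfold orb
  rw [LinearMap.mem_range]
  constructor
  · rintro ⟨y, hy⟩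
    exact ⟨y.1, y.2, hy⟩
  · rintro ⟨y, hy, h⟩
    exact ⟨⟨y, hy⟩, h⟩

/-- the closure of the orbit -/
noncomputable def cl (P : VonNeumannAlgebra H) (Ω : H) : Submodule ℂ H :=
  (orb P Ω).topologicalClosure

instance (P : VonNeumannAlgebra H) (Ω : H) : CompleteSpace (cl P Ω) :=
  (Submodule.isClosed_topologicalClosure _).completeSpace_coe

theorem vec_mem (P : VonNeumannAlgebra H) (Ω : H) : Ω ∈ cl P Ω :=
  Submodule.le_topologicalClosure _ ((mem_orb P Ω _).mpr ⟨1, one_mem _, rfl⟩)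

theorem cl_inv (P : VonNeumannAlgebra H) (Ω : H) (x : H →L[ℂ] H) (hx : x ∈ P) (ξ : H)
    (hξ : ξ ∈ cl P Ω) : x ξ ∈ cl P Ω := by
  have h1 : ξ ∈ closure (orb P Ω : Set H) := hξ
  have h2 : x ξ ∈ closure (orb P Ω : Set H) := by
    apply map_mem_closure x.continuous h1
    intro ζ hζ
    obtain ⟨y, hy, rfl⟩ := (mem_orb P Ω ζ).mp hζ
    exact (mem_orb P Ω _).mpr ⟨x * y, mul_mem hx hy, rfl⟩
  exact h2

/-- the projection onto the closure of the orbit is in the commutant -/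
theorem proj_mem (P : VonNeumannAlgebra H) (Ω : H) :
    (cl P Ω).starProjection ∈ P.commutant := by
  rw [VonNeumannAlgebra.IsStarProjection.mem_iff isStarProjection_starProjection]
  intro y hy
  rw [VonNeumannAlgebra.commutant_commutant] at hy
  rw [Submodule.range_starProjection, Module.End.mem_invtSubmodule]
  intro ξ hξ
  exact cl_inv P Ω y hy ξ hξ

theorem dense_comm (M : VonNeumannAlgebra H) (Ω : H) (h : IsII1 M Ω) :
    cl M.commutant Ω = ⊤ := by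
  have h1 := proj_mem M.commutant Ω
  rw [VonNeumannAlgebra.commutant_commutant] at h1
  have h2 : 1 - (cl M.commutant Ω).starProjection = 0 := by
    apply sep_M M Ω h _ (sub_mem (one_mem _) h1)
    rw [_root_.sub_apply, one_apply_eq_self,
      Submodule.starProjection_eq_self_iff.mpr (vec_mem _ _), sub_self]
  rw [eq_top_iff]
  intro ξ _
  rw [← Submodule.starProjection_eq_self_iff, ← sub_eq_zero.mp h2, one_apply_eq_self]

/-! ### a maximal family sums up to `1` -/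

theorem phi_one (M P : VonNeumannAlgebra H) (Ω : H) (h : IsII1 M Ω) (hP : P ≤ M)
    (I : Set (H →L[ℂ] H)) (hI : Good P (cl P Ω) I)
    (hmax : ∀ J, Good P (cl P Ω) J → I ⊆ J → J = I) : Phi hI 1 = 1 := by
  classical
  set R := Phi hI 1 with hR
  -- commutation
  have hRc : ∀ x ∈ P, Commute R x := by
    intro x hx
    have h1 := Phi_bimod hI x hx 1
    rw [mul_one, one_mul] at h1
    exact h1.2.symm.trans h1.1
  have hRin : ∀ ξ, ⟪ξ, R ξ⟫_ℂ = ((∑' y : I, ‖(star (y : H →L[ℂ] H)) ξ‖ ^ 2 : ℝ) : ℂ) :=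
    fun ξ => inner_Phi_one hI ξ
  set A := 1 - R with hA
  have hAc : ∀ x ∈ P, Commute A x := fun x hx => (Commute.one_left x).sub_left (hRc x hx)
  have hAin : ∀ ξ, ⟪A ξ, ξ⟫_ℂ
      = ((‖ξ‖ ^ 2 - ∑' y : I, ‖(star (y : H →L[ℂ] H)) ξ‖ ^ 2 : ℝ) : ℂ) := by
    intro ξ
    have e1 : ⟪ξ, ξ⟫_ℂ = ((‖ξ‖ ^ 2 : ℝ) : ℂ) := by
      rw [inner_self_eq_norm_sq_to_K]
      norm_cast
    rw [← inner_conj_symm, hA, _root_.sub_apply, one_apply_eq_self, inner_sub_right, hRin,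
      e1, map_sub, Complex.conj_ofReal, Complex.conj_ofReal, ← Complex.ofReal_sub]
  have htsum : ∀ ξ, ∑' y : I, ‖(star (y : H →L[ℂ] H)) ξ‖ ^ 2 ≤ ‖ξ‖ ^ 2 := by
    intro ξ
    apply (summable_sq hI ξ).tsum_le_of_sum_le
    intro F
    have := hI.sum (F.map (Function.Embedding.subtype _)) (by
      intro y hy
      rw [Finset.mem_map] at hy
      obtain ⟨z, _, rfl⟩ := hy
      exact z.2) ξ
    rw [Finset.sum_map] at this
    exact this
  have hApos : A.IsPositive := by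
    rw [ContinuousLinearMap.isPositive_iff_complex]
    intro ξ
    rw [hAin ξ]
    refine ⟨by rw [RCLike.re_eq_complex_re, Complex.ofReal_re], ?_⟩
    have := htsum ξ
    rw [RCLike.re_eq_complex_re, Complex.ofReal_re]
    linarith
  have hA0 : 0 ≤ A := (ContinuousLinearMap.nonneg_iff_isPositive A).mpr hApos
  have hAsa : IsSelfAdjoint A := hApos.isSelfAdjoint
  set B := cfc Real.sqrt A with hB
  have hBsa : IsSelfAdjoint B := cfc_predicate _ _
  have hBB : B * B = A := by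
    rw [hB, ← cfc_mul Real.sqrt Real.sqrt A (by fun_prop) (by fun_prop)]
    conv_rhs => rw [← cfc_id' ℝ A]
    apply cfc_congr
    intro t ht
    exact Real.mul_self_sqrt (spectrum_nonneg_of_nonneg hA0 ht)
  have hBc : ∀ x ∈ P, Commute B x := fun x hx => (hAc x hx).cfc_real _
  have hBn : ∀ ξ, ‖B ξ‖ ^ 2 = ‖ξ‖ ^ 2 - ∑' y : I, ‖(star (y : H →L[ℂ] H)) ξ‖ ^ 2 := by
    intro ξ
    have h1 : ((‖B ξ‖ ^ 2 : ℝ) : ℂ) = ⟪A ξ, ξ⟫_ℂ := by
      rw [← hBB, mul_apply_eq_comp]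
      have h2 : ⟪B (B ξ), ξ⟫_ℂ = ⟪(star B) (B ξ), ξ⟫_ℂ := by rw [hBsa.star_eq]
      rw [h2, star_inner, inner_self_eq_norm_sq_to_K]
      norm_cast
    rw [hAin] at h1
    exact_mod_cast h1
  by_contra hne
  have hAne : A ≠ 0 := by
    intro h0
    exact hne (sub_eq_zero.mp h0).symm
  have hBne : B ≠ 0 := by
    intro h0
    rw [h0, mul_zero] at hBB
    exact hAne hBB.symm
  -- an element of the commutant of M not killed
  have hz : ∃ z ∈ M.commutant, B (z Ω) ≠ 0 := by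
    by_contra hcon
    push Not at hcon
    apply hBne
    ext ξ
    have h5 : Set.EqOn (fun ξ => B ξ) (fun _ => (0 : H)) (orb M.commutant Ω : Set H) := by
      intro ζ hζ
      obtain ⟨y, hy, rfl⟩ := (mem_orb _ Ω ζ).mp hζ
      exact hcon y hy
    have hd : Dense (orb M.commutant Ω : Set H) := by
      rw [Submodule.dense_iff_topologicalClosure_eq_top]
      exact dense_comm M Ω h
    have h6 := Continuous.ext_on hd B.continuous continuous_const h5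
    exact congrFun h6 ξ
  obtain ⟨z, hz, hzne⟩ := hz
  have hz0 : 0 < ‖z‖ := by
    rw [norm_pos_iff]
    intro h0
    rw [h0] at hzne
    simp at hzne
  set e := (cl P Ω).starProjection with he
  have hesa : star e = e := isStarProjection_starProjection.isSelfAdjoint.star_eq
  set y : H →L[ℂ] H := ((‖z‖⁻¹ : ℝ) : ℂ) • (B * z * e) with hy
  have hstar : star y = ((‖z‖⁻¹ : ℝ) : ℂ) • (e * (star z * B)) := by
    rw [hy, star_smul, star_mul, star_mul, hesa, hBsa.star_eq]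
    congr 1
    exact Complex.conj_ofReal _
  have hyP : y ∈ P.commutant := by
    have hBP : B ∈ P.commutant := by
      rw [VonNeumannAlgebra.mem_commutant_iff]
      intro x hx
      exact (hBc x hx).symm
    have hzP : z ∈ P.commutant := by
      rw [VonNeumannAlgebra.mem_commutant_iff] at hz ⊢
      intro x hx
      exact hz x (hP hx)
    have h1 : B * z * e ∈ P.commutant := mul_mem (mul_mem hBP hzP) (proj_mem P Ω)
    have h2 : ((‖z‖⁻¹ : ℝ) : ℂ) • (B * z * e) ∈ P.commutant.toStarSubalgebra :=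
      SMulMemClass.smul_mem _ h1
    exact h2
  have hyran : ∀ ξ, (star y) ξ ∈ cl P Ω := by
    intro ξ
    rw [hstar, _root_.smul_apply, mul_apply_eq_comp]
    exact Submodule.smul_mem _ _ (Submodule.starProjection_apply_mem _ _)
  have hyB : ∀ ξ, ‖(star y) ξ‖ ≤ ‖B ξ‖ := by
    intro ξ
    rw [hstar, _root_.smul_apply, mul_apply_eq_comp, mul_apply_eq_comp, norm_smul,
      Complex.norm_real, Real.norm_eq_abs, abs_of_pos (inv_pos.mpr hz0),
      inv_mul_le_iff₀ hz0]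
    refine (Submodule.norm_starProjection_apply_le _ _).trans ?_
    refine ((star z).le_opNorm _).trans ?_
    rw [norm_star]
  have hyne : star y ≠ 0 := by
    intro h0
    have h1 : y = 0 := by rw [← star_star y, h0, star_zero]
    have h2 : y Ω = 0 := by rw [h1]; rfl
    rw [hy, _root_.smul_apply, mul_apply_eq_comp, mul_apply_eq_comp, he,
      Submodule.starProjection_eq_self_iff.mpr (vec_mem _ _), smul_eq_zero] at h2
    rcases h2 with h2 | h2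
    · rw [Complex.ofReal_eq_zero] at h2
      exact (inv_pos.mpr hz0).ne' h2
    · exact hzne h2
  have hstarc : ∀ (c : ℝ) (ξ : H), ‖(star ((c : ℂ) • y)) ξ‖ ^ 2 = c ^ 2 * ‖(star y) ξ‖ ^ 2 := by
    intro c ξ
    rw [star_smul, _root_.smul_apply, norm_smul, mul_pow]
    congr 1
    rw [norm_star, Complex.norm_real, Real.norm_eq_abs, sq_abs]
  -- adding multiples of y
  have hadd : ∀ c : ℝ, 0 ≤ c → c ≤ 1 → (c : ℂ) • y ∈ I := by
    intro c hc0 hc1
    have hg : Good P (cl P Ω) (insert ((c : ℂ) • y) I) := by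
      refine ⟨?_, ?_, ?_⟩
      · intro w hw
        rcases hw with rfl | hw
        · have h2 : ((c : ℝ) : ℂ) • y ∈ P.commutant.toStarSubalgebra :=
            SMulMemClass.smul_mem _ hyP
          exact h2
        · exact hI.comm w hw
      · intro w hw ξ
        rcases hw with rfl | hw
        · rw [star_smul, _root_.smul_apply]
          exact Submodule.smul_mem _ _ (hyran ξ)
        · exact hI.ran w hw ξ
      · intro F hF ξ
        have h1 : ∑ w ∈ F, ‖(star w) ξ‖ ^ 2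
            ≤ ‖(star ((c : ℂ) • y)) ξ‖ ^ 2 + ∑ w ∈ F.erase ((c : ℂ) • y), ‖(star w) ξ‖ ^ 2 := by
          by_cases hm : ((c : ℂ) • y) ∈ F
          · rw [Finset.add_sum_erase F (fun w => ‖(star w) ξ‖ ^ 2) hm]
          · rw [Finset.erase_eq_of_notMem hm]
            have : 0 ≤ ‖(star ((c : ℂ) • y)) ξ‖ ^ 2 := by positivity
            linarith
        have h2 : ∑ w ∈ F.erase ((c : ℂ) • y), ‖(star w) ξ‖ ^ 2
            ≤ ∑' w : I, ‖(star (w : H →L[ℂ] H)) ξ‖ ^ 2 := by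
          have h3 := Finset.sum_subtype_of_mem (s := F.erase ((c : ℂ) • y)) (p := fun w => w ∈ I)
            (fun w => ‖(star w) ξ‖ ^ 2) (by
              intro w hw
              rw [Finset.mem_erase] at hw
              rcases hF w hw.2 with h | h
              · exact absurd h hw.1
              · exact h)
          rw [← h3]
          exact (summable_sq hI ξ).sum_le_tsum _ (fun _ _ => by positivity)
        have h4 := hBn ξ
        have h5 : ‖(star ((c : ℂ) • y)) ξ‖ ^ 2 ≤ ‖B ξ‖ ^ 2 := by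
          rw [hstarc]
          have h6 : ‖(star y) ξ‖ ^ 2 ≤ ‖B ξ‖ ^ 2 := pow_le_pow_left₀ (norm_nonneg _) (hyB ξ) 2
          have h7 : c ^ 2 ≤ 1 := by nlinarith
          have h8 : 0 ≤ ‖(star y) ξ‖ ^ 2 := by positivity
          nlinarith
        linarith
    have := hmax _ hg (Set.subset_insert _ _)
    rw [← this]
    exact Set.mem_insert _ _
  -- contradiction
  obtain ⟨ξ, hξ⟩ : ∃ ξ, (star y) ξ ≠ 0 := by
    by_contra hcon
    push Not at hcon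
    exact hyne (ContinuousLinearMap.ext hcon)
  have hξ2 : 0 < ‖(star y) ξ‖ ^ 2 := by
    have := norm_pos_iff.mpr hξ
    positivity
  have hy0 : y ≠ 0 := fun h0 => hyne (by rw [h0, star_zero])
  have hinf : ((fun c : ℝ => (c : ℂ) • y) '' Set.Icc (1 / 2) 1).Infinite := by
    apply Set.Infinite.image _ (Set.Icc_infinite (by norm_num))
    intro a _ b _ hab
    have hab' : ((a : ℂ) - b) • y = 0 := by rw [sub_smul]; exact sub_eq_zero.mpr hab
    rcases smul_eq_zero.mp hab' with h | h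
    · exact_mod_cast sub_eq_zero.mp h
    · exact absurd h hy0
  obtain ⟨n, hn⟩ := exists_nat_gt (4 * ‖ξ‖ ^ 2 / ‖(star y) ξ‖ ^ 2)
  obtain ⟨F, hFs, hFc⟩ := hinf.exists_subset_card_eq n
  have h1 : ∑ w ∈ F, ‖(star w) ξ‖ ^ 2 ≤ ‖ξ‖ ^ 2 := by
    apply hI.sum F
    intro w hw
    obtain ⟨c, hc, rfl⟩ := hFs hw
    exact hadd c (by linarith [hc.1]) hc.2
  have h2 : (n : ℝ) * (‖(star y) ξ‖ ^ 2 / 4) ≤ ∑ w ∈ F, ‖(star w) ξ‖ ^ 2 := by
    rw [← hFc, ← nsmul_eq_mul]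
    apply Finset.card_nsmul_le_sum
    intro w hw
    obtain ⟨c, hc, rfl⟩ := hFs hw
    have h3 := hstarc c ξ
    simp only
    rw [h3]
    have h4 : (1 : ℝ) / 4 ≤ c ^ 2 := by nlinarith [hc.1]
    nlinarith
  rw [div_lt_iff₀ hξ2] at hn
  linarith

/-! ### the conditional expectation -/

theorem cexp (hR : Stmt_Riesz.{u}) (hO : Stmt_OfVN.{u}) (M P : VonNeumannAlgebra H) (Ω : H)
    (h : IsII1 M Ω) (hP : P ≤ M) (m : H →L[ℂ] H) (hm : m ∈ M) :
    ∃ x ∈ P, ∀ ξ ∈ cl P Ω, ∀ ζ ∈ cl P Ω, ⟪ξ, m ζ⟫_ℂ = ⟪ξ, x ζ⟫_ℂ := by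
  obtain ⟨T, hTΩ, hTS⟩ := hO H M Ω h P hP
  have hns : ∀ w ∈ M, ‖(star w) Ω‖ = ‖w Ω‖ := by
    intro w hw
    have h1 := h.trace w hw (star w) (star_mem hw)
    have e1 : ⟪Ω, w ((star w) Ω)⟫_ℂ = ⟪(star w) Ω, (star w) Ω⟫_ℂ := (star_inner w Ω _).symm
    have e2 : ⟪Ω, (star w) (w Ω)⟫_ℂ = ⟪w Ω, w Ω⟫_ℂ := inner_star' w Ω _
    rw [e1, e2, inner_self_eq_norm_sq_to_K, inner_self_eq_norm_sq_to_K] at h1
    have h2 : ‖(star w) Ω‖ ^ 2 = ‖w Ω‖ ^ 2 := by exact_mod_cast h1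
    exact (sq_eq_sq₀ (norm_nonneg _) (norm_nonneg _)).1 h2
  let f : (H →L[ℂ] H) →ₗ[ℂ] ℂ :=
    { toFun := fun y => ⟪Ω, y (m Ω)⟫_ℂ
      map_add' := by
        intro x y
        rw [_root_.add_apply, inner_add_right]
      map_smul' := by
        intro c x
        rw [_root_.smul_apply, inner_smul_right]
        rfl }
  obtain ⟨x, hxS, _, hx⟩ := hR H T f ‖m‖ (norm_nonneg _) (by
    intro b hb c hc
    rw [hTS] at hb hc
    have hbM := hP hb
    have hcM := hP hc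
    have h1 : f (b * c) = ⟪(star (m * b)) Ω, c Ω⟫_ℂ := by
      have h2 := h.trace (b * c) (mul_mem hbM hcM) m hm
      rw [star_inner]
      exact h2
    rw [h1, hTΩ]
    refine (norm_inner_le_norm _ _).trans ?_
    rw [hns _ (mul_mem hm hbM)]
    apply mul_le_mul_of_nonneg_right _ (norm_nonneg _)
    exact m.le_opNorm _)
  rw [hTS] at hxS
  refine ⟨x, hxS, ?_⟩
  have hxM := hP hxS
  -- on the orbit
  have h3 : ∀ y ∈ P, ⟪Ω, y (m Ω)⟫_ℂ = ⟪Ω, y (x Ω)⟫_ℂ := by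
    intro y hy
    have h4 := hx y ((hTS y).mpr hy)
    unfold TVN.tr at h4
    rw [hTΩ] at h4
    exact h4
  have h4 : ∀ a ∈ P, ∀ b ∈ P, ⟪a Ω, m (b Ω)⟫_ℂ = ⟪a Ω, x (b Ω)⟫_ℂ := by
    intro a ha b hb
    have haM := hP ha
    have hbM := hP hb
    have e1 : ∀ w ∈ M, ⟪a Ω, w (b Ω)⟫_ℂ = ⟪Ω, (b * star a) (w Ω)⟫_ℂ := by
      intro w hw
      rw [← inner_star']
      have h5 := h.trace (star a * w) (mul_mem (star_mem haM) hw) b hbM
      exact h5
    rw [e1 m hm, e1 x hxM]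
    exact h3 _ (mul_mem hb (star_mem ha))
  have h5 : ∀ b ∈ P, ∀ ξ ∈ cl P Ω, ⟪ξ, m (b Ω)⟫_ℂ = ⟪ξ, x (b Ω)⟫_ℂ := by
    intro b hb ξ hξ
    have h6 : ξ ∈ closure (orb P Ω : Set H) := hξ
    have hcl : IsClosed {ξ : H | ⟪ξ, m (b Ω)⟫_ℂ = ⟪ξ, x (b Ω)⟫_ℂ} :=
      isClosed_eq (by fun_prop) (by fun_prop)
    have hsub : (orb P Ω : Set H) ⊆ {ξ : H | ⟪ξ, m (b Ω)⟫_ℂ = ⟪ξ, x (b Ω)⟫_ℂ} := by
      intro ζ hζ
      obtain ⟨a, ha, rfl⟩ := (mem_orb P Ω ζ).mp hζ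
      exact h4 a ha b hb
    exact closure_minimal hsub hcl h6
  intro ξ hξ ζ hζ
  have h6 : ζ ∈ closure (orb P Ω : Set H) := hζ
  have hcl : IsClosed {ζ : H | ⟪ξ, m ζ⟫_ℂ = ⟪ξ, x ζ⟫_ℂ} :=
    isClosed_eq (by fun_prop) (by fun_prop)
  have hsub : (orb P Ω : Set H) ⊆ {ζ : H | ⟪ξ, m ζ⟫_ℂ = ⟪ξ, x ζ⟫_ℂ} := by
    intro ζ hζ
    obtain ⟨a, ha, rfl⟩ := (mem_orb P Ω ζ).mp hζ
    exact h5 a ha ξ hξ
  exact closure_minimal hsub hcl h6

/-- `Φ m` is the conditional expectation -/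
theorem Phi_cexp {P : VonNeumannAlgebra H} {L : Submodule ℂ H} {I : Set (H →L[ℂ] H)}
    (hI : Good P L I) (h1 : Phi hI 1 = 1) (m x : H →L[ℂ] H) (hx : x ∈ P)
    (hmx : ∀ ξ ∈ L, ∀ ζ ∈ L, ⟪ξ, m ζ⟫_ℂ = ⟪ξ, x ζ⟫_ℂ) : Phi hI m = x := by
  have h2 : Phi hI m = Phi hI x := by
    ext ξ
    rw [Phi_apply, Phi_apply]
    congr 1
    ext y
    apply ext_inner_left ℂ
    intro ζ
    rw [← star_inner (y : H →L[ℂ] H) ζ, ← star_inner (y : H →L[ℂ] H) ζ]
    exact hmx _ (hI.ran y.1 y.2 ζ) _ (hI.ran y.1 y.2 ξ)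
  rw [h2]
  have h3 := (Phi_bimod hI x hx 1).1
  rw [mul_one, h1, mul_one] at h3
  exact h3

end Amp

open Pool.Agent.OS.Amp in
theorem amp_proof (hR : Stmt_Riesz.{u}) (hO : Stmt_OfVN.{u}) : Stmt_Amp.{u} := by
  intro H _ _ _ M Ω h P hP
  obtain ⟨I, hI, hmax⟩ := exists_maximal P (cl P Ω)
  have h1 := phi_one M P Ω h hP I hI hmax
  refine ⟨Phi hI, fun x hx y => Phi_bimod hI x hx y, Phi_pos hI, ?_⟩
  intro m hm
  obtain ⟨x, hx, hmx⟩ := cexp hR hO M P Ω h hP m hm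
  have h2 := Phi_cexp hI h1 m x hx hmx
  rw [h2]
  exact ⟨hx, (hmx Ω (vec_mem P Ω) Ω (vec_mem P Ω)).symm⟩

end Pool.Agent.OS
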