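import Mathlib

set_option autoImplicit false

/-!
# Solid II_1 factors are omega-solid: official definitions (used in the final statement)
-/

open Filter Topology
open scoped InnerProductSpace

namespace Pool.Agent.OS

universe u

variable {H : Type u} [NormedAddCommGroup H] [InnerProductSpace ℂ H] [CompleteSpace H]

/-- `M` is a `II_1` factor in standard form with trace vector `Ω`: a factor without minimal
projections with a cyclic unit vector `Ω` whose vector state is a trace. -/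
structure IsII1 (M : VonNeumannAlgebra H) (Ω : H) : Prop where
  norm_Ω : ‖Ω‖ = 1
  trace : ∀ x ∈ M, ∀ y ∈ M, ⟪Ω, x (y Ω)⟫_ℂ = ⟪Ω, y (x Ω)⟫_ℂ
  cyclic : Dense {ξ : H | ∃ x ∈ M, ξ = x Ω}
  factor : ∀ x ∈ M, (∀ y ∈ M, x * y = y * x) → ∃ c : ℂ, x = c • 1
  no_min : ∀ p ∈ M, IsStarProjection p → p ≠ 0 →
    ∃ q ∈ M, IsStarProjection q ∧ q ≠ 0 ∧ q ≠ p ∧ q * p = q

/-- A von Neumann algebra on `H` is injective: there is a norm one projection of `B(H)` onto it. -/
def Injective (N : VonNeumannAlgebra H) : Prop :=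
  ∃ E : (H →L[ℂ] H) →ₗ[ℂ] (H →L[ℂ] H),
    (∀ T, ‖E T‖ ≤ ‖T‖) ∧ (∀ T, E T ∈ N) ∧ ∀ x ∈ N, E x = x

/-- The relative commutant `N' ∩ M` is diffuse: it has no minimal projections. -/
def DiffuseRelComm (M N : VonNeumannAlgebra H) : Prop :=
  ∀ p ∈ M, IsStarProjection p → (∀ x ∈ N, x * p = p * x) → p ≠ 0 →
    ∃ q ∈ M, IsStarProjection q ∧ (∀ x ∈ N, x * q = q * x) ∧ q ≠ 0 ∧ q ≠ p ∧ q * p = q

/-- Bounded sequences in `M` (representatives of the elements of the ultrapower). -/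
def BddSeq (M : VonNeumannAlgebra H) (a : ℕ → H →L[ℂ] H) : Prop :=
  (∀ n, a n ∈ M) ∧ ∃ C : ℝ, ∀ n, ‖a n‖ ≤ C

/-- The sequences `a`, `b` represent the same element of the tracial ultrapower `M^ω`. -/
def EqU (ω : Ultrafilter ℕ) (Ω : H) (a b : ℕ → H →L[ℂ] H) : Prop :=
  Tendsto (fun n => ‖(a n - b n) Ω‖) ω (𝓝 0)

/-- `a` represents a projection of `N' ∩ M^ω`. -/
def IsProjU (ω : Ultrafilter ℕ) (Ω : H) (M N : VonNeumannAlgebra H)
    (a : ℕ → H →L[ℂ] H) : Prop :=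
  BddSeq M a ∧ EqU ω Ω (fun n => a n * a n) a ∧ EqU ω Ω (fun n => star (a n)) a ∧
    ∀ x ∈ N, EqU ω Ω (fun n => x * a n) (fun n => a n * x)

/-- `N' ∩ M^ω` is diffuse: it has no minimal projections. -/
def DiffuseUltra (ω : Ultrafilter ℕ) (Ω : H) (M N : VonNeumannAlgebra H) : Prop :=
  ∀ p, IsProjU ω Ω M N p → ¬ EqU ω Ω p 0 →
    ∃ q, IsProjU ω Ω M N q ∧ ¬ EqU ω Ω q 0 ∧ ¬ EqU ω Ω q p ∧ EqU ω Ω (fun n => q n * p n) q

/-- `M` is solid (Ozawa): the relative commutant of every noninjective von Neumann subalgebra is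
not diffuse. -/
def Solid (M : VonNeumannAlgebra H) : Prop :=
  ∀ N : VonNeumannAlgebra H, N ≤ M → ¬ Injective N → ¬ DiffuseRelComm M N

/-- `M` is `ω`-solid: for every noninjective von Neumann subalgebra `N` of `M`, the relative
commutant `N' ∩ M^ω` is not diffuse. -/
def OmegaSolid (ω : Ultrafilter ℕ) (Ω : H) (M : VonNeumannAlgebra H) : Prop :=
  ∀ N : VonNeumannAlgebra H, N ≤ M → ¬ Injective N → ¬ DiffuseUltra ω Ω M N

/-- The final statement: every solid `II_1` factor is `ω`-solid for every free ultrafilter `ω`. -/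
def Stmt_Main : Prop :=
  ∀ (H : Type u) [NormedAddCommGroup H] [InnerProductSpace ℂ H] [CompleteSpace H]
    (M : VonNeumannAlgebra H) (Ω : H), IsII1 M Ω → Solid M →
    ∀ ω : Ultrafilter ℕ, (ω : Filter ℕ) ≤ cofinite → OmegaSolid ω Ω M

end Pool.Agent.OS
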