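import Pool.Agent.OS.Stmts
import Pool.Agent.OS.Basic

set_option autoImplicit false

/-!
# Positive functionals on `B(H)` and hypertraces: Cauchy-Schwarz (MP_7c16f6_an)
-/

open Filter Topology
open scoped InnerProductSpace

namespace Pool.Agent.OS.Hyper

universe u

variable {H : Type u} [NormedAddCommGroup H] [InnerProductSpace ℂ H] [CompleteSpace H]

/-- positivity of a functional -/
def Pos (φ : (H →L[ℂ] H) →ₗ[ℂ] ℂ) : Prop :=
  ∀ y, 0 ≤ (φ (star y * y)).re ∧ (φ (star y * y)).im = 0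

theorem Pos.symm {φ : (H →L[ℂ] H) →ₗ[ℂ] ℂ} (h : Pos φ) (x y : H →L[ℂ] H) :
    (starRingEnd ℂ) (φ (star y * x)) = φ (star x * y) := by
  have h1 := (h (x + y)).2
  have h2 := (h (x + Complex.I • y)).2
  have hx := (h x).2
  have hy := (h y).2
  have e1 : star (x + y) * (x + y) = star x * x + star x * y + star y * x + star y * y := by
    rw [star_add]; noncomm_ring
  have e2 : star (x + Complex.I • y) * (x + Complex.I • y) =
      star x * x + Complex.I • (star x * y) + (-Complex.I) • (star y * x) + star y * y := by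
    rw [star_add, star_smul, mul_add, add_mul, add_mul, smul_mul_assoc, mul_smul_comm,
      smul_mul_assoc, mul_smul_comm, smul_smul]
    have h3 : star Complex.I = -Complex.I := by
      rw [Complex.star_def, Complex.conj_I]
    rw [h3]
    have h4 : -Complex.I * Complex.I = 1 := by
      rw [neg_mul, Complex.I_mul_I, neg_neg]
    rw [h4, one_smul]
    abel
  rw [e1] at h1
  rw [e2] at h2
  simp only [map_add, map_smul, Complex.add_im, smul_eq_mul] at h1 h2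
  rw [Complex.mul_im, Complex.mul_im] at h2
  simp only [Complex.I_re, Complex.I_im, Complex.neg_re, Complex.neg_im] at h2
  apply Complex.ext
  · rw [Complex.conj_re]
    linarith
  · rw [Complex.conj_im]
    linarith

/-- the positive semidefinite form -/
@[reducible] noncomputable def core {φ : (H →L[ℂ] H) →ₗ[ℂ] ℂ} (h : Pos φ) :
    PreInnerProductSpace.Core ℂ (H →L[ℂ] H) where
  inner x y := φ (star x * y)
  conj_inner_symm x y := h.symm x y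
  re_inner_nonneg x := (h x).1
  add_left x y z := by rw [star_add, add_mul, map_add]
  smul_left x y r := by rw [star_smul, smul_mul_assoc, map_smul]; rfl

theorem Pos.cs {φ : (H →L[ℂ] H) →ₗ[ℂ] ℂ} (h : Pos φ) (x y : H →L[ℂ] H) :
    ‖φ (star x * y)‖ ^ 2 ≤ (φ (star x * x)).re * (φ (star y * y)).re := by
  have h1 := @InnerProductSpace.Core.inner_mul_inner_self_le ℂ (H →L[ℂ] H) _ _ _ (core h) x y
  have h2 : ‖φ (star y * x)‖ = ‖φ (star x * y)‖ := by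
    rw [← h.symm x y, RCLike.norm_conj]
  change ‖φ (star x * y)‖ * ‖φ (star y * x)‖ ≤ (φ (star x * x)).re * (φ (star y * y)).re at h1
  rw [h2] at h1
  nlinarith

theorem exists_root (T : H →L[ℂ] H) :
    ∃ R : H →L[ℂ] H, ((‖T‖ ^ 2 : ℝ) : ℂ) • (1 : H →L[ℂ] H) - star T * T = star R * R := by
  have h1 : star T * T ≤ algebraMap ℝ (H →L[ℂ] H) (‖T‖ ^ 2) :=
    CStarAlgebra.star_mul_le_algebraMap_norm_sq
  have h2 : 0 ≤ algebraMap ℝ (H →L[ℂ] H) (‖T‖ ^ 2) - star T * T := sub_nonneg.2 h1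
  obtain ⟨R, hR⟩ := CStarAlgebra.nonneg_iff_eq_star_mul_self.1 h2
  refine ⟨R, ?_⟩
  rw [← hR]
  congr 1

theorem Pos.mul_le {φ : (H →L[ℂ] H) →ₗ[ℂ] ℂ} (h : Pos φ) (T b : H →L[ℂ] H) :
    (φ (star (T * b) * (T * b))).re ≤ ‖T‖ ^ 2 * (φ (star b * b)).re := by
  obtain ⟨R, hR⟩ := exists_root T
  have h1 := (h (R * b)).1
  have h2 : star (R * b) * (R * b) =
      ((‖T‖ ^ 2 : ℝ) : ℂ) • (star b * b) - star (T * b) * (T * b) := by
    calc star (R * b) * (R * b) = star b * (star R * R) * b := by rw [star_mul]; noncomm_ring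
      _ = star b * (((‖T‖ ^ 2 : ℝ) : ℂ) • (1 : H →L[ℂ] H) - star T * T) * b := by rw [hR]
      _ = _ := by
          rw [mul_sub, sub_mul, mul_smul_comm, mul_one, smul_mul_assoc, star_mul]
          noncomm_ring
  rw [h2, map_sub, map_smul, Complex.sub_re, smul_eq_mul, Complex.re_ofReal_mul] at h1
  linarith

theorem Pos.norm_le {φ : (H →L[ℂ] H) →ₗ[ℂ] ℂ} (h : Pos φ) (h1 : φ 1 = 1) (T : H →L[ℂ] H) :
    ‖φ T‖ ≤ ‖T‖ := by
  have h2 := h.cs 1 T
  have h3 := h.mul_le T 1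
  simp only [star_one, one_mul, mul_one, h1, Complex.one_re] at h2 h3
  have h4 : ‖φ T‖ ^ 2 ≤ ‖T‖ ^ 2 := h2.trans h3
  exact le_of_sq_le_sq h4 (norm_nonneg _)

section hyper

variable {M N : VonNeumannAlgebra H} {Ω : H} {φ : (H →L[ℂ] H) →ₗ[ℂ] ℂ}

theorem one (hM : IsII1 M Ω) (h : IsHyper M N Ω φ) : φ 1 = 1 := by
  rw [h.trace 1 (one_mem M)]
  simp [hM.norm_Ω, inner_self_eq_norm_sq_to_K]

theorem pos (h : IsHyper M N Ω φ) : Pos φ := h.pos

theorem tr_star_self (x : H →L[ℂ] H) : ⟪Ω, (star x * x) Ω⟫_ℂ = ((‖x Ω‖ ^ 2 : ℝ) : ℂ) := by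
  change ⟪Ω, (star x) (x Ω)⟫_ℂ = _
  rw [ContinuousLinearMap.star_eq_adjoint,
    ContinuousLinearMap.adjoint_inner_right, inner_self_eq_norm_sq_to_K]
  push_cast
  rfl

theorem norm_star (hM : IsII1 M Ω) {x : H →L[ℂ] H} (hx : x ∈ M) : ‖(star x) Ω‖ = ‖x Ω‖ := by
  have h1 := tr_star_self (Ω := Ω) x
  have h2 := tr_star_self (Ω := Ω) (star x)
  rw [star_star] at h2
  have h3 := hM.trace x hx (star x) (star_mem hx)
  change ⟪Ω, (x * star x) Ω⟫_ℂ = ⟪Ω, (star x * x) Ω⟫_ℂ at h3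
  rw [h1, h2] at h3
  have h4 : ‖(star x) Ω‖ ^ 2 = ‖x Ω‖ ^ 2 := by exact_mod_cast h3
  exact (sq_eq_sq₀ (norm_nonneg _) (norm_nonneg _)).1 h4

/-- `|φ(y T)| ≤ ‖T‖ |y|_2` for `y ∈ M` -/
theorem left_le (hM : IsII1 M Ω) (h : IsHyper M N Ω φ) {y : H →L[ℂ] H} (hy : y ∈ M)
    (T : H →L[ℂ] H) : ‖φ (y * T)‖ ≤ ‖y Ω‖ * ‖T‖ := by
  have h1 := (pos h).cs (star y) T
  have h3 := (pos h).mul_le T 1
  rw [star_star] at h1
  simp only [star_one, mul_one, one hM h, Complex.one_re] at h3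
  have h4 : (φ (y * star y)).re = ‖y Ω‖ ^ 2 := by
    rw [h.trace _ (mul_mem hy (star_mem hy))]
    have h5 := tr_star_self (Ω := Ω) (star y)
    rw [star_star] at h5
    rw [h5, Complex.ofReal_re, norm_star hM hy]
  rw [h4] at h1
  have h5 : ‖φ (y * T)‖ ^ 2 ≤ (‖y Ω‖ * ‖T‖) ^ 2 := by
    rw [mul_pow]
    exact h1.trans (mul_le_mul_of_nonneg_left h3 (sq_nonneg _))
  exact le_of_sq_le_sq h5 (by positivity)

/-- `|φ(T y)| ≤ ‖T‖ |y|_2` for `y ∈ M` -/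
theorem right_le (hM : IsII1 M Ω) (h : IsHyper M N Ω φ) {y : H →L[ℂ] H} (hy : y ∈ M)
    (T : H →L[ℂ] H) : ‖φ (T * y)‖ ≤ ‖T‖ * ‖y Ω‖ := by
  have h1 := (pos h).cs 1 (T * y)
  have h3 := (pos h).mul_le T y
  simp only [star_one, one_mul, one hM h, Complex.one_re] at h1
  have h4 : (φ (star y * y)).re = ‖y Ω‖ ^ 2 := by
    rw [h.trace _ (mul_mem (star_mem hy) hy), tr_star_self, Complex.ofReal_re]
  rw [h4] at h3
  have h5 : ‖φ (T * y)‖ ^ 2 ≤ (‖T‖ * ‖y Ω‖) ^ 2 := by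
    rw [mul_pow]
    exact h1.trans h3
  exact le_of_sq_le_sq h5 (by positivity)

/-- `|φ(b c T)| ≤ ‖T‖ |b|_2 |c|_2` for `b, c ∈ N` -/
theorem mul_le (hM : IsII1 M Ω) (hNM : N ≤ M) (h : IsHyper M N Ω φ) {b c : H →L[ℂ] H}
    (hb : b ∈ N) (hc : c ∈ N) (T : H →L[ℂ] H) :
    ‖φ (b * c * T)‖ ≤ ‖T‖ * ‖b Ω‖ * ‖c Ω‖ := by
  have hcen : φ (b * c * T) = φ (c * (T * b)) := by
    rw [mul_assoc, h.central b hb, mul_assoc]
  have h1 := (pos h).cs (star c) (T * b)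
  have h3 := (pos h).mul_le T b
  rw [star_star] at h1
  have h4 : (φ (c * star c)).re = ‖c Ω‖ ^ 2 := by
    rw [h.trace _ (mul_mem (hNM hc) (star_mem (hNM hc)))]
    have h5 := tr_star_self (Ω := Ω) (star c)
    rw [star_star] at h5
    rw [h5, Complex.ofReal_re, norm_star hM (hNM hc)]
  have h6 : (φ (star b * b)).re = ‖b Ω‖ ^ 2 := by
    rw [h.trace _ (mul_mem (star_mem (hNM hb)) (hNM hb)), tr_star_self, Complex.ofReal_re]
  rw [h4] at h1
  rw [h6] at h3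
  rw [hcen]
  have h5 : ‖φ (c * (T * b))‖ ^ 2 ≤ (‖T‖ * ‖b Ω‖ * ‖c Ω‖) ^ 2 := by
    calc ‖φ (c * (T * b))‖ ^ 2 ≤ ‖c Ω‖ ^ 2 * (φ (star (T * b) * (T * b))).re := h1
      _ ≤ ‖c Ω‖ ^ 2 * (‖T‖ ^ 2 * ‖b Ω‖ ^ 2) := mul_le_mul_of_nonneg_left h3 (sq_nonneg _)
      _ = _ := by ring
  exact le_of_sq_le_sq h5 (by positivity)

end hyper

end Pool.Agent.OS.Hyper
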