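import Pool.Agent.OS.LStmts
import Pool.Agent.OS.Basic

set_option autoImplicit false

/-!
# Module LCaseA: a noninjective subfactor with diffuse relative commutant
-/

open Filter Topology
open scoped InnerProductSpace

namespace Pool.Agent.OS

universe u

namespace LCaseA

variable {H : Type u} [NormedAddCommGroup H] [InnerProductSpace ℂ H] [CompleteSpace H]

/-- the limit of the conjugates -/
def Lim (T : TVN H) (u : ℕ → H →L[ℂ] H) (y z : H →L[ℂ] H) : Prop :=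
  Tendsto (fun n => (star (u n) * y * u n) T.Ω) atTop (𝓝 (z T.Ω))

variable {T : TVN H} {u : ℕ → H →L[ℂ] H}

lemma Lim.uniq {y z z' : H →L[ℂ] H} (h : Lim T u y z) (h' : Lim T u y z') (hz : z ∈ T.S)
    (hz' : z' ∈ T.S) : z = z' :=
  T.eq_of_apply hz hz' (tendsto_nhds_unique h h')

lemma conj_mem (hu : ∀ n, u n ∈ T.S ∧ u n ∈ unitary (H →L[ℂ] H)) {y : H →L[ℂ] H}
    (hy : y ∈ T.S) (n : ℕ) : star (u n) * y * u n ∈ T.S :=
  mul_mem (mul_mem (star_mem (hu n).1) hy) (hu n).1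

lemma conj_norm_le (hu : ∀ n, u n ∈ T.S ∧ u n ∈ unitary (H →L[ℂ] H)) (y : H →L[ℂ] H) (n : ℕ) :
    ‖star (u n) * y * u n‖ ≤ ‖y‖ := by
  have h1 : ‖u n‖ ≤ 1 := by
    have h2 := (Unitary.mem_iff.1 (hu n).2).1
    have h3 := CStarRing.norm_star_mul_self (x := u n)
    rw [h2] at h3
    have h4 : ‖(1 : H →L[ℂ] H)‖ ≤ 1 := ContinuousLinearMap.norm_id_le
    nlinarith [norm_nonneg (u n)]
  calc ‖star (u n) * y * u n‖ ≤ ‖star (u n)‖ * ‖y‖ * ‖u n‖ :=
        (norm_mul_le _ _).trans (mul_le_mul_of_nonneg_right (norm_mul_le _ _) (norm_nonneg _))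
    _ ≤ 1 * ‖y‖ * 1 := by
        rw [_root_.norm_star]
        gcongr
    _ = ‖y‖ := by ring

lemma Lim.add {y z y' z' : H →L[ℂ] H} (h : Lim T u y z) (h' : Lim T u y' z') :
    Lim T u (y + y') (z + z') := by
  refine (Tendsto.add h h').congr fun n => ?_
  simp [mul_add, add_mul]

lemma Lim.smul (c : ℂ) {y z : H →L[ℂ] H} (h : Lim T u y z) : Lim T u (c • y) (c • z) := by
  refine (Tendsto.const_smul h c).congr fun n => ?_
  simp

lemma Lim.mul (hu : ∀ n, u n ∈ T.S ∧ u n ∈ unitary (H →L[ℂ] H)) {y z y' z' : H →L[ℂ] H}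
    (hy : y ∈ T.S) (hy' : y' ∈ T.S) (hz : z ∈ T.S) (hz' : z' ∈ T.S) (h : Lim T u y z)
    (h' : Lim T u y' z') : Lim T u (y * y') (z * z') := by
  have h1 := T.tendsto_mul (l := atTop) (C := ‖y‖) (conj_mem hu hy) (conj_mem hu hy') hz hz'
    (conj_norm_le hu y) h h'
  refine h1.congr fun n => ?_
  have e : star (u n) * y * u n * (star (u n) * y' * u n) = star (u n) * (y * y') * u n := by
    have h2 := (Unitary.mem_iff.1 (hu n).2).2
    calc star (u n) * y * u n * (star (u n) * y' * u n)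
        = star (u n) * y * (u n * star (u n)) * y' * u n := by simp only [mul_assoc]
      _ = _ := by rw [h2]; simp only [mul_assoc, one_mul]
  rw [e]

lemma Lim.star (hu : ∀ n, u n ∈ T.S ∧ u n ∈ unitary (H →L[ℂ] H)) {y z : H →L[ℂ] H}
    (hy : y ∈ T.S) (hz : z ∈ T.S) (h : Lim T u y z) : Lim T u (star y) (star z) := by
  have h1 := T.tendsto_star (conj_mem hu hy) hz h
  refine h1.congr fun n => ?_
  simp [star_mul, mul_assoc]

lemma Lim.one (hu : ∀ n, u n ∈ T.S ∧ u n ∈ unitary (H →L[ℂ] H)) : Lim T u 1 1 := by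
  refine tendsto_const_nhds.congr fun n => ?_
  rw [mul_one, (Unitary.mem_iff.1 (hu n).2).1]

lemma Lim.sum {ι : Type*} (s : Finset ι) {y z : ι → H →L[ℂ] H} (h : ∀ i, Lim T u (y i) (z i)) :
    Lim T u (∑ i ∈ s, y i) (∑ i ∈ s, z i) := by
  classical
  induction s using Finset.induction_on with
  | empty => simp [Lim]
  | insert a s ha ih =>
    rw [Finset.sum_insert ha, Finset.sum_insert ha]
    exact (h a).add ih

end LCaseA

open LCaseA Main in
theorem lCaseA_proof (hInter : Stmt_LInter.{u}) (hTheta : Stmt_LTheta.{u})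
    (hConj : Stmt_LConjInj.{u}) (hDens : Stmt_LDens.{u}) (hFac : Stmt_LFac.{u})
    (hDix : Stmt_LDix.{u}) (hPart : Stmt_PartNoMin.{u}) (hOfVN : Stmt_OfVN.{u}) :
    Stmt_LCaseA.{u} := by
  intro H _ _ _ M R N Ω hM hRM hNR hNI hSep htriv T hTΩ hTS hA hE
  obtain ⟨x, hx, hxd⟩ := hSep
  have hNM : N ≤ M := hNR.trans hRM
  have hNS : ∀ y ∈ N, y ∈ T.S := fun y hy => (hTS y).2 (hNR hy)
  have hsub : T.IsSub (N : Set (H →L[ℂ] H)) :=
    ⟨fun x hx => hNS x hx, fun x hx => star_mem (S := VonNeumannAlgebra H) hx⟩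
  obtain ⟨u, x', hu, hx', hlim, hpart⟩ := hInter H T N hsub hA hE x hx
  subst hTΩ
  obtain ⟨θ, hθS, hθn, hθlim, hθq⟩ := hTheta H T N hNS x hx hxd u x' hu hx' hlim
  have hL : ∀ y ∈ N, Lim T u y (θ y) := hθlim
  have hU : ∀ y ∈ N, ∀ z ∈ T.S, Lim T u y z → θ y = z := fun y hy z hz h =>
    (hL y hy).uniq h (hθS y hy) hz
  have hadd : ∀ y ∈ N, ∀ y' ∈ N, θ (y + y') = θ y + θ y' := fun y hy y' hy' =>
    hU _ (add_mem hy hy') _ (add_mem (hθS y hy) (hθS y' hy')) ((hL y hy).add (hL y' hy'))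
  have hmul : ∀ y ∈ N, ∀ y' ∈ N, θ (y * y') = θ y * θ y' := fun y hy y' hy' =>
    hU _ (mul_mem hy hy') _ (mul_mem (hθS y hy) (hθS y' hy'))
      ((hL y hy).mul hu (hNS y hy) (hNS y' hy') (hθS y hy) (hθS y' hy') (hL y' hy'))
  have hstar : ∀ y ∈ N, θ (star y) = star (θ y) := fun y hy =>
    hU _ (star_mem hy) _ (star_mem (hθS y hy)) ((hL y hy).star hu (hNS y hy) (hθS y hy))
  have hNsmul : ∀ (c : ℂ), ∀ y ∈ N, c • y ∈ N := fun c y hy => N.toStarSubalgebra.smul_mem hy c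
  have hsmul : ∀ (c : ℂ), ∀ y ∈ N, θ (c • y) = c • θ y := fun c y hy =>
    hU _ (hNsmul c y hy) _ (SMulMemClass.smul_mem _ (hθS y hy)) ((hL y hy).smul c)
  have hone : θ 1 = 1 := hU 1 (one_mem N) 1 (one_mem _) (Lim.one hu)
  -- the image
  set X : Set (H →L[ℂ] H) := {a | ∃ y ∈ N, a = θ y} with hXdef
  have hX : ∀ a ∈ X, star a ∈ X := by
    rintro a ⟨y, hy, rfl⟩
    exact ⟨star y, star_mem hy, (hstar y hy).symm⟩
  have hXR : ∀ a ∈ X, a ∈ R := by
    rintro a ⟨y, hy, rfl⟩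
    exact (hTS _).1 (hθS y hy)
  have hPR : gen X hX ≤ R := gen_le hXR
  have hθP : ∀ y ∈ N, θ y ∈ gen X hX := fun y hy => subset_gen ⟨y, hy, rfl⟩
  have hdens : ∀ a ∈ gen X hX, ∀ ε > 0, ∃ y ∈ X, ‖(a - y) T.Ω‖ ≤ ε := by
    refine hDens H X T.Ω hX ⟨1, one_mem N, hone.symm⟩ ?_ ?_ ?_ ?_
    · rintro a ⟨y, hy, rfl⟩ b ⟨y', hy', rfl⟩
      exact ⟨y + y', add_mem hy hy', (hadd y hy y' hy').symm⟩
    · rintro a ⟨y, hy, rfl⟩ b ⟨y', hy', rfl⟩
      exact ⟨y * y', mul_mem hy hy', (hmul y hy y' hy').symm⟩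
    · rintro q a ⟨y, hy, rfl⟩
      exact ⟨(q : ℂ) • y, hNsmul _ y hy, (hsmul _ y hy).symm⟩
    · rintro a ⟨y, hy, rfl⟩
      exact ⟨Complex.I • y, hNsmul _ y hy, (hsmul _ y hy).symm⟩
  -- `N` is a factor
  obtain ⟨T₂, hT₂Ω, hT₂S⟩ := hOfVN H M T.Ω hM N hNM
  have hT₂F : T₂.Factor := fun z hz hzc => by
    refine htriv z (hNR ((hT₂S z).1 hz)) fun a ha => ?_
    exact (hzc a ((hT₂S a).2 ha)).symm
  have hF : IsFactorVN (gen X hX) := by
    refine hFac H M (gen X hX) T.Ω X hM (hPR.trans hRM) (fun y hy => subset_gen hy) hdens ?_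
    rintro a ⟨y, hy, rfl⟩ ε hε
    obtain ⟨k, c, w, hc0, hc1, hw, hn⟩ := hDix H T₂ hT₂F y ((hT₂S y).2 hy) ε hε
    rw [hT₂Ω] at hn
    have hwN : ∀ i, w i ∈ N := fun i => (hT₂S _).1 (hw i).1
    refine ⟨T₂.tr y, k, c, fun i => θ (w i), hc0, hc1, fun i => ⟨hθP _ (hwN i), ?_⟩, ?_⟩
    · rw [Unitary.mem_iff, ← hstar _ (hwN i), ← hmul _ (star_mem (hwN i)) _ (hwN i),
        ← hmul _ (hwN i) _ (star_mem (hwN i)), (Unitary.mem_iff.1 (hw i).2).1,
        (Unitary.mem_iff.1 (hw i).2).2]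
      exact ⟨hone, hone⟩
    · have h1 : ∀ i, Lim T u ((c i : ℂ) • (w i * y * star (w i)))
          ((c i : ℂ) • (θ (w i) * θ y * star (θ (w i)))) := by
        intro i
        have h2 := (hL _ (mul_mem (mul_mem (hwN i) hy) (star_mem (hwN i)))).smul (c i : ℂ)
        rwa [hmul _ (mul_mem (hwN i) hy) _ (star_mem (hwN i)), hmul _ (hwN i) _ hy,
          hstar _ (hwN i)] at h2
      have h3 := (Lim.sum Finset.univ h1).add ((Lim.one hu).smul (-(T₂.tr y)))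
      have hmemS : (∑ i, (c i : ℂ) • (w i * y * star (w i)) + -(T₂.tr y) • (1 : H →L[ℂ] H)) ∈
          T.S := by
        refine add_mem (sum_mem fun i _ => SMulMemClass.smul_mem _ ?_)
          (SMulMemClass.smul_mem _ (one_mem _))
        exact hNS _ (mul_mem (mul_mem (hwN i) hy) (star_mem (hwN i)))
      have h4 := h3.norm
      have h5 : ∀ n, ‖(star (u n) * (∑ i, (c i : ℂ) • (w i * y * star (w i)) +
          -(T₂.tr y) • (1 : H →L[ℂ] H)) * u n) T.Ω‖ ≤ ε := by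
        intro n
        rw [T.norm_conj' hmemS (hu n).1 (hu n).2]
        have e : ∑ i, (c i : ℂ) • (w i * y * star (w i)) + -(T₂.tr y) • (1 : H →L[ℂ] H) =
            ∑ i, (c i : ℂ) • (w i * y * star (w i)) - T₂.tr y • (1 : H →L[ℂ] H) := by
          rw [neg_smul, ← sub_eq_add_neg]
        rw [e]
        exact hn
      have h6 := le_of_tendsto' h4 h5
      have e : ∑ i, (c i : ℂ) • (θ (w i) * θ y * star (θ (w i))) +
          -(T₂.tr y) • (1 : H →L[ℂ] H) =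
          ∑ i, (c i : ℂ) • (θ (w i) * θ y * star (θ (w i))) - T₂.tr y • (1 : H →L[ℂ] H) := by
        rw [neg_smul, ← sub_eq_add_neg]
      rw [e] at h6
      exact h6
  refine ⟨gen X hX, hPR, hF, fun hinj => hNI ?_, ?_⟩
  · exact hConj H M N (gen X hX) T.Ω u θ hM hNM (hPR.trans hRM)
      (fun n => ⟨hRM ((hTS _).1 (hu n).1), (hu n).2⟩) hθP hθlim hinj
  · -- the relative commutant is diffuse
    have hPS : ∀ a ∈ (gen X hX : Set (H →L[ℂ] H)), a ∈ T.S := fun a ha => (hTS a).2 (hPR ha)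
    have hPstar : ∀ a ∈ (gen X hX : Set (H →L[ℂ] H)), star a ∈ (gen X hX : Set (H →L[ℂ] H)) :=
      fun a ha => star_mem (S := VonNeumannAlgebra H) ha
    have hNM' : (T.relComm (gen X hX : Set (H →L[ℂ] H)) hPS hPstar).NoMin := by
      refine hPart H _ ?_
      intro η hη
      obtain ⟨k, q, hq, hqη, hcomm⟩ := hpart η hη
      refine ⟨k, q, ⟨?_, hq.proj, hq.orth, hq.sum⟩, hqη⟩
      intro j
      rw [TVN.mem_relComm]
      refine ⟨hq.mem j, ?_⟩
      intro a ha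
      have hqX : q j ∈ Set.centralizer X := by
        rintro a ⟨y, hy, rfl⟩
        exact hθq (q j) (hq.mem j) (fun i => hcomm i j) y hy
      exact (ha (q j) hqX).symm
    intro p hp hpp hpc hp0
    obtain ⟨q, hq, h1, h2, h3, h4⟩ := hNM' p ⟨(hTS p).2 hp, hpc⟩ hpp hp0
    exact ⟨q, (hTS q).1 hq.1, h1, hq.2, h2, h3, h4⟩

end Pool.Agent.OS
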