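import Pool.Agent.OS.LStmts
import Pool.Agent.OS.P0

set_option autoImplicit false

/-!
# Module LCaseB: a noninjective subfactor with property Gamma
-/

open Filter Topology
open scoped InnerProductSpace

namespace Pool.Agent.OS

universe u

open Main in
theorem lCaseB_proof (hGam : Stmt_LGam.{u}) (hDens : Stmt_LDens.{u}) (hP0 : Stmt_P0.{u})
    (hIndep : Stmt_Indep.{u}) (hJ1 : Stmt_J1.{u}) (hJ3 : Stmt_J3.{u}) : Stmt_LCaseB.{u} := by
  classical
  intro H _ _ _ M R N Ω hM hRM hNR hNI hSep htriv T hTΩ hTS hB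
  obtain ⟨x, hx, hxd⟩ := hSep
  have hNM : N ≤ M := hNR.trans hRM
  have hNS : ∀ y ∈ N, y ∈ T.S := fun y hy => (hTS y).2 (hNR hy)
  have hsub : T.IsSub (N : Set (H →L[ℂ] H)) :=
    ⟨fun x hx => hNS x hx, fun x hx => star_mem (S := VonNeumannAlgebra H) hx⟩
  have hTC : T.TrivComm (N : Set (H →L[ℂ] H)) := fun y hy hyc => htriv y ((hTS y).1 hy) hyc
  subst hTΩ
  obtain ⟨t, ht0, ht1, hB⟩ := hB
  choose f hfP0 hfp hfN hft using fun m : ℕ =>
    hB ((Finset.range (m + 1)).image x) (1 / ((m : ℝ) + 1)) (by positivity)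
  have hfS : ∀ m, f m ∈ T.S := fun m => (hfP0 m).1
  have hf1 : ∀ m, ‖f m‖ ≤ 1 := fun m => (hfp m).norm_le
  -- the generated algebra
  set X : Set (H →L[ℂ] H) := {a | a ∈ N ∨ ∃ m, a = f m} with hXdef
  have hX : ∀ a ∈ X, star a ∈ X := by
    rintro a (ha | ⟨m, rfl⟩)
    · exact Or.inl (star_mem ha)
    · exact Or.inr ⟨m, (hfp m).isSelfAdjoint.star_eq⟩
  have hXR : ∀ a ∈ X, a ∈ R := by
    rintro a (ha | ⟨m, rfl⟩)
    · exact hNR ha
    · exact (hTS _).1 (hfS m)
  have hPR : gen X hX ≤ R := gen_le hXR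
  have hPM : gen X hX ≤ M := hPR.trans hRM
  have hNP : N ≤ gen X hX := fun a ha => subset_gen (Or.inl ha)
  have hfP : ∀ m, f m ∈ gen X hX := fun m => subset_gen (Or.inr ⟨m, rfl⟩)
  have hF : IsFactorVN (gen X hX) := fun z hz hzc =>
    htriv z (hPR hz) fun a ha => (hzc a (hNP ha)).symm
  have hI : ¬ Injective (gen X hX) := by
    intro hinj
    obtain ⟨φ, hφ⟩ := hJ1 H M (gen X hX) T.Ω hM hPM hinj
    exact hNI (hJ3 H M N T.Ω hM hNM ⟨φ, ⟨hφ.pos, hφ.trace, fun a ha y => hφ.central a (hNP ha) y⟩⟩)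
  -- asymptotic commutation with `N`
  have hnear : ∀ (F : Finset (H →L[ℂ] H)) (ε : ℝ), 0 < ε →
      ∀ᶠ m in (atTop : Filter ℕ), T.Near (N : Set (H →L[ℂ] H)) F ε (f m) := by
    intro F ε hε
    have h1 : ∀ y ∈ F, ∀ᶠ m in (atTop : Filter ℕ), y ∈ (N : Set (H →L[ℂ] H)) →
        ‖(y * f m - f m * y) T.Ω‖ ≤ ε := by
      intro y _
      by_cases hy : y ∈ (N : Set (H →L[ℂ] H))
      · obtain ⟨i, hi⟩ := hxd y hy (ε / 3) (by positivity)
        have h2 : ∀ᶠ m : ℕ in atTop, 1 / ((m : ℝ) + 1) < ε / 3 :=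
          tendsto_one_div_add_atTop_nhds_zero_nat.eventually (gt_mem_nhds (by positivity))
        filter_upwards [h2, eventually_ge_atTop i] with m hm hmi _
        have h3 := hfN m (x i) (Finset.mem_image.2 ⟨i, Finset.mem_range.2 (by omega), rfl⟩) (hx i)
        have hdS : x i - y ∈ T.S := sub_mem (hNS _ (hx i)) (hNS _ hy)
        have h4 : ‖((x i - y) * f m) T.Ω‖ ≤ ε / 3 := by
          refine (T.norm_mul_right hdS (hfS m)).trans ?_
          nlinarith [hf1 m, norm_nonneg ((x i - y) T.Ω), norm_nonneg (f m)]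
        have h5 : ‖(f m * (x i - y)) T.Ω‖ ≤ ε / 3 := by
          refine (T.norm_mul_le _ _).trans ?_
          nlinarith [hf1 m, norm_nonneg ((x i - y) T.Ω), norm_nonneg (f m)]
        have e : (y * f m - f m * y) T.Ω = (x i * f m - f m * x i) T.Ω -
            ((x i - y) * f m) T.Ω + (f m * (x i - y)) T.Ω := by
          have : y * f m - f m * y = (x i * f m - f m * x i) - (x i - y) * f m +
              f m * (x i - y) := by noncomm_ring
          rw [this]; simp
        rw [e]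
        refine (norm_add_le _ _).trans ?_
        have h6 := norm_sub_le ((x i * f m - f m * x i) T.Ω) (((x i - y) * f m) T.Ω)
        linarith
      · exact Eventually.of_forall fun m h => absurd h hy
    exact (eventually_all_finset F).2 h1
  -- asymptotic commutation with `P0`
  have hcomm0 : ∀ a ∈ T.P0 (N : Set (H →L[ℂ] H)),
      Tendsto (fun m => (a * f m - f m * a) T.Ω) atTop (𝓝 0) := by
    intro a ha
    rw [tendsto_zero_iff_norm_tendsto_zero]
    refine tendsto_order.2 ⟨fun b hb => Eventually.of_forall fun m =>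
      lt_of_lt_of_le hb (norm_nonneg _), fun b hb => ?_⟩
    obtain ⟨F, ε, hε, hF⟩ := ha.2 b hb
    filter_upwards [hnear F (ε / 2) (by positivity)] with m hm
    have h1 := T.symm_mem_UN (hfS m) (hfp m) hm
    have h2 := hF _ (P0.UN_mono le_rfl (by linarith) h1)
    have e : ((2 : ℂ) • f m - 1) * a - a * ((2 : ℂ) • f m - 1) = (-2 : ℂ) • (a * f m - f m * a) := by
      simp only [sub_mul, mul_sub, smul_mul_assoc, mul_smul_comm, one_mul, mul_one]
      module
    rw [e, _root_.smul_apply, norm_smul] at h2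
    have h3 : ‖(-2 : ℂ)‖ = 2 := by simp
    rw [h3] at h2
    linarith
  -- `P` lies in `P0`
  obtain ⟨T₀, hT₀Ω, hT₀S⟩ := hP0 H T _ hsub
  have hNP0 : ∀ a ∈ N, a ∈ T.P0 (N : Set (H →L[ℂ] H)) := by
    intro a ha
    refine ⟨hNS a ha, fun δ hδ => ⟨{a}, δ, hδ, fun w hw => ?_⟩⟩
    have h := hw.2.2 a (Finset.mem_singleton_self a) ha
    rw [← norm_neg, ← _root_.neg_apply, neg_sub]
    exact h
  have hPP0 : ∀ a ∈ gen X hX, a ∈ T.P0 (N : Set (H →L[ℂ] H)) := by
    intro a ha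
    refine P0.mem_of_approx ((hTS a).2 (hPR ha)) fun δ hδ => ?_
    have hsubset : X ⊆ (T₀.S : Set (H →L[ℂ] H)) := by
      rintro b (hb | ⟨m, rfl⟩)
      · exact (hT₀S b).2 (hNP0 b hb)
      · exact (hT₀S _).2 (hfP0 m)
    have ha2 : a ∈ Set.centralizer (Set.centralizer (T₀.S : Set (H →L[ℂ] H))) :=
      Set.centralizer_subset (Set.centralizer_subset hsubset) ha
    obtain ⟨y, hy, hyn⟩ := hDens H (T₀.S : Set (H →L[ℂ] H)) T.Ω (fun x hx => star_mem hx)
      (one_mem _) (fun x hx y hy => add_mem hx hy) (fun x hx y hy => mul_mem hx hy)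
      (fun q x hx => SMulMemClass.smul_mem _ hx) (fun x hx => SMulMemClass.smul_mem _ hx) a ha2 δ hδ
    exact ⟨y, (hT₀S y).1 hy, hyn⟩
  refine ⟨gen X hX, hPR, hF, hI, fun ω hω => ?_⟩
  refine hGam H M (gen X hX) T.Ω f t hM hPM ht0 ht1 (fun n => ⟨hfP n, hfp n⟩)
    (fun a ha => hcomm0 a (hPP0 a ha)) (fun a ha => ?_) ω hω
  have haS : a ∈ T.S := (hTS a).2 (hPR ha)
  -- independence
  have htr : Tendsto (fun m => T.tr (f m)) atTop (𝓝 (t : ℂ)) := by
    have h1 : ∀ m, T.tr (f m) = ((‖f m T.Ω‖ ^ 2 : ℝ) : ℂ) := fun m => T.tr_proj (hfp m)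
    have h2 : Tendsto (fun m => ‖f m T.Ω‖ ^ 2) atTop (𝓝 t) := by
      rw [tendsto_iff_norm_sub_tendsto_zero]
      refine squeeze_zero (fun m => norm_nonneg _) (fun m => ?_)
        tendsto_one_div_add_atTop_nhds_zero_nat
      exact hft m
    simp_rw [h1]
    exact (Complex.continuous_ofReal.tendsto t).comp h2
  have hind : Tendsto (fun m => T.tr (f m * a) - T.tr (f m) * T.tr a) atTop (𝓝 0) := by
    rw [tendsto_zero_iff_norm_tendsto_zero]
    refine tendsto_order.2 ⟨fun b hb => Eventually.of_forall fun m =>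
      lt_of_lt_of_le hb (norm_nonneg _), fun b hb => ?_⟩
    obtain ⟨F, ε, hε, hF⟩ := hIndep H T _ hsub hTC a haS (b / 2) (by positivity)
    filter_upwards [hnear F ε hε] with m hm
    have := hF (f m) (hfS m) (hfp m) hm
    linarith
  have h3 := hind.add (htr.mul_const (T.tr a))
  rw [zero_add] at h3
  refine h3.congr fun m => ?_
  rw [sub_add_cancel]
  rfl

end Pool.Agent.OS
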