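import Pool.Agent.OS.LDefs

set_option autoImplicit false

/-!
# Module statements of the literal part of MP_7c16f6_an (paper proof:
/team-store/MP_7c16f6_LIT.md).  Prove `theorem lX_proof : Stmt_LX.{u}` in
`Pool/Agent/OS/LX.lean`; other `Stmt_*` may be taken as hypotheses.  All modules of the first part
are proved (`x_proof` in `Pool/Agent/OS/X.lean`), take the corresponding `Stmt_X` as hypotheses.
-/

open Filter Topology
open scoped InnerProductSpace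

namespace Pool.Agent.OS

universe u

section

/-- 2-norm density of a set closed under the rational operations in the von Neumann algebra it
generates (`Ω` any vector) -/
def Stmt_LDens : Prop :=
  ∀ (H : Type u) [NormedAddCommGroup H] [InnerProductSpace ℂ H] [CompleteSpace H]
    (X : Set (H →L[ℂ] H)) (Ω : H), (∀ x ∈ X, star x ∈ X) → 1 ∈ X →
    (∀ x ∈ X, ∀ y ∈ X, x + y ∈ X) → (∀ x ∈ X, ∀ y ∈ X, x * y ∈ X) →
    (∀ (q : ℚ), ∀ x ∈ X, (q : ℂ) • x ∈ X) → (∀ x ∈ X, Complex.I • x ∈ X) →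
    ∀ a ∈ Set.centralizer (Set.centralizer X), ∀ ε > 0, ∃ y ∈ X, ‖(a - y) Ω‖ ≤ ε

/-- a criterion for factors -/
def Stmt_LFac : Prop :=
  ∀ (H : Type u) [NormedAddCommGroup H] [InnerProductSpace ℂ H] [CompleteSpace H]
    (M P : VonNeumannAlgebra H) (Ω : H) (D : Set (H →L[ℂ] H)), IsII1 M Ω → P ≤ M →
    (∀ y ∈ D, y ∈ P) → (∀ a ∈ P, ∀ ε > 0, ∃ y ∈ D, ‖(a - y) Ω‖ ≤ ε) →
    (∀ y ∈ D, ∀ ε > 0, ∃ z : ℂ, AvgTo (P : Set (H →L[ℂ] H)) Ω y z ε) → IsFactorVN P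

/-- Dixmier averaging in a factor -/
def Stmt_LDix : Prop :=
  ∀ (H : Type u) [NormedAddCommGroup H] [InnerProductSpace ℂ H] [CompleteSpace H]
    (T : TVN H), T.Factor → ∀ x ∈ T.S, ∀ ε > 0,
    AvgTo (T.S : Set (H →L[ℂ] H)) T.Ω x (T.tr x) ε

/-- a separable noninjective subfactor -/
def Stmt_LSep : Prop :=
  ∀ (H : Type u) [NormedAddCommGroup H] [InnerProductSpace ℂ H] [CompleteSpace H]
    (M N : VonNeumannAlgebra H) (Ω : H), IsII1 M Ω → N ≤ M → IsFactorVN N → ¬ Injective N →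
    ∃ N₁ : VonNeumannAlgebra H, N₁ ≤ N ∧ IsFactorVN N₁ ∧ ¬ Injective N₁ ∧ SepVN Ω N₁

/-- diffuseness in the ultrapower passes to smaller algebras -/
def Stmt_LMono : Prop :=
  ∀ (H : Type u) [NormedAddCommGroup H] [InnerProductSpace ℂ H] [CompleteSpace H]
    (M N N₁ : VonNeumannAlgebra H) (Ω : H), IsII1 M Ω → N ≤ M → N₁ ≤ N →
    ∀ ω : Ultrafilter ℕ, DiffuseUltra ω Ω M N → DiffuseUltra ω Ω M N₁

/-- diffuse relative commutants in `P` give diffuse relative commutants in `M` -/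
def Stmt_LMonoRel : Prop :=
  ∀ (H : Type u) [NormedAddCommGroup H] [InnerProductSpace ℂ H] [CompleteSpace H]
    (M P N : VonNeumannAlgebra H) (Ω : H), IsII1 M Ω → P ≤ M → N ≤ P →
    DiffuseRelComm P N → DiffuseRelComm M N

/-- central states restricting to the trace on `N` give injectivity (`J3` with the trace
hypothesis only on `N`) -/
def Stmt_LJ3 : Prop :=
  ∀ (H : Type u) [NormedAddCommGroup H] [InnerProductSpace ℂ H] [CompleteSpace H]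
    (M N : VonNeumannAlgebra H) (Ω : H), IsII1 M Ω → N ≤ M →
    (∃ φ : (H →L[ℂ] H) →ₗ[ℂ] ℂ, IsHyper N N Ω φ) → Injective N

/-- noninjective factors have no minimal projections -/
def Stmt_LTypeI : Prop :=
  ∀ (H : Type u) [NormedAddCommGroup H] [InnerProductSpace ℂ H] [CompleteSpace H]
    (M N : VonNeumannAlgebra H) (Ω : H), IsII1 M Ω → N ≤ M → IsFactorVN N → ¬ Injective N →
    ∀ T : TVN H, T.Ω = Ω → (∀ x, x ∈ T.S ↔ x ∈ N) → T.NoMin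

/-- projections of given trace -/
def Stmt_LExact : Prop :=
  ∀ (H : Type u) [NormedAddCommGroup H] [InnerProductSpace ℂ H] [CompleteSpace H]
    (T : TVN H), T.NoMin → ∀ p ∈ T.S, IsStarProjection p → ∀ t : ℝ, 0 ≤ t → t ≤ ‖p T.Ω‖ ^ 2 →
    ∃ q ∈ T.S, IsStarProjection q ∧ q * p = q ∧ ‖q T.Ω‖ ^ 2 = t

/-- `k` copies of a projection of trace `1/k` -/
def Stmt_LCopies : Prop :=
  ∀ (H : Type u) [NormedAddCommGroup H] [InnerProductSpace ℂ H] [CompleteSpace H]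
    (T : TVN H), T.NoMin → T.Factor → ∀ k : ℕ, 0 < k → ∀ f ∈ T.S, IsStarProjection f →
    ‖f T.Ω‖ ^ 2 = 1 / k →
    ∃ v : Fin k → H →L[ℂ] H, (∀ j, v j ∈ T.S) ∧ (∀ j, star (v j) * v j = f) ∧
      (∀ i j, i ≠ j → star (v i) * v j = 0) ∧ ∑ j, v j * star (v j) = 1

/-- covering `1` by images of a nonzero projection -/
def Stmt_LCover : Prop :=
  ∀ (H : Type u) [NormedAddCommGroup H] [InnerProductSpace ℂ H] [CompleteSpace H]
    (T : TVN H), T.NoMin → T.Factor → ∀ n ∈ T.S, IsStarProjection n → n ≠ 0 →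
    ∃ (m : ℕ) (s : Fin m → H →L[ℂ] H), (∀ a, s a ∈ T.S) ∧ (∀ a, s a * n = s a) ∧
      ∑ a, s a * star (s a) = 1

/-- relative commutants under a minimal projection are scalar -/
def Stmt_LMinTriv : Prop :=
  ∀ (H : Type u) [NormedAddCommGroup H] [InnerProductSpace ℂ H] [CompleteSpace H]
    (T : TVN H) (N : Set (H →L[ℂ] H)), T.IsSub N →
    ∀ e ∈ T.S, IsStarProjection e → e ≠ 0 → (∀ x ∈ N, x * e = e * x) →
    (∀ q ∈ T.S, IsStarProjection q → (∀ x ∈ N, x * q = q * x) → q * e = q → q = 0 ∨ q = e) →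
    ∀ z ∈ T.S, (∀ x ∈ N, x * z = z * x) → z * e = z → e * z = z → ∃ c : ℂ, z = c • e

/-- the trace is multiplicative on `N × (N' ∩ M)` for a factor `N` -/
def Stmt_LTrMul : Prop :=
  ∀ (H : Type u) [NormedAddCommGroup H] [InnerProductSpace ℂ H] [CompleteSpace H]
    (M N : VonNeumannAlgebra H) (Ω : H), IsII1 M Ω → N ≤ M → IsFactorVN N →
    ∀ x ∈ N, ∀ z ∈ M, (∀ y ∈ N, y * z = z * y) →
    ⟪Ω, (x * z) Ω⟫_ℂ = ⟪Ω, x Ω⟫_ℂ * ⟪Ω, z Ω⟫_ℂ

/-- existence of the cutting data -/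
def Stmt_LCutEx : Prop :=
  ∀ (H : Type u) [NormedAddCommGroup H] [InnerProductSpace ℂ H] [CompleteSpace H]
    (M N : VonNeumannAlgebra H) (Ω : H), IsII1 M Ω → N ≤ M → IsFactorVN N → ¬ Injective N →
    ¬ DiffuseRelComm M N →
    ∃ (k m : ℕ) (e n : H →L[ℂ] H) (v : Fin k → H →L[ℂ] H) (s : Fin m → H →L[ℂ] H),
      0 < k ∧ Cut M N k m e n v s

/-- the generating set of the amplified algebra is a `*`-algebra inside `cutR` -/
def Stmt_LCutAlg : Prop :=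
  ∀ (H : Type u) [NormedAddCommGroup H] [InnerProductSpace ℂ H] [CompleteSpace H]
    (M N : VonNeumannAlgebra H) (k m : ℕ) (e n : H →L[ℂ] H) (v : Fin k → H →L[ℂ] H)
    (s : Fin m → H →L[ℂ] H), N ≤ M → Cut M N k m e n v s →
    (∀ a ∈ cutX N e n v, a ∈ cutR M v) ∧ (∀ a ∈ cutX N e n v, star a ∈ cutX N e n v) ∧
    1 ∈ cutX N e n v ∧ (∀ a ∈ cutX N e n v, ∀ b ∈ cutX N e n v, a + b ∈ cutX N e n v) ∧
    (∀ a ∈ cutX N e n v, ∀ b ∈ cutX N e n v, a * b ∈ cutX N e n v) ∧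
    (∀ (c : ℂ), ∀ a ∈ cutX N e n v, c • a ∈ cutX N e n v) ∧
    (∃ N₂ : VonNeumannAlgebra H, IsCutN N e n v N₂) ∧
    ∀ N₂ : VonNeumannAlgebra H, IsCutN N e n v N₂ → N₂ ≤ cutR M v

/-- the relative commutant of the amplified algebra in `cutR` is trivial -/
def Stmt_LCutTriv : Prop :=
  ∀ (H : Type u) [NormedAddCommGroup H] [InnerProductSpace ℂ H] [CompleteSpace H]
    (M N : VonNeumannAlgebra H) (k m : ℕ) (e n : H →L[ℂ] H) (v : Fin k → H →L[ℂ] H)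
    (s : Fin m → H →L[ℂ] H), N ≤ M → 0 < k → Cut M N k m e n v s →
    ∀ z ∈ cutR M v, (∀ a ∈ cutX N e n v, a * z = z * a) → ∃ c : ℂ, z = c • (1 : H →L[ℂ] H)

/-- separability of the amplified algebra -/
def Stmt_LCutSep : Prop :=
  ∀ (H : Type u) [NormedAddCommGroup H] [InnerProductSpace ℂ H] [CompleteSpace H]
    (M N : VonNeumannAlgebra H) (Ω : H) (k m : ℕ) (e n : H →L[ℂ] H) (v : Fin k → H →L[ℂ] H)
    (s : Fin m → H →L[ℂ] H), IsII1 M Ω → N ≤ M → Cut M N k m e n v s → SepVN Ω N →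
    ∀ N₂ : VonNeumannAlgebra H, IsCutN N e n v N₂ → SepVN Ω N₂

/-- noninjectivity of the amplified algebra -/
def Stmt_LCutInj : Prop :=
  ∀ (H : Type u) [NormedAddCommGroup H] [InnerProductSpace ℂ H] [CompleteSpace H]
    (M N : VonNeumannAlgebra H) (Ω : H) (k m : ℕ) (e n : H →L[ℂ] H) (v : Fin k → H →L[ℂ] H)
    (s : Fin m → H →L[ℂ] H), IsII1 M Ω → N ≤ M → IsFactorVN N → 0 < k → Cut M N k m e n v s →
    ¬ Injective N →
    ∀ N₂ : VonNeumannAlgebra H, N₂ ≤ M → (∀ a ∈ cutX N e n v, a ∈ N₂) → ¬ Injective N₂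

/-- asymptotic independence for a factor `N` (no hypothesis on the relative commutant) -/
def Stmt_LIndepN : Prop :=
  ∀ (H : Type u) [NormedAddCommGroup H] [InnerProductSpace ℂ H] [CompleteSpace H]
    (M N : VonNeumannAlgebra H) (Ω : H), IsII1 M Ω → N ≤ M → IsFactorVN N →
    ∀ T : TVN H, T.Ω = Ω → (∀ x, x ∈ T.S ↔ x ∈ M) →
    ∀ x ∈ N, ∀ δ > 0, ∃ (F : Finset (H →L[ℂ] H)) (ε : ℝ), 0 < ε ∧
      ∀ p ∈ T.S, IsStarProjection p → T.Near (N : Set (H →L[ℂ] H)) F ε p →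
        ‖T.tr (p * x) - T.tr p * T.tr x‖ ≤ δ

/-- small almost commuting projections for the amplified algebra -/
def Stmt_LCutSmall : Prop :=
  ∀ (H : Type u) [NormedAddCommGroup H] [InnerProductSpace ℂ H] [CompleteSpace H]
    (M N : VonNeumannAlgebra H) (Ω : H) (k m : ℕ) (e n : H →L[ℂ] H) (v : Fin k → H →L[ℂ] H)
    (s : Fin m → H →L[ℂ] H), IsII1 M Ω → N ≤ M → IsFactorVN N → 0 < k → Cut M N k m e n v s →
    ∀ T : TVN H, T.Ω = Ω → (∀ x, x ∈ T.S ↔ x ∈ M) → T.SmallProj (N : Set (H →L[ℂ] H)) e →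
    ∀ N₂ : VonNeumannAlgebra H, IsCutN N e n v N₂ →
    ∀ T' : TVN H, T'.Ω = Ω → (∀ x, x ∈ T'.S ↔ x ∈ cutR M v) →
      T'.SmallProj (N₂ : Set (H →L[ℂ] H)) 1

/-- Elliott intertwining for sequences -/
def Stmt_LInter : Prop :=
  ∀ (H : Type u) [NormedAddCommGroup H] [InnerProductSpace ℂ H] [CompleteSpace H]
    (T : TVN H) (N : Set (H →L[ℂ] H)), T.IsSub N → T.AConj N → T.AExist N →
    ∀ x : ℕ → H →L[ℂ] H, (∀ i, x i ∈ N) →
    ∃ (u x' : ℕ → H →L[ℂ] H), (∀ n, u n ∈ T.S ∧ u n ∈ unitary (H →L[ℂ] H)) ∧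
      (∀ i, x' i ∈ T.S) ∧
      (∀ i, Tendsto (fun n => (star (u n) * x i * u n) T.Ω) atTop (𝓝 (x' i T.Ω))) ∧
      ∀ η > 0, ∃ (k : ℕ) (q : Fin k → H →L[ℂ] H), T.IsPartOf 1 q ∧
        (∀ j, ‖q j T.Ω‖ ^ 2 ≤ η) ∧ ∀ i j, x' i * q j = q j * x' i

/-- limits of conjugates of all elements of `N` -/
def Stmt_LTheta : Prop :=
  ∀ (H : Type u) [NormedAddCommGroup H] [InnerProductSpace ℂ H] [CompleteSpace H]
    (T : TVN H) (N : Set (H →L[ℂ] H)), (∀ y ∈ N, y ∈ T.S) →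
    ∀ x : ℕ → H →L[ℂ] H, (∀ i, x i ∈ N) → (∀ y ∈ N, ∀ ε > 0, ∃ i, ‖(x i - y) T.Ω‖ ≤ ε) →
    ∀ u x' : ℕ → H →L[ℂ] H, (∀ n, u n ∈ T.S ∧ u n ∈ unitary (H →L[ℂ] H)) →
      (∀ i, x' i ∈ T.S) →
      (∀ i, Tendsto (fun n => (star (u n) * x i * u n) T.Ω) atTop (𝓝 (x' i T.Ω))) →
    ∃ θ : (H →L[ℂ] H) → (H →L[ℂ] H), (∀ y ∈ N, θ y ∈ T.S) ∧ (∀ y ∈ N, ‖θ y‖ ≤ ‖y‖) ∧
      (∀ y ∈ N, Tendsto (fun n => (star (u n) * y * u n) T.Ω) atTop (𝓝 (θ y T.Ω))) ∧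
      ∀ q ∈ T.S, (∀ i, x' i * q = q * x' i) → ∀ y ∈ N, θ y * q = q * θ y

/-- hypertraces survive conjugation in the limit -/
def Stmt_LConjInj : Prop :=
  ∀ (H : Type u) [NormedAddCommGroup H] [InnerProductSpace ℂ H] [CompleteSpace H]
    (M N P : VonNeumannAlgebra H) (Ω : H) (u : ℕ → H →L[ℂ] H) (θ : (H →L[ℂ] H) → (H →L[ℂ] H)),
    IsII1 M Ω → N ≤ M → P ≤ M → (∀ n, u n ∈ M ∧ u n ∈ unitary (H →L[ℂ] H)) →
    (∀ y ∈ N, θ y ∈ P) →
    (∀ y ∈ N, Tendsto (fun n => (star (u n) * y * u n) Ω) atTop (𝓝 (θ y Ω))) →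
    Injective P → Injective N

/-- case A: a noninjective subfactor with diffuse relative commutant -/
def Stmt_LCaseA : Prop :=
  ∀ (H : Type u) [NormedAddCommGroup H] [InnerProductSpace ℂ H] [CompleteSpace H]
    (M R N : VonNeumannAlgebra H) (Ω : H), IsII1 M Ω → R ≤ M → N ≤ R → ¬ Injective N →
    SepVN Ω N → (∀ z ∈ R, (∀ x ∈ N, x * z = z * x) → ∃ c : ℂ, z = c • (1 : H →L[ℂ] H)) →
    ∀ T : TVN H, T.Ω = Ω → (∀ x, x ∈ T.S ↔ x ∈ R) →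
    T.AConj (N : Set (H →L[ℂ] H)) → T.AExist (N : Set (H →L[ℂ] H)) →
    ∃ P : VonNeumannAlgebra H, P ≤ R ∧ IsFactorVN P ∧ ¬ Injective P ∧ DiffuseRelComm R P

/-- a sequence of projections of `P` which asymptotically commutes with `P` and is asymptotically
independent of `P`, with traces tending to `t ∈ (0,1)`, gives property Gamma -/
def Stmt_LGam : Prop :=
  ∀ (H : Type u) [NormedAddCommGroup H] [InnerProductSpace ℂ H] [CompleteSpace H]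
    (M P : VonNeumannAlgebra H) (Ω : H) (f : ℕ → H →L[ℂ] H) (t : ℝ), IsII1 M Ω → P ≤ M →
    0 < t → t < 1 → (∀ n, f n ∈ P ∧ IsStarProjection (f n)) →
    (∀ x ∈ P, Tendsto (fun n => (x * f n - f n * x) Ω) atTop (𝓝 0)) →
    (∀ x ∈ P, Tendsto (fun n => ⟪Ω, (f n * x) Ω⟫_ℂ) atTop (𝓝 ((t : ℂ) * ⟪Ω, x Ω⟫_ℂ))) →
    ∀ ω : Ultrafilter ℕ, (ω : Filter ℕ) ≤ cofinite → DiffuseUltra ω Ω P P

/-- case B: a noninjective subfactor with property Gamma -/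
def Stmt_LCaseB : Prop :=
  ∀ (H : Type u) [NormedAddCommGroup H] [InnerProductSpace ℂ H] [CompleteSpace H]
    (M R N : VonNeumannAlgebra H) (Ω : H), IsII1 M Ω → R ≤ M → N ≤ R → ¬ Injective N →
    SepVN Ω N → (∀ z ∈ R, (∀ x ∈ N, x * z = z * x) → ∃ c : ℂ, z = c • (1 : H →L[ℂ] H)) →
    ∀ T : TVN H, T.Ω = Ω → (∀ x, x ∈ T.S ↔ x ∈ R) → T.BExist (N : Set (H →L[ℂ] H)) →
    ∃ P : VonNeumannAlgebra H, P ≤ R ∧ IsFactorVN P ∧ ¬ Injective P ∧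
      ∀ ω : Ultrafilter ℕ, (ω : Filter ℕ) ≤ cofinite → DiffuseUltra ω Ω P P

end

end Pool.Agent.OS
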