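import Pool.Agent.OS.Hyper
import Pool.Agent.OS.LStmts

set_option autoImplicit false

/-!
# Hypertraces survive conjugation in the limit (MP_7c16f6_an, module LConjInj)
-/

open Filter Topology
open scoped InnerProductSpace

namespace Pool.Agent.OS

universe u

theorem lConjInj_proof (h1 : Stmt_J1.{u}) (h3 : Stmt_J3.{u}) : Stmt_LConjInj.{u} := by
  classical
  intro H _ _ _ M N P Ω u θ hM hNM hPM hu hθ hlim0 hinj
  apply h3 H M N Ω hM hNM
  obtain ⟨φ, hφ⟩ := h1 H M P Ω hM hPM hinj
  have hpos : Hyper.Pos φ := hφ.pos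
  have hone : φ 1 = 1 := Hyper.one hM hφ
  have hus : ∀ n, star (u n) * u n = 1 := fun n => Unitary.star_mul_self_of_mem (hu n).2
  have hus' : ∀ n, u n * star (u n) = 1 := fun n => Unitary.mul_star_self_of_mem (hu n).2
  have huM : ∀ n, star (u n) ∈ M := fun n => star_mem (hu n).1
  have hnorm : ∀ n, ‖u n‖ ≤ 1 := by
    intro n
    have e : ‖star (u n) * u n‖ = ‖u n‖ * ‖u n‖ := CStarRing.norm_star_mul_self
    rw [hus n] at e
    have e1 : ‖(1 : H →L[ℂ] H)‖ ≤ 1 := ContinuousLinearMap.norm_id_le
    nlinarith [norm_nonneg (u n)]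
  have hcn : ∀ n (T : H →L[ℂ] H), ‖star (u n) * T * u n‖ ≤ ‖T‖ := by
    intro n T
    calc ‖star (u n) * T * u n‖ ≤ ‖star (u n) * T‖ * ‖u n‖ := norm_mul_le _ _
      _ ≤ ‖star (u n)‖ * ‖T‖ * ‖u n‖ :=
          mul_le_mul_of_nonneg_right (norm_mul_le _ _) (norm_nonneg _)
      _ ≤ 1 * ‖T‖ * 1 := by
          have e2 : ‖star (u n)‖ ≤ 1 := by rw [norm_star]; exact hnorm n
          have := hnorm n
          have := norm_nonneg T
          gcongr
      _ = ‖T‖ := by ring
  let U : Ultrafilter ℕ := Ultrafilter.of atTop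
  have hU : (U : Filter ℕ) ≤ atTop := Ultrafilter.of_le _
  have hlim : ∀ A : H →L[ℂ] H, ∃ z : ℂ,
      Tendsto (fun n => φ (star (u n) * A * u n)) U (𝓝 z) := by
    intro A
    have hc : IsCompact (Metric.closedBall (0 : ℂ) ‖A‖) := isCompact_closedBall _ _
    obtain ⟨z, -, hz⟩ := hc.ultrafilter_le_nhds (U.map fun n => φ (star (u n) * A * u n)) (by
      rw [Ultrafilter.coe_map, le_principal_iff, mem_map]
      refine univ_mem' fun n => ?_
      change φ (star (u n) * A * u n) ∈ Metric.closedBall (0 : ℂ) ‖A‖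
      rw [mem_closedBall_zero_iff]
      exact (hpos.norm_le hone _).trans (hcn n A))
    exact ⟨z, hz⟩
  choose ψ hψ using hlim
  refine ⟨{ toFun := ψ
            map_add' := fun A B => ?_
            map_smul' := fun c A => ?_ }, ⟨fun y => ?_, fun x hx => ?_, fun x hx A => ?_⟩⟩
  · refine tendsto_nhds_unique (hψ (A + B)) ?_
    have h := (hψ A).add (hψ B)
    refine h.congr fun n => ?_
    rw [mul_add, add_mul, map_add]
  · refine tendsto_nhds_unique (hψ (c • A)) ?_
    have h := (hψ A).const_mul c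
    refine h.congr fun n => ?_
    rw [mul_smul_comm, smul_mul_assoc, map_smul, smul_eq_mul]
  · change 0 ≤ (ψ (star y * y)).re ∧ (ψ (star y * y)).im = 0
    have e : ∀ n, star (u n) * (star y * y) * u n = star (y * u n) * (y * u n) := by
      intro n; rw [star_mul]; noncomm_ring
    constructor
    · refine ge_of_tendsto' ((Complex.continuous_re.tendsto _).comp (hψ (star y * y))) fun n => ?_
      change 0 ≤ (φ (star (u n) * (star y * y) * u n)).re
      rw [e]
      exact (hφ.pos _).1
    · refine tendsto_nhds_unique ((Complex.continuous_im.tendsto _).comp (hψ (star y * y))) ?_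
      refine tendsto_const_nhds.congr fun n => ?_
      change 0 = (φ (star (u n) * (star y * y) * u n)).im
      rw [e]
      exact (hφ.pos _).2.symm
  · change ψ x = _
    refine tendsto_nhds_unique (hψ x) ?_
    refine tendsto_const_nhds.congr fun n => ?_
    rw [hφ.trace _ (mul_mem (mul_mem (huM n) hx) (hu n).1)]
    have h5 := hM.trace (star (u n) * x) (mul_mem (huM n) hx) (u n) (hu n).1
    change ⟪Ω, (star (u n) * x * u n) Ω⟫_ℂ = ⟪Ω, (u n * (star (u n) * x)) Ω⟫_ℂ at h5
    rw [h5, ← mul_assoc, hus' n, one_mul]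
  · change ψ (x * A) = ψ (A * x)
    have hc1 : Tendsto (fun n => φ (star (u n) * (x * A) * u n) -
        φ (star (u n) * (A * x) * u n)) U (𝓝 (ψ (x * A) - ψ (A * x))) :=
      (hψ (x * A)).sub (hψ (A * x))
    have hc2 : Tendsto (fun n => φ (star (u n) * (x * A) * u n) -
        φ (star (u n) * (A * x) * u n)) U (𝓝 0) := by
      rw [tendsto_zero_iff_norm_tendsto_zero]
      have hd : Tendsto (fun n => 2 * ‖A‖ * ‖(star (u n) * x * u n - θ x) Ω‖) U (𝓝 0) := by
        have h5 : Tendsto (fun n => (star (u n) * x * u n) Ω - θ x Ω) atTop (𝓝 0) := by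
          have := (hlim0 x hx).sub_const (θ x Ω)
          rwa [sub_self] at this
        have h6 := (h5.norm.mono_left hU).const_mul (2 * ‖A‖)
        rw [norm_zero, mul_zero] at h6
        exact h6
      refine squeeze_zero (fun n => norm_nonneg _) (fun n => ?_) hd
      have e1 : star (u n) * (x * A) * u n =
          (star (u n) * x * u n) * (star (u n) * A * u n) := by
        calc star (u n) * (x * A) * u n = star (u n) * x * 1 * A * u n := by noncomm_ring
          _ = star (u n) * x * (u n * star (u n)) * A * u n := by rw [hus' n]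
          _ = _ := by noncomm_ring
      have e2 : star (u n) * (A * x) * u n =
          (star (u n) * A * u n) * (star (u n) * x * u n) := by
        calc star (u n) * (A * x) * u n = star (u n) * A * 1 * x * u n := by noncomm_ring
          _ = star (u n) * A * (u n * star (u n)) * x * u n := by rw [hus' n]
          _ = _ := by noncomm_ring
      rw [e1, e2]
      set B := star (u n) * A * u n with hB
      set y := star (u n) * x * u n with hy
      have hyM : y - θ x ∈ M :=
        sub_mem (mul_mem (mul_mem (huM n) (hNM hx)) (hu n).1) (hPM (hθ x hx))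
      have e3 : φ (y * B) - φ (B * y) = φ ((y - θ x) * B) - φ (B * (y - θ x)) := by
        rw [mul_sub, sub_mul, map_sub, map_sub, hφ.central (θ x) (hθ x hx) B]
        ring
      rw [e3]
      have h4 := Hyper.left_le hM hφ hyM B
      have h5 := Hyper.right_le hM hφ hyM B
      have h6 : ‖B‖ ≤ ‖A‖ := hcn n A
      calc ‖φ ((y - θ x) * B) - φ (B * (y - θ x))‖
          ≤ ‖φ ((y - θ x) * B)‖ + ‖φ (B * (y - θ x))‖ := norm_sub_le _ _
        _ ≤ ‖(y - θ x) Ω‖ * ‖B‖ + ‖B‖ * ‖(y - θ x) Ω‖ := add_le_add h4 h5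
        _ = 2 * ‖B‖ * ‖(y - θ x) Ω‖ := by ring
        _ ≤ 2 * ‖A‖ * ‖(y - θ x) Ω‖ := by gcongr
    exact sub_eq_zero.1 (tendsto_nhds_unique hc1 hc2)

end Pool.Agent.OS
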