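import Pool.Agent.OS.LStmts
import Pool.Agent.OS.Compare

set_option autoImplicit false

/-!
# `LCopies`: `k` orthogonal copies of a projection of trace `1/k` in a factor
-/

open Filter Topology
open scoped InnerProductSpace

namespace Pool.Agent.OS

universe u

namespace LCopies

open Compare

variable {H : Type u} [NormedAddCommGroup H] [InnerProductSpace ℂ H] [CompleteSpace H]

/-- orthogonal families of projections of trace `c` -/
theorem family (hEx : Stmt_LExact.{u}) (T : TVN H) (hT : T.NoMin) (k : ℕ) (hk : 0 < k) :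
    ∀ m : ℕ, m ≤ k → ∃ p : Fin m → H →L[ℂ] H, T.IsPartOf (∑ j, p j) p ∧
      IsStarProjection (∑ j, p j) ∧ ∀ j, ‖p j T.Ω‖ ^ 2 = 1 / k := by
  intro m
  induction m with
  | zero =>
    intro _
    refine ⟨fun j => 0, ⟨fun j => j.elim0, fun j => j.elim0, fun i => i.elim0, rfl⟩, ?_,
      fun j => j.elim0⟩
    simp
  | succ m ih =>
    intro hm
    obtain ⟨p, hp, hs, ht⟩ := ih (by omega)
    set s : H →L[ℂ] H := ∑ j, p j with hsdef
    have hsS : s ∈ T.S := sum_mem fun j _ => hp.mem j
    have h1 : IsStarProjection (1 : H →L[ℂ] H) := IsStarProjection.one _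
    have hr : IsStarProjection (1 - s) := hs.one_sub
    have htr : ‖(1 - s) T.Ω‖ ^ 2 = 1 - m / k := by
      rw [norm_sub_proj T h1 hs (mul_one _)]
      have := hp.trace_sum hs
      rw [this]
      simp [ht, T.norm_Ω, div_eq_mul_inv]
    have hk' : (0 : ℝ) < k := by exact_mod_cast hk
    obtain ⟨q, hq, hqp, hqr, hqt⟩ := hEx H T hT (1 - s) (sub_mem (one_mem _) hsS) hr (1 / k)
      (by positivity) (by
        rw [htr, le_sub_iff_add_le, ← add_div, div_le_one hk']
        have : ((m + 1 : ℕ) : ℝ) ≤ k := by exact_mod_cast hm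
        push_cast at this
        linarith)
    have hqs : q * s = 0 := by
      have : q * (1 - s) * s = 0 := by
        rw [mul_assoc, sub_mul, one_mul, hs.isIdempotentElem.eq, sub_self, mul_zero]
      rwa [hqr] at this
    have hqj : ∀ j, q * p j = 0 := by
      intro j
      calc q * p j = q * (s * p j) := by rw [hp.mul_left j]
        _ = q * s * p j := (mul_assoc _ _ _).symm
        _ = 0 := by rw [hqs, zero_mul]
    have hjq : ∀ j, p j * q = 0 := by
      intro j
      have := congrArg star (hqj j)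
      rwa [star_mul, (hp.proj j).isSelfAdjoint.star_eq, hqp.isSelfAdjoint.star_eq,
        star_zero] at this
    have hsum : ∑ j, (Fin.snoc p q : Fin (m + 1) → H →L[ℂ] H) j = s + q := by
      rw [Fin.sum_univ_castSucc]
      simp [hsdef]
    refine ⟨Fin.snoc p q, ⟨?_, ?_, ?_, rfl⟩, ?_, ?_⟩
    · intro j
      refine Fin.lastCases ?_ (fun i => ?_) j
      · simpa using hq
      · simpa using hp.mem i
    · intro j
      refine Fin.lastCases ?_ (fun i => ?_) j
      · simpa using hqp
      · simpa using hp.proj i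
    · intro i j
      refine Fin.lastCases ?_ (fun i' => ?_) i
      · refine Fin.lastCases ?_ (fun j' => ?_) j
        · intro h; exact absurd rfl h
        · intro _; simpa using hqj j'
      · refine Fin.lastCases ?_ (fun j' => ?_) j
        · intro _; simpa using hjq i'
        · intro h
          simpa using hp.orth i' j' (fun h' => h (by rw [h']))
    · rw [hsum]
      exact add_proj hs hqp hqs
    · intro j
      refine Fin.lastCases ?_ (fun i => ?_) j
      · simpa using hqt
      · simpa using ht i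

end LCopies

open Compare in
theorem lCopies_proof (hEx : Stmt_LExact.{u}) (hC : Stmt_Compare.{u}) : Stmt_LCopies.{u} := by
  intro H _ _ _ T hT hF k hk f hf hfp hft
  obtain ⟨p, hp, hs, ht⟩ := LCopies.family hEx T hT k hk k le_rfl
  have hk' : (0 : ℝ) < k := by exact_mod_cast hk
  have hsS : ∑ j, p j ∈ T.S := sum_mem fun j _ => hp.mem j
  have h1 : IsStarProjection (1 : H →L[ℂ] H) := IsStarProjection.one _
  have hs1 : ∑ j, p j = 1 := by
    have h2 := norm_sub_proj T h1 hs (mul_one _)
    rw [hp.trace_sum hs] at h2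
    have h3 : ‖((1 : H →L[ℂ] H) - ∑ j, p j) T.Ω‖ ^ 2 = 0 := by
      rw [h2]
      simp [ht, T.norm_Ω, hk'.ne']
    have h4 := T.sep _ (sub_mem (one_mem _) hsS) (norm_eq_zero.1 (pow_eq_zero_iff (two_ne_zero) |>.1 h3))
    exact (sub_eq_zero.1 h4).symm
  have hv : ∀ j, ∃ v ∈ T.S, star v * v = f ∧ v * star v = p j := fun j =>
    hC H T hF f hf (p j) (hp.mem j) hfp (hp.proj j) (by
      have : ‖f T.Ω‖ ^ 2 = ‖p j T.Ω‖ ^ 2 := by rw [hft, ht j]
      exact (sq_eq_sq₀ (norm_nonneg _) (norm_nonneg _)).1 this)
  choose v hvS hv1 hv2 using hv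
  refine ⟨v, hvS, hv1, fun i j hij => ?_, ?_⟩
  · have hvi : v i = p i * v i := by
      rw [← hv2 i, mul_assoc, piso_mul (by rw [hv1 i]; exact hfp)]
    have hvj : v j = p j * v j := by
      rw [← hv2 j, mul_assoc, piso_mul (by rw [hv1 j]; exact hfp)]
    rw [hvi, hvj, star_mul, (hp.proj i).isSelfAdjoint.star_eq]
    calc star (v i) * p i * (p j * v j) = star (v i) * (p i * p j) * v j := by noncomm_ring
      _ = 0 := by rw [hp.orth i j hij]; simp
  · rw [← hs1]
    exact Finset.sum_congr rfl fun j _ => hv2 j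

end Pool.Agent.OS
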