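import Pool.Agent.OS.LStmts
import Pool.Agent.OS.Basic

set_option autoImplicit false

/-!
# Covering `1` by images of a nonzero projection
-/

open Filter Topology
open scoped InnerProductSpace

namespace Pool.Agent.OS

universe u

theorem lCover_proof (hE : Stmt_LExact.{u}) (hD : Stmt_Divide.{u}) (hC : Stmt_Compare.{u}) :
    Stmt_LCover.{u} := by
  intro H _ _ _ T hT hF n hn hnp hn0
  have hpos : 0 < ‖n T.Ω‖ ^ 2 := by
    have h : n T.Ω ≠ 0 := fun h => hn0 (T.sep n hn h)
    positivity
  have h1 : IsStarProjection (1 : H →L[ℂ] H) := IsStarProjection.one _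
  obtain ⟨m, q, hq, hqs⟩ := hD H T hT 1 (one_mem _) h1 _ hpos
  have hf : ∀ a, ∃ f ∈ T.S, IsStarProjection f ∧ f * n = f ∧ ‖f T.Ω‖ ^ 2 = ‖q a T.Ω‖ ^ 2 :=
    fun a => hE H T hT n hn hnp _ (by positivity) (hqs a)
  choose f hfm hfp hfn hfe using hf
  have hs : ∀ a, ∃ v ∈ T.S, star v * v = f a ∧ v * star v = q a := fun a =>
    hC H T hF _ (hfm a) _ (hq.mem a) (hfp a) (hq.proj a) (by
      have := hfe a
      exact (pow_left_inj₀ (norm_nonneg _) (norm_nonneg _) two_ne_zero).1 this)
  choose s hsm hs1 hs2 using hs
  refine ⟨m, s, hsm, fun a => ?_, ?_⟩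
  · -- `s_a f_a = s_a`
    have h3 : s a * f a = s a := by
      have hz : star (s a - s a * f a) * (s a - s a * f a) = 0 := by
        have hff : f a * f a = f a := (hfp a).isIdempotentElem
        have hfs : star (f a) = f a := (hfp a).isSelfAdjoint
        have e1 : star (s a - s a * f a) * (s a - s a * f a) =
            star (s a) * s a - star (s a) * s a * f a - f a * (star (s a) * s a) +
              f a * (star (s a) * s a) * f a := by
          rw [star_sub, star_mul, hfs]
          noncomm_ring
        rw [e1, hs1 a, hff, hff]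
        noncomm_ring
      have := CStarRing.star_mul_self_eq_zero_iff (s a - s a * f a)
      have := this.1 hz
      exact (sub_eq_zero.1 this).symm
    calc s a * n = s a * f a * n := by rw [h3]
      _ = s a * (f a * n) := by rw [mul_assoc]
      _ = s a := by rw [hfn a, h3]
  · simp only [hs2]
    exact hq.sum

end Pool.Agent.OS
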