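import Pool.Agent.OS.LStmts
import Pool.Agent.OS.Main

set_option autoImplicit false

/-!
# Module LCutAlg: the generating set of the amplified algebra is a `*`-algebra inside `cutR`
-/

open Filter Topology
open scoped InnerProductSpace

namespace Pool.Agent.OS

universe u

namespace LCutAlg

variable {H : Type u} [NormedAddCommGroup H] [InnerProductSpace ℂ H] [CompleteSpace H]

variable {M N : VonNeumannAlgebra H} {k m : ℕ} {e n : H →L[ℂ] H} {v : Fin k → H →L[ℂ] H}
    {s : Fin m → H →L[ℂ] H}

lemma f_idem (h : Cut M N k m e n v s) : (n * e) * (n * e) = n * e := by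
  have h1 := h.e_comm n h.n_mem
  have h2 : n * n = n := h.n_proj.isIdempotentElem
  have h3 : e * e = e := h.e_proj.isIdempotentElem
  calc (n * e) * (n * e) = n * (e * n) * e := by simp only [mul_assoc]
    _ = n * (n * e) * e := by rw [h1]
    _ = (n * n) * (e * e) := by simp only [mul_assoc]
    _ = n * e := by rw [h2, h3]

lemma f_star (h : Cut M N k m e n v s) : star (n * e) = n * e := by
  have h2 : star n = n := h.n_proj.isSelfAdjoint
  have h3 : star e = e := h.e_proj.isSelfAdjoint
  rw [star_mul, h2, h3, h.e_comm n h.n_mem]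

lemma v_f (h : Cut M N k m e n v s) (j : Fin k) : v j * (n * e) = v j := by
  have h1 := h.v_left j
  have h2 := f_idem h
  have h3 := f_star h
  have key : star (v j * (n * e) - v j) * (v j * (n * e) - v j) = 0 := by
    rw [star_sub, star_mul, h3, sub_mul, mul_sub, mul_sub]
    have e1 : n * e * star (v j) * (v j * (n * e)) = n * e := by
      calc n * e * star (v j) * (v j * (n * e)) = n * e * (star (v j) * v j) * (n * e) := by
            simp only [mul_assoc]
        _ = n * e := by rw [h1, h2, h2]
    have e2 : n * e * star (v j) * v j = n * e := by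
      rw [mul_assoc (n * e) (star (v j)) (v j), h1, h2]
    have e3 : star (v j) * (v j * (n * e)) = n * e := by
      rw [← mul_assoc, h1, h2]
    rw [e1, e2, e3, h1]
    simp
  exact sub_eq_zero.1 ((CStarRing.star_mul_self_eq_zero_iff _).1 key)

lemma f_vstar (h : Cut M N k m e n v s) (j : Fin k) : (n * e) * star (v j) = star (v j) := by
  have := congrArg star (v_f h j)
  rwa [star_mul, f_star h] at this

/-- the elements `n y n e` -/
lemma z_f (h : Cut M N k m e n v s) (y : H →L[ℂ] H) :
    (n * y * n * e) * (n * e) = n * y * n * e := by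
  have h1 := h.e_comm n h.n_mem
  have h2 : n * n = n := h.n_proj.isIdempotentElem
  have h3 : e * e = e := h.e_proj.isIdempotentElem
  calc (n * y * n * e) * (n * e) = n * y * n * (e * n) * e := by simp only [mul_assoc]
    _ = n * y * n * (n * e) * e := by rw [h1]
    _ = n * y * (n * n) * (e * e) := by simp only [mul_assoc]
    _ = n * y * n * e := by rw [h2, h3]

lemma f_z (h : Cut M N k m e n v s) {y : H →L[ℂ] H} (hy : y ∈ N) :
    (n * e) * (n * y * n * e) = n * y * n * e := by
  have h1 := h.e_comm n h.n_mem
  have h4 := h.e_comm y hy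
  have h2 : n * n = n := h.n_proj.isIdempotentElem
  have h3 : e * e = e := h.e_proj.isIdempotentElem
  calc (n * e) * (n * y * n * e) = n * (e * n) * y * n * e := by simp only [mul_assoc]
    _ = n * (n * e) * y * n * e := by rw [h1]
    _ = (n * n) * (e * y) * n * e := by simp only [mul_assoc]
    _ = n * (y * e) * n * e := by rw [h2, h4]
    _ = n * y * (e * n) * e := by simp only [mul_assoc]
    _ = n * y * (n * e) * e := by rw [h1]
    _ = n * y * n * (e * e) := by simp only [mul_assoc]
    _ = n * y * n * e := by rw [h3]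

lemma z_mem (hNM : N ≤ M) (h : Cut M N k m e n v s) {y : H →L[ℂ] H} (hy : y ∈ N) :
    n * y * n * e ∈ M :=
  mul_mem (hNM (mul_mem (mul_mem h.n_mem hy) h.n_mem)) h.e_mem

lemma star_z (h : Cut M N k m e n v s) {y : H →L[ℂ] H} (hy : y ∈ N) :
    star (n * y * n * e) = n * star y * n * e := by
  have h1 := h.e_comm n h.n_mem
  have h4 := h.e_comm (star y) (star_mem (S := VonNeumannAlgebra H) hy)
  have h2 : star n = n := h.n_proj.isSelfAdjoint
  have h3 : star e = e := h.e_proj.isSelfAdjoint
  calc star (n * y * n * e) = e * n * star y * n := by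
        simp only [star_mul, h2, h3, mul_assoc]
    _ = n * (e * star y) * n := by rw [← h1]; simp only [mul_assoc]
    _ = n * star y * (e * n) := by rw [← h4]; simp only [mul_assoc]
    _ = n * star y * n * e := by rw [← h1]; simp only [mul_assoc]

lemma left_mat (h : Cut M N k m e n v s) {y : H →L[ℂ] H} (hy : y ∈ N) (i l : Fin k) :
    v i * star (v l) * rho v (n * y * n * e) = v i * (n * y * n * e) * star (v l) := by
  unfold rho
  rw [Finset.mul_sum, Finset.sum_eq_single l]
  · calc v i * star (v l) * (v l * (n * y * n * e) * star (v l))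
        = v i * ((star (v l) * v l) * (n * y * n * e)) * star (v l) := by simp only [mul_assoc]
      _ = _ := by rw [h.v_left, f_z h hy]
  · intro j _ hj
    calc v i * star (v l) * (v j * (n * y * n * e) * star (v j))
        = v i * (star (v l) * v j) * ((n * y * n * e) * star (v j)) := by simp only [mul_assoc]
      _ = 0 := by rw [h.v_orth l j (Ne.symm hj)]; simp
  · intro hl; exact absurd (Finset.mem_univ _) hl

lemma right_mat (h : Cut M N k m e n v s) (y : H →L[ℂ] H) (i l : Fin k) :
    rho v (n * y * n * e) * (v i * star (v l)) = v i * (n * y * n * e) * star (v l) := by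
  unfold rho
  rw [Finset.sum_mul, Finset.sum_eq_single i]
  · calc v i * (n * y * n * e) * star (v i) * (v i * star (v l))
        = v i * ((n * y * n * e) * (star (v i) * v i)) * star (v l) := by simp only [mul_assoc]
      _ = _ := by rw [h.v_left, z_f h y]
  · intro j _ hj
    calc v j * (n * y * n * e) * star (v j) * (v i * star (v l))
        = v j * (n * y * n * e) * (star (v j) * v i) * star (v l) := by simp only [mul_assoc]
      _ = 0 := by rw [h.v_orth j i hj]; simp
  · intro hl; exact absurd (Finset.mem_univ _) hl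

lemma rho_mem (hNM : N ≤ M) (h : Cut M N k m e n v s) {y : H →L[ℂ] H} (hy : y ∈ N) :
    rho v (n * y * n * e) ∈ M := by
  unfold rho
  refine sum_mem fun j _ => ?_
  exact mul_mem (mul_mem (h.v_mem j) (z_mem hNM h hy))
    (star_mem (S := VonNeumannAlgebra H) (h.v_mem j))

lemma rho_mul (h : Cut M N k m e n v s) (y y' : H →L[ℂ] H) :
    rho v (n * y * n * e) * rho v (n * y' * n * e) =
      rho v ((n * y * n * e) * (n * y' * n * e)) := by
  unfold rho
  rw [Finset.sum_mul]
  refine Finset.sum_congr rfl fun i _ => ?_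
  rw [Finset.mul_sum, Finset.sum_eq_single i]
  · calc v i * (n * y * n * e) * star (v i) * (v i * (n * y' * n * e) * star (v i))
        = v i * (((n * y * n * e) * (star (v i) * v i)) * (n * y' * n * e)) * star (v i) := by
          simp only [mul_assoc]
      _ = _ := by rw [h.v_left, z_f h y]
  · intro j _ hj
    calc v i * (n * y * n * e) * star (v i) * (v j * (n * y' * n * e) * star (v j))
        = v i * (n * y * n * e) * (star (v i) * v j) * ((n * y' * n * e) * star (v j)) := by
          simp only [mul_assoc]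
      _ = 0 := by rw [h.v_orth i j (Ne.symm hj)]; simp
  · intro hl; exact absurd (Finset.mem_univ _) hl

lemma z_mul (h : Cut M N k m e n v s) {y' : H →L[ℂ] H} (y : H →L[ℂ] H) (hy' : y' ∈ N) :
    (n * y * n * e) * (n * y' * n * e) = n * (y * n * y') * n * e := by
  have h1 := h.e_comm n h.n_mem
  have h4 := h.e_comm y' hy'
  have h2 : n * n = n := h.n_proj.isIdempotentElem
  have h3 : e * e = e := h.e_proj.isIdempotentElem
  calc (n * y * n * e) * (n * y' * n * e) = n * y * n * (e * n) * y' * n * e := by
        simp only [mul_assoc]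
    _ = n * y * n * (n * e) * y' * n * e := by rw [h1]
    _ = n * y * (n * n) * (e * y') * n * e := by simp only [mul_assoc]
    _ = n * y * n * (y' * e) * n * e := by rw [h2, h4]
    _ = n * y * n * y' * (e * n) * e := by simp only [mul_assoc]
    _ = n * y * n * y' * (n * e) * e := by rw [h1]
    _ = n * y * n * y' * n * (e * e) := by simp only [mul_assoc]
    _ = n * (y * n * y') * n * e := by rw [h3]; simp only [mul_assoc]

end LCutAlg

open LCutAlg

theorem lCutAlg_proof : Stmt_LCutAlg.{u} := by
  intro H _ _ _ M N k m e n v s hNM h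
  have hR : ∀ a ∈ cutX N e n v, a ∈ cutR M v := by
    rintro a ⟨y, hy, rfl⟩
    refine ⟨rho_mem hNM h hy, ?_⟩
    rintro b ⟨i, l, rfl⟩
    rw [left_mat h hy, right_mat h]
  have hstar : ∀ a ∈ cutX N e n v, star a ∈ cutX N e n v := by
    rintro a ⟨y, hy, rfl⟩
    refine ⟨star y, star_mem (S := VonNeumannAlgebra H) hy, ?_⟩
    unfold rho
    rw [star_sum]
    refine Finset.sum_congr rfl fun j _ => ?_
    rw [star_mul, star_mul, star_star, star_z h hy, ← mul_assoc]
  refine ⟨hR, hstar, ?_, ?_, ?_, ?_, ⟨Main.gen _ hstar, rfl⟩, ?_⟩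
  · refine ⟨1, one_mem _, ?_⟩
    unfold rho
    have h2 : n * n = n := h.n_proj.isIdempotentElem
    rw [mul_one, h2, ← h.v_sum]
    refine Finset.sum_congr rfl fun j _ => ?_
    rw [v_f h]
  · rintro a ⟨y, hy, rfl⟩ b ⟨y', hy', rfl⟩
    refine ⟨y + y', add_mem hy hy', ?_⟩
    unfold rho
    rw [← Finset.sum_add_distrib]
    refine Finset.sum_congr rfl fun j _ => ?_
    simp only [mul_add, add_mul]
  · rintro a ⟨y, hy, rfl⟩ b ⟨y', hy', rfl⟩
    refine ⟨y * n * y', mul_mem (mul_mem hy h.n_mem) hy', ?_⟩
    rw [rho_mul h, z_mul h y hy']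
  · rintro c a ⟨y, hy, rfl⟩
    refine ⟨c • y, ?_, ?_⟩
    · exact N.toStarSubalgebra.smul_mem hy c
    · unfold rho
      rw [Finset.smul_sum]
      refine Finset.sum_congr rfl fun j _ => ?_
      simp only [mul_smul_comm, smul_mul_assoc]
  · intro N₂ hN₂ a ha
    have ha' : a ∈ (N₂ : Set (H →L[ℂ] H)) := ha
    rw [hN₂] at ha'
    exact Main.gen_le (hX := hstar) hR ha'

end Pool.Agent.OS
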