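import Pool.Agent.OS.LStmts
import Pool.Agent.OS.Basic

set_option autoImplicit false

/-!
# Module LCutEx: existence of the cutting data
-/

open Filter Topology
open scoped InnerProductSpace

namespace Pool.Agent.OS

universe u

theorem lCutEx_proof (hTypeI : Stmt_LTypeI.{u}) (hExact : Stmt_LExact.{u})
    (hCopies : Stmt_LCopies.{u}) (hCover : Stmt_LCover.{u}) (hMinTriv : Stmt_LMinTriv.{u})
    (hTrMul : Stmt_LTrMul.{u}) (hOfVN : Stmt_OfVN.{u}) : Stmt_LCutEx.{u} := by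
  classical
  intro H _ _ _ M N Ω hM hNM hNF hNI hnot
  unfold DiffuseRelComm at hnot
  push Not at hnot
  obtain ⟨e, heM, hep, hec, he0, hemin⟩ := hnot
  obtain ⟨T, hTΩ, hTS⟩ := hOfVN H M Ω hM M le_rfl
  obtain ⟨T', hT'Ω, hT'S⟩ := hOfVN H M Ω hM N hNM
  have hNoMin : T.NoMin := by
    intro p hp hpp hp0
    obtain ⟨q, hq, h1, h2, h3, h4⟩ := hM.no_min p ((hTS p).1 hp) hpp hp0
    exact ⟨q, (hTS q).2 hq, h1, h2, h3, h4⟩
  have hFac : T.Factor := by
    intro x hx hc
    exact hM.factor x ((hTS x).1 hx) fun y hy => hc y ((hTS y).2 hy)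
  have hNoMin' : T'.NoMin := hTypeI H M N Ω hM hNM hNF hNI T' hT'Ω hT'S
  have hFac' : T'.Factor := by
    intro x hx hc
    exact hNF x ((hT'S x).1 hx) fun y hy => hc y ((hT'S y).2 hy)
  have hSub : T.IsSub (N : Set (H →L[ℂ] H)) :=
    ⟨fun x hx => (hTS x).2 (hNM hx), fun x hx => star_mem (S := VonNeumannAlgebra H) hx⟩
  have hmin : ∀ z ∈ M, (∀ x ∈ N, x * z = z * x) → z * e = z → e * z = z →
      ∃ c : ℂ, z = c • e := by
    intro z hz hzc h1 h2
    refine hMinTriv H T (N : Set (H →L[ℂ] H)) hSub e ((hTS e).2 heM) hep he0 hec ?_ z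
      ((hTS z).2 hz) hzc h1 h2
    intro q hq hqp hqc hqe
    by_contra hcon
    push Not at hcon
    exact hemin q ((hTS q).1 hq) hqp hqc hcon.1 hcon.2 hqe
  -- the trace of `e`
  have hτ : 0 < ‖e Ω‖ ^ 2 := by
    have : ‖e Ω‖ ≠ 0 := by
      intro h0
      apply he0
      apply T.sep e ((hTS e).2 heM)
      rw [hTΩ]
      exact norm_eq_zero.1 h0
    positivity
  obtain ⟨k, hk⟩ := exists_nat_gt (1 / ‖e Ω‖ ^ 2)
  have hk0 : (0 : ℝ) < k := lt_trans (by positivity) hk
  have hkpos : 0 < k := by exact_mod_cast hk0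
  set t : ℝ := 1 / (k * ‖e Ω‖ ^ 2) with ht
  have ht0 : 0 < t := by positivity
  have ht1 : t ≤ 1 := by
    rw [ht, div_le_one (by positivity)]
    rw [div_lt_iff₀ hτ] at hk
    exact hk.le
  have h1T' : ‖(1 : H →L[ℂ] H) T'.Ω‖ ^ 2 = 1 := by
    simp [T'.norm_Ω]
  have h1p : IsStarProjection (1 : H →L[ℂ] H) := ⟨by simp [IsIdempotentElem], by simp [IsSelfAdjoint]⟩
  obtain ⟨n, hnS, hnp, -, hnt⟩ := hExact H T' hNoMin' 1 (one_mem _) h1p t ht0.le
    (by rw [h1T']; exact ht1)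
  have hnN : n ∈ N := (hT'S n).1 hnS
  rw [hT'Ω] at hnt
  have hn0 : n ≠ 0 := by
    rintro rfl
    simp at hnt
    exact ht0.ne hnt
  -- `n e` is a projection of trace `1/k`
  have hne : n * e = e * n := hec n hnN
  have hnep : IsStarProjection (n * e) := by
    refine ⟨?_, ?_⟩
    · show n * e * (n * e) = n * e
      calc n * e * (n * e) = n * (e * n) * e := by simp only [mul_assoc]
        _ = n * (n * e) * e := by rw [hne]
        _ = (n * n) * (e * e) := by simp only [mul_assoc]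
        _ = n * e := by rw [hnp.isIdempotentElem.eq, hep.isIdempotentElem.eq]
    · show star (n * e) = n * e
      rw [star_mul, hep.isSelfAdjoint.star_eq, hnp.isSelfAdjoint.star_eq, hne]
  have hneM : n * e ∈ M := mul_mem (hNM hnN) heM
  have htr := hTrMul H M N Ω hM hNM hNF n hnN e heM hec
  have hnet : ‖(n * e) T.Ω‖ ^ 2 = 1 / k := by
    have e1 := T.tr_proj hnep
    have e2 := T.tr_proj hep
    have e3 := T.tr_proj hnp
    rw [TVN.tr, hTΩ] at e1 e2 e3
    rw [e1, e2, e3] at htr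
    have h4 : ‖(n * e) Ω‖ ^ 2 = ‖n Ω‖ ^ 2 * ‖e Ω‖ ^ 2 := by exact_mod_cast htr
    rw [hTΩ, h4, hnt, ht, div_mul_eq_mul_div, one_mul, mul_comm (k : ℝ), div_mul_eq_div_div,
      div_self hτ.ne']
  obtain ⟨v, hvS, hvl, hvo, hvs⟩ := hCopies H T hNoMin hFac k hkpos (n * e) ((hTS _).2 hneM) hnep hnet
  obtain ⟨m, s, hsS, hsn, hss⟩ := hCover H T' hNoMin' hFac' n hnS hnp hn0
  refine ⟨k, m, e, n, v, s, hkpos, ?_⟩
  exact
    { e_mem := heM
      e_proj := hep
      e_ne := he0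
      e_comm := hec
      e_min := hmin
      n_mem := hnN
      n_proj := hnp
      n_ne := hn0
      v_mem := fun j => (hTS _).1 (hvS j)
      v_left := hvl
      v_orth := hvo
      v_sum := hvs
      s_mem := fun a => (hT'S _).1 (hsS a)
      s_right := hsn
      s_sum := hss }

end Pool.Agent.OS
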