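import Pool.Agent.OS.Hyper
import Pool.Agent.OS.LStmts

set_option autoImplicit false

/-!
# Noninjectivity of the amplified algebra (MP_7c16f6_an, module LCutInj)
-/

open Filter Topology
open scoped InnerProductSpace

namespace Pool.Agent.OS

universe u

namespace LCutInj

variable {H : Type u} [NormedAddCommGroup H] [InnerProductSpace ℂ H] [CompleteSpace H]
variable {M N : VonNeumannAlgebra H} {k m : ℕ} {e n : H →L[ℂ] H} {v : Fin k → H →L[ℂ] H}
  {s : Fin m → H →L[ℂ] H}

theorem proj_mul {p : H →L[ℂ] H} (hp : IsStarProjection p) : p * p = p := hp.isIdempotentElem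

theorem proj_star {p : H →L[ℂ] H} (hp : IsStarProjection p) : star p = p := hp.isSelfAdjoint

/-- `w f = w` if `w^* w = f` is a projection -/
theorem right_mul {w f : H →L[ℂ] H} (h : star w * w = f) (hf : f * f = f) : w * f = w := by
  have hs : star f = f := by rw [← h]; rw [star_mul, star_star]
  have h0 : star (w * f - w) * (w * f - w) = 0 := by
    have : star (w * f - w) * (w * f - w) =
        star f * (star w * w) * f - star f * (star w * w) - (star w * w) * f + star w * w := by
      rw [star_sub, star_mul]; noncomm_ring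
    rw [this, h, hs, hf, hf]; abel
  have h1 : w * f - w = 0 := (CStarRing.star_mul_self_eq_zero_iff _).1 h0
  exact sub_eq_zero.1 h1

theorem f_proj (hc : Cut M N k m e n v s) : (n * e) * (n * e) = n * e := by
  have h1 := hc.e_comm n hc.n_mem
  calc (n * e) * (n * e) = n * (e * n) * e := by noncomm_ring
    _ = n * (n * e) * e := by rw [← h1]
    _ = (n * n) * (e * e) := by noncomm_ring
    _ = n * e := by rw [proj_mul hc.n_proj, proj_mul hc.e_proj]

theorem v_f (hc : Cut M N k m e n v s) (j : Fin k) : v j * (n * e) = v j :=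
  right_mul (hc.v_left j) (f_proj hc)

theorem v_e (hc : Cut M N k m e n v s) (j : Fin k) : v j * e = v j := by
  calc v j * e = v j * (n * e) * e := by rw [v_f hc j]
    _ = v j * (n * (e * e)) := by noncomm_ring
    _ = v j * (n * e) := by rw [proj_mul hc.e_proj]
    _ = v j := v_f hc j

theorem v_n (hc : Cut M N k m e n v s) (j : Fin k) : v j * n = v j := by
  have h1 := hc.e_comm n hc.n_mem
  calc v j * n = v j * (n * e) * n := by rw [v_f hc j]
    _ = v j * (n * (e * n)) := by noncomm_ring
    _ = v j * (n * (n * e)) := by rw [← h1]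
    _ = v j * ((n * n) * e) := by noncomm_ring
    _ = v j * (n * e) := by rw [proj_mul hc.n_proj]
    _ = v j := v_f hc j

theorem e_vs (hc : Cut M N k m e n v s) (j : Fin k) : e * star (v j) = star (v j) := by
  have h := congrArg star (v_e hc j)
  rwa [star_mul, proj_star hc.e_proj] at h

theorem n_vs (hc : Cut M N k m e n v s) (j : Fin k) : n * star (v j) = star (v j) := by
  have h := congrArg star (v_n hc j)
  rwa [star_mul, proj_star hc.n_proj] at h

theorem n_ss (hc : Cut M N k m e n v s) (a : Fin m) : n * star (s a) = star (s a) := by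
  have h := congrArg star (hc.s_right a)
  rwa [star_mul, proj_star hc.n_proj] at h

/-- `ρ(z) v_j = v_j z` for `z = n y n e` -/
theorem rho_v (hc : Cut M N k m e n v s) (j : Fin k) {y : H →L[ℂ] H} (_hy : y ∈ N) :
    rho v (n * y * n * e) * v j = v j * (n * y * n * e) := by
  classical
  unfold rho
  rw [Finset.sum_mul, Finset.sum_eq_single j]
  · have h1 := hc.e_comm n hc.n_mem
    calc v j * (n * y * n * e) * star (v j) * v j
        = v j * (n * y * n * e) * (star (v j) * v j) := by noncomm_ring
      _ = v j * (n * y * n * e) * (n * e) := by rw [hc.v_left j]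
      _ = v j * (n * y * n * (e * n) * e) := by noncomm_ring
      _ = v j * (n * y * n * (n * e) * e) := by rw [← h1]
      _ = v j * (n * y * (n * n) * (e * e)) := by noncomm_ring
      _ = v j * (n * y * n * e) := by rw [proj_mul hc.n_proj, proj_mul hc.e_proj]
  · intro i _ hij
    calc v i * (n * y * n * e) * star (v i) * v j
        = v i * (n * y * n * e) * (star (v i) * v j) := by noncomm_ring
      _ = 0 := by rw [hc.v_orth i j hij, mul_zero]
  · intro h; exact absurd (Finset.mem_univ j) h

/-- `v_j^* ρ(z) = z v_j^*` for `z = n y n e` -/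
theorem vs_rho (hc : Cut M N k m e n v s) (j : Fin k) {y : H →L[ℂ] H} (hy : y ∈ N) :
    star (v j) * rho v (n * y * n * e) = (n * y * n * e) * star (v j) := by
  classical
  unfold rho
  rw [Finset.mul_sum, Finset.sum_eq_single j]
  · have h1 := hc.e_comm (n * y * n) (mul_mem (mul_mem hc.n_mem hy) hc.n_mem)
    calc star (v j) * (v j * (n * y * n * e) * star (v j))
        = (star (v j) * v j) * (n * y * n * e) * star (v j) := by noncomm_ring
      _ = (n * e) * (n * y * n * e) * star (v j) := by rw [hc.v_left j]
      _ = n * (e * (n * y * n)) * e * star (v j) := by noncomm_ring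
      _ = n * ((n * y * n) * e) * e * star (v j) := by rw [← h1]
      _ = ((n * n) * y * n) * (e * e) * star (v j) := by noncomm_ring
      _ = (n * y * n * e) * star (v j) := by rw [proj_mul hc.n_proj, proj_mul hc.e_proj]
  · intro i _ hij
    calc star (v j) * (v i * (n * y * n * e) * star (v i))
        = (star (v j) * v i) * (n * y * n * e) * star (v i) := by noncomm_ring
      _ = 0 := by rw [hc.v_orth j i (Ne.symm hij)]; noncomm_ring
  · intro h; exact absurd (Finset.mem_univ j) h

end LCutInj

open LCutInj in
theorem lCutInj_proof (h1 : Stmt_J1.{u}) (h3 : Stmt_LJ3.{u}) (hT : Stmt_LTrMul.{u})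
    (hO : Stmt_OfVN.{u}) : Stmt_LCutInj.{u} := by
  classical
  intro H _ _ _ M N Ω k m e n v s hM hNM hfac hk hc hN N₂ hN₂M hX hinj
  apply hN
  apply h3 H M N Ω hM hNM
  obtain ⟨φ, hφ⟩ := h1 H M N₂ Ω hM hN₂M hinj
  obtain ⟨T, hTΩ, hTS⟩ := hO H M Ω hM M le_rfl
  let j0 : Fin k := ⟨0, hk⟩
  set w := v j0 with hw
  have hwM : w ∈ M := hc.v_mem j0
  have hwe : w * e = w := v_e hc j0
  have hwn : w * n = w := v_n hc j0
  have hews : e * star w = star w := e_vs hc j0
  have hnws : n * star w = star w := n_vs hc j0
  -- the trace of e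
  have htr : ∀ x ∈ M, ∀ y ∈ M, ⟪Ω, (x * y) Ω⟫_ℂ = ⟪Ω, (y * x) Ω⟫_ℂ := fun x hx y hy =>
    hM.trace x hx y hy
  have hte : ⟪Ω, e Ω⟫_ℂ = ((‖e Ω‖ ^ 2 : ℝ) : ℂ) := by
    have h := Hyper.tr_star_self (Ω := Ω) e
    rwa [proj_star hc.e_proj, proj_mul hc.e_proj] at h
  have hpos : 0 < ‖e Ω‖ ^ 2 := by
    have : ‖e Ω‖ ≠ 0 := by
      intro h0
      apply hc.e_ne
      apply T.sep e ((hTS e).2 hc.e_mem)
      rw [hTΩ]
      exact norm_eq_zero.1 h0
    positivity
  set c : ℝ := (‖e Ω‖ ^ 2)⁻¹ with hcdef
  have hcpos : 0 ≤ c := by positivity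
  let ψ : (H →L[ℂ] H) →ₗ[ℂ] ℂ :=
    { toFun := fun A => (c : ℂ) * ∑ a, φ (w * star (s a) * A * s a * star w)
      map_add' := fun A B => by
        rw [← mul_add, ← Finset.sum_add_distrib]
        congr 1
        refine Finset.sum_congr rfl fun a _ => ?_
        rw [← map_add]
        congr 1
        noncomm_ring
      map_smul' := fun r A => by
        have e0 : ∀ a, φ (w * star (s a) * (r • A) * s a * star w) =
            r * φ (w * star (s a) * A * s a * star w) := by
          intro a
          have e00 : w * star (s a) * (r • A) * s a * star w =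
              r • (w * star (s a) * A * s a * star w) := by
            simp only [mul_smul_comm, smul_mul_assoc]
          rw [e00, map_smul, smul_eq_mul]
        rw [RingHom.id_apply, smul_eq_mul, Finset.sum_congr rfl fun a _ => e0 a,
          ← Finset.mul_sum, mul_left_comm] }
  have hψ : ∀ A, ψ A = (c : ℂ) * ∑ a, φ (w * star (s a) * A * s a * star w) := fun A => rfl
  refine ⟨ψ, ⟨fun y => ?_, fun x hx => ?_, fun x hx A => ?_⟩⟩
  · rw [hψ, Complex.re_ofReal_mul, Complex.im_ofReal_mul, Complex.re_sum, Complex.im_sum]
    have e1 : ∀ a, w * star (s a) * (star y * y) * s a * star w =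
        star (y * s a * star w) * (y * s a * star w) := by
      intro a
      rw [star_mul, star_mul, star_star]; noncomm_ring
    constructor
    · refine mul_nonneg hcpos (Finset.sum_nonneg fun a _ => ?_)
      rw [e1]; exact (hφ.pos _).1
    · rw [Finset.sum_eq_zero fun a _ => ?_, mul_zero]
      rw [e1]; exact (hφ.pos _).2
  · rw [hψ]
    have hsM : ∀ a, s a ∈ M := fun a => hNM (hc.s_mem a)
    have hxM : x ∈ M := hNM hx
    have e1 : ∀ a, φ (w * star (s a) * x * s a * star w) = ⟪Ω, (x * s a * star (s a) * e) Ω⟫_ℂ := by
      intro a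
      have hm1 : star (s a) * x * s a * star w ∈ M :=
        mul_mem (mul_mem (mul_mem (star_mem (hsM a)) hxM) (hsM a)) (star_mem hwM)
      have e2 : w * star (s a) * x * s a * star w = w * (star (s a) * x * s a * star w) := by
        noncomm_ring
      rw [e2, hφ.trace _ (mul_mem hwM hm1), htr _ hwM _ hm1]
      have e3 : star (s a) * x * s a * star w * w = star (s a) * (x * s a * e) := by
        calc star (s a) * x * s a * star w * w = star (s a) * x * s a * (star w * w) := by
              noncomm_ring
          _ = star (s a) * x * s a * (n * e) := by rw [hw, hc.v_left j0]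
          _ = star (s a) * x * (s a * n) * e := by noncomm_ring
          _ = star (s a) * x * s a * e := by rw [hc.s_right a]
          _ = _ := by noncomm_ring
      rw [e3, htr _ (star_mem (hsM a)) _ (mul_mem (mul_mem hxM (hsM a)) hc.e_mem)]
      have e4 : x * s a * e * star (s a) = x * s a * star (s a) * e := by
        calc x * s a * e * star (s a) = x * s a * (e * star (s a)) := by noncomm_ring
          _ = x * s a * (star (s a) * e) := by rw [← hc.e_comm _ (star_mem (hc.s_mem a))]
          _ = _ := by noncomm_ring
      rw [e4]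
    have e5 : ∑ a, φ (w * star (s a) * x * s a * star w) = ⟪Ω, (x * e) Ω⟫_ℂ := by
      rw [Finset.sum_congr rfl fun a _ => e1 a, ← inner_sum]
      congr 1
      have : x * e = ∑ a, x * s a * star (s a) * e := by
        calc x * e = x * (∑ a, s a * star (s a)) * e := by rw [hc.s_sum, mul_one]
          _ = _ := by
            rw [Finset.mul_sum, Finset.sum_mul]
            refine Finset.sum_congr rfl fun a _ => ?_
            noncomm_ring
      rw [this, _root_.sum_apply]
    rw [e5, hT H M N Ω hM hNM hfac x hx e hc.e_mem hc.e_comm, hte]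
    have : (c : ℂ) * (((‖e Ω‖ ^ 2 : ℝ) : ℂ)) = 1 := by
      rw [← Complex.ofReal_mul, hcdef, inv_mul_cancel₀ hpos.ne', Complex.ofReal_one]
    calc (c : ℂ) * (⟪Ω, x Ω⟫_ℂ * ((‖e Ω‖ ^ 2 : ℝ) : ℂ))
        = ((c : ℂ) * ((‖e Ω‖ ^ 2 : ℝ) : ℂ)) * ⟪Ω, x Ω⟫_ℂ := by ring
      _ = ⟪Ω, x Ω⟫_ℂ := by rw [this, one_mul]
  · rw [hψ, hψ]
    congr 1
    -- matrix entries
    have hz : ∀ a b, star (s a) * x * s b ∈ N := fun a b =>
      mul_mem (mul_mem (star_mem (hc.s_mem a)) hx) (hc.s_mem b)
    have hzn : ∀ a b, n * (star (s a) * x * s b) * n = star (s a) * x * s b := by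
      intro a b
      calc n * (star (s a) * x * s b) * n = (n * star (s a)) * x * (s b * n) := by noncomm_ring
        _ = star (s a) * x * s b := by rw [n_ss hc a, hc.s_right b]
    have k1 : ∀ a b, w * (star (s a) * x * s b) =
        rho v (n * (star (s a) * x * s b) * n * e) * w := by
      intro a b
      rw [hw, rho_v hc j0 (hz a b), hzn]
      have h1 := hc.e_comm _ (hz a b)
      rw [h1]
      calc v j0 * (star (s a) * x * s b) = (v j0 * e) * (star (s a) * x * s b) := by
            rw [v_e hc j0]
        _ = _ := by noncomm_ring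
    have k2 : ∀ a b, star w * rho v (n * (star (s a) * x * s b) * n * e) =
        (star (s a) * x * s b) * star w := by
      intro a b
      rw [hw, vs_rho hc j0 (hz a b), hzn, mul_assoc, e_vs hc j0]
    have k3 : ∀ a, φ (w * star (s a) * (x * A) * s a * star w) =
        ∑ b, φ (w * star (s b) * A * s a * (star (s a) * x * s b) * star w) := by
      intro a
      have e1 : w * star (s a) * (x * A) * s a * star w =
          ∑ b, rho v (n * (star (s a) * x * s b) * n * e) *
            (w * star (s b) * A * s a * star w) := by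
        calc w * star (s a) * (x * A) * s a * star w
            = w * star (s a) * x * 1 * A * s a * star w := by noncomm_ring
          _ = w * star (s a) * x * (∑ b, s b * star (s b)) * A * s a * star w := by rw [hc.s_sum]
          _ = ∑ b, w * (star (s a) * x * s b) * (star (s b) * A * s a * star w) := by
            simp only [Finset.mul_sum, Finset.sum_mul]
            refine Finset.sum_congr rfl fun b _ => ?_
            noncomm_ring
          _ = _ := by
            refine Finset.sum_congr rfl fun b _ => ?_
            rw [k1 a b]; noncomm_ring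
      rw [e1, map_sum]
      refine Finset.sum_congr rfl fun b _ => ?_
      rw [hφ.central _ (hX _ ⟨_, hz a b, rfl⟩)]
      congr 1
      calc w * star (s b) * A * s a * star w * rho v (n * (star (s a) * x * s b) * n * e)
          = w * star (s b) * A * s a *
            (star w * rho v (n * (star (s a) * x * s b) * n * e)) := by noncomm_ring
        _ = w * star (s b) * A * s a * ((star (s a) * x * s b) * star w) := by rw [k2 a b]
        _ = _ := by noncomm_ring
    rw [Finset.sum_congr rfl fun a _ => k3 a, Finset.sum_comm]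
    refine Finset.sum_congr rfl fun b _ => ?_
    rw [← map_sum]
    congr 1
    calc ∑ a, w * star (s b) * A * s a * (star (s a) * x * s b) * star w
        = w * star (s b) * A * (∑ a, s a * star (s a)) * (x * s b * star w) := by
          simp only [Finset.mul_sum, Finset.sum_mul]
          refine Finset.sum_congr rfl fun a _ => ?_
          noncomm_ring
      _ = w * star (s b) * A * (x * s b * star w) := by rw [hc.s_sum, mul_one]
      _ = _ := by noncomm_ring

end Pool.Agent.OS
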