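import Pool.Agent.OS.LStmts
import Pool.Agent.OS.Basic

set_option autoImplicit false

/-!
# Separability of the amplified algebra
-/

open Filter Topology
open scoped InnerProductSpace

namespace Pool.Agent.OS

universe u

theorem lCutSep_proof (hDens : Stmt_LDens.{u}) (hAlg : Stmt_LCutAlg.{u}) (hOf : Stmt_OfVN.{u}) :
    Stmt_LCutSep.{u} := by
  intro H _ _ _ M N Ω k m e n v s h hNM hcut hsep N₂ hN₂
  obtain ⟨T, rfl, hTM⟩ := hOf H M Ω h M le_rfl
  obtain ⟨x, hxN, hx⟩ := hsep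
  obtain ⟨-, hstar, hone, hadd, hmul, hsmul, -, -⟩ := hAlg H M N k m e n v s hNM hcut
  have hX : ∀ a ∈ cutX N e n v, a ∈ N₂ := by
    intro a ha
    have : a ∈ Set.centralizer (Set.centralizer (cutX N e n v)) :=
      Set.subset_centralizer_centralizer ha
    rw [← hN₂] at this
    exact this
  refine ⟨fun i => rho v (n * x i * n * e), fun i => hX _ ⟨x i, hxN i, rfl⟩, ?_⟩
  intro a ha ε hε
  have ha' : a ∈ Set.centralizer (Set.centralizer (cutX N e n v)) := by
    rw [← hN₂]; exact ha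
  obtain ⟨y, hy, hay⟩ := hDens H (cutX N e n v) T.Ω hstar hone hadd hmul
    (fun q x hx => hsmul _ x hx) (fun x hx => hsmul _ x hx) a ha' (ε / 2) (by positivity)
  obtain ⟨y0, hy0, rfl⟩ := hy
  set C : ℝ := ∑ j, ‖v j‖ * (‖star (v j)‖ * (‖n * e‖ * ‖n‖)) with hC
  have hC0 : 0 ≤ C := Finset.sum_nonneg fun j _ => by positivity
  obtain ⟨i, hi⟩ := hx y0 hy0 (ε / (2 * (C + 1))) (by positivity)
  refine ⟨i, ?_⟩
  have hnS : n ∈ T.S := (hTM n).2 (hNM hcut.n_mem)
  have heS : e ∈ T.S := (hTM e).2 hcut.e_mem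
  have hvS : ∀ j, v j ∈ T.S := fun j => (hTM _).2 (hcut.v_mem j)
  have hdS : x i - y0 ∈ T.S := (hTM _).2 (sub_mem (hNM (hxN i)) (hNM hy0))
  have hdiff : rho v (n * x i * n * e) - rho v (n * y0 * n * e) =
      ∑ j, v j * ((n * ((x i - y0) * (n * e))) * star (v j)) := by
    rw [rho, rho, ← Finset.sum_sub_distrib]
    refine Finset.sum_congr rfl fun j _ => ?_
    noncomm_ring
  have hb : ‖(rho v (n * x i * n * e) - rho v (n * y0 * n * e)) T.Ω‖ ≤
      C * ‖(x i - y0) T.Ω‖ := by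
    rw [hdiff, _root_.sum_apply, hC, Finset.sum_mul]
    refine norm_sum_le_of_le _ fun j _ => ?_
    have hzS : n * ((x i - y0) * (n * e)) ∈ T.S := mul_mem hnS (mul_mem hdS (mul_mem hnS heS))
    calc _ ≤ ‖v j‖ * ‖((n * ((x i - y0) * (n * e))) * star (v j)) T.Ω‖ := T.norm_mul_le _ _
      _ ≤ ‖v j‖ * (‖star (v j)‖ * ‖(n * ((x i - y0) * (n * e))) T.Ω‖) := by
          refine mul_le_mul_of_nonneg_left ?_ (norm_nonneg _)
          exact T.norm_mul_right hzS (star_mem (hvS j))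
      _ ≤ ‖v j‖ * (‖star (v j)‖ * (‖n‖ * (‖n * e‖ * ‖(x i - y0) T.Ω‖))) := by
          refine mul_le_mul_of_nonneg_left (mul_le_mul_of_nonneg_left ?_ (norm_nonneg _))
            (norm_nonneg _)
          refine (T.norm_mul_le _ _).trans (mul_le_mul_of_nonneg_left ?_ (norm_nonneg _))
          exact T.norm_mul_right hdS (mul_mem hnS heS)
      _ = _ := by ring
  have e1 : rho v (n * x i * n * e) - a = (rho v (n * x i * n * e) - rho v (n * y0 * n * e)) -
      (a - rho v (n * y0 * n * e)) := by abel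
  rw [e1, _root_.sub_apply]
  refine (norm_sub_le _ _).trans ?_
  have h1 : C * ‖(x i - y0) T.Ω‖ ≤ ε / 2 := by
    have : C * ‖(x i - y0) T.Ω‖ ≤ (C + 1) * (ε / (2 * (C + 1))) :=
      mul_le_mul (by linarith) hi (norm_nonneg _) (by linarith)
    refine this.trans (le_of_eq ?_)
    have : C + 1 ≠ 0 := by positivity
    field_simp
  linarith

end Pool.Agent.OS
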