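import Pool.Agent.OS.LStmts

set_option autoImplicit false

/-!
# Module LCutSmall: small almost commuting projections for the amplified algebra
-/

open Filter Topology
open scoped InnerProductSpace

namespace Pool.Agent.OS

universe u

namespace LCutSmall

variable {H : Type u} [NormedAddCommGroup H] [InnerProductSpace ℂ H] [CompleteSpace H]

section alg

variable {k : ℕ} {f : H →L[ℂ] H} {v : Fin k → H →L[ℂ] H}

/-- multiplicativity of `rho` -/
lemma rho_mul (hl : ∀ j, star (v j) * v j = f) (ho : ∀ i j, i ≠ j → star (v i) * v j = 0)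
    {z w : H →L[ℂ] H} (hz : z * f = z) : rho v z * rho v w = rho v (z * w) := by
  unfold rho
  rw [Finset.sum_mul]
  refine Finset.sum_congr rfl fun i _ => ?_
  rw [Finset.mul_sum, Finset.sum_eq_single i]
  · calc v i * z * star (v i) * (v i * w * star (v i))
        = v i * (z * (star (v i) * v i)) * w * star (v i) := by simp only [mul_assoc]
      _ = v i * (z * w) * star (v i) := by rw [hl, hz]; simp only [mul_assoc]
  · intro j _ hj
    calc v i * z * star (v i) * (v j * w * star (v j))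
        = v i * z * (star (v i) * v j) * w * star (v j) := by simp only [mul_assoc]
      _ = 0 := by rw [ho i j (Ne.symm hj)]; simp
  · simp

lemma rho_star (z : H →L[ℂ] H) : star (rho v z) = rho v (star z) := by
  unfold rho
  rw [star_sum]
  refine Finset.sum_congr rfl fun i _ => ?_
  simp [star_mul, mul_assoc]

lemma rho_sub (z w : H →L[ℂ] H) : rho v (z - w) = rho v z - rho v w := by
  unfold rho
  rw [← Finset.sum_sub_distrib]
  refine Finset.sum_congr rfl fun i _ => ?_
  rw [mul_sub, sub_mul]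

lemma mats_rho (hl : ∀ j, star (v j) * v j = f) (ho : ∀ i j, i ≠ j → star (v i) * v j = 0)
    {z : H →L[ℂ] H} (hz : z * f = z) (hz' : f * z = z) (i j : Fin k) :
    (v i * star (v j)) * rho v z = rho v z * (v i * star (v j)) := by
  have h1 : (v i * star (v j)) * rho v z = v i * z * star (v j) := by
    unfold rho
    rw [Finset.mul_sum, Finset.sum_eq_single j]
    · calc v i * star (v j) * (v j * z * star (v j))
          = v i * ((star (v j) * v j) * z) * star (v j) := by simp only [mul_assoc]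
        _ = _ := by rw [hl, hz']
    · intro l _ hl'
      calc v i * star (v j) * (v l * z * star (v l))
          = v i * (star (v j) * v l) * z * star (v l) := by simp only [mul_assoc]
        _ = 0 := by rw [ho j l (Ne.symm hl')]; simp
    · simp
  have h2 : rho v z * (v i * star (v j)) = v i * z * star (v j) := by
    unfold rho
    rw [Finset.sum_mul, Finset.sum_eq_single i]
    · calc v i * z * star (v i) * (v i * star (v j))
          = v i * (z * (star (v i) * v i)) * star (v j) := by simp only [mul_assoc]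
        _ = _ := by rw [hl, hz]
    · intro l _ hl'
      calc v l * z * star (v l) * (v i * star (v j))
          = v l * z * (star (v l) * v i) * star (v j) := by simp only [mul_assoc]
        _ = 0 := by rw [ho l i hl']; simp
    · simp
  rw [h1, h2]

end alg

/-- `‖x y‖ ≤ ‖x‖` for a contraction `y` -/
lemma norm_mul_contr (T : TVN H) {x y : H →L[ℂ] H} (hx : x ∈ T.S) (hy : y ∈ T.S)
    (h : ‖y‖ ≤ 1) : ‖(x * y) T.Ω‖ ≤ ‖x T.Ω‖ := by
  refine (T.norm_mul_right hx hy).trans ?_
  nlinarith [norm_nonneg (x T.Ω)]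

lemma norm_contr_mul (T : TVN H) {x y : H →L[ℂ] H}
    (h : ‖x‖ ≤ 1) : ‖(x * y) T.Ω‖ ≤ ‖y T.Ω‖ := by
  refine (T.norm_mul_le x y).trans ?_
  nlinarith [norm_nonneg (y T.Ω)]

/-- norm of a partial isometry -/
lemma norm_le_one_of {w f : H →L[ℂ] H} (hf : IsStarProjection f) (h : star w * w = f) :
    ‖w‖ ≤ 1 := by
  have h1 : ‖star w * w‖ = ‖w‖ * ‖w‖ := CStarRing.norm_star_mul_self
  rw [h] at h1
  have h2 := hf.norm_le
  nlinarith [norm_nonneg w]

/-- `rho` is bounded in 2-norm -/
lemma norm_rho_le (T : TVN H) {k : ℕ} {v : Fin k → H →L[ℂ] H} (hv : ∀ j, v j ∈ T.S)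
    (h1 : ∀ j, ‖v j‖ ≤ 1) {z : H →L[ℂ] H} (hz : z ∈ T.S) :
    ‖(rho v z) T.Ω‖ ≤ k * ‖z T.Ω‖ := by
  unfold rho
  rw [_root_.sum_apply]
  refine (norm_sum_le _ _).trans ?_
  refine (Finset.sum_le_card_nsmul _ _ (‖z T.Ω‖) fun i _ => ?_).trans ?_
  · have h2 : ‖star (v i)‖ ≤ 1 := by rw [norm_star]; exact h1 i
    refine (norm_mul_contr T (mul_mem (hv i) hz) (star_mem (hv i)) h2).trans ?_
    exact norm_contr_mul T (h1 i)
  · simp

end LCutSmall

open LCutSmall in
theorem lCutSmall_proof (hIndepN : Stmt_LIndepN.{u}) (hNear : Stmt_NearProj.{u})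
    (hDens : Stmt_LDens.{u}) (hAlg : Stmt_LCutAlg.{u}) : Stmt_LCutSmall.{u} := by
  intro H _ _ _ M N Ω k m e n v s hM hNM hNF hk hC T hTΩ hTS hSm N₂ hN₂ T' hT'Ω hT'S η hη
  classical
  subst hTΩ
  obtain ⟨hX1, hX2, hX3, hX4, hX5, hX6, -, -⟩ := hAlg H M N k m e n v s hNM hC
  -- basic facts
  have heS : e ∈ T.S := (hTS e).2 hC.e_mem
  have hnS : n ∈ T.S := (hTS n).2 (hNM hC.n_mem)
  have hNS : ∀ y ∈ N, y ∈ T.S := fun y hy => (hTS y).2 (hNM hy)
  have hvS : ∀ j, v j ∈ T.S := fun j => (hTS _).2 (hC.v_mem j)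
  set f := n * e with hf
  have hen : n * e = e * n := hC.e_comm n hC.n_mem
  have hfS : f ∈ T.S := mul_mem hnS heS
  have hfp : IsStarProjection f := by
    refine ⟨?_, ?_⟩
    · change f * f = f
      rw [hf]
      calc n * e * (n * e) = n * (e * n) * e := by simp only [mul_assoc]
        _ = (n * n) * (e * e) := by rw [← hen]; simp only [mul_assoc]
        _ = n * e := by rw [hC.n_proj.isIdempotentElem.eq, hC.e_proj.isIdempotentElem.eq]
    · change star f = f
      rw [hf, star_mul, hC.n_proj.isSelfAdjoint.star_eq, hC.e_proj.isSelfAdjoint.star_eq, hen]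
  have hv1 : ∀ j, ‖v j‖ ≤ 1 := fun j => norm_le_one_of hfp (hC.v_left j)
  have hn1 : ‖n‖ ≤ 1 := hC.n_proj.norm_le
  have he1 : ‖e‖ ≤ 1 := hC.e_proj.norm_le
  have hkR : (1 : ℝ) ≤ k := by exact_mod_cast hk
  have hk0 : (0 : ℝ) < k := by linarith
  -- the trace of n
  set t := ‖n T.Ω‖ ^ 2 with ht
  have ht0 : 0 < t := by
    have : ‖n T.Ω‖ ≠ 0 := by
      intro h0
      exact hC.n_ne (T.sep n hnS (norm_eq_zero.1 h0))
    positivity
  have ht1 : t ≤ 1 := by
    have := T.norm_le n
    have h2 : ‖n T.Ω‖ ≤ 1 := this.trans hn1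
    rw [ht]
    nlinarith [norm_nonneg (n T.Ω)]
  -- small projections under e
  set η₁ := η / (2 * k) with hη₁
  have hη₁0 : 0 < η₁ := by positivity
  obtain ⟨c₁, hc₁, hsm⟩ := hSm η₁ hη₁0
  refine ⟨k * (c₁ * t / 2), by positivity, ?_⟩
  intro F' ε' hε'
  -- approximations
  have happ : ∀ a : H →L[ℂ] H, ∃ y ∈ N, (a ∈ N₂ →
      ‖(a - rho v (n * y * n * e)) T.Ω‖ ≤ ε' / 4) := by
    intro a
    by_cases ha : a ∈ N₂
    · have ha' : a ∈ Set.centralizer (Set.centralizer (cutX N e n v)) := by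
        rw [← hN₂]; exact ha
      obtain ⟨b, hb, hb2⟩ := hDens H (cutX N e n v) T.Ω hX2 hX3 hX4 hX5
        (fun q x hx => hX6 _ x hx) (fun x hx => hX6 _ x hx) a ha' (ε' / 4) (by positivity)
      obtain ⟨y, hy, rfl⟩ := hb
      exact ⟨y, hy, fun _ => hb2⟩
    · exact ⟨0, zero_mem _, fun h => absurd h ha⟩
  choose y hyN hy using happ
  set B := ∑ a ∈ F', ‖n * y a * n‖ with hB
  have hB0 : 0 ≤ B := Finset.sum_nonneg fun _ _ => norm_nonneg _
  -- independence
  obtain ⟨F₁, ε₁, hε₁, hind⟩ := hIndepN H M N T.Ω hM hNM hNF T rfl hTS n hC.n_mem (c₁ * t / 4)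
    (by positivity)
  set δ := min ε₁ (min (c₁ * t / 8) (ε' / (2 * k * (1 + 6 * B)))) with hδ
  have hδ0 : 0 < δ := by
    refine lt_min hε₁ (lt_min (by positivity) (by positivity))
  have hδ1 : δ ≤ ε₁ := min_le_left _ _
  have hδ2 : δ ≤ c₁ * t / 8 := (min_le_right _ _).trans (min_le_left _ _)
  have hδ3 : δ ≤ ε' / (2 * k * (1 + 6 * B)) := (min_le_right _ _).trans (min_le_right _ _)
  have hδ4 : k * (δ * (1 + 6 * B)) ≤ ε' / 2 := by
    rw [le_div_iff₀ (by positivity)] at hδ3
    linarith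
  obtain ⟨p', hp'S, hp'p, hp'e, hp'1, hp'2, hp'N⟩ :=
    hsm (insert n (F'.image (fun a => n * y a * n)) ∪ F₁) δ hδ0
  have hp'norm : ‖p'‖ ≤ 1 := hp'p.norm_le
  have hep' : e * p' = p' := by
    have := congrArg star hp'e
    rwa [star_mul, hp'p.isSelfAdjoint.star_eq, hC.e_proj.isSelfAdjoint.star_eq] at this
  have hnear_n : ‖(n * p' - p' * n) T.Ω‖ ≤ δ := hp'N n (by simp) hC.n_mem
  have hnear_y : ∀ a ∈ F', ‖((n * y a * n) * p' - p' * (n * y a * n)) T.Ω‖ ≤ δ := by
    intro a ha
    refine hp'N _ ?_ (mul_mem (mul_mem hC.n_mem (hyN a)) hC.n_mem)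
    refine Finset.mem_union_left _ (Finset.mem_insert_of_mem (Finset.mem_image_of_mem _ ha))
  have hindp := hind p' hp'S hp'p (hp'N.mono Finset.subset_union_right hδ1)
  -- the almost projection
  set b := n * p' * n with hb
  have hbS : b ∈ T.S := mul_mem (mul_mem hnS hp'S) hnS
  have hbsa : IsSelfAdjoint b := by
    change star b = b
    rw [hb, star_mul, star_mul, hC.n_proj.isSelfAdjoint.star_eq, hp'p.isSelfAdjoint.star_eq,
      mul_assoc]
  have hnn : n * n = n := hC.n_proj.isIdempotentElem.eq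
  have hpp : p' * p' = p' := hp'p.isIdempotentElem.eq
  have hbb : b * b - b = (n * p') * (n * p' - p' * n) * n := by
    rw [hb]
    calc n * p' * n * (n * p' * n) - n * p' * n
        = n * p' * (n * n) * p' * n - n * (p' * p') * n * n := by
          rw [hpp, mul_assoc (n * p') n n, hnn]; simp only [mul_assoc]
          rw [← mul_assoc n n, hnn]
      _ = _ := by rw [hnn]; noncomm_ring
  have hcomS : n * p' - p' * n ∈ T.S := sub_mem (mul_mem hnS hp'S) (mul_mem hp'S hnS)
  have hbb1 : ‖(b * b - b) T.Ω‖ ≤ δ := by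
    rw [hbb]
    refine (norm_mul_contr T (mul_mem (mul_mem hnS hp'S) hcomS) hnS hn1).trans ?_
    refine (norm_contr_mul T ?_).trans hnear_n
    exact (norm_mul_le _ _).trans (by nlinarith [norm_nonneg n, norm_nonneg p'])
  obtain ⟨q, hqS, hqp, hqb, -, hq0⟩ := hNear H T b hbS hbsa
  have hqb' : ‖(q - b) T.Ω‖ ≤ 2 * δ := by linarith
  have hqf : q * f = q := by
    have h1 : b * (1 - f) = 0 := by
      rw [hb, hf, mul_sub, mul_one]
      have : n * p' * n * (n * e) = n * (p' * e) * n := by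
        calc n * p' * n * (n * e) = n * p' * (n * n) * e := by simp only [mul_assoc]
          _ = n * p' * (n * e) := by rw [hnn]; simp only [mul_assoc]
          _ = n * p' * (e * n) := by rw [hen]
          _ = _ := by simp only [mul_assoc]
      rw [this, hp'e, sub_self]
    have h2 := hq0 (1 - f) (sub_mem (one_mem _) hfS) h1
    rw [mul_sub, mul_one, sub_eq_zero] at h2
    exact h2.symm
  have hfq : f * q = q := by
    have := congrArg star hqf
    rwa [star_mul, hqp.isSelfAdjoint.star_eq, hfp.isSelfAdjoint.star_eq] at this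
  -- the trace of q
  have htrq : |‖q T.Ω‖ ^ 2 - ‖p' T.Ω‖ ^ 2 * t| ≤ 2 * δ + c₁ * t / 4 := by
    have h1 : T.tr b = T.tr (p' * n) := by
      rw [hb, mul_assoc, T.tr_mul_comm hnS (mul_mem hp'S hnS), mul_assoc, hnn]
    have h2 : ‖T.tr q - T.tr b‖ ≤ 2 * δ := by
      rw [← T.tr_sub]
      exact (T.norm_tr_le _).trans hqb'
    rw [h1] at h2
    have h3 : ‖T.tr q - T.tr p' * T.tr n‖ ≤ 2 * δ + c₁ * t / 4 := by
      have : T.tr q - T.tr p' * T.tr n = (T.tr q - T.tr (p' * n)) +
        (T.tr (p' * n) - T.tr p' * T.tr n) := by ring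
      rw [this]
      exact (norm_add_le _ _).trans (add_le_add h2 hindp)
    rw [T.tr_proj hqp, T.tr_proj hp'p, T.tr_proj hC.n_proj, ← Complex.ofReal_mul,
      ← Complex.ofReal_sub, Complex.norm_real, Real.norm_eq_abs] at h3
    exact h3
  have hq1 : c₁ * t / 2 ≤ ‖q T.Ω‖ ^ 2 := by
    have := (abs_le.1 htrq).1
    have h2 : c₁ * t ≤ ‖p' T.Ω‖ ^ 2 * t := mul_le_mul_of_nonneg_right hp'1 ht0.le
    linarith
  have hq2 : ‖q T.Ω‖ ^ 2 ≤ 2 * η₁ := by
    have := (abs_le.1 htrq).2
    have h2 : ‖p' T.Ω‖ ^ 2 * t ≤ η₁ * 1 := mul_le_mul hp'2 ht1 ht0.le hη₁0.le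
    have h3 : c₁ * t ≤ η₁ * 1 := mul_le_mul (hp'1.trans hp'2) ht1 ht0.le hη₁0.le
    linarith
  -- the projection
  have hl : ∀ j, star (v j) * v j = f := hC.v_left
  have ho := hC.v_orth
  have hrS : ∀ z ∈ T.S, rho v z ∈ T.S := fun z hz =>
    sum_mem fun i _ => mul_mem (mul_mem (hvS i) hz) (star_mem (hvS i))
  have hP : IsStarProjection (rho v q) := by
    refine ⟨?_, ?_⟩
    · change rho v q * rho v q = rho v q
      rw [rho_mul hl ho hqf, hqp.isIdempotentElem.eq]
    · change star (rho v q) = rho v q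
      rw [rho_star, hqp.isSelfAdjoint.star_eq]
  have htrP : ‖(rho v q) T.Ω‖ ^ 2 = k * ‖q T.Ω‖ ^ 2 := by
    have h1 : T.tr (rho v q) = k * T.tr q := by
      unfold rho
      rw [T.tr_sum]
      have : ∀ i ∈ (Finset.univ : Finset (Fin k)), T.tr (v i * q * star (v i)) = T.tr q := by
        intro i _
        rw [T.tr_mul_comm (mul_mem (hvS i) hqS) (star_mem (hvS i)), ← mul_assoc, hl, hfq]
      rw [Finset.sum_congr rfl this]
      simp
    rw [T.tr_proj hP, T.tr_proj hqp] at h1
    exact_mod_cast h1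
  have hPR : rho v q ∈ cutR M v := by
    refine mem_relVN.2 ⟨(hTS _).1 (hrS q hqS), ?_⟩
    rintro a ⟨i, j, rfl⟩
    exact mats_rho hl ho hqf hfq i j
  refine ⟨rho v q, (hT'S _).2 hPR, hP, mul_one _, ?_, ?_, ?_⟩
  · rw [hT'Ω, htrP]
    exact mul_le_mul_of_nonneg_left hq1 hk0.le
  · rw [hT'Ω, htrP]
    calc (k : ℝ) * ‖q T.Ω‖ ^ 2 ≤ k * (2 * η₁) := mul_le_mul_of_nonneg_left hq2 hk0.le
      _ = η := by rw [hη₁]; field_simp
  · intro a ha haN
    rw [hT'Ω]
    have haS : a ∈ T.S := by
      have h1 := hX1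
      have : a ∈ N₂ := haN
      have h2 : a ∈ Set.centralizer (Set.centralizer (cutX N e n v)) := by
        rw [← hN₂]; exact this
      have h3 : a ∈ Set.centralizer (Set.centralizer (M : Set (H →L[ℂ] H))) := by
        refine Set.centralizer_subset (Set.centralizer_subset ?_) h2
        intro x hx
        exact (h1 x hx).1
      rw [M.centralizer_centralizer] at h3
      exact (hTS a).2 h3
    set Y := n * y a * n with hY
    have hYS : Y ∈ T.S := mul_mem (mul_mem hnS (hNS _ (hyN a))) hnS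
    have hYN : Y ∈ N := mul_mem (mul_mem hC.n_mem (hyN a)) hC.n_mem
    have hYB : ‖Y‖ ≤ B := by
      rw [hB]
      exact Finset.single_le_sum (f := fun a => ‖n * y a * n‖) (fun _ _ => norm_nonneg _) ha
    have hYn : Y * n = Y := by rw [hY, mul_assoc, hnn]
    have hnY : n * Y = Y := by rw [hY, ← mul_assoc, ← mul_assoc, hnn]
    have hYe : Y * e = e * Y := hC.e_comm Y hYN
    set z := Y * e with hz
    have hzS : z ∈ T.S := mul_mem hYS heS
    have hzB : ‖z‖ ≤ B := by
      refine (norm_mul_le _ _).trans ?_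
      nlinarith [norm_nonneg Y, norm_nonneg e]
    have hzf : z * f = z := by
      rw [hz, hf]
      calc Y * e * (n * e) = Y * (e * n) * e := by simp only [mul_assoc]
        _ = (Y * n) * (e * e) := by rw [← hen]; simp only [mul_assoc]
        _ = Y * e := by rw [hYn, hC.e_proj.isIdempotentElem.eq]
    -- [z, b]
    have hzb : z * b - b * z = Y * (p' * n - n * p') - (n * p' - p' * n) * Y +
        (Y * p' - p' * Y) := by
      have h1 : z * b = Y * p' * n := by
        rw [hz, hb]
        calc Y * e * (n * p' * n) = Y * (e * n) * p' * n := by simp only [mul_assoc]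
          _ = (Y * n) * (e * p') * n := by rw [← hen]; simp only [mul_assoc]
          _ = Y * p' * n := by rw [hYn, hep']
      have h2 : b * z = n * p' * Y := by
        rw [hYe, hb]
        calc n * p' * n * (e * Y) = n * p' * (n * e) * Y := by simp only [mul_assoc]
          _ = n * (p' * e) * (n * Y) := by rw [hen]; simp only [mul_assoc]
          _ = n * p' * Y := by rw [hp'e, hnY]
      rw [h1, h2]
      have h3 : Y * (p' * n - n * p') = Y * p' * n - Y * p' := by
        rw [mul_sub, ← mul_assoc, ← mul_assoc, hYn]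
      have h4 : (n * p' - p' * n) * Y = n * p' * Y - p' * Y := by
        rw [sub_mul, mul_assoc p' n Y, hnY]
      rw [h3, h4]
      abel
    have hzb1 : ‖(z * b - b * z) T.Ω‖ ≤ δ * (1 + 2 * B) := by
      rw [hzb, _root_.add_apply, _root_.sub_apply]
      have h1 : ‖(Y * (p' * n - n * p')) T.Ω‖ ≤ B * δ := by
        refine (T.norm_mul_le _ _).trans ?_
        have : ‖(p' * n - n * p') T.Ω‖ ≤ δ := by
          rw [← norm_neg, ← _root_.neg_apply, neg_sub]
          exact hnear_n
        exact mul_le_mul hYB this (norm_nonneg _) hB0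
      have h2 : ‖((n * p' - p' * n) * Y) T.Ω‖ ≤ B * δ := by
        refine (T.norm_mul_right hcomS hYS).trans ?_
        exact mul_le_mul hYB hnear_n (norm_nonneg _) hB0
      have h3 := hnear_y a ha
      refine (norm_add_le _ _).trans ?_
      have h4 := norm_sub_le ((Y * (p' * n - n * p')) T.Ω) (((n * p' - p' * n) * Y) T.Ω)
      linarith
    have hzq : ‖(z * q - q * z) T.Ω‖ ≤ δ * (1 + 6 * B) := by
      have e1 : z * q - q * z = (z * b - b * z) + (z * (q - b) - (q - b) * z) := by noncomm_ring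
      rw [e1, _root_.add_apply, _root_.sub_apply (z * (q - b))]
      have h1 : ‖(z * (q - b)) T.Ω‖ ≤ B * (2 * δ) :=
        (T.norm_mul_le _ _).trans (mul_le_mul hzB hqb' (norm_nonneg _) hB0)
      have h2 : ‖((q - b) * z) T.Ω‖ ≤ B * (2 * δ) :=
        (T.norm_mul_right (sub_mem hqS hbS) hzS).trans
          (mul_le_mul hzB hqb' (norm_nonneg _) hB0)
      have h3 := norm_sub_le ((z * (q - b)) T.Ω) (((q - b) * z) T.Ω)
      refine (norm_add_le _ _).trans ?_
      linarith
    have hrz : ‖(rho v z * rho v q - rho v q * rho v z) T.Ω‖ ≤ ε' / 2 := by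
      rw [rho_mul hl ho hzf, rho_mul hl ho hqf, ← rho_sub]
      refine (norm_rho_le T hvS hv1 (sub_mem (mul_mem hzS hqS) (mul_mem hqS hzS))).trans ?_
      exact (mul_le_mul_of_nonneg_left hzq hk0.le).trans hδ4
    have hrzS := hrS z hzS
    have hrqS := hrS q hqS
    have hay : ‖(a - rho v z) T.Ω‖ ≤ ε' / 4 := hy a haN
    have e2 : a * rho v q - rho v q * a = (rho v z * rho v q - rho v q * rho v z) +
        ((a - rho v z) * rho v q - rho v q * (a - rho v z)) := by noncomm_ring
    rw [e2, _root_.add_apply, _root_.sub_apply ((a - rho v z) * rho v q)]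
    have h1 : ‖((a - rho v z) * rho v q) T.Ω‖ ≤ ε' / 4 :=
      (norm_mul_contr T (sub_mem haS hrzS) hrqS hP.norm_le).trans hay
    have h2 : ‖(rho v q * (a - rho v z)) T.Ω‖ ≤ ε' / 4 :=
      (norm_contr_mul T hP.norm_le).trans hay
    have h3 := norm_sub_le (((a - rho v z) * rho v q) T.Ω) ((rho v q * (a - rho v z)) T.Ω)
    refine (norm_add_le _ _).trans ?_
    linarith

end Pool.Agent.OS
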