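import Pool.Agent.OS.LStmts
import Pool.Agent.OS.Basic

set_option autoImplicit false

open Filter Topology
open scoped InnerProductSpace

namespace Pool.Agent.OS

universe u

namespace LCutTriv

variable {H : Type u} [NormedAddCommGroup H] [InnerProductSpace ℂ H] [CompleteSpace H]

/-- a partial isometry absorbs its initial projection -/
lemma mul_init {v p : H →L[ℂ] H} (hv : star v * v = p) (hp : IsStarProjection p) : v * p = v := by
  have h1 : p * p = p := hp.isIdempotentElem
  have h0 : star (v * p - v) * (v * p - v) = 0 := by
    rw [star_sub, star_mul, hp.isSelfAdjoint.star_eq]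
    calc (p * star v - star v) * (v * p - v)
        = p * (star v * v) * p - p * (star v * v) - (star v * v) * p + star v * v := by
          noncomm_ring
      _ = 0 := by rw [hv]; simp [h1]
  have h2 := CStarRing.star_mul_self_eq_zero_iff (v * p - v) |>.1 h0
  exact sub_eq_zero.1 h2

end LCutTriv

open LCutTriv in
theorem lCutTriv_proof : Stmt_LCutTriv.{u} := by
  intro H _ _ _ M N k m e n v s hNM hk hC z hz hcomm
  obtain ⟨hzM, hzv⟩ := hz
  have hnM : n ∈ M := hNM hC.n_mem
  have hen : n * e = e * n := hC.e_comm n hC.n_mem
  have hee : e * e = e := hC.e_proj.isIdempotentElem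
  have hnn : n * n = n := hC.n_proj.isIdempotentElem
  have hne : IsStarProjection (n * e) := by
    refine ⟨?_, ?_⟩
    · change n * e * (n * e) = n * e
      calc n * e * (n * e) = n * (e * n) * e := by noncomm_ring
        _ = n * n * (e * e) := by rw [← hen]; noncomm_ring
        _ = n * e := by rw [hnn, hee]
    · change star (n * e) = n * e
      rw [star_mul, hC.e_proj.isSelfAdjoint.star_eq, hC.n_proj.isSelfAdjoint.star_eq, hen]
  have hvp : ∀ j, v j * (n * e) = v j := fun j => mul_init (hC.v_left j) hne
  have hpv : ∀ j, (n * e) * star (v j) = star (v j) := by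
    intro j
    have := congrArg star (hvp j)
    rwa [star_mul, hne.isSelfAdjoint.star_eq] at this
  obtain ⟨j0⟩ : Nonempty (Fin k) := ⟨⟨0, hk⟩⟩
  set w := star (v j0) * z * v j0 with hw
  have hwM : w ∈ M := mul_mem (mul_mem (star_mem (hC.v_mem j0)) hzM) (hC.v_mem j0)
  have hpw : (n * e) * w = w := by rw [hw, ← mul_assoc, ← mul_assoc, hpv]
  have hwp : w * (n * e) = w := by rw [hw, mul_assoc, hvp]
  have hnw : n * w = w := by
    calc n * w = n * ((n * e) * w) := by rw [hpw]
      _ = (n * n) * e * w := by noncomm_ring
      _ = w := by rw [hnn, hpw]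
  have hwn : w * n = w := by
    calc w * n = (w * (n * e)) * n := by rw [hwp]
      _ = w * (n * (e * n)) := by noncomm_ring
      _ = w * ((n * n) * e) := by rw [← hen]; noncomm_ring
      _ = w := by rw [hnn, hwp]
  have hew : e * w = w := by
    calc e * w = e * ((n * e) * w) := by rw [hpw]
      _ = (e * n) * e * w := by noncomm_ring
      _ = n * (e * e) * w := by rw [← hen]; noncomm_ring
      _ = w := by rw [hee, hpw]
  have hwe : w * e = w := by
    calc w * e = (w * (n * e)) * e := by rw [hwp]
      _ = w * (n * (e * e)) := by noncomm_ring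
      _ = w := by rw [hee, hwp]
  -- elements y ∈ N: n y n e is absorbed by n e
  have habs : ∀ y ∈ N, (n * e) * (n * y * n * e) = n * y * n * e := by
    intro y hy
    have h1 : y * n * e = e * (y * n) := hC.e_comm _ (mul_mem hy hC.n_mem)
    calc (n * e) * (n * y * n * e) = n * (e * n) * (y * n * e) := by noncomm_ring
      _ = n * (n * e) * (e * (y * n)) := by rw [← hen, h1]
      _ = (n * n) * (e * e) * (y * n) := by noncomm_ring
      _ = n * (e * (y * n)) := by rw [hnn, hee]; noncomm_ring
      _ = n * y * n * e := by rw [← h1]; noncomm_ring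
  have habs' : ∀ y ∈ N, (n * y * n * e) * (n * e) = n * y * n * e := by
    intro y hy
    calc (n * y * n * e) * (n * e) = n * y * n * (e * n) * e := by noncomm_ring
      _ = n * y * (n * n) * (e * e) := by rw [← hen]; noncomm_ring
      _ = n * y * n * e := by rw [hnn, hee]
  have hrl : ∀ y ∈ N, star (v j0) * rho v (n * y * n * e) = (n * y * n * e) * star (v j0) := by
    intro y hy
    unfold rho
    rw [Finset.mul_sum, Finset.sum_eq_single j0]
    · calc star (v j0) * (v j0 * (n * y * n * e) * star (v j0))
          = (star (v j0) * v j0) * (n * y * n * e) * star (v j0) := by noncomm_ring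
        _ = _ := by rw [hC.v_left, habs y hy]
    · intro j _ hj
      calc star (v j0) * (v j * (n * y * n * e) * star (v j))
          = (star (v j0) * v j) * (n * y * n * e) * star (v j) := by noncomm_ring
        _ = 0 := by rw [hC.v_orth j0 j (Ne.symm hj)]; simp
    · intro h; exact absurd (Finset.mem_univ _) h
  have hrr : ∀ y ∈ N, rho v (n * y * n * e) * v j0 = v j0 * (n * y * n * e) := by
    intro y hy
    unfold rho
    rw [Finset.sum_mul, Finset.sum_eq_single j0]
    · calc v j0 * (n * y * n * e) * star (v j0) * v j0
          = v j0 * (n * y * n * e) * (star (v j0) * v j0) := by noncomm_ring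
        _ = v j0 * ((n * y * n * e) * (n * e)) := by rw [hC.v_left]; noncomm_ring
        _ = _ := by rw [habs' y hy]
    · intro j _ hj
      calc v j * (n * y * n * e) * star (v j) * v j0
          = v j * (n * y * n * e) * (star (v j) * v j0) := by noncomm_ring
        _ = 0 := by rw [hC.v_orth j j0 hj]; simp
    · intro h; exact absurd (Finset.mem_univ _) h
  -- w commutes with n y n e
  have hwc : ∀ y ∈ N, (n * y * n * e) * w = w * (n * y * n * e) := by
    intro y hy
    have h1 := hcomm (rho v (n * y * n * e)) ⟨y, hy, rfl⟩
    calc (n * y * n * e) * w = ((n * y * n * e) * star (v j0)) * z * v j0 := by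
          rw [hw]; noncomm_ring
      _ = star (v j0) * (rho v (n * y * n * e) * z) * v j0 := by rw [← hrl y hy]; noncomm_ring
      _ = star (v j0) * z * (rho v (n * y * n * e) * v j0) := by rw [h1]; noncomm_ring
      _ = w * (n * y * n * e) := by rw [hrr y hy, hw]; noncomm_ring
  -- w commutes with n y n
  have hwc' : ∀ y ∈ N, (n * y * n) * w = w * (n * y * n) := by
    intro y hy
    calc (n * y * n) * w = (n * y * n) * (e * w) := by rw [hew]
      _ = (n * y * n * e) * w := by noncomm_ring
      _ = w * (n * y * n * e) := hwc y hy
      _ = w * (e * (n * y * n)) := by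
          rw [hC.e_comm _ (mul_mem (mul_mem hC.n_mem hy) hC.n_mem)]
      _ = (w * e) * (n * y * n) := by noncomm_ring
      _ = _ := by rw [hwe]
  have hsn : ∀ a, n * star (s a) = star (s a) := by
    intro a
    have := congrArg star (hC.s_right a)
    rwa [star_mul, hC.n_proj.isSelfAdjoint.star_eq] at this
  -- s_b^* y s_a commutes with w
  have hsw : ∀ a b, ∀ y ∈ N, star (s b) * y * s a * w = w * (star (s b) * y * s a) := by
    intro a b y hy
    have h1 : star (s b) * y * s a = n * (star (s b) * y * s a) * n := by
      calc star (s b) * y * s a = (n * star (s b)) * y * (s a * n) := by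
            rw [hsn, hC.s_right]
        _ = _ := by noncomm_ring
    rw [h1]
    exact hwc' _ (mul_mem (mul_mem (star_mem (hC.s_mem b)) hy) (hC.s_mem a))
  set W := ∑ a, s a * w * star (s a) with hW
  have hsM : ∀ a, s a ∈ M := fun a => hNM (hC.s_mem a)
  have hWM : W ∈ M := sum_mem fun a _ => mul_mem (mul_mem (hsM a) hwM) (star_mem (hsM a))
  have hWN : ∀ y ∈ N, y * W = W * y := by
    intro y hy
    have h1 : y * W = ∑ b, ∑ a, s b * (star (s b) * y * s a * w) * star (s a) := by
      calc y * W = (∑ b, s b * star (s b)) * y * W := by rw [hC.s_sum]; simp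
        _ = _ := by
          rw [hW, Finset.sum_mul, Finset.sum_mul]
          refine Finset.sum_congr rfl fun b _ => ?_
          rw [Finset.mul_sum]
          refine Finset.sum_congr rfl fun a _ => ?_
          noncomm_ring
    have h2 : W * y = ∑ b, ∑ a, s b * (w * (star (s b) * y * s a)) * star (s a) := by
      calc W * y = W * y * (∑ a, s a * star (s a)) := by rw [hC.s_sum]; simp
        _ = _ := by
          rw [hW, Finset.sum_mul, Finset.sum_mul]
          refine Finset.sum_congr rfl fun b _ => ?_
          rw [Finset.mul_sum]
          refine Finset.sum_congr rfl fun a _ => ?_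
          noncomm_ring
    rw [h1, h2]
    refine Finset.sum_congr rfl fun b _ => Finset.sum_congr rfl fun a _ => ?_
    rw [hsw a b y hy]
  have hWe : W * e = W := by
    rw [hW, Finset.sum_mul]
    refine Finset.sum_congr rfl fun a _ => ?_
    calc s a * w * star (s a) * e = s a * w * (star (s a) * e) := by noncomm_ring
      _ = s a * (w * e) * star (s a) := by
          rw [hC.e_comm _ (star_mem (hC.s_mem a))]; noncomm_ring
      _ = _ := by rw [hwe]
  have heW : e * W = W := by
    rw [hW, Finset.mul_sum]
    refine Finset.sum_congr rfl fun a _ => ?_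
    calc e * (s a * w * star (s a)) = (e * s a) * w * star (s a) := by noncomm_ring
      _ = s a * (e * w) * star (s a) := by
          rw [← hC.e_comm _ (hC.s_mem a)]; noncomm_ring
      _ = _ := by rw [hew]
  obtain ⟨c, hc⟩ := hC.e_min W hWM hWN hWe heW
  -- W n = w
  have hWn : W * n = w := by
    calc W * n = ∑ a, s a * (w * (star (s a) * n * n)) := by
          rw [hW, Finset.sum_mul]
          refine Finset.sum_congr rfl fun a _ => ?_
          rw [show star (s a) * n * n = star (s a) * (n * n) by noncomm_ring, hnn]
          noncomm_ring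
      _ = ∑ a, s a * star (s a) * w := by
          refine Finset.sum_congr rfl fun a _ => ?_
          have h1 : star (s a) * n * n = n * star (s a) * n := by
            rw [hsn]; rw [mul_assoc, hnn]
          rw [h1, ← hwc' _ (star_mem (hC.s_mem a)), hsn]
          calc s a * (star (s a) * n * w) = s a * star (s a) * (n * w) := by noncomm_ring
            _ = _ := by rw [hnw]
      _ = w := by rw [← Finset.sum_mul, hC.s_sum, one_mul]
  have hwc2 : w = c • (n * e) := by
    rw [← hWn, hc, smul_mul_assoc, hen]
  refine ⟨c, ?_⟩
  have h3 : ∀ j, z * (v j * star (v j)) = c • (v j * star (v j)) := by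
    intro j
    have h4 : v j * star (v j) = (v j * star (v j0)) * (v j0 * star (v j)) := by
      calc v j * star (v j) = v j * (n * e) * star (v j) := by rw [hvp]
        _ = v j * (star (v j0) * v j0) * star (v j) := by rw [hC.v_left]
        _ = _ := by noncomm_ring
    have h5 : (v j * star (v j0)) * z = z * (v j * star (v j0)) := hzv _ ⟨j, j0, rfl⟩
    calc z * (v j * star (v j)) = z * (v j * star (v j0)) * (v j0 * star (v j)) := by
          rw [h4]; noncomm_ring
      _ = v j * (star (v j0) * z * v j0) * star (v j) := by rw [← h5]; noncomm_ring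
      _ = v j * w * star (v j) := by rw [hw]
      _ = c • (v j * (n * e) * star (v j)) := by
          rw [hwc2, mul_smul_comm, smul_mul_assoc]
      _ = _ := by rw [hvp]
  calc z = z * ∑ j, v j * star (v j) := by rw [hC.v_sum, mul_one]
    _ = ∑ j, z * (v j * star (v j)) := by rw [Finset.mul_sum]
    _ = ∑ j, c • (v j * star (v j)) := Finset.sum_congr rfl fun j _ => h3 j
    _ = c • 1 := by rw [← Finset.smul_sum, hC.v_sum]

end Pool.Agent.OS
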