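import Pool.Agent.OS.LStmts

set_option autoImplicit false

/-!
# Module LDens: 2-norm density
-/

open Filter Topology
open scoped InnerProductSpace

namespace Pool.Agent.OS

universe u

namespace LDens

variable {H : Type u} [NormedAddCommGroup H] [InnerProductSpace ℂ H] [CompleteSpace H]

lemma smul_real {S : Set H} (hq : ∀ (q : ℚ), ∀ ξ ∈ S, (q : ℂ) • ξ ∈ S) (a : ℝ) {ξ : H}
    (hξ : ξ ∈ closure S) : (a : ℂ) • ξ ∈ closure S := by
  have h1 : (a, ξ) ∈ closure ((Set.range ((↑) : ℚ → ℝ)) ×ˢ S) := by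
    rw [closure_prod_eq]
    refine ⟨?_, hξ⟩
    rw [Rat.denseRange_cast.closure_range]
    exact Set.mem_univ _
  have hc : Continuous fun p : ℝ × H => (p.1 : ℂ) • p.2 :=
    (Complex.continuous_ofReal.comp continuous_fst).smul continuous_snd
  refine map_mem_closure (f := fun p : ℝ × H => (p.1 : ℂ) • p.2) hc h1 ?_
  rintro ⟨b, η⟩ ⟨⟨q, rfl⟩, hη⟩
  have := hq q η hη
  simpa using this

lemma smul_cplx {S : Set H} (ha : ∀ ξ ∈ S, ∀ η ∈ S, ξ + η ∈ S)
    (hq : ∀ (q : ℚ), ∀ ξ ∈ S, (q : ℂ) • ξ ∈ S) (hI : ∀ ξ ∈ S, Complex.I • ξ ∈ S) (c : ℂ) {ξ : H}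
    (hξ : ξ ∈ closure S) : c • ξ ∈ closure S := by
  have h1 : Complex.I • ξ ∈ closure S :=
    map_mem_closure (f := fun ξ : H => Complex.I • ξ) (continuous_const_smul _) hξ hI
  have h2 : c • ξ = ((c.re : ℂ) • ξ) + (c.im : ℂ) • (Complex.I • ξ) := by
    conv_lhs => rw [← Complex.re_add_im c]
    rw [add_smul, smul_smul]
  rw [h2]
  exact map_mem_closure₂ continuous_add (smul_real hq _ hξ) (smul_real hq _ h1) ha

end LDens

open LDens in
theorem lDens_proof : Stmt_LDens.{u} := by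
  intro H _ _ _ X Ω hstar hone hadd hmul hq hI a ha ε hε
  set S : Set H := {ξ | ∃ x ∈ X, ξ = x Ω} with hS
  have hSadd : ∀ ξ ∈ S, ∀ η ∈ S, ξ + η ∈ S := by
    rintro ξ ⟨x, hx, rfl⟩ η ⟨y, hy, rfl⟩
    exact ⟨x + y, hadd x hx y hy, rfl⟩
  have hSq : ∀ (q : ℚ), ∀ ξ ∈ S, (q : ℂ) • ξ ∈ S := by
    rintro q ξ ⟨x, hx, rfl⟩
    exact ⟨(q : ℂ) • x, hq q x hx, rfl⟩
  have hSI : ∀ ξ ∈ S, Complex.I • ξ ∈ S := by
    rintro ξ ⟨x, hx, rfl⟩
    exact ⟨Complex.I • x, hI x hx, rfl⟩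
  have hΩS : Ω ∈ S := ⟨1, hone, rfl⟩
  let K : Submodule ℂ H :=
    { carrier := closure S
      add_mem' := fun {ξ η} hξ hη => map_mem_closure₂ continuous_add hξ hη hSadd
      zero_mem' := by
        have := smul_cplx hSadd hSq hSI 0 (subset_closure hΩS)
        rwa [zero_smul] at this
      smul_mem' := fun c ξ hξ => smul_cplx hSadd hSq hSI c hξ }
  have hKc : IsClosed (K : Set H) := isClosed_closure
  have : CompleteSpace K := hKc.completeSpace_coe
  have hKmem : ∀ ξ, ξ ∈ K ↔ ξ ∈ closure S := fun ξ => Iff.rfl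
  have hxK : ∀ x ∈ X, ∀ ξ ∈ K, x ξ ∈ K := by
    intro x hx ξ hξ
    refine map_mem_closure (f := fun ξ : H => x ξ) x.continuous hξ ?_
    rintro _ ⟨y, hy, rfl⟩
    exact ⟨x * y, hmul x hx y hy, rfl⟩
  have hcomm : K.starProjection ∈ Set.centralizer X := by
    intro x hx
    ext ξ
    change x (K.starProjection ξ) = K.starProjection (x ξ)
    symm
    refine Submodule.eq_starProjection_of_mem_orthogonal
      (hxK x hx _ (Submodule.starProjection_apply_mem K ξ)) ?_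
    rw [Submodule.mem_orthogonal]
    intro η hη
    have h1 : x ξ - x (K.starProjection ξ) = x (ξ - K.starProjection ξ) := by simp
    rw [h1]
    have h2 : ⟪η, x (ξ - K.starProjection ξ)⟫_ℂ =
        ⟪(star x) η, ξ - K.starProjection ξ⟫_ℂ := by
      rw [ContinuousLinearMap.star_eq_adjoint, ContinuousLinearMap.adjoint_inner_left]
    rw [h2]
    exact (Submodule.mem_orthogonal K _).1 (Submodule.sub_starProjection_mem_orthogonal ξ) _
      (hxK (star x) (hstar x hx) η hη)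
  have h1 := ha _ hcomm
  have h2 : K.starProjection Ω = Ω :=
    Submodule.starProjection_eq_self_iff.2 (subset_closure hΩS)
  have h3 : a Ω ∈ K := by
    have h4 : K.starProjection (a Ω) = a (K.starProjection Ω) :=
      congrArg (fun f : H →L[ℂ] H => f Ω) h1
    rw [h2] at h4
    rw [← h4]
    exact Submodule.starProjection_apply_mem K _
  obtain ⟨ξ, ⟨y, hy, rfl⟩, hξ⟩ := Metric.mem_closure_iff.1 ((hKmem _).1 h3) ε hε
  refine ⟨y, hy, ?_⟩
  rw [dist_eq_norm] at hξ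
  exact hξ.le

end Pool.Agent.OS
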