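import Pool.Agent.OS.LStmts
import Pool.Agent.OS.Compare

set_option autoImplicit false

/-!
# Module LDix: Dixmier averaging in a factor
-/

open Filter Topology
open scoped InnerProductSpace

namespace Pool.Agent.OS

universe u

theorem lDix_proof (hAvg : Stmt_Avg.{u}) : Stmt_LDix.{u} := by
  classical
  intro H _ _ _ T hF x hx ε hε
  obtain ⟨k, hk, -, hkc, hkw⟩ := hAvg H T PUnit.{u + 1}
    (fun _ => {w | w ∈ T.S ∧ w ∈ unitary (H →L[ℂ] H)}) (fun _ w hw => hw)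
    (fun _ => ⟨one_mem _, one_mem _⟩) (fun _ _ => ⟨PUnit.unit, subset_rfl, subset_rfl⟩)
    (fun _ => ⟨PUnit.unit, fun v hv w hw => ⟨mul_mem hv.1 hw.1, mul_mem hv.2 hw.2⟩⟩) x hx
  have hkcomm : ∀ w ∈ T.S, w ∈ unitary (H →L[ℂ] H) → w * k = k * w := by
    intro w hw hwu
    have h1 : ∀ δ > 0, ‖(w * k - k * w) T.Ω‖ ≤ δ := by
      intro δ hδ
      obtain ⟨l, hl⟩ := hkw δ hδ
      exact hl w ⟨hw, hwu⟩
    have h2 : ‖(w * k - k * w) T.Ω‖ = 0 :=
      le_antisymm (le_of_forall_pos_le_add fun δ hδ => by simpa using h1 δ hδ) (norm_nonneg _)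
    exact T.eq_of_norm_sub (mul_mem hw hk) (mul_mem hk hw) h2
  obtain ⟨c, hc⟩ := hF k hk fun y hy => (Compare.comm_of_unitary T hkcomm y hy).symm
  have hhull := hkc PUnit.unit
  set S : Set H := {ξ : H | ∃ w ∈ {w | w ∈ T.S ∧ w ∈ unitary (H →L[ℂ] H)},
    ξ = (w * x * star w) T.Ω} with hS
  -- the trace is constant on the hull
  have hSub : convexHull ℝ S ⊆ {ξ : H | ⟪T.Ω, ξ⟫_ℂ = T.tr x} := by
    refine convexHull_min ?_ ?_
    · rintro ξ ⟨w, ⟨hw, hwu⟩, rfl⟩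
      change T.tr (w * x * star w) = T.tr x
      rw [T.tr_mul_comm (mul_mem hw hx) (star_mem hw), ← mul_assoc, (Unitary.mem_iff.1 hwu).1,
        one_mul]
    · intro ξ hξ η hη a b ha hb hab
      have hξ' : ⟪T.Ω, ξ⟫_ℂ = T.tr x := hξ
      have hη' : ⟪T.Ω, η⟫_ℂ = T.tr x := hη
      change ⟪T.Ω, a • ξ + b • η⟫_ℂ = T.tr x
      rw [inner_add_right, inner_smul_right_eq_smul, inner_smul_right_eq_smul, hξ', hη',
        ← add_smul, hab, one_smul]
  have hcl : IsClosed {ξ : H | ⟪T.Ω, ξ⟫_ℂ = T.tr x} :=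
    isClosed_eq (by fun_prop) continuous_const
  have h1 : ⟪T.Ω, k T.Ω⟫_ℂ = T.tr x := closure_minimal hSub hcl hhull
  have h2 : c = T.tr x := by
    rw [hc] at h1
    simpa [inner_smul_right, inner_self_eq_norm_sq_to_K, T.norm_Ω] using h1
  obtain ⟨ξ, hξ, hξk⟩ := Metric.mem_closure_iff.1 hhull ε hε
  obtain ⟨ι, _, a, z, ha0, ha1, hz, rfl⟩ := mem_convexHull_iff_exists_fintype.1 hξ
  choose w hw hwz using hz
  let e := (Fintype.equivFin ι).symm
  refine ⟨Fintype.card ι, fun i => a (e i), fun i => w (e i), fun i => ha0 _, ?_,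
    fun i => hw _, ?_⟩
  · rw [← ha1]
    exact Fintype.sum_equiv e _ _ fun i => rfl
  · rw [dist_eq_norm] at hξk
    have e1 : (∑ i, ((a (e i) : ℝ) : ℂ) • (w (e i) * x * star (w (e i))) -
        T.tr x • (1 : H →L[ℂ] H)) T.Ω = ∑ i, a i • z i - k T.Ω := by
      rw [_root_.sub_apply, _root_.sum_apply, hc, h2]
      congr 1
      refine Fintype.sum_equiv e _ _ fun i => ?_
      rw [hwz (e i), _root_.smul_apply]
      exact Complex.coe_smul _ _
    rw [e1, ← norm_neg, neg_sub]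
    exact hξk.le

end Pool.Agent.OS
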