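import Pool.Agent.OS.Basic
import Pool.Agent.OS.LStmts

set_option autoImplicit false

/-!
# Module LExact: projections of given trace
-/

open Filter Topology
open scoped InnerProductSpace

namespace Pool.Agent.OS

universe u

namespace LExact

variable {H : Type u} [NormedAddCommGroup H] [InnerProductSpace ℂ H] [CompleteSpace H]

/-- partial sums of a partition are projections -/
lemma proj_sum {T : TVN H} {p : H →L[ℂ] H} {k : ℕ} {q : Fin k → H →L[ℂ] H}
    (h : T.IsPartOf p q) (A : Finset (Fin k)) : IsStarProjection (∑ i ∈ A, q i) := by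
  refine ⟨?_, ?_⟩
  · unfold IsIdempotentElem
    rw [Finset.sum_mul]
    refine Finset.sum_congr rfl fun i hi => ?_
    rw [Finset.mul_sum, Finset.sum_eq_single i]
    · exact (h.proj i).isIdempotentElem.eq
    · intro j _ hj
      exact h.orth i j (Ne.symm hj)
    · intro hi'
      exact absurd hi hi'
  · unfold IsSelfAdjoint
    rw [star_sum]
    exact Finset.sum_congr rfl fun i _ => (h.proj i).isSelfAdjoint.star_eq

/-- one step: enlarge `q` -/
lemma step (hDiv : Stmt_Divide.{u}) (T : TVN H) (hNM : T.NoMin) {p : H →L[ℂ] H} (hp : p ∈ T.S)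
    (hpp : IsStarProjection p) {t : ℝ} (htp : t ≤ ‖p T.Ω‖ ^ 2) {q : H →L[ℂ] H} (hq : q ∈ T.S)
    (hqq : IsStarProjection q) (hqp : q * p = q) (hqt : ‖q T.Ω‖ ^ 2 ≤ t) {η : ℝ} (hη : 0 < η) :
    ∃ q' ∈ T.S, IsStarProjection q' ∧ q' * p = q' ∧ ‖q' T.Ω‖ ^ 2 ≤ t ∧ q * q' = q ∧
      t - η ≤ ‖q' T.Ω‖ ^ 2 := by
  classical
  have hpq : p * q = q := by
    have := congrArg star hqp
    simpa [star_mul, hqq.isSelfAdjoint.star_eq, hpp.isSelfAdjoint.star_eq] using this
  have hr : IsStarProjection (p - q) := by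
    refine ⟨?_, ?_⟩
    · unfold IsIdempotentElem
      rw [sub_mul, mul_sub, mul_sub, hqp, hpq, hqq.isIdempotentElem.eq,
        hpp.isIdempotentElem.eq]
      abel
    · unfold IsSelfAdjoint
      rw [star_sub, hqq.isSelfAdjoint.star_eq, hpp.isSelfAdjoint.star_eq]
  obtain ⟨k, r, hpart, hrη⟩ := hDiv H T hNM (p - q) (sub_mem hp hq) hr η hη
  have hrq : ∀ i, r i * q = 0 := by
    intro i
    rw [← hpart.mul_right i, mul_assoc, sub_mul, hpq, hqq.isIdempotentElem.eq, sub_self, mul_zero]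
  have hqr : ∀ i, q * r i = 0 := by
    intro i
    have := congrArg star (hrq i)
    simpa [star_mul, hqq.isSelfAdjoint.star_eq, (hpart.proj i).isSelfAdjoint.star_eq] using this
  have hrp : ∀ i, r i * p = r i := by
    intro i
    have h1 : r i * (p - q) = r i := hpart.mul_right i
    rw [mul_sub, hrq i, sub_zero] at h1
    exact h1
  -- the value
  set v : Finset (Fin k) → ℝ := fun A => ‖q T.Ω‖ ^ 2 + ∑ i ∈ A, ‖r i T.Ω‖ ^ 2 with hv
  have hproj : ∀ A : Finset (Fin k), IsStarProjection (q + ∑ i ∈ A, r i) := by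
    intro A
    have hA := proj_sum hpart A
    have h1 : q * ∑ i ∈ A, r i = 0 := by
      rw [Finset.mul_sum]
      exact Finset.sum_eq_zero fun i _ => hqr i
    have h2 : (∑ i ∈ A, r i) * q = 0 := by
      rw [Finset.sum_mul]
      exact Finset.sum_eq_zero fun i _ => hrq i
    refine ⟨?_, ?_⟩
    · unfold IsIdempotentElem
      rw [add_mul, mul_add, mul_add, h1, h2, hqq.isIdempotentElem.eq, hA.isIdempotentElem.eq]
      abel
    · unfold IsSelfAdjoint
      rw [star_add, hqq.isSelfAdjoint.star_eq, hA.isSelfAdjoint.star_eq]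
  have hval : ∀ A : Finset (Fin k), ‖(q + ∑ i ∈ A, r i) T.Ω‖ ^ 2 = v A := by
    intro A
    have h1 := T.tr_proj (hproj A)
    have h2 : T.tr (q + ∑ i ∈ A, r i) = T.tr q + ∑ i ∈ A, T.tr (r i) := by
      rw [T.tr_add]
      congr 1
      simp [TVN.tr]
    rw [h2, T.tr_proj hqq] at h1
    simp_rw [fun j => T.tr_proj (hpart.proj j)] at h1
    have h3 : ‖q T.Ω‖ ^ 2 + ∑ i ∈ A, ‖r i T.Ω‖ ^ 2 = ‖(q + ∑ i ∈ A, r i) T.Ω‖ ^ 2 := by
      exact_mod_cast h1
    exact h3.symm
  -- a maximal admissible subset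
  obtain ⟨A, hA, hmax⟩ := Finset.exists_max_image
    ((Finset.univ : Finset (Finset (Fin k))).filter fun A => v A ≤ t) Finset.card
    ⟨∅, by simp [hv, hqt]⟩
  rw [Finset.mem_filter] at hA
  refine ⟨q + ∑ i ∈ A, r i, add_mem hq (sum_mem fun i _ => hpart.mem i), hproj A, ?_, ?_, ?_, ?_⟩
  · rw [add_mul, hqp, Finset.sum_mul]
    congr 1
    exact Finset.sum_congr rfl fun i _ => hrp i
  · rw [hval]
    exact hA.2
  · rw [mul_add, hqq.isIdempotentElem.eq, Finset.mul_sum,
      Finset.sum_eq_zero fun i _ => hqr i, add_zero]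
  · rw [hval]
    by_cases hu : A = Finset.univ
    · have h1 : (q + ∑ i ∈ A, r i) = p := by
        rw [hu, hpart.sum]
        abel
      rw [← hval, h1]
      linarith
    · obtain ⟨i, hi⟩ : ∃ i, i ∉ A := by
        by_contra hcon
        push Not at hcon
        exact hu (Finset.eq_univ_iff_forall.2 hcon)
      have h1 : ¬ v (insert i A) ≤ t := by
        intro hle
        have := hmax (insert i A) (Finset.mem_filter.2 ⟨Finset.mem_univ _, hle⟩)
        rw [Finset.card_insert_of_notMem hi] at this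
        omega
      have h2 : v (insert i A) = v A + ‖r i T.Ω‖ ^ 2 := by
        simp only [hv]
        rw [Finset.sum_insert hi]
        ring
      have h3 := hrη i
      rw [h2] at h1
      linarith [not_le.1 h1]

end LExact

open LExact in
theorem lExact_proof (hDiv : Stmt_Divide.{u}) : Stmt_LExact.{u} := by
  intro H _ _ _ T hNM p hp hpp t ht0 htp
  classical
  let Q := {q : H →L[ℂ] H // q ∈ T.S ∧ IsStarProjection q ∧ q * p = q ∧ ‖q T.Ω‖ ^ 2 ≤ t}
  have hstep : ∀ (m : ℕ) (q : Q), ∃ q' : Q, q.1 * q'.1 = q.1 ∧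
      t - 1 / ((m : ℝ) + 1) ≤ ‖q'.1 T.Ω‖ ^ 2 := by
    intro m q
    obtain ⟨q', h1, h2, h3, h4, h5, h6⟩ := step hDiv T hNM hp hpp htp q.2.1 q.2.2.1 q.2.2.2.1
      q.2.2.2.2 (η := 1 / ((m : ℝ) + 1)) (by positivity)
    exact ⟨⟨q', h1, h2, h3, h4⟩, h5, h6⟩
  choose f hf1 hf2 using hstep
  let s : ℕ → Q := fun n => Nat.rec (⟨0, zero_mem _, IsStarProjection.zero _, by simp, by simpa using ht0⟩ : Q)
    (fun m q => f m q) n
  have hs : ∀ m, s (m + 1) = f m (s m) := fun m => rfl
  have hmono : ∀ m n, m ≤ n → (s m).1 * (s n).1 = (s m).1 := by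
    intro m n hmn
    induction n, hmn using Nat.le_induction with
    | base => exact (s m).2.2.1.isIdempotentElem.eq
    | succ n hmn ih =>
      rw [hs n]
      calc (s m).1 * (f n (s n)).1 = ((s m).1 * (s n).1) * (f n (s n)).1 := by rw [ih]
        _ = (s m).1 * ((s n).1 * (f n (s n)).1) := by rw [mul_assoc]
        _ = (s m).1 := by rw [hf1 n (s n), ih]
  have hmono' : ∀ m n, m ≤ n → (s n).1 * (s m).1 = (s m).1 := by
    intro m n hmn
    have := congrArg star (hmono m n hmn)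
    simpa [star_mul, (s m).2.2.1.isSelfAdjoint.star_eq, (s n).2.2.1.isSelfAdjoint.star_eq] using this
  have hdiff : ∀ m n, m ≤ n → ‖((s n).1 - (s m).1) T.Ω‖ ^ 2 =
      ‖(s n).1 T.Ω‖ ^ 2 - ‖(s m).1 T.Ω‖ ^ 2 := by
    intro m n hmn
    have h1 := T.tr_star_mul_self ((s n).1 - (s m).1)
    have h2 : star ((s n).1 - (s m).1) * ((s n).1 - (s m).1) = (s n).1 - (s m).1 := by
      rw [star_sub, (s m).2.2.1.isSelfAdjoint.star_eq, (s n).2.2.1.isSelfAdjoint.star_eq, sub_mul,
        mul_sub, mul_sub, hmono m n hmn, hmono' m n hmn, (s m).2.2.1.isIdempotentElem.eq,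
        (s n).2.2.1.isIdempotentElem.eq]
      abel
    rw [h2, T.tr_sub, T.tr_proj (s m).2.2.1, T.tr_proj (s n).2.2.1] at h1
    have h3 : ‖(s n).1 T.Ω‖ ^ 2 - ‖(s m).1 T.Ω‖ ^ 2 = ‖((s n).1 - (s m).1) T.Ω‖ ^ 2 := by
      exact_mod_cast h1
    exact h3.symm
  set a : ℕ → ℝ := fun n => ‖(s n).1 T.Ω‖ ^ 2 with ha
  have hat : ∀ n, a n ≤ t := fun n => (s n).2.2.2.2
  have hamono : Monotone a := by
    intro m n hmn
    have := hdiff m n hmn
    have h2 : 0 ≤ ‖((s n).1 - (s m).1) T.Ω‖ ^ 2 := by positivity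
    simp only [ha]
    linarith
  have halim : Tendsto a atTop (𝓝 t) := by
    rw [← tendsto_add_atTop_iff_nat 1]
    have h1 : Tendsto (fun m : ℕ => t - 1 / ((m : ℝ) + 1)) atTop (𝓝 (t - 0)) :=
      tendsto_const_nhds.sub tendsto_one_div_add_atTop_nhds_zero_nat
    rw [sub_zero] at h1
    refine tendsto_of_tendsto_of_tendsto_of_le_of_le h1 tendsto_const_nhds (fun m => ?_)
      (fun m => hat (m + 1))
    simp only [ha]
    rw [hs m]
    exact hf2 m (s m)
  have hcau : CauchySeq (fun n => (s n).1 T.Ω) := by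
    refine cauchySeq_of_le_tendsto_0 (fun N => Real.sqrt (t - a N)) ?_ ?_
    · have key : ∀ n m N, N ≤ n → n ≤ m → dist ((s n).1 T.Ω) ((s m).1 T.Ω) ≤
          Real.sqrt (t - a N) := by
        intro n m N hNn hnm
        rw [dist_comm, dist_eq_norm]
        refine Real.le_sqrt_of_sq_le ?_
        have h1 := hdiff n m hnm
        have h2 : (s m).1 T.Ω - (s n).1 T.Ω = ((s m).1 - (s n).1) T.Ω := by simp
        rw [h2, h1]
        have h3 := hat m
        have h4 := hamono hNn
        simp only [ha] at h3 h4 ⊢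
        linarith
      intro n m N hn hm
      rcases le_total n m with h | h
      · exact key n m N hn h
      · rw [dist_comm]
        exact key m n N hm h
    · have h1 : Tendsto (fun N => Real.sqrt (t - a N)) atTop (𝓝 (Real.sqrt (t - t))) :=
        (Real.continuous_sqrt.tendsto _).comp (tendsto_const_nhds.sub halim)
      simpa using h1
  obtain ⟨q, hq, hq1, hqlim⟩ := T.complete (fun n => (s n).1) (fun n => (s n).2.1)
    (fun n => (s n).2.2.1.norm_le) hcau
  refine ⟨q, hq, T.proj_of_tendsto (fun n => (s n).2.1) (fun n => (s n).2.2.1) hq hqlim, ?_, ?_⟩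
  · have h1 := T.tendsto_mul (fun n => (s n).2.1) (fun _ => hp) hq hp
      (fun n => (s n).2.2.1.norm_le) hqlim tendsto_const_nhds
    refine T.eq_of_apply (mul_mem hq hp) hq (tendsto_nhds_unique (h1.congr fun n => ?_) hqlim)
    rw [(s n).2.2.2.1]
  · have h1 : Tendsto a atTop (𝓝 (‖q T.Ω‖ ^ 2)) := (hqlim.norm).pow 2
    exact tendsto_nhds_unique h1 halim

end Pool.Agent.OS
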