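import Pool.Agent.OS.LStmts
import Pool.Agent.OS.Basic

set_option autoImplicit false

/-!
# Module LFac: a criterion for factors
-/

open Filter Topology
open scoped InnerProductSpace

namespace Pool.Agent.OS

universe u

theorem lFac_proof (hOfVN : Stmt_OfVN.{u}) : Stmt_LFac.{u} := by
  classical
  intro H _ _ _ M P Ω D hM hPM hDP hdens havg a ha hac
  obtain ⟨T, hTΩ, hTS⟩ := hOfVN H M Ω hM M le_rfl
  subst hTΩ
  have hPS : ∀ y ∈ P, y ∈ T.S := fun y hy => (hTS y).2 (hPM hy)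
  have key : ∀ ε > 0, ∃ z : ℂ, ‖(a - z • (1 : H →L[ℂ] H)) T.Ω‖ ≤ ε := by
    intro ε hε
    obtain ⟨y, hy, hay⟩ := hdens a ha (ε / 2) (by positivity)
    obtain ⟨z, k, c, w, hc0, hc1, hw, hn⟩ := havg y hy (ε / 2) (by positivity)
    refine ⟨z, ?_⟩
    have hw' : ∀ i, w i ∈ P := fun i => (hw i).1
    have hd : a - y ∈ T.S := hPS _ (sub_mem ha (hDP y hy))
    have e1 : ∑ i, (c i : ℂ) • (w i * a * star (w i)) = a := by
      have : ∀ i, w i * a * star (w i) = a := fun i => by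
        rw [← hac (w i) (hw' i), mul_assoc, (Unitary.mem_iff.1 (hw i).2).2, mul_one]
      simp_rw [this, ← Finset.sum_smul, ← Complex.ofReal_sum, hc1]
      simp
    have e2 : a - z • (1 : H →L[ℂ] H) = ∑ i, (c i : ℂ) • (w i * (a - y) * star (w i)) +
        (∑ i, (c i : ℂ) • (w i * y * star (w i)) - z • (1 : H →L[ℂ] H)) := by
      simp_rw [mul_sub, sub_mul, smul_sub, Finset.sum_sub_distrib, e1]
      abel
    rw [e2, _root_.add_apply]
    refine (norm_add_le _ _).trans ?_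
    have h1 : ‖(∑ i, (c i : ℂ) • (w i * (a - y) * star (w i))) T.Ω‖ ≤ ‖(a - y) T.Ω‖ := by
      rw [_root_.sum_apply]
      refine (norm_sum_le _ _).trans ?_
      have h2 : ∀ i, ‖((c i : ℂ) • (w i * (a - y) * star (w i))) T.Ω‖ = c i * ‖(a - y) T.Ω‖ := by
        intro i
        rw [_root_.smul_apply, norm_smul, Complex.norm_real, Real.norm_eq_abs,
          abs_of_nonneg (hc0 i), T.norm_conj hd (hPS _ (hw' i)) (hw i).2]
      simp_rw [h2, ← Finset.sum_mul, hc1, one_mul]
      exact le_rfl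
    linarith
  -- `a Ω` lies on the line
  have hcl : IsClosed ((Submodule.span ℂ {T.Ω} : Submodule ℂ H) : Set H) :=
    Submodule.closed_of_finiteDimensional _
  have hmem : a T.Ω ∈ ((Submodule.span ℂ {T.Ω} : Submodule ℂ H) : Set H) := by
    rw [← hcl.closure_eq]
    refine Metric.mem_closure_iff.2 fun ε hε => ?_
    obtain ⟨z, hz⟩ := key (ε / 2) (by positivity)
    refine ⟨z • T.Ω, Submodule.smul_mem _ _ (Submodule.mem_span_singleton_self _), ?_⟩
    rw [dist_eq_norm]
    have : a T.Ω - z • T.Ω = (a - z • (1 : H →L[ℂ] H)) T.Ω := by simp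
    rw [this]
    linarith
  obtain ⟨c, hc⟩ := Submodule.mem_span_singleton.1 hmem
  refine ⟨c, T.eq_of_apply (hPS a ha) (SMulMemClass.smul_mem _ (one_mem _)) ?_⟩
  rw [← hc]
  simp

end Pool.Agent.OS
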