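import Pool.Agent.OS.LStmts

set_option autoImplicit false

/-!
# Module LFinal: assembly of the literal theorem
-/

open Filter Topology
open scoped InnerProductSpace

namespace Pool.Agent.OS

universe u

theorem lFinal_proof (hOfVN : Stmt_OfVN.{u}) (hDiff : Stmt_Diff.{u}) (hQB : Stmt_QB.{u})
    (hQA : Stmt_QA.{u}) (hQE : Stmt_QE.{u}) (hUltra : Stmt_Ultra.{u})
    (hSep : Stmt_LSep.{u}) (hMono : Stmt_LMono.{u}) (hMonoRel : Stmt_LMonoRel.{u})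
    (hCutEx : Stmt_LCutEx.{u}) (hCutAlg : Stmt_LCutAlg.{u}) (hCutTriv : Stmt_LCutTriv.{u})
    (hCutSep : Stmt_LCutSep.{u}) (hCutInj : Stmt_LCutInj.{u}) (hCutSmall : Stmt_LCutSmall.{u})
    (hCaseA : Stmt_LCaseA.{u}) (hCaseB : Stmt_LCaseB.{u}) : Stmt_Lit.{u} := by
  classical
  intro H _ _ _ M Ω hM hL ω hω hnot
  unfold LOmegaSolid at hnot
  push Not at hnot
  obtain ⟨N₀, hN₀M, hN₀F, hN₀I, hN₀D⟩ := hnot
  obtain ⟨N, hNN₀, hNF, hNI, hNS⟩ := hSep H M N₀ Ω hM hN₀M hN₀F hN₀I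
  have hNM : N ≤ M := hNN₀.trans hN₀M
  have hND := hMono H M N₀ N Ω hM hN₀M hNN₀ ω hN₀D
  obtain ⟨k, m, e, n, v, s, hk, hc⟩ := hCutEx H M N Ω hM hNM hNF hNI (hL N hNM hNF hNI)
  obtain ⟨T, hTΩ, hTS⟩ := hOfVN H M Ω hM M le_rfl
  have hsmall := hDiff H M N Ω hM hNM T hTΩ hTS ω hND e ((hTS e).2 hc.e_mem) hc.e_proj hc.e_ne
    hc.e_comm
  obtain ⟨hX, hXs, -, -, -, -, ⟨N₂, hN₂⟩, hle⟩ := hCutAlg H M N k m e n v s hNM hc
  have hN₂R := hle N₂ hN₂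
  have hRM : cutR M v ≤ M := fun x hx => hx.1
  have hXN : ∀ a ∈ cutX N e n v, a ∈ N₂ := by
    intro a ha
    have h : a ∈ Set.centralizer (Set.centralizer (cutX N e n v)) :=
      Set.subset_centralizer_centralizer ha
    rw [← hN₂] at h
    exact h
  have hN₂I := hCutInj H M N Ω k m e n v s hM hNM hNF hk hc hNI N₂ (hN₂R.trans hRM) hXN
  have hN₂S := hCutSep H M N Ω k m e n v s hM hNM hc hNS N₂ hN₂
  have htriv : ∀ z ∈ cutR M v, (∀ x ∈ N₂, x * z = z * x) → ∃ c : ℂ, z = c • (1 : H →L[ℂ] H) :=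
    fun z hz hzc => hCutTriv H M N k m e n v s hNM hk hc z hz fun a ha => hzc a (hXN a ha)
  obtain ⟨T', hT'Ω, hT'S⟩ := hOfVN H M Ω hM (cutR M v) hRM
  have hsmall' := hCutSmall H M N Ω k m e n v s hM hNM hNF hk hc T hTΩ hTS hsmall N₂ hN₂ T' hT'Ω
    hT'S
  have hsub : T'.IsSub (N₂ : Set (H →L[ℂ] H)) :=
    ⟨fun x hx => (hT'S x).2 (hN₂R hx), fun x hx => star_mem (S := VonNeumannAlgebra H) hx⟩
  have htc : T'.TrivComm (N₂ : Set (H →L[ℂ] H)) := fun y hy hyc => htriv y ((hT'S y).1 hy) hyc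
  have hLS : ∀ P : VonNeumannAlgebra H, P ≤ M → LSolid P := by
    intro P hPM N' hN'P hN'F hN'I hN'D
    exact hL N' (hN'P.trans hPM) hN'F hN'I (hMonoRel H M P N' Ω hM hPM hN'P hN'D)
  obtain ⟨P⟩ := hUltra H T' (Finset (H →L[ℂ] H) × ℕ) (Ultrafilter.of atTop)
  have hU := Ultrafilter.of_le (atTop : Filter (Finset (H →L[ℂ] H) × ℕ))
  by_cases hq : QTriv P (N₂ : Set (H →L[ℂ] H))
  · exfalso
    have hA := hQA H T' _ hsub htc _ hU P hq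
    have hE := hQE H T' _ hsub hsmall' _ hU P hq
    obtain ⟨P', hP'R, hP'F, hP'I, hP'D⟩ := hCaseA H M (cutR M v) N₂ Ω hM hRM hN₂R hN₂I hN₂S htriv
      T' hT'Ω hT'S hA hE
    exact hL P' (hP'R.trans hRM) hP'F hP'I (hMonoRel H M (cutR M v) P' Ω hM hRM hP'R hP'D)
  · obtain ⟨P', hP'R, hP'F, hP'I, hP'G⟩ := hCaseB H M (cutR M v) N₂ Ω hM hRM hN₂R hN₂I hN₂S htriv
      T' hT'Ω hT'S (hQB H T' _ hsub _ hU P hq)
    exact ⟨P', hP'R.trans hRM, hP'F, hP'I, hLS P' (hP'R.trans hRM), hP'G⟩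

end Pool.Agent.OS
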