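import Pool.Agent.OS.LStmts
import Pool.Agent.OS.Basic

set_option autoImplicit false

/-!
# Module LIndepN: asymptotic independence for a factor `N`
-/

open Filter Topology
open scoped InnerProductSpace

namespace Pool.Agent.OS

universe u

theorem lIndepN_proof (hDix : Stmt_LDix.{u}) (hOfVN : Stmt_OfVN.{u}) : Stmt_LIndepN.{u} := by
  classical
  intro H _ _ _ M N Ω hM hNM hNf T hTΩ hTS x hx δ hδ
  obtain ⟨T', hT'Ω, hT'S⟩ := hOfVN H M Ω hM N hNM
  have hfac : T'.Factor := by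
    intro a ha hac
    exact hNf a ((hT'S a).1 ha) fun y hy => hac y ((hT'S y).2 hy)
  obtain ⟨k, c, w, hc, hc1, hw, havg⟩ := hDix H T' hfac x ((hT'S x).2 hx) (δ / 2) (by positivity)
  have htr : T'.tr x = T.tr x := by unfold TVN.tr; rw [hT'Ω, hTΩ]
  rw [htr, hT'Ω, ← hTΩ] at havg
  have hx0 : 0 ≤ ‖x‖ := norm_nonneg x
  refine ⟨Finset.univ.image w, δ / (2 * (‖x‖ + 1)), by positivity, ?_⟩
  intro p hp hpp hnear
  have hxM : x ∈ T.S := (hTS x).2 (hNM hx)
  have hwN : ∀ i, w i ∈ N := fun i => (hT'S _).1 (hw i).1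
  have hwM : ∀ i, w i ∈ T.S := fun i => (hTS _).2 (hNM (hwN i))
  set A : H →L[ℂ] H := ∑ i, (c i : ℂ) • (w i * x * star (w i)) with hA
  -- the second bracket
  have hpn : ‖p‖ ≤ 1 := by
    have h1 : star p = p := hpp.isSelfAdjoint
    have h2 : p * p = p := hpp.isIdempotentElem
    have h3 : ‖star p * p‖ = ‖p‖ * ‖p‖ := CStarRing.norm_star_mul_self
    rw [h1, h2] at h3
    by_contra hcon
    push Not at hcon
    nlinarith
  have h2 : ‖T.tr (p * A) - T.tr p * T.tr x‖ ≤ δ / 2 := by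
    have e : T.tr (p * A) - T.tr p * T.tr x = T.tr (p * (A - T.tr x • (1 : H →L[ℂ] H))) := by
      rw [mul_sub, T.tr_sub, mul_smul_comm, mul_one, T.tr_smul]
      ring
    rw [e]
    calc ‖T.tr (p * (A - T.tr x • (1 : H →L[ℂ] H)))‖
        ≤ ‖(p * (A - T.tr x • (1 : H →L[ℂ] H))) T.Ω‖ := T.norm_tr_le _
      _ ≤ ‖p‖ * ‖(A - T.tr x • (1 : H →L[ℂ] H)) T.Ω‖ := T.norm_mul_le _ _
      _ ≤ 1 * (δ / 2) := mul_le_mul hpn havg (norm_nonneg _) zero_le_one
      _ = δ / 2 := one_mul _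
  -- the first bracket
  have hterm : ∀ i, ‖T.tr (p * (w i * x * star (w i))) - T.tr (p * x)‖ ≤
      ‖x‖ * (δ / (2 * (‖x‖ + 1))) := by
    intro i
    have hwu := (hw i).2
    have hws : star (w i) * w i = 1 := Unitary.star_mul_self_of_mem hwu
    have e1 : T.tr (p * (w i * x * star (w i))) = T.tr (star (w i) * (p * w i) * x) := by
      have : p * (w i * x * star (w i)) = (p * w i * x) * star (w i) := by
        simp only [mul_assoc]
      rw [this, T.tr_mul_comm (mul_mem (mul_mem hp (hwM i)) hxM) (star_mem (hwM i))]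
      simp only [mul_assoc]
    have e2 : star (w i) * (p * w i) * x - p * x =
        (star (w i) * (p * w i - w i * p)) * x := by
      rw [mul_sub, sub_mul, ← mul_assoc (star (w i)) (w i) p, hws, one_mul]
    rw [e1, ← T.tr_sub, e2, T.tr_mul_comm (mul_mem (star_mem (hwM i))
      (sub_mem (mul_mem hp (hwM i)) (mul_mem (hwM i) hp))) hxM]
    have hn := hnear (w i) (Finset.mem_image_of_mem _ (Finset.mem_univ _)) (hwN i)
    have hn' : ‖(p * w i - w i * p) T.Ω‖ ≤ δ / (2 * (‖x‖ + 1)) := by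
      have : (p * w i - w i * p) T.Ω = -((w i * p - p * w i) T.Ω) := by
        rw [← neg_sub (w i * p) (p * w i)]; rfl
      rw [this, norm_neg]; exact hn
    have hsn : ‖(star (w i) * (p * w i - w i * p)) T.Ω‖ ≤ δ / (2 * (‖x‖ + 1)) := by
      rw [T.norm_unitary_mul (Unitary.star_mem hwu)]
      exact hn'
    calc ‖T.tr (x * (star (w i) * (p * w i - w i * p)))‖
        ≤ ‖(x * (star (w i) * (p * w i - w i * p))) T.Ω‖ := T.norm_tr_le _
      _ ≤ ‖x‖ * ‖(star (w i) * (p * w i - w i * p)) T.Ω‖ := T.norm_mul_le _ _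
      _ ≤ ‖x‖ * (δ / (2 * (‖x‖ + 1))) := mul_le_mul_of_nonneg_left hsn hx0
  have h1 : ‖T.tr (p * A) - T.tr (p * x)‖ ≤ ‖x‖ * (δ / (2 * (‖x‖ + 1))) := by
    have e : T.tr (p * A) - T.tr (p * x) =
        ∑ i, (c i : ℂ) * (T.tr (p * (w i * x * star (w i))) - T.tr (p * x)) := by
      have hs : T.tr (p * x) = ∑ i, (c i : ℂ) * T.tr (p * x) := by
        rw [← Finset.sum_mul, ← Complex.ofReal_sum, hc1]; simp
      rw [hA, Finset.mul_sum, T.tr_sum]
      conv_lhs => rw [hs]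
      rw [← Finset.sum_sub_distrib]
      refine Finset.sum_congr rfl fun i _ => ?_
      rw [mul_smul_comm, T.tr_smul, mul_sub]
    rw [e]
    calc ‖∑ i, (c i : ℂ) * (T.tr (p * (w i * x * star (w i))) - T.tr (p * x))‖
        ≤ ∑ i, ‖(c i : ℂ) * (T.tr (p * (w i * x * star (w i))) - T.tr (p * x))‖ :=
          norm_sum_le _ _
      _ ≤ ∑ i, c i * (‖x‖ * (δ / (2 * (‖x‖ + 1)))) := by
          refine Finset.sum_le_sum fun i _ => ?_
          rw [norm_mul, Complex.norm_real, Real.norm_of_nonneg (hc i)]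
          exact mul_le_mul_of_nonneg_left (hterm i) (hc i)
      _ = ‖x‖ * (δ / (2 * (‖x‖ + 1))) := by rw [← Finset.sum_mul, hc1, one_mul]
  have h3 : ‖x‖ * (δ / (2 * (‖x‖ + 1))) ≤ δ / 2 := by
    rw [mul_div_assoc', div_le_div_iff₀ (by positivity) (by norm_num)]
    nlinarith
  have e : T.tr (p * x) - T.tr p * T.tr x =
      -(T.tr (p * A) - T.tr (p * x)) + (T.tr (p * A) - T.tr p * T.tr x) := by ring
  rw [e]
  calc ‖-(T.tr (p * A) - T.tr (p * x)) + (T.tr (p * A) - T.tr p * T.tr x)‖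
      ≤ ‖-(T.tr (p * A) - T.tr (p * x))‖ + ‖T.tr (p * A) - T.tr p * T.tr x‖ := norm_add_le _ _
    _ ≤ δ / 2 + δ / 2 := by rw [norm_neg]; exact add_le_add (h1.trans h3) h2
    _ = δ := by ring

end Pool.Agent.OS
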