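import Pool.Agent.OS.LStmts
import Pool.Agent.OS.Inter

set_option autoImplicit false

/-!
# Elliott intertwining for a sequence (module LInter of MP_7c16f6_an, literal part)
-/

open Filter Topology
open scoped InnerProductSpace

namespace Pool.Agent.OS

universe u

namespace LInter

open Pool.Agent.OS.Inter

variable {H : Type u} [NormedAddCommGroup H] [InnerProductSpace ℂ H] [CompleteSpace H]
  {T : TVN H}

/-- data of the construction -/
structure LData (T : TVN H) (x : ℕ → H →L[ℂ] H) (δ : ℝ) (k : ℕ → ℕ)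
    (par : (n : ℕ) → Fin (k (n + 1)) → Fin (k n)) (p : (n : ℕ) → Fin (k n) → H →L[ℂ] H)
    (w : ℕ → H →L[ℂ] H) : Prop where
  base : Data T 0 (fun i => i.elim0) δ k par p w
  xS : ∀ i, x i ∈ T.S
  comm : ∀ n j i, i ≤ n → ‖(x i * p n j - p n j * x i) T.Ω‖ ≤ 1 / (n + 1 : ℝ) / (k n + 1 : ℝ)
  xw : ∀ n i, i ≤ n → ‖(x i * w n - w n * x i) T.Ω‖ ≤ δ / 2 / 2 / 2 ^ n

section

variable {x : ℕ → H →L[ℂ] H} {δ : ℝ} {k : ℕ → ℕ}
    {par : (n : ℕ) → Fin (k (n + 1)) → Fin (k n)} {p : (n : ℕ) → Fin (k n) → H →L[ℂ] H}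
    {w : ℕ → H →L[ℂ] H} (D : LData T x δ k par p w)

include D

lemma LX_step (i n : ℕ) (hin : i ≤ n) :
    ‖(star (uu w (n + 1)) * x i * uu w (n + 1)) T.Ω - (star (uu w n) * x i * uu w n) T.Ω‖ ≤
      δ / 2 / 2 / 2 ^ n := by
  have h : star (w n) * w n = 1 := Unitary.star_mul_self_of_mem (D.base.wU n)
  have e : star (uu w (n + 1)) * x i * uu w (n + 1) - star (uu w n) * x i * uu w n =
      star (uu w n) * (star (w n) * (x i * w n - w n * x i)) * uu w n := by
    have e1 : uu w (n + 1) = w n * uu w n := rfl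
    rw [e1, star_mul, mul_sub, ← mul_assoc (star (w n)) (w n) (x i), h, one_mul]
    simp only [mul_sub, sub_mul, mul_assoc]
  rw [← sub_apply, e, conj_norm D.base n (mul_mem (star_mem (D.base.wS n)) (sub_mem
    (mul_mem (D.xS i) (D.base.wS n)) (mul_mem (D.base.wS n) (D.xS i)))),
    norm_unitary_mul _ (Unitary.star_mem (D.base.wU n))]
  exact D.xw n i hin

lemma LX_lim (i : ℕ) : ∃ y ∈ T.S,
    Tendsto (fun n => (star (uu w n) * x i * uu w n) T.Ω) atTop (𝓝 (y T.Ω)) := by
  have hδ := D.base.hδ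
  have hd : ∀ n, dist ((star (uu w (n + i)) * x i * uu w (n + i)) T.Ω)
      ((star (uu w (n + 1 + i)) * x i * uu w (n + 1 + i)) T.Ω) ≤ δ / 2 / 2 / 2 ^ n := by
    intro n
    rw [dist_comm, dist_eq_norm]
    have e : n + 1 + i = n + i + 1 := by omega
    rw [e]
    refine (LX_step D i (n + i) (by omega)).trans ?_
    refine div_le_div_of_nonneg_left (by positivity) (by positivity) ?_
    exact pow_le_pow_right₀ (by norm_num) (by omega)
  have hc := cauchySeq_of_le_geometric_two (f := fun n => (star (uu w (n + i)) * x i *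
    uu w (n + i)) T.Ω) hd
  obtain ⟨y, hy, -, hyt⟩ := exists_lim (x := fun n => star (uu w (n + i)) * x i * uu w (n + i))
    (fun n => conj_mem D.base (n + i) (D.xS i))
    (C := ‖x i‖ + 1) (by positivity)
    (fun n => (conj_opnorm D.base (x i) (n + i)).trans (by linarith)) hc
  exact ⟨y, hy, (tendsto_add_atTop_iff_nat (f := fun n =>
    (star (uu w n) * x i * uu w n) T.Ω) i).1 hyt⟩

lemma Lfinal : ∃ x' : ℕ → H →L[ℂ] H, (∀ i, x' i ∈ T.S) ∧
      (∀ i, Tendsto (fun n => (star (uu w n) * x i * uu w n) T.Ω) atTop (𝓝 (x' i T.Ω))) ∧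
      ∀ η > 0, ∃ (l : ℕ) (q : Fin l → H →L[ℂ] H), T.IsPartOf 1 q ∧
        (∀ j, ‖q j T.Ω‖ ^ 2 ≤ η) ∧ ∀ i j, x' i * q j = q j * x' i := by
  choose x' hx'S hx't using LX_lim D
  refine ⟨x', hx'S, hx't, fun η hη => ?_⟩
  have D0 := D.base
  -- choose the level
  have hlim : Tendsto (fun m : ℕ => (√(2 / (m + 1 : ℝ)) + δ / 2 / 2 ^ m) ^ 2) atTop (𝓝 0) := by
    have h1 : Tendsto (fun m : ℕ => (2 / (m + 1 : ℝ))) atTop (𝓝 0) :=
      (tendsto_const_div_atTop_nhds_zero_nat (2 : ℝ)).comp (tendsto_add_atTop_nat 1) |>.congr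
        (fun m => by simp)
    have h2 : Tendsto (fun m : ℕ => √(2 / (m + 1 : ℝ))) atTop (𝓝 0) := by
      have := (Real.continuous_sqrt.tendsto 0).comp h1
      rw [Real.sqrt_zero] at this
      exact this
    have h3 : Tendsto (fun m : ℕ => δ / 2 / 2 ^ m) atTop (𝓝 0) := by
      have h4 : Tendsto (fun m : ℕ => δ / 2 * (1 / 2 : ℝ) ^ m) atTop (𝓝 (δ / 2 * 0)) :=
        (tendsto_pow_atTop_nhds_zero_of_lt_one (by norm_num) (by norm_num)).const_mul _
      rw [mul_zero] at h4
      refine h4.congr fun m => ?_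
      rw [one_div, inv_pow]
      rfl
    have h5 := (h2.add h3).pow 2
    simpa using h5
  obtain ⟨m, hm⟩ := (hlim.eventually (gt_mem_nhds hη)).exists
  choose q hqS hqP hq hqt using D_lim D0 m
  have hpart := fun d => coarse_part (anc k par m d) (D0.part (m + d))
  have hS := fun j d => conj_mem D0 (m + d) ((hpart d).mem j)
  have hn : ∀ j d, ‖star (uu w (m + d)) * coarse (anc k par m d) (p (m + d)) j *
      uu w (m + d)‖ ≤ 1 := fun j d =>
    (conj_opnorm D0 _ _).trans (proj_norm_le ((hpart d).proj j))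
  refine ⟨k m, q, ⟨hqS, hqP, fun i j hij => ?_, ?_⟩, fun j => ?_, fun i j => ?_⟩
  · refine eq_of_Om (mul_mem (hqS i) (hqS j)) (zero_mem _) ?_
    refine tendsto_nhds_unique (tendsto_mul (hS i) (hqS i) (hqS j) (hn i) (hqt i) (hqt j)) ?_
    refine tendsto_const_nhds.congr fun d => ?_
    rw [uconj D0, (hpart d).orth i j hij, mul_zero, zero_mul]
  · refine eq_of_Om (sum_mem fun j _ => hqS j) (one_mem _) ?_
    have h1 := tendsto_finsetSum (Finset.univ : Finset (Fin (k m))) fun j _ => hqt j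
    rw [sum_apply]
    refine tendsto_nhds_unique h1 ?_
    refine tendsto_const_nhds.congr fun d => ?_
    rw [← sum_apply, ← Finset.sum_mul, ← Finset.mul_sum, (hpart d).sum, mul_one,
      Unitary.star_mul_self_of_mem (uU D0 _)]
  · refine le_trans ?_ hm.le
    have h1 : ‖q j T.Ω‖ ≤ √(2 / (m + 1 : ℝ)) + δ / 2 / 2 ^ m := by
      have h2 : ‖(star (uu w m) * p m j * uu w m) T.Ω‖ ≤ √(2 / (m + 1 : ℝ)) := by
        rw [conj_norm D0 m ((D0.part m).mem j)]
        exact Real.le_sqrt_of_sq_le (D0.tr m j)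
      have h3 := hq j
      rw [sub_apply] at h3
      have h4 := norm_le_norm_add_norm_sub' (q j T.Ω) ((star (uu w m) * p m j * uu w m) T.Ω)
      linarith
    exact pow_le_pow_left₀ (norm_nonneg _) h1 2
  · refine eq_of_Om (mul_mem (hx'S i) (hqS j)) (mul_mem (hqS j) (hx'S i)) ?_
    have hxt : Tendsto (fun d => (star (uu w (m + d)) * x i * uu w (m + d)) T.Ω) atTop
        (𝓝 (x' i T.Ω)) := (hx't i).comp (tendsto_add_atTop_nat m |>.congr fun d => by
          rw [add_comm])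
    have h1 := tendsto_mul (fun d => conj_mem D0 (m + d) (D.xS i)) (hx'S i) (hqS j)
      (fun d => conj_opnorm D0 (x i) (m + d)) hxt (hqt j)
    have h2 := tendsto_mul (hS j) (hqS j) (hx'S i) (hn j) (hqt j) hxt
    have h3 := h1.sub h2
    have h4 : Tendsto (fun d : ℕ => 1 / ((d : ℝ) + 1)) atTop (𝓝 0) :=
      tendsto_one_div_add_atTop_nhds_zero_nat
    have h5 := tendsto_nhds_unique h3 (squeeze_zero_norm' (a := fun d : ℕ => 1 / ((d : ℝ) + 1))
      (Filter.eventually_atTop.2 ⟨i, fun d hd => ?_⟩) h4)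
    · exact sub_eq_zero.1 h5
    · rw [← sub_apply, uconj D0, uconj D0, ← sub_mul, ← mul_sub,
        conj_norm D0 _ (sub_mem (mul_mem (D.xS i) ((hpart d).mem j))
          (mul_mem ((hpart d).mem j) (D.xS i)))]
      have hc : (0 : ℝ) ≤ 1 / (((m + d : ℕ) : ℝ) + 1) / ((k (m + d) : ℝ) + 1) := by positivity
      refine (coarse_comm (anc k par m d) (p (m + d)) (x i) hc
        (fun l => D.comm (m + d) l i (by omega)) j).trans ?_
      rw [mul_div_cancel₀ _ (by positivity)]
      refine one_div_le_one_div_of_le (by positivity) ?_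
      push_cast
      linarith [(Nat.cast_nonneg m : (0 : ℝ) ≤ m)]

end

end LInter

theorem lInter_proof : Stmt_LInter.{u} := by
  intro H _ _ _ T N hN hA ⟨k, t, par, ht, hpar, hex⟩ x hx
  classical
  let δ : ℝ := 1
  have hδ : 0 < δ := one_pos
  let F₀ : ℕ → Finset (H →L[ℂ] H) := fun n => (Finset.range (n + 1)).image x
  have hF₀ : ∀ n i, i ≤ n → x i ∈ F₀ n := fun n i hi =>
    Finset.mem_image_of_mem _ (Finset.mem_range.2 (by omega))
  choose F₁ ε₁ hε₁ hconj using fun n : ℕ =>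
    hA (k n) (t n) (F₀ n) (δ / 2 / 2 / 2 ^ n) (by positivity)
      (δ / 2 / 2 / 2 ^ n / (k n + 1 : ℝ)) (by positivity)
  let ε' : ℕ → ℝ := fun n => min (min (ε₁ n) (ε₁ (n - 1))) (1 / (n + 1 : ℝ)) / (k n + 1 : ℝ)
  have hε' : ∀ n, 0 < ε' n := fun n =>
    div_pos (lt_min (lt_min (hε₁ _) (hε₁ _)) (by positivity)) (by positivity)
  have hk1 : ∀ n, ε' n * (k n + 1 : ℝ) = min (min (ε₁ n) (ε₁ (n - 1))) (1 / (n + 1 : ℝ)) :=
    fun n => div_mul_cancel₀ _ (by positivity)
  have hle : ∀ n, ε' n ≤ ε' n * (k n + 1 : ℝ) := fun n => by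
    have : (0 : ℝ) ≤ ε' n * k n := mul_nonneg (hε' n).le (Nat.cast_nonneg _)
    linarith
  have ha : ∀ n, ε' n * (k n + 1 : ℝ) ≤ ε₁ n := fun n => by
    rw [hk1]; exact (min_le_left _ _).trans (min_le_left _ _)
  have hb : ∀ n, ε' n * (k n + 1 : ℝ) ≤ ε₁ (n - 1) := fun n => by
    rw [hk1]; exact (min_le_left _ _).trans (min_le_right _ _)
  have hc : ∀ n, ε' n * (k n + 1 : ℝ) ≤ 1 / (n + 1 : ℝ) := fun n => by
    rw [hk1]; exact min_le_right _ _
  choose p hpart htr hnear using fun n : ℕ =>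
    hex n (F₁ n ∪ F₁ (n - 1) ∪ F₀ n) (ε' n) (hε' n)
  have hw : ∀ n, ∃ w ∈ T.UN N (F₀ n) (δ / 2 / 2 / 2 ^ n), ∀ j,
      ‖(star w * Inter.coarse (par n) (p (n + 1)) j * w - p n j) T.Ω‖ ≤
        δ / 2 / 2 / 2 ^ n / (k n + 1 : ℝ) := by
    intro n
    refine hconj n (p n) (Inter.coarse (par n) (p (n + 1))) (hpart n)
      (Inter.coarse_part _ (hpart (n + 1))) (fun j => (htr n j).trans ((hle n).trans (ha n)))
      (fun j => ?_) (fun j y hy hyN => (hnear n j y ?_ hyN).trans ((hle n).trans (ha n)))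
      (fun j y hy hyN => ?_)
    · rw [Inter.coarse_tr _ (hpart (n + 1)), ← hpar n j, ← Finset.sum_sub_distrib]
      refine (Finset.abs_sum_le_sum_abs _ _).trans ?_
      refine (Finset.sum_le_card_nsmul _ _ (ε' (n + 1)) fun i _ => htr (n + 1) i).trans ?_
      rw [nsmul_eq_mul]
      have h1 : (Finset.univ.filter (fun i => par n i = j)).card ≤ k (n + 1) := by
        refine (Finset.card_filter_le _ _).trans ?_
        simp
      have h2 : ((Finset.univ.filter (fun i => par n i = j)).card : ℝ) ≤ k (n + 1) := by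
        exact_mod_cast h1
      have h3 := hb (n + 1)
      have h4 := hε' (n + 1)
      simp only [Nat.add_sub_cancel] at h3
      refine le_trans ?_ h3
      rw [mul_comm]
      exact mul_le_mul_of_nonneg_left (by linarith) h4.le
    · exact Finset.mem_union_left _ (Finset.mem_union_left _ hy)
    · have h3 := hb (n + 1)
      simp only [Nat.add_sub_cancel] at h3
      refine (Inter.coarse_comm (par n) (p (n + 1)) y (hε' (n + 1)).le (fun i =>
        hnear (n + 1) i y ?_ hyN) j).trans ?_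
      · refine Finset.mem_union_left _ (Finset.mem_union_right _ ?_)
        simpa using hy
      · rw [mul_comm]; exact h3
  choose w hw1 hw2 using hw
  have D : LInter.LData T x δ k par p w := by
    refine ⟨⟨hδ, fun i => i.elim0, hpart, fun n j => ?_, fun n j i => i.elim0,
      fun n => (hw1 n).1, fun n => (hw1 n).2.1, fun n i => i.elim0, hw2⟩,
      fun i => hN.sub _ (hx i), fun n j i hi => ?_,
      fun n i hi => (hw1 n).2.2 _ (hF₀ n i hi) (hx i)⟩
    · have h1 := (abs_le.1 (htr n j)).2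
      have h2 := ht n j
      have h3 := (hle n).trans (hc n)
      have h4 : (2 : ℝ) / (n + 1 : ℝ) = 1 / (n + 1 : ℝ) + 1 / (n + 1 : ℝ) := by ring
      rw [h4]
      linarith
    · refine (hnear n j (x i) (Finset.mem_union_right _ (hF₀ n i hi)) (hx i)).trans ?_
      rw [le_div_iff₀ (by positivity)]
      exact hc n
  obtain ⟨x', h1, h2, h3⟩ := LInter.Lfinal D
  exact ⟨Inter.uu w, x', fun n => ⟨Inter.uS D.base n, Inter.uU D.base n⟩, h1, h2, h3⟩

end Pool.Agent.OS
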