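import Pool.Agent.OS.CornerCore
import Pool.Agent.OS.LStmts

set_option autoImplicit false

/-!
# Relative commutants under a minimal projection are scalar
-/

open Filter Topology
open scoped InnerProductSpace

namespace Pool.Agent.OS

universe u

open Corner CornerCore in
theorem lMinTriv_proof (hCorner : Stmt_Corner.{u}) (hNS : Stmt_NonscalarProj.{u}) :
    Stmt_LMinTriv.{u} := by
  intro H _ _ _ T N hN e he hp he0 hcomm hmin z hz hzc hze hez
  obtain ⟨K, _, _, _, T', V, hV, hVe, hmem, hΩ⟩ := hCorner H T e he hp he0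
  have hmem' : ∀ y : K →L[ℂ] K, y ∈ T'.S ↔ cm V y ∈ T.S := hmem
  have hee : e * e = e := hp.isIdempotentElem.eq
  -- the elements of `N` in the corner
  have hx1 : ∀ x ∈ N, cm V (dn V x) = x * e := by
    intro x hx
    rw [cm_dn hVe, mul_assoc, hcomm x hx, ← mul_assoc, hee]
  have hx2 : ∀ x ∈ N, cm V (dn V x) = e * x := by
    intro x hx
    rw [hx1 x hx, hcomm x hx]
  have hsub : T'.IsSub (N' V N) := by
    refine ⟨?_, ?_⟩
    · rintro y ⟨x, hx, rfl⟩
      rw [hmem', hx1 x hx]
      exact mul_mem (hN.sub x hx) he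
    · rintro y ⟨x, hx, rfl⟩
      exact ⟨star x, hN.star x hx, dn_star x⟩
  have htriv : T'.TrivComm (N' V N) := by
    intro y hy hyc
    by_contra hcon
    push Not at hcon
    obtain ⟨q, hq, hqp, hq0, hq1⟩ := hNS K (T'.relComm (N' V N) hsub.sub hsub.star)
      ⟨y, ⟨hy, hyc⟩, hcon⟩
    have hqS : cm V q ∈ T.S := (hmem' q).1 hq.1
    have hqc : ∀ x ∈ N, x * cm V q = cm V q * x := by
      intro x hx
      calc x * cm V q = x * (e * cm V q) := by rw [e_mul_cm hV hVe]
        _ = cm V (dn V x) * cm V q := by rw [hx1 x hx, mul_assoc]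
        _ = cm V q * cm V (dn V x) := by
          rw [← cm_mul hV, hq.2 _ ⟨x, hx, rfl⟩, cm_mul hV]
        _ = cm V q * e * x := by rw [hx2 x hx, mul_assoc]
        _ = cm V q * x := by rw [cm_mul_e hV hVe]
    rcases hmin (cm V q) hqS (cm_proj hV hqp) hqc (cm_mul_e hV hVe q) with h | h
    · exact hq0 (cm_inj hV (h.trans cm_zero.symm))
    · refine hq1 (cm_inj hV (h.trans ?_))
      rw [cm_one, hVe]
  have hcd : cm V (dn V z) = z := by rw [cm_dn hVe, hez, hze]
  obtain ⟨c, hc⟩ := htriv (dn V z) ((hmem' _).2 (hcd.symm ▸ hz)) (by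
    rintro y ⟨x, hx, rfl⟩
    refine cm_inj hV ?_
    rw [cm_mul hV, cm_mul hV, hcd, hx1 x hx]
    calc x * e * z = x * z := by rw [mul_assoc, hez]
      _ = z * x := hzc x hx
      _ = z * (e * x) := by rw [← mul_assoc, hze]
      _ = z * (x * e) := by rw [hcomm x hx])
  refine ⟨c, ?_⟩
  rw [← hcd, hc, ← hVe]
  ext ξ
  simp [cm]

end Pool.Agent.OS
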