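import Pool.Agent.OS.LStmts
import Pool.Agent.OS.PartLift

set_option autoImplicit false

/-!
# Diffuse relative commutants in the ultrapower are inherited by smaller algebras
(`Stmt_LMono`, literal part of MP_7c16f6_an)
-/

open Filter Topology
open scoped InnerProductSpace

namespace Pool.Agent.OS

universe u

namespace LMono

variable {H : Type u} [NormedAddCommGroup H] [InnerProductSpace ℂ H] [CompleteSpace H]

/-- the ultrafilter on the lifted index set -/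
def UU (ω : Ultrafilter ℕ) : Ultrafilter (ULift.{u} ℕ) := ω.map ULift.up

/-- the lifted family -/
def up (a : ℕ → H →L[ℂ] H) : ULift.{u} ℕ → H →L[ℂ] H := fun l => a l.down

variable {T : TVN H} {ω : Ultrafilter ℕ} (P : UPack T (ULift.{u} ℕ) (UU ω))

lemma tendsto_up {a : ℕ → H →L[ℂ] H} {t : ℝ} :
    Tendsto (fun l => ‖up.{u} a l T.Ω‖) (UU.{u} ω) (𝓝 t) ↔
      Tendsto (fun n => ‖a n T.Ω‖) ω (𝓝 t) := by
  unfold UU
  rw [Ultrafilter.coe_map, Filter.tendsto_map'_iff]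
  rfl

lemma eqU_iff {a b : ℕ → H →L[ℂ] H} (ha : T.Bd (up.{u} a)) (hb : T.Bd (up.{u} b)) :
    EqU ω T.Ω a b ↔ P.π (up a) = P.π (up b) := by
  have h1 : up.{u} (fun n => a n - b n) = up a - up b := rfl
  have h2 : T.Bd (up.{u} (fun n => a n - b n)) := by rw [h1]; exact PartLift.bd_sub ha hb
  have h3 : P.π (up (fun n => a n - b n)) = P.π (up a) - P.π (up b) := by
    rw [h1, PartLift.pi_sub P ha hb]
  unfold EqU
  rw [← tendsto_up (T := T) (ω := ω) (a := fun n => a n - b n), ← sub_eq_zero (a := P.π (up a)),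
    ← h3]
  exact ⟨fun h => PartLift.pi_eq_zero P h2 h, fun h => PartLift.tendsto_of_pi_eq_zero P h2 h⟩

/-- the image of `N` -/
def XN (N : Set (H →L[ℂ] H)) : Set (P.L →L[ℂ] P.L) := {y | ∃ x ∈ N, y = P.π (fun _ => x)}

lemma bd_const {x : H →L[ℂ] H} (hx : x ∈ T.S) : T.Bd (fun _ : ULift.{u} ℕ => x) :=
  ⟨fun _ => hx, ‖x‖, fun _ => le_rfl⟩

/-- the relative commutant -/
noncomputable def QQ (N : Set (H →L[ℂ] H)) (hN : T.IsSub N) : TVN P.L :=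
  P.That.relComm (XN P N)
    (by rintro y ⟨x, hx, rfl⟩; exact P.mem _ (bd_const (hN.sub x hx)))
    (by
      rintro y ⟨x, hx, rfl⟩
      refine ⟨star x, hN.star x hx, ?_⟩
      rw [← P.map_star _ (bd_const (hN.sub x hx))]
      rfl)

lemma mem_QQ {N : Set (H →L[ℂ] H)} {hN : T.IsSub N} {y : P.L →L[ℂ] P.L} :
    y ∈ (QQ P N hN).S ↔ y ∈ P.That.S ∧ ∀ x ∈ N, P.π (fun _ => x) * y = y * P.π (fun _ => x) := by
  unfold QQ
  rw [P.That.mem_relComm]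
  refine and_congr_right fun _ => ⟨fun h x hx => h _ ⟨x, hx, rfl⟩, ?_⟩
  rintro h z ⟨x, hx, rfl⟩
  exact h x hx

lemma isProjU_iff {M N : VonNeumannAlgebra H} (hTS : ∀ x, x ∈ T.S ↔ x ∈ M)
    (hN : T.IsSub (N : Set (H →L[ℂ] H))) {a : ℕ → H →L[ℂ] H} (ha : BddSeq M a) :
    IsProjU ω T.Ω M N a ↔ IsStarProjection (P.π (up a)) ∧ P.π (up a) ∈ (QQ P N hN).S := by
  have hb : T.Bd (up.{u} a) := ⟨fun l => (hTS _).2 (ha.1 _), by
    obtain ⟨C, hC⟩ := ha.2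
    exact ⟨C, fun l => hC _⟩⟩
  unfold IsProjU
  have e1 : EqU ω T.Ω (fun n => a n * a n) a ↔ P.π (up a) * P.π (up a) = P.π (up a) := by
    rw [eqU_iff P (a := fun n => a n * a n) (PartLift.bd_mul hb hb) hb, ← P.map_mul _ _ hb hb]
    rfl
  have e2 : EqU ω T.Ω (fun n => star (a n)) a ↔ star (P.π (up a)) = P.π (up a) := by
    rw [eqU_iff P (a := fun n => star (a n)) (PartLift.bd_star hb) hb, ← P.map_star _ hb]
    rfl
  have e3 : (∀ x ∈ N, EqU ω T.Ω (fun n => x * a n) (fun n => a n * x)) ↔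
      ∀ x ∈ (N : Set (H →L[ℂ] H)),
        P.π (fun _ => x) * P.π (up a) = P.π (up a) * P.π (fun _ => x) := by
    refine forall₂_congr fun x hx => ?_
    have hc := bd_const (hN.sub x hx)
    rw [eqU_iff P (a := fun n => x * a n) (b := fun n => a n * x) (PartLift.bd_mul hc hb)
      (PartLift.bd_mul hb hc), ← P.map_mul _ _ hb hc, ← P.map_mul _ _ hc hb]
    rfl
  rw [e1, e2, e3, mem_QQ]
  constructor
  · rintro ⟨_, h1, h2, h3⟩
    exact ⟨⟨h1, h2⟩, P.mem _ hb, h3⟩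
  · rintro ⟨⟨h1, h2⟩, _, h3⟩
    exact ⟨ha, h1, h2, h3⟩

lemma lift_seq {M : VonNeumannAlgebra H} (hTS : ∀ x, x ∈ T.S ↔ x ∈ M) {y : P.L →L[ℂ] P.L}
    (hy : y ∈ P.That.S) : ∃ a : ℕ → H →L[ℂ] H, BddSeq M a ∧ P.π (up a) = y := by
  obtain ⟨a, ha, hn, hπ⟩ := P.lift y hy
  exact ⟨fun n => a ⟨n⟩, ⟨fun n => (hTS _).1 (ha _), ‖y‖, fun n => hn _⟩, hπ⟩

lemma bdd_up {M : VonNeumannAlgebra H} (hTS : ∀ x, x ∈ T.S ↔ x ∈ M) {a : ℕ → H →L[ℂ] H}
    (ha : BddSeq M a) : T.Bd (up.{u} a) := ⟨fun l => (hTS _).2 (ha.1 _), by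
  obtain ⟨C, hC⟩ := ha.2
  exact ⟨C, fun l => hC _⟩⟩

lemma diffuse_iff {M N : VonNeumannAlgebra H} (hTS : ∀ x, x ∈ T.S ↔ x ∈ M)
    (hN : T.IsSub (N : Set (H →L[ℂ] H))) :
    DiffuseUltra ω T.Ω M N ↔ (QQ P N hN).NoMin := by
  have h0 : P.π (up.{u} (0 : ℕ → H →L[ℂ] H)) = 0 := PartLift.pi_zero P
  have hb0 : T.Bd (up.{u} (0 : ℕ → H →L[ℂ] H)) := PartLift.bd_zero
  constructor
  · intro h p hp hpp hp0
    obtain ⟨a, ha, hap⟩ := lift_seq P hTS ((mem_QQ P).1 hp).1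
    have hb := bdd_up hTS ha
    obtain ⟨q, hq, hq0, hqp, hqq⟩ := h a
      ((isProjU_iff P hTS hN ha).2 ⟨by rw [hap]; exact hpp, by rw [hap]; exact hp⟩)
      (by rw [eqU_iff P hb hb0, hap, h0]; exact hp0)
    have hqb := bdd_up hTS hq.1
    obtain ⟨h1, h2⟩ := (isProjU_iff P hTS hN hq.1).1 hq
    refine ⟨P.π (up q), h2, h1, ?_, ?_, ?_⟩
    · rwa [eqU_iff P hqb hb0, h0] at hq0
    · rwa [eqU_iff P hqb hb, hap] at hqp
    · rw [eqU_iff P (a := fun n => q n * a n) (PartLift.bd_mul hqb hb) hqb] at hqq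
      rw [← hap, ← P.map_mul _ _ hqb hb]
      exact hqq
  · intro h a ha ha0
    have hb := bdd_up hTS ha.1
    obtain ⟨h1, h2⟩ := (isProjU_iff P hTS hN ha.1).1 ha
    obtain ⟨y, hy, hyp, hy0, hya, hyy⟩ := h _ h2 h1 (by
      rwa [eqU_iff P hb hb0, h0] at ha0)
    obtain ⟨q, hq, hqy⟩ := lift_seq P hTS ((mem_QQ P).1 hy).1
    have hqb := bdd_up hTS hq
    refine ⟨q, (isProjU_iff P hTS hN hq).2 ⟨by rw [hqy]; exact hyp, by rw [hqy]; exact hy⟩,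
      ?_, ?_, ?_⟩
    · rw [eqU_iff P hqb hb0, h0, hqy]; exact hy0
    · rw [eqU_iff P hqb hb, hqy]; exact hya
    · rw [eqU_iff P (a := fun n => q n * a n) (PartLift.bd_mul hqb hb) hqb]
      have : P.π (up q * up a) = P.π (up q) := by
        rw [P.map_mul _ _ hqb hb, hqy]; exact hyy
      exact this

end LMono

open LMono in
theorem lMono_proof (hOf : Stmt_OfVN.{u}) (hUl : Stmt_Ultra.{u}) (hDiv : Stmt_Divide.{u})
    (hPart : Stmt_PartNoMin.{u}) : Stmt_LMono.{u} := by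
  intro H _ _ _ M N N₁ Ω hM hN hN₁ ω hd
  obtain ⟨T, hTΩ, hTS⟩ := hOf H M Ω hM M le_rfl
  subst hTΩ
  obtain ⟨P⟩ := hUl H T (ULift.{u} ℕ) (UU ω)
  have hsN : T.IsSub (N : Set (H →L[ℂ] H)) :=
    ⟨fun x hx => (hTS x).2 (hN hx), fun x hx => star_mem (S := VonNeumannAlgebra H) hx⟩
  have hsN₁ : T.IsSub (N₁ : Set (H →L[ℂ] H)) :=
    ⟨fun x hx => (hTS x).2 (hN (hN₁ hx)), fun x hx => star_mem (S := VonNeumannAlgebra H) hx⟩
  rw [diffuse_iff P hTS hsN] at hd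
  rw [diffuse_iff P hTS hsN₁]
  apply hPart
  intro η hη
  obtain ⟨k, q, hq, hqη⟩ := hDiv _ (QQ P N hsN) hd 1 (one_mem _) (IsStarProjection.one _) η hη
  refine ⟨k, q, ⟨fun j => ?_, hq.proj, hq.orth, hq.sum⟩, hqη⟩
  have := (mem_QQ P).1 (hq.mem j)
  exact (mem_QQ P).2 ⟨this.1, fun x hx => this.2 x (hN₁ hx)⟩

end Pool.Agent.OS
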