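import Pool.Agent.OS.LStmts

set_option autoImplicit false

/-!
# Diffuse relative commutants in a subalgebra (`Stmt_LMonoRel`, literal part of MP_7c16f6_an)
-/

open Filter Topology
open scoped InnerProductSpace

namespace Pool.Agent.OS

universe u

namespace LMonoRel

variable {H : Type u} [NormedAddCommGroup H] [InnerProductSpace ℂ H] [CompleteSpace H]

lemma isSub {T : TVN H} {M N : VonNeumannAlgebra H} (hTS : ∀ x, x ∈ T.S ↔ x ∈ M) (hN : N ≤ M) :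
    T.IsSub (N : Set (H →L[ℂ] H)) :=
  ⟨fun x hx => (hTS x).2 (hN hx), fun _ hx => star_mem (S := VonNeumannAlgebra H) hx⟩

lemma noMin_iff {T : TVN H} {M N : VonNeumannAlgebra H} (hTS : ∀ x, x ∈ T.S ↔ x ∈ M)
    (hN : T.IsSub (N : Set (H →L[ℂ] H))) :
    DiffuseRelComm M N ↔ (T.relComm (N : Set (H →L[ℂ] H)) hN.sub hN.star).NoMin := by
  constructor
  · intro h p hp hpp hp0
    rw [T.mem_relComm] at hp
    obtain ⟨q, hq, hqp, hqc, hq0, hqne, hqq⟩ := h p ((hTS p).1 hp.1) hpp (fun x hx => hp.2 x hx) hp0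
    exact ⟨q, (T.mem_relComm).2 ⟨(hTS q).2 hq, fun x hx => hqc x hx⟩, hqp, hq0, hqne, hqq⟩
  · intro h p hp hpp hpc hp0
    obtain ⟨q, hq, hqp, hq0, hqne, hqq⟩ := h p
      ((T.mem_relComm).2 ⟨(hTS p).2 hp, fun x hx => hpc x hx⟩) hpp hp0
    rw [T.mem_relComm] at hq
    exact ⟨q, (hTS q).1 hq.1, hqp, fun x hx => hq.2 x hx, hq0, hqne, hqq⟩

end LMonoRel

open LMonoRel in
theorem lMonoRel_proof (hOf : Stmt_OfVN.{u}) (hDiv : Stmt_Divide.{u})
    (hPart : Stmt_PartNoMin.{u}) : Stmt_LMonoRel.{u} := by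
  intro H _ _ _ M P N Ω hM hPM hNP hd
  obtain ⟨T, hTΩ, hTS⟩ := hOf H M Ω hM M le_rfl
  obtain ⟨T', hTΩ', hTS'⟩ := hOf H M Ω hM P hPM
  have hsN : T.IsSub (N : Set (H →L[ℂ] H)) := isSub hTS (hNP.trans hPM)
  have hsN' : T'.IsSub (N : Set (H →L[ℂ] H)) := isSub hTS' hNP
  rw [noMin_iff hTS' hsN'] at hd
  rw [noMin_iff hTS hsN]
  apply hPart
  intro η hη
  obtain ⟨k, q, hq, hqη⟩ := hDiv _ _ hd 1 (one_mem _) (IsStarProjection.one _) η hη
  refine ⟨k, q, ⟨fun j => ?_, hq.proj, hq.orth, hq.sum⟩, fun j => ?_⟩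
  · have := (T'.mem_relComm).1 (hq.mem j)
    exact (T.mem_relComm).2 ⟨(hTS _).2 (hPM ((hTS' _).1 this.1)), this.2⟩
  · have := hqη j
    rw [T'.relComm_Ω, hTΩ'] at this
    rw [T.relComm_Ω, hTΩ]
    exact this

end Pool.Agent.OS
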