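import Pool.Agent.OS.Basic
import Pool.Agent.OS.LStmts

set_option autoImplicit false

/-!
# Module LSep: a separable noninjective subfactor
-/

open Filter Topology
open scoped InnerProductSpace

namespace Pool.Agent.OS

universe u

namespace LSep

/-- formal terms -/
inductive Term (r : ℕ) : Type
  | one : Term r
  | var : Fin r → Term r
  | add : Term r → Term r → Term r
  | mul : Term r → Term r → Term r
  | st : Term r → Term r
  | rat : ℚ → Term r → Term r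
  | im : Term r → Term r
  | avg : Term r → ℕ → ℕ → Term r
  deriving Countable

variable {H : Type u} [NormedAddCommGroup H] [InnerProductSpace ℂ H] [CompleteSpace H]

/-- evaluation of terms -/
noncomputable def ev {r : ℕ} (x : Fin r → H →L[ℂ] H)
    (W : (H →L[ℂ] H) → ℕ → ℕ → (H →L[ℂ] H)) : Term r → (H →L[ℂ] H)
  | .one => 1
  | .var i => x i
  | .add a b => ev x W a + ev x W b
  | .mul a b => ev x W a * ev x W b
  | .st a => star (ev x W a)
  | .rat q a => (q : ℂ) • ev x W a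
  | .im a => Complex.I • ev x W a
  | .avg a m j => W (ev x W a) m j

lemma ev_mem {r : ℕ} {x : Fin r → H →L[ℂ] H} {W : (H →L[ℂ] H) → ℕ → ℕ → (H →L[ℂ] H)}
    {N : VonNeumannAlgebra H} (hx : ∀ i, x i ∈ N) (hW : ∀ y m j, W y m j ∈ N) :
    ∀ t : Term r, ev x W t ∈ N
  | .one => one_mem _
  | .var i => hx i
  | .add a b => add_mem (ev_mem hx hW a) (ev_mem hx hW b)
  | .mul a b => mul_mem (ev_mem hx hW a) (ev_mem hx hW b)
  | .st a => star_mem (ev_mem hx hW a)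
  | .rat q a => by
      have h := ev_mem hx hW a
      exact N.toStarSubalgebra.smul_mem h (q : ℂ)
  | .im a => by
      have h := ev_mem hx hW a
      exact N.toStarSubalgebra.smul_mem h Complex.I
  | .avg a m j => hW _ _ _

end LSep

open LSep Main in
theorem lSep_proof (hPerturb : Stmt_Perturb.{u}) (hOfVN : Stmt_OfVN.{u}) (hDens : Stmt_LDens.{u})
    (hFac : Stmt_LFac.{u}) (hDix : Stmt_LDix.{u}) : Stmt_LSep.{u} := by
  intro H _ _ _ M N Ω hM hNM hNfac hNinj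
  classical
  obtain ⟨r, x, hx, δ, hδ, hpert⟩ := hPerturb H M N Ω hM hNM hNinj
  obtain ⟨T, hTΩ, hTS⟩ := hOfVN H M Ω hM N hNM
  have hTfac : T.Factor := fun a ha hc =>
    hNfac a ((hTS a).1 ha) fun y hy => hc y ((hTS y).2 hy)
  have hav : ∀ y : H →L[ℂ] H, y ∈ N → ∀ m : ℕ,
      ∃ (k : ℕ) (c : Fin k → ℝ) (w : Fin k → H →L[ℂ] H), (∀ i, 0 ≤ c i) ∧ ∑ i, c i = 1 ∧
      (∀ i, w i ∈ N ∧ w i ∈ unitary (H →L[ℂ] H)) ∧
      ‖(∑ i, (c i : ℂ) • (w i * y * star (w i)) - T.tr y • (1 : H →L[ℂ] H)) Ω‖ ≤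
        1 / ((m : ℝ) + 1) := by
    intro y hy m
    obtain ⟨k, c, w, h1, h2, h3, h4⟩ := hDix H T hTfac y ((hTS y).2 hy) (1 / ((m : ℝ) + 1))
      (by positivity)
    exact ⟨k, c, w, h1, h2, fun i => ⟨(hTS _).1 (h3 i).1, (h3 i).2⟩, by rwa [hTΩ] at h4⟩
  choose k c w hc0 hc1 hw hle using hav
  let W : (H →L[ℂ] H) → ℕ → ℕ → (H →L[ℂ] H) := fun y m j =>
    if h : y ∈ N then (if hj : j < k y h m then w y h m ⟨j, hj⟩ else 1) else 1
  have hWN : ∀ y m j, W y m j ∈ N := by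
    intro y m j
    simp only [W]
    split_ifs with h hj
    · exact (hw y h m ⟨j, hj⟩).1
    · exact one_mem _
    · exact one_mem _
  have hWval : ∀ (y : H →L[ℂ] H) (h : y ∈ N) (m : ℕ) (j : Fin (k y h m)),
      W y m j = w y h m j := by
    intro y h m j
    simp only [W]
    rw [dif_pos h, dif_pos j.2]
  set D : Set (H →L[ℂ] H) := Set.range (ev x W) with hD
  have hDN : ∀ y ∈ D, y ∈ N := by
    rintro y ⟨t, rfl⟩
    exact ev_mem hx hWN t
  have hDstar : ∀ y ∈ D, star y ∈ D := by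
    rintro y ⟨t, rfl⟩
    exact ⟨.st t, rfl⟩
  have hD1 : (1 : H →L[ℂ] H) ∈ D := ⟨.one, rfl⟩
  have hDadd : ∀ a ∈ D, ∀ b ∈ D, a + b ∈ D := by
    rintro a ⟨s, rfl⟩ b ⟨t, rfl⟩
    exact ⟨.add s t, rfl⟩
  have hDmul : ∀ a ∈ D, ∀ b ∈ D, a * b ∈ D := by
    rintro a ⟨s, rfl⟩ b ⟨t, rfl⟩
    exact ⟨.mul s t, rfl⟩
  have hDrat : ∀ (q : ℚ), ∀ a ∈ D, (q : ℂ) • a ∈ D := by
    rintro q a ⟨s, rfl⟩
    exact ⟨.rat q s, rfl⟩
  have hDI : ∀ a ∈ D, Complex.I • a ∈ D := by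
    rintro a ⟨s, rfl⟩
    exact ⟨.im s, rfl⟩
  have hDx : ∀ i, x i ∈ D := fun i => ⟨.var i, rfl⟩
  have hgenN : gen D hDstar ≤ N := gen_le hDN
  have hgenM : gen D hDstar ≤ M := hgenN.trans hNM
  have hdense : ∀ a ∈ gen D hDstar, ∀ ε > 0, ∃ y ∈ D, ‖(a - y) Ω‖ ≤ ε := by
    intro a ha ε hε
    exact hDens H D Ω hDstar hD1 hDadd hDmul hDrat hDI a ha ε hε
  refine ⟨gen D hDstar, hgenN, ?_, ?_, ?_⟩
  · refine hFac H M (gen D hDstar) Ω D hM hgenM (fun y hy => subset_gen hy) hdense ?_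
    rintro y hy ε hε
    obtain ⟨m, hm⟩ := exists_nat_one_div_lt hε
    have hyN := hDN y hy
    obtain ⟨t, rfl⟩ := hy
    refine ⟨T.tr (ev x W t), k _ hyN m, c _ hyN m, w _ hyN m, hc0 _ hyN m, hc1 _ hyN m, ?_,
      (hle _ hyN m).trans hm.le⟩
    intro i
    refine ⟨?_, (hw _ hyN m i).2⟩
    have h1 : w _ hyN m i = ev x W (.avg t m i) := by
      rw [← hWval _ hyN m i]
      rfl
    rw [h1]
    exact subset_gen ⟨_, rfl⟩
  · exact hpert x (fun i => by simpa using hδ.le) _ hgenM fun i => subset_gen (hDx i)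
  · obtain ⟨g, hg⟩ := (Set.countable_range (ev x W)).exists_eq_range ⟨1, hD1⟩
    have hg' : ∀ i, g i ∈ D := fun i => by
      rw [hD, hg]
      exact ⟨i, rfl⟩
    refine ⟨g, fun i => subset_gen (hg' i), ?_⟩
    intro y hy ε hε
    obtain ⟨z, hz, hzε⟩ := hdense y hy ε hε
    have hz' : z ∈ Set.range g := by
      rw [← hg]
      exact hz
    obtain ⟨i, rfl⟩ := hz'
    refine ⟨i, ?_⟩
    have h1 : (g i - y) Ω = -((y - g i) Ω) := by simp
    rw [h1, norm_neg]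
    exact hzε

end Pool.Agent.OS
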