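import Pool.Agent.OS.LStmts
import Pool.Agent.OS.Basic

set_option autoImplicit false

open Filter Topology
open scoped InnerProductSpace

namespace Pool.Agent.OS

universe u

theorem lTheta_proof : Stmt_LTheta.{u} := by
  intro H _ _ _ T N hN x hx hdense u x' hu hx' hconv
  have hxS : ∀ i, x i ∈ T.S := fun i => hN _ (hx i)
  have hnormu : ∀ n, ‖u n‖ ≤ 1 := fun n => by
    have h1 : star (u n) * u n = 1 := (Unitary.mem_iff.1 (hu n).2).1
    have h2 : ‖star (u n) * u n‖ = ‖u n‖ * ‖u n‖ := CStarRing.norm_star_mul_self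
    have h3 : ‖(1 : H →L[ℂ] H)‖ ≤ 1 := ContinuousLinearMap.norm_id_le
    rw [h1] at h2
    nlinarith [norm_nonneg (u n)]
  have hmem : ∀ y ∈ N, ∀ n, star (u n) * y * u n ∈ T.S := fun y hy n =>
    mul_mem (mul_mem (star_mem (hu n).1) (hN y hy)) (hu n).1
  have hbd : ∀ y : H →L[ℂ] H, ∀ n, ‖star (u n) * y * u n‖ ≤ ‖y‖ := by
    intro y n
    calc ‖star (u n) * y * u n‖ ≤ ‖star (u n) * y‖ * ‖u n‖ := norm_mul_le _ _
      _ ≤ (‖star (u n)‖ * ‖y‖) * ‖u n‖ :=
          mul_le_mul_of_nonneg_right (norm_mul_le _ _) (norm_nonneg _)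
      _ ≤ (1 * ‖y‖) * 1 := by
          gcongr
          · rw [norm_star]; exact hnormu n
          · exact hnormu n
      _ = ‖y‖ := by ring
  have hdiff : ∀ y ∈ N, ∀ i n, ‖(star (u n) * y * u n) T.Ω - (star (u n) * x i * u n) T.Ω‖
      = ‖(x i - y) T.Ω‖ := by
    intro y hy i n
    have h1 := T.norm_conj' (sub_mem (hN y hy) (hxS i)) (hu n).1 (hu n).2
    have h2 : star (u n) * (y - x i) * u n = star (u n) * y * u n - star (u n) * x i * u n := by
      noncomm_ring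
    rw [h2] at h1
    have h3 : (star (u n) * y * u n) T.Ω - (star (u n) * x i * u n) T.Ω =
        (star (u n) * y * u n - star (u n) * x i * u n) T.Ω := rfl
    rw [h3, h1, ← norm_neg]
    simp
  have hcau : ∀ y ∈ N, CauchySeq (fun n => (star (u n) * y * u n) T.Ω) := by
    intro y hy
    rw [Metric.cauchySeq_iff']
    intro ε hε
    obtain ⟨i, hi⟩ := hdense y hy (ε / 8) (by positivity)
    have h1 := (hconv i).cauchySeq
    rw [Metric.cauchySeq_iff'] at h1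
    obtain ⟨n0, hn0⟩ := h1 (ε / 4) (by positivity)
    refine ⟨n0, fun n hn => ?_⟩
    have h2 := hn0 n hn
    rw [dist_eq_norm] at h2 ⊢
    have h3 := hdiff y hy i n
    have h4 := hdiff y hy i n0
    have e : (star (u n) * y * u n) T.Ω - (star (u n0) * y * u n0) T.Ω =
        ((star (u n) * y * u n) T.Ω - (star (u n) * x i * u n) T.Ω) +
        ((star (u n) * x i * u n) T.Ω - (star (u n0) * x i * u n0) T.Ω) -
        ((star (u n0) * y * u n0) T.Ω - (star (u n0) * x i * u n0) T.Ω) := by abel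
    rw [e]
    refine lt_of_le_of_lt (norm_sub_le _ _) ?_
    refine lt_of_le_of_lt (add_le_add_left (norm_add_le _ _) _) ?_
    rw [h3, h4]
    linarith
  have hex : ∀ y : H →L[ℂ] H, ∃ z : H →L[ℂ] H, y ∈ N → z ∈ T.S ∧ ‖z‖ ≤ ‖y‖ ∧
      Tendsto (fun n => (star (u n) * y * u n) T.Ω) atTop (𝓝 (z T.Ω)) := by
    intro y
    by_cases hy : y ∈ N
    · obtain ⟨z, hz, hz1, hz2⟩ := T.complete' (hmem y hy) (hbd y) (hcau y hy)
      exact ⟨z, fun _ => ⟨hz, hz1, hz2⟩⟩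
    · exact ⟨0, fun h => absurd h hy⟩
  choose θ hθ using hex
  refine ⟨θ, fun y hy => (hθ y hy).1, fun y hy => (hθ y hy).2.1, fun y hy => (hθ y hy).2.2, ?_⟩
  intro q hq hcomm y hy
  obtain ⟨hθS, -, hθt⟩ := hθ y hy
  have hlim : ∀ i, ‖(θ y - x' i) T.Ω‖ ≤ ‖(x i - y) T.Ω‖ := by
    intro i
    have h1 := (hθt.sub (hconv i)).norm
    have h2 : Tendsto (fun n => ‖(star (u n) * y * u n) T.Ω - (star (u n) * x i * u n) T.Ω‖)
        atTop (𝓝 ‖(x i - y) T.Ω‖) := by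
      refine tendsto_const_nhds.congr fun n => (hdiff y hy i n).symm
    have h3 := tendsto_nhds_unique h1 h2
    have h4 : (θ y - x' i) T.Ω = (θ y) T.Ω - (x' i) T.Ω := rfl
    rw [h4, h3]
  have hsmall : ∀ ε > 0, ‖(θ y * q - q * θ y) T.Ω‖ ≤ 2 * ‖q‖ * ε := by
    intro ε hε
    obtain ⟨i, hi⟩ := hdense y hy ε hε
    have h1 := (hlim i).trans hi
    have e : θ y * q - q * θ y = (θ y - x' i) * q - q * (θ y - x' i) := by
      have := hcomm i
      rw [sub_mul, mul_sub, this]; abel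
    rw [e]
    have h2 := T.norm_mul_right (sub_mem hθS (hx' i)) hq
    have h3 := T.norm_mul_le q (θ y - x' i)
    calc ‖((θ y - x' i) * q - q * (θ y - x' i)) T.Ω‖
        ≤ ‖((θ y - x' i) * q) T.Ω‖ + ‖(q * (θ y - x' i)) T.Ω‖ := norm_sub_le _ _
      _ ≤ ‖q‖ * ‖(θ y - x' i) T.Ω‖ + ‖q‖ * ‖(θ y - x' i) T.Ω‖ := add_le_add h2 h3
      _ ≤ ‖q‖ * ε + ‖q‖ * ε := by gcongr
      _ = 2 * ‖q‖ * ε := by ring
  refine T.eq_of_norm_sub (mul_mem hθS hq) (mul_mem hq hθS) ?_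
  refine le_antisymm (le_of_forall_pos_le_add fun ε hε => ?_) (norm_nonneg _)
  have h1 := hsmall (ε / (2 * ‖q‖ + 1)) (by positivity)
  refine h1.trans ?_
  rw [zero_add]
  have h2 : 0 ≤ ‖q‖ := norm_nonneg _
  rw [mul_div_assoc', div_le_iff₀ (by positivity)]
  nlinarith

end Pool.Agent.OS
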