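import Pool.Agent.OS.LStmts
import Pool.Agent.OS.Basic

set_option autoImplicit false

/-!
# The trace is multiplicative on `N × (N' ∩ M)` for a factor `N`
-/

open Filter Topology
open scoped InnerProductSpace

namespace Pool.Agent.OS

universe u

theorem lTrMul_proof (hDix : Stmt_LDix.{u}) (hOf : Stmt_OfVN.{u}) : Stmt_LTrMul.{u} := by
  intro H _ _ _ M N Ω h hNM hfac x hx z hz hcomm
  obtain ⟨T, rfl, hTM⟩ := hOf H M Ω h M le_rfl
  obtain ⟨T', hΩ, hTN⟩ := hOf H M T.Ω h N hNM
  have hF : T'.Factor := by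
    intro a ha hc
    exact hfac a ((hTN a).1 ha) fun y hy => hc y ((hTN y).2 hy)
  have hxS : x ∈ T.S := (hTM x).2 (hNM hx)
  have hzS : z ∈ T.S := (hTM z).2 hz
  -- the estimate
  have key : ∀ ε > 0, ‖T.tr (x * z) - T.tr x * T.tr z‖ ≤ ‖z‖ * ε := by
    intro ε hε
    obtain ⟨k, c, w, hc0, hc1, hw, hle⟩ := hDix H T' hF x ((hTN x).2 hx) ε hε
    rw [hΩ] at hle
    have htr : T'.tr x = T.tr x := by simp [TVN.tr, hΩ]
    rw [htr] at hle
    have hwN : ∀ i, w i ∈ N := fun i => (hTN _).1 (hw i).1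
    have hwS : ∀ i, w i ∈ T.S := fun i => (hTM _).2 (hNM (hwN i))
    have hconj : ∀ i, T.tr (w i * x * star (w i) * z) = T.tr (x * z) := by
      intro i
      have e1 : w i * x * star (w i) * z = w i * (x * z * star (w i)) := by
        have := hcomm _ (star_mem (hwN i))
        rw [mul_assoc (w i * x), this]
        noncomm_ring
      rw [e1, T.tr_mul_comm (hwS i) (mul_mem (mul_mem hxS hzS) (star_mem (hwS i))), mul_assoc,
        (Unitary.mem_iff.1 (hw i).2).1, mul_one]
    set A : H →L[ℂ] H := ∑ i, (c i : ℂ) • (w i * x * star (w i)) with hA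
    have hAS : A ∈ T.S := sum_mem fun i _ => SMulMemClass.smul_mem _
      (mul_mem (mul_mem (hwS i) hxS) (star_mem (hwS i)))
    have hAz : T.tr (A * z) = T.tr (x * z) := by
      rw [hA, Finset.sum_mul]
      have : ∀ i, (c i : ℂ) • (w i * x * star (w i)) * z = (c i : ℂ) • (w i * x * star (w i) * z) :=
        fun i => smul_mul_assoc _ _ _
      simp_rw [this]
      rw [T.tr_sum]
      simp_rw [T.tr_smul, hconj]
      rw [← Finset.sum_mul]
      have : ∑ i, (c i : ℂ) = 1 := by exact_mod_cast hc1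
      rw [this, one_mul]
    have hd : T.tr (x * z) - T.tr x * T.tr z = T.tr ((A - T.tr x • (1 : H →L[ℂ] H)) * z) := by
      rw [sub_mul, T.tr_sub, hAz, smul_mul_assoc, one_mul, T.tr_smul]
    rw [hd]
    refine (T.norm_tr_le _).trans ((T.norm_mul_right (sub_mem hAS
      (SMulMemClass.smul_mem _ (one_mem _))) hzS).trans ?_)
    exact mul_le_mul_of_nonneg_left hle (norm_nonneg _)
  have h0 : ‖T.tr (x * z) - T.tr x * T.tr z‖ ≤ 0 := by
    refine le_of_forall_pos_le_add fun δ hδ => ?_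
    have := key (δ / (‖z‖ + 1)) (by positivity)
    refine this.trans ?_
    have hz1 : ‖z‖ * (δ / (‖z‖ + 1)) ≤ (‖z‖ + 1) * (δ / (‖z‖ + 1)) :=
      mul_le_mul_of_nonneg_right (by linarith) (by positivity)
    have hz2 : (‖z‖ + 1) * (δ / (‖z‖ + 1)) = δ := by
      have : ‖z‖ + 1 ≠ 0 := by positivity
      field_simp
    linarith
  have h1 := sub_eq_zero.1 (norm_le_zero_iff.1 h0)
  simpa [TVN.tr] using h1

end Pool.Agent.OS
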