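import Pool.Agent.OS.LStmts
import Pool.Agent.OS.Compare
import Pool.Agent.OS.CornerCore

set_option autoImplicit false

/-!
# Module LTypeI: noninjective factors have no minimal projections
-/

open Filter Topology
open scoped InnerProductSpace

namespace Pool.Agent.OS

universe u

namespace LTypeI

open Corner CornerCore Compare

variable {H : Type u} [NormedAddCommGroup H] [InnerProductSpace ℂ H] [CompleteSpace H]

/-- the corner of a minimal projection is scalar -/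
theorem corner_scalar (hCorner : Stmt_Corner.{u}) (hNS : Stmt_NonscalarProj.{u}) (T : TVN H)
    {p : H →L[ℂ] H} (hp : p ∈ T.S) (hpp : IsStarProjection p) (hp0 : p ≠ 0)
    (hmin : ∀ q ∈ T.S, IsStarProjection q → q ≠ 0 → q * p = q → q = p) :
    ∀ y ∈ T.S, ∃ c : ℂ, p * y * p = c • p := by
  obtain ⟨K, _, _, _, T', V, hV, hVe, hmem, hΩ⟩ := hCorner H T p hp hpp hp0
  have hmem' : ∀ y : K →L[ℂ] K, y ∈ T'.S ↔ cm V y ∈ T.S := hmem
  have hsc : ∀ x ∈ T'.S, ∃ c : ℂ, x = c • (1 : K →L[ℂ] K) := by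
    intro x hx
    by_contra hcon
    push Not at hcon
    obtain ⟨q, hq, hqp, hq0, hq1⟩ := hNS K T' ⟨x, hx, hcon⟩
    have h1 : cm V q ≠ 0 := fun h => hq0 (cm_inj hV (h.trans cm_zero.symm))
    have h2 := hmin (cm V q) ((hmem' q).1 hq) (cm_proj hV hqp) h1 (cm_mul_e hV hVe q)
    refine hq1 (cm_inj hV (h2.trans ?_))
    rw [cm_one, hVe]
  intro y hy
  have hpq : p * p = p := hpp.isIdempotentElem.eq
  have hz : cm V (dn V (p * y * p)) = p * y * p := by
    rw [cm_dn hVe]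
    have : p * (p * y * p) * p = (p * p) * y * (p * p) := by noncomm_ring
    rw [this, hpq]
  obtain ⟨c, hc⟩ := hsc (dn V (p * y * p)) ((hmem' _).2 (by
    rw [hz]; exact mul_mem (mul_mem hp hy) hp))
  refine ⟨c, ?_⟩
  rw [← hz, hc, cm_smul, cm_one, hVe]

/-- orthogonal copies of a projection -/
structure Fam (T : TVN H) (p : H →L[ℂ] H) {m : ℕ} (v : Fin m → H →L[ℂ] H) : Prop where
  mem : ∀ i, v i ∈ T.S
  left : ∀ i, star (v i) * v i = p
  orth : ∀ i j, i ≠ j → star (v i) * v j = 0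

theorem Fam.mul_p {T : TVN H} {p : H →L[ℂ] H} (hpp : IsStarProjection p) {m : ℕ}
    {v : Fin m → H →L[ℂ] H} (h : Fam T p v) (i : Fin m) : v i * p = v i := by
  have h1 : IsStarProjection (star (v i) * v i) := by rw [h.left i]; exact hpp
  have := piso_mul h1
  rwa [h.left i] at this

theorem Fam.p_mul {T : TVN H} {p : H →L[ℂ] H} (hpp : IsStarProjection p) {m : ℕ}
    {v : Fin m → H →L[ℂ] H} (h : Fam T p v) (i : Fin m) : p * star (v i) = star (v i) := by
  have := congrArg star (h.mul_p hpp i)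
  rwa [star_mul, hpp.isSelfAdjoint.star_eq] at this

/-- the sum of the range projections -/
noncomputable def rg {m : ℕ} (v : Fin m → H →L[ℂ] H) : H →L[ℂ] H := ∑ i, v i * star (v i)

theorem Fam.star_mul_rg {T : TVN H} {p : H →L[ℂ] H} (hpp : IsStarProjection p) {m : ℕ}
    {v : Fin m → H →L[ℂ] H} (h : Fam T p v) (i : Fin m) : star (v i) * rg v = star (v i) := by
  rw [rg, Finset.mul_sum, Finset.sum_eq_single i]
  · rw [← mul_assoc, h.left i, h.p_mul hpp i]
  · intro j _ hj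
    rw [← mul_assoc, h.orth i j hj.symm, zero_mul]
  · simp

theorem Fam.proj {T : TVN H} {p : H →L[ℂ] H} (hpp : IsStarProjection p) {m : ℕ}
    {v : Fin m → H →L[ℂ] H} (h : Fam T p v) : IsStarProjection (rg v) := by
  have hs : star (rg v) = rg v := by
    rw [rg, star_sum]
    refine Finset.sum_congr rfl fun i _ => ?_
    rw [star_mul, star_star]
  refine ⟨?_, hs⟩
  change rg v * rg v = rg v
  conv_lhs => enter [1]; rw [rg]
  rw [Finset.sum_mul]
  conv_rhs => rw [rg]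
  refine Finset.sum_congr rfl fun i _ => ?_
  rw [mul_assoc, h.star_mul_rg hpp i]

theorem Fam.rg_mem {T : TVN H} {p : H →L[ℂ] H} {m : ℕ}
    {v : Fin m → H →L[ℂ] H} (h : Fam T p v) : rg v ∈ T.S :=
  sum_mem fun i _ => mul_mem (h.mem i) (star_mem (h.mem i))

theorem Fam.bound {T : TVN H} {p : H →L[ℂ] H} (hpp : IsStarProjection p) {m : ℕ}
    {v : Fin m → H →L[ℂ] H} (h : Fam T p v) : (m : ℝ) * ‖p T.Ω‖ ^ 2 ≤ 1 := by
  have h1 := h.proj hpp
  have h2 : T.tr (rg v) = (((m : ℝ) * ‖p T.Ω‖ ^ 2 : ℝ) : ℂ) := by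
    rw [rg, T.tr_sum]
    have : ∀ i, T.tr (v i * star (v i)) = ((‖p T.Ω‖ ^ 2 : ℝ) : ℂ) := by
      intro i
      rw [T.tr_mul_comm (h.mem i) (star_mem (h.mem i)), h.left i, T.tr_proj hpp]
    simp only [this]
    simp
  rw [T.tr_proj h1] at h2
  have h3 : ‖(rg v) T.Ω‖ ^ 2 = (m : ℝ) * ‖p T.Ω‖ ^ 2 := by exact_mod_cast h2
  rw [← h3]
  have h4 : ‖(rg v) T.Ω‖ ≤ 1 := (T.norm_le _).trans h1.norm_le
  nlinarith [norm_nonneg ((rg v) T.Ω)]

/-- a maximal family sums to `1` -/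
theorem exists_fam (hAvg : Stmt_Avg.{u}) (hPIso : Stmt_PIso.{u}) (T : TVN H) (hT : T.Factor)
    {p : H →L[ℂ] H} (hp : p ∈ T.S) (hpp : IsStarProjection p) (hp0 : p ≠ 0)
    (hmin : ∀ q ∈ T.S, IsStarProjection q → q ≠ 0 → q * p = q → q = p) :
    ∃ (m : ℕ) (v : Fin m → H →L[ℂ] H), Fam T p v ∧ rg v = 1 := by
  classical
  have hmax : ∃ m : ℕ, (∃ v : Fin m → H →L[ℂ] H, Fam T p v) ∧
      ¬ ∃ v : Fin (m + 1) → H →L[ℂ] H, Fam T p v := by
    by_contra hcon
    push Not at hcon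
    have hall : ∀ m : ℕ, ∃ v : Fin m → H →L[ℂ] H, Fam T p v := by
      intro m
      induction m with
      | zero => exact ⟨Fin.elim0, ⟨fun i => i.elim0, fun i => i.elim0, fun i => i.elim0⟩⟩
      | succ m ih =>
        exact hcon m ih
    have hpos : 0 < ‖p T.Ω‖ ^ 2 := by
      have : ‖p T.Ω‖ ≠ 0 := fun h => hp0 (T.sep p hp (norm_eq_zero.1 h))
      positivity
    obtain ⟨n, hn⟩ := exists_nat_gt (1 / ‖p T.Ω‖ ^ 2)
    obtain ⟨v, hv⟩ := hall n
    have h1 := hv.bound hpp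
    rw [div_lt_iff₀ hpos] at hn
    linarith
  obtain ⟨m, ⟨v, hv⟩, hno⟩ := hmax
  refine ⟨m, v, hv, ?_⟩
  by_contra hne
  have hrp := hv.proj hpp
  have h1p : IsStarProjection (1 : H →L[ℂ] H) := ⟨mul_one _, star_one _⟩
  have hep : IsStarProjection (1 - rg v) := sub_proj h1p hrp (mul_one _)
  have he : 1 - rg v ∈ T.S := sub_mem (one_mem _) hv.rg_mem
  have he0 : 1 - rg v ≠ 0 := fun h => hne (sub_eq_zero.1 h).symm
  obtain ⟨x, hx, hx0⟩ := connect hAvg T hT he hp hpp he0 hp0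
  obtain ⟨w, hw, hw0, hww, hww', h1, h2⟩ := hPIso H T _ p x he hp hx hep hpp hx0
  have hne0 : star w * w ≠ 0 := fun h => hw0 ((CStarRing.star_mul_self_eq_zero_iff w).1 h)
  have hwp : star w * w = p := hmin _ (mul_mem (star_mem hw) hw) hww hne0 h1
  have h3 : (1 - rg v) * (w * star w) = w * star w := le_symm hep hww' h2
  have h4 : (1 - rg v) * w = w := by
    have e1 : w = w * star w * w := by rw [mul_assoc, piso_mul hww]
    calc (1 - rg v) * w = (1 - rg v) * (w * star w * w) := by rw [← e1]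
      _ = (1 - rg v) * (w * star w) * w := by rw [← mul_assoc]
      _ = w := by rw [h3, ← e1]
  have h5 : ∀ i, star (v i) * w = 0 := by
    intro i
    rw [← h4, ← mul_assoc, mul_sub, mul_one, hv.star_mul_rg hpp i, sub_self, zero_mul]
  refine hno ⟨Fin.snoc v w, ⟨?_, ?_, ?_⟩⟩
  · intro i
    refine Fin.lastCases ?_ (fun j => ?_) i
    · simpa using hw
    · simpa using hv.mem j
  · intro i
    refine Fin.lastCases ?_ (fun j => ?_) i
    · simpa using hwp
    · simpa using hv.left j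
  · intro i j
    refine Fin.lastCases ?_ (fun i' => ?_) i
    · refine Fin.lastCases ?_ (fun j' => ?_) j
      · intro h; exact absurd rfl h
      · intro _
        have := congrArg star (h5 j')
        simpa [star_mul] using this
    · refine Fin.lastCases ?_ (fun j' => ?_) j
      · intro _
        simpa using h5 i'
      · intro h
        have h' : i' ≠ j' := fun hh => h (by rw [hh])
        simpa using hv.orth i' j' h'

/-- the vector functional of a family -/
noncomputable def phi (T : TVN H) {m : ℕ} (v : Fin m → H →L[ℂ] H) :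
    (H →L[ℂ] H) →ₗ[ℂ] ℂ where
  toFun := fun y => ∑ i, ⟪(v i) T.Ω, y ((v i) T.Ω)⟫_ℂ
  map_add' := fun x y => by
    rw [← Finset.sum_add_distrib]
    refine Finset.sum_congr rfl fun i _ => ?_
    rw [_root_.add_apply, inner_add_right]
  map_smul' := fun c x => by
    rw [RingHom.id_apply, smul_eq_mul, Finset.mul_sum]
    refine Finset.sum_congr rfl fun i _ => ?_
    rw [_root_.smul_apply, inner_smul_right]

theorem phi_apply (T : TVN H) {m : ℕ} (v : Fin m → H →L[ℂ] H) (y : H →L[ℂ] H) :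
    phi T v y = ∑ i, ⟪(v i) T.Ω, y ((v i) T.Ω)⟫_ℂ := rfl

theorem phi_pos (T : TVN H) {m : ℕ} (v : Fin m → H →L[ℂ] H) (y : H →L[ℂ] H) :
    phi T v (star y * y) = ((∑ i, ‖y ((v i) T.Ω)‖ ^ 2 : ℝ) : ℂ) := by
  rw [phi_apply, Complex.ofReal_sum]
  refine Finset.sum_congr rfl fun i _ => ?_
  have h : (star y * y) ((v i) T.Ω) = ContinuousLinearMap.adjoint y (y ((v i) T.Ω)) := rfl
  rw [h, ContinuousLinearMap.adjoint_inner_right, inner_self_eq_norm_sq_to_K]
  norm_cast

theorem phi_trace {T : TVN H} {p : H →L[ℂ] H} {m : ℕ} {v : Fin m → H →L[ℂ] H}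
    (h : Fam T p v) (h1 : rg v = 1) {x : H →L[ℂ] H} (hx : x ∈ T.S) :
    phi T v x = ⟪T.Ω, x T.Ω⟫_ℂ := by
  have e : ∀ i, ⟪(v i) T.Ω, x ((v i) T.Ω)⟫_ℂ = T.tr (x * (v i * star (v i))) := by
    intro i
    have e1 : ⟪(v i) T.Ω, x ((v i) T.Ω)⟫_ℂ = T.tr (star (v i) * (x * v i)) := by
      rw [T.tr_star_mul]; rfl
    rw [e1, T.tr_mul_comm (star_mem (h.mem i)) (mul_mem hx (h.mem i)), mul_assoc]
  rw [phi_apply]
  simp only [e]
  rw [← T.tr_sum, ← Finset.mul_sum]
  change T.tr (x * rg v) = _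
  rw [h1, mul_one]
  rfl

theorem phi_central {T : TVN H} {p : H →L[ℂ] H} {m : ℕ} {v : Fin m → H →L[ℂ] H}
    (hpp : IsStarProjection p)
    (hc : ∀ y ∈ T.S, ∃ c : ℂ, p * y * p = c • p)
    (h : Fam T p v) (h1 : rg v = 1) {x : H →L[ℂ] H} (hx : x ∈ T.S) (y : H →L[ℂ] H) :
    phi T v (x * y) = phi T v (y * x) := by
  have hl : ∀ i j, ∃ c : ℂ, star (v i) * x * v j = c • p := by
    intro i j
    obtain ⟨c, hc⟩ := hc (star (v i) * x * v j)
      (mul_mem (mul_mem (star_mem (h.mem i)) hx) (h.mem j))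
    refine ⟨c, ?_⟩
    rw [← hc]
    calc star (v i) * x * v j = (p * star (v i)) * x * (v j * p) := by
          rw [h.p_mul hpp, h.mul_p hpp]
      _ = p * (star (v i) * x * v j) * p := by noncomm_ring
  choose l hl using hl
  have hxv : ∀ j, x * v j = ∑ i, l i j • v i := by
    intro j
    calc x * v j = rg v * (x * v j) := by rw [h1, one_mul]
      _ = ∑ i, v i * (star (v i) * x * v j) := by
          rw [rg, Finset.sum_mul]
          refine Finset.sum_congr rfl fun i _ => ?_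
          noncomm_ring
      _ = ∑ i, l i j • v i := by
          refine Finset.sum_congr rfl fun i _ => ?_
          rw [hl, mul_smul_comm, h.mul_p hpp]
  have hxv' : ∀ i, star x * v i = ∑ j, (starRingEnd ℂ (l i j)) • v j := by
    intro i
    calc star x * v i = rg v * (star x * v i) := by rw [h1, one_mul]
      _ = ∑ j, v j * (star (v j) * star x * v i) := by
          rw [rg, Finset.sum_mul]
          refine Finset.sum_congr rfl fun j _ => ?_
          noncomm_ring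
      _ = ∑ j, (starRingEnd ℂ (l i j)) • v j := by
          refine Finset.sum_congr rfl fun j _ => ?_
          have e := congrArg star (hl i j)
          rw [star_mul, star_mul, star_star, star_smul, hpp.isSelfAdjoint.star_eq,
            ← mul_assoc] at e
          rw [e, mul_smul_comm, h.mul_p hpp]
          rfl
  rw [phi_apply, phi_apply]
  have e1 : ∀ i, ⟪(v i) T.Ω, (x * y) ((v i) T.Ω)⟫_ℂ =
      ∑ j, l i j * ⟪(v j) T.Ω, y ((v i) T.Ω)⟫_ℂ := by
    intro i
    have a1 : ⟪(v i) T.Ω, (x * y) ((v i) T.Ω)⟫_ℂ = ⟪(star x * v i) T.Ω, y ((v i) T.Ω)⟫_ℂ := by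
      have b1 : (x * y) ((v i) T.Ω) = x (y ((v i) T.Ω)) := rfl
      have b2 : (star x * v i) T.Ω = ContinuousLinearMap.adjoint x ((v i) T.Ω) := rfl
      rw [b1, b2, ContinuousLinearMap.adjoint_inner_left]
    rw [a1, hxv' i, _root_.sum_apply, sum_inner]
    refine Finset.sum_congr rfl fun j _ => ?_
    rw [_root_.smul_apply, inner_smul_left, starRingEnd_self_apply]
  have e2 : ∀ j, ⟪(v j) T.Ω, (y * x) ((v j) T.Ω)⟫_ℂ =
      ∑ i, l i j * ⟪(v j) T.Ω, y ((v i) T.Ω)⟫_ℂ := by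
    intro j
    have a1 : (y * x) ((v j) T.Ω) = y ((x * v j) T.Ω) := rfl
    rw [a1, hxv j, _root_.sum_apply, map_sum, inner_sum]
    refine Finset.sum_congr rfl fun i _ => ?_
    rw [_root_.smul_apply, map_smul, inner_smul_right]
  simp only [e1, e2]
  exact Finset.sum_comm

end LTypeI

open LTypeI in
theorem lTypeI_proof (hCorner : Stmt_Corner.{u}) (hNS : Stmt_NonscalarProj.{u})
    (hAvg : Stmt_Avg.{u}) (hPIso : Stmt_PIso.{u}) (hJ3 : Stmt_LJ3.{u}) : Stmt_LTypeI.{u} := by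
  intro H _ _ _ M N Ω hM hNM hNF hNI T hTΩ hTS
  by_contra hcon
  unfold TVN.NoMin at hcon
  push Not at hcon
  obtain ⟨p, hp, hpp, hp0, hmin⟩ := hcon
  have hmin' : ∀ q ∈ T.S, IsStarProjection q → q ≠ 0 → q * p = q → q = p := by
    intro q hq hqp hq0 hqq
    by_contra hne
    exact hmin q hq hqp hq0 hne hqq
  have hT : T.Factor := fun x hx hxc => hNF x ((hTS x).1 hx) fun y hy => hxc y ((hTS y).2 hy)
  have hc := corner_scalar hCorner hNS T hp hpp hp0 hmin'
  obtain ⟨m, v, hv, hv1⟩ := exists_fam hAvg hPIso T hT hp hpp hp0 hmin'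
  refine hNI (hJ3 H M N Ω hM hNM ⟨phi T v, ⟨fun y => ?_, fun x hx => ?_, fun x hx y => ?_⟩⟩)
  · rw [phi_pos, Complex.ofReal_re, Complex.ofReal_im]
    exact ⟨Finset.sum_nonneg fun i _ => sq_nonneg _, rfl⟩
  · rw [phi_trace hv hv1 ((hTS x).2 hx), hTΩ]
  · exact phi_central hpp hc hv hv1 ((hTS x).2 hx) y

end Pool.Agent.OS
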