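import Pool.Agent.OS.All
import Pool.Agent.OS.LCaseA
import Pool.Agent.OS.LCaseB
import Pool.Agent.OS.LConjInj
import Pool.Agent.OS.LCopies
import Pool.Agent.OS.LCover
import Pool.Agent.OS.LCutAlg
import Pool.Agent.OS.LCutEx
import Pool.Agent.OS.LCutInj
import Pool.Agent.OS.LCutSep
import Pool.Agent.OS.LCutSmall
import Pool.Agent.OS.LCutTriv
import Pool.Agent.OS.LDens
import Pool.Agent.OS.LDix
import Pool.Agent.OS.LExact
import Pool.Agent.OS.LFac
import Pool.Agent.OS.LFinal
import Pool.Agent.OS.LGam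
import Pool.Agent.OS.LIndepN
import Pool.Agent.OS.LInter
import Pool.Agent.OS.LJ3
import Pool.Agent.OS.LMinTriv
import Pool.Agent.OS.LMono
import Pool.Agent.OS.LMonoRel
import Pool.Agent.OS.LSep
import Pool.Agent.OS.LTheta
import Pool.Agent.OS.LTrMul
import Pool.Agent.OS.LTypeI

set_option autoImplicit false

/-!
# All modules of the literal part combined
-/

namespace Pool.Agent.OS.All

universe u

theorem lDens : Stmt_LDens.{u} := lDens_proof
theorem lGam : Stmt_LGam.{u} := lGam_proof
theorem lInter : Stmt_LInter.{u} := lInter_proof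
theorem lTheta : Stmt_LTheta.{u} := lTheta_proof
theorem lConjInj : Stmt_LConjInj.{u} := lConjInj_proof j1 j3
theorem lFac : Stmt_LFac.{u} := lFac_proof ofVN
theorem lDix : Stmt_LDix.{u} := lDix_proof avg
theorem lJ3 : Stmt_LJ3.{u} := lJ3_proof riesz ofVN
theorem lTypeI : Stmt_LTypeI.{u} := lTypeI_proof corner nonscalarProj avg pIso lJ3
theorem lExact : Stmt_LExact.{u} := lExact_proof divide
theorem lCopies : Stmt_LCopies.{u} := lCopies_proof lExact compare
theorem lCover : Stmt_LCover.{u} := lCover_proof lExact divide compare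
theorem lMinTriv : Stmt_LMinTriv.{u} := lMinTriv_proof corner nonscalarProj
theorem lTrMul : Stmt_LTrMul.{u} := lTrMul_proof lDix ofVN
theorem lIndepN : Stmt_LIndepN.{u} := lIndepN_proof lDix ofVN
theorem lSep : Stmt_LSep.{u} := lSep_proof perturb ofVN lDens lFac lDix
theorem lMono : Stmt_LMono.{u} := lMono_proof ofVN ultra divide partNoMin
theorem lMonoRel : Stmt_LMonoRel.{u} := lMonoRel_proof ofVN divide partNoMin
theorem lCutEx : Stmt_LCutEx.{u} :=
  lCutEx_proof lTypeI lExact lCopies lCover lMinTriv lTrMul ofVN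
theorem lCutAlg : Stmt_LCutAlg.{u} := lCutAlg_proof
theorem lCutTriv : Stmt_LCutTriv.{u} := lCutTriv_proof
theorem lCutSep : Stmt_LCutSep.{u} := lCutSep_proof lDens lCutAlg ofVN
theorem lCutInj : Stmt_LCutInj.{u} := lCutInj_proof j1 lJ3 lTrMul ofVN
theorem lCutSmall : Stmt_LCutSmall.{u} := lCutSmall_proof lIndepN nearProj lDens lCutAlg
theorem lCaseA : Stmt_LCaseA.{u} :=
  lCaseA_proof lInter lTheta lConjInj lDens lFac lDix partNoMin ofVN
theorem lCaseB : Stmt_LCaseB.{u} := lCaseB_proof lGam lDens p0 indep j1 j3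
theorem lit : Stmt_Lit.{u} :=
  lFinal_proof ofVN diff qB qA qE ultra lSep lMono lMonoRel lCutEx lCutAlg lCutTriv lCutSep
    lCutInj lCutSmall lCaseA lCaseB

end Pool.Agent.OS.All
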