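import Pool.Agent.OS.Main

set_option autoImplicit false

/-!
# The literal (subfactor) form of MP_7c16f6_an: definitions

In the problem file solidity is tested on noninjective SUBFACTORS only.  The literal part reduces
the literal question to subfactors with property Gamma.
-/

open Filter Topology
open scoped InnerProductSpace

namespace Pool.Agent.OS

universe u

variable {H : Type u} [NormedAddCommGroup H] [InnerProductSpace ℂ H] [CompleteSpace H]

/-- the von Neumann algebra `N` is a factor -/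
def IsFactorVN (N : VonNeumannAlgebra H) : Prop :=
  ∀ x ∈ N, (∀ y ∈ N, x * y = y * x) → ∃ c : ℂ, x = c • (1 : H →L[ℂ] H)

/-- `M` is solid in the sense of the problem: the relative commutant of every noninjective
SUBFACTOR is not diffuse. -/
def LSolid (M : VonNeumannAlgebra H) : Prop :=
  ∀ N : VonNeumannAlgebra H, N ≤ M → IsFactorVN N → ¬ Injective N → ¬ DiffuseRelComm M N

/-- `M` is `ω`-solid in the sense of the problem (noninjective subfactors). -/
def LOmegaSolid (ω : Ultrafilter ℕ) (Ω : H) (M : VonNeumannAlgebra H) : Prop :=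
  ∀ N : VonNeumannAlgebra H, N ≤ M → IsFactorVN N → ¬ Injective N → ¬ DiffuseUltra ω Ω M N

/-- The literal theorem: a solid `II_1` factor which is not `ω`-solid contains a noninjective
subfactor `P` which is again solid and for which one may take `N = M = P`:
`P' ∩ P^ω'` is diffuse for every free ultrafilter `ω'` (property Gamma). -/
def Stmt_Lit : Prop :=
  ∀ (H : Type u) [NormedAddCommGroup H] [InnerProductSpace ℂ H] [CompleteSpace H]
    (M : VonNeumannAlgebra H) (Ω : H), IsII1 M Ω → LSolid M →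
    ∀ ω : Ultrafilter ℕ, (ω : Filter ℕ) ≤ cofinite → ¬ LOmegaSolid ω Ω M →
    ∃ P : VonNeumannAlgebra H, P ≤ M ∧ IsFactorVN P ∧ ¬ Injective P ∧ LSolid P ∧
      ∀ ω' : Ultrafilter ℕ, (ω' : Filter ℕ) ≤ cofinite → DiffuseUltra ω' Ω P P

/-! ## Auxiliary definitions for the modules -/

/-- a 2-norm dense sequence -/
def SepVN (Ω : H) (N : VonNeumannAlgebra H) : Prop :=
  ∃ x : ℕ → H →L[ℂ] H, (∀ i, x i ∈ N) ∧ ∀ y ∈ N, ∀ ε > 0, ∃ i, ‖(x i - y) Ω‖ ≤ ε

/-- a finite convex combination of conjugates of `x` by unitaries in `A` is `ε`-close to `z` -/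
def AvgTo (A : Set (H →L[ℂ] H)) (Ω : H) (x : H →L[ℂ] H) (z : ℂ) (ε : ℝ) : Prop :=
  ∃ (k : ℕ) (c : Fin k → ℝ) (w : Fin k → H →L[ℂ] H), (∀ i, 0 ≤ c i) ∧ ∑ i, c i = 1 ∧
    (∀ i, w i ∈ A ∧ w i ∈ unitary (H →L[ℂ] H)) ∧
    ‖(∑ i, (c i : ℂ) • (w i * x * star (w i)) - z • (1 : H →L[ℂ] H)) Ω‖ ≤ ε

/-- the relative commutant `X' ∩ M` as a von Neumann algebra -/
noncomputable def relVN (M : VonNeumannAlgebra H) (X : Set (H →L[ℂ] H))
    (hX : ∀ a ∈ X, star a ∈ X) : VonNeumannAlgebra H where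
  carrier := {x | x ∈ M ∧ ∀ a ∈ X, a * x = x * a}
  mul_mem' := fun {a b} ha hb => ⟨mul_mem ha.1 hb.1, fun x hx => by
    rw [← mul_assoc, ha.2 x hx, mul_assoc, hb.2 x hx, mul_assoc]⟩
  one_mem' := ⟨one_mem _, fun x _ => by simp⟩
  add_mem' := fun {a b} ha hb => ⟨add_mem ha.1 hb.1, fun x hx => by
    rw [mul_add, add_mul, ha.2 x hx, hb.2 x hx]⟩
  zero_mem' := ⟨zero_mem _, fun x _ => by simp⟩
  algebraMap_mem' := fun r => ⟨algebraMap_mem M.toStarSubalgebra r, fun x _ => by
    rw [Algebra.algebraMap_eq_smul_one]; simp⟩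
  star_mem' := fun {a} ha => ⟨star_mem ha.1, fun x hx => by
    have h := ha.2 (star x) (hX x hx)
    have := congrArg star h
    simpa [star_mul] using this.symm⟩
  centralizer_centralizer' := by
    have h : {x : H →L[ℂ] H | x ∈ M ∧ ∀ a ∈ X, a * x = x * a} =
        Set.centralizer (Set.centralizer (M : Set (H →L[ℂ] H)) ∪ X) := by
      ext x
      rw [Set.centralizer_union, M.centralizer_centralizer]
      exact Iff.rfl
    change Set.centralizer (Set.centralizer {x : H →L[ℂ] H | x ∈ M ∧ ∀ a ∈ X, a * x = x * a}) =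
      {x : H →L[ℂ] H | x ∈ M ∧ ∀ a ∈ X, a * x = x * a}
    rw [h, Set.centralizer_centralizer_centralizer]

lemma mem_relVN {M : VonNeumannAlgebra H} {X : Set (H →L[ℂ] H)} {hX : ∀ a ∈ X, star a ∈ X}
    {x : H →L[ℂ] H} : x ∈ relVN M X hX ↔ x ∈ M ∧ ∀ a ∈ X, a * x = x * a := Iff.rfl

/-- Data for cutting the pair `N ⊆ M` down to the corner of `n e` (`e` a minimal projection of
`N' ∩ M`, `n` a projection of the factor `N`) and copying it `k` times along the diagonal:
`v_j^* v_j = n e`, `∑ v_j v_j^* = 1`; and the elements `s_a` of `N` which recover `N` from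
`n N n`. -/
structure Cut (M N : VonNeumannAlgebra H) (k m : ℕ) (e n : H →L[ℂ] H) (v : Fin k → H →L[ℂ] H)
    (s : Fin m → H →L[ℂ] H) : Prop where
  e_mem : e ∈ M
  e_proj : IsStarProjection e
  e_ne : e ≠ 0
  e_comm : ∀ x ∈ N, x * e = e * x
  e_min : ∀ z ∈ M, (∀ x ∈ N, x * z = z * x) → z * e = z → e * z = z → ∃ c : ℂ, z = c • e
  n_mem : n ∈ N
  n_proj : IsStarProjection n
  n_ne : n ≠ 0
  v_mem : ∀ j, v j ∈ M
  v_left : ∀ j, star (v j) * v j = n * e
  v_orth : ∀ i j, i ≠ j → star (v i) * v j = 0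
  v_sum : ∑ j, v j * star (v j) = 1
  s_mem : ∀ a, s a ∈ N
  s_right : ∀ a, s a * n = s a
  s_sum : ∑ a, s a * star (s a) = 1

/-- the diagonal copy `∑_j v_j z v_j^*` -/
noncomputable def rho {k : ℕ} (v : Fin k → H →L[ℂ] H) (z : H →L[ℂ] H) : H →L[ℂ] H :=
  ∑ j, v j * z * star (v j)

/-- the matrix units `v_i v_j^*` -/
def mats {k : ℕ} (v : Fin k → H →L[ℂ] H) : Set (H →L[ℂ] H) := {a | ∃ i j, a = v i * star (v j)}

lemma mats_star {k : ℕ} (v : Fin k → H →L[ℂ] H) : ∀ a ∈ mats v, star a ∈ mats v := by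
  rintro a ⟨i, j, rfl⟩
  exact ⟨j, i, by simp [star_mul]⟩

/-- `R = {v_i v_j^*}' ∩ M` -/
noncomputable def cutR (M : VonNeumannAlgebra H) {k : ℕ} (v : Fin k → H →L[ℂ] H) :
    VonNeumannAlgebra H := relVN M (mats v) (mats_star v)

/-- the set of the copies of the elements of `n N n e` -/
def cutX (N : VonNeumannAlgebra H) {k : ℕ} (e n : H →L[ℂ] H) (v : Fin k → H →L[ℂ] H) :
    Set (H →L[ℂ] H) := {a | ∃ y ∈ N, a = rho v (n * y * n * e)}

/-- the amplified algebra (the von Neumann algebra generated by the copies), as a predicate: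
`N₂` is the double commutant of `cutX` -/
def IsCutN (N : VonNeumannAlgebra H) {k : ℕ} (e n : H →L[ℂ] H) (v : Fin k → H →L[ℂ] H)
    (N₂ : VonNeumannAlgebra H) : Prop :=
  (N₂ : Set (H →L[ℂ] H)) = Set.centralizer (Set.centralizer (cutX N e n v))

end Pool.Agent.OS
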