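import Pool.Agent.OS.LStmts
import Pool.Agent.OS.OfVN

set_option autoImplicit false

/-!
# LGam: asymptotically central, asymptotically independent projections give property Gamma
-/

open Filter Topology
open scoped InnerProductSpace

namespace Pool.Agent.OS

universe u

namespace LGam

variable {H : Type u} [NormedAddCommGroup H] [InnerProductSpace ℂ H] [CompleteSpace H]

theorem le_right {M : VonNeumannAlgebra H} {Ω : H} (h : IsII1 M Ω) {z y : H →L[ℂ] H} (hz : z ∈ M)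
    (hy : y ∈ M) {C : ℝ} (hC : ‖y‖ ≤ C) : ‖(z * y) Ω‖ ≤ C * ‖z Ω‖ :=
  (OfVN.norm_mul_vec h hz hy).trans (mul_le_mul_of_nonneg_right hC (norm_nonneg _))

theorem le_left {Ω : H} (x y : H →L[ℂ] H) {C : ℝ} (hC : ‖x‖ ≤ C) :
    ‖(x * y) Ω‖ ≤ C * ‖y Ω‖ :=
  (x.le_opNorm (y Ω)).trans (mul_le_mul_of_nonneg_right hC (norm_nonneg _))

theorem sq_norm_eq {Ω : H} (x : H →L[ℂ] H) :
    ⟪Ω, (star x * x) Ω⟫_ℂ = ((‖x Ω‖ ^ 2 : ℝ) : ℂ) := by
  have : (star x * x) Ω = (star x) (x Ω) := rfl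
  rw [this, OfVN.inner_star_apply, inner_self_eq_norm_sq_to_K]; norm_cast

theorem norm_pf {M : VonNeumannAlgebra H} {Ω : H} (h : IsII1 M Ω) {p f : H →L[ℂ] H} (hp : p ∈ M)
    (hf : f ∈ M) (hff : IsStarProjection f) :
    ((‖(p * f) Ω‖ ^ 2 : ℝ) : ℂ) = ⟪Ω, (f * (star p * p)) Ω⟫_ℂ := by
  have e1 : star (p * f) * (p * f) = f * (star p * p * f) := by
    rw [star_mul, hff.isSelfAdjoint.star_eq]; simp only [mul_assoc]
  have hpp : star p * p ∈ M := mul_mem (star_mem hp) hp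
  have t1 := h.trace f hf (star p * p * f) (mul_mem hpp hf)
  have t2 := h.trace (star p * p) hpp f hf
  have e2 : (star p * p * f) (f Ω) = (star p * p) (f Ω) := by
    have : (star p * p * f) (f Ω) = (star p * p * (f * f)) Ω := rfl
    rw [this, hff.isIdempotentElem.eq]; rfl
  rw [← sq_norm_eq, e1]
  calc ⟪Ω, (f * (star p * p * f)) Ω⟫_ℂ = ⟪Ω, f ((star p * p * f) Ω)⟫_ℂ := rfl
    _ = ⟪Ω, (star p * p * f) (f Ω)⟫_ℂ := t1
    _ = ⟪Ω, (star p * p) (f Ω)⟫_ℂ := by rw [e2]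
    _ = ⟪Ω, f ((star p * p) Ω)⟫_ℂ := t2
    _ = _ := rfl

end LGam

open LGam in
theorem lGam_proof : Stmt_LGam.{u} := by
  intro H _ _ _ M P Ω f t hII hPM ht0 ht1 hf hcomm htr ω hω p hp hp0
  obtain ⟨⟨hpP, C, hC⟩, hsq, hst, hpc⟩ := hp
  have hC0 : 0 ≤ C := (norm_nonneg _).trans (hC 0)
  have hωt : (ω : Filter ℕ) ≤ atTop := by rw [← Nat.cofinite_eq_atTop]; exact hω
  have hfn : ∀ n, ‖f n‖ ≤ 1 := fun n => (hf n).2.norm_le
  have hpM : ∀ n, p n ∈ M := fun n => hPM (hpP n)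
  have hfM : ∀ n, f n ∈ M := fun n => hPM (hf n).1
  have hex : ∀ n : ℕ, ∃ m : ℕ, n ≤ m ∧ ‖(p n * f m - f m * p n) Ω‖ ≤ 1 / ((n : ℝ) + 1) ∧
      ‖⟪Ω, (f m * (star (p n) * p n)) Ω⟫_ℂ - (t : ℂ) * ⟪Ω, (star (p n) * p n) Ω⟫_ℂ‖
        ≤ 1 / ((n : ℝ) + 1) := by
    intro n
    have hpos : (0 : ℝ) < 1 / ((n : ℝ) + 1) := by positivity
    have h1 := (hcomm (p n) (hpP n)).norm
    rw [norm_zero] at h1
    have h1' := h1.eventually (gt_mem_nhds hpos)
    have h2 := htr (star (p n) * p n) (mul_mem (star_mem (hpP n)) (hpP n))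
    have h2' := (tendsto_iff_norm_sub_tendsto_zero.1 h2).eventually (gt_mem_nhds hpos)
    obtain ⟨m, ⟨hm1, hm2⟩, hm3⟩ := ((h1'.and h2').and (eventually_ge_atTop n)).exists
    exact ⟨m, hm3, hm1.le, hm2.le⟩
  choose m hmn hm1 hm2 using hex
  have hmt : Tendsto m ω atTop := tendsto_atTop_mono hmn hωt
  have hinv : Tendsto (fun n : ℕ => 1 / ((n : ℝ) + 1)) ω (𝓝 0) :=
    tendsto_one_div_add_atTop_nhds_zero_nat.mono_left hωt
  have hcf : Tendsto (fun n => ‖(p n * f (m n) - f (m n) * p n) Ω‖) ω (𝓝 0) :=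
    squeeze_zero (fun n => norm_nonneg _) hm1 hinv
  have hcf' : Tendsto (fun n => ‖(f (m n) * p n - p n * f (m n)) Ω‖) ω (𝓝 0) := by
    refine hcf.congr fun n => ?_
    have : (f (m n) * p n - p n * f (m n)) Ω = -((p n * f (m n) - f (m n) * p n) Ω) := by
      simp
    rw [this, norm_neg]
  have hsq' : Tendsto (fun n => ‖(p n * p n - p n) Ω‖) ω (𝓝 0) := hsq
  have hst' : Tendsto (fun n => ‖(star (p n) - p n) Ω‖) ω (𝓝 0) := hst
  -- the norms
  have hdiff : Tendsto (fun n => ‖(p n * f (m n)) Ω‖ ^ 2 - t * ‖(p n) Ω‖ ^ 2) ω (𝓝 0) := by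
    refine squeeze_zero_norm (fun n => ?_) hinv
    have h1 := hm2 n
    rw [← norm_pf hII (hpM n) (hfM _) (hf _).2, sq_norm_eq] at h1
    have e : ((‖(p n * f (m n)) Ω‖ ^ 2 : ℝ) : ℂ) - (t : ℂ) * ((‖(p n) Ω‖ ^ 2 : ℝ) : ℂ) =
        ((‖(p n * f (m n)) Ω‖ ^ 2 - t * ‖(p n) Ω‖ ^ 2 : ℝ) : ℂ) := by push_cast; ring
    rw [e, Complex.norm_real] at h1
    exact h1
  have hnot : ¬ Tendsto (fun n => ‖(p n) Ω‖ ^ 2) ω (𝓝 0) := by
    intro hcon
    apply hp0
    have h1 : Tendsto (fun n => Real.sqrt (‖(p n) Ω‖ ^ 2)) ω (𝓝 (Real.sqrt 0)) :=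
      (Real.continuous_sqrt.tendsto 0).comp hcon
    rw [Real.sqrt_zero] at h1
    have : (fun n => ‖(p n - (0 : ℕ → H →L[ℂ] H) n) Ω‖) =
        fun n => Real.sqrt (‖(p n) Ω‖ ^ 2) := by
      funext n
      rw [Real.sqrt_sq (norm_nonneg _)]
      simp
    unfold EqU
    rw [this]
    exact h1
  have hsqf : Tendsto (fun n => C * ‖(f (m n) * p n - p n * f (m n)) Ω‖ +
      ‖(p n * p n - p n) Ω‖) ω (𝓝 0) := by
    have := (hcf'.const_mul C).add hsq'
    rwa [mul_zero, add_zero] at this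
  have hpnfM : ∀ n, (p n * p n - p n) ∈ M := fun n =>
    sub_mem (mul_mem (hpM n) (hpM n)) (hpM n)
  refine ⟨fun n => p n * f (m n), ⟨⟨fun n => mul_mem (hpP n) (hf _).1, C, fun n => ?_⟩,
    ?_, ?_, ?_⟩, ?_, ?_, ?_⟩
  · calc ‖p n * f (m n)‖ ≤ ‖p n‖ * ‖f (m n)‖ := norm_mul_le _ _
      _ ≤ C * 1 := mul_le_mul (hC n) (hfn _) (norm_nonneg _) hC0
      _ = C := mul_one C
  · -- q^2 = q
    refine squeeze_zero (fun n => norm_nonneg _) (fun n => ?_) hsqf
    have e : p n * f (m n) * (p n * f (m n)) - p n * f (m n) =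
        p n * (f (m n) * p n - p n * f (m n)) * f (m n) + (p n * p n - p n) * f (m n) := by
      have h1 : p n * (f (m n) * p n - p n * f (m n)) * f (m n) =
          p n * f (m n) * (p n * f (m n)) - p n * p n * (f (m n) * f (m n)) := by
        noncomm_ring
      rw [h1, (hf (m n)).2.isIdempotentElem.eq, sub_mul]
      abel
    have hfp : f (m n) * p n - p n * f (m n) ∈ M :=
      sub_mem (mul_mem (hfM _) (hpM n)) (mul_mem (hpM n) (hfM _))
    calc ‖(p n * f (m n) * (p n * f (m n)) - p n * f (m n)) Ω‖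
        = ‖(p n * (f (m n) * p n - p n * f (m n)) * f (m n)) Ω +
            ((p n * p n - p n) * f (m n)) Ω‖ := by rw [e]; rfl
      _ ≤ ‖(p n * (f (m n) * p n - p n * f (m n)) * f (m n)) Ω‖ +
            ‖((p n * p n - p n) * f (m n)) Ω‖ := norm_add_le _ _
      _ ≤ 1 * ‖(p n * (f (m n) * p n - p n * f (m n))) Ω‖ + 1 * ‖(p n * p n - p n) Ω‖ :=
          add_le_add (le_right hII (mul_mem (hpM n) hfp) (hfM _) (hfn _))
            (le_right hII (hpnfM n) (hfM _) (hfn _))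
      _ ≤ C * ‖(f (m n) * p n - p n * f (m n)) Ω‖ + ‖(p n * p n - p n) Ω‖ := by
          rw [one_mul, one_mul]
          exact add_le_add (le_left _ _ (hC n)) le_rfl
  · -- q^* = q
    have h0 : Tendsto (fun n => ‖(star (p n) - p n) Ω‖ +
        ‖(f (m n) * p n - p n * f (m n)) Ω‖) ω (𝓝 0) := by
      have := hst'.add hcf'
      rwa [add_zero] at this
    refine squeeze_zero (fun n => norm_nonneg _) (fun n => ?_) h0
    have e : star (p n * f (m n)) - p n * f (m n) =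
        f (m n) * (star (p n) - p n) + (f (m n) * p n - p n * f (m n)) := by
      rw [star_mul, (hf (m n)).2.isSelfAdjoint.star_eq, mul_sub]; abel
    calc ‖(star (p n * f (m n)) - p n * f (m n)) Ω‖
        = ‖(f (m n) * (star (p n) - p n)) Ω + (f (m n) * p n - p n * f (m n)) Ω‖ := by
          rw [e]; rfl
      _ ≤ ‖(f (m n) * (star (p n) - p n)) Ω‖ + ‖(f (m n) * p n - p n * f (m n)) Ω‖ :=
          norm_add_le _ _
      _ ≤ 1 * ‖(star (p n) - p n) Ω‖ + ‖(f (m n) * p n - p n * f (m n)) Ω‖ :=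
          add_le_add (le_left _ _ (hfn _)) le_rfl
      _ = _ := by rw [one_mul]
  · -- commutes
    intro x hx
    have hx1 : Tendsto (fun n => ‖(x * p n - p n * x) Ω‖) ω (𝓝 0) := hpc x hx
    have hx2 : Tendsto (fun n => ‖(x * f (m n) - f (m n) * x) Ω‖) ω (𝓝 0) := by
      have := (hcomm x hx).norm
      rw [norm_zero] at this
      exact this.comp hmt
    have h0 : Tendsto (fun n => ‖(x * p n - p n * x) Ω‖ +
        C * ‖(x * f (m n) - f (m n) * x) Ω‖) ω (𝓝 0) := by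
      have := hx1.add (hx2.const_mul C)
      rwa [mul_zero, add_zero] at this
    refine squeeze_zero (fun n => norm_nonneg _) (fun n => ?_) h0
    have hxM : x ∈ M := hPM hx
    have e : x * (p n * f (m n)) - p n * f (m n) * x =
        (x * p n - p n * x) * f (m n) + p n * (x * f (m n) - f (m n) * x) := by
      noncomm_ring
    calc ‖(x * (p n * f (m n)) - p n * f (m n) * x) Ω‖
        = ‖((x * p n - p n * x) * f (m n)) Ω + (p n * (x * f (m n) - f (m n) * x)) Ω‖ := by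
          rw [e]; rfl
      _ ≤ ‖((x * p n - p n * x) * f (m n)) Ω‖ + ‖(p n * (x * f (m n) - f (m n) * x)) Ω‖ :=
          norm_add_le _ _
      _ ≤ 1 * ‖(x * p n - p n * x) Ω‖ + C * ‖(x * f (m n) - f (m n) * x) Ω‖ :=
          add_le_add (le_right hII (sub_mem (mul_mem hxM (hpM n)) (mul_mem (hpM n) hxM))
            (hfM _) (hfn _)) (le_left _ _ (hC n))
      _ = _ := by rw [one_mul]
  · -- q ≠ 0
    intro hq
    apply hnot
    have hq' : Tendsto (fun n => ‖(p n * f (m n)) Ω‖) ω (𝓝 0) := by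
      refine Tendsto.congr (fun n => ?_) hq
      simp
    have h1 : Tendsto (fun n => ‖(p n * f (m n)) Ω‖ ^ 2 -
        (‖(p n * f (m n)) Ω‖ ^ 2 - t * ‖(p n) Ω‖ ^ 2)) ω (𝓝 0) := by
      have := (hq'.pow 2).sub hdiff
      simpa using this
    have h2 := h1.const_mul (t⁻¹)
    rw [mul_zero] at h2
    refine h2.congr fun n => ?_
    field_simp
    ring
  · -- q ≠ p
    intro hq
    apply hnot
    have hq' : Tendsto (fun n => ‖(p n * f (m n) - p n) Ω‖) ω (𝓝 0) := hq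
    have hΩ : ‖Ω‖ = 1 := hII.norm_Ω
    have hpb : ∀ n, ‖(p n) Ω‖ ≤ C := fun n => by
      have := (p n).le_opNorm Ω
      rw [hΩ, mul_one] at this
      exact this.trans (hC n)
    have hqb : ∀ n, ‖(p n * f (m n)) Ω‖ ≤ C := fun n => by
      have := le_right hII (hpM n) (hfM (m n)) (hfn (m n))
      rw [one_mul] at this
      exact this.trans (hpb n)
    have h1 : Tendsto (fun n => ‖(p n) Ω‖ ^ 2 - ‖(p n * f (m n)) Ω‖ ^ 2) ω (𝓝 0) := by
      have h2 := hq'.const_mul (2 * C)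
      rw [mul_zero] at h2
      refine squeeze_zero_norm (fun n => ?_) h2
      have e : ‖(p n) Ω‖ ^ 2 - ‖(p n * f (m n)) Ω‖ ^ 2 =
          (‖(p n) Ω‖ + ‖(p n * f (m n)) Ω‖) * (‖(p n) Ω‖ - ‖(p n * f (m n)) Ω‖) := by ring
      rw [e, norm_mul, Real.norm_eq_abs, Real.norm_eq_abs, abs_of_nonneg (by positivity)]
      have h3 : |‖(p n) Ω‖ - ‖(p n * f (m n)) Ω‖| ≤ ‖(p n * f (m n) - p n) Ω‖ := by
        rw [abs_sub_comm]
        exact abs_norm_sub_norm_le _ _
      have h4 := hpb n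
      have h5 := hqb n
      exact mul_le_mul (by linarith) h3 (abs_nonneg _) (by linarith)
    have h2 := (h1.add hdiff).const_mul ((1 - t)⁻¹)
    rw [add_zero, mul_zero] at h2
    refine h2.congr fun n => ?_
    have : 1 - t ≠ 0 := by linarith
    field_simp
    ring
  · -- q p = q
    refine squeeze_zero (fun n => norm_nonneg _) (fun n => ?_) hsqf
    have e : p n * f (m n) * p n - p n * f (m n) =
        p n * (f (m n) * p n - p n * f (m n)) + (p n * p n - p n) * f (m n) := by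
      noncomm_ring
    calc ‖(p n * f (m n) * p n - p n * f (m n)) Ω‖
        = ‖(p n * (f (m n) * p n - p n * f (m n))) Ω + ((p n * p n - p n) * f (m n)) Ω‖ := by
          rw [e]; rfl
      _ ≤ ‖(p n * (f (m n) * p n - p n * f (m n))) Ω‖ + ‖((p n * p n - p n) * f (m n)) Ω‖ :=
          norm_add_le _ _
      _ ≤ C * ‖(f (m n) * p n - p n * f (m n)) Ω‖ + 1 * ‖(p n * p n - p n) Ω‖ :=
          add_le_add (le_left _ _ (hC n)) (le_right hII (hpnfM n) (hfM _) (hfn _))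
      _ = _ := by rw [one_mul]

end Pool.Agent.OS
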